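import Pool.Agent.Lib.MP_9dcace_sx.Base

/-!
MP_9dcace_co, section G (geometry): definitions and elementary facts on determinants.
`Tri P u v w` : the plane through `P u, P v, P w` has all other points strictly on one side
(`dt (P v - P u) (P w - P u) (P z - P u) < 0`): an oriented triangular facet.
-/

set_option autoImplicit false

namespace Pool.SX

/-- points of space -/
abbrev E3 := Fin 3 → ℝ

/-- scalar product -/
def dp (a x : E3) : ℝ := ∑ i, a i * x i

/-- determinant of three vectors -/
def dt (x y z : E3) : ℝ :=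
  x 0 * (y 1 * z 2 - y 2 * z 1) - x 1 * (y 0 * z 2 - y 2 * z 0) + x 2 * (y 0 * z 1 - y 1 * z 0)

/-- cross product: `dp (cr x y) z = dt x y z` -/
def cr (x y : E3) : E3 := ![x 1 * y 2 - x 2 * y 1, x 2 * y 0 - x 0 * y 2, x 0 * y 1 - x 1 * y 0]

theorem dp_def (a x : E3) : dp a x = a 0 * x 0 + a 1 * x 1 + a 2 * x 2 := by
  simp [dp, Fin.sum_univ_three]

theorem dp_sub (a x y : E3) : dp a (x - y) = dp a x - dp a y := by
  simp only [dp_def, Pi.sub_apply]; ring

theorem dp_add (a x y : E3) : dp a (x + y) = dp a x + dp a y := by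
  simp only [dp_def, Pi.add_apply]; ring

theorem dp_smul (a : E3) (t : ℝ) (x : E3) : dp a (t • x) = t * dp a x := by
  simp only [dp_def, Pi.smul_apply, smul_eq_mul]; ring

theorem dp_neg (a x : E3) : dp a (-x) = -dp a x := by
  simp only [dp_def, Pi.neg_apply]; ring

theorem dp_add_left (a b x : E3) : dp (a + b) x = dp a x + dp b x := by
  simp only [dp_def, Pi.add_apply]; ring

theorem dp_sub_left (a b x : E3) : dp (a - b) x = dp a x - dp b x := by
  simp only [dp_def, Pi.sub_apply]; ring

theorem dp_smul_left (t : ℝ) (a x : E3) : dp (t • a) x = t * dp a x := by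
  simp only [dp_def, Pi.smul_apply, smul_eq_mul]; ring

theorem dp_neg_left (a x : E3) : dp (-a) x = -dp a x := by
  simp only [dp_def, Pi.neg_apply]; ring

theorem dp_comm (a x : E3) : dp a x = dp x a := by
  simp only [dp_def]; ring

theorem dp_self_pos {a : E3} (h : a ≠ 0) : 0 < dp a a := by
  rw [dp_def]
  by_contra hle
  apply h
  have h0 : a 0 * a 0 ≤ 0 := by nlinarith [mul_self_nonneg (a 0), mul_self_nonneg (a 1), mul_self_nonneg (a 2)]
  have h1 : a 1 * a 1 ≤ 0 := by nlinarith [mul_self_nonneg (a 0), mul_self_nonneg (a 1), mul_self_nonneg (a 2)]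
  have h2 : a 2 * a 2 ≤ 0 := by nlinarith [mul_self_nonneg (a 0), mul_self_nonneg (a 1), mul_self_nonneg (a 2)]
  have e0 : a 0 = 0 := by nlinarith [mul_self_nonneg (a 0)]
  have e1 : a 1 = 0 := by nlinarith [mul_self_nonneg (a 1)]
  have e2 : a 2 = 0 := by nlinarith [mul_self_nonneg (a 2)]
  funext i
  fin_cases i
  · exact e0
  · exact e1
  · exact e2

theorem dp_cr (x y z : E3) : dp (cr x y) z = dt x y z := by
  simp only [dp_def, cr, dt, Matrix.cons_val_zero, Matrix.cons_val_one, Matrix.cons_val]
  ring

theorem dt_rot (x y z : E3) : dt x y z = dt y z x := by simp only [dt]; ring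
theorem dt_swap (x y z : E3) : dt y x z = -dt x y z := by simp only [dt]; ring
theorem dt_swap' (x y z : E3) : dt x z y = -dt x y z := by simp only [dt]; ring
theorem dt_self (x z : E3) : dt x x z = 0 := by simp only [dt]; ring
theorem dt_self' (x z : E3) : dt x z x = 0 := by simp only [dt]; ring
theorem dt_self'' (x z : E3) : dt z x x = 0 := by simp only [dt]; ring

/-- Cramer's rule, four vectors in space -/
theorem cramer (x y z w : E3) (a : E3) :
    dt x y z * dp a w = dt w y z * dp a x + dt x w z * dp a y + dt x y w * dp a z := by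
  simp only [dt, dp_def]; ring

variable {V : Type} [Fintype V]

/-- four point determinant -/
def D4 (P : V → E3) (u v w z : V) : ℝ := dt (P v - P u) (P w - P u) (P z - P u)

omit [Fintype V] in
theorem D4_rot (P : V → E3) (u v w z : V) : D4 P v w u z = D4 P u v w z := by
  simp only [D4, dt, Pi.sub_apply]; ring

omit [Fintype V] in
theorem D4_swap (P : V → E3) (u v w z : V) : D4 P v u w z = -D4 P u v w z := by
  simp only [D4, dt, Pi.sub_apply]; ring

omit [Fintype V] in
theorem D4_swap' (P : V → E3) (u v w z : V) : D4 P u w v z = -D4 P u v w z := by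
  simp only [D4, dt, Pi.sub_apply]; ring

omit [Fintype V] in
theorem D4_swap'' (P : V → E3) (u v w z : V) : D4 P u v z w = -D4 P u v w z := by
  simp only [D4, dt, Pi.sub_apply]; ring

/-- oriented triangular facet of the configuration `P` -/
def Tri (P : V → E3) (u v w : V) : Prop :=
  u ≠ v ∧ v ≠ w ∧ w ≠ u ∧ ∀ z, z ≠ u → z ≠ v → z ≠ w → D4 P u v w z < 0

/-- `P` is the vertex set of a simplicial 3-polytope -/
structure SPoly (P : V → E3) : Prop where
  /-- every point is exposed -/
  ext : ∀ v : V, ∃ a : E3, ∀ z : V, z ≠ v → dp a (P z) < dp a (P v)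
  /-- not contained in a plane -/
  span : ∀ (a : E3) (c : ℝ), (∀ z : V, dp a (P z) = c) → a = 0
  /-- a supporting plane contains at most three of the points -/
  simp : ∀ (a : E3) (c : ℝ), a ≠ 0 → (∀ z : V, dp a (P z) ≤ c) →
    (Finset.univ.filter fun z : V => dp a (P z) = c).card ≤ 3

/-- link vertices -/
def Lk (P : V → E3) (u x : V) : Prop := ∃ y, Tri P u x y

end Pool.SX
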