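import Pool.Agent.Lib.MP_9dcace_sx.CDefs
set_option autoImplicit false

/-! Row C1. Links of vertices of a triangulated sphere. The link of u is the cycle of the map
v ↦ w with T u v w. Hints: opp applied to T u v w gives T v u p, rot gives T u p v (predecessor);
rot twice and opp give the successor. desc_uniq: the map v ↦ w is a bijection of the neighbours of u,
so the number of steps leaving P equals the number of steps entering P (finite counting), or: both
predecessor chains from the unique leaving step; if two entering steps existed, one of them would be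
reached backwards through P only, contradiction. -/

namespace Pool.SX
open Relation
variable {V : Type} [Fintype V] (S : Sph V)

theorem Sph.rot2 {u v w : V} (h : S.T u v w) : S.T w u v := S.rot (S.rot h)

theorem Sph.ne3 {u v w : V} (h : S.T u v w) : u ≠ v ∧ v ≠ w ∧ u ≠ w :=
  ⟨S.ne h, S.ne (S.rot h), (S.ne (S.rot2 h)).symm⟩

theorem Sph.adj_symm {u v : V} (h : S.Adj u v) : S.Adj v u := by
  obtain ⟨w, hw⟩ := h
  obtain ⟨w', _, hw'⟩ := S.opp hw
  exact ⟨w', hw'⟩

theorem Sph.prv {u v w : V} (h : S.T u v w) : ∃ p : V, S.T u p v := by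
  obtain ⟨p, _, hp⟩ := S.opp h
  exact ⟨p, S.rot hp⟩

theorem Sph.nxt {u v w : V} (h : S.T u v w) : ∃ x : V, S.T u w x := by
  obtain ⟨x, _, hx⟩ := S.opp (S.rot2 h)
  exact ⟨x, hx⟩

theorem Sph.prv_uniq {u v v' w : V} (h : S.T u v w) (h' : S.T u v' w) : v = v' :=
  S.uniq (S.rot2 h) (S.rot2 h')

theorem Sph.no_rev {u v w : V} (h : S.T u v w) : ¬ S.T v u w := by
  intro h'
  obtain ⟨w', hne, hw'⟩ := S.opp h
  exact hne (S.uniq hw' h')

theorem Sph.adj_of_T {u v w : V} (h : S.T u v w) : S.Adj u v ∧ S.Adj u w ∧ S.Adj v w :=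
  ⟨⟨w, h⟩, S.adj_symm ⟨v, S.rot2 h⟩, ⟨u, S.rot h⟩⟩

theorem Sph.link_adj {u v v' : V} (h : S.Adj u v) (h' : S.Adj u v') :
    ReflTransGen (fun x y => S.T u x y) v v' := by
  obtain ⟨w, hw⟩ := h
  obtain ⟨w', hw'⟩ := h'
  exact S.link hw hw'

private theorem C1_cross {A : Type} (r : A → A → Prop) (P : A → Prop) {a b : A}
    (h : ReflTransGen r a b) (ha : P a) (hb : ¬ P b) : ∃ x y : A, r x y ∧ P x ∧ ¬ P y := by
  induction h with
  | refl => exact absurd ha hb
  | tail h1 h2 ih =>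
    rename_i b' c'
    by_cases hc : P b'
    · exact ⟨b', c', h2, hc, hb⟩
    · exact ih hc

/-- leaving a set P along the link -/
theorem Sph.cross {u v v' : V} (P : V → Prop) (h : S.Adj u v) (hP : P v) (h' : S.Adj u v')
    (hP' : ¬ P v') : ∃ x y : V, S.T u x y ∧ P x ∧ ¬ P y :=
  C1_cross (fun x y => S.T u x y) P (S.link_adj h h') hP hP'

/-- if there is only one step leaving P then there is only one step entering P -/
theorem Sph.desc_uniq {u : V} (P : V → Prop)
    (huniq : ∀ v v' w w' : V, S.T u v w → S.T u v' w' → P v → ¬ P w → P v' → ¬ P w' → v = v')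
    {v v' w w' : V} (h : S.T u w v) (h' : S.T u w' v') (hw : ¬ P w) (hv : P v) (hw' : ¬ P w')
    (hv' : P v') : v = v' := by
  classical
  set A : Finset (V × V) := Finset.univ.filter (fun p => S.T u p.1 p.2 ∧ P p.1) with hA
  set B : Finset (V × V) := Finset.univ.filter (fun p => S.T u p.1 p.2 ∧ P p.2) with hB
  have mA : ∀ p : V × V, p ∈ A ↔ S.T u p.1 p.2 ∧ P p.1 := fun p => by
    rw [hA, Finset.mem_filter]
    exact ⟨fun q => q.2, fun q => ⟨Finset.mem_univ _, q⟩⟩
  have mB : ∀ p : V × V, p ∈ B ↔ S.T u p.1 p.2 ∧ P p.2 := fun p => by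
    rw [hB, Finset.mem_filter]
    exact ⟨fun q => q.2, fun q => ⟨Finset.mem_univ _, q⟩⟩
  have hcard : A.card = B.card := by
    have hiA : (A.image Prod.fst).card = A.card := by
      apply Finset.card_image_of_injOn
      intro p hp q hq hpq
      have h1 := ((mA p).mp hp).1
      have h2 := ((mA q).mp hq).1
      have hpq' : p.1 = q.1 := hpq
      rw [hpq'] at h1
      exact Prod.ext hpq' (S.uniq h1 h2)
    have hiB : (B.image Prod.snd).card = B.card := by
      apply Finset.card_image_of_injOn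
      intro p hp q hq hpq
      have h1 := ((mB p).mp hp).1
      have h2 := ((mB q).mp hq).1
      have hpq' : p.2 = q.2 := hpq
      rw [hpq'] at h1
      exact Prod.ext (S.prv_uniq h1 h2) hpq'
    rw [← hiA, ← hiB]
    congr 1
    ext x
    constructor
    · intro hx
      obtain ⟨p, hp, rfl⟩ := Finset.mem_image.mp hx
      obtain ⟨h1, h2⟩ := (mA p).mp hp
      obtain ⟨q, hq⟩ := S.prv h1
      exact Finset.mem_image.mpr ⟨(q, p.1), (mB _).mpr ⟨hq, h2⟩, rfl⟩
    · intro hx
      obtain ⟨p, hp, rfl⟩ := Finset.mem_image.mp hx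
      obtain ⟨h1, h2⟩ := (mB p).mp hp
      obtain ⟨q, hq⟩ := S.nxt h1
      exact Finset.mem_image.mpr ⟨(p.2, q), (mA _).mpr ⟨hq, h2⟩, rfl⟩
  have h1 : (A \ B).card ≤ 1 := by
    rw [Finset.card_le_one]
    intro p hp q hq
    obtain ⟨p1, p2⟩ := Finset.mem_sdiff.mp hp
    obtain ⟨q1, q2⟩ := Finset.mem_sdiff.mp hq
    obtain ⟨p3, p4⟩ := (mA p).mp p1
    obtain ⟨q3, q4⟩ := (mA q).mp q1
    have e1 : p.1 = q.1 := huniq p.1 q.1 p.2 q.2 p3 q3 p4 (fun hh => p2 ((mB p).mpr ⟨p3, hh⟩)) q4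
      (fun hh => q2 ((mB q).mpr ⟨q3, hh⟩))
    refine Prod.ext e1 ?_
    rw [e1] at p3
    exact S.uniq p3 q3
  have h2 : (B \ A).card ≤ 1 := by
    rw [← Finset.card_sdiff_comm hcard]
    exact h1
  rw [Finset.card_le_one] at h2
  have h3 := h2 (w, v) (Finset.mem_sdiff.mpr ⟨(mB _).mpr ⟨h, hv⟩, fun hh => hw ((mA _).mp hh).2⟩)
    (w', v') (Finset.mem_sdiff.mpr ⟨(mB _).mpr ⟨h', hv'⟩, fun hh => hw' ((mA _).mp hh).2⟩)
  exact congrArg Prod.snd h3

end Pool.SX
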