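import Pool.Agent.Lib.MP_9dcace_sx.C1
set_option autoImplicit false

/-! Row CS5. The inner faces are connected across edges. -/

namespace Pool.SX
open Relation
variable {V : Type} [Fintype V] (S : Sph V)

/-- the triple u, v, w is the outer face a 1, a 0, a 2 up to rotation -/
def OutF (a : Fin 3 → V) (u v w : V) : Prop :=
  (u = a 1 ∧ v = a 0 ∧ w = a 2) ∨ (u = a 0 ∧ v = a 2 ∧ w = a 1) ∨ (u = a 2 ∧ v = a 1 ∧ w = a 0)

omit [Fintype V] in
theorem CS5_rot {a : Fin 3 → V} {u v w : V} (h : OutF a u v w) : OutF a v w u := by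
  rcases h with ⟨h1, h2, h3⟩ | ⟨h1, h2, h3⟩ | ⟨h1, h2, h3⟩
  · exact Or.inr (Or.inl ⟨h2, h3, h1⟩)
  · exact Or.inr (Or.inr ⟨h2, h3, h1⟩)
  · exact Or.inl ⟨h2, h3, h1⟩

omit [Fintype V] in
/-- an outer face at u is determined by u -/
theorem CS5_third {a : Fin 3 → V} (h10 : a 1 ≠ a 0) (h02 : a 0 ≠ a 2) (h12 : a 1 ≠ a 2)
    {u v w v' w' : V} (h : OutF a u v w) (h' : OutF a u v' w') : v = v' ∧ w = w' := by
  rcases h with ⟨h1, h2, h3⟩ | ⟨h1, h2, h3⟩ | ⟨h1, h2, h3⟩ <;>
  rcases h' with ⟨k1, k2, k3⟩ | ⟨k1, k2, k3⟩ | ⟨k1, k2, k3⟩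
  · exact ⟨h2.trans k2.symm, h3.trans k3.symm⟩
  · exact absurd (h1.symm.trans k1) h10
  · exact absurd (h1.symm.trans k1) h12
  · exact absurd (k1.symm.trans h1) h10
  · exact ⟨h2.trans k2.symm, h3.trans k3.symm⟩
  · exact absurd (h1.symm.trans k1) h02
  · exact absurd (k1.symm.trans h1) h12
  · exact absurd (k1.symm.trans h1) h02
  · exact ⟨h2.trans k2.symm, h3.trans k3.symm⟩

omit [Fintype V] in
/-- the two faces at an edge are not both outer -/
theorem CS5_two {a : Fin 3 → V} (h10 : a 1 ≠ a 0) (h02 : a 0 ≠ a 2) (h12 : a 1 ≠ a 2)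
    {u v w w' : V} (h : OutF a u v w) (h' : OutF a v u w') : False := by
  rcases h with ⟨h1, h2, h3⟩ | ⟨h1, h2, h3⟩ | ⟨h1, h2, h3⟩ <;>
  rcases h' with ⟨k1, k2, k3⟩ | ⟨k1, k2, k3⟩ | ⟨k1, k2, k3⟩
  · exact h10 (k1.symm.trans h2)
  · exact h12 (h1.symm.trans k2)
  · exact h02 (h2.symm.trans k1)
  · exact h12 (k1.symm.trans h2)
  · exact h02 (k1.symm.trans h2)
  · exact h10 (k2.symm.trans h1)
  · exact h02 (k2.symm.trans h1)
  · exact h10 (h2.symm.trans k1)
  · exact h12 (h2.symm.trans k1)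

theorem Sph.inner_face (S : Sph V) {a : Fin 3 → V} (hf : S.T (a 1) (a 0) (a 2)) (u : V) :
    ∃ v w : V, S.T u v w ∧ ¬ OutF a u v w := by
  obtain ⟨h10, h02, h12⟩ := S.ne3 hf
  obtain ⟨v, w, h⟩ := S.cov u
  by_cases ho : OutF a u v w
  · obtain ⟨x, hx⟩ := S.nxt h
    refine ⟨w, x, hx, fun ho' => ?_⟩
    have := (CS5_third h10 h02 h12 ho ho').1
    exact (S.ne3 h).2.1 this
  · exact ⟨v, w, h, ho⟩

/-- all inner faces at a vertex have the same value -/
theorem Sph.CS5_vertex (S : Sph V) {a : Fin 3 → V} (hf : S.T (a 1) (a 0) (a 2))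
    (X : V → V → V → ℝ) (hrot : ∀ u v w : V, S.T u v w → X u v w = X v w u)
    (hX : ∀ u v w w' : V, S.T u v w → S.T v u w' → ¬ OutF a u v w → ¬ OutF a v u w' →
      X u v w = X v u w') (u : V) :
    ∃ c : ℝ, ∀ v w : V, S.T u v w → ¬ OutF a u v w → X u v w = c := by
  obtain ⟨h10, h02, h12⟩ := S.ne3 hf
  have key : ∀ v0 y0 : V, S.T u v0 y0 → (∀ z' z : V, S.T u z' z → OutF a u z' z → z = v0) →
      ¬ OutF a u v0 y0 → ∀ v w : V, S.T u v w → ¬ OutF a u v w → X u v w = X u v0 y0 := by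
    intro v0 y0 h0 H hn0 v w h hn
    have hl : ReflTransGen (fun x y => S.T u x y) v0 v := S.link h0 h
    have claim : ∀ z, ReflTransGen (fun x y => S.T u x y) v0 z → ∀ y, S.T u z y →
        ¬ OutF a u z y → X u z y = X u v0 y0 := by
      intro z hz
      induction hz with
      | refl =>
        intro y hy _
        rw [S.uniq hy h0]
      | @tail z' z hz' hstep ih =>
        intro y hy hny
        have hstep' : S.T u z' z := hstep
        by_cases ho : OutF a u z' z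
        · have e : z = v0 := H z' z hstep' ho
          subst e
          rw [S.uniq hy h0]
        · have h1 := ih z hstep' ho
          have h2 : S.T z u z' := S.rot2 hstep'
          have h3 : ¬ OutF a z u z' := fun hh => ho (CS5_rot hh)
          rw [hX u z y z' hy h2 hny h3, hrot z u z' h2, h1]
    exact claim v hl w h hn
  by_cases hex : ∃ p q : V, S.T u p q ∧ OutF a u p q
  · obtain ⟨p, q, hpq, hopq⟩ := hex
    obtain ⟨y0, hy0⟩ := S.nxt hpq
    have hn0 : ¬ OutF a u q y0 := by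
      intro ho'
      exact (S.ne3 hpq).2.1 (CS5_third h10 h02 h12 hopq ho').1
    refine ⟨X u q y0, key q y0 hy0 ?_ hn0⟩
    intro z' z _ ho
    exact (CS5_third h10 h02 h12 hopq ho).2.symm
  · obtain ⟨v0, y0, h0⟩ := S.cov u
    have hno : ∀ p q : V, S.T u p q → ¬ OutF a u p q := fun p q h ho => hex ⟨p, q, h, ho⟩
    refine ⟨X u v0 y0, key v0 y0 h0 ?_ (hno _ _ h0)⟩
    intro z' z h ho
    exact absurd ho (hno _ _ h)

theorem Sph.conn_faces (S : Sph V) {a : Fin 3 → V} (hf : S.T (a 1) (a 0) (a 2))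
    (X : V → V → V → ℝ) (hrot : ∀ u v w : V, S.T u v w → X u v w = X v w u)
    (hX : ∀ u v w w' : V, S.T u v w → S.T v u w' → ¬ OutF a u v w → ¬ OutF a v u w' →
      X u v w = X v u w')
    {u v w u' v' w' : V} (h : S.T u v w) (h0 : ¬ OutF a u v w) (h' : S.T u' v' w')
    (h0' : ¬ OutF a u' v' w') : X u v w = X u' v' w' := by
  obtain ⟨h10, h02, h12⟩ := S.ne3 hf
  have claim : ∀ x, ReflTransGen (fun x y => ∃ z : V, S.T x y z) u x → ∀ p q : V, S.T x p q →
      ¬ OutF a x p q → X u v w = X x p q := by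
    intro x hx
    induction hx with
    | refl =>
      intro p q hpq hn
      obtain ⟨c, hc⟩ := S.CS5_vertex hf X hrot hX u
      rw [hc v w h h0, hc p q hpq hn]
    | @tail x y hx' hstep ih =>
      intro p q hpq hn
      obtain ⟨z, hz⟩ := hstep
      obtain ⟨c, hc⟩ := S.CS5_vertex hf X hrot hX y
      by_cases ho : OutF a x y z
      · obtain ⟨z', _, hz'⟩ := S.opp hz
        have hn' : ¬ OutF a y x z' := fun hh => CS5_two h10 h02 h12 ho hh
        have e1 : X u v w = X x z' y := ih z' y (S.rot hz')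
          (fun hh => hn' (CS5_rot (CS5_rot hh)))
        rw [e1, ← hrot y x z' hz', hc x z' hz' hn', hc p q hpq hn]
      · have e1 : X u v w = X x y z := ih y z hz ho
        rw [e1, hrot x y z hz, hc z x (S.rot hz) (fun hh => ho (CS5_rot (CS5_rot hh))),
          hc p q hpq hn]
  exact claim u' (S.conn u u') v' w' h' h0'

end Pool.SX
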