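import Pool.Agent.Lib.MP_9dcace_sx.T7

/-!
ROW T8 (generic perturbation).
`generic_pt`: y in the closed face g' and y in the interior of the face g (all strict) => there is a generic x in the interiors of both.
`eventually_ne`: the polynomial fact.
-/

set_option autoImplicit false

open Classical

namespace Pool.SX

variable {V F : Type} [Fintype V] [Fintype F]

theorem eventually_ne (a b c d : ℝ) (h : c ≠ 0 ∨ d ≠ 0) :
    ∀ᶠ s in nhdsWithin (0 : ℝ) (Set.Ioi 0), a + b * s + c * s ^ 2 + d * s ^ 3 ≠ 0 := by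
  set P : Polynomial ℝ := Polynomial.C a + Polynomial.C b * Polynomial.X +
    Polynomial.C c * Polynomial.X ^ 2 + Polynomial.C d * Polynomial.X ^ 3 with hPdef
  have hP : P ≠ 0 := by
    intro h0
    have h2 : P.coeff 2 = 0 := by rw [h0]; simp
    have h3 : P.coeff 3 = 0 := by rw [h0]; simp
    have e2 : P.coeff 2 = c := by
      rw [hPdef]
      simp
    have e3 : P.coeff 3 = d := by
      rw [hPdef]
      simp
    rcases h with h | h
    · exact h (e2 ▸ h2)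
    · exact h (e3 ▸ h3)
  have hfin : {x | P.IsRoot x}.Finite := Polynomial.finite_setOf_isRoot hP
  have hn : ({x | P.IsRoot x} \ {0})ᶜ ∈ nhds (0 : ℝ) :=
    (hfin.subset Set.diff_subset).isClosed.compl_mem_nhds (by simp)
  filter_upwards [nhdsWithin_le_nhds hn, self_mem_nhdsWithin] with s hs hs0 hz
  apply hs
  refine ⟨?_, ?_⟩
  · show P.eval s = 0
    rw [hPdef]
    simpa using hz
  · intro h0
    have : s = 0 := h0
    rw [this] at hs0
    exact lt_irrefl (0 : ℝ) (Set.mem_Ioi.mp hs0)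

/-- the perturbed value of an affine functional -/
theorem ar_curve (P Q y z : ℝ × ℝ) (s : ℝ) :
    ar P Q (y.1 + s * (z.1 - y.1) + s ^ 2, y.2 + s * (z.2 - y.2) + s ^ 3) =
      ar P Q y + (ar P Q z - ar P Q y) * s + (-(Q.2 - P.2)) * s ^ 2 + (Q.1 - P.1) * s ^ 3 := by
  simp only [ar]
  ring

theorem ev_pos (a b c d : ℝ) (h : 0 < a) :
    ∀ᶠ s in nhdsWithin (0 : ℝ) (Set.Ioi 0), 0 < a + b * s + c * s ^ 2 + d * s ^ 3 := by
  apply nhdsWithin_le_nhds
  have hc : Continuous fun s : ℝ => a + b * s + c * s ^ 2 + d * s ^ 3 := by fun_prop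
  have h0 : 0 < (fun s : ℝ => a + b * s + c * s ^ 2 + d * s ^ 3) 0 := by simpa using h
  exact hc.continuousAt.eventually (lt_mem_nhds h0)

theorem ev_pos' (a b c d : ℝ) (h : 0 ≤ a) (hb : 0 < b) :
    ∀ᶠ s in nhdsWithin (0 : ℝ) (Set.Ioi 0), 0 < a + (b - a) * s + c * s ^ 2 + d * s ^ 3 := by
  have h1 := ev_pos b c d 0 hb
  have h2 : ∀ᶠ s in nhdsWithin (0 : ℝ) (Set.Ioi 0), s < 1 :=
    nhdsWithin_le_nhds (gt_mem_nhds one_pos)
  filter_upwards [h1, h2, self_mem_nhdsWithin] with s hs hs1 hs0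
  have hs0' : 0 < s := hs0
  have e : a + (b - a) * s + c * s ^ 2 + d * s ^ 3 =
      a * (1 - s) + s * (b + c * s + d * s ^ 2 + 0 * s ^ 3) := by ring
  rw [e]
  have h3 : 0 ≤ a * (1 - s) := mul_nonneg h (by linarith)
  have h4 : 0 < s * (b + c * s + d * s ^ 2 + 0 * s ^ 3) := mul_pos hs0' hs
  linarith

theorem Sch.side_ne (s : Sch V F) (p : V → ℝ × ℝ) (g : F)
    (harea : 0 < ar (p (s.t 0 g)) (p (s.t 1 g)) (p (s.t 2 g))) (k : Fin 3) :
    (-((p (s.t (k + 1) g)).2 - (p (s.t k g)).2)) ≠ 0 ∨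
      ((p (s.t (k + 1) g)).1 - (p (s.t k g)).1) ≠ 0 := by
  by_contra hcon
  push Not at hcon
  obtain ⟨h2, h1⟩ := hcon
  have e : p (s.t (k + 1) g) = p (s.t k g) := Prod.ext (by linarith) (by linarith)
  have key : ar (p (s.t 0 g)) (p (s.t 1 g)) (p (s.t 2 g)) = 0 := by
    fin_cases k
    · have e' : p (s.t 1 g) = p (s.t 0 g) := e
      rw [e']; simp only [ar]; ring
    · have e' : p (s.t 2 g) = p (s.t 1 g) := e
      rw [e']; simp only [ar]; ring
    · have e' : p (s.t 0 g) = p (s.t 2 g) := e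
      rw [e']; simp only [ar]; ring
  rw [key] at harea
  exact lt_irrefl _ harea

theorem Sch.centroid_pos (s : Sch V F) (p : V → ℝ × ℝ) (g : F)
    (harea : 0 < ar (p (s.t 0 g)) (p (s.t 1 g)) (p (s.t 2 g))) (k : Fin 3) :
    0 < ar (p (s.t k g)) (p (s.t (k + 1) g))
      (((p (s.t 0 g)).1 + (p (s.t 1 g)).1 + (p (s.t 2 g)).1) / 3,
       ((p (s.t 0 g)).2 + (p (s.t 1 g)).2 + (p (s.t 2 g)).2) / 3) := by
  have key : ar (p (s.t k g)) (p (s.t (k + 1) g))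
      (((p (s.t 0 g)).1 + (p (s.t 1 g)).1 + (p (s.t 2 g)).1) / 3,
       ((p (s.t 0 g)).2 + (p (s.t 1 g)).2 + (p (s.t 2 g)).2) / 3) =
      ar (p (s.t 0 g)) (p (s.t 1 g)) (p (s.t 2 g)) / 3 := by
    fin_cases k
    · show ar (p (s.t 0 g)) (p (s.t 1 g)) _ = _
      simp only [ar]; ring
    · show ar (p (s.t 1 g)) (p (s.t 2 g)) _ = _
      simp only [ar]; ring
    · show ar (p (s.t 2 g)) (p (s.t 0 g)) _ = _
      simp only [ar]; ring
  rw [key]
  linarith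

theorem Sch.generic_pt (s : Sch V F) (p : V → ℝ × ℝ)
    (harea : ∀ g : F, 0 < ar (p (s.t 0 g)) (p (s.t 1 g)) (p (s.t 2 g))) (g g' : F) (y : ℝ × ℝ)
    (hg : ∀ k, 0 < ar (p (s.t k g)) (p (s.t (k + 1) g)) y)
    (hg' : ∀ k, 0 ≤ ar (p (s.t k g')) (p (s.t (k + 1) g')) y) :
    ∃ x : ℝ × ℝ, (∀ (g : F) (k : Fin 3), ar (p (s.t k g)) (p (s.t (k + 1) g)) x ≠ 0) ∧
      (∀ k, 0 < ar (p (s.t k g)) (p (s.t (k + 1) g)) x) ∧
      (∀ k, 0 < ar (p (s.t k g')) (p (s.t (k + 1) g')) x) := by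
  set z : ℝ × ℝ := (((p (s.t 0 g')).1 + (p (s.t 1 g')).1 + (p (s.t 2 g')).1) / 3,
       ((p (s.t 0 g')).2 + (p (s.t 1 g')).2 + (p (s.t 2 g')).2) / 3) with hz
  have hzpos : ∀ k, 0 < ar (p (s.t k g')) (p (s.t (k + 1) g')) z := fun k =>
    s.centroid_pos p g' (harea g') k
  have E1 : ∀ᶠ r in nhdsWithin (0 : ℝ) (Set.Ioi 0), ∀ (g : F) (k : Fin 3),
      ar (p (s.t k g)) (p (s.t (k + 1) g))
        (y.1 + r * (z.1 - y.1) + r ^ 2, y.2 + r * (z.2 - y.2) + r ^ 3) ≠ 0 := by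
    rw [Filter.eventually_all]
    intro g
    rw [Filter.eventually_all]
    intro k
    filter_upwards [eventually_ne (ar (p (s.t k g)) (p (s.t (k + 1) g)) y)
      (ar (p (s.t k g)) (p (s.t (k + 1) g)) z - ar (p (s.t k g)) (p (s.t (k + 1) g)) y) _ _
      (s.side_ne p g (harea g) k)] with r hr
    rw [ar_curve]
    exact hr
  have E2 : ∀ᶠ r in nhdsWithin (0 : ℝ) (Set.Ioi 0), ∀ (k : Fin 3),
      0 < ar (p (s.t k g)) (p (s.t (k + 1) g))
        (y.1 + r * (z.1 - y.1) + r ^ 2, y.2 + r * (z.2 - y.2) + r ^ 3) := by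
    rw [Filter.eventually_all]
    intro k
    filter_upwards [ev_pos _ (ar (p (s.t k g)) (p (s.t (k + 1) g)) z -
      ar (p (s.t k g)) (p (s.t (k + 1) g)) y) (-((p (s.t (k + 1) g)).2 - (p (s.t k g)).2))
      ((p (s.t (k + 1) g)).1 - (p (s.t k g)).1) (hg k)] with r hr
    rw [ar_curve]
    exact hr
  have E3 : ∀ᶠ r in nhdsWithin (0 : ℝ) (Set.Ioi 0), ∀ (k : Fin 3),
      0 < ar (p (s.t k g')) (p (s.t (k + 1) g'))
        (y.1 + r * (z.1 - y.1) + r ^ 2, y.2 + r * (z.2 - y.2) + r ^ 3) := by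
    rw [Filter.eventually_all]
    intro k
    filter_upwards [ev_pos' _ _ (-((p (s.t (k + 1) g')).2 - (p (s.t k g')).2))
      ((p (s.t (k + 1) g')).1 - (p (s.t k g')).1) (hg' k) (hzpos k)] with r hr
    rw [ar_curve]
    exact hr
  obtain ⟨r, h1, h2, h3⟩ := (E1.and (E2.and E3)).exists
  exact ⟨_, h1, h2, h3⟩

end Pool.SX
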