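import Pool.Agent.Lib.MP_9dcace_sx.C2
set_option autoImplicit false

/-! Row C8. Removing a removable vertex x keeps i1 and i2. W' = W.erase x.
erase_i1 at y: T y v w, T y v' w', v, v' in W'. Both w, w' ∉ W: hG.i1. w = w' = x: prv_uniq. w = x, w' ∉ W:
y is a contour vertex adjacent to x, so Nxt x y or Nxt y x. T y v' w' means Nxt y v'; Nxt y x would
give v' = x. So Nxt x y: T x y w0 with w0 ∉ W, rotated T y w0 x, and T y v x: v = w0 ∉ W,
contradiction.
erase_i2: T y y' w, T y' y w'. Both ∉ W: hG.i2. w = w' = x: no_rev. w = x, w' ∉ W: Nxt y' y, both are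
contour neighbours of x. Nxt y' x would give x = y. So Nxt x y'. Nxt x y would give y = y'. So
Nxt y x. With x = c k: c (k+1) = y', c (k-1) = y. If k + 1 < m then Nxt y' (c (k+2)), so
c (k+2) = y = c (k-1), impossible. So k + 1 = m, y' = a1, and y = a0 (nxt_a1, nxt_uniq). -/

namespace Pool.SX
open Relation
variable {V : Type} [Fintype V] (S : Sph V) {a0 a1 a2 : V} {W : Finset V}

omit [Fintype V] in
private theorem notMem_erase_C8 [DecidableEq V] {x w : V} (h : w ∉ W.erase x) :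
    w = x ∨ w ∉ W := by
  by_cases h1 : w = x
  · exact Or.inl h1
  · exact Or.inr fun h2 => h (Finset.mem_erase.2 ⟨h1, h2⟩)

/-- The case in which one of the two opposite vertices is x. -/
private theorem i1_aux_C8 (hG : S.Good a0 a1 a2 W) {x : V} (hx : S.Remov W x) {y v v' w' : V}
    (hy : y ∈ W) (hv : v ∈ W) (hv' : v' ∈ W) (hvx : v' ≠ x) (hw' : w' ∉ W) (h : S.T y v x)
    (h' : S.T y v' w') : False := by
  have hn : S.Nxt W y v' := ⟨hy, hv', w', hw', h'⟩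
  have hc : S.Cont W y := (S.nxt_cont hn).1
  have ha : S.Adj x y := S.adj_symm (S.adj_of_T h).2.1
  rcases hx.2 y hc ha with h1 | h1
  · obtain ⟨_, _, w0, hw0, h2⟩ := h1
    have h3 : S.T y w0 x := S.rot h2
    have h4 : v = w0 := S.prv_uniq h h3
    exact hw0 (h4 ▸ hv)
  · exact hvx (hG.nxt_uniq S hn h1)

theorem Sph.Good.erase_i1 [DecidableEq V] (hG : S.Good a0 a1 a2 W) {x : V}
    (hx : S.Remov W x) :
    ∀ y ∈ W.erase x, ∀ v ∈ W.erase x, ∀ v' ∈ W.erase x, ∀ w w' : V, w ∉ W.erase x →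
      w' ∉ W.erase x → S.T y v w → S.T y v' w' → v = v' := by
  intro y hy v hv v' hv' w w' hw hw' h h'
  rw [Finset.mem_erase] at hy hv hv'
  rcases notMem_erase_C8 hw with h1 | h1 <;> rcases notMem_erase_C8 hw' with h2 | h2
  · subst h1
    subst h2
    exact S.prv_uniq h h'
  · subst h1
    exact (i1_aux_C8 S hG hx hy.2 hv.2 hv'.2 hv'.1 h2 h h').elim
  · subst h2
    exact (i1_aux_C8 S hG hx hy.2 hv'.2 hv.2 hv.1 h1 h' h).elim
  · exact hG.i1 y hy.2 v hv.2 v' hv'.2 w w' h1 h2 h h'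

/-- The case in which one of the two opposite vertices is c k. -/
private theorem i2_aux_C8 (hG : S.Good a0 a1 a2 W) (hf : S.T a1 a0 a2)
    {m k : ℕ} {c : ℕ → V} (hcm : c m = a1)
    (hnxt : ∀ j, j < m → S.Nxt W (c j) (c (j + 1)))
    (hinj : ∀ i j, i ≤ m → j ≤ m → c i = c j → i = j) (hk0 : 0 < k) (hkm : k < m)
    (hx : S.Remov W (c k)) {y y' w' : V} (hy : y ∈ W) (hy' : y' ∈ W)
    (hyx : y ≠ c k) (hw' : w' ∉ W) (h : S.T y y' (c k)) (h' : S.T y' y w') :
    y = a0 ∧ y' = a1 := by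
  have hn : S.Nxt W y' y := ⟨hy', hy, w', hw', h'⟩
  have hadj := S.adj_of_T h
  have ha : S.Adj (c k) y := S.adj_symm hadj.2.1
  have ha' : S.Adj (c k) y' := S.adj_symm hadj.2.2
  have h1 : S.Nxt W (c k) y' := by
    rcases hx.2 y' (S.nxt_cont hn).1 ha' with h1 | h1
    · exact h1
    · exact absurd (hG.nxt_uniq S hn h1) hyx
  have h2 : S.Nxt W y (c k) := by
    rcases hx.2 y (S.nxt_cont hn).2.1 ha with h2 | h2
    · exact absurd (hG.nxt_uniq S h2 h1) (S.ne3 h).1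
    · exact h2
  have h3 : c (k + 1) = y' := hG.nxt_uniq S (hnxt k hkm) h1
  have h4 : c (k - 1) = y := by
    have h5 := hnxt (k - 1) (by omega)
    rw [Nat.sub_add_cancel hk0] at h5
    exact hG.prv_uniq S h5 h2
  have h6 : k + 1 = m := by
    by_contra hne
    have h7 := hnxt (k + 1) (by omega)
    rw [h3] at h7
    have h8 : c (k + 1 + 1) = y := hG.nxt_uniq S h7 hn
    have h9 := hinj (k + 1 + 1) (k - 1) (by omega) (by omega) (h8.trans h4.symm)
    omega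
  have h7 : y' = a1 := by rw [← h3, h6, hcm]
  refine ⟨?_, h7⟩
  rw [h7] at hn
  exact hG.nxt_uniq S hn (hG.nxt_a1 S hf)

theorem Sph.Good.erase_i2 [DecidableEq V] (hG : S.Good a0 a1 a2 W) (hf : S.T a1 a0 a2)
    {m k : ℕ} {c : ℕ → V} (hc0 : c 0 = a0) (hcm : c m = a1)
    (hnxt : ∀ j, j < m → S.Nxt W (c j) (c (j + 1)))
    (hinj : ∀ i j, i ≤ m → j ≤ m → c i = c j → i = j) (hk0 : 0 < k) (hkm : k < m)
    (hx : S.Remov W (c k)) :
    ∀ y ∈ W.erase (c k), ∀ y' ∈ W.erase (c k), ∀ w w' : V, w ∉ W.erase (c k) →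
      w' ∉ W.erase (c k) → S.T y y' w → S.T y' y w' →
      (y = a0 ∧ y' = a1) ∨ (y = a1 ∧ y' = a0) := by
  have _ := hc0
  intro y hy y' hy' w w' hw hw' h h'
  rw [Finset.mem_erase] at hy hy'
  rcases notMem_erase_C8 hw with h1 | h1 <;> rcases notMem_erase_C8 hw' with h2 | h2
  · rw [h1] at h
    rw [h2] at h'
    exact absurd h' (S.no_rev h)
  · rw [h1] at h
    exact Or.inl (i2_aux_C8 S hG hf hcm hnxt hinj hk0 hkm hx hy.2 hy'.2 hy.1 h2 h h')
  · rw [h2] at h'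
    have h3 := i2_aux_C8 S hG hf hcm hnxt hinj hk0 hkm hx hy'.2 hy.2 hy'.1 h1 h' h
    exact Or.inr ⟨h3.2, h3.1⟩
  · exact hG.i2 y hy.2 y' hy'.2 w w' h1 h2 h h'

end Pool.SX
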