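import Pool.Agent.Lib.MP_9dcace_sx.C2
set_option autoImplicit false

/-! Row C9. Connectivity after removal, and the initial good set V minus a2.
erase_i3: let p be the previous contour vertex of x (Nxt p x, so T x w p with w ∉ W). Claim: for
every z in the link of x, z ∈ W → z is connected to p inside W.erase x: induction along the link
from p (S.link_adj): step z⁻ → z with z ∈ W: if z⁻ ∈ W use adjacency of z⁻ and z; if z⁻ ∉ W then
z = p by prv_uniq (Nxt z x). Then reroute walks: induction on the walk from y: if the current end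
z ≠ x then y is connected to z, and if z = x then y is connected to p. (The relation is symmetric
between vertices of W.erase x.)
erase_i5: x has a removed neighbour.
good_init: i1 prv_uniq; i2 no_rev; i3: same rerouting around a2 in the full link of a2 with S.conn;
i5 trivial. -/

namespace Pool.SX
open Relation
variable {V : Type} [Fintype V] (S : Sph V) {a0 a1 a2 : V} {W : Finset V}

omit [Fintype V] in
private theorem notMem_erase_C9 [DecidableEq V] {x w : V} (h : w ∉ W.erase x) :
    w = x ∨ w ∉ W := by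
  by_cases h1 : w = x
  · exact Or.inl h1
  · exact Or.inr fun h2 => h (Finset.mem_erase.2 ⟨h1, h2⟩)

/-- Walks through x can be rerouted through p. -/
private theorem reroute_C9 [DecidableEq V] {x p : V}
    (hcl : ∀ z, S.Adj x z → z ∈ W →
      ReflTransGen (fun p q => S.Adj p q ∧ q ∈ W.erase x) p z ∧
      ReflTransGen (fun p q => S.Adj p q ∧ q ∈ W.erase x) z p)
    {y y' : V} (hy : y ∈ W.erase x) (hy' : y' ∈ W.erase x)
    (h : ReflTransGen (fun p q => S.Adj p q ∧ q ∈ W) y y') :
    ReflTransGen (fun p q => S.Adj p q ∧ q ∈ W.erase x) y y' := by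
  rw [Finset.mem_erase] at hy hy'
  have key : y' ∈ W ∧ (y' ≠ x → ReflTransGen (fun p q => S.Adj p q ∧ q ∈ W.erase x) y y') ∧
      (y' = x → ReflTransGen (fun p q => S.Adj p q ∧ q ∈ W.erase x) y p) := by
    clear hy'
    induction h with
    | refl => exact ⟨hy.2, fun _ => ReflTransGen.refl, fun h => absurd h hy.1⟩
    | @tail z z' hz hzz' ih =>
      obtain ⟨ih1, ih2, ih3⟩ := ih
      refine ⟨hzz'.2, fun hne => ?_, fun he => ?_⟩
      · by_cases hzx : z = x
        · have h1 := ih3 hzx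
          have h2 := hcl z' (hzx ▸ hzz'.1) hzz'.2
          exact h1.trans h2.1
        · exact (ih2 hzx).tail ⟨hzz'.1, Finset.mem_erase.2 ⟨hne, hzz'.2⟩⟩
      · by_cases hzx : z = x
        · exact ih3 hzx
        · have h2 := hcl z (S.adj_symm (he ▸ hzz'.1)) ih1
          exact (ih2 hzx).trans h2.2
  exact key.2.1 hy'.1

theorem Sph.Good.erase_i3 [DecidableEq V] (hG : S.Good a0 a1 a2 W) (hf : S.T a1 a0 a2) {x : V}
    (hx : S.Cont W x) :
    ∀ y ∈ W.erase x, ∀ y' ∈ W.erase x,
      ReflTransGen (fun p q => S.Adj p q ∧ q ∈ W.erase x) y y' := by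
  intro y hy y' hy'
  obtain ⟨p, hp⟩ := hG.ex_prv S hf hx
  have hpa : S.Adj x p := S.adj_symm (S.nxt_cont hp).2.2
  refine reroute_C9 S (p := p) ?_ hy hy'
    (hG.i3 y (Finset.mem_of_mem_erase hy) y' (Finset.mem_of_mem_erase hy'))
  intro z hz
  have hl := S.link_adj hpa hz
  clear hz
  induction hl with
  | refl => exact fun _ => ⟨ReflTransGen.refl, ReflTransGen.refl⟩
  | @tail z z' _ hzz' ih =>
    intro hz'
    have hne := S.ne3 hzz'
    by_cases hzW : z ∈ W
    · have h1 := ih hzW
      have ha := (S.adj_of_T hzz').2.2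
      exact ⟨h1.1.tail ⟨ha, Finset.mem_erase.2 ⟨hne.2.2.symm, hz'⟩⟩,
        h1.2.head ⟨S.adj_symm ha, Finset.mem_erase.2 ⟨hne.1.symm, hzW⟩⟩⟩
    · have h1 : S.Nxt W z' x := ⟨hz', hx.1, z, hzW, S.rot2 hzz'⟩
      have h2 : z' = p := hG.prv_uniq S h1 hp
      rw [h2]
      exact ⟨ReflTransGen.refl, ReflTransGen.refl⟩

theorem Sph.Good.erase_i5 [DecidableEq V] (hG : S.Good a0 a1 a2 W) {x : V} (hx : S.Cont W x) :
    ∀ y : V, y ∉ W.erase x → ∀ y' : V, y' ∉ W.erase x →
      ReflTransGen (fun p q => S.Adj p q ∧ q ∉ W.erase x) y y' := by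
  intro y hy y' hy'
  obtain ⟨hxW, u, hu, hxu⟩ := hx
  have hm : ∀ z z' : V, z ∉ W → z' ∉ W →
      ReflTransGen (fun p q => S.Adj p q ∧ q ∉ W.erase x) z z' := by
    intro z z' hz hz'
    refine ReflTransGen.mono ?_ _ _ (hG.i5 z hz z' hz')
    exact fun p q h => ⟨h.1, fun h2 => h.2 (Finset.mem_of_mem_erase h2)⟩
  rcases notMem_erase_C9 hy with h1 | h1 <;> rcases notMem_erase_C9 hy' with h2 | h2
  · rw [h1, h2]
  · rw [h1]
    exact (hm u y' hu h2).head ⟨hxu, fun h => hu (Finset.mem_of_mem_erase h)⟩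
  · rw [h2]
    exact (hm y u h1 hu).tail ⟨S.adj_symm hxu, fun h => (Finset.mem_erase.1 h).1 rfl⟩
  · exact hm y y' h1 h2

theorem Sph.good_init [DecidableEq V] (hf : S.T a1 a0 a2) :
    S.Good a0 a1 a2 (Finset.univ.erase a2) := by
  have hne := S.ne3 hf
  have hmem : ∀ {w : V}, w ∉ (Finset.univ.erase a2 : Finset V) → w = a2 := by
    intro w hw
    rcases notMem_erase_C9 hw with h | h
    · exact h
    · exact absurd (Finset.mem_univ w) h
  refine ⟨?_, ?_, ?_, ?_, ?_, ?_, ?_⟩
  · exact Finset.mem_erase.2 ⟨hne.2.1, Finset.mem_univ _⟩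
  · exact Finset.mem_erase.2 ⟨hne.2.2, Finset.mem_univ _⟩
  · exact fun h => (Finset.mem_erase.1 h).1 rfl
  · intro x _ v _ v' _ w w' hw hw' h h'
    rw [hmem hw] at h
    rw [hmem hw'] at h'
    exact S.prv_uniq h h'
  · intro x _ y _ w w' hw hw' h h'
    rw [hmem hw] at h
    rw [hmem hw'] at h'
    exact absurd h' (S.no_rev h)
  · intro x hx y hy
    refine reroute_C9 S (W := Finset.univ) (x := a2) (p := a0) ?_ hx hy ?_
    · intro z hz
      have hpa : S.Adj a2 a0 := S.adj_symm (S.adj_of_T hf).2.2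
      have hl := S.link_adj hpa hz
      clear hz
      induction hl with
      | refl => exact fun _ => ⟨ReflTransGen.refl, ReflTransGen.refl⟩
      | @tail z z' _ hzz' ih =>
        intro _
        have hne := S.ne3 hzz'
        have h1 := ih (Finset.mem_univ _)
        have ha := (S.adj_of_T hzz').2.2
        exact ⟨h1.1.tail ⟨ha, Finset.mem_erase.2 ⟨hne.2.2.symm, Finset.mem_univ _⟩⟩,
          h1.2.head ⟨S.adj_symm ha, Finset.mem_erase.2 ⟨hne.1.symm, Finset.mem_univ _⟩⟩⟩
    · refine ReflTransGen.mono ?_ _ _ (S.conn x y)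
      exact fun p q h => ⟨h, Finset.mem_univ _⟩
  · intro x hx y hy
    rw [hmem hx, hmem hy]

end Pool.SX
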