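import Pool.Agent.Lib.MP_9dcace_sx.C7
import Pool.Agent.Lib.MP_9dcace_sx.C8
import Pool.Agent.Lib.MP_9dcace_sx.C9
set_option autoImplicit false

/-! Row C10. Canonical orders exist. First: for every good W there is f : V → ℕ with f v < |W| on W,
injective on W, f a0 = 0, f a1 = 1, W.filter (f · ≤ t) good for 1 ≤ t < |W|, and every v ∈ W other
than a0, a1 is a contour vertex of W.filter (f · ≤ f v) (induction on |W|: if W = {a0,a1} clear;
otherwise ex_remov, erase_i1, erase_i2, erase_i3, erase_i5, f := update f' x (|W| - 1)). Apply it to
good_init and put idx := update f a2 (|V| - 1). c1: for t = 0 nothing to show (v = a0 = u), for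
t ≥ |V| - 1 neither, otherwise i1 of the good set {idx ≤ t}. c2: i2 with t = max (idx u) (idx v).
c3: i3 at t = idx v (walk from v to a0, first step). c3': contour vertex; a0, a1 are adjacent to a2. -/

namespace Pool.SX
open Relation
variable {V : Type} [Fintype V] (S : Sph V)

private theorem c10_aux [DecidableEq V] {a0 a1 a2 : V} (hf : S.T a1 a0 a2) :
    ∀ (n : ℕ) (W : Finset V), W.card = n → S.Good a0 a1 a2 W →
      ∃ f : V → ℕ, (∀ v ∈ W, f v < n) ∧ (∀ v ∈ W, ∀ w ∈ W, f v = f w → v = w) ∧
        f a0 = 0 ∧ f a1 = 1 ∧
        (∀ t, 1 ≤ t → t < n → S.Good a0 a1 a2 (W.filter (fun v => f v ≤ t))) ∧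
        (∀ v ∈ W, v ≠ a0 → v ≠ a1 → S.Cont (W.filter (fun u => f u ≤ f v)) v) := by
  have h10 : a1 ≠ a0 := S.ne hf
  intro n
  induction n with
  | zero =>
    intro W hW hG
    have := hG.m0
    rw [Finset.card_eq_zero.mp hW] at this
    simp at this
  | succ n ih =>
    intro W hW hG
    by_cases hex : ∃ x ∈ W, x ≠ a0 ∧ x ≠ a1
    · obtain ⟨m, k, c, hc0, hcm, hnxt, hinj, hk0, hkm, hrem⟩ := hG.ex_remov S hf hex
      set x := c k with hxdef
      have hxW : x ∈ W := hrem.1.1
      have hx0 : x ≠ a0 := by
        intro h
        have := hinj k 0 (by omega) (by omega) (by rw [← hxdef, h, hc0])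
        omega
      have hx1 : x ≠ a1 := by
        intro h
        have := hinj k m (by omega) (by omega) (by rw [← hxdef, h, hcm])
        omega
      have hG' : S.Good a0 a1 a2 (W.erase x) :=
        { m0 := Finset.mem_erase.mpr ⟨hx0.symm, hG.m0⟩
          m1 := Finset.mem_erase.mpr ⟨hx1.symm, hG.m1⟩
          m2 := fun h => hG.m2 (Finset.mem_of_mem_erase h)
          i1 := hG.erase_i1 S hrem
          i2 := hG.erase_i2 S hf hc0 hcm hnxt hinj hk0 hkm hrem
          i3 := hG.erase_i3 S hf hrem.1
          i5 := hG.erase_i5 S hrem.1 }
      have hcard : (W.erase x).card = n := by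
        rw [Finset.card_erase_of_mem hxW, hW]
        rfl
      obtain ⟨f, f1, f2, f3, f4, f5, f6⟩ := ih (W.erase x) hcard hG'
      have gx : Function.update f x n x = n := Function.update_self x n f
      have gn : ∀ v, v ≠ x → Function.update f x n v = f v :=
        fun v hv => Function.update_of_ne hv n f
      have hmem : ∀ v ∈ W, v ≠ x → v ∈ W.erase x := fun v hv hvx =>
        Finset.mem_erase.mpr ⟨hvx, hv⟩
      have glt : ∀ v ∈ W, Function.update f x n v < n + 1 := by
        intro v hv
        by_cases hvx : v = x
        · rw [hvx, gx]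
          omega
        · rw [gn v hvx]
          have := f1 v (hmem v hv hvx)
          omega
      have hfil : ∀ t, t < n → W.filter (fun v => Function.update f x n v ≤ t) =
          (W.erase x).filter (fun v => f v ≤ t) := by
        intro t ht
        ext v
        rw [Finset.mem_filter, Finset.mem_filter, Finset.mem_erase]
        constructor
        · rintro ⟨hv, hvt⟩
          have hvx : v ≠ x := by
            intro h
            rw [h, gx] at hvt
            omega
          rw [gn v hvx] at hvt
          exact ⟨⟨hvx, hv⟩, hvt⟩
        · rintro ⟨⟨hvx, hv⟩, hvt⟩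
          refine ⟨hv, ?_⟩
          rw [gn v hvx]
          exact hvt
      have hfilW : W.filter (fun v => Function.update f x n v ≤ n) = W := by
        apply Finset.filter_true_of_mem
        intro v hv
        have := glt v hv
        omega
      refine ⟨Function.update f x n, glt, ?_, ?_, ?_, ?_, ?_⟩
      · intro v hv w hw hvw
        by_cases hvx : v = x
        · by_cases hwx : w = x
          · rw [hvx, hwx]
          · exfalso
            rw [hvx, gx, gn w hwx] at hvw
            have := f1 w (hmem w hw hwx)
            omega
        · by_cases hwx : w = x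
          · exfalso
            rw [hwx, gx, gn v hvx] at hvw
            have := f1 v (hmem v hv hvx)
            omega
          · rw [gn v hvx, gn w hwx] at hvw
            exact f2 v (hmem v hv hvx) w (hmem w hw hwx) hvw
      · rw [gn a0 hx0.symm]
        exact f3
      · rw [gn a1 hx1.symm]
        exact f4
      · intro t ht1 htn
        by_cases ht : t < n
        · rw [hfil t ht]
          exact f5 t ht1 ht
        · have : t = n := by omega
          rw [this, hfilW]
          exact hG
      · intro v hv hv0 hv1
        by_cases hvx : v = x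
        · have e : W.filter (fun u => Function.update f x n u ≤ Function.update f x n v) = W := by
            rw [hvx, gx]
            exact hfilW
          rw [e, hvx]
          exact hrem.1
        · have hlt := f1 v (hmem v hv hvx)
          rw [gn v hvx, hfil (f v) hlt]
          exact f6 v (hmem v hv hvx) hv0 hv1
    · have hall : ∀ x ∈ W, x = a0 ∨ x = a1 := by
        intro x hx
        by_contra hcon
        rw [not_or] at hcon
        exact hex ⟨x, hx, hcon.1, hcon.2⟩
      have hWe : W = {a0, a1} := by
        ext x
        rw [Finset.mem_insert, Finset.mem_singleton]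
        constructor
        · exact hall x
        · rintro (h | h)
          · rw [h]
            exact hG.m0
          · rw [h]
            exact hG.m1
      have hc2 : W.card = 2 := by
        rw [hWe]
        exact Finset.card_pair h10.symm
      have hn : n = 1 := by omega
      subst hn
      refine ⟨fun v => if v = a0 then 0 else 1, ?_, ?_, ?_, ?_, ?_, ?_⟩
      · intro v _
        show (if v = a0 then 0 else 1) < 1 + 1
        split_ifs <;> omega
      · intro v hv w hw hvw
        rcases hall v hv with h | h <;> rcases hall w hw with h' | h'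
        · rw [h, h']
        · exfalso
          rw [h, h'] at hvw
          simp [h10] at hvw
        · exfalso
          rw [h, h'] at hvw
          simp [h10] at hvw
        · rw [h, h']
      · simp
      · simp [h10]
      · intro t ht1 htn
        have ht : t = 1 := by omega
        have e : W.filter (fun v => (if v = a0 then 0 else 1) ≤ t) = W := by
          apply Finset.filter_true_of_mem
          intro v _
          rw [ht]
          split_ifs <;> omega
        rw [e]
        exact hG
      · intro v hv hv0 hv1
        rcases hall v hv with h | h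
        · exact absurd h hv0
        · exact absurd h hv1

theorem Sph.exists_canOrd {a : Fin 3 → V} (hf : S.T (a 1) (a 0) (a 2)) :
    ∃ idx : V → ℕ, S.CanOrd a idx := by
  classical
  have h10 : a 1 ≠ a 0 := S.ne hf
  have h3 := S.ne3 hf
  have h02 : a 0 ≠ a 2 := h3.2.1
  have h12 : a 1 ≠ a 2 := h3.2.2
  set W : Finset V := Finset.univ.erase (a 2) with hWdef
  have hG : S.Good (a 0) (a 1) (a 2) W := S.good_init hf
  obtain ⟨f, f1, f2, f3, f4, f5, f6⟩ := c10_aux S hf W.card W rfl hG
  have hmem : ∀ v, v ≠ a 2 → v ∈ W := fun v hv =>
    Finset.mem_erase.mpr ⟨hv, Finset.mem_univ v⟩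
  set N := W.card with hN
  have hN2 : 2 ≤ N := by
    have := f1 (a 1) (hmem _ h12)
    rw [f4] at this
    omega
  set idx : V → ℕ := Function.update f (a 2) N with hidx
  have g2 : idx (a 2) = N := Function.update_self (a 2) N f
  have gn : ∀ v, v ≠ a 2 → idx v = f v := fun v hv => Function.update_of_ne hv N f
  have glt : ∀ v, v ≠ a 2 → idx v < N := by
    intro v hv
    rw [gn v hv]
    exact f1 v (hmem v hv)
  have gle : ∀ v, idx v ≤ N := by
    intro v
    by_cases hv : v = a 2
    · rw [hv, g2]
    · exact (glt v hv).le
  have ginj : Function.Injective idx := by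
    intro v w hvw
    by_cases hv : v = a 2
    · by_cases hw : w = a 2
      · rw [hv, hw]
      · exfalso
        have := glt w hw
        rw [hv, g2] at hvw
        omega
    · by_cases hw : w = a 2
      · exfalso
        have := glt v hv
        rw [hw, g2] at hvw
        omega
      · rw [gn v hv, gn w hw] at hvw
        exact f2 v (hmem v hv) w (hmem w hw) hvw
  have i0 : idx (a 0) = 0 := by rw [gn _ h02, f3]
  have i1 : idx (a 1) = 1 := by rw [gn _ h12, f4]
  have hlow0 : ∀ v, v ≠ a 0 → idx (a 0) < idx v := by
    intro v hv
    rw [i0]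
    have : idx v ≠ idx (a 0) := fun h => hv (ginj h)
    omega
  -- membership in the level sets
  have hlev : ∀ t, t < N → ∀ v, v ∈ W.filter (fun v => f v ≤ t) ↔ idx v ≤ t := by
    intro t ht v
    rw [Finset.mem_filter]
    constructor
    · rintro ⟨hv, hvt⟩
      have hv2 : v ≠ a 2 := (Finset.mem_erase.mp hv).1
      rw [gn v hv2]
      exact hvt
    · intro hvt
      have hv2 : v ≠ a 2 := by
        intro h
        rw [h, g2] at hvt
        omega
      rw [gn v hv2] at hvt
      exact ⟨hmem v hv2, hvt⟩
  have hGt : ∀ t, 1 ≤ t → t < N → S.Good (a 0) (a 1) (a 2) (W.filter (fun v => f v ≤ t)) :=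
    fun t h1 h2 => f5 t h1 h2
  have hadj := S.adj_of_T hf
  refine ⟨idx, ⟨hf, ginj, hlow0, ?_, ?_, ?_, ?_, ?_, ?_⟩⟩
  · intro v hv0 hv1
    have e0 : idx v ≠ idx (a 0) := fun h => hv0 (ginj h)
    have e1 : idx v ≠ idx (a 1) := fun h => hv1 (ginj h)
    omega
  · intro v hv
    rw [g2]
    exact glt v hv
  · intro u v v' w w' t hu hT hT' hv hw hv' hw'
    by_cases ht0 : t = 0
    · exfalso
      have eu : u = a 0 := ginj (by omega)
      have ev : v = a 0 := ginj (by omega)
      exact S.ne hT (by rw [eu, ev])
    · have htN : t < N := lt_of_lt_of_le hw (gle w)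
      have G := hGt t (by omega) htN
      have L := hlev t htN
      refine G.i1 u ((L u).mpr hu) v ((L v).mpr hv) v' ((L v').mpr hv') w w' ?_ ?_ hT hT'
      · intro h
        have := (L w).mp h
        omega
      · intro h
        have := (L w').mp h
        omega
  · intro u v w w' hT hT' hne1 hne2 hcon
    obtain ⟨k1, k2, k3, k4⟩ := hcon
    have huv : u ≠ v := S.ne hT
    have hiuv : idx u ≠ idx v := fun h => huv (ginj h)
    set t := max (idx u) (idx v) with ht
    have htu : idx u ≤ t := le_max_left _ _
    have htv : idx v ≤ t := le_max_right _ _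
    have htw : t < idx w := max_lt k1 k2
    have htw' : t < idx w' := max_lt k3 k4
    have htN : t < N := lt_of_lt_of_le htw (gle w)
    have G := hGt t (by omega) htN
    have L := hlev t htN
    have := G.i2 u ((L u).mpr htu) v ((L v).mpr htv) w w'
      (fun h => by have := (L w).mp h; omega) (fun h => by have := (L w').mp h; omega) hT hT'
    rcases this with h | h
    · exact hne1 h
    · exact hne2 h
  · intro v hv
    by_cases hv2 : v = a 2
    · refine ⟨a 0, ?_, hlow0 v hv⟩
      rw [hv2]
      exact S.adj_symm hadj.2.2
    · have hpos := hlow0 v hv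
      have htN := glt v hv2
      have G := hGt (idx v) (by omega) htN
      have L := hlev (idx v) htN
      have hwalk := G.i3 v ((L v).mpr le_rfl) (a 0) G.m0
      rcases Relation.ReflTransGen.cases_head hwalk with h | ⟨q, ⟨hq1, hq2⟩, _⟩
      · exact absurd h hv
      · refine ⟨q, hq1, ?_⟩
        have h1 := (L q).mp hq2
        have h2 : idx q ≠ idx v := by
          intro h
          obtain ⟨z, hz⟩ := hq1
          exact S.ne hz (ginj h).symm
        omega
  · intro v hv
    by_cases hv0 : v = a 0
    · refine ⟨a 2, ?_, ?_⟩
      · rw [hv0]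
        exact hadj.2.2
      · rw [g2]
        exact glt v hv
    · by_cases hv1 : v = a 1
      · refine ⟨a 2, ?_, ?_⟩
        · rw [hv1]
          exact hadj.2.1
        · rw [g2]
          exact glt v hv
      · obtain ⟨_, u, hu, huadj⟩ := f6 v (hmem v hv) hv0 hv1
        refine ⟨u, huadj, ?_⟩
        by_contra hcon
        apply hu
        have htN := glt v hv
        have L := hlev (idx v) htN u
        rw [gn v hv] at L
        apply L.mpr
        rw [gn v hv] at hcon
        omega

end Pool.SX
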