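import Pool.Agent.Lib.MP_9dcace_sx.CS6
import Pool.Agent.Lib.MP_9dcace_sx.C10
set_option autoImplicit false

/-! Row CS7. The Schnyder structure. Take idx from exists_canOrd, F = FT S a idx, t = ft,
out c v = the u with IsE c v u (choice, v itself if there is none), gL c v, gR c v, o k by choice from
isE_left, isE_right, ft_outer (any face for outer v: FT is nonempty by ft_outer), r 2 = idx (as a real),
r 0, r 1 from pot0, pot1 (T t2 t0 t1, p = t0, q = t1, v = t2). edge: ft_rule with ft_uniq.
conn: apply conn_faces to the rotation invariant function X' u v w = X g for the face g of the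
triangle (ft_surj, ft_uniq); for an edge with two inner faces use ft_rule. -/

namespace Pool.SX
open Relation
variable {V : Type} [Fintype V] (S : Sph V)

private theorem CS7_fin (k : Fin 3) : k + 1 + 1 = k + 2 ∧ k + 1 + 2 = k ∧ k + 2 + 1 = k ∧
    k + 2 + 2 = k + 1 := by
  fin_cases k <;> decide

/-- g is the face of the triangle u, v, w -/
private def CS7_Rep {S : Sph V} {a : Fin 3 → V} {idx : V → ℕ} (u v w : V) (g : FT S a idx) : Prop :=
  ∃ k : Fin 3, ft k g = u ∧ ft (k + 1) g = v ∧ ft (k + 2) g = w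

private theorem CS7_Rep_rot {S : Sph V} {a : Fin 3 → V} {idx : V → ℕ} {u v w : V}
    {g : FT S a idx} (h : CS7_Rep u v w g) : CS7_Rep v w u g := by
  obtain ⟨k, h0, h1, h2⟩ := h
  obtain ⟨e1, e2, e3, e4⟩ := CS7_fin k
  exact ⟨k + 1, h1, by rw [e1]; exact h2, by rw [e2]; exact h0⟩

private theorem CS7_ft_lt {S : Sph V} {a : Fin 3 → V} {idx : V → ℕ} (g : FT S a idx) :
    idx (ft 0 g) < idx (ft 2 g) ∧ idx (ft 1 g) < idx (ft 2 g) := by
  obtain ⟨⟨p, q, v⟩, hT, hp, hq, hne⟩ := g
  exact ⟨hp, hq⟩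

private theorem CS7_Rep_uniq {S : Sph V} {a : Fin 3 → V} {idx : V → ℕ} {u v w : V}
    {g g' : FT S a idx} (h : CS7_Rep u v w g) (h' : CS7_Rep u v w g') : g = g' := by
  obtain ⟨k, h0, h1, h2⟩ := h
  obtain ⟨k', h0', h1', h2'⟩ := h'
  have hk : k = k' := by
    obtain ⟨a1, a2⟩ := CS7_ft_lt g
    obtain ⟨b1, b2⟩ := CS7_ft_lt g'
    have c0 := congrArg idx (h0.trans h0'.symm)
    have c1 := congrArg idx (h1.trans h1'.symm)
    have c2 := congrArg idx (h2.trans h2'.symm)
    clear h0 h1 h2 h0' h1' h2'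
    have hkk : ∀ k : Fin 3, k = 0 ∨ k = 1 ∨ k = 2 := by decide
    rcases hkk k with e | e | e <;> rcases hkk k' with e' | e' | e' <;> subst e <;> subst e' <;>
      first
      | rfl
      | (exfalso
         have d1 : (1 : Fin 3) + 1 = 2 := by decide
         have d2 : (1 : Fin 3) + 2 = 0 := by decide
         have d3 : (2 : Fin 3) + 1 = 0 := by decide
         have d4 : (2 : Fin 3) + 2 = 1 := by decide
         have d5 : (0 : Fin 3) + 1 = 1 := by decide
         have d6 : (0 : Fin 3) + 2 = 2 := by decide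
         simp only [d1, d2, d3, d4, d5, d6] at c0 c1 c2
         omega)
  subst hk
  exact ft_uniq (h0.trans h0'.symm) (h1.trans h1'.symm)

theorem Sph.exists_sch (a : Fin 3 → V) (hf : S.T (a 1) (a 0) (a 2)) :
    ∃ (F : Type) (_ : Fintype F) (s : Sch V F), s.a = a ∧
      (∀ (g : F) (k : Fin 3), S.T (s.t k g) (s.t (k + 1) g) (s.t (k + 2) g)) ∧
      (∀ (g : F) (k : Fin 3), ¬ OutF a (s.t k g) (s.t (k + 1) g) (s.t (k + 2) g)) ∧
      (∀ u v w : V, S.T u v w → ¬ OutF a u v w →
        ∃ (g : F) (k : Fin 3), s.t k g = u ∧ s.t (k + 1) g = v ∧ s.t (k + 2) g = w) ∧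
      (∀ g g' : F, (∀ k, s.t k g = s.t k g') → g = g') := by
  classical
  obtain ⟨idx, hC⟩ := S.exists_canOrd hf
  have hout : ∀ (c : Fin 3) (v : V), ∃ u, (∀ k, v ≠ a k) → IsE S idx c v u := by
    intro c v
    by_cases h : ∀ k, v ≠ a k
    · obtain ⟨u, hu⟩ := isE_ex hC c h
      exact ⟨u, fun _ => hu⟩
    · exact ⟨v, fun h' => absurd h' h⟩
  choose out hout using hout
  have hne : Nonempty (FT S a idx) := by
    obtain ⟨g, _⟩ := ft_outer hC 0
    exact ⟨g⟩
  have hgL : ∀ (c : Fin 3) (v : V), ∃ g : FT S a idx, (∀ k, v ≠ a k) →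
      ft (c + 2) g = v ∧ ft c g = out c v := by
    intro c v
    by_cases h : ∀ k, v ≠ a k
    · obtain ⟨g, hg⟩ := isE_left hC h (hout c v h)
      exact ⟨g, fun _ => hg⟩
    · exact ⟨Classical.choice hne, fun h' => absurd h' h⟩
  choose gL hgL using hgL
  have hgR : ∀ (c : Fin 3) (v : V), ∃ g : FT S a idx, (∀ k, v ≠ a k) →
      ft (c + 1) g = v ∧ ft c g = out c v := by
    intro c v
    by_cases h : ∀ k, v ≠ a k
    · obtain ⟨g, hg⟩ := isE_right hC h (hout c v h)
      exact ⟨g, fun _ => hg⟩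
    · exact ⟨Classical.choice hne, fun h' => absurd h' h⟩
  choose gR hgR using hgR
  have ho : ∀ k : Fin 3, ∃ g : FT S a idx, ft k g = a k ∧ ft (k + 1) g = a (k + 1) :=
    fun k => ft_outer hC k
  choose o ho using ho
  obtain ⟨r0, hr0⟩ := hC.pot0
  obtain ⟨r1, hr1⟩ := hC.pot1
  -- the left face and the right face of an edge
  have hL : ∀ (g : FT S a idx) (k : Fin 3), (∀ j, ft k g ≠ a j) →
      IsE S idx (k + 1) (ft k g) (ft (k + 1) g) → g = gL (k + 1) (ft k g) ∧
      out (k + 1) (ft k g) = ft (k + 1) g := by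
    intro g k h1 h2
    obtain ⟨e1, e2, e3, e4⟩ := CS7_fin k
    have h3 := hgL (k + 1) (ft k g) h1
    have h4 := isE_uniq hC (hout (k + 1) (ft k g) h1) h2
    rw [e2] at h3
    exact ⟨ft_uniq (k := k) h3.1.symm (by rw [h3.2, h4]), h4⟩
  have hR : ∀ (g : FT S a idx) (k : Fin 3), (∀ j, ft (k + 1) g ≠ a j) →
      IsE S idx k (ft (k + 1) g) (ft k g) → g = gR k (ft (k + 1) g) ∧
      out k (ft (k + 1) g) = ft k g := by
    intro g k h1 h2
    have h3 := hgR k (ft (k + 1) g) h1
    have h4 := isE_uniq hC (hout k (ft (k + 1) g) h1) h2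
    exact ⟨ft_uniq (k := k) (by rw [h3.2, h4]) h3.1.symm, h4⟩
  have houter : ∀ k : Fin 3, S.T (a (k + 1)) (a k) (a (k + 2)) ∧
      OutF a (a (k + 1)) (a k) (a (k + 2)) := by
    have hkk : ∀ k : Fin 3, k = 0 ∨ k = 1 ∨ k = 2 := by decide
    intro k
    rcases hkk k with e | e | e
    · subst e
      exact ⟨hf, Or.inl ⟨rfl, rfl, rfl⟩⟩
    · subst e
      exact ⟨S.rot (S.rot hf), Or.inr (Or.inr ⟨rfl, rfl, rfl⟩)⟩
    · subst e
      exact ⟨S.rot hf, Or.inr (Or.inl ⟨rfl, rfl, rfl⟩)⟩
  let s : Sch V (FT S a idx) :=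
    { t := ft
      a := a
      out := out
      gL := gL
      gR := gR
      o := o
      r := ![r0, r1, fun v => (idx v : ℝ)]
      a_inj := hC.a_inj
      tL2 := fun c v h => (hgL c v h).1
      tL0 := fun c v h => (hgL c v h).2
      tR1 := fun c v h => (hgR c v h).1
      tR0 := fun c v h => (hgR c v h).2
      o0 := fun k => (ho k).1
      o1 := fun k => (ho k).2
      edge := by
        intro g k
        rcases ft_rule hC g k with ⟨h1, h2⟩ | ⟨h1, h2⟩ | ⟨h1, h2⟩
        · left
          exact ft_uniq (k := k) (by rw [h1, (ho k).1]) (by rw [h2, (ho k).2])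
        · right; left
          exact ⟨h1, (hL g k h1 h2).1⟩
        · right; right
          exact ⟨h1, (hR g k h1 h2).1⟩
      pot := by
        intro g k j hjk
        obtain ⟨⟨p, q, v⟩, hT, hp, hq, hnn⟩ := g
        have hT' : S.T v p q := S.rot (S.rot hT)
        obtain ⟨b1, b2⟩ := hr0 p q v hT' hp hq hnn
        obtain ⟨b3, b4⟩ := hr1 p q v hT' hp hq hnn
        have b5 : (idx p : ℝ) < idx v := by exact_mod_cast hp
        have b6 : (idx q : ℝ) < idx v := by exact_mod_cast hq
        have hkk : ∀ k : Fin 3, k = 0 ∨ k = 1 ∨ k = 2 := by decide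
        rcases hkk k with e | e | e <;> rcases hkk j with e' | e' | e' <;> subst e <;> subst e' <;>
          first
          | exact absurd rfl hjk
          | exact b1
          | exact b2
          | exact b3
          | exact b4
          | exact b5
          | exact b6
      lab := fun g j k h => ft_lab hC g j k h
      cov := by
        intro v
        obtain ⟨x, y, h, h0⟩ := S.inner_face hf v
        obtain ⟨g, k, hk, _⟩ := ft_surj hC h h0
        exact ⟨g, k, hk⟩
      conn := by
        intro X hX g g'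
        let X' : V → V → V → ℝ := fun u v w =>
          if h : ∃ g : FT S a idx, CS7_Rep u v w g then X (Classical.choose h) else 0
        have hX' : ∀ (u v w : V) (g : FT S a idx), CS7_Rep u v w g → X' u v w = X g := by
          intro u v w g h
          have h1 : ∃ g : FT S a idx, CS7_Rep u v w g := ⟨g, h⟩
          have h2 : X' u v w = X (Classical.choose h1) := dif_pos h1
          rw [h2, CS7_Rep_uniq (Classical.choose_spec h1) h]
        have hX0 : ∀ (u v w : V), (¬ ∃ g : FT S a idx, CS7_Rep u v w g) → X' u v w = 0 :=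
          fun u v w h => dif_neg h
        have hrot : ∀ u v w : V, S.T u v w → X' u v w = X' v w u := by
          intro u v w _
          by_cases h : ∃ g : FT S a idx, CS7_Rep u v w g
          · obtain ⟨g, hg⟩ := h
            rw [hX' u v w g hg, hX' v w u g (CS7_Rep_rot hg)]
          · rw [hX0 u v w h, hX0 v w u]
            rintro ⟨g, hg⟩
            exact h ⟨g, CS7_Rep_rot (CS7_Rep_rot hg)⟩
        have hedge : ∀ u v w w' : V, S.T u v w → S.T v u w' → ¬ OutF a u v w →
            ¬ OutF a v u w' → X' u v w = X' v u w' := by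
          intro u v w w' hT hT' h0 h0'
          obtain ⟨g, k, hk0, hk1, hk2⟩ := ft_surj hC hT h0
          obtain ⟨e1, e2, e3, e4⟩ := CS7_fin k
          rw [hX' u v w g ⟨k, hk0, hk1, hk2⟩]
          rcases ft_rule hC g k with ⟨h1, h2⟩ | ⟨h1, h2⟩ | ⟨h1, h2⟩
          · exfalso
            obtain ⟨c1, c2⟩ := houter k
            rw [← hk0, ← hk1, h1, h2] at hT' h0'
            have := S.uniq hT' c1
            rw [this] at h0'
            exact h0' c2
          · obtain ⟨b1, b2⟩ := hL g k h1 h2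
            obtain ⟨b3, b4⟩ := hgR (k + 1) (ft k g) h1
            rw [e1] at b3
            have b5 := ft_T (k + 1) (gR (k + 1) (ft k g))
            rw [e1, e2, b3, b4, b2, hk0, hk1] at b5
            have b6 := S.uniq hT' b5
            have b7 : CS7_Rep v u w' (gR (k + 1) (ft k g)) := by
              refine ⟨k + 1, ?_, ?_, ?_⟩
              · rw [b4, b2, hk1]
              · rw [e1, b3, hk0]
              · rw [e2, b6, hk0]
            rw [hX' v u w' _ b7, ← hX (k + 1) (ft k g) h1, ← b1]
          · obtain ⟨b1, b2⟩ := hR g k h1 h2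
            obtain ⟨b3, b4⟩ := hgL k (ft (k + 1) g) h1
            have b5 := ft_T (k + 2) (gL k (ft (k + 1) g))
            rw [e3, e4, b3, b4, b2, hk0, hk1] at b5
            have b6 := S.uniq hT' b5
            have b7 : CS7_Rep v u w' (gL k (ft (k + 1) g)) := by
              refine ⟨k + 2, ?_, ?_, ?_⟩
              · rw [b3, hk1]
              · rw [e3, b4, b2, hk0]
              · rw [e4, b6, hk1]
            rw [hX' v u w' _ b7, hX k (ft (k + 1) g) h1, ← b1]
        have hfin := S.conn_faces hf X' hrot hedge (ft_T 0 g) (ft_inner hC 0 g) (ft_T 0 g')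
          (ft_inner hC 0 g')
        rw [hX' _ _ _ g ⟨0, rfl, rfl, rfl⟩, hX' _ _ _ g' ⟨0, rfl, rfl, rfl⟩] at hfin
        exact hfin }
  refine ⟨FT S a idx, inferInstance, s, rfl, ?_, ?_, ?_, ?_⟩
  · intro g k
    exact ft_T k g
  · intro g k
    exact ft_inner hC k g
  · intro u v w h h0
    exact ft_surj hC h h0
  · intro g g' h
    exact ft_uniq (k := 0) (h 0) (h 1)

end Pool.SX
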