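import Pool.Agent.Lib.MP_9dcace_sx.FDefs

/-!
ROW F5 (elementary facts on forests, 100-150 lines).  Everything by unfolding `For`, `WF`, `root`.
* `root_not_mem`: π ∈ For I → root π v ∉ I (an iterate of `v` leaves `I` after at most `card V` steps and then stays:
  off `I` the map is the identity; pigeonhole: the iterates before leaving are pairwise different).
* `root_of_not_mem`: v ∉ I → root π v = v.  `root_step`: root π (π v) = root π v.
* `DF_union`: `I1, I2` disjoint without edges between them: the forests of nonzero weight on I1 ∪ I2 are exactly the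
  pairs (π1, π2) (π v = π1 v on I1, π2 v on I2): they never go from I1 to I2.
* `DF_pos_of`: if some forest has all its edges of positive weight then `0 < DF om I`.
-/

set_option autoImplicit false

open Classical

namespace Pool.SX

variable {V : Type} [Fintype V]

private theorem mem_For {I : Finset V} {π : V → V} : π ∈ For I ↔
    (∀ v, v ∉ I → π v = v) ∧ ∀ v, ∃ n : ℕ, π^[n] v ∉ I := by
  simp [For]

theorem root_not_mem (I : Finset V) (π : V → V) (h : π ∈ For I) (v : V) : root π v ∉ I := by
  obtain ⟨h1, h2⟩ := mem_For.1 h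
  have hn := Nat.find_spec (h2 v)
  have hmin : ∀ m, m < Nat.find (h2 v) → π^[m] v ∈ I := by
    intro m hm
    by_contra hc
    exact Nat.find_min (h2 v) hm hc
  have hle : Nat.find (h2 v) ≤ Fintype.card V := by
    set n := Nat.find (h2 v) with hndef
    have hinj : Function.Injective (fun i : Fin n => π^[(i : ℕ)] v) := by
      have aux : ∀ i j : ℕ, i < j → j < n → π^[i] v ≠ π^[j] v := by
        intro i j hij hj he
        apply hn
        have h3 : n = (n - j) + j := by omega
        rw [h3, Function.iterate_add_apply, ← he, ← Function.iterate_add_apply]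
        exact hmin _ (by omega)
      intro i j he
      rcases lt_trichotomy (i : ℕ) (j : ℕ) with hlt | heq | hgt
      · exact absurd he (aux _ _ hlt j.2)
      · exact Fin.ext heq
      · exact absurd he.symm (aux _ _ hgt i.2)
    simpa using Fintype.card_le_of_injective _ hinj
  unfold root
  rw [show Fintype.card V = (Fintype.card V - Nat.find (h2 v)) + Nat.find (h2 v) by omega,
    Function.iterate_add_apply, Function.iterate_fixed (h1 _ hn)]
  exact hn

theorem root_of_not_mem (I : Finset V) (π : V → V) (h : π ∈ For I) (v : V) (hv : v ∉ I) :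
    root π v = v := by
  obtain ⟨h1, h2⟩ := mem_For.1 h
  exact Function.iterate_fixed (h1 v hv) _

theorem root_step (I : Finset V) (π : V → V) (h : π ∈ For I) (v : V) :
    root π (π v) = root π v := by
  have h3 := root_not_mem I π h v
  obtain ⟨h1, h2⟩ := mem_For.1 h
  unfold root at h3 ⊢
  rw [← Function.iterate_succ_apply, Function.iterate_succ_apply', h1 _ h3]

theorem DF_nonneg (om : V → V → ℝ) (h0 : ∀ u v, 0 ≤ om u v) (I : Finset V) : 0 ≤ DF om I :=
  Finset.sum_nonneg fun _ _ => Finset.prod_nonneg fun _ _ => h0 _ _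

theorem DF_empty (om : V → V → ℝ) : DF om (∅ : Finset V) = 1 := by
  have h : For (∅ : Finset V) = {id} := by
    ext π
    rw [mem_For, Finset.mem_singleton]
    constructor
    · rintro ⟨h1, -⟩
      funext v
      exact h1 v (by simp)
    · rintro rfl
      exact ⟨fun v _ => rfl, fun v => ⟨0, by simp⟩⟩
  rw [DF, h, Finset.sum_singleton, WF, Finset.prod_empty]

/-- `DF` only depends on the weights of the edges at `I` -/
theorem DF_congr (om om' : V → V → ℝ) (I : Finset V) (h : ∀ v ∈ I, ∀ u, om v u = om' v u) :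
    DF om I = DF om' I :=
  Finset.sum_congr rfl fun _ _ => Finset.prod_congr rfl fun v hv => h v hv _

theorem ZF_congr (om om' : V → V → ℝ) (I : Finset V) (h : ∀ v ∈ I, ∀ u, om v u = om' v u)
    (χ : V → Fin 3) (p : Fin 3 → V) : ZF om I χ p = ZF om' I χ p :=
  Finset.sum_congr rfl fun _ _ => Finset.prod_congr rfl fun v hv => h v hv _

/-- restriction of a map to `I` -/
private noncomputable def rst (I : Finset V) (π : V → V) : V → V := fun v => if v ∈ I then π v else v

private theorem rst_mem {I J : Finset V} (hIJ : I ⊆ J) {π : V → V} (h : π ∈ For J) :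
    rst I π ∈ For I := by
  obtain ⟨-, h2⟩ := mem_For.1 h
  refine mem_For.2 ⟨fun v hv => by rw [rst, if_neg hv], fun v => ?_⟩
  by_contra hc
  push Not at hc
  have key : ∀ n, (rst I π)^[n] v = π^[n] v := by
    intro n
    induction n with
    | zero => rfl
    | succ n ih =>
      rw [Function.iterate_succ_apply', Function.iterate_succ_apply', ← ih, rst, if_pos (hc n)]
  obtain ⟨n, hn⟩ := h2 v
  exact hn (hIJ (by rw [← key n]; exact hc n))

private theorem stay {om : V → V → ℝ} {I1 I2 : Finset V}
    (h : ∀ u ∈ I1, ∀ v ∈ I2, om u v = 0) {π π1 : V → V} (h1 : ∀ v ∈ I1, π v = π1 v)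
    (hπ1 : π1 ∈ For I1) (hw : WF om I1 π1 ≠ 0) {v : V} (hv : v ∈ I1)
    (hc : ∀ n : ℕ, π^[n] v ∈ I1 ∨ π^[n] v ∈ I2) : False := by
  have hne : ∀ w ∈ I1, om w (π1 w) ≠ 0 := by
    intro w hw1 h0
    exact hw (Finset.prod_eq_zero hw1 h0)
  have hall : ∀ n : ℕ, π^[n] v ∈ I1 ∧ π1^[n] v = π^[n] v := by
    intro n
    induction n with
    | zero => exact ⟨hv, rfl⟩
    | succ n ih =>
      have h3 : π^[n + 1] v = π1 (π^[n] v) := by
        rw [Function.iterate_succ_apply', h1 _ ih.1]
      refine ⟨(hc (n + 1)).resolve_right fun h2 => ?_, ?_⟩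
      · rw [h3] at h2
        exact hne _ ih.1 (h _ ih.1 _ h2)
      · rw [h3, Function.iterate_succ_apply', ih.2]
  obtain ⟨n, hn⟩ := (mem_For.1 hπ1).2 v
  rw [(hall n).2] at hn
  exact hn (hall n).1

theorem DF_union (om : V → V → ℝ) (I1 I2 : Finset V) (hd : Disjoint I1 I2)
    (hs : ∀ u v, om u v = om v u) (h : ∀ u ∈ I1, ∀ v ∈ I2, om u v = 0) :
    DF om (I1 ∪ I2) = DF om I1 * DF om I2 := by
  have hcomp : ∀ π : V → V, WF om (I1 ∪ I2) π = WF om I1 (rst I1 π) * WF om I2 (rst I2 π) := by
    intro π
    unfold WF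
    rw [Finset.prod_union hd]
    congr 1
    · exact Finset.prod_congr rfl fun v hv => by rw [rst, if_pos hv]
    · exact Finset.prod_congr rfl fun v hv => by rw [rst, if_pos hv]
  unfold DF
  rw [Finset.sum_mul_sum, ← Finset.sum_product']
  refine Finset.sum_bij_ne_zero (fun π _ _ => (rst I1 π, rst I2 π)) ?_ ?_ ?_ ?_
  · intro π hπ _
    exact Finset.mem_product.2 ⟨rst_mem Finset.subset_union_left hπ,
      rst_mem Finset.subset_union_right hπ⟩
  · intro π hπ _ π' hπ' _ he
    obtain ⟨e1, e2⟩ := Prod.mk.inj he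
    funext v
    by_cases hv1 : v ∈ I1
    · have := congrFun e1 v
      rwa [rst, rst, if_pos hv1, if_pos hv1] at this
    · by_cases hv2 : v ∈ I2
      · have := congrFun e2 v
        rwa [rst, rst, if_pos hv2, if_pos hv2] at this
      · have hv : v ∉ I1 ∪ I2 := by simp [hv1, hv2]
        rw [(mem_For.1 hπ).1 v hv, (mem_For.1 hπ').1 v hv]
  · rintro ⟨π1, π2⟩ hp hg
    obtain ⟨hπ1, hπ2⟩ := Finset.mem_product.1 hp
    have hw1 : WF om I1 π1 ≠ 0 := left_ne_zero_of_mul hg
    have hw2 : WF om I2 π2 ≠ 0 := right_ne_zero_of_mul hg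
    set π : V → V := fun v => if v ∈ I1 then π1 v else if v ∈ I2 then π2 v else v with hπ
    have a1 : ∀ v ∈ I1, π v = π1 v := fun v hv => by simp only [hπ, if_pos hv]
    have a2 : ∀ v ∈ I2, π v = π2 v := by
      intro v hv
      have : v ∉ I1 := fun h' => Finset.disjoint_left.1 hd h' hv
      simp only [hπ, if_neg this, if_pos hv]
    have r1 : rst I1 π = π1 := by
      funext v
      by_cases hv : v ∈ I1
      · rw [rst, if_pos hv, a1 v hv]
      · rw [rst, if_neg hv]
        exact ((mem_For.1 hπ1).1 v hv).symm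
    have r2 : rst I2 π = π2 := by
      funext v
      by_cases hv : v ∈ I2
      · rw [rst, if_pos hv, a2 v hv]
      · rw [rst, if_neg hv]
        exact ((mem_For.1 hπ2).1 v hv).symm
    have hmem : π ∈ For (I1 ∪ I2) := by
      refine mem_For.2 ⟨fun v hv => ?_, fun v => ?_⟩
      · rw [Finset.mem_union, not_or] at hv
        simp only [hπ, if_neg hv.1, if_neg hv.2]
      · by_contra hc
        push Not at hc
        have hc' : ∀ n : ℕ, π^[n] v ∈ I1 ∨ π^[n] v ∈ I2 := fun n => Finset.mem_union.1 (hc n)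
        rcases hc' 0 with h3 | h3
        · exact stay h a1 hπ1 hw1 h3 hc'
        · exact stay (fun u hu w hw => by rw [hs]; exact h w hw u hu) a2 hπ2 hw2 h3
            (fun n => (hc' n).symm)
    refine ⟨π, hmem, ?_, ?_⟩
    · rw [hcomp, r1, r2]
      exact hg
    · rw [r1, r2]
  · intro π _ _
    exact hcomp π

theorem DF_pos_of (om : V → V → ℝ) (h0 : ∀ u v, 0 ≤ om u v) (I : Finset V) (π : V → V)
    (h : π ∈ For I) (hp : ∀ v ∈ I, 0 < om v (π v)) : 0 < DF om I :=
  Finset.sum_pos' (fun _ _ => Finset.prod_nonneg fun _ _ => h0 _ _)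
    ⟨π, h, Finset.prod_pos fun v hv => hp v hv⟩

end Pool.SX
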