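import Pool.Agent.Lib.MP_9dcace_sx.F1
import Pool.Agent.Lib.MP_9dcace_sx.F5

/-!
ROW F2 (150 lines; the all-minors formula for three vertices).
PROOF. Consider matrices with rows and columns indexed by `I ⊕ Fin 3` (`I` as a subtype `{v // v ∈ I}`).
Let `Φ : (V → ℝ) → (I ⊕ Fin 3 → ℝ)` be the linear map sending the unit vector `e_v` to `e_(inl v)` for `v ∈ I`
and to `e_(inr (χ v))` for `v ∉ I`.  M := rows Φ(lapRow om v) (v ∈ I) and Φ(e_(p j)) (j : Fin 3).
(1) det M = det (KM om I) * det (H (p j) k):  multiply M on the right by the unitriangular matrix which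
adds to the column `inr k` the combination `∑_{v ∈ I} H v k • column (inl v)`: the rows `v ∈ I` become (L_v, 0)
because `lap om (H · k) v = 0`, and the row `p j` becomes (*, H (p j) ·).  So M is block triangular:
det M = det (L restricted to I) * det (H (p j) k), and det (KM om I) = det (L restricted to I)
(`Matrix.det_fromBlocks_zero₁₂` etc.; KM is block triangular for the partition I, complement).
(2) expand the rows `v ∈ I` of M multilinearly as in F1: det M = ∑_π W(π) det(rows Φ(e_v - e_(π v)), Φ(e_(p j))).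
For π ∈ For I: Φ(e_(p j)) is congruent to Φ(e_(root (p j))) = e_(inr (χ (root π (p j)))) modulo the rows
Φ(e_v - e_(π v)), so the determinant is det_map * det(e_{χ(root (p j))}) = det (fun j k => if χ (root π (p j)) = k then 1 else 0).
For π ∉ For I it is 0 (the vector `indicator of {v : all iterates of v stay in I}` composed with inl ...: here rows
p j need not vanish on it; instead use the ROW relation: the sum of the rows of a cycle of π inside I is 0).
Alternative to (2): prove by the same trick as (1) applied to the weights om' v u = (if u = π v then 1 else 0)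
for a single map π ∈ For I: H' v k := if χ (root π v) = k then 1 else 0 is harmonic for om'; det (KM om' I) = det_map = 1.
(For non symmetric om' fine: symmetry is never used.) For π ∉ For I: det (KM om' I) = 0 and (1') det M = det(KM om' I) * det(..)
needs a harmonic H'; use the row relation instead.
-/

set_option autoImplicit false

open Classical

open scoped Matrix

namespace Pool.SX

variable {V : Type} [Fintype V]

/-- the bordered determinant -/
private theorem F2_bord (K : Matrix V V ℝ) (B : Matrix V (Fin 3) ℝ) (C : Matrix (Fin 3) V ℝ)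
    (H : Matrix V (Fin 3) ℝ) (h : K * H + B = 0) :
    (Matrix.fromBlocks K B C 0).det = K.det * (C * H).det := by
  have h1 : Matrix.fromBlocks K B C 0 * Matrix.fromBlocks 1 H 0 1 =
      Matrix.fromBlocks K 0 C (C * H) := by
    rw [Matrix.fromBlocks_multiply]
    simp [h]
  have h2 := congrArg Matrix.det h1
  rw [Matrix.det_mul, Matrix.det_fromBlocks_zero₂₁, Matrix.det_fromBlocks_zero₁₂] at h2
  simpa using h2

/-- the border columns -/
private noncomputable def F2_B (I : Finset V) (χ : V → Fin 3) : Matrix V (Fin 3) ℝ :=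
  Matrix.of fun v k => if v ∈ I then 0 else if χ v = k then -1 else 0

/-- the border rows -/
private noncomputable def F2_C (p : Fin 3 → V) : Matrix (Fin 3) V ℝ :=
  Matrix.of fun j w => if w = p j then 1 else 0

/-- the matrix of a single map -/
private noncomputable def F2_K (I : Finset V) (π : V → V) : Matrix V V ℝ :=
  Matrix.of (fun v w => if v ∈ I then
        ((if w = v then (1 : ℝ) else 0) - (if w = π v then (1 : ℝ) else 0))
        else (if w = v then (1 : ℝ) else 0))

private noncomputable def F2_g (I : Finset V) (χ : V → Fin 3) (v u : V) : V ⊕ Fin 3 → ℝ :=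
  Sum.elim (fun w => if v ∈ I then
        ((if w = v then (1 : ℝ) else 0) - (if w = u then (1 : ℝ) else 0))
        else (if w = v then (1 : ℝ) else 0)) (fun k => F2_B I χ v k)

private noncomputable def F2_w (om : V → V → ℝ) (I : Finset V) (v u : V) : ℝ :=
  if v ∈ I then om v u else if u = v then 1 else 0

private theorem F2_C_mul (p : Fin 3 → V) (H : V → Fin 3 → ℝ) :
    F2_C p * Matrix.of H = Matrix.of (fun j k => H (p j) k) := by
  ext j k
  simp [F2_C, Matrix.mul_apply]

private theorem F2_row (om : V → V → ℝ) (I : Finset V) (χ : V → Fin 3) (p : Fin 3 → V) :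
    Matrix.fromBlocks (KM om I) (F2_B I χ) (F2_C p) 0 =
      Sum.elim (fun v => ∑ u, F2_w om I v u • F2_g I χ v u)
        (fun j => Sum.elim (fun w => F2_C p j w) (fun _ => (0 : ℝ))) := by
  funext i j
  rcases i with v | j' <;> rcases j with w | k
  · show KM om I v w = (∑ u, F2_w om I v u • F2_g I χ v u) (Sum.inl w)
    rw [Finset.sum_apply]
    by_cases hv : v ∈ I
    · simp only [KM, Matrix.of_apply, if_pos hv, lapRow, Pi.smul_apply, smul_eq_mul, F2_w, F2_g,
        Sum.elim_inl]
    · simp [KM, if_neg hv, F2_w, F2_g]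
  · show F2_B I χ v k = (∑ u, F2_w om I v u • F2_g I χ v u) (Sum.inr k)
    rw [Finset.sum_apply]
    by_cases hv : v ∈ I
    · simp [F2_B, if_pos hv, F2_g]
    · simp [F2_w, if_neg hv, F2_g]
  · rfl
  · rfl

private theorem F2_expand (om : V → V → ℝ) (I : Finset V) (χ : V → Fin 3) (p : Fin 3 → V) :
    (Matrix.fromBlocks (KM om I) (F2_B I χ) (F2_C p) 0).det =
      ∑ π : V → V, (∏ v, F2_w om I v (π v)) *
        (Matrix.fromBlocks (F2_K I π) (F2_B I χ) (F2_C p) 0).det := by
  set Φ := (Matrix.detRowAlternating (n := V ⊕ Fin 3) (R := ℝ)).toMultilinearMap.currySum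
    with hΦ
  have hP : ∀ (r : V → (V ⊕ Fin 3 → ℝ)) (c : Fin 3 → (V ⊕ Fin 3 → ℝ)),
      Φ r c = Matrix.det (Sum.elim r c) := fun r c => rfl
  rw [F2_row, ← hP, MultilinearMap.map_sum, sum_apply]
  refine Finset.sum_congr rfl fun π _ => ?_
  rw [MultilinearMap.map_smul_univ, smul_apply, smul_eq_mul, hP]
  congr 2

private theorem F2_zero (I : Finset V) (π : V → V) (h : ∀ v, v ∉ I → π v = v) (h' : π ∉ For I)
    (χ : V → Fin 3) (p : Fin 3 → V) :
    (Matrix.fromBlocks (F2_K I π) (F2_B I χ) (F2_C p) 0).det = 0 := by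
  obtain ⟨v0, hv0⟩ : ∃ v, ∀ n, π^[n] v ∈ I := by
    by_contra hc
    push Not at hc
    exact h' (by simp only [For, Finset.mem_filter, Finset.mem_univ, true_and]; exact ⟨h, hc⟩)
  set S : Finset V := Finset.univ.filter
    (fun v => (∀ n, π^[n] v ∈ I) ∧ ∃ n, 0 < n ∧ π^[n] v = v) with hS
  have hmem : ∀ v, v ∈ S ↔ (∀ n, π^[n] v ∈ I) ∧ ∃ n, 0 < n ∧ π^[n] v = v := by
    intro v
    simp [hS]
  have hstep : ∀ v ∈ S, π v ∈ S := by
    intro v hv
    rw [hmem] at hv ⊢
    obtain ⟨h1, n, hn, h2⟩ := hv
    refine ⟨fun m => ?_, n, hn, ?_⟩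
    · rw [← Function.iterate_succ_apply]
      exact h1 _
    · rw [← Function.iterate_succ_apply, Function.iterate_succ_apply', h2]
  have hiter : ∀ n, ∀ v ∈ S, π^[n] v ∈ S := by
    intro n
    induction n with
    | zero => exact fun v hv => hv
    | succ n ih =>
      intro v hv
      rw [Function.iterate_succ_apply']
      exact hstep _ (ih v hv)
  have hsurj : ∀ v ∈ S, ∃ u ∈ S, π u = v := by
    intro v hv
    obtain ⟨-, n, hn, h2⟩ := (hmem v).1 hv
    obtain ⟨m, rfl⟩ : ∃ m, n = m + 1 := ⟨n - 1, by omega⟩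
    exact ⟨π^[m] v, hiter m v hv, (Function.iterate_succ_apply' π m v).symm.trans h2⟩
  have hSn : ∃ v, v ∈ S := by
    obtain ⟨m, n, hmn, he⟩ : ∃ m n : ℕ, m < n ∧ π^[m] v0 = π^[n] v0 := by
      obtain ⟨m, n, hmn, he⟩ := Finite.exists_ne_map_eq_of_infinite (fun n : ℕ => π^[n] v0)
      rcases lt_or_gt_of_ne hmn with h1 | h1
      · exact ⟨m, n, h1, he⟩
      · exact ⟨n, m, h1, he.symm⟩
    refine ⟨π^[m] v0, (hmem _).2 ⟨fun k => ?_, n - m, by omega, ?_⟩⟩
    · rw [← Function.iterate_add_apply]
      exact hv0 _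
    · rw [← Function.iterate_add_apply, he]
      congr 2
      omega
  have hinj : Set.InjOn π (S : Set V) := by
    have h1 : S.image π = S := by
      ext v
      rw [Finset.mem_image]
      constructor
      · rintro ⟨u, hu, rfl⟩
        exact hstep u hu
      · intro hv
        exact hsurj v hv
    exact Finset.card_image_iff.1 (by rw [h1])
  apply Matrix.exists_vecMul_eq_zero_iff.1
  refine ⟨Sum.elim (fun v => if v ∈ S then 1 else 0) (fun _ => 0), ?_, ?_⟩
  · obtain ⟨v, hv⟩ := hSn
    intro h0
    have h1 := congrFun h0 (Sum.inl v)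
    simp [hv] at h1
  · rw [Matrix.vecMul_fromBlocks]
    funext i
    rcases i with w | k
    · show ((fun v => if v ∈ S then (1 : ℝ) else 0) ᵥ* F2_K I π +
        (fun _ => (0 : ℝ)) ᵥ* F2_C p) w = 0
      have hz : (fun _ : Fin 3 => (0 : ℝ)) ᵥ* F2_C p = 0 := Matrix.zero_vecMul _
      rw [hz, add_zero, Matrix.vecMul, dotProduct]
      have h1 : ∀ v, (if v ∈ S then (1 : ℝ) else 0) * F2_K I π v w =
          if v ∈ S then ((if w = v then (1 : ℝ) else 0) - (if w = π v then (1 : ℝ) else 0))
          else 0 := by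
        intro v
        by_cases hv : v ∈ S
        · have hvI : v ∈ I := ((hmem v).1 hv).1 0
          rw [if_pos hv, if_pos hv, one_mul]
          simp [F2_K, hvI]
        · rw [if_neg hv, if_neg hv, zero_mul]
      simp only [h1]
      rw [← Finset.sum_filter, Finset.filter_mem_eq_inter, Finset.univ_inter,
        Finset.sum_sub_distrib, sub_eq_zero]
      symm
      exact Finset.sum_nbij π (fun v hv => hstep v hv) hinj
        (fun v hv => by
          obtain ⟨u, hu, he⟩ := hsurj v hv
          exact ⟨u, hu, he⟩) (fun v _ => rfl)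
    · show ((fun v => if v ∈ S then (1 : ℝ) else 0) ᵥ* F2_B I χ +
        (fun _ => (0 : ℝ)) ᵥ* (0 : Matrix (Fin 3) (Fin 3) ℝ)) k = 0
      rw [Matrix.vecMul_zero, add_zero, Matrix.vecMul, dotProduct]
      refine Finset.sum_eq_zero fun v _ => ?_
      by_cases hv : v ∈ S
      · have hvI : v ∈ I := ((hmem v).1 hv).1 0
        simp [F2_B, hvI]
      · rw [if_neg hv, zero_mul]

theorem DF_mul_det (om : V → V → ℝ) (I : Finset V) (χ : V → Fin 3) (H : V → Fin 3 → ℝ)
    (h0 : ∀ v, v ∉ I → ∀ k, H v k = if χ v = k then 1 else 0)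
    (h1 : ∀ v ∈ I, ∀ k, lap om (fun u => H u k) v = 0) (p : Fin 3 → V) :
    DF om I * (Matrix.of (fun j k => H (p j) k) : Matrix (Fin 3) (Fin 3) ℝ).det =
      ∑ π ∈ For I, WF om I π *
        (Matrix.of (fun j k => if χ (root π (p j)) = k then (1 : ℝ) else 0) :
          Matrix (Fin 3) (Fin 3) ℝ).det := by
  have hKH : KM om I * Matrix.of H + F2_B I χ = 0 := by
    ext v k
    rw [Matrix.add_apply, Matrix.mul_apply, Matrix.zero_apply]
    by_cases hv : v ∈ I
    · have h2 : ∀ w, KM om I v w * Matrix.of H w k = ∑ u, om v u *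
          ((if w = v then (1 : ℝ) else 0) - (if w = u then (1 : ℝ) else 0)) * H w k := by
        intro w
        simp only [KM, Matrix.of_apply, if_pos hv, lapRow]
        rw [Finset.sum_mul]
      simp only [h2]
      rw [Finset.sum_comm]
      have h3 : ∀ u, ∑ w, om v u *
          ((if w = v then (1 : ℝ) else 0) - (if w = u then (1 : ℝ) else 0)) * H w k =
          om v u * (H v k - H u k) := by
        intro u
        simp only [mul_assoc, ← Finset.mul_sum, sub_mul, ite_mul, one_mul, zero_mul]
        rw [Finset.sum_sub_distrib]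
        simp
      simp only [h3]
      have h4 := h1 v hv k
      rw [lap] at h4
      rw [h4]
      simp [F2_B, hv]
    · simp [KM, F2_B, hv, h0 v hv]
      split_ifs <;> simp
  rw [DF_eq_det, ← F2_C_mul, ← F2_bord _ _ _ _ hKH, F2_expand]
  have hz : ∀ π : V → V, π ∉ For I → (∏ v, F2_w om I v (π v)) *
        (Matrix.fromBlocks (F2_K I π) (F2_B I χ) (F2_C p) 0).det = 0 := by
    intro π hπ
    by_cases h : ∀ v, v ∉ I → π v = v
    · rw [F2_zero I π h hπ, mul_zero]
    · push Not at h
      obtain ⟨v, hv, hne⟩ := h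
      rw [Finset.prod_eq_zero (Finset.mem_univ v), zero_mul]
      simp [F2_w, hv, hne]
  rw [← Finset.sum_subset (Finset.subset_univ (For I)) (fun π _ hπ => hz π hπ)]
  refine Finset.sum_congr rfl fun π hπ => ?_
  have hπ2 : ∀ v, v ∉ I → π v = v := by
    simp only [For, Finset.mem_filter, Finset.mem_univ, true_and] at hπ
    exact hπ.1
  have hW : ∏ v, F2_w om I v (π v) = WF om I π := by
    rw [WF, ← Finset.prod_subset (Finset.subset_univ I)]
    · exact Finset.prod_congr rfl fun v hv => by simp [F2_w, hv]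
    · intro v _ hv
      simp [F2_w, hv, hπ2 v hv]
  have hK1 : (F2_K I π).det = 1 := by
    have := det_map I π hπ2
    rw [if_pos hπ] at this
    exact this
  have hKH' : F2_K I π * Matrix.of (fun v k => if χ (root π v) = k then (1 : ℝ) else 0) +
      F2_B I χ = 0 := by
    ext v k
    rw [Matrix.add_apply, Matrix.mul_apply, Matrix.zero_apply]
    by_cases hv : v ∈ I
    · simp only [F2_K, Matrix.of_apply, if_pos hv, sub_mul, Finset.sum_sub_distrib, ite_mul,
        one_mul, zero_mul, F2_B, add_zero]
      rw [Finset.sum_ite_eq' Finset.univ v, Finset.sum_ite_eq' Finset.univ (π v),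
        root_step I π hπ]
      simp
    · simp only [F2_K, Matrix.of_apply, if_neg hv, ite_mul, one_mul, zero_mul, F2_B]
      rw [Finset.sum_ite_eq' Finset.univ v, root_of_not_mem I π hπ v hv,
        if_pos (Finset.mem_univ v)]
      split_ifs <;> simp
  rw [hW, F2_bord _ _ _ _ hKH', hK1, one_mul, F2_C_mul]

end Pool.SX
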