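import Pool.Agent.Lib.MP_9dcace_sx.F3b
import Pool.Agent.Lib.MP_9dcace_sx.F2

/-!
ROW F3c (area of a face = forests, 60-90 lines).
`DF_mul_det` with I = VI; for each forest π of nonzero weight take col := χ ∘ root π (root_of_not_mem, root_step; π v is joined to v by an edge
because the weight is nonzero); the sign sum is 1 and at most one face is trichromatic (a face which is not trichromatic has determinant 0:
two equal rows), hence the determinant of g is 1 if the face g is trichromatic and 0 otherwise.
-/

set_option autoImplicit false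

open Classical

namespace Pool.SX.Sch

variable {V F : Type} [Fintype V] [Fintype F] (s : Sch V F)

theorem det_not_inj_F3c (f : Fin 3 → Fin 3) (h : ¬ Function.Injective f) :
    (Matrix.of (fun j k => if f j = k then (1 : ℝ) else 0) :
      Matrix (Fin 3) (Fin 3) ℝ).det = 0 := by
  rw [Function.Injective] at h
  push Not at h
  obtain ⟨x, y, hxy, hne⟩ := h
  apply Matrix.det_zero_of_row_eq hne
  funext k
  simp only [Matrix.of_apply, hxy]

theorem area_eq (om : V → V → ℝ) (hE : ∀ u v, om u v ≠ 0 → s.Edge u v)
    (χ : V → Fin 3) (hχ : ∀ k, χ (s.a k) = k) (H : V → Fin 3 → ℝ)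
    (h1 : ∀ k j, H (s.a k) j = if k = j then 1 else 0)
    (h2 : ∀ v, s.inn v → ∀ k, lap om (fun u => H u k) v = 0) (g : F) :
    DF om s.VI * (Matrix.of (fun j k => H (s.t j g) k) : Matrix (Fin 3) (Fin 3) ℝ).det =
      ZF om s.VI χ (fun j => s.t j g) := by
  have hmem : ∀ v, v ∈ s.VI ↔ s.inn v := by
    intro v
    simp only [VI, Finset.mem_filter, Finset.mem_univ, true_and]
  have hout : ∀ v, v ∉ s.VI → ∃ k, v = s.a k := by
    intro v hv
    rw [hmem, inn] at hv
    push Not at hv
    exact hv
  have ha : ∀ k, s.a k ∉ s.VI := by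
    intro k hk
    rw [hmem] at hk
    exact hk k rfl
  have key := DF_mul_det om s.VI χ H (by
      intro v hv k
      obtain ⟨i, rfl⟩ := hout v hv
      rw [h1, hχ]) (fun v hv k => h2 v ((hmem v).1 hv) k) (fun j => s.t j g)
  rw [key]
  unfold ZF
  rw [Finset.sum_filter]
  apply Finset.sum_congr rfl
  intro π hπ
  by_cases hW : WF om s.VI π = 0
  · rw [hW]
    simp
  have hcol : ∀ k, (fun v => χ (root π v)) (s.a k) = k := by
    intro k
    show χ (root π (s.a k)) = k
    rw [root_of_not_mem s.VI π hπ _ (ha k), hχ]
  have hc : ∀ v, s.inn v → s.Edge v (π v) ∧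
      (fun v => χ (root π v)) (π v) = (fun v => χ (root π v)) v := by
    intro v hv
    refine ⟨?_, ?_⟩
    · apply hE
      intro h0
      exact hW (Finset.prod_eq_zero ((hmem v).2 hv) h0)
    · show χ (root π (π v)) = χ (root π v)
      rw [root_step s.VI π hπ]
  by_cases hg : Function.Injective (fun j => χ (root π (s.t j g)))
  · rw [if_pos hg]
    have hsum := s.sign_sum (fun v => χ (root π v)) hcol
    rw [Finset.sum_eq_single g] at hsum
    · rw [hsum, mul_one]
    · intro g' _ hne
      apply det_not_inj_F3c (fun j => χ (root π (s.t j g')))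
      intro hg'
      exact hne (s.one_tri (fun v => χ (root π v)) hcol π hπ hc g' g hg' hg)
    · intro h
      exact absurd (Finset.mem_univ g) h
  · rw [if_neg hg, det_not_inj_F3c (fun j => χ (root π (s.t j g))) hg, mul_zero]

end Pool.SX.Sch
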