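import Pool.Agent.Lib.MP_9dcace_sx.TDefs

/-!
Definitions for section Z (rounding, face lattice, assembly).
Orientation convention: `0 < dt4 (P u) (P v) (P w) (P z)` for every oriented triangle `T u v w` and every other vertex `z`.
-/

set_option autoImplicit false

open Classical

namespace Pool.SX

variable {V F : Type} [Fintype V] [Fintype F]

/-- the configuration `P` is a strictly convex realization of the sphere `S` -/
def Sph.Pos (S : Sph V) (P : V → Fin 3 → ℝ) : Prop :=
  ∀ u v w z : V, S.T u v w → z ≠ u → z ≠ v → z ≠ w → 0 < dt4 (P u) (P v) (P w) (P z)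

/-- `A` is the set of the vertices on a supporting plane (or empty, or everything) -/
def Supp (P : V → Fin 3 → ℝ) (A : Finset V) : Prop :=
  ∃ (a : Fin 3 → ℝ) (c : ℝ), (∀ v, ∑ i, a i * P v i ≤ c) ∧ ∀ v, (v ∈ A ↔ ∑ i, a i * P v i = c)

/-- `s` is a Schnyder structure of the sphere `S` -/
structure SchOf (S : Sph V) (s : Sch V F) : Prop where
  face : ∀ g : F, S.T (s.t 0 g) (s.t 1 g) (s.t 2 g)
  outer : S.T (s.a 1) (s.a 0) (s.a 2)
  /-- every oriented triangle is a rotation of a face or of the outer triangle -/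
  all : ∀ u v w : V, S.T u v w →
    (∃ (g : F) (k : Fin 3), u = s.t k g ∧ v = s.t (k + 1) g ∧ w = s.t (k + 2) g) ∨
    (u = s.a 1 ∧ v = s.a 0 ∧ w = s.a 2) ∨ (u = s.a 0 ∧ v = s.a 2 ∧ w = s.a 1) ∨
    (u = s.a 2 ∧ v = s.a 1 ∧ w = s.a 0)

end Pool.SX
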