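import Pool.Agent.Lib.MP_9dcace_sx.CS7
import Pool.Agent.Lib.MP_9dcace_sx.ZDefs
set_option autoImplicit false

/-! Every oriented triangulated sphere has a Schnyder structure. -/

namespace Pool.SX

theorem exists_sch {V : Type} [Fintype V] (S : Sph V) (h4 : 4 ≤ Fintype.card V) :
    ∃ (F : Type) (_ : Fintype F) (s : Sch V F), SchOf S s := by
  have hne : Nonempty V := Fintype.card_pos_iff.mp (by omega)
  obtain ⟨u0⟩ := hne
  obtain ⟨v0, w0, h0⟩ := S.cov u0
  let a : Fin 3 → V := ![v0, u0, w0]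
  have hf : S.T (a 1) (a 0) (a 2) := h0
  obtain ⟨F, hF, s, hsa, hT, _, hall, _⟩ := S.exists_sch a hf
  refine ⟨F, hF, s, ⟨fun g => ?_, ?_, ?_⟩⟩
  · simpa using hT g 0
  · rw [hsa]; exact hf
  · intro u v w h
    by_cases ho : OutF a u v w
    · right
      rw [hsa]
      exact ho
    · left
      obtain ⟨g, k, h1, h2, h3⟩ := hall u v w h ho
      exact ⟨g, k, h1.symm, h2.symm, h3.symm⟩

end Pool.SX
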