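import Mathlib

/-!
Forests (section 4 of sx_proof.md).  `om u v` is a symmetric nonnegative weight of the edge `u v`.
A forest on `I` is a map `π : V → V` which is the identity off `I` and such that every vertex has an
iterate off `I`.
-/

set_option autoImplicit false

open Classical

namespace Pool.SX

variable {V : Type} [Fintype V]

/-- the forests on `I` -/
noncomputable def For (I : Finset V) : Finset (V → V) :=
  Finset.univ.filter (fun π => (∀ v, v ∉ I → π v = v) ∧ ∀ v, ∃ n : ℕ, π^[n] v ∉ I)

/-- the weight of a forest -/
noncomputable def WF (om : V → V → ℝ) (I : Finset V) (π : V → V) : ℝ := ∏ v ∈ I, om v (π v)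

/-- the root of `v` in the forest `π` -/
noncomputable def root (π : V → V) (v : V) : V := π^[Fintype.card V] v

/-- the total weight of the forests on `I` -/
noncomputable def DF (om : V → V → ℝ) (I : Finset V) : ℝ := ∑ π ∈ For I, WF om I π

/-- the total weight of the forests on `I` for which the three vertices `p 0, p 1, p 2` get three
different colours, the roots being coloured by `χ` -/
noncomputable def ZF (om : V → V → ℝ) (I : Finset V) (χ : V → Fin 3) (p : Fin 3 → V) : ℝ :=
  ∑ π ∈ (For I).filter (fun π => Function.Injective (fun j => χ (root π (p j)))), WF om I π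

/-- energy -/
noncomputable def En (om : V → V → ℝ) (x : V → ℝ) : ℝ :=
  (1 / 2) * ∑ u, ∑ v, om u v * (x u - x v) ^ 2

/-- the Laplacian row of `v` -/
noncomputable def lapRow (om : V → V → ℝ) (v : V) : V → ℝ :=
  fun w => ∑ u, om v u * ((if w = v then (1 : ℝ) else 0) - (if w = u then (1 : ℝ) else 0))

/-- `lap om x v = ∑ u, om v u * (x v - x u)` -/
noncomputable def lap (om : V → V → ℝ) (x : V → ℝ) (v : V) : ℝ := ∑ u, om v u * (x v - x u)

/-- the matrix with the Laplacian rows on `I` and the unit rows off `I` -/
noncomputable def KM (om : V → V → ℝ) (I : Finset V) : Matrix V V ℝ :=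
  Matrix.of (fun v w => if v ∈ I then lapRow om v w else (if w = v then (1 : ℝ) else 0))

end Pool.SX
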