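import Pool.Agent.Lib.MP_9dcace_sx.T6
import Pool.Agent.Lib.MP_9dcace_sx.FDefs

/-!
ROW T12 (from the harmonic coordinates to an equilibrium drawing, 80-120 lines).
H : V -> Fin 3 -> ℝ is harmonic at the inner vertices for `om s wt` and H (a j) = unit vector j.  p v := (H v 0, H v 1).
* `lap_omT`: for inner u: lap (om) f u = - (∑ c wt c u (f (out c u) - f u) + ∑ c ∑ v∈VI [out c v = u] wt c v (f v - f u)):
    exchange the sums (Finset.sum_comm, Finset.sum_ite_eq).
* f v := H v 0 + H v 1 + H v 2 - 1 is harmonic with zero boundary values: `min_principle` for f and - f gives H v 0 + H v 1 + H v 2 = 1 for all v.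
* equi: two coordinates.  p (a 0) = (1,0), p (a 1) = (0,1), p (a 2) = (0,0).
* area: with the third column replaced by the sum of the columns (= 1): det (H (t j g) k) = ar (p (t 0 g)) (p (t 1 g)) (p (t 2 g)) (`Matrix.det_fin_three`, substitute
  H v 2 = 1 - H v 0 - H v 1, ring).
-/

set_option autoImplicit false

open Classical

namespace Pool.SX

variable {V F : Type} [Fintype V] [Fintype F]

theorem Sch.lap_omT (s : Sch V F) (wt : Fin 3 → V → ℝ) (f : V → ℝ) (u : V) (hu : s.inn u) :
    lap (s.omT wt) f u = - (∑ c, wt c u * (f (s.out c u) - f u) +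
      (∑ c, ∑ v ∈ s.VI, if s.out c v = u then wt c v * (f v - f u) else 0)) := by
  have hVI : ∀ v, v ∈ s.VI ↔ s.inn v := fun v => by simp [Sch.VI]
  have h1 : ∀ w, s.omT wt u w * (f u - f w) =
      (∑ c, if s.out c u = w then wt c u * (f u - f (s.out c u)) else 0) +
      ∑ c, if w ∈ s.VI then (if s.out c w = u then wt c w * (f u - f w) else 0) else 0 := by
    intro w
    unfold Sch.omT
    rw [add_mul, Finset.sum_mul, Finset.sum_mul]
    congr 1
    · refine Finset.sum_congr rfl fun c _ => ?_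
      by_cases h : s.out c u = w
      · rw [if_pos ⟨hu, h⟩, if_pos h, h]
      · rw [if_neg (fun hh => h hh.2), if_neg h, zero_mul]
    · refine Finset.sum_congr rfl fun c _ => ?_
      by_cases h : s.inn w
      · rw [if_pos ((hVI w).mpr h)]
        by_cases h' : s.out c w = u
        · rw [if_pos ⟨h, h'⟩, if_pos h']
        · rw [if_neg (fun hh => h' hh.2), if_neg h', zero_mul]
      · rw [if_neg (fun hh => h hh.1), if_neg (fun hh => h ((hVI w).mp hh)), zero_mul]
  have e1 : ∑ w, ∑ c, (if s.out c u = w then wt c u * (f u - f (s.out c u)) else 0) =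
      ∑ c, wt c u * (f u - f (s.out c u)) := by
    rw [Finset.sum_comm]
    refine Finset.sum_congr rfl fun c _ => ?_
    rw [Finset.sum_ite_eq, if_pos (Finset.mem_univ _)]
  have e2 : ∑ w, ∑ c, (if w ∈ s.VI then
      (if s.out c w = u then wt c w * (f u - f w) else 0) else 0) =
      ∑ c, ∑ w ∈ s.VI, if s.out c w = u then wt c w * (f u - f w) else 0 := by
    rw [Finset.sum_comm]
    refine Finset.sum_congr rfl fun c _ => ?_
    rw [Finset.sum_ite_mem, Finset.univ_inter]
  unfold lap
  rw [Finset.sum_congr rfl fun w _ => h1 w, Finset.sum_add_distrib, e1, e2, neg_add,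
    ← Finset.sum_neg_distrib, ← Finset.sum_neg_distrib]
  congr 1
  · refine Finset.sum_congr rfl fun c _ => ?_
    ring
  · refine Finset.sum_congr rfl fun c _ => ?_
    rw [← Finset.sum_neg_distrib]
    refine Finset.sum_congr rfl fun w _ => ?_
    split_ifs
    · ring
    · ring

theorem Sch.drw_of (s : Sch V F) {wt : Fin 3 → V → ℝ} {lo hi A : ℝ} (hlo : 0 < lo) (hA : 0 < A)
    (wlo : ∀ c v, s.inn v → lo ≤ wt c v) (whi : ∀ c v, s.inn v → wt c v ≤ hi)
    (H : V → Fin 3 → ℝ) (h1 : ∀ k j, H (s.a k) j = if k = j then 1 else 0)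
    (h2 : ∀ v, s.inn v → ∀ k, lap (s.omT wt) (fun u => H u k) v = 0)
    (h3 : ∀ g : F, A ≤ (Matrix.of (fun j k => H (s.t j g) k) : Matrix (Fin 3) (Fin 3) ℝ).det) :
    s.Drw wt (fun v => (H v 0, H v 1)) lo hi A := by
  have hlap : ∀ (f : V → ℝ) (u : V), s.inn u → lap (s.omT wt) f u = 0 →
      ∑ c, wt c u * (f (s.out c u) - f u) +
      (∑ c, ∑ v ∈ s.VI, if s.out c v = u then wt c v * (f v - f u) else 0) = 0 := by
    intro f u hu h
    rw [s.lap_omT wt f u hu] at h
    linarith
  have hs0 : ∀ k, H (s.a k) 0 + H (s.a k) 1 + H (s.a k) 2 = 1 := by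
    intro k
    rw [h1, h1, h1]
    fin_cases k <;> simp
  have hw : ∀ c v, s.inn v → 0 < wt c v := fun c v hv => lt_of_lt_of_le hlo (wlo c v hv)
  have hl1 : ∀ u, s.inn u → lap (s.omT wt) (fun v => H v 0 + H v 1 + H v 2 - 1) u = 0 := by
    intro u hu
    have e : lap (s.omT wt) (fun v => H v 0 + H v 1 + H v 2 - 1) u =
        lap (s.omT wt) (fun v => H v 0) u + lap (s.omT wt) (fun v => H v 1) u +
          lap (s.omT wt) (fun v => H v 2) u := by
      unfold lap
      rw [← Finset.sum_add_distrib, ← Finset.sum_add_distrib]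
      refine Finset.sum_congr rfl fun w _ => ?_
      ring
    rw [e, h2 u hu 0, h2 u hu 1, h2 u hu 2]
    norm_num
  have hl2 : ∀ u, s.inn u → lap (s.omT wt) (fun v => 1 - (H v 0 + H v 1 + H v 2)) u = 0 := by
    intro u hu
    have e : lap (s.omT wt) (fun v => 1 - (H v 0 + H v 1 + H v 2)) u =
        -lap (s.omT wt) (fun v => H v 0 + H v 1 + H v 2 - 1) u := by
      unfold lap
      rw [← Finset.sum_neg_distrib]
      refine Finset.sum_congr rfl fun w _ => ?_
      ring
    rw [e, hl1 u hu, neg_zero]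
  have hsum : ∀ v, H v 2 = 1 - H v 0 - H v 1 := by
    intro v
    have i1 := s.min_principle wt hw (fun v => H v 0 + H v 1 + H v 2 - 1)
      (fun u hu => hlap _ u hu (hl1 u hu)) (fun k => by rw [hs0 k]; norm_num) v
    have i2 := s.min_principle wt hw (fun v => 1 - (H v 0 + H v 1 + H v 2))
      (fun u hu => hlap _ u hu (hl2 u hu)) (fun k => by rw [hs0 k]; norm_num) v
    linarith
  refine ⟨hlo, hA, wlo, whi, ?_, ?_, ?_, ?_, ?_⟩
  · simp [h1]
  · simp [h1]
  · simp [h1]
  · intro u hu
    refine Prod.ext ?_ ?_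
    · have h := hlap (fun v => H v 0) u hu (h2 u hu 0)
      simp only [Prod.fst_add, Prod.fst_sum, apply_ite Prod.fst, Prod.smul_fst, Prod.fst_sub,
        smul_eq_mul, Prod.fst_zero]
      exact h
    · have h := hlap (fun v => H v 1) u hu (h2 u hu 1)
      simp only [Prod.snd_add, Prod.snd_sum, apply_ite Prod.snd, Prod.smul_snd, Prod.snd_sub,
        smul_eq_mul, Prod.snd_zero]
      exact h
  · intro g
    have h := h3 g
    rw [Matrix.det_fin_three] at h
    simp only [Matrix.of_apply] at h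
    rw [hsum (s.t 0 g), hsum (s.t 1 g), hsum (s.t 2 g)] at h
    refine h.trans (le_of_eq ?_)
    unfold ar
    ring

end Pool.SX
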