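import Pool.Agent.Lib.MP_9dcace_sx.TDefs

/-!
ROW T3 (existence of the piecewise linear function, 80-120 lines).
Apply `Sch.exact` (file S7) three times, to
  β1 c v = - wt c v * ((p (out c v)).2 - (p v).2),
  β2 c v = wt c v * ((p (out c v)).1 - (p v).1),
  β3 c v = wt c v * ((p v).1 * (p (out c v)).2 - (p v).2 * (p (out c v)).1).
Their closedness at an inner vertex u is the equilibrium: take the two coordinates of `equi` (Prod.fst_sum, Prod.snd_sum), e.g.
  for β3: cross(p u, p out - p u) summed; with E1, E2 the two coordinates of `equi u`: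
  ∑ c β3 c u - ∑ incoming β3 = (p u).1 * E2 - (p u).2 * E1 = 0.
  (Move the scalars out of the sums: Finset.mul_sum, Finset.sum_sub_distrib, then Finset.sum_congr and ring.)
Then subtract the values at g0 (constants do not change the differences).
-/

set_option autoImplicit false

open Classical

namespace Pool.SX

variable {V F : Type} [Fintype V] [Fintype F]

/-- the equilibrium, evaluated with a linear functional -/
theorem Sch.T3_fun (s : Sch V F) {wt : Fin 3 → V → ℝ} {p : V → ℝ × ℝ}
    (equi : ∀ u, s.inn u → ∑ c, wt c u • (p (s.out c u) - p u) +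
      (∑ c, ∑ v ∈ s.VI, if s.out c v = u then wt c v • (p v - p u) else 0) = 0)
    (a b : ℝ) (u : V) (hu : s.inn u) :
    ∑ c, wt c u * (a * ((p (s.out c u)).1 - (p u).1) + b * ((p (s.out c u)).2 - (p u).2)) =
      ∑ c, ∑ v ∈ s.VI, if s.out c v = u then
        -(wt c v * (a * ((p v).1 - (p u).1) + b * ((p v).2 - (p u).2))) else 0 := by
  have h := congrArg (a • LinearMap.fst ℝ ℝ ℝ + b • LinearMap.snd ℝ ℝ ℝ) (equi u hu)
  rw [map_add, map_sum, map_sum, map_zero] at h
  have h1 : ∑ c, wt c u * (a * ((p (s.out c u)).1 - (p u).1) +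
      b * ((p (s.out c u)).2 - (p u).2)) =
      ∑ c, (a • LinearMap.fst ℝ ℝ ℝ + b • LinearMap.snd ℝ ℝ ℝ) (wt c u • (p (s.out c u) - p u)) := by
    refine Finset.sum_congr rfl fun c _ => ?_
    rw [map_smul]
    simp
  have h2 : (∑ c, ∑ v ∈ s.VI, if s.out c v = u then
        -(wt c v * (a * ((p v).1 - (p u).1) + b * ((p v).2 - (p u).2))) else 0) =
      -∑ c, (a • LinearMap.fst ℝ ℝ ℝ + b • LinearMap.snd ℝ ℝ ℝ)
        (∑ v ∈ s.VI, if s.out c v = u then wt c v • (p v - p u) else 0) := by
    rw [← Finset.sum_neg_distrib]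
    refine Finset.sum_congr rfl fun c _ => ?_
    rw [map_sum, ← Finset.sum_neg_distrib]
    refine Finset.sum_congr rfl fun v _ => ?_
    split_ifs
    · rw [map_smul]
      simp
    · simp
  rw [h1, h2]
  linarith

theorem Sch.crs_exists (s : Sch V F) {wt : Fin 3 → V → ℝ} {p : V → ℝ × ℝ}
    (equi : ∀ u, s.inn u → ∑ c, wt c u • (p (s.out c u) - p u) +
      (∑ c, ∑ v ∈ s.VI, if s.out c v = u then wt c v • (p v - p u) else 0) = 0) (g0 : F) :
    ∃ (q : F → ℝ × ℝ) (b : F → ℝ), s.Crs wt p q b ∧ q g0 = (0, 0) ∧ b g0 = 0 := by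
  obtain ⟨X1, hX1⟩ := s.exact
    (fun c v => - wt c v * ((p (s.out c v)).2 - (p v).2)) (by
      intro u hu
      have h := s.T3_fun equi 0 (-1) u hu
      refine Eq.trans ?_ (h.trans ?_)
      · refine Finset.sum_congr rfl fun c _ => ?_
        ring
      · refine Finset.sum_congr rfl fun c _ => Finset.sum_congr rfl fun v _ => ?_
        split_ifs with h1
        · simp only [h1]
          ring
        · rfl)
  obtain ⟨X2, hX2⟩ := s.exact
    (fun c v => wt c v * ((p (s.out c v)).1 - (p v).1)) (by
      intro u hu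
      have h := s.T3_fun equi 1 0 u hu
      refine Eq.trans ?_ (h.trans ?_)
      · refine Finset.sum_congr rfl fun c _ => ?_
        ring
      · refine Finset.sum_congr rfl fun c _ => Finset.sum_congr rfl fun v _ => ?_
        split_ifs with h1
        · simp only [h1]
          ring
        · rfl)
  obtain ⟨X3, hX3⟩ := s.exact
    (fun c v => wt c v * ((p v).1 * (p (s.out c v)).2 - (p v).2 * (p (s.out c v)).1)) (by
      intro u hu
      have h := s.T3_fun equi (-(p u).2) (p u).1 u hu
      refine Eq.trans ?_ (h.trans ?_)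
      · refine Finset.sum_congr rfl fun c _ => ?_
        ring
      · refine Finset.sum_congr rfl fun c _ => Finset.sum_congr rfl fun v _ => ?_
        split_ifs with h1
        · simp only [h1]
          ring
        · rfl)
  refine ⟨fun g => (X1 g - X1 g0, X2 g - X2 g0), fun g => X3 g - X3 g0, ?_, ?_, ?_⟩
  · intro c v hv x
    have e1 := hX1 c v hv
    have e2 := hX2 c v hv
    have e3 := hX3 c v hv
    simp only [lin, ar]
    linear_combination x.1 * e1 + x.2 * e2 + e3
  · simp
  · simp

end Pool.SX
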