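import Pool.Agent.Lib.MP_9dcace_sx.T4

/-!
ROW T5 (crossing an edge of a face, 80-120 lines).
`crossing`: let g be a face, k a side, x a point strictly on the right of the side (t k g, t (k+1) g), the side not outer.
 [I]  g = gL (k+1) v, v = t k g inner: g' := gR (k+1) v; out (k+1) v = t (k+1) g (tL0); Crs: L g x - L g' x = wt (k+1) v * ar (v) (out) x < 0.
 [II] g = gR k v, v = t (k+1) g inner: g' := gL k v; out k v = t k g; L g' x - L g x = wt k v * ar (p v) (p (out)) x = - wt k v * ar (t k g) (t (k+1) g) x > 0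
   (`ar_swap`).
 In both cases g' contains t k g and t (k+1) g.
`height`: the value lin (q g) (b g) (p v) is the same for all faces g at v: T4 with Y g = lin (q g) (b g) (p v); the crease at an edge at v vanishes
  at p v (ar (p v) (p w) (p v) = 0 = ar (p w) (p v) (p v)).
-/

set_option autoImplicit false

open Classical

namespace Pool.SX

variable {V F : Type} [Fintype V] [Fintype F]

theorem ar_swap (p q r : ℝ × ℝ) : ar q p r = - ar p q r := by
  unfold ar
  ring

theorem ar_rot (p q r : ℝ × ℝ) : ar q r p = ar p q r := by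
  unfold ar
  ring

/-- the three areas seen from a point sum up to the area -/
theorem ar_sum (p q r x : ℝ × ℝ) : ar p q x + ar q r x + ar r p x = ar p q r := by
  unfold ar
  ring

/-- the areas of a face in any rotation -/
theorem Sch.area_rot (s : Sch V F) (p : V → ℝ × ℝ) (g : F) (k : Fin 3) :
    ar (p (s.t k g)) (p (s.t (k + 1) g)) (p (s.t (k + 2) g)) =
      ar (p (s.t 0 g)) (p (s.t 1 g)) (p (s.t 2 g)) := by
  fin_cases k
  · rfl
  · exact ar_rot (p (s.t 0 g)) (p (s.t 1 g)) (p (s.t 2 g))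
  · exact (ar_rot (p (s.t 2 g)) (p (s.t 0 g)) (p (s.t 1 g))).symm

theorem Sch.crossing (s : Sch V F) {wt : Fin 3 → V → ℝ} {p : V → ℝ × ℝ} {q : F → ℝ × ℝ}
    {b : F → ℝ} (hc : s.Crs wt p q b) (g : F) (k : Fin 3) (hk : g ≠ s.o k) :
    ∃ (g' : F) (c : Fin 3) (v : V), s.inn v ∧ s.Inc (s.t k g) g' ∧ s.Inc (s.t (k + 1) g) g' ∧
      ∀ x : ℝ × ℝ, lin (q g') (b g') x - lin (q g) (b g) x =
        - (wt c v * ar (p (s.t k g)) (p (s.t (k + 1) g)) x) := by
  rcases s.edge g k with h | ⟨h1, h2⟩ | ⟨h1, h2⟩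
  · exact absurd h hk
  · have e0 : s.t (k + 1) g = s.out (k + 1) (s.t k g) := by
      have h3 := s.tL0 (k + 1) (s.t k g) h1
      rwa [← h2] at h3
    refine ⟨s.gR (k + 1) (s.t k g), k + 1, s.t k g, h1, ⟨_, s.tR1 (k + 1) _ h1⟩,
      ⟨k + 1, ?_⟩, fun x => ?_⟩
    · rw [s.tR0 (k + 1) _ h1, e0]
    · have h4 := hc (k + 1) (s.t k g) h1 x
      rw [← h2, ← e0] at h4
      linarith
  · have e0 : s.t k g = s.out k (s.t (k + 1) g) := by
      have h3 := s.tR0 k (s.t (k + 1) g) h1
      rwa [← h2] at h3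
    refine ⟨s.gL k (s.t (k + 1) g), k, s.t (k + 1) g, h1, ⟨k, ?_⟩,
      ⟨_, s.tL2 k _ h1⟩, fun x => ?_⟩
    · rw [s.tL0 k _ h1, e0]
    · have h4 := hc k (s.t (k + 1) g) h1 x
      rw [← h2, ← e0, ar_swap] at h4
      linarith

theorem Sch.height (s : Sch V F) {wt : Fin 3 → V → ℝ} {p : V → ℝ × ℝ} {q : F → ℝ × ℝ}
    {b : F → ℝ} (hc : s.Crs wt p q b) (v : V) (g g' : F) (hg : s.Inc v g) (hg' : s.Inc v g') :
    lin (q g) (b g) (p v) = lin (q g') (b g') (p v) := by
  refine s.star_constT v (fun g => lin (q g) (b g) (p v)) (fun c hv => ?_) (fun c u hu ho => ?_)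
    g g' hg hg'
  · have h := hc c v hv (p v)
    have h0 : ar (p v) (p (s.out c v)) (p v) = 0 := by
      unfold ar
      ring
    rw [h0, mul_zero, sub_eq_zero] at h
    exact h
  · have h := hc c u hu (p v)
    have h0 : ar (p u) (p (s.out c u)) (p v) = 0 := by
      rw [ho]
      unfold ar
      ring
    rw [h0, mul_zero, sub_eq_zero] at h
    exact h

end Pool.SX
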