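import Pool.Agent.Lib.MP_9dcace_sx.G0

/-!
MP_9dcace_co, row G1: a finite set in convex position that spans space and whose proper faces have at most three
points gives `SPoly`.
-/

set_option autoImplicit false

namespace Pool.SX

theorem exists_dp_of_clm (f : E3 →L[ℝ] ℝ) : ∃ a : E3, ∀ x : E3, dp a x = - f x := by
  refine ⟨fun i => - f (fun j => if i = j then 1 else 0), fun x => ?_⟩
  have h := LinearMap.pi_apply_eq_sum_univ (f : E3 →ₗ[ℝ] ℝ) x
  have h' : f x = ∑ i, x i • f (fun j => if i = j then 1 else 0) := h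
  rw [h', dp, ← Finset.sum_neg_distrib]
  refine Finset.sum_congr rfl fun i _ => ?_
  rw [smul_eq_mul]
  ring

theorem dp_const_of_span (V : Finset E3) (hspan : affineSpan ℝ (V : Set E3) = ⊤) (a : E3) (c : ℝ)
    (h : ∀ z ∈ V, dp a z = c) (x : E3) : dp a x = c := by
  have hx : x ∈ affineSpan ℝ (V : Set E3) := by rw [hspan]; trivial
  refine affineSpan_induction (p := fun x => dp a x = c) hx (fun y hy => h y hy) ?_
  intro t u v w hu hv hw
  have e : t • (u -ᵥ v) +ᵥ w = t • (u - v) + w := rfl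
  rw [e, dp_add, dp_smul, dp_sub, hu, hv, hw]
  ring

theorem SPoly_of_finset (V : Finset E3)
    (hconv : ∀ v ∈ V, v ∉ convexHull ℝ ((V : Set E3) \ {v}))
    (hspan : affineSpan ℝ (V : Set E3) = ⊤)
    (hsimp : ∀ (a : E3) (c : ℝ), a ≠ 0 → (∀ x ∈ V, ∑ i, a i * x i ≤ c) →
      (V.filter fun x => ∑ i, a i * x i = c).card ≤ 3) :
    SPoly (fun x : {x // x ∈ V} => (x : E3)) where
  ext := by
    intro v
    have hfin : ((V : Set E3) \ {(v : E3)}).Finite := V.finite_toSet.subset Set.sdiff_subset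
    have hcl : IsClosed (convexHull ℝ ((V : Set E3) \ {(v : E3)})) :=
      (Set.Finite.isCompact_convexHull ℝ hfin).isClosed
    obtain ⟨f, u, hf1, hf2⟩ := geometric_hahn_banach_point_closed (convex_convexHull ℝ _) hcl
      (hconv v v.2)
    obtain ⟨a, ha⟩ := exists_dp_of_clm f
    refine ⟨a, fun z hz => ?_⟩
    have hz' : (z : E3) ∈ convexHull ℝ ((V : Set E3) \ {(v : E3)}) := by
      apply subset_convexHull
      refine ⟨z.2, fun h => hz (Subtype.ext h)⟩
    have := hf2 _ hz'
    rw [ha, ha]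
    linarith
  span := by
    intro a c h
    have h' : ∀ x, dp a x = c := dp_const_of_span V hspan a c (fun z hz => h ⟨z, hz⟩)
    by_contra hne
    have h1 := dp_self_pos hne
    have h0 : dp a 0 = 0 := by simp [dp]
    have e1 := h' 0
    have e2 := h' a
    linarith
  simp := by
    intro a c hne h
    have h1 := hsimp a c hne (fun x hx => h ⟨x, hx⟩)
    refine le_trans ?_ h1
    refine Finset.card_le_card_of_injOn (fun z : {x // x ∈ V} => (z : E3)) ?_
      (Subtype.val_injective.injOn)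
    intro z hz
    have hz2 : dp a (z : E3) = c := by
      have := (Finset.mem_filter.mp (Finset.mem_coe.mp hz)).2
      exact this
    rw [Finset.mem_coe, Finset.mem_filter]
    exact ⟨z.2, hz2⟩

/-- The empty configuration is excluded by `span`. -/
theorem SPoly.nonempty {V : Type} [Fintype V] {P : V → E3} (h : SPoly P) : Nonempty V := by
  by_contra hne
  have hne' : IsEmpty V := not_nonempty_iff.mp hne
  have h1 := h.span (fun _ => 1) 0 (fun z => (hne'.false z).elim)
  have h2 := congrFun h1 0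
  simp at h2

theorem exists_orthG1 (d1 d2 : E3) : ∃ a : E3, a ≠ 0 ∧ dp a d1 = 0 ∧ dp a d2 = 0 := by
  let L : E3 →ₗ[ℝ] (ℝ × ℝ) :=
    { toFun := fun a => (dp a d1, dp a d2)
      map_add' := fun a b => by simp only [dp_add_left, Prod.mk_add_mk]
      map_smul' := fun t a => by
        simp only [dp_smul_left, RingHom.id_apply, Prod.smul_mk, smul_eq_mul] }
  have hlt : Module.finrank ℝ (ℝ × ℝ) < Module.finrank ℝ E3 := by
    simp [E3]
  have hk := LinearMap.ker_ne_bot_of_finrank_lt (f := L) hlt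
  obtain ⟨a, ha, hne⟩ := (Submodule.ne_bot_iff _).mp hk
  have h0 : L a = 0 := ha
  have h1 : (dp a d1, dp a d2) = ((0 : ℝ), (0 : ℝ)) := h0
  exact ⟨a, hne, (Prod.mk.inj h1).1, (Prod.mk.inj h1).2⟩

/-- A configuration with `SPoly` has at least four points. -/
theorem SPoly.four_le {V : Type} [Fintype V] {P : V → E3} (h : SPoly P) (hne : Nonempty V) :
    4 ≤ Fintype.card V := by
  by_contra hlt
  have hcard : Fintype.card V ≤ 3 := by omega
  obtain ⟨v0⟩ := hne
  have hsurj : ∃ f : Fin 3 → V, ∀ z, ∃ i, f i = z := by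
    refine ⟨fun i => if hi : (i : ℕ) < Fintype.card V then (Fintype.equivFin V).symm ⟨i, hi⟩ else v0,
      fun z => ?_⟩
    have hz := (Fintype.equivFin V z).2
    refine ⟨⟨(Fintype.equivFin V z : ℕ), lt_of_lt_of_le hz hcard⟩, ?_⟩
    have : (((⟨(Fintype.equivFin V z : ℕ), lt_of_lt_of_le hz hcard⟩ : Fin 3) : ℕ)) <
        Fintype.card V := hz
    show (if hi : (((⟨(Fintype.equivFin V z : ℕ), lt_of_lt_of_le hz hcard⟩ : Fin 3) : ℕ)) <
        Fintype.card V then (Fintype.equivFin V).symm ⟨_, hi⟩ else v0) = z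
    rw [dif_pos this]
    exact (Fintype.equivFin V).symm_apply_apply z
  obtain ⟨f, hf⟩ := hsurj
  obtain ⟨a, hane, h1, h2⟩ := exists_orthG1 (P (f 1) - P (f 0)) (P (f 2) - P (f 0))
  apply hane
  refine h.span a (dp a (P (f 0))) fun z => ?_
  obtain ⟨i, rfl⟩ := hf z
  rw [dp_sub] at h1 h2
  fin_cases i
  · rfl
  · show dp a (P (f 1)) = _
    linarith
  · show dp a (P (f 2)) = _
    linarith

end Pool.SX
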