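import Pool.Agent.Lib.MP_9dcace_sx.G10
import Pool.Agent.Lib.MP_9dcace_sx.G1

/-!
MP_9dcace_co, section G: the oriented triangulated sphere of a simplicial 3-polytope.
-/

set_option autoImplicit false

namespace Pool.SX

variable {V : Type} [Fintype V] {P : V → E3}

/-- the sphere of a simplicial 3-polytope -/
def SPoly.sph (h : SPoly P) : Sph V where
  T := Tri P
  rot := fun ht => ht.rot
  ne := fun ht => ht.1
  uniq := fun h1 h2 => Tri.uniq (h.four_le h.nonempty) h1 h2
  opp := fun ht => h.opp (h.four_le h.nonempty) ht
  link := fun h1 h2 => h.link (h.four_le h.nonempty) h1 h2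
  conn := fun u v => h.conn (h.four_le h.nonempty) u v
  cov := fun u => h.exists_tri (h.four_le h.nonempty) u
  count := h.count (h.four_le h.nonempty)

theorem SPoly.sph_T (h : SPoly P) (u v w : V) : h.sph.T u v w ↔ Tri P u v w := Iff.rfl

end Pool.SX
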