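import Pool.Agent.Lib.MP_9dcace_sx.Base

/-!
ROW S1 (basic facts on Schnyder structures, 120-160 lines).  All indices are in Fin 3; identities like
c + 2 + 1 = c by `fin_cases c <;> rfl` or `omega`-free `by revert c; decide`.
* `out_pot`: faces gL c v (labels: v is t (c+2), out c v is t c) and gR c v (v is t (c+1), out c v is t c), axiom `pot`.
* `out_outer`: out c v = t c (gL c v) = a j, axiom `lab`.
* `a_pot`: faces o k (t k = a k, t (k+1) = a (k+1)) and o (k+2) (t (k+2) = a (k+2), t k = a k).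
* `step_pot`, `Le_pot`, `Le_antisymm`: potentials.
* `Le_face`: the edge between t j g and t k g by the edge rule is an outer edge (third kind of step), or of colour k
  towards t k (first kind) or of another colour from t k to t j (second kind).  Do j = k+1 and j = k+2 separately
  (edge rule with index k, resp. k+2).
* `Pth_end`: r c increases along the path, V finite; the path can only stop at an outer vertex, which is a c by `out_outer`.
* `Pth_total`: the relation is a partial function (deterministic).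
* `not_both`: v := out c u and u = out (c+2) v contradict `out_pot` for the potential r (c+1).
* `gL_inj_idx`, `face_ext` : see sx_proof.md / edge rule for index 0 and `not_both`.
-/

set_option autoImplicit false

namespace Pool.SX.Sch

variable {V F : Type} [Fintype V] [Fintype F] (s : Sch V F)

private theorem fin_cs : ∀ {j k : Fin 3}, j ≠ k → j = k + 1 ∨ j = k + 2 := by decide
private theorem fin21 (c : Fin 3) : c + 2 + 1 = c := by revert c; decide
private theorem fin12 (c : Fin 3) : c + 1 + 2 = c := by revert c; decide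
private theorem fin_ne1 (c : Fin 3) : c + 1 ≠ c := by revert c; decide
private theorem fin_ne2 (c : Fin 3) : c + 2 ≠ c := by revert c; decide
private theorem fin_ne12 (c : Fin 3) : c + 1 ≠ c + 2 := by revert c; decide

theorem t_ne (g : F) {j k : Fin 3} (h : j ≠ k) : s.t j g ≠ s.t k g := by
  intro he
  have := s.pot g k j h
  rw [he] at this
  exact lt_irrefl _ this

theorem out_pot {v : V} (hv : s.inn v) (c : Fin 3) :
    s.r c v < s.r c (s.out c v) ∧ ∀ j, j ≠ c → s.r j (s.out c v) < s.r j v := by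
  have h1 := s.tL2 c v hv
  have h2 := s.tL0 c v hv
  have h3 := s.tR1 c v hv
  have h4 := s.tR0 c v hv
  refine ⟨?_, fun j hj => ?_⟩
  · have h := s.pot (s.gL c v) c (c + 2) (fin_ne2 c)
    rwa [h1, h2] at h
  · rcases fin_cs hj with rfl | rfl
    · have h := s.pot (s.gR c v) (c + 1) c (fin_ne1 c).symm
      rwa [h3, h4] at h
    · have h := s.pot (s.gL c v) (c + 2) c (fin_ne2 c).symm
      rwa [h1, h2] at h

theorem out_outer {v : V} (hv : s.inn v) (c j : Fin 3) (h : s.out c v = s.a j) : j = c := by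
  rw [← s.tL0 c v hv] at h
  exact (s.lab _ _ _ h).symm

theorem a_pot {j k : Fin 3} (h : j ≠ k) : s.r k (s.a j) < s.r k (s.a k) := by
  rcases fin_cs h with rfl | rfl
  · have h1 := s.pot (s.o k) k (k + 1) (fin_ne1 k)
    rwa [s.o0, s.o1] at h1
  · have h1 := s.pot (s.o (k + 2)) k (k + 2) (fin_ne2 k)
    have h2 := s.o1 (k + 2)
    rw [fin21] at h2
    rwa [s.o0, h2] at h1

theorem step_pot {k : Fin 3} {u v : V} (h : s.step k u v) : s.r k u < s.r k v := by
  rcases h with ⟨hu, rfl⟩ | ⟨j, hj, hv, rfl⟩ | ⟨j, hj, rfl, rfl⟩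
  · exact (s.out_pot hu k).1
  · exact (s.out_pot hv j).2 k hj.symm
  · exact s.a_pot hj

theorem Le_refl (k : Fin 3) (u : V) : s.Le k u u := Relation.ReflTransGen.refl

theorem Le_trans {k : Fin 3} {u v w : V} (h : s.Le k u v) (h' : s.Le k v w) : s.Le k u w :=
  Relation.ReflTransGen.trans h h'

theorem Le_pot {k : Fin 3} {u v : V} (h : s.Le k u v) : u = v ∨ s.r k u < s.r k v := by
  induction h with
  | refl => exact Or.inl rfl
  | tail _ h2 ih =>
    right
    rcases ih with rfl | ih
    · exact s.step_pot h2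
    · exact ih.trans (s.step_pot h2)

theorem Le_antisymm {k : Fin 3} {u v : V} (h : s.Le k u v) (h' : s.Le k v u) : u = v := by
  rcases s.Le_pot h with h1 | h1
  · exact h1
  · rcases s.Le_pot h' with h2 | h2
    · exact h2.symm
    · exact absurd (h1.trans h2) (lt_irrefl _)

/-- consequences of the first case of the edge rule -/
private theorem edgeI {g : F} {k : Fin 3} (h1 : ∀ j, s.t k g ≠ s.a j)
    (h2 : g = s.gL (k + 1) (s.t k g)) : s.t (k + 1) g = s.out (k + 1) (s.t k g) := by
  have h3 := s.tL0 (k + 1) (s.t k g) h1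
  rwa [← h2] at h3

/-- consequences of the second case of the edge rule -/
private theorem edgeII {g : F} {k : Fin 3} (h1 : ∀ j, s.t (k + 1) g ≠ s.a j)
    (h2 : g = s.gR k (s.t (k + 1) g)) : s.t k g = s.out k (s.t (k + 1) g) := by
  have h3 := s.tR0 k (s.t (k + 1) g) h1
  rwa [← h2] at h3

theorem Le_face (g : F) (j k : Fin 3) : s.Le k (s.t j g) (s.t k g) := by
  by_cases hjk : j = k
  · rw [hjk]
    exact s.Le_refl k _
  · refine Relation.ReflTransGen.single ?_
    rcases fin_cs hjk with rfl | rfl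
    · rcases s.edge g k with h | ⟨h1, h2⟩ | ⟨h1, h2⟩
      · refine Or.inr (Or.inr ⟨k + 1, fin_ne1 k, ?_, ?_⟩)
        · rw [h, s.o1]
        · rw [h, s.o0]
      · exact Or.inr (Or.inl ⟨k + 1, fin_ne1 k, h1, s.edgeI h1 h2⟩)
      · exact Or.inl ⟨h1, s.edgeII h1 h2⟩
    · rcases s.edge g (k + 2) with h | ⟨h1, h2⟩ | ⟨h1, h2⟩
      · refine Or.inr (Or.inr ⟨k + 2, fin_ne2 k, ?_, ?_⟩)
        · rw [h, s.o0]
        · have h3 := s.o1 (k + 2)
          rw [fin21] at h3
          rw [h, h3]
      · have h3 := s.edgeI h1 h2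
        rw [fin21] at h3
        exact Or.inl ⟨h1, h3⟩
      · have h3 := s.edgeII h1 h2
        rw [fin21] at h1 h3
        exact Or.inr (Or.inl ⟨k + 2, fin_ne2 k, h1, h3⟩)

theorem Pth_Le {c : Fin 3} {z u : V} (h : s.Pth c z u) :
    s.Le c z u ∧ ∀ j, j ≠ c → s.Le j u z := by
  induction h with
  | refl => exact ⟨s.Le_refl c _, fun j _ => s.Le_refl j _⟩
  | tail _ h2 ih =>
    obtain ⟨h3, rfl⟩ := h2
    refine ⟨ih.1.tail (Or.inl ⟨h3, rfl⟩), fun j hj => ?_⟩
    exact (ih.2 j hj).head (Or.inr (Or.inl ⟨c, hj.symm, h3, rfl⟩))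

theorem Pth_end {z : V} (hz : s.inn z) (c : Fin 3) : s.Pth c z (s.a c) := by
  have htr : IsTrans V (fun x y : V => s.r c y < s.r c x) := ⟨fun _ _ _ h1 h2 => h2.trans h1⟩
  have hir : Std.Irrefl (fun x y : V => s.r c y < s.r c x) := ⟨fun _ h => lt_irrefl _ h⟩
  have wf : WellFounded (fun x y : V => s.r c y < s.r c x) :=
    Finite.wellFounded_of_trans_of_irrefl _
  induction z using wf.induction with
  | _ z ih =>
    by_cases ho : s.inn (s.out c z)
    · exact (ih (s.out c z) (s.out_pot hz c).1 ho).head ⟨hz, rfl⟩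
    · unfold inn at ho
      push Not at ho
      obtain ⟨j, hj⟩ := ho
      have hjc := s.out_outer hz c j hj
      subst hjc
      exact Relation.ReflTransGen.single ⟨hz, hj.symm⟩

theorem Pth_total {c : Fin 3} {z u v : V} (h : s.Pth c z u) (h' : s.Pth c z v) :
    s.Pth c u v ∨ s.Pth c v u := by
  refine Relation.ReflTransGen.total_of_right_unique ?_ h h'
  rintro x y w ⟨-, rfl⟩ ⟨-, rfl⟩
  rfl

theorem Pth_outer {c j : Fin 3} {u : V} (h : s.Pth c (s.a j) u) : u = s.a j := by
  rcases Relation.ReflTransGen.cases_head h with h1 | ⟨w, ⟨h1, -⟩, -⟩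
  · exact h1.symm
  · exact absurd rfl (h1 j)

theorem Pth_step {c : Fin 3} {z : V} (hz : s.inn z) (u : V) :
    s.Pth c z u ↔ u = z ∨ s.Pth c (s.out c z) u := by
  constructor
  · intro h
    rcases Relation.ReflTransGen.cases_head h with h1 | ⟨w, ⟨-, rfl⟩, h2⟩
    · exact Or.inl h1.symm
    · exact Or.inr h2
  · rintro (rfl | h)
    · exact Relation.ReflTransGen.refl
    · exact h.head ⟨hz, rfl⟩

theorem not_both {u v : V} (hu : s.inn u) (hv : s.inn v) (c : Fin 3)
    (h : v = s.out c u) (h' : u = s.out (c + 2) v) : False := by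
  have h1 := (s.out_pot hu c).2 (c + 1) (fin_ne1 c)
  have h2 := (s.out_pot hv (c + 2)).2 (c + 1) (fin_ne12 c)
  rw [← h] at h1
  rw [← h'] at h2
  exact lt_irrefl _ (h1.trans h2)

/-- the three cases of the edge rule exclude each other -/
theorem edge_excl (g : F) (k : Fin 3) (h1 : ∀ j, s.t k g ≠ s.a j) (h2 : g = s.gL (k + 1) (s.t k g))
    (h3 : ∀ j, s.t (k + 1) g ≠ s.a j) (h4 : g = s.gR k (s.t (k + 1) g)) : False := by
  refine s.not_both h1 h3 (k + 1) (s.edgeI h1 h2) ?_
  rw [fin12]
  exact s.edgeII h3 h4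

private theorem face_ext_aux (g g' : F) (h : ∀ k, s.t k g = s.t k g')
    (h1 : ∀ j, s.t 0 g ≠ s.a j) (h2 : g = s.gL (0 + 1) (s.t 0 g))
    (h3 : ∀ j, s.t (0 + 1) g' ≠ s.a j) (h4 : g' = s.gR 0 (s.t (0 + 1) g')) : False := by
  have e1 := s.edgeI h1 h2
  have e2 := s.edgeII h3 h4
  rw [← h, ← h] at e2
  have h3' : s.inn (s.t (0 + 1) g) := fun j => by rw [h]; exact h3 j
  refine s.not_both h1 h3' (0 + 1) e1 ?_
  rw [fin12]
  exact e2

theorem face_ext (g g' : F) (h : ∀ k, s.t k g = s.t k g') : g = g' := by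
  rcases s.edge g 0 with h1 | ⟨h1, h2⟩ | ⟨h1, h2⟩
  · rcases s.edge g' 0 with h3 | ⟨h3, h4⟩ | ⟨h3, h4⟩
    · rw [h1, h3]
    · exfalso
      apply h3 0
      rw [← h, h1, s.o0]
    · exfalso
      apply h3 (0 + 1)
      rw [← h, h1, s.o1]
  · rcases s.edge g' 0 with h3 | ⟨h3, h4⟩ | ⟨h3, h4⟩
    · exfalso
      apply h1 0
      rw [h, h3, s.o0]
    · rw [h2, h4, h]
    · exact absurd (s.face_ext_aux g g' h h1 h2 h3 h4) id
  · rcases s.edge g' 0 with h3 | ⟨h3, h4⟩ | ⟨h3, h4⟩
    · exfalso
      apply h1 (0 + 1)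
      rw [h, h3, s.o1]
    · exact absurd (s.face_ext_aux g' g (fun k => (h k).symm) h3 h4 h1 h2) id
    · rw [h2, h4, h]

/-- every vertex is below `a k` in the order `≤_k` -/
theorem Le_a (k : Fin 3) (v : V) : s.Le k v (s.a k) := by
  by_cases hv : s.inn v
  · exact (s.Pth_Le (s.Pth_end hv k)).1
  · unfold inn at hv
    push Not at hv
    obtain ⟨j, rfl⟩ := hv
    by_cases hjk : j = k
    · rw [hjk]
      exact s.Le_refl k _
    · exact Relation.ReflTransGen.single (Or.inr (Or.inr ⟨j, hjk, rfl, rfl⟩))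

end Pool.SX.Sch
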