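import Pool.Agent.Lib.MP_9dcace_sx.G11
import Pool.Agent.Lib.MP_9dcace_sx.ZDefs

/-!
The oriented sphere of a simplicial polytope, with positive four point determinants (mirror image of section G).
-/

set_option autoImplicit false

open Classical

namespace Pool.SX

/-- exchange the coordinates 0 and 1 -/
def swp (x : E3) : E3 := ![x 1, x 0, x 2]

theorem swp_swp (x : E3) : swp (swp x) = x := by
  funext i
  fin_cases i <;> simp [swp]

theorem dp_swp (a x : E3) : dp a (swp x) = dp (swp a) x := by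
  simp only [dp_def, swp, Matrix.cons_val_zero, Matrix.cons_val_one, Matrix.cons_val]
  ring

theorem swp_ne {a : E3} (h : a ≠ 0) : swp a ≠ 0 := by
  intro h0
  apply h
  rw [← swp_swp a, h0]
  funext i
  fin_cases i <;> simp [swp]

theorem SPoly.swap {V : Type} [Fintype V] {P : V → E3} (h : SPoly P) :
    SPoly (fun v => swp (P v)) where
  ext := by
    intro v
    obtain ⟨a, ha⟩ := h.ext v
    refine ⟨swp a, fun z hz => ?_⟩
    rw [dp_swp, dp_swp, swp_swp]
    exact ha z hz
  span := by
    intro a c hc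
    by_contra hne
    exact swp_ne hne (h.span (swp a) c fun z => by rw [← dp_swp]; exact hc z)
  simp := by
    intro a c hne hc
    have h1 := h.simp (swp a) c (swp_ne hne) (fun z => by rw [← dp_swp]; exact hc z)
    simp only [dp_swp]
    exact h1

theorem D4_swp {V : Type} (P : V → E3) (u v w z : V) :
    D4 (fun v => swp (P v)) u v w z = - dt4 (P u) (P v) (P w) (P z) := by
  simp only [D4, dt, dt4, swp, Pi.sub_apply, Matrix.cons_val_zero, Matrix.cons_val_one,
    Matrix.cons_val]
  ring

theorem exists_sph (V : Finset (Fin 3 → ℝ))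
    (hconv : ∀ v ∈ V, v ∉ convexHull ℝ ((V : Set (Fin 3 → ℝ)) \ {v}))
    (hspan : affineSpan ℝ (V : Set (Fin 3 → ℝ)) = ⊤)
    (hsimp : ∀ (a : Fin 3 → ℝ) (c : ℝ), a ≠ 0 → (∀ x ∈ V, ∑ i, a i * x i ≤ c) →
      (V.filter (fun x => ∑ i, a i * x i = c)).card ≤ 3) :
    4 ≤ Fintype.card V ∧ ∃ S : Sph V, S.Pos (fun v : V => (v : Fin 3 → ℝ)) := by
  have h0 : SPoly (fun x : {x // x ∈ V} => (x : E3)) := SPoly_of_finset V hconv hspan
    (fun a c ha hc => by
      have := hsimp a c ha hc
      convert this)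
  have h := h0.swap
  refine ⟨h.four_le h.nonempty, h.sph, ?_⟩
  intro u v w z ht h1 h2 h3
  have h4 := ht.2.2.2 z h1 h2 h3
  rw [D4_swp] at h4
  linarith

end Pool.SX
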