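import Pool.Agent.Lib.MP_9dcace_sx.S5

/-!
ROW S6 (assembly of `SchS`, 100-150 lines).
S k z := if s.inn z then {g | SS k z g = 1} else if z = a k then univ else ∅.
* part: inner z: exactly one of three numbers in {0,1} with sum 1; outer z = a j: only k = j.
* self: t k g inner: property of SS; t k g = a j: j = k by `lab`.
* mono: it is enough to do one step.  (i) u inner, v = out k u: if v = a k: univ.  (v = a j gives j = k by `out_outer`.)
  v inner: g ∈ S k u; if g ∉ S k v then g ∈ S j v for some j ≠ k, j = k+1 or k+2; SS j v ≤ SS j u (mono of SS with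
  out k = out (j+2) or out (j+1)), so g ∈ S j u, contradiction with part.
  (ii) v inner, u = out j v, j ≠ k: j = k+1 or k+2: mono of SS; u outer: u = a j, S k (a j) = ∅.  (iii) S k (a j) = ∅.
* vert: z inner: Le k (t k g) z by the support property and Le k v (t k g) by `Le_face`; z = a k: `Le_a`; z = a j: S = ∅.
* crossL, crossR: y outer: S i y is univ or ∅, impossible.  y inner: SS i y (gL c v) = 1, SS i y (gR c v) = 0, so
  PiI (i+1) y c v - PiI (i+2) y c v = 1, hence c = i + 1 and Pth (i+1) y v.  crossR: = -1.
* pathcross: y must be inner (`Pth_outer`).  k = c+2: PiI (c+3) - PiI (c+4) = 1 so SS (c+2) y (gL) - SS (c+2) y (gR) = 1.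
  k = c+1: PiI (c+2) - PiI (c+3) = -1.
-/

set_option autoImplicit false

open Classical

namespace Pool.SX.Sch

variable {V F : Type} [Fintype V] [Fintype F]

private theorem S6_three : ∀ j k : Fin 3, j ≠ k → j = k + 1 ∨ j = k + 2 := by
  decide

private theorem S6_e1 : ∀ c : Fin 3, c + 2 + 1 = c := by decide
private theorem S6_e2 : ∀ c : Fin 3, c + 2 + 2 = c + 1 := by decide
private theorem S6_e3 : ∀ c : Fin 3, c + 1 + 1 = c + 2 := by decide
private theorem S6_e4 : ∀ c : Fin 3, c + 1 + 2 = c := by decide
private theorem S6_n1 : ∀ c : Fin 3, c ≠ c + 1 := by decide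
private theorem S6_n2 : ∀ c : Fin 3, c ≠ c + 2 := by decide

theorem exists_SchS (s : Sch V F) : ∃ s' : SchS V F, s'.toSch = s := by
  obtain ⟨SS, h01, hsum, hbd, hm1, hm2, hsup, hself⟩ := s.exists_SS
  set S : Fin 3 → V → Finset F := fun k z =>
    if s.inn z then Finset.univ.filter (fun g => SS k z g = 1)
    else if z = s.a k then Finset.univ else ∅ with hS
  have hin : ∀ k z g, s.inn z → (g ∈ S k z ↔ SS k z g = 1) := by
    intro k z g hz
    simp only [hS, if_pos hz, Finset.mem_filter, Finset.mem_univ, true_and]
  have hna : ∀ j, ¬ s.inn (s.a j) := fun j h => h j rfl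
  have hout : ∀ k j g, g ∈ S k (s.a j) ↔ k = j := by
    intro k j g
    simp only [hS, if_neg (hna j)]
    by_cases h : s.a j = s.a k
    · rw [if_pos h]
      exact ⟨fun _ => (s.a_inj h).symm, fun _ => Finset.mem_univ _⟩
    · rw [if_neg h]
      exact ⟨fun h1 => absurd h1 (Finset.notMem_empty _), fun h1 => absurd (by rw [h1]) h⟩
  have hcase : ∀ z, s.inn z ∨ ∃ j, z = s.a j := by
    intro z
    by_cases h : ∃ j, z = s.a j
    · exact Or.inr h
    · push Not at h
      exact Or.inl h
  have hpart : ∀ (z : V) (g : F), ∃! k, g ∈ S k z := by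
    intro z g
    rcases hcase z with hz | ⟨j, rfl⟩
    · have h1 := hsum z g hz
      rw [Fin.sum_univ_three] at h1
      simp only [hin _ _ _ hz]
      rcases h01 0 z g hz with a0 | a0 <;> rcases h01 1 z g hz with a1 | a1 <;>
        rcases h01 2 z g hz with a2 | a2
      · omega
      · refine ⟨2, a2, fun k hk => ?_⟩
        fin_cases k
        · exact absurd (a0.symm.trans hk) (by decide)
        · exact absurd (a1.symm.trans hk) (by decide)
        · rfl
      · refine ⟨1, a1, fun k hk => ?_⟩
        fin_cases k
        · exact absurd (a0.symm.trans hk) (by decide)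
        · rfl
        · exact absurd (a2.symm.trans hk) (by decide)
      · omega
      · refine ⟨0, a0, fun k hk => ?_⟩
        fin_cases k
        · rfl
        · exact absurd (a1.symm.trans hk) (by decide)
        · exact absurd (a2.symm.trans hk) (by decide)
      · omega
      · omega
      · omega
    · exact ⟨j, (hout j j g).2 rfl, fun k hk => (hout k j g).1 hk⟩
  have hle1 : ∀ k z z' g, s.inn z → s.inn z' → SS k z g ≤ SS k z' g → g ∈ S k z → g ∈ S k z' := by
    intro k z z' g hz hz' hle h
    rw [hin _ _ _ hz] at h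
    rw [hin _ _ _ hz']
    rcases h01 k z' g hz' with h1 | h1
    · omega
    · exact h1
  have hstep : ∀ (k : Fin 3) (u v : V), s.step k u v → S k u ⊆ S k v := by
    rintro k u v (⟨hu, rfl⟩ | ⟨j, hj, hv, rfl⟩ | ⟨j, hj, rfl, rfl⟩) g hg
    · rcases hcase (s.out k u) with hv | ⟨j, hj⟩
      · obtain ⟨j, hj, -⟩ := hpart (s.out k u) g
        by_cases hjk : j = k
        · rw [← hjk]
          rw [hjk]
          rw [hjk] at hj
          exact hj
        · exfalso
          have h3 : g ∈ S j u := by
            rcases S6_three j k hjk with h | h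
            · have e := S6_e4 k
              have h4 := hm2 (k + 1) u g hu (by rw [e]; exact hv)
              rw [e, ← h] at h4
              exact hle1 j _ _ g hv hu h4 hj
            · have e := S6_e1 k
              have h4 := hm1 (k + 2) u g hu (by rw [e]; exact hv)
              rw [e, ← h] at h4
              exact hle1 j _ _ g hv hu h4 hj
          exact hjk ((hpart u g).unique h3 hg)
      · have h5 := s.out_outer hu k j hj
        rw [hj, hout]
        exact h5.symm
    · rcases hcase (s.out j v) with hu | ⟨i, hi⟩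
      · rcases S6_three j k hj with h | h
        · rw [h] at hg hu
          exact hle1 k _ _ g hu hv (hm1 k v g hv hu) hg
        · rw [h] at hg hu
          exact hle1 k _ _ g hu hv (hm2 k v g hv hu) hg
      · have h5 := s.out_outer hv j i hi
        rw [hi, hout] at hg
        exact absurd (h5.symm.trans hg.symm) hj
    · rw [hout] at hg
      exact absurd hg.symm hj
  have hmono : ∀ (k : Fin 3) (u v : V), s.Le k u v → S k u ⊆ S k v := by
    intro k u v h
    induction h with
    | refl => exact fun g hg => hg
    | tail _ h2 ih => exact fun g hg => hstep k _ _ h2 (ih hg)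
  have hnotin : ∀ k z g, s.inn z → g ∉ S k z → SS k z g = 0 := by
    intro k z g hz h
    rcases h01 k z g hz with h1 | h1
    · exact h1
    · exact absurd ((hin k z g hz).2 h1) h
  have hPi : ∀ c z c' v, s.PiI c z c' v = 0 ∨
      (s.PiI c z c' v = 1 ∧ c' = c ∧ s.Pth c z v) := by
    intro c z c' v
    unfold PiI
    split_ifs with h
    · exact Or.inr ⟨rfl, h.1, h.2.2⟩
    · exact Or.inl rfl
  refine ⟨{
    toSch := s
    S := S
    part := hpart
    self := ?_
    mono := hmono
    vert := ?_
    crossL := ?_
    crossR := ?_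
    pathcross := ?_
    outer0 := ?_
    outer1 := ?_ }, rfl⟩
  · intro k g
    rcases hcase (s.t k g) with h | ⟨j, hj⟩
    · exact (hin _ _ _ h).2 (hself k g h)
    · rw [hj, hout]
      exact s.lab g k j hj
  · rintro k z v g hg ⟨j, rfl⟩
    rcases hcase z with hz | ⟨i, rfl⟩
    · rw [hin _ _ _ hz] at hg
      exact s.Le_trans (s.Le_face g j k) (hsup k z g hz (by rw [hg]; decide))
    · rw [hout] at hg
      rw [← hg]
      exact s.Le_a k _
  · intro i c y v hv hL hR
    rcases hcase y with hy | ⟨j, rfl⟩
    · rw [hin _ _ _ hy] at hL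
      have h1 := hbd i y hy c v hv
      rw [hL, hnotin _ _ _ hy hR] at h1
      rcases hPi (i + 1) y c v with h2 | ⟨-, h2⟩
      · rcases hPi (i + 2) y c v with h3 | ⟨h3, -⟩ <;> omega
      · exact h2
    · rw [hout] at hL hR
      exact absurd hL hR
  · intro i c y v hv hL hR
    rcases hcase y with hy | ⟨j, rfl⟩
    · rw [hin _ _ _ hy] at hL
      have h1 := hbd i y hy c v hv
      rw [hL, hnotin _ _ _ hy hR] at h1
      rcases hPi (i + 2) y c v with h2 | ⟨-, h2⟩
      · rcases hPi (i + 1) y c v with h3 | ⟨h3, -⟩ <;> omega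
      · exact h2
    · rw [hout] at hL hR
      exact absurd hL hR
  · intro c y v hv hp
    rcases hcase y with hy | ⟨j, rfl⟩
    · have e1 := S6_e1 c
      have e2 := S6_e2 c
      have e3 := S6_e3 c
      have e4 := S6_e4 c
      have n1 := S6_n1 c
      have n2 := S6_n2 c
      have h1 := hbd (c + 2) y hy c v hv
      have h2 := hbd (c + 1) y hy c v hv
      rw [e1, e2] at h1
      rw [e3, e4] at h2
      have p0 : s.PiI c y c v = 1 := by
        unfold PiI
        rw [if_pos ⟨rfl, hv, hp⟩]
      have p1 : s.PiI (c + 1) y c v = 0 := by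
        unfold PiI
        rw [if_neg (fun h => n1 h.1)]
      have p2 : s.PiI (c + 2) y c v = 0 := by
        unfold PiI
        rw [if_neg (fun h => n2 h.1)]
      rw [p0, p1] at h1
      rw [p0, p2] at h2
      constructor
      · rw [hin _ _ _ hy]
        rcases h01 (c + 2) y (s.gL c v) hy with h3 | h3
        · rcases h01 (c + 2) y (s.gR c v) hy with h4 | h4 <;> omega
        · exact h3
      · rw [hin _ _ _ hy]
        rcases h01 (c + 1) y (s.gR c v) hy with h3 | h3
        · rcases h01 (c + 1) y (s.gL c v) hy with h4 | h4 <;> omega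
        · exact h3
    · exact absurd (s.Pth_outer hp) (hv j)
  · intro k
    ext g
    rw [hout]
    simp
  · intro k j hj
    ext g
    rw [hout]
    simp [Ne.symm hj]

end Pool.SX.Sch
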