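import Pool.Agent.Lib.MP_9dcace_sx.W7
import Pool.Agent.Lib.MP_9dcace_sx.S6
import Pool.Agent.Lib.MP_9dcace_sx.F3c

/-!
ROW W8 (weights with large areas; 100-150 lines).
* `exists_depth`: d with (N - 1) * 2^d < 3^d and 12^d ≤ (3 N)^7, 432^d ≤ (3 N)^15 ... : take the least d; for d ≥ 1 minimality gives (3/2)^(d-1) ≤ N - 1, so
  (3/2)^d ≤ (3/2) N and 12 ≤ (3/2)^7 (= 17.08), 432 ≤ (3/2)^15 (= 437.9): 12^d ≤ ((3/2)^d)^7 ≤ (3N)^7 etc.
* IR univ = VI (inner vertices have all their faces in univ).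
* `exists_H`: KM (om wt) VI is invertible (its determinant is DF > 0: `DF_eq_det`, `DF_pos`): there is H : V → Fin 3 → ℝ with the boundary values and lap = 0 on VI.
* area: for every g : Fin 3 → F and every k: chi univ g (a k) = k (S j (a k) = ∅ for j ≠ k, `chi_eq`, outer0).  So ZF (chi univ g) = ZF χ (`ZF_chi` with B = {a 0, a 1, a 2}) and
  NR wt univ f = |F|^3 ZF χ f; `bd` and `area_eq`: DF * det = ZF ≥ (1/432)^d DF / |F|^3.
-/

set_option autoImplicit false

open Classical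

namespace Pool.SX

theorem exists_depth (N : ℕ) (hN : 1 ≤ N) : ∃ d : ℕ, (N - 1) * 2 ^ d < 3 ^ d ∧
    (12 : ℝ) ^ d ≤ (3 * N) ^ 7 ∧ (432 : ℝ) ^ d ≤ (3 * N) ^ 15 := by
  have hex : ∃ d : ℕ, (N - 1) * 2 ^ d < 3 ^ d := by
    obtain ⟨d, hd⟩ := pow_unbounded_of_one_lt (N : ℝ) (by norm_num : (1 : ℝ) < 3 / 2)
    refine ⟨d, ?_⟩
    rw [div_pow, lt_div_iff₀ (by positivity)] at hd
    have h1 : N * 2 ^ d < 3 ^ d := by exact_mod_cast hd
    exact lt_of_le_of_lt (Nat.mul_le_mul_right _ (Nat.sub_le N 1)) h1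
  have hN1 : (1 : ℝ) ≤ N := by exact_mod_cast hN
  refine ⟨Nat.find hex, Nat.find_spec hex, ?_⟩
  have hkey : ((3 : ℝ) / 2) ^ (Nat.find hex) ≤ 3 * N := by
    rcases hn : Nat.find hex with _ | e
    · rw [pow_zero]; linarith
    · have hmin := Nat.find_min hex (m := e) (by omega)
      push Not at hmin
      have h1 : (3 : ℝ) ^ e ≤ N * 2 ^ e := by
        have h2 : 3 ^ e ≤ N * 2 ^ e :=
          hmin.trans (Nat.mul_le_mul_right _ (Nat.sub_le N 1))
        exact_mod_cast h2
      have h3 : ((3 : ℝ) / 2) ^ e ≤ N := by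
        rw [div_pow, div_le_iff₀ (by positivity)]; exact h1
      rw [pow_succ]
      linarith
  have hpos : (0 : ℝ) ≤ (3 / 2) ^ (Nat.find hex) := by positivity
  constructor
  · calc (12 : ℝ) ^ (Nat.find hex) ≤ ((3 / 2) ^ 7) ^ (Nat.find hex) :=
          pow_le_pow_left₀ (by norm_num) (by norm_num) _
      _ = ((3 / 2) ^ (Nat.find hex)) ^ 7 := by rw [← pow_mul, ← pow_mul, mul_comm]
      _ ≤ (3 * N) ^ 7 := pow_le_pow_left₀ hpos hkey 7
  · calc (432 : ℝ) ^ (Nat.find hex) ≤ ((3 / 2) ^ 15) ^ (Nat.find hex) :=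
          pow_le_pow_left₀ (by norm_num) (by norm_num) _
      _ = ((3 / 2) ^ (Nat.find hex)) ^ 15 := by rw [← pow_mul, ← pow_mul, mul_comm]
      _ ≤ (3 * N) ^ 15 := pow_le_pow_left₀ hpos hkey 15

theorem w8_dot {V : Type} [Fintype V] (om : V → V → ℝ) (x : V → ℝ) (v : V) :
    ∑ w, lapRow om v w * x w = lap om x v := by
  unfold lapRow lap
  simp only [Finset.sum_mul]
  rw [Finset.sum_comm]
  refine Finset.sum_congr rfl fun u _ => ?_
  simp only [mul_assoc]
  rw [← Finset.mul_sum]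
  congr 1
  simp [sub_mul, Finset.sum_sub_distrib]

/-- the solution of a Dirichlet problem -/
theorem w8_solve {V : Type} [Fintype V] (om : V → V → ℝ) (I : Finset V) (hD : DF om I ≠ 0)
    (z : V) (hz : z ∉ I) : ∃ h : V → ℝ, (∀ v, v ∉ I → h v = if v = z then 1 else 0) ∧
      ∀ v ∈ I, lap om h v = 0 := by
  have hne : (KM om I).det ≠ 0 := by rw [← DF_eq_det]; exact hD
  have hKh : ∀ v, ∑ w, KM om I v w * (((KM om I).det)⁻¹ * (KM om I).adjugate w z) =
      if v = z then 1 else 0 := by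
    intro v
    have h1 := congrFun (congrFun (Matrix.mul_adjugate (KM om I)) v) z
    rw [Matrix.mul_apply, Matrix.smul_apply, Matrix.one_apply] at h1
    have h2 : ∑ w, KM om I v w * (((KM om I).det)⁻¹ * (KM om I).adjugate w z) =
        ((KM om I).det)⁻¹ * ∑ w, KM om I v w * (KM om I).adjugate w z := by
      rw [Finset.mul_sum]
      refine Finset.sum_congr rfl fun w _ => ?_
      ring
    rw [h2, h1, smul_eq_mul, ← mul_assoc, inv_mul_cancel₀ hne, one_mul]
  refine ⟨fun w => ((KM om I).det)⁻¹ * (KM om I).adjugate w z, ?_, ?_⟩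
  · intro v hv
    rw [← hKh v]
    have h1 : ∀ w, KM om I v w = if w = v then 1 else 0 := by
      intro w
      simp only [KM, Matrix.of_apply, if_neg hv]
    simp only [h1]
    simp
  · intro v hv
    have h1 := hKh v
    have hvz : v ≠ z := by
      intro h
      rw [h] at hv
      exact hz hv
    rw [if_neg hvz] at h1
    rw [← w8_dot, ← h1]
    refine Finset.sum_congr rfl fun w _ => ?_
    simp only [KM, Matrix.of_apply, if_pos hv]

namespace Sch

variable {V F : Type} [Fintype V] [Fintype F]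

/-- MAIN RESULT of the sections S, F, R, W: positive weights, polynomially bounded, for which the Tutte
drawing has polynomially large areas. -/
theorem exists_weights (s : Sch V F) : ∃ (wt : Fin 3 → V → ℝ) (H : V → Fin 3 → ℝ),
    (∀ c v, s.inn v → 1 / (3 * (Fintype.card F : ℝ)) ^ 7 ≤ wt c v) ∧
    (∀ c v, s.inn v → wt c v ≤ Fintype.card F) ∧
    (∀ k j, H (s.a k) j = if k = j then 1 else 0) ∧
    (∀ v, s.inn v → ∀ k, lap (s.om wt) (fun u => H u k) v = 0) ∧
    (∀ g, 1 / (3 * (Fintype.card F : ℝ)) ^ 18 ≤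
      (Matrix.of (fun j k => H (s.t j g) k) : Matrix (Fin 3) (Fin 3) ℝ).det) := by
  obtain ⟨s', hs'⟩ := s.exists_SchS
  subst hs'
  have hVI : ∀ v, v ∈ s'.VI ↔ s'.inn v := fun v => by simp [Sch.VI]
  have hN : 1 ≤ Fintype.card F := Fintype.card_pos_iff.mpr ⟨s'.o 0⟩
  have hNr : (1 : ℝ) ≤ (Fintype.card F : ℝ) := by exact_mod_cast hN
  obtain ⟨d, hd1, hd2, hd3⟩ := exists_depth (Fintype.card F) hN
  obtain ⟨wt, hG⟩ := s'.main_induction d Finset.univ 1 one_pos s'.Reg_univ
    (by rw [Finset.card_univ]; exact hd1)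
  have hIn : ∀ c v, s'.inn v → s'.In c v Finset.univ :=
    fun c v hv => ⟨hv, Finset.mem_univ _, Finset.mem_univ _⟩
  have hIR : s'.IR Finset.univ = s'.VI := by
    ext v
    simp [SchS.IR, Sch.VI]
  have hlo : ∀ c v, s'.inn v → 1 / (12 : ℝ) ^ d ≤ wt c v := fun c v hv => hG.lo c v (hIn c v hv)
  have hpos : ∀ c v, s'.inn v → 0 < wt c v := fun c v hv =>
    lt_of_lt_of_le (by positivity) (hlo c v hv)
  have hDp : 0 < DF (s'.om wt) s'.VI := by
    rw [← hIR]
    exact s'.DF_pos (R := Finset.univ) (fun c v hv => (hpos c v hv).le)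
      (fun c v hI => hpos c v hI.1) _ (Finset.Subset.refl _)
  have haVI : ∀ k, s'.a k ∉ s'.VI := fun k hk => (hVI _).mp hk k rfl
  choose Hk hH1 hH2 using fun k => w8_solve (s'.om wt) s'.VI hDp.ne' (s'.a k) (haVI k)
  have hb : ∀ k j, Hk j (s'.a k) = if k = j then 1 else 0 := by
    intro k j
    rw [hH1 j (s'.a k) (haVI k)]
    by_cases h : k = j
    · rw [if_pos h, if_pos (by rw [h])]
    · rw [if_neg h, if_neg (fun hh => h (s'.a_inj hh))]
  refine ⟨wt, fun v k => Hk k v, ?_, ?_, hb, ?_, ?_⟩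
  · intro c v hv
    refine le_trans ?_ (hlo c v hv)
    exact one_div_le_one_div_of_le (by positivity) hd2
  · intro c v hv
    have h1 := hG.hi c v (hIn c v hv)
    rwa [one_mul] at h1
  · intro v hv k
    exact hH2 k v ((hVI v).mpr hv)
  · intro g
    obtain ⟨χ, hχ⟩ : ∃ χ : V → Fin 3, ∀ k, χ (s'.a k) = k := by
      refine ⟨fun v => if h : ∃ k, v = s'.a k then h.choose else 0, fun k => ?_⟩
      have hh : ∃ k', s'.a k = s'.a k' := ⟨k, rfl⟩
      simp only
      rw [dif_pos hh]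
      exact (s'.a_inj hh.choose_spec).symm
    have harea := s'.toSch.area_eq (s'.om wt) (s'.toSch.om_edge wt) χ hχ (fun v k => Hk k v)
      hb (fun v hv k => hH2 k v ((hVI v).mpr hv)) g
    have hout : ∀ u, u ∈ s'.VI ∨ u ∈ Finset.univ.image s'.a := by
      intro u
      by_cases hu : s'.inn u
      · exact Or.inl ((hVI u).mpr hu)
      · right
        unfold Sch.inn at hu
        push Not at hu
        obtain ⟨k, hk⟩ := hu
        exact Finset.mem_image.mpr ⟨k, Finset.mem_univ _, hk.symm⟩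
    have hchi : ∀ (gg : Fin 3 → F) k, s'.chi Finset.univ gg (s'.a k) = k := by
      intro gg k
      have hne : k + 1 ≠ k := by revert k; decide
      have hd : Disjoint (s'.S (k + 1) (s'.a k)) Finset.univ := by
        rw [s'.outer1 (k + 1) k hne.symm]
        exact Finset.disjoint_empty_left _
      rw [s'.chi_eq (fun _ => Finset.mem_univ _) hd]
      apply s'.ix_eq
      rw [s'.outer0 k]
      exact Finset.mem_univ _
    have hZ : ∀ gg : Fin 3 → F,
        ZF (s'.om wt) (s'.IR Finset.univ) (s'.chi Finset.univ gg) (fun j => s'.t j g) =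
          ZF (s'.om wt) s'.VI χ (fun j => s'.t j g) := by
      intro gg
      rw [hIR]
      refine ZF_chi _ (fun u v => s'.toSch.om_nonneg wt (fun c v hv => (hpos c v hv).le) u v)
        s'.VI (Finset.univ.image s'.a) ?_ (fun v _ u _ => hout u) _ _ ?_ _ (fun j => hout _)
      · intro v hv
        obtain ⟨k, _, rfl⟩ := Finset.mem_image.mp hv
        exact haVI k
      · intro v hv
        obtain ⟨k, _, rfl⟩ := Finset.mem_image.mp hv
        rw [hchi, hχ]
    have hNR : s'.NR wt Finset.univ g =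
        (Fintype.card F : ℝ) ^ 3 * ZF (s'.om wt) s'.VI χ (fun j => s'.t j g) := by
      unfold SchS.NR
      rw [Finset.sum_congr rfl fun gg _ => hZ gg, Finset.sum_const, nsmul_eq_mul,
        Fintype.card_piFinset]
      simp
    have hbd := hG.bd g (Finset.mem_univ _)
    rw [hNR, hIR, ← harea] at hbd
    generalize (Matrix.of (fun j k => Hk k (s'.t j g)) : Matrix (Fin 3) (Fin 3) ℝ).det = X
      at hbd ⊢
    have hN0 : (0 : ℝ) < (Fintype.card F : ℝ) := by linarith
    have h1 : (1 / 432 : ℝ) ^ d ≤ (Fintype.card F : ℝ) ^ 3 * X := by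
      have h2 : DF (s'.om wt) s'.VI * (1 / 432 : ℝ) ^ d ≤
          DF (s'.om wt) s'.VI * ((Fintype.card F : ℝ) ^ 3 * X) := by
        have e1 : (1 / 432 : ℝ) ^ d * DF (s'.om wt) s'.VI =
          DF (s'.om wt) s'.VI * (1 / 432 : ℝ) ^ d := mul_comm _ _
        have e2 : (Fintype.card F : ℝ) ^ 3 * (DF (s'.om wt) s'.VI * X) =
          DF (s'.om wt) s'.VI * ((Fintype.card F : ℝ) ^ 3 * X) := by ring
        rw [← e1, ← e2]; exact hbd
      exact le_of_mul_le_mul_left h2 hDp
    have h3 : 1 / (3 * (Fintype.card F : ℝ)) ^ 15 ≤ (1 / 432 : ℝ) ^ d := by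
      rw [one_div_pow]
      exact one_div_le_one_div_of_le (by positivity) hd3
    have h4 : 1 / (3 * (Fintype.card F : ℝ)) ^ 18 =
        (1 / (3 * (Fintype.card F : ℝ)) ^ 15) * (1 / (27 * (Fintype.card F : ℝ) ^ 3)) := by
      rw [one_div_mul_one_div]
      congr 1
      ring
    have hX : 1 / (3 * (Fintype.card F : ℝ)) ^ 15 ≤ (Fintype.card F : ℝ) ^ 3 * X := h3.trans h1
    have h5 : 0 < 1 / (3 * (Fintype.card F : ℝ)) ^ 15 := by positivity
    have hXp : 0 < X := by
      by_contra hcon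
      push Not at hcon
      have h6 := mul_nonpos_of_nonneg_of_nonpos
        (by positivity : (0 : ℝ) ≤ (Fintype.card F : ℝ) ^ 3) hcon
      linarith
    rw [h4]
    calc 1 / (3 * (Fintype.card F : ℝ)) ^ 15 * (1 / (27 * (Fintype.card F : ℝ) ^ 3)) ≤
          ((Fintype.card F : ℝ) ^ 3 * X) * (1 / (27 * (Fintype.card F : ℝ) ^ 3)) :=
          mul_le_mul_of_nonneg_right hX (by positivity)
      _ = X / 27 := by field_simp
      _ ≤ X := by linarith

end Sch

end Pool.SX
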