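import Pool.Agent.Lib.MP_9dcace_sx.Z6
import Pool.Agent.Lib.MP_9dcace_sx.T12
import Pool.Agent.Lib.MP_9dcace_sx.W8
import Pool.Agent.Lib.MP_9dcace_sx.CMain
import Pool.Agent.Lib.MP_9dcace_sx.GMain

/-!
Assembly: the polynomial grid theorem for simplicial polytopes in space.
-/

set_option autoImplicit false

open Classical

namespace Pool.SX

/-- the polynomial `129 (1 + 8 n^2)^3 (6 n)^43` -/
noncomputable def gridPoly : Polynomial ℕ :=
  129 * (1 + 8 * Polynomial.X ^ 2) ^ 3 * (6 * Polynomial.X) ^ 43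

theorem gridPoly_eval (n : ℕ) :
    gridPoly.eval n = 129 * (1 + 8 * n ^ 2) ^ 3 * (6 * n) ^ 43 := by
  unfold gridPoly
  simp

theorem card_F_le {V F : Type} [Fintype V] [Fintype F] (s : Sch V F) :
    Fintype.card F ≤ 2 * Fintype.card V := by
  have h1 := s.card_F
  have h2 := s.card_V
  omega

theorem om_eq {V F : Type} [Fintype V] [Fintype F] (s : Sch V F) (wt : Fin 3 → V → ℝ) :
    s.omT wt = s.om wt := by
  funext u v
  unfold Sch.omT Sch.om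
  simp only [eq_comm]

theorem grid_bound (n m : ℕ) (hm : 1 ≤ m) (hmn : m ≤ 2 * n) :
    129 * (1 + 2 * (m : ℝ) * m) ^ 3 /
      ((1 / (3 * (m : ℝ)) ^ 7) * (1 / (3 * (m : ℝ)) ^ 18) ^ 2) ≤ (gridPoly.eval n : ℕ) := by
  rw [gridPoly_eval]
  have hm' : (1 : ℝ) ≤ (m : ℝ) := by exact_mod_cast hm
  have hmn' : (m : ℝ) ≤ 2 * n := by exact_mod_cast hmn
  have hpos : (0 : ℝ) < 3 * (m : ℝ) := by linarith
  have e1 : 129 * (1 + 2 * (m : ℝ) * m) ^ 3 /
      ((1 / (3 * (m : ℝ)) ^ 7) * (1 / (3 * (m : ℝ)) ^ 18) ^ 2) =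
      129 * (1 + 2 * (m : ℝ) * m) ^ 3 * (3 * (m : ℝ)) ^ 43 := by
    generalize hx : 3 * (m : ℝ) = x at hpos ⊢
    field_simp
  rw [e1]
  push_cast
  have h1 : (1 + 2 * (m : ℝ) * m) ≤ 1 + 8 * (n : ℝ) ^ 2 := by nlinarith
  have h2 : (3 * (m : ℝ)) ≤ 6 * n := by linarith
  have h0 : (0 : ℝ) ≤ 1 + 2 * (m : ℝ) * m := by positivity
  gcongr

/-- Every simplicial sphere which is realized in space has an integer realization of polynomial size. -/
theorem sph_grid {V : Type} [Fintype V] (S : Sph V) (h4 : 4 ≤ Fintype.card V) :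
    ∃ g : V → Fin 3 → ℕ, S.Pos (fun v i => (g v i : ℝ)) ∧
      ∀ v i, g v i ≤ gridPoly.eval (Fintype.card V) := by
  obtain ⟨F, instF, s, hs⟩ := exists_sch S h4
  obtain ⟨wt, H, hlo, hhi, h1, h2, h3⟩ := s.exists_weights
  have hF1 : 1 ≤ Fintype.card F := by
    have := s.card_F
    omega
  have hF1' : (1 : ℝ) ≤ (Fintype.card F : ℝ) := by exact_mod_cast hF1
  have hpos : (0 : ℝ) < 3 * (Fintype.card F : ℝ) := by linarith
  have hd := s.drw_of (wt := wt) (lo := 1 / (3 * (Fintype.card F : ℝ)) ^ 7)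
    (hi := Fintype.card F) (A := 1 / (3 * (Fintype.card F : ℝ)) ^ 18) (by positivity)
    (by positivity) hlo hhi H h1 (by rw [om_eq]; exact h2) h3
  have hle : ∀ k : ℕ, (1 / (3 * (Fintype.card F : ℝ)) ^ k) ≤ 1 := by
    intro k
    have h1 : (1 : ℝ) ≤ (3 * (Fintype.card F : ℝ)) ^ k := one_le_pow₀ (by linarith)
    rw [div_le_one (by linarith)]
    exact h1
  obtain ⟨g, hg, hgb⟩ := hs.grid hd (by linarith) (hle 7) (hle 18)
  refine ⟨g, hg, fun v i => ?_⟩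
  have hb := hgb v i
  have hb2 := grid_bound (Fintype.card V) (Fintype.card F) hF1 (card_F_le s)
  exact_mod_cast le_trans hb hb2

theorem poly_grid : ∃ f : Polynomial ℕ, ∀ V : Finset (Fin 3 → ℝ),
      (∀ v ∈ V, v ∉ convexHull ℝ ((V : Set (Fin 3 → ℝ)) \ {v})) →
      affineSpan ℝ (V : Set (Fin 3 → ℝ)) = ⊤ →
      (∀ (a : Fin 3 → ℝ) (c : ℝ), a ≠ 0 → (∀ x ∈ V, ∑ i, a i * x i ≤ c) →
        (V.filter (fun x => ∑ i, a i * x i = c)).card ≤ 3) →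
      ∃ g : (Fin 3 → ℝ) → (Fin 3 → ℝ),
        Set.InjOn g (V : Set (Fin 3 → ℝ)) ∧
        (∀ v ∈ V, ∀ i : Fin 3, ∃ m : ℕ, g v i = (m : ℝ) ∧ m ≤ f.eval V.card) ∧
        affineSpan ℝ (g '' (V : Set (Fin 3 → ℝ))) = ⊤ ∧
        (∀ v ∈ V, g v ∉ convexHull ℝ (g '' ((V : Set (Fin 3 → ℝ)) \ {v}))) ∧
        ∀ S ⊆ V,
          ((∃ a : Fin 3 → ℝ, ∃ c : ℝ,
              (∀ x ∈ V, ∑ i, a i * x i ≤ c) ∧
              ∀ x ∈ V, (x ∈ S ↔ ∑ i, a i * x i = c)) ↔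
           (∃ a : Fin 3 → ℝ, ∃ c : ℝ,
              (∀ x ∈ V, ∑ i, a i * g x i ≤ c) ∧
              ∀ x ∈ V, (x ∈ S ↔ ∑ i, a i * g x i = c))) := by
  refine ⟨gridPoly, fun V hconv hspan hsimp => ?_⟩
  obtain ⟨h4, S, hS⟩ := exists_sph V hconv hspan hsimp
  obtain ⟨g, hg, hgb⟩ := sph_grid S h4
  have hcard : Fintype.card V = V.card := Fintype.card_coe V
  refine transfer V S hS h4 _ g hg fun v i => ?_
  rw [← hcard]
  exact hgb v i

end Pool.SX
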