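import Pool.Agent.Lib.MP_9dcace_sx.S7

/-!
Definitions for section T (Maxwell-Cremona lifting) and section Z (rounding, face lattice).
-/

set_option autoImplicit false

open Classical

namespace Pool.SX

/-- twice the signed area of the plane triangle `p, q, r` (positive if counterclockwise) -/
def ar (p q r : ℝ × ℝ) : ℝ := (q.1 - p.1) * (r.2 - p.2) - (q.2 - p.2) * (r.1 - p.1)

/-- the determinant of `q - p, r - p, u - p` in space -/
def dt4 (p q r u : Fin 3 → ℝ) : ℝ :=
  (q 0 - p 0) * ((r 1 - p 1) * (u 2 - p 2) - (r 2 - p 2) * (u 1 - p 1))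
  - (q 1 - p 1) * ((r 0 - p 0) * (u 2 - p 2) - (r 2 - p 2) * (u 0 - p 0))
  + (q 2 - p 2) * ((r 0 - p 0) * (u 1 - p 1) - (r 1 - p 1) * (u 0 - p 0))

/-- the affine function with gradient `q` and constant `b` -/
def lin (q : ℝ × ℝ) (b : ℝ) (x : ℝ × ℝ) : ℝ := q.1 * x.1 + q.2 * x.2 + b

/-- the lifted point -/
def lft (p : ℝ × ℝ) (h : ℝ) : Fin 3 → ℝ := ![p.1, p.2, h]

variable {V F : Type} [Fintype V] [Fintype F]

namespace Sch

/-- an equilibrium drawing with weights between `lo` and `hi` in the standard triangle, all the inner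
faces having twice the area at least `A` -/
structure Drw (s : Sch V F) (wt : Fin 3 → V → ℝ) (p : V → ℝ × ℝ) (lo hi A : ℝ) : Prop where
  lo_pos : 0 < lo
  A_pos : 0 < A
  wlo : ∀ c v, s.inn v → lo ≤ wt c v
  whi : ∀ c v, s.inn v → wt c v ≤ hi
  p0 : p (s.a 0) = (1, 0)
  p1 : p (s.a 1) = (0, 1)
  p2 : p (s.a 2) = (0, 0)
  equi : ∀ u, s.inn u → ∑ c, wt c u • (p (s.out c u) - p u) +
    (∑ c, ∑ v ∈ s.VI, if s.out c v = u then wt c v • (p v - p u) else 0) = 0
  area : ∀ g : F, A ≤ ar (p (s.t 0 g)) (p (s.t 1 g)) (p (s.t 2 g))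

/-- the symmetric weight function on pairs of vertices -/
noncomputable def omT (s : Sch V F) (wt : Fin 3 → V → ℝ) (u v : V) : ℝ :=
  (∑ c, if s.inn u ∧ s.out c u = v then wt c u else 0) +
    ∑ c, if s.inn v ∧ s.out c v = u then wt c v else 0

/-- `q, b` are the gradients and constants of a piecewise linear function over the drawing whose crease
at the edge `(c, v)` is `wt c v` -/
def Crs (s : Sch V F) (wt : Fin 3 → V → ℝ) (p : V → ℝ × ℝ) (q : F → ℝ × ℝ) (b : F → ℝ) : Prop :=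
  ∀ c v, s.inn v → ∀ x : ℝ × ℝ, lin (q (s.gL c v)) (b (s.gL c v)) x -
    lin (q (s.gR c v)) (b (s.gR c v)) x = wt c v * ar (p v) (p (s.out c v)) x

end Sch

end Pool.SX
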