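import Pool.Agent.Lib.MP_9dcace_sx.C2
set_option autoImplicit false

/-! Row C3. The contour path from a0 to a1. Let nx be a choice of the next vertex on contour
vertices; it is an injective self map of a finite set (prv_uniq), so some iterate returns to a0;
take the least m + 1 ≥ 1 with nx^[m+1] a0 = a0, c k = nx^[k] a0. Then nx (c m) = a0 = nx a1, so
c m = a1. m ≥ 1 since nx a0 ≠ a0.
contour_two: if Nxt a0 a1 and Nxt a1 a0 then the only neighbour of a0 in W is a1 (Sph.cross with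
P = (· ∈ W ∧ · ≠ a1), i1, and a2 is the predecessor of a1 in the link of a0) and conversely, so
W = {a0, a1} by i3. -/

namespace Pool.SX
open Relation
variable {V : Type} [Fintype V] (S : Sph V) {a0 a1 a2 : V} {W : Finset V}

theorem Sph.Good.contour (hG : S.Good a0 a1 a2 W) (hf : S.T a1 a0 a2) :
    ∃ (m : ℕ) (c : ℕ → V), 1 ≤ m ∧ c 0 = a0 ∧ c m = a1 ∧
      (∀ k, k < m → S.Nxt W (c k) (c (k + 1))) ∧
      (∀ i j, i ≤ m → j ≤ m → c i = c j → i = j) := by
  classical
  have hN : S.Nxt W a1 a0 := Sph.Good.nxt_a1 S hG hf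
  have hc1 : S.Cont W a1 := (Sph.nxt_cont S hN).1
  have hc0 : S.Cont W a0 := (Sph.nxt_cont S hN).2.1
  have hex : ∀ x : {x // S.Cont W x}, ∃ y : {x // S.Cont W x}, S.Nxt W x.1 y.1 := by
    rintro ⟨x, hx⟩
    obtain ⟨y, hy⟩ := Sph.Good.ex_nxt S hG hf hx
    exact ⟨⟨y, (Sph.nxt_cont S hy).2.1⟩, hy⟩
  choose nx hnx using hex
  have hinj : Function.Injective nx := by
    intro x y hxy
    apply Subtype.ext
    have h1 := hnx x
    have h2 := hnx y
    rw [← hxy] at h2
    exact Sph.Good.prv_uniq S hG h1 h2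
  have hnx1 : nx ⟨a1, hc1⟩ = ⟨a0, hc0⟩ := by
    apply Subtype.ext
    exact Sph.Good.nxt_uniq S hG (hnx ⟨a1, hc1⟩) hN
  have hper : (⟨a0, hc0⟩ : {x // S.Cont W x}) ∈ Function.periodicPts nx :=
    hinj.mem_periodicPts _
  have hpos := Function.minimalPeriod_pos_of_mem_periodicPts hper
  set p := Function.minimalPeriod nx (⟨a0, hc0⟩ : {x // S.Cont W x}) with hp
  have hret : nx^[p] (⟨a0, hc0⟩ : {x // S.Cont W x}) = ⟨a0, hc0⟩ :=
    Function.iterate_minimalPeriod
  have hm : nx^[p - 1] (⟨a0, hc0⟩ : {x // S.Cont W x}) = ⟨a1, hc1⟩ := by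
    apply hinj
    have hsucc := Function.iterate_succ_apply' nx (p - 1) (⟨a0, hc0⟩ : {x // S.Cont W x})
    have : (p - 1).succ = p := by omega
    rw [this, hret] at hsucc
    rw [hnx1, ← hsucc]
  have ha : a1 ≠ a0 := S.ne hf
  refine ⟨p - 1, fun k => (nx^[k] (⟨a0, hc0⟩ : {x // S.Cont W x})).1, ?_, rfl, ?_, ?_, ?_⟩
  · by_contra hlt
    have h0 : p - 1 = 0 := by omega
    rw [h0] at hm
    exact ha (Subtype.ext_iff.mp hm).symm
  · show (nx^[p - 1] (⟨a0, hc0⟩ : {x // S.Cont W x})).1 = a1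
    rw [hm]
  · intro k _
    show S.Nxt W (nx^[k] (⟨a0, hc0⟩ : {x // S.Cont W x})).1
      (nx^[k + 1] (⟨a0, hc0⟩ : {x // S.Cont W x})).1
    rw [Function.iterate_succ_apply']
    exact hnx _
  · intro i j hi hj hij
    have hI : i ∈ Set.Iio p := by show i < p; omega
    have hJ : j ∈ Set.Iio p := by show j < p; omega
    exact Function.iterate_injOn_Iio_minimalPeriod hI hJ (Subtype.ext hij)

theorem Sph.Good.contour_two (hG : S.Good a0 a1 a2 W) (hf : S.T a1 a0 a2)
    (h : S.Nxt W a0 a1) {x : V} (hx : x ∈ W) : x = a0 ∨ x = a1 := by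
  classical
  obtain ⟨_, _, w, hw, hT⟩ := h
  have hadj : S.Adj a0 a1 := ⟨w, hT⟩
  have hadj' : S.Adj a1 a0 := ⟨a2, hf⟩
  have k0 : ∀ y ∈ W, S.Adj a0 y → y = a1 := by
    intro y hy hay
    by_contra hne
    obtain ⟨x', y', hT', hP, hnP⟩ := Sph.cross S (fun v => v ∈ W ∧ v ≠ a1) hay ⟨hy, hne⟩ hadj
      (by simp)
    by_cases hy' : y' ∈ W
    · have hya : y' = a1 := by
        by_contra hn
        exact hnP ⟨hy', hn⟩
      subst hya
      have h2 : S.T a0 a2 y' := S.rot hf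
      have := Sph.prv_uniq S hT' h2
      exact hG.m2 (this ▸ hP.1)
    · exact hP.2 (hG.i1 a0 hG.m0 x' hP.1 a1 hG.m1 y' w hy' hw hT' hT)
  have k1 : ∀ y ∈ W, S.Adj a1 y → y = a0 := by
    intro y hy hay
    by_contra hne
    obtain ⟨x', y', hT', hP, hnP⟩ := Sph.cross S (fun v => v ∈ W ∧ v ≠ a0) hay ⟨hy, hne⟩ hadj'
      (by simp)
    by_cases hy' : y' ∈ W
    · have hya : y' = a0 := by
        by_contra hn
        exact hnP ⟨hy', hn⟩
      subst hya
      have h2 : S.T a1 w y' := S.rot hT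
      have := Sph.prv_uniq S hT' h2
      exact hw (this ▸ hP.1)
    · exact hP.2 (hG.i1 a1 hG.m1 x' hP.1 a0 hG.m0 y' a2 hy' hG.m2 hT' hf)
  have key := hG.i3 a0 hG.m0 x hx
  induction key with
  | refl => exact Or.inl rfl
  | tail _ hbc ih =>
    rename_i b c hab
    have hb : b ∈ W ∨ b = a0 := by
      rcases Relation.ReflTransGen.cases_tail hab with h | ⟨_, _, h⟩
      · exact Or.inr h
      · exact Or.inl h.2
    have hbW : b ∈ W := by
      rcases hb with h | h
      · exact h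
      · exact h ▸ hG.m0
    rcases ih hbW with h | h
    · subst h
      exact Or.inr (k0 c hbc.2 hbc.1)
    · subst h
      exact Or.inl (k1 c hbc.2 hbc.1)

end Pool.SX
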