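import Pool.Agent.Lib.MP_9dcace_sx.C4a
set_option autoImplicit false

/-! Row C4b. FILL modulo two: every even symmetric edge function is a boundary.
Linear maps over ZMod 2: D : (S.Fc → ZMod 2) → (S.Ed → ZMod 2), (D X) e = sum of X over the faces
containing e; E : (S.Ed → ZMod 2) → (V → ZMod 2), (E z) v = sum of z over the edges containing v.
E ∘ D = 0 (every face at v has two edges at v). ker D = constants: if D X = 0 then X agrees on the two
faces of every edge, hence on all faces at a vertex (S.link) and on all faces (S.conn, adjacent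
vertices share a face): rank D = |Fc| - 1 = 2 n - 5. range E contains e_u + e_v for all u, v
(adjacent ones, then S.conn), so it contains all even functions (dimension n - 1): use
finrank (range E) ≥ n - 1 (for example the map range E × ZMod 2 → functions is onto), hence
finrank (ker E) ≤ |Ed| - (n - 1) = 2 n - 5. So range D = ker E (Submodule.eq_of_le_of_finrank_le).
Then X u v w := X {u,v,w}. -/

namespace Pool.SX
open Relation
variable {V : Type} [Fintype V] (S : Sph V)


section
open Classical

private noncomputable def C4b_fc {u v w : V} (h : S.T u v w) : S.Fc :=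
  ⟨{u, v, w}, u, v, w, h, fun x => by simp⟩

private noncomputable def C4b_ed {u v : V} (h : S.Adj u v) : S.Ed :=
  ⟨{u, v}, u, v, h, fun x => by simp⟩

private theorem C4b_fc_val {u v w : V} (h : S.T u v w) : (C4b_fc S h).1 = {u, v, w} := rfl

private theorem C4b_ed_val {u v : V} (h : S.Adj u v) : (C4b_ed S h).1 = {u, v} := rfl

private theorem C4b_adj_ne {u v : V} (h : S.Adj u v) : u ≠ v := by
  obtain ⟨w, hw⟩ := h
  exact S.ne hw

/-- the form of a face containing two given vertices -/
private theorem C4b_cases (σ : S.Fc) {u v : V} (hu : u ∈ σ.1) (hv : v ∈ σ.1) (huv : u ≠ v) :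
    ∃ x : V, (S.T u v x ∨ S.T v u x) ∧ ∀ y, y ∈ σ.1 ↔ (y = u ∨ y = v ∨ y = x) := by
  obtain ⟨a, b, c, h, hm⟩ := σ.2
  have h2 := S.rot h
  have h3 := S.rot2 h
  rcases (hm u).1 hu with rfl | rfl | rfl <;> rcases (hm v).1 hv with rfl | rfl | rfl
  · exact absurd rfl huv
  · exact ⟨c, Or.inl h, fun y => by rw [hm]⟩
  · exact ⟨b, Or.inr h3, fun y => by rw [hm]; tauto⟩
  · exact ⟨c, Or.inr h, fun y => by rw [hm]; tauto⟩
  · exact absurd rfl huv
  · exact ⟨a, Or.inl h2, fun y => by rw [hm]; tauto⟩
  · exact ⟨b, Or.inl h3, fun y => by rw [hm]; tauto⟩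
  · exact ⟨a, Or.inr h2, fun y => by rw [hm]; tauto⟩
  · exact absurd rfl huv

/-- the incidence matrix of edges and faces -/
private noncomputable def C4b_DM : Matrix S.Ed S.Fc (ZMod 2) := fun e σ => if e.1 ⊆ σ.1 then 1 else 0

/-- the incidence matrix of vertices and edges -/
private noncomputable def C4b_EM : Matrix V S.Ed (ZMod 2) := fun v e => if v ∈ e.1 then 1 else 0

/-- the two faces at an edge -/
private theorem C4b_D_edge (X : S.Fc → ZMod 2) {u v w w' : V} (h : S.T u v w) (h' : S.T v u w')
    (hadj : S.Adj u v) :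
    (C4b_DM S).mulVec X (C4b_ed S hadj) = X (C4b_fc S h) + X (C4b_fc S h') := by
  have huv := S.ne h
  obtain ⟨_, hvw, huw⟩ := S.ne3 h
  have hww : w ≠ w' := by
    obtain ⟨x, hx, hx'⟩ := S.opp h
    rw [S.uniq h' hx']
    exact hx.symm
  have hne : C4b_fc S h ≠ C4b_fc S h' := by
    intro he
    have h1 : w ∈ (C4b_fc S h').1 := by
      rw [← he, C4b_fc_val]
      simp
    rw [C4b_fc_val] at h1
    simp only [Finset.mem_insert, Finset.mem_singleton] at h1
    rcases h1 with h1 | h1 | h1
    · exact hvw h1.symm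
    · exact huw h1.symm
    · exact hww h1
  have hmem : ∀ σ : S.Fc, (C4b_ed S hadj).1 ⊆ σ.1 ↔ σ = C4b_fc S h ∨ σ = C4b_fc S h' := by
    intro σ
    rw [C4b_ed_val]
    constructor
    · intro hsub
      have hu : u ∈ σ.1 := hsub (by simp)
      have hv : v ∈ σ.1 := hsub (by simp)
      obtain ⟨x, hx, hm⟩ := C4b_cases S σ hu hv huv
      rcases hx with hx | hx
      · left
        apply Subtype.ext
        ext y
        rw [hm, S.uniq hx h, C4b_fc_val]
        simp
      · right
        apply Subtype.ext
        ext y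
        rw [hm, S.uniq hx h', C4b_fc_val]
        simp only [Finset.mem_insert, Finset.mem_singleton]
        tauto
    · rintro (rfl | rfl)
      · rw [C4b_fc_val]
        intro y hy
        simp only [Finset.mem_insert, Finset.mem_singleton] at hy ⊢
        tauto
      · rw [C4b_fc_val]
        intro y hy
        simp only [Finset.mem_insert, Finset.mem_singleton] at hy ⊢
        tauto
  have h1 : (C4b_DM S).mulVec X (C4b_ed S hadj) =
      ∑ σ : S.Fc, if (σ = C4b_fc S h ∨ σ = C4b_fc S h') then X σ else 0 := by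
    rw [Matrix.mulVec, dotProduct]
    refine Finset.sum_congr rfl fun σ _ => ?_
    unfold C4b_DM
    simp only [hmem σ]
    split_ifs <;> simp
  rw [h1, ← Finset.sum_filter]
  have h2 : (Finset.univ.filter fun σ : S.Fc => σ = C4b_fc S h ∨ σ = C4b_fc S h') =
      {C4b_fc S h, C4b_fc S h'} := by
    ext σ
    simp
  rw [h2, Finset.sum_pair hne]

/-- a function in the kernel is constant -/
private theorem C4b_ker (X : S.Fc → ZMod 2) (hX : (C4b_DM S).mulVec X = 0) :
    ∀ σ σ' : S.Fc, X σ = X σ' := by
  have key : ∀ {u v w w' : V} (h : S.T u v w) (h' : S.T v u w'),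
      X (C4b_fc S h) = X (C4b_fc S h') := by
    intro u v w w' h h'
    have h1 := C4b_D_edge S X h h' ⟨w, h⟩
    rw [hX] at h1
    have h2 : X (C4b_fc S h) + X (C4b_fc S h') = 0 := h1.symm
    have h3 := eq_neg_of_add_eq_zero_left h2
    rw [ZMod.neg_eq_self_mod_two] at h3
    exact h3
  have hrot : ∀ {u v w : V} (h : S.T u v w) (h' : S.T v w u),
      X (C4b_fc S h) = X (C4b_fc S h') := by
    intro u v w h h'
    congr 1
    apply Subtype.ext
    rw [C4b_fc_val, C4b_fc_val]
    ext y
    simp only [Finset.mem_insert, Finset.mem_singleton]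
    tauto
  -- all faces at a vertex
  have hlink : ∀ {u v v' : V}, ReflTransGen (fun x y => S.T u x y) v v' →
      ∀ {w w' : V} (h : S.T u v w) (h' : S.T u v' w'), X (C4b_fc S h) = X (C4b_fc S h') := by
    intro u v v' hr
    induction hr with
    | refl =>
      intro w w' h h'
      have : w = w' := S.uniq h h'
      subst this
      rfl
    | @tail x y _ hxy ih =>
      intro w w' h h'
      rw [ih h hxy]
      have h1 : S.T y u x := S.rot2 hxy
      have h2 : S.T x y u := S.rot hxy
      rw [hrot hxy h2, hrot h2 h1]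
      exact (key h' h1).symm
  have hvert : ∀ {u v v' w w' : V} (h : S.T u v w) (h' : S.T u v' w'),
      X (C4b_fc S h) = X (C4b_fc S h') := fun h h' => hlink (S.link h h') h h'
  have hconn : ∀ {u u' : V}, ReflTransGen (fun x y => ∃ z : V, S.T x y z) u u' →
      ∀ {v w v' w' : V} (h : S.T u v w) (h' : S.T u' v' w'),
      X (C4b_fc S h) = X (C4b_fc S h') := by
    intro u u' hr
    induction hr with
    | refl =>
      intro v w v' w' h h'
      exact hvert h h'
    | @tail x y _ hxy ih =>
      intro v w v' w' h h'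
      obtain ⟨z, hz⟩ := hxy
      rw [ih h hz, hrot hz (S.rot hz)]
      exact hvert _ _
  have hfc : ∀ σ : S.Fc, ∃ (u v w : V) (h : S.T u v w), σ = C4b_fc S h := by
    intro σ
    obtain ⟨a, b, c, h, hm⟩ := σ.2
    refine ⟨a, b, c, h, Subtype.ext ?_⟩
    ext y
    rw [hm, C4b_fc_val]
    simp
  intro σ σ'
  obtain ⟨u, v, w, h, rfl⟩ := hfc σ
  obtain ⟨u', v', w', h', rfl⟩ := hfc σ'
  exact hconn (S.conn u u') h h'

/-- the product of the incidence matrices vanishes -/
private theorem C4b_ED : C4b_EM S * C4b_DM S = 0 := by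
  ext v σ
  rw [Matrix.mul_apply, Matrix.zero_apply]
  obtain ⟨a, b, c, h, hm⟩ := σ.2
  obtain ⟨hab, hbc, hac⟩ := S.ne3 h
  obtain ⟨h1, h2, h3⟩ := S.adj_of_T h
  have e12 : C4b_ed S h1 ≠ C4b_ed S h2 := by
    intro he
    have : c ∈ (C4b_ed S h1).1 := by rw [he, C4b_ed_val]; simp
    rw [C4b_ed_val] at this
    simp only [Finset.mem_insert, Finset.mem_singleton] at this
    rcases this with h | h
    · exact hac h.symm
    · exact hbc h.symm
  have e13 : C4b_ed S h1 ≠ C4b_ed S h3 := by
    intro he
    have : c ∈ (C4b_ed S h1).1 := by rw [he, C4b_ed_val]; simp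
    rw [C4b_ed_val] at this
    simp only [Finset.mem_insert, Finset.mem_singleton] at this
    rcases this with h | h
    · exact hac h.symm
    · exact hbc h.symm
  have e23 : C4b_ed S h2 ≠ C4b_ed S h3 := by
    intro he
    have : a ∈ (C4b_ed S h3).1 := by rw [← he, C4b_ed_val]; simp
    rw [C4b_ed_val] at this
    simp only [Finset.mem_insert, Finset.mem_singleton] at this
    rcases this with h | h
    · exact hab h
    · exact hac h
  have hmem : ∀ e : S.Ed, e.1 ⊆ σ.1 ↔
      (e = C4b_ed S h1 ∨ e = C4b_ed S h2 ∨ e = C4b_ed S h3) := by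
    intro e
    constructor
    · intro hsub
      obtain ⟨x, y, hxy, he⟩ := e.2
      have hne := C4b_adj_ne S hxy
      have hx := (hm x).1 (hsub ((he x).2 (Or.inl rfl)))
      have hy := (hm y).1 (hsub ((he y).2 (Or.inr rfl)))
      rcases hx with rfl | rfl | rfl <;> rcases hy with rfl | rfl | rfl
      · exact absurd rfl hne
      · left
        apply Subtype.ext
        ext t
        rw [he, C4b_ed_val]
        simp
      · right; left
        apply Subtype.ext
        ext t
        rw [he, C4b_ed_val]
        simp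
      · left
        apply Subtype.ext
        ext t
        rw [he, C4b_ed_val]
        simp only [Finset.mem_insert, Finset.mem_singleton]
        tauto
      · exact absurd rfl hne
      · right; right
        apply Subtype.ext
        ext t
        rw [he, C4b_ed_val]
        simp
      · right; left
        apply Subtype.ext
        ext t
        rw [he, C4b_ed_val]
        simp only [Finset.mem_insert, Finset.mem_singleton]
        tauto
      · right; right
        apply Subtype.ext
        ext t
        rw [he, C4b_ed_val]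
        simp only [Finset.mem_insert, Finset.mem_singleton]
        tauto
      · exact absurd rfl hne
    · rintro (rfl | rfl | rfl) <;> rw [C4b_ed_val] <;> intro y hy <;>
        simp only [Finset.mem_insert, Finset.mem_singleton] at hy <;> rw [hm] <;> tauto
  have hsum : ∑ e : S.Ed, C4b_EM S v e * C4b_DM S e σ =
      ∑ e ∈ ({C4b_ed S h1, C4b_ed S h2, C4b_ed S h3} : Finset S.Ed), C4b_EM S v e := by
    have hf : ({C4b_ed S h1, C4b_ed S h2, C4b_ed S h3} : Finset S.Ed) =
        Finset.univ.filter fun e : S.Ed => e.1 ⊆ σ.1 := by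
      ext e
      rw [Finset.mem_filter, hmem e]
      simp
    rw [hf, Finset.sum_filter]
    refine Finset.sum_congr rfl fun e _ => ?_
    unfold C4b_DM
    split_ifs <;> simp
  rw [hsum, Finset.sum_insert (by simp [e12, e13]), Finset.sum_pair e23]
  unfold C4b_EM
  rw [C4b_ed_val, C4b_ed_val, C4b_ed_val]
  by_cases va : v = a
  · subst va
    rw [if_pos (by simp), if_pos (by simp), if_neg (by simp [hab, hac])]
    decide
  · by_cases vb : v = b
    · subst vb
      rw [if_pos (by simp), if_neg (by simp [hab.symm, hbc]), if_pos (by simp)]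
      decide
    · by_cases vc : v = c
      · subst vc
        rw [if_neg (by simp [hac.symm, hbc.symm]), if_pos (by simp), if_pos (by simp)]
        decide
      · rw [if_neg (by simp [va, vb]), if_neg (by simp [va, vc]), if_neg (by simp [vb, vc])]
        decide

/-- the value of the vertex incidence on a unit vector -/
private theorem C4b_E_single {u v : V} (h : S.Adj u v) :
    (C4b_EM S).mulVec (Pi.single (C4b_ed S h) 1) = Pi.single u 1 + Pi.single v 1 := by
  have hne := C4b_adj_ne S h
  ext x
  rw [Matrix.mulVec_single_one]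
  show C4b_EM S x (C4b_ed S h) = _
  unfold C4b_EM
  rw [C4b_ed_val, Pi.add_apply]
  by_cases hx : x = u
  · subst hx
    rw [Pi.single_eq_same, Pi.single_eq_of_ne hne, if_pos (by simp), add_zero]
  · by_cases hx' : x = v
    · subst hx'
      rw [Pi.single_eq_same, Pi.single_eq_of_ne hx, if_pos (by simp), zero_add]
    · rw [Pi.single_eq_of_ne hx, Pi.single_eq_of_ne hx', if_neg (by simp [hx, hx']), add_zero]

private theorem C4b_E_pair {u v : V} (h : ReflTransGen (fun x y => ∃ z : V, S.T x y z) u v) :
    (Pi.single u 1 + Pi.single v 1 : V → ZMod 2) ∈ LinearMap.range (C4b_EM S).mulVecLin := by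
  induction h with
  | refl =>
    have : (Pi.single u 1 + Pi.single u 1 : V → ZMod 2) = 0 := by
      ext x
      rw [Pi.add_apply, Pi.zero_apply]
      exact CharTwo.add_self_eq_zero _
    rw [this]
    exact Submodule.zero_mem _
  | @tail x y _ hxy ih =>
    have h1 : (Pi.single x 1 + Pi.single y 1 : V → ZMod 2) ∈
        LinearMap.range (C4b_EM S).mulVecLin :=
      ⟨Pi.single (C4b_ed S hxy) 1, C4b_E_single S hxy⟩
    have h2 := Submodule.add_mem _ ih h1
    have h3 : (Pi.single u 1 + Pi.single x 1 : V → ZMod 2) + (Pi.single x 1 + Pi.single y 1) =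
        Pi.single u 1 + Pi.single y 1 := by
      ext t
      simp only [Pi.add_apply]
      have := CharTwo.add_self_eq_zero ((Pi.single x 1 : V → ZMod 2) t)
      linear_combination this
    rwa [h3] at h2

private theorem C4b_rank_E : Fintype.card V ≤
    Module.finrank (ZMod 2) (LinearMap.range (C4b_EM S).mulVecLin) + 1 := by
  rcases isEmpty_or_nonempty V with hV | ⟨⟨v0⟩⟩
  · rw [Fintype.card_eq_zero]
    exact Nat.zero_le _
  have htop : LinearMap.range (C4b_EM S).mulVecLin ⊔
      Submodule.span (ZMod 2) {(Pi.single v0 1 : V → ZMod 2)} = ⊤ := by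
    rw [eq_top_iff, ← (Pi.basisFun (ZMod 2) V).span_eq, Submodule.span_le]
    rintro _ ⟨u, rfl⟩
    rw [Pi.basisFun_apply]
    have h1 := C4b_E_pair S (S.conn u v0)
    have h2 : (Pi.single v0 1 : V → ZMod 2) ∈
        Submodule.span (ZMod 2) {(Pi.single v0 1 : V → ZMod 2)} :=
      Submodule.mem_span_singleton_self _
    have h3 := Submodule.add_mem_sup h1 h2
    have h4 : (Pi.single u 1 + Pi.single v0 1 : V → ZMod 2) + Pi.single v0 1 =
        Pi.single u 1 := by
      ext t
      simp only [Pi.add_apply]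
      have := CharTwo.add_self_eq_zero ((Pi.single v0 1 : V → ZMod 2) t)
      linear_combination this
    rwa [h4] at h3
  have h1 := Submodule.finrank_add_le_finrank_add_finrank
    (LinearMap.range (C4b_EM S).mulVecLin)
    (Submodule.span (ZMod 2) {(Pi.single v0 1 : V → ZMod 2)})
  rw [htop, finrank_top, Module.finrank_fintype_fun_eq_card] at h1
  have h2 : Module.finrank (ZMod 2)
      (Submodule.span (ZMod 2) {(Pi.single v0 1 : V → ZMod 2)}) ≤ 1 := by
    refine (finrank_span_le_card _).trans ?_
    simp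
  omega

private theorem C4b_exact : LinearMap.range (C4b_DM S).mulVecLin =
    LinearMap.ker (C4b_EM S).mulVecLin := by
  have hle : LinearMap.range (C4b_DM S).mulVecLin ≤ LinearMap.ker (C4b_EM S).mulVecLin := by
    rintro _ ⟨X, rfl⟩
    rw [LinearMap.mem_ker, Matrix.mulVecLin_apply, Matrix.mulVecLin_apply, Matrix.mulVec_mulVec,
      C4b_ED, Matrix.zero_mulVec]
  refine Submodule.eq_of_le_of_finrank_le hle ?_
  have h1 := LinearMap.finrank_range_add_finrank_ker (C4b_DM S).mulVecLin
  have h2 := LinearMap.finrank_range_add_finrank_ker (C4b_EM S).mulVecLin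
  rw [Module.finrank_fintype_fun_eq_card] at h1 h2
  have h3 : Module.finrank (ZMod 2) (LinearMap.ker (C4b_DM S).mulVecLin) ≤ 1 := by
    have h4 : LinearMap.ker (C4b_DM S).mulVecLin ≤
        Submodule.span (ZMod 2) {(fun _ => 1 : S.Fc → ZMod 2)} := by
      intro X hX
      rw [LinearMap.mem_ker, Matrix.mulVecLin_apply] at hX
      have h5 := C4b_ker S X hX
      rw [Submodule.mem_span_singleton]
      rcases isEmpty_or_nonempty S.Fc with hF | ⟨⟨σ0⟩⟩
      · exact ⟨0, funext fun σ => (hF.false σ).elim⟩
      · refine ⟨X σ0, funext fun σ => ?_⟩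
        rw [Pi.smul_apply, smul_eq_mul, mul_one]
        exact h5 σ0 σ
    refine (Submodule.finrank_mono h4).trans ((finrank_span_le_card _).trans ?_)
    simp
  have h4 := S.card_Fc
  have h5 := S.card_Ed
  have h6 := C4b_rank_E S
  omega

/-- the edge function -/
private noncomputable def C4b_z (z : V → V → ZMod 2) (e : S.Ed) : ZMod 2 :=
  z e.2.choose e.2.choose_spec.choose

private theorem C4b_z_ed (z : V → V → ZMod 2) (hsym : ∀ u v, z u v = z v u) {u v : V}
    (h : S.Adj u v) : C4b_z S z (C4b_ed S h) = z u v := by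
  obtain ⟨a, b, hab, hm, hz⟩ : ∃ a b : V, S.Adj a b ∧
      (∀ x, x ∈ (C4b_ed S h).1 ↔ (x = a ∨ x = b)) ∧ C4b_z S z (C4b_ed S h) = z a b :=
    ⟨_, _, (C4b_ed S h).2.choose_spec.choose_spec.1,
      (C4b_ed S h).2.choose_spec.choose_spec.2, rfl⟩
  rw [hz]
  have hne := C4b_adj_ne S hab
  have h1 : a ∈ (C4b_ed S h).1 := (hm a).2 (Or.inl rfl)
  have h2 : b ∈ (C4b_ed S h).1 := (hm b).2 (Or.inr rfl)
  rw [C4b_ed_val] at h1 h2
  simp only [Finset.mem_insert, Finset.mem_singleton] at h1 h2
  rcases h1 with h1 | h1 <;> rcases h2 with h2 | h2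
  · exact absurd (h1.trans h2.symm) hne
  · rw [h1, h2]
  · rw [h1, h2, hsym]
  · exact absurd (h1.trans h2.symm) hne

private theorem C4b_z_ker (z : V → V → ZMod 2) (hsym : ∀ u v, z u v = z v u)
    (hsupp : ∀ u v, z u v ≠ 0 → S.Adj u v) (hdiv : ∀ u, ∑ v, z u v = 0) :
    (C4b_EM S).mulVec (C4b_z S z) = 0 := by
  ext v
  rw [Pi.zero_apply, ← hdiv v, Matrix.mulVec, dotProduct]
  have h1 : ∑ e : S.Ed, C4b_EM S v e * C4b_z S z e =
      ∑ e ∈ Finset.univ.filter (fun e : S.Ed => v ∈ e.1), C4b_z S z e := by
    rw [Finset.sum_filter]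
    refine Finset.sum_congr rfl fun e _ => ?_
    unfold C4b_EM
    split_ifs <;> simp
  have h2 : ∑ w, z v w = ∑ w ∈ Finset.univ.filter (fun w => S.Adj v w), z v w := by
    rw [Finset.sum_filter]
    refine Finset.sum_congr rfl fun w _ => ?_
    split_ifs with hw
    · rfl
    · by_contra hz
      exact hw (hsupp v w hz)
  rw [h1, h2]
  symm
  refine Finset.sum_bij (fun w hw => C4b_ed S (Finset.mem_filter.1 hw).2) ?_ ?_ ?_ ?_
  · intro w hw
    rw [Finset.mem_filter, C4b_ed_val]
    simp
  · intro w hw w' hw' he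
    have ha := C4b_adj_ne S (Finset.mem_filter.1 hw).2
    have h3 : w ∈ (C4b_ed S (Finset.mem_filter.1 hw').2).1 := by
      rw [← he, C4b_ed_val]
      simp
    rw [C4b_ed_val] at h3
    simp only [Finset.mem_insert, Finset.mem_singleton] at h3
    rcases h3 with h3 | h3
    · exact absurd h3.symm ha
    · exact h3
  · intro e he
    have hv := (Finset.mem_filter.1 he).2
    obtain ⟨a, b, hab, hm⟩ := e.2
    rcases (hm v).1 hv with rfl | rfl
    · refine ⟨b, Finset.mem_filter.2 ⟨Finset.mem_univ _, hab⟩, Subtype.ext ?_⟩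
      ext x
      rw [C4b_ed_val, hm]
      simp
    · refine ⟨a, Finset.mem_filter.2 ⟨Finset.mem_univ _, S.adj_symm hab⟩, Subtype.ext ?_⟩
      ext x
      rw [C4b_ed_val, hm]
      simp only [Finset.mem_insert, Finset.mem_singleton]
      tauto
  · intro w hw
    exact (C4b_z_ed S z hsym _).symm

end

theorem Sph.fill (z : V → V → ZMod 2) (hsym : ∀ u v, z u v = z v u)
    (hsupp : ∀ u v, z u v ≠ 0 → S.Adj u v) (hdiv : ∀ u, ∑ v, z u v = 0) :
    ∃ X : V → V → V → ZMod 2, (∀ u v w : V, X u v w = X v w u) ∧
      ∀ u v w w' : V, S.T u v w → S.T v u w' → z u v = X u v w + X v u w' := by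
  classical
  have h1 : C4b_z S z ∈ LinearMap.range (C4b_DM S).mulVecLin := by
    rw [C4b_exact, LinearMap.mem_ker, Matrix.mulVecLin_apply]
    exact C4b_z_ker S z hsym hsupp hdiv
  obtain ⟨X, hX⟩ := h1
  rw [Matrix.mulVecLin_apply] at hX
  refine ⟨fun u v w => if h : S.T u v w then X (C4b_fc S h) else 0, ?_, ?_⟩
  · intro u v w
    by_cases h : S.T u v w
    · simp only []
      rw [dif_pos h, dif_pos (S.rot h)]
      congr 1
      apply Subtype.ext
      rw [C4b_fc_val, C4b_fc_val]
      ext y
      simp only [Finset.mem_insert, Finset.mem_singleton]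
      tauto
    · have h' : ¬ S.T v w u := fun h2 => h (S.rot2 h2)
      simp only []
      rw [dif_neg h, dif_neg h']
  · intro u v w w' h h'
    simp only []
    have hadj : S.Adj u v := ⟨w, h⟩
    rw [dif_pos h, dif_pos h', ← C4b_D_edge S X h h' hadj, hX, C4b_z_ed S z hsym]

end Pool.SX
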