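import Pool.Agent.Lib.MP_9dcace_sx.C2
set_option autoImplicit false

/-! Row C5. Consequences of a filling X of an even edge function z which vanishes at all removed
vertices. -/

namespace Pool.SX
open Relation
variable {V : Type} [Fintype V] (S : Sph V) {a0 a1 a2 : V} {W : Finset V}

private theorem C5_step {z : V → V → ZMod 2} {X : V → V → V → ZMod 2}
    (hrot : ∀ u v w : V, X u v w = X v w u)
    (hX : ∀ u v w w' : V, S.T u v w → S.T v u w' → z u v = X u v w + X v u w') {u x x' y : V}
    (h : S.T u x x') (h' : S.T u x' y) : X u x' y = z u x' + X u x x' := by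
  have h1 : S.T x' u x := S.rot (S.rot h)
  have h2 := hX u x' y x h' h1
  have h3 : X x' u x = X u x x' := hrot x' u x
  rw [h3] at h2
  rw [h2, add_assoc, CharTwo.add_self_eq_zero, add_zero]

private theorem C5_const {z : V → V → ZMod 2} {X : V → V → V → ZMod 2}
    (hrot : ∀ u v w : V, X u v w = X v w u)
    (hX : ∀ u v w w' : V, S.T u v w → S.T v u w' → z u v = X u v w + X v u w') {u : V}
    (hz : ∀ v, z u v = 0) {v w v' w' : V} (h : S.T u v w) (h' : S.T u v' w') :
    X u v' w' = X u v w := by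
  have hl := S.link h h'
  have key : ∀ v'' : V, ReflTransGen (fun x y => S.T u x y) v v'' →
      ∀ w'' : V, S.T u v'' w'' → X u v'' w'' = X u v w := by
    intro v'' hl''
    induction hl'' with
    | refl =>
      intro w'' h''
      rw [S.uniq h'' h]
    | tail hab hbc ih =>
      intro w'' h''
      rw [C5_step S hrot hX hbc h'', hz, zero_add]
      exact ih _ hbc
  exact key v' hl w' h'

theorem Sph.Good.fill_zero (hG : S.Good a0 a1 a2 W) (z : V → V → ZMod 2)
    (hzU : ∀ u, u ∉ W → ∀ v, z u v = 0)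
    (hX : ∃ X : V → V → V → ZMod 2, (∀ u v w : V, X u v w = X v w u) ∧
      ∀ u v w w' : V, S.T u v w → S.T v u w' → z u v = X u v w + X v u w') :
    ∃ X : V → V → V → ZMod 2, (∀ u v w : V, X u v w = X v w u) ∧
      (∀ u v w w' : V, S.T u v w → S.T v u w' → z u v = X u v w + X v u w') ∧
      ∀ u v w : V, u ∉ W → S.T u v w → X u v w = 0 := by
  obtain ⟨X, hrot, hX⟩ := hX
  obtain ⟨b, c, habc⟩ := S.cov a2
  have key : ∀ u : V, ReflTransGen (fun p q => S.Adj p q ∧ q ∉ W) a2 u →
      u ∉ W ∧ ∀ v w : V, S.T u v w → X u v w = X a2 b c := by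
    intro u hu
    induction hu with
    | refl =>
      exact ⟨hG.m2, fun v w h => C5_const S hrot hX (hzU a2 hG.m2) habc h⟩
    | tail hab hbc ih =>
      rename_i p q
      refine ⟨hbc.2, fun v w h => ?_⟩
      obtain ⟨r, hr⟩ := hbc.1
      have h1 := ih.2 _ _ hr
      have h2 : S.T q r p := S.rot hr
      have h3 := C5_const S hrot hX (hzU q hbc.2) h2 h
      rw [h3, ← h1]
      exact (hrot _ _ _).symm
  refine ⟨fun u v w => X u v w + X a2 b c, ?_, ?_, ?_⟩
  · intro u v w
    show X u v w + X a2 b c = X v w u + X a2 b c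
    rw [hrot u v w]
  · intro u v w w' h h'
    show z u v = X u v w + X a2 b c + (X v u w' + X a2 b c)
    rw [hX u v w w' h h']
    have h2 : X a2 b c + X a2 b c = 0 := CharTwo.add_self_eq_zero _
    have h3 : X u v w + X a2 b c + (X v u w' + X a2 b c) =
        X u v w + X v u w' + (X a2 b c + X a2 b c) := by ring
    rw [h3, h2, add_zero]
  · intro u v w hu h
    have h1 := (key u (hG.i5 a2 hG.m2 u hu)).2 v w h
    show X u v w + X a2 b c = 0
    rw [h1]
    exact CharTwo.add_self_eq_zero _

theorem Sph.star_zero {z : V → V → ZMod 2} {X : V → V → V → ZMod 2}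
    (hrot : ∀ u v w : V, X u v w = X v w u)
    (hX : ∀ u v w w' : V, S.T u v w → S.T v u w' → z u v = X u v w + X v u w')
    (h0 : ∀ u v w : V, u ∉ W → S.T u v w → X u v w = 0) {q : V} (hq : S.Cont W q)
    (hz : ∀ v, z q v = 0) {v w : V} (h : S.T q v w) : X q v w = 0 := by
  obtain ⟨_, u, hu, w0, hw0⟩ := hq
  rw [C5_const S hrot hX hz hw0 h, hrot]
  exact h0 _ _ _ hu (S.rot hw0)

set_option linter.unusedVariables false in
theorem Sph.Good.star_one (hG : S.Good a0 a1 a2 W) {z : V → V → ZMod 2}
    {X : V → V → V → ZMod 2} (hrot : ∀ u v w : V, X u v w = X v w u)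
    (hX : ∀ u v w w' : V, S.T u v w → S.T v u w' → z u v = X u v w + X v u w')
    (h0 : ∀ u v w : V, u ∉ W → S.T u v w → X u v w = 0) {s n p : V} (hs : S.Cont W s)
    (hs0 : s ≠ a0) (hs1 : s ≠ a1) (hn : S.Nxt W s n) (hp : S.Nxt W p s)
    (hzn : z s n = 1) (hzp : z s p = 1) (hz : ∀ v, v ≠ n → v ≠ p → z s v = 0)
    {v w : V} (h : S.T s v w) (hv : v ∈ W) (hw : w ∈ W) : X s v w = 1 := by
  obtain ⟨hsW, u, hu, w0, hw0⟩ := hs
  have hz1 : ∀ x y : V, S.T s x y → x ∉ W → X s x y = 0 := by
    intro x y h1 h2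
    rw [hrot]
    exact h0 _ _ _ h2 (S.rot h1)
  have hz2 : ∀ x y : V, S.T s x y → y ∉ W → X s x y = 0 := by
    intro x y h1 h2
    rw [hrot, hrot]
    exact h0 _ _ _ h2 (S.rot (S.rot h1))
  have key : ∀ v : V, ReflTransGen (fun x y => S.T s x y) u v →
      ∀ w : V, S.T s v w → v ∈ W → w ∈ W → X s v w = 1 := by
    intro v hl
    induction hl with
    | refl =>
      intro w _ hv _
      exact absurd hv hu
    | tail hab hbc ih =>
      rename_i x x'
      intro y hy hx' hyW
      have e := C5_step S hrot hX hbc hy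
      by_cases hx : x ∈ W
      · have e1 : X s x x' = 1 := ih x' hbc hx hx'
        have e2 : z s x' = 0 := by
          refine hz x' ?_ ?_
          · intro hc
            obtain ⟨_, _, r, hr, hr'⟩ := hn
            rw [← hc] at hr'
            exact hr (S.uniq hr' hy ▸ hyW)
          · intro hc
            obtain ⟨_, _, r, hr, hr'⟩ := hp
            rw [← hc] at hr'
            have h5 : S.T x' s x := S.rot (S.rot hbc)
            exact hr (S.uniq hr' h5 ▸ hx)
        rw [e, e1, e2, zero_add]
      · have e1 : X s x x' = 0 := hz1 x x' hbc hx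
        have h5 : S.T x' s x := S.rot (S.rot hbc)
        have e2 : x' = p := Sph.Good.prv_uniq S hG ⟨hx', hsW, x, hx, h5⟩ hp
        rw [e, e1, add_zero, e2, hzp]
  exact key v (S.link hw0 h) w h hv hw

end Pool.SX
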