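import Pool.Agent.Lib.MP_9dcace_sx.T1

/-!
ROW T6 (maximum principle: all vertices lie in the standard triangle, 70-110 lines).
`min_principle`: f : V -> ℝ harmonic at the inner vertices for the positive weights wt and f >= 0 at the outer vertices; then f >= 0.
 Let m be the minimum of f over V and suppose m < 0.  Among the vertices v with f v = m choose one with r 0 v maximal.  v is inner
 (f v < 0).  In the harmonic identity at v all the terms f (out c v) - f v and f u - f v are >= 0 with positive weights, so all are 0,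
 in particular f (out 0 v) = m; but r 0 (out 0 v) > r 0 v (`Sch.out_pot`, file S1): contradiction.
`in_tri`: apply it to f = (p v).1, (p v).2, 1 - (p v).1 - (p v).2 (coordinates of `equi`; at a 0, a 1, a 2 the values are 0 or 1;
  an outer vertex is s.a k for some k: by definition of `inn`).
`ar_le`: points of the unit square: |ar| <= 2.
-/

set_option autoImplicit false

open Classical

namespace Pool.SX

variable {V F : Type} [Fintype V] [Fintype F]

theorem Sch.min_principle (s : Sch V F) (wt : Fin 3 → V → ℝ)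
    (hw : ∀ c v, s.inn v → 0 < wt c v) (f : V → ℝ)
    (hf : ∀ u, s.inn u → ∑ c, wt c u * (f (s.out c u) - f u) +
      (∑ c, ∑ v ∈ s.VI, if s.out c v = u then wt c v * (f v - f u) else 0) = 0)
    (h0 : ∀ k, 0 ≤ f (s.a k)) (v : V) : 0 ≤ f v := by
  by_contra hv
  push Not at hv
  obtain ⟨w0, -, hw0⟩ := Finset.exists_min_image Finset.univ f ⟨v, Finset.mem_univ v⟩
  obtain ⟨w, hwm, hwr⟩ := Finset.exists_max_image (Finset.univ.filter (fun u => f u = f w0))
    (s.r 0) ⟨w0, by simp⟩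
  have hfw : f w = f w0 := (Finset.mem_filter.1 hwm).2
  have hmin : ∀ u, f w ≤ f u := fun u => by rw [hfw]; exact hw0 u (Finset.mem_univ u)
  have hinn : s.inn w := by
    intro k hk
    have h1 := h0 k
    rw [← hk] at h1
    have h2 := hmin v
    linarith
  have hsum := hf w hinn
  have h1 : ∀ c ∈ (Finset.univ : Finset (Fin 3)), 0 ≤ wt c w * (f (s.out c w) - f w) :=
    fun c _ => mul_nonneg (hw c w hinn).le (sub_nonneg.2 (hmin _))
  have h2 : 0 ≤ ∑ c, ∑ v ∈ s.VI, if s.out c v = w then wt c v * (f v - f w) else 0 := by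
    refine Finset.sum_nonneg fun c _ => Finset.sum_nonneg fun u hu => ?_
    have hu' : s.inn u := (Finset.mem_filter.1 hu).2
    split_ifs with h
    · exact mul_nonneg (hw c u hu').le (sub_nonneg.2 (hmin _))
    · exact le_rfl
  have h3 : ∑ c, wt c w * (f (s.out c w) - f w) = 0 := by
    have h4 := Finset.sum_nonneg h1
    linarith
  have h4 := (Finset.sum_eq_zero_iff_of_nonneg h1).1 h3 0 (Finset.mem_univ _)
  rcases mul_eq_zero.1 h4 with h5 | h5
  · exact absurd h5 (hw 0 w hinn).ne'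
  · have h6 : s.out 0 w ∈ Finset.univ.filter (fun u => f u = f w0) := by
      rw [Finset.mem_filter]
      exact ⟨Finset.mem_univ _, by linarith⟩
    have h7 := hwr _ h6
    have h8 := (s.out_pot hinn 0).1
    linarith

theorem Sch.in_tri (s : Sch V F) {wt : Fin 3 → V → ℝ} {p : V → ℝ × ℝ} {lo hi A : ℝ}
    (hd : s.Drw wt p lo hi A) (v : V) :
    0 ≤ (p v).1 ∧ 0 ≤ (p v).2 ∧ (p v).1 + (p v).2 ≤ 1 := by
  have hw : ∀ c v, s.inn v → 0 < wt c v := fun c v h => lt_of_lt_of_le hd.lo_pos (hd.wlo c v h)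
  have e1 : ∀ u, s.inn u → ∑ c, wt c u * ((p (s.out c u)).1 - (p u).1) +
      (∑ c, ∑ v ∈ s.VI, if s.out c v = u then wt c v * ((p v).1 - (p u).1) else 0) = 0 := by
    intro u hu
    have h := congrArg Prod.fst (hd.equi u hu)
    simpa [Prod.fst_sum, apply_ite Prod.fst] using h
  have e2 : ∀ u, s.inn u → ∑ c, wt c u * ((p (s.out c u)).2 - (p u).2) +
      (∑ c, ∑ v ∈ s.VI, if s.out c v = u then wt c v * ((p v).2 - (p u).2) else 0) = 0 := by
    intro u hu
    have h := congrArg Prod.snd (hd.equi u hu)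
    simpa [Prod.snd_sum, apply_ite Prod.snd] using h
  have hk : ∀ k : Fin 3, 0 ≤ (p (s.a k)).1 ∧ 0 ≤ (p (s.a k)).2 ∧
      0 ≤ 1 - (p (s.a k)).1 - (p (s.a k)).2 := by
    intro k
    fin_cases k
    · show 0 ≤ (p (s.a 0)).1 ∧ 0 ≤ (p (s.a 0)).2 ∧ 0 ≤ 1 - (p (s.a 0)).1 - (p (s.a 0)).2
      rw [hd.p0]; norm_num
    · show 0 ≤ (p (s.a 1)).1 ∧ 0 ≤ (p (s.a 1)).2 ∧ 0 ≤ 1 - (p (s.a 1)).1 - (p (s.a 1)).2
      rw [hd.p1]; norm_num
    · show 0 ≤ (p (s.a 2)).1 ∧ 0 ≤ (p (s.a 2)).2 ∧ 0 ≤ 1 - (p (s.a 2)).1 - (p (s.a 2)).2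
      rw [hd.p2]; norm_num
  refine ⟨s.min_principle wt hw (fun v => (p v).1) e1 (fun k => (hk k).1) v,
    s.min_principle wt hw (fun v => (p v).2) e2 (fun k => (hk k).2.1) v, ?_⟩
  have h3 := s.min_principle wt hw (fun v => 1 - (p v).1 - (p v).2) (fun u hu => ?_)
    (fun k => (hk k).2.2) v
  · linarith
  · have h4 := e1 u hu
    have h5 := e2 u hu
    have h6 : ∑ c, wt c u * ((1 - (p (s.out c u)).1 - (p (s.out c u)).2) -
        (1 - (p u).1 - (p u).2)) = -(∑ c, wt c u * ((p (s.out c u)).1 - (p u).1)) -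
        ∑ c, wt c u * ((p (s.out c u)).2 - (p u).2) := by
      rw [← Finset.sum_neg_distrib, ← Finset.sum_sub_distrib]
      exact Finset.sum_congr rfl fun c _ => by ring
    have h7 : (∑ c, ∑ v ∈ s.VI, if s.out c v = u then
        wt c v * ((1 - (p v).1 - (p v).2) - (1 - (p u).1 - (p u).2)) else 0) =
        -(∑ c, ∑ v ∈ s.VI, if s.out c v = u then wt c v * ((p v).1 - (p u).1) else 0) -
        ∑ c, ∑ v ∈ s.VI, if s.out c v = u then wt c v * ((p v).2 - (p u).2) else 0 := by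
      rw [← Finset.sum_neg_distrib, ← Finset.sum_sub_distrib]
      refine Finset.sum_congr rfl fun c _ => ?_
      rw [← Finset.sum_neg_distrib, ← Finset.sum_sub_distrib]
      refine Finset.sum_congr rfl fun v _ => ?_
      split_ifs
      · ring
      · ring
    rw [h6, h7]
    linarith

/-- every vertex is on the left of (or on) the outer edges -/
theorem Sch.outer_left (s : Sch V F) {wt : Fin 3 → V → ℝ} {p : V → ℝ × ℝ} {lo hi A : ℝ}
    (hd : s.Drw wt p lo hi A) (v : V) (k : Fin 3) :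
    0 ≤ ar (p (s.a k)) (p (s.a (k + 1))) (p v) := by
  obtain ⟨h1, h2, h3⟩ := s.in_tri hd v
  fin_cases k
  · show 0 ≤ ar (p (s.a 0)) (p (s.a 1)) (p v)
    rw [hd.p0, hd.p1, ar]
    norm_num
    linarith
  · show 0 ≤ ar (p (s.a 1)) (p (s.a 2)) (p v)
    rw [hd.p1, hd.p2, ar]
    norm_num
    linarith
  · show 0 ≤ ar (p (s.a 2)) (p (s.a 0)) (p v)
    rw [hd.p2, hd.p0, ar]
    norm_num
    linarith

theorem ar_le (x y z : ℝ × ℝ) (hx : 0 ≤ x.1 ∧ 0 ≤ x.2 ∧ x.1 + x.2 ≤ 1)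
    (hy : 0 ≤ y.1 ∧ 0 ≤ y.2 ∧ y.1 + y.2 ≤ 1) (hz : 0 ≤ z.1 ∧ 0 ≤ z.2 ∧ z.1 + z.2 ≤ 1) :
    |ar x y z| ≤ 2 := by
  have key : ∀ a b : ℝ, |a| ≤ 1 → |b| ≤ 1 → |a * b| ≤ 1 := by
    intro a b ha hb
    rw [abs_mul]
    exact mul_le_one₀ ha (abs_nonneg _) hb
  have h1 : |y.1 - x.1| ≤ 1 := abs_le.2 ⟨by linarith, by linarith⟩
  have h2 : |z.2 - x.2| ≤ 1 := abs_le.2 ⟨by linarith, by linarith⟩
  have h3 : |y.2 - x.2| ≤ 1 := abs_le.2 ⟨by linarith, by linarith⟩
  have h4 : |z.1 - x.1| ≤ 1 := abs_le.2 ⟨by linarith, by linarith⟩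
  have h5 := abs_le.1 (key _ _ h1 h2)
  have h6 := abs_le.1 (key _ _ h3 h4)
  rw [ar, abs_le]
  constructor <;> linarith [h5.1, h5.2, h6.1, h6.2]

end Pool.SX
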