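import Pool.Agent.Lib.MP_9dcace_sx.F1

/-!
ROW F4 (pivot lemma, 60-100 lines).
PROOF. K' := KM om (I.erase z) is invertible (det = DF > 0 by F1). Let h be the vector with K' *ᵥ h = e_z
(h z = 1, h = 0 off I, lap om h v = 0 for v ∈ I, v ≠ z). KM om I is K' with the row z replaced by lapRow om z.
Cramer: det (KM om I) = det (K'.updateRow z (lapRow om z)) = det K' * (lapRow om z · h)
(write lapRow om z as a combination of the rows of K'; the coefficient of the row z is lapRow om z · h;
or: KM om I *ᵥ h = c e_z ... and det(KM om I) * h z = det of (KM om I with column z replaced by c e_z) = c * det K'-minor;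
use `Matrix.cramer` / `Matrix.det_updateRow_smul` etc.).  c := lap om h z.
Green (om symmetric): for all x, y: ∑ v, y v * lap om x v = (1/2) ∑ u, ∑ v, om u v (x u - x v)(y u - y v).
En h = ∑ v h v * lap om h v = h z * lap om h z = c. For x = 0 off I, x z = 1: the mixed form of h and x is
∑ v x v lap om h v = c; En x = En (x - h) + 2 (mixed of h, x - h) + En h = En (x-h) + En h ≥ c (om ≥ 0).
-/

set_option autoImplicit false

open Classical

namespace Pool.SX

variable {V : Type} [Fintype V]

private theorem lapRow_dot (om : V → V → ℝ) (x : V → ℝ) (v : V) :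
    ∑ w, lapRow om v w * x w = lap om x v := by
  unfold lapRow lap
  simp only [Finset.sum_mul]
  rw [Finset.sum_comm]
  refine Finset.sum_congr rfl fun u _ => ?_
  simp only [mul_assoc]
  rw [← Finset.mul_sum]
  congr 1
  simp [sub_mul, Finset.sum_sub_distrib]

/-- mixed Green formula -/
private theorem green (om : V → V → ℝ) (hs : ∀ u v, om u v = om v u) (x y : V → ℝ) :
    ∑ u, ∑ v, om u v * ((x u - x v) * (y u - y v)) = 2 * ∑ v, y v * lap om x v := by
  have h1 : ∑ u, ∑ v, om u v * ((x u - x v) * (y u - y v)) =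
      ∑ u, ∑ v, om u v * ((x u - x v) * y u) + ∑ u, ∑ v, om u v * ((x v - x u) * y v) := by
    rw [← Finset.sum_add_distrib]
    refine Finset.sum_congr rfl fun u _ => ?_
    rw [← Finset.sum_add_distrib]
    refine Finset.sum_congr rfl fun v _ => ?_
    ring
  have h2 : ∑ u, ∑ v, om u v * ((x v - x u) * y v) = ∑ u, ∑ v, om u v * ((x u - x v) * y u) := by
    rw [Finset.sum_comm]
    refine Finset.sum_congr rfl fun u _ => Finset.sum_congr rfl fun v _ => ?_
    rw [hs]
  have h3 : ∑ u, ∑ v, om u v * ((x u - x v) * y u) = ∑ v, y v * lap om x v := by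
    refine Finset.sum_congr rfl fun u _ => ?_
    unfold lap
    rw [Finset.mul_sum]
    refine Finset.sum_congr rfl fun v _ => ?_
    ring
  rw [h1, h2, h3]
  ring

private theorem En_eq (om : V → V → ℝ) (hs : ∀ u v, om u v = om v u) (x : V → ℝ) :
    En om x = ∑ v, x v * lap om x v := by
  have h := green om hs x x
  unfold En
  have h1 : ∑ u, ∑ v, om u v * (x u - x v) ^ 2 =
      ∑ u, ∑ v, om u v * ((x u - x v) * (x u - x v)) := by
    refine Finset.sum_congr rfl fun u _ => Finset.sum_congr rfl fun v _ => ?_
    ring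
  rw [h1, h]
  ring

private theorem En_nonneg (om : V → V → ℝ) (h0 : ∀ u v, 0 ≤ om u v) (x : V → ℝ) :
    0 ≤ En om x :=
  mul_nonneg (by norm_num) (Finset.sum_nonneg fun u _ => Finset.sum_nonneg fun v _ =>
    mul_nonneg (h0 u v) (sq_nonneg _))

private theorem En_split (om : V → V → ℝ) (hs : ∀ u v, om u v = om v u) (h d : V → ℝ) :
    En om (fun v => h v + d v) = En om h + En om d + 2 * ∑ v, d v * lap om h v := by
  have h1 := green om hs h d
  unfold En
  have h2 : ∑ u, ∑ v, om u v * ((h u + d u) - (h v + d v)) ^ 2 =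
      ∑ u, ∑ v, om u v * (h u - h v) ^ 2 + ∑ u, ∑ v, om u v * (d u - d v) ^ 2 +
        2 * ∑ u, ∑ v, om u v * ((h u - h v) * (d u - d v)) := by
    rw [Finset.mul_sum, ← Finset.sum_add_distrib, ← Finset.sum_add_distrib]
    refine Finset.sum_congr rfl fun u _ => ?_
    rw [Finset.mul_sum, ← Finset.sum_add_distrib, ← Finset.sum_add_distrib]
    refine Finset.sum_congr rfl fun v _ => ?_
    ring
  rw [h2, h1]
  ring

theorem DF_pivot (om : V → V → ℝ) (hs : ∀ u v, om u v = om v u) (h0 : ∀ u v, 0 ≤ om u v)
    (I : Finset V) (z : V) (hz : z ∈ I) (hD : 0 < DF om (I.erase z)) (x : V → ℝ)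
    (hx0 : ∀ v, v ∉ I → x v = 0) (hx1 : x z = 1) :
    DF om I ≤ DF om (I.erase z) * En om x := by
  set K' : Matrix V V ℝ := KM om (I.erase z) with hK'
  have hdet : K'.det = DF om (I.erase z) := (DF_eq_det om (I.erase z)).symm
  have hne : K'.det ≠ 0 := by rw [hdet]; exact hD.ne'
  set h : V → ℝ := fun w => (K'.det)⁻¹ * K'.adjugate w z with hh
  have hKh : ∀ v, ∑ w, K' v w * h w = if v = z then 1 else 0 := by
    intro v
    have h1 := congrFun (congrFun (Matrix.mul_adjugate K') v) z
    rw [Matrix.mul_apply, Matrix.smul_apply, Matrix.one_apply] at h1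
    have h2 : ∑ w, K' v w * h w = (K'.det)⁻¹ * ∑ w, K' v w * K'.adjugate w z := by
      rw [Finset.mul_sum]
      refine Finset.sum_congr rfl fun w _ => ?_
      simp only [hh]
      ring
    rw [h2, h1, smul_eq_mul, ← mul_assoc, inv_mul_cancel₀ hne, one_mul]
  have hrow_in : ∀ v ∈ I.erase z, lap om h v = 0 := by
    intro v hv
    have h1 := hKh v
    rw [if_neg (Finset.ne_of_mem_erase hv)] at h1
    rw [← lapRow_dot, ← h1]
    refine Finset.sum_congr rfl fun w _ => ?_
    simp only [hK', KM, Matrix.of_apply, if_pos hv]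
  have hrow_out : ∀ v, v ∉ I.erase z → h v = if v = z then 1 else 0 := by
    intro v hv
    rw [← hKh v]
    have h1 : ∀ w, K' v w = if w = v then 1 else 0 := by
      intro w
      simp only [hK', KM, Matrix.of_apply, if_neg hv]
    simp only [h1]
    simp
  have hz1 : h z = 1 := by
    rw [hrow_out z (Finset.notMem_erase z I), if_pos rfl]
  have hoff : ∀ v, v ∉ I → h v = 0 := by
    intro v hv
    rw [hrow_out v (fun h' => hv (Finset.mem_of_mem_erase h')), if_neg]
    rintro rfl
    exact hv hz
  -- the determinant of the bigger matrix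
  have hupd : KM om I = K'.updateRow z (lapRow om z) := by
    ext v w
    by_cases hv : v = z
    · subst hv
      rw [Matrix.updateRow_self]
      simp only [KM, Matrix.of_apply, if_pos hz]
    · rw [Matrix.updateRow_ne hv]
      simp only [hK', KM, Matrix.of_apply, Finset.mem_erase, hv, ne_eq, not_false_eq_true,
        true_and]
  have hdetI : DF om I = K'.det * lap om h z := by
    rw [DF_eq_det, hupd, ← Matrix.cramer_transpose_apply, Matrix.cramer_eq_adjugate_mulVec,
      ← Matrix.adjugate_transpose, Matrix.mulVec, dotProduct, ← lapRow_dot, Finset.mul_sum]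
    refine Finset.sum_congr rfl fun w _ => ?_
    rw [Matrix.transpose_apply]
    simp only [hh]
    field_simp
  -- energies
  have hEh : En om h = lap om h z := by
    rw [En_eq om hs, Finset.sum_eq_single z]
    · rw [hz1, one_mul]
    · intro v _ hv
      by_cases hvI : v ∈ I
      · rw [hrow_in v (Finset.mem_erase.2 ⟨hv, hvI⟩), mul_zero]
      · rw [hoff v hvI, zero_mul]
    · intro hc
      exact absurd (Finset.mem_univ z) hc
  have hEx : lap om h z ≤ En om x := by
    have h1 : x = fun v => h v + (x v - h v) := by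
      funext v
      ring
    have h2 : ∑ v, (x v - h v) * lap om h v = 0 := by
      refine Finset.sum_eq_zero fun v _ => ?_
      by_cases hvz : v = z
      · rw [hvz, hx1, hz1, sub_self, zero_mul]
      · by_cases hvI : v ∈ I
        · rw [hrow_in v (Finset.mem_erase.2 ⟨hvz, hvI⟩), mul_zero]
        · rw [hx0 v hvI, hoff v hvI, sub_self, zero_mul]
    rw [h1, En_split om hs h (fun v => x v - h v), h2, hEh]
    have := En_nonneg om h0 (fun v => x v - h v)
    linarith
  rw [hdetI, ← hdet]
  exact mul_le_mul_of_nonneg_left hEx (by rw [hdet]; exact hD.le)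

end Pool.SX
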