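import Pool.Agent.Lib.MP_9dcace_sx.S2

/-!
ROW F3a (sign sum).
Let γ x y = 0 if x = y, 1/3 if y = x + 1, -1/3 if y = x + 2 (Fin 3). The determinant of the 0-1 matrix of three colours
(x,y,z) is γ x y + γ y z + γ z x. Apply `sum_flags` to φ g k = γ (col (t k g)) (col (t (k+1) g)).
-/

set_option autoImplicit false

open Classical

namespace Pool.SX.Sch

variable {V F : Type} [Fintype V] [Fintype F] (s : Sch V F)

/-- `u v` is an edge which is not an outer edge -/
def Edge (u v : V) : Prop := (∃ c, s.inn u ∧ v = s.out c u) ∨ (∃ c, s.inn v ∧ u = s.out c v)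

private noncomputable def F3a_gam (x y : Fin 3) : ℝ :=
  if x = y then 0 else if y = x + 1 then 1 / 3 else -1 / 3

private theorem F3a_anti (x y : Fin 3) : F3a_gam x y + F3a_gam y x = 0 := by
  unfold F3a_gam
  fin_cases x <;> fin_cases y <;> simp <;> norm_num

private theorem F3a_next (k : Fin 3) : F3a_gam k (k + 1) = 1 / 3 := by
  unfold F3a_gam
  fin_cases k <;> simp

private theorem F3a_det3 (x y z : Fin 3) :
    (Matrix.of (fun j k => if (![x, y, z] : Fin 3 → Fin 3) j = k then (1 : ℝ) else 0) :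
      Matrix (Fin 3) (Fin 3) ℝ).det = F3a_gam x y + F3a_gam y z + F3a_gam z x := by
  rw [Matrix.det_fin_three]
  unfold F3a_gam
  fin_cases x <;> fin_cases y <;> fin_cases z <;> simp <;> norm_num

private theorem F3a_det (c : Fin 3 → Fin 3) :
    (Matrix.of (fun j k => if c j = k then (1 : ℝ) else 0) :
      Matrix (Fin 3) (Fin 3) ℝ).det = ∑ k, F3a_gam (c k) (c (k + 1)) := by
  have h : c = ![c 0, c 1, c 2] := by
    funext j
    fin_cases j <;> rfl
  have h1 := F3a_det3 (c 0) (c 1) (c 2)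
  rw [← h] at h1
  rw [h1, Fin.sum_univ_three]
  rfl

private theorem F3a_e1 : ∀ c : Fin 3, c + 2 + 1 = c := by decide

theorem sign_sum (col : V → Fin 3) (h : ∀ k, col (s.a k) = k) :
    ∑ g : F, (Matrix.of (fun j k => if col (s.t j g) = k then (1 : ℝ) else 0) :
      Matrix (Fin 3) (Fin 3) ℝ).det = 1 := by
  have h1 : ∀ g : F, (Matrix.of (fun j k => if col (s.t j g) = k then (1 : ℝ) else 0) :
      Matrix (Fin 3) (Fin 3) ℝ).det =
      ∑ k, F3a_gam (col (s.t k g)) (col (s.t (k + 1) g)) :=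
    fun g => F3a_det (fun j => col (s.t j g))
  rw [Finset.sum_congr rfl fun g _ => h1 g,
    s.sum_flags (fun g k => F3a_gam (col (s.t k g)) (col (s.t (k + 1) g)))]
  have h2 : ∀ c : Fin 3, ∑ v ∈ s.VI,
      (F3a_gam (col (s.t (c + 2) (s.gL c v))) (col (s.t (c + 2 + 1) (s.gL c v))) +
        F3a_gam (col (s.t c (s.gR c v))) (col (s.t (c + 1) (s.gR c v)))) = 0 := by
    intro c
    refine Finset.sum_eq_zero fun v hv => ?_
    have hv' : s.inn v := by
      unfold VI at hv
      exact (Finset.mem_filter.1 hv).2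
    rw [s.tL2 c v hv', F3a_e1, s.tL0 c v hv', s.tR0 c v hv', s.tR1 c v hv']
    exact F3a_anti _ _
  rw [Finset.sum_congr rfl fun c _ => h2 c]
  have h3 : ∀ k : Fin 3,
      F3a_gam (col (s.t k (s.o k))) (col (s.t (k + 1) (s.o k))) = 1 / 3 := by
    intro k
    rw [s.o0, s.o1, h, h]
    exact F3a_next k
  rw [Finset.sum_congr rfl fun k _ => h3 k]
  simp

end Pool.SX.Sch
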