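import Pool.Agent.Lib.MP_9dcace_sx.S1

/-!
ROW S8 (the faces around an inner vertex are connected, 60-100 lines).
The faces g with t c g = z: by the edge rule for index c (edge t c g, t (c+1) g; z inner so g ≠ o c) either g = gL (c+1) z or
w := t (c+1) g is inner and g = gR c w, out c w = t c (gR c w) = z; in the second case Q g ↔ Q (gL c w), t c (gL c w) = z and
t (c+2) (gL c w) = w so r (c+1) w < r (c+1) (t (c+1) (gL c w)): induction (potential r (c+1) of t (c+1) increases) gives
Q g ↔ Q (gL (c+1) z) for all g with t c g = z.  gR (c+2) z has t (c+3) = t c = z and gL (c+2) z has t (c+4) = t (c+1) = z: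
so Q (gL (c+1) z) ↔ Q (gR (c+2) z) ↔ Q (gL (c+2) z) : all three first faces agree.
-/

set_option autoImplicit false

open Classical

namespace Pool.SX.Sch

variable {V F : Type} [Fintype V] [Fintype F] (s : Sch V F)

private theorem s8_ne : ∀ c : Fin 3, c + 2 ≠ c + 1 := by decide
private theorem s8_add : ∀ c : Fin 3, c + 2 + 1 = c := by decide

private theorem s8_ind {z : V} (hz : s.inn z) (Q : F → Prop)
    (hin : ∀ c v, s.inn v → s.out c v = z → (Q (s.gL c v) ↔ Q (s.gR c v))) (c : Fin 3) :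
    ∀ (n : ℕ) (g : F), s.t c g = z →
      (Finset.univ.filter (fun v => s.r (c + 1) (s.t (c + 1) g) < s.r (c + 1) v)).card ≤ n →
      (Q g ↔ Q (s.gL (c + 1) z)) := by
  intro n
  induction n with
  | zero =>
    intro g hg hn
    rcases s.edge g c with h | ⟨h1, h2⟩ | ⟨h1, h2⟩
    · exact absurd (by rw [← hg, h, s.o0] : z = s.a c) (hz c)
    · rw [hg] at h2
      rw [← h2]
    · exfalso
      have hL2 := s.tL2 c (s.t (c + 1) g) h1
      have hp := s.pot (s.gL c (s.t (c + 1) g)) (c + 1) (c + 2) (s8_ne c)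
      rw [hL2] at hp
      rw [Nat.le_zero, Finset.card_eq_zero] at hn
      have hm : s.t (c + 1) (s.gL c (s.t (c + 1) g)) ∈
          Finset.univ.filter (fun v => s.r (c + 1) (s.t (c + 1) g) < s.r (c + 1) v) := by
        rw [Finset.mem_filter]
        exact ⟨Finset.mem_univ _, hp⟩
      rw [hn] at hm
      exact absurd hm (Finset.notMem_empty _)
  | succ n ih =>
    intro g hg hn
    rcases s.edge g c with h | ⟨h1, h2⟩ | ⟨h1, h2⟩
    · exact absurd (by rw [← hg, h, s.o0] : z = s.a c) (hz c)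
    · rw [hg] at h2
      rw [← h2]
    · have hL2 := s.tL2 c (s.t (c + 1) g) h1
      have hL0 := s.tL0 c (s.t (c + 1) g) h1
      have hR0 := s.tR0 c (s.t (c + 1) g) h1
      have hout : s.out c (s.t (c + 1) g) = z := by
        rw [← h2, hg] at hR0
        exact hR0.symm
      have hp := s.pot (s.gL c (s.t (c + 1) g)) (c + 1) (c + 2) (s8_ne c)
      rw [hL2] at hp
      have h3 := hin c (s.t (c + 1) g) h1 hout
      rw [← h2] at h3
      rw [← h3]
      refine ih _ (hL0.trans hout) ?_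
      refine Nat.lt_succ_iff.mp (lt_of_lt_of_le (Finset.card_lt_card ?_) hn)
      rw [Finset.ssubset_iff_of_subset]
      · refine ⟨s.t (c + 1) (s.gL c (s.t (c + 1) g)), ?_, ?_⟩
        · rw [Finset.mem_filter]
          exact ⟨Finset.mem_univ _, hp⟩
        · rw [Finset.mem_filter]
          exact fun h => lt_irrefl _ h.2
      · intro v hv
        rw [Finset.mem_filter] at hv ⊢
        exact ⟨hv.1, hp.trans hv.2⟩

theorem star_const {z : V} (hz : s.inn z) (Q : F → Prop)
    (hout : ∀ c, Q (s.gL c z) ↔ Q (s.gR c z))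
    (hin : ∀ c v, s.inn v → s.out c v = z → (Q (s.gL c v) ↔ Q (s.gR c v)))
    (g g' : F) (hg : s.Inc z g) (hg' : s.Inc z g') : Q g ↔ Q g' := by
  have hA : ∀ (c : Fin 3) (g : F), s.t c g = z → (Q g ↔ Q (s.gL (c + 1) z)) :=
    fun c g h => s.s8_ind hz Q hin c _ g h le_rfl
  have hB : ∀ c : Fin 3, Q (s.gL (c + 1) z) ↔ Q (s.gL (c + 2) z) := by
    intro c
    have h1 := s.tR1 (c + 2) z hz
    have h2 : c + 2 + 1 = c := s8_add c
    rw [h2] at h1
    rw [← hA c _ h1]
    exact (hout (c + 2)).symm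
  have h01 : Q (s.gL 1 z) ↔ Q (s.gL 2 z) := hB 0
  have h12 : Q (s.gL 2 z) ↔ Q (s.gL 0 z) := hB 1
  have hC : ∀ c : Fin 3, Q (s.gL (c + 1) z) ↔ Q (s.gL 0 z) := by
    intro c
    fin_cases c
    · exact h01.trans h12
    · exact h12
    · exact Iff.rfl
  obtain ⟨j, hj⟩ := hg
  obtain ⟨j', hj'⟩ := hg'
  rw [hA j g hj, hA j' g' hj', hC j, hC j']

end Pool.SX.Sch
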