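import Pool.Agent.Lib.MP_9dcace_sx.R1
import Pool.Agent.Lib.MP_9dcace_sx.F3a
import Pool.Agent.Lib.MP_9dcace_sx.S8

/-!
ROW R3 (decomposition of a region by the three paths from y, 100-140 lines).
* `kid_In`: let k be the index with gL c v ∈ S k y; if gR c v ∉ S k y then `crossL` gives c = k+1 and Pth c y v.
* `In_kid`: if Pth c y v then `pathcross`: gL ∈ S (c+2) y, gR ∈ S (c+1) y, but both are in S k y: contradiction with `part`.
* `IR_kid_of`: `star_const` at z with Q g := g ∈ S k y, k the index of one face at z.  For an edge (c,v) at z (v = z or out c v = z):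
  if the two sides differ, then `crossL`/`crossR` give Pth c y v, and then Pth c y z (v = z, or z = out c v one step further).
* `IR_kid_sub`: Pth j y z: `pathcross` j z, both faces contain z (tL2, tR1), both in S k y: contradiction.
* `VR_kid`: if z ∈ IR R and no path contains it then z ∈ IR (kid l y R) for some l and a face at z is in kid k y R; so l = k.
-/

set_option autoImplicit false

open Classical

namespace Pool.SX.SchS

variable {V F : Type} [Fintype V] [Fintype F] (s : SchS V F)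

theorem R3_mem_kid {R : Finset F} {k : Fin 3} {y : V} {g : F} :
    g ∈ s.kid k y R ↔ g ∈ s.S k y ∧ g ∈ R := by
  unfold kid
  exact Finset.mem_inter

theorem R3_uniq {k l : Fin 3} {y : V} {g : F} (h : g ∈ s.S k y) (h' : g ∈ s.S l y) : k = l :=
  (s.part y g).unique h h'

theorem R3_mem_IR {R : Finset F} {z : V} : z ∈ s.IR R ↔ s.inn z ∧ ∀ g, s.Inc z g → g ∈ R := by
  unfold IR
  simp

theorem R3_mem_VR {R : Finset F} {z : V} : z ∈ s.VR R ↔ ∃ g ∈ R, s.Inc z g := by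
  unfold VR
  simp

theorem R3_incL {c : Fin 3} {v : V} (hv : s.inn v) : s.Inc v (s.gL c v) := ⟨c + 2, s.tL2 c v hv⟩

theorem R3_incL' {c : Fin 3} {v : V} (hv : s.inn v) : s.Inc (s.out c v) (s.gL c v) :=
  ⟨c, s.tL0 c v hv⟩

theorem R3_incR {c : Fin 3} {v : V} (hv : s.inn v) : s.Inc v (s.gR c v) := ⟨c + 1, s.tR1 c v hv⟩

theorem R3_incR' {c : Fin 3} {v : V} (hv : s.inn v) : s.Inc (s.out c v) (s.gR c v) :=
  ⟨c, s.tR0 c v hv⟩

theorem R3_ne (c : Fin 3) : c + 1 ≠ c + 2 := by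
  revert c
  decide

theorem kid_In {R : Finset F} {c : Fin 3} {y v : V} (h : s.In c v R) (hp : ¬ s.Pth c y v) :
    ∃ k, s.In c v (s.kid k y R) := by
  obtain ⟨hv, hL, hR⟩ := h
  obtain ⟨k, hk, _⟩ := s.part y (s.gL c v)
  refine ⟨k, hv, s.R3_mem_kid.2 ⟨hk, hL⟩, s.R3_mem_kid.2 ⟨?_, hR⟩⟩
  by_contra hn
  obtain ⟨h1, h2⟩ := s.crossL k c y v hv hk hn
  rw [← h1] at h2
  exact hp h2

theorem In_kid {R : Finset F} {c k : Fin 3} {y v : V} (h : s.In c v (s.kid k y R)) :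
    s.In c v R ∧ ¬ s.Pth c y v := by
  obtain ⟨hv, hL, hR⟩ := h
  obtain ⟨hL1, hL2⟩ := s.R3_mem_kid.1 hL
  obtain ⟨hR1, hR2⟩ := s.R3_mem_kid.1 hR
  refine ⟨⟨hv, hL2, hR2⟩, fun hp => ?_⟩
  obtain ⟨h1, h2⟩ := s.pathcross c y v hv hp
  exact R3_ne c ((s.R3_uniq h2 hR1).trans (s.R3_uniq hL1 h1))

theorem In_kid_unique {R : Finset F} {c k l : Fin 3} {y v : V} (h : s.In c v (s.kid k y R))
    (h' : s.In c v (s.kid l y R)) : k = l :=
  s.R3_uniq (s.R3_mem_kid.1 h.2.1).1 (s.R3_mem_kid.1 h'.2.1).1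

theorem IR_kid_of {R : Finset F} {y z : V} (h : z ∈ s.IR R) (hp : ∀ j, ¬ s.Pth j y z) :
    ∃ k, z ∈ s.IR (s.kid k y R) := by
  obtain ⟨hz, hR⟩ := s.R3_mem_IR.1 h
  obtain ⟨k, hk, _⟩ := s.part y (s.gL 0 z)
  refine ⟨k, s.R3_mem_IR.2 ⟨hz, fun g hg => s.R3_mem_kid.2 ⟨?_, hR g hg⟩⟩⟩
  have hcr : ∀ c v, s.inn v → (∀ j, ¬ s.Pth j y v) →
      (s.gL c v ∈ s.S k y ↔ s.gR c v ∈ s.S k y) := by
    intro c v hv hpv
    constructor
    · intro h1
      by_contra h2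
      exact hpv _ (s.crossL k c y v hv h1 h2).2
    · intro h1
      by_contra h2
      exact hpv _ (s.crossR k c y v hv h1 h2).2
  have hstar := s.toSch.star_const hz (fun g => g ∈ s.S k y) (fun c => hcr c z hz hp)
    (fun c v hv ho => by
      constructor
      · intro h1
        by_contra h2
        obtain ⟨h3, h4⟩ := s.crossL k c y v hv h1 h2
        rw [← h3] at h4
        exact hp c (Relation.ReflTransGen.tail h4 ⟨hv, ho.symm⟩)
      · intro h1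
        by_contra h2
        obtain ⟨h3, h4⟩ := s.crossR k c y v hv h1 h2
        rw [← h3] at h4
        exact hp c (Relation.ReflTransGen.tail h4 ⟨hv, ho.symm⟩))
    (s.gL 0 z) g (s.R3_incL hz) hg
  exact hstar.1 hk

theorem IR_kid_sub {R : Finset F} {k : Fin 3} {y z : V} (h : z ∈ s.IR (s.kid k y R)) :
    z ∈ s.IR R ∧ ∀ j, ¬ s.Pth j y z := by
  obtain ⟨hz, hR⟩ := s.R3_mem_IR.1 h
  refine ⟨s.R3_mem_IR.2 ⟨hz, fun g hg => (s.R3_mem_kid.1 (hR g hg)).2⟩, fun j hp => ?_⟩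
  obtain ⟨h1, h2⟩ := s.pathcross j y z hz hp
  have h3 := (s.R3_mem_kid.1 (hR _ (s.R3_incL (c := j) hz))).1
  have h4 := (s.R3_mem_kid.1 (hR _ (s.R3_incR (c := j) hz))).1
  exact R3_ne j ((s.R3_uniq h2 h4).trans (s.R3_uniq h3 h1))

theorem IR_kid_disj {R : Finset F} {k l : Fin 3} {y z : V} (h : z ∈ s.IR (s.kid k y R))
    (h' : z ∈ s.VR (s.kid l y R)) : k = l := by
  obtain ⟨g, hg, hi⟩ := s.R3_mem_VR.1 h'
  have h1 := (s.R3_mem_IR.1 h).2 g hi
  exact s.R3_uniq (s.R3_mem_kid.1 h1).1 (s.R3_mem_kid.1 hg).1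

theorem no_edge {R : Finset F} {k : Fin 3} {u v : V} (h : u ∈ s.IR R)
    (he : s.Edge u v) : v ∈ s.VR R := by
  obtain ⟨hu, hR⟩ := s.R3_mem_IR.1 h
  rcases he with ⟨c, _, rfl⟩ | ⟨c, hv, rfl⟩
  · exact s.R3_mem_VR.2 ⟨s.gL c u, hR _ (s.R3_incL hu), s.R3_incL' hu⟩
  · exact s.R3_mem_VR.2 ⟨s.gL c v, hR _ (s.R3_incL' hv), s.R3_incL hv⟩

theorem VR_kid {R : Finset F} {k : Fin 3} {y z : V} (h : z ∈ s.VR (s.kid k y R))
    (h' : z ∉ s.IR (s.kid k y R)) : z ∉ s.IR R ∨ ∃ j, s.Pth j y z := by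
  by_contra hc
  push Not at hc
  obtain ⟨l, hl⟩ := s.IR_kid_of hc.1 hc.2
  have hlk := s.IR_kid_disj hl h
  rw [hlk] at hl
  exact h' hl

/-- an edge at an interior vertex is interior -/
theorem In_of_IR {R : Finset F} {c : Fin 3} {v : V} (hv : s.inn v)
    (h : v ∈ s.IR R ∨ s.out c v ∈ s.IR R) : s.In c v R := by
  rcases h with h | h
  · have hR := (s.R3_mem_IR.1 h).2
    exact ⟨hv, hR _ (s.R3_incL hv), hR _ (s.R3_incR hv)⟩
  · have hR := (s.R3_mem_IR.1 h).2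
    exact ⟨hv, hR _ (s.R3_incL' hv), hR _ (s.R3_incR' hv)⟩

end Pool.SX.SchS
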