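import Pool.Agent.Lib.MP_9dcace_sx.W2
import Pool.Agent.Lib.MP_9dcace_sx.R3

/-!
ROW W3 (the weights of a region).  Hypothesis: wk k is zero off the edges interior to kid k y R.
-/

set_option autoImplicit false

open Classical

namespace Pool.SX.SchS

variable {V F : Type} [Fintype V] [Fintype F] (s : SchS V F)

private theorem W3_inj {R : Finset F} {y : V} {c : Fin 3} {i i' : ℕ}
    (hi : i < s.legN c y R) (hi' : i' < s.legN c y R) (h : s.lp c y i = s.lp c y i') : i = i' := by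
  rcases lt_trichotomy i i' with hlt | heq | hgt
  · have := s.leg_lt hlt hi'.le
    rw [h] at this
    exact absurd this (lt_irrefl _)
  · exact heq
  · have := s.leg_lt hgt hi.le
    rw [h] at this
    exact absurd this (lt_irrefl _)

private theorem W3_Pth {R : Finset F} {y : V} {c : Fin 3} {i : ℕ}
    (hi : i < s.legN c y R) : s.Pth c y (s.lp c y i) := by
  have := s.leg_Pth (j := c) (y := y) (R := R) (Nat.zero_le i) hi.le
  rwa [lp_zero] at this

theorem wtS_leg {R : Finset F} {y : V} {τ : ℝ} {wk : Fin 3 → Fin 3 → V → ℝ} {c : Fin 3} {i : ℕ}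
    (hi : i < s.legN c y R) : s.wtS R y τ wk c (s.lp c y i) = τ / s.rho R y c i := by
  have hex : ∃ i', i' < s.legN c y R ∧ s.lp c y i = s.lp c y i' := ⟨i, hi, rfl⟩
  have hfi : Nat.find hex = i := (s.W3_inj hi (Nat.find_spec hex).1 (Nat.find_spec hex).2).symm
  rw [wtS, dif_pos hex, hfi]

private theorem W3_not {R : Finset F} {y : V} {τ : ℝ} {wk : Fin 3 → Fin 3 → V → ℝ} {c : Fin 3}
    {v : V} (h : ¬ ∃ i, i < s.legN c y R ∧ v = s.lp c y i) :
    s.wtS R y τ wk c v = ∑ k, wk k c v := by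
  rw [wtS, dif_neg h]

theorem wtS_kid {R : Finset F} {y : V} {τ : ℝ} {wk : Fin 3 → Fin 3 → V → ℝ}
    (hw : ∀ k c v, ¬ s.In c v (s.kid k y R) → wk k c v = 0) {c k : Fin 3} {v : V}
    (h : s.In c v (s.kid k y R)) : s.wtS R y τ wk c v = wk k c v := by
  rw [s.W3_not]
  · apply Finset.sum_eq_single k
    · intro l _ hl
      apply hw
      intro h'
      exact hl (s.In_kid_unique h' h)
    · intro hk
      exact absurd (Finset.mem_univ k) hk
  · rintro ⟨i, hi, rfl⟩
    exact (s.In_kid h).2 (s.W3_Pth hi)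

theorem wtS_supp {R : Finset F} {y : V} {τ : ℝ} {wk : Fin 3 → Fin 3 → V → ℝ}
    (hw : ∀ k c v, ¬ s.In c v (s.kid k y R) → wk k c v = 0) {c : Fin 3} {v : V}
    (h : ¬ s.In c v R) : s.wtS R y τ wk c v = 0 := by
  rw [s.W3_not]
  · apply Finset.sum_eq_zero
    intro k _
    apply hw
    intro h'
    exact h (s.In_kid h').1
  · rintro ⟨i, hi, rfl⟩
    exact h (s.leg_In hi)

theorem wtS_lo {R : Finset F} {y : V} (hR : s.Reg R) (hy : y ∈ s.VR R) {τ : ℝ} (hτ : 0 < τ)
    {wk : Fin 3 → Fin 3 → V → ℝ} {d : ℕ}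
    (hw : ∀ k c v, ¬ s.In c v (s.kid k y R) → wk k c v = 0)
    (hl : ∀ k c v, s.In c v (s.kid k y R) → τ / 12 / 12 ^ d ≤ wk k c v) {c : Fin 3} {v : V}
    (h : s.In c v R) : τ / 12 ^ (d + 1) ≤ s.wtS R y τ wk c v := by
  by_cases hp : s.Pth c y v
  · obtain ⟨i, hi, rfl⟩ := s.leg_edges hR hy hp h
    rw [s.wtS_leg hi]
    have h1 := s.rho_le_one hR hy hi
    have h0 := s.rho_pos hR hy hi
    have h12 : (1 : ℝ) ≤ 12 ^ (d + 1) := one_le_pow₀ (by norm_num)
    exact div_le_div_of_nonneg_left hτ.le h0 (h1.trans h12)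
  · obtain ⟨k, hk⟩ := s.kid_In h hp
    rw [s.wtS_kid hw hk]
    have := hl k c v hk
    have he : τ / 12 ^ (d + 1) = τ / 12 / 12 ^ d := by
      rw [div_div, pow_succ']
    rw [he]
    exact this

theorem wtS_hi {R : Finset F} {y : V} (hR : s.Reg R) (hy : y ∈ s.VR R) {τ : ℝ} (hτ : 0 < τ)
    {wk : Fin 3 → Fin 3 → V → ℝ}
    (hw : ∀ k c v, ¬ s.In c v (s.kid k y R) → wk k c v = 0)
    (hl : ∀ k c v, s.In c v (s.kid k y R) → wk k c v ≤ τ / 12 * Fintype.card F)
    {c : Fin 3} {v : V} (h : s.In c v R) : s.wtS R y τ wk c v ≤ τ * Fintype.card F := by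
  have hF : (0 : ℝ) < (Fintype.card F : ℝ) := by
    have : 0 < Fintype.card F := Fintype.card_pos_iff.2 ⟨s.gL c v⟩
    exact_mod_cast this
  by_cases hp : s.Pth c y v
  · obtain ⟨i, hi, rfl⟩ := s.leg_edges hR hy hp h
    rw [s.wtS_leg hi]
    have h1 := s.rho_ge hR hy hi
    have h0 := s.rho_pos hR hy hi
    rw [div_le_iff₀ h0]
    rw [div_le_iff₀ hF] at h1
    nlinarith
  · obtain ⟨k, hk⟩ := s.kid_In h hp
    rw [s.wtS_kid hw hk]
    have h1 := hl k c v hk
    have h2 : 0 < τ * (Fintype.card F : ℝ) := mul_pos hτ hF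
    linarith

theorem enw_wtS {R : Finset F} {y : V} (hR : s.Reg R) (hy : y ∈ s.VR R) {τ : ℝ}
    {wk : Fin 3 → Fin 3 → V → ℝ}
    (hw : ∀ k c v, ¬ s.In c v (s.kid k y R) → wk k c v = 0) (x : V → ℝ) :
    s.enw (s.wtS R y τ wk) x =
      ∑ c, ∑ i ∈ Finset.range (s.legN c y R),
        τ / s.rho R y c i * (x (s.lp c y i) - x (s.lp c y (i + 1))) ^ 2 +
      ∑ k, s.enw (wk k) x := by
  have key : ∀ c : Fin 3, ∑ v ∈ s.VI, s.wtS R y τ wk c v * (x v - x (s.out c v)) ^ 2 =
      ∑ i ∈ Finset.range (s.legN c y R),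
        τ / s.rho R y c i * (x (s.lp c y i) - x (s.lp c y (i + 1))) ^ 2 +
      ∑ k, ∑ v ∈ s.VI, wk k c v * (x v - x (s.out c v)) ^ 2 := by
    intro c
    have hleg : ∀ v, v ∈ (Finset.range (s.legN c y R)).image (s.lp c y) ↔
        ∃ i, i < s.legN c y R ∧ v = s.lp c y i := by
      intro v
      rw [Finset.mem_image]
      constructor
      · rintro ⟨i, hi, h⟩
        exact ⟨i, Finset.mem_range.1 hi, h.symm⟩
      · rintro ⟨i, hi, h⟩
        exact ⟨i, Finset.mem_range.2 hi, h.symm⟩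
    have hsub : (Finset.range (s.legN c y R)).image (s.lp c y) ⊆ s.VI := by
      intro v hv
      obtain ⟨i, hi, rfl⟩ := (hleg v).1 hv
      exact Finset.mem_filter.2 ⟨Finset.mem_univ _, (s.leg_In hi).1⟩
    have hpt : ∀ v ∈ s.VI, s.wtS R y τ wk c v * (x v - x (s.out c v)) ^ 2 =
        (if v ∈ (Finset.range (s.legN c y R)).image (s.lp c y) then
          s.wtS R y τ wk c v * (x v - x (s.out c v)) ^ 2 else 0) +
        ∑ k, wk k c v * (x v - x (s.out c v)) ^ 2 := by
      intro v _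
      by_cases hv : v ∈ (Finset.range (s.legN c y R)).image (s.lp c y)
      · rw [if_pos hv]
        have h0 : ∑ k, wk k c v * (x v - x (s.out c v)) ^ 2 = 0 := by
          apply Finset.sum_eq_zero
          intro k _
          rw [hw k c v, zero_mul]
          intro h'
          obtain ⟨i, hi, rfl⟩ := (hleg v).1 hv
          exact (s.In_kid h').2 (s.W3_Pth hi)
        rw [h0, add_zero]
      · rw [if_neg hv, zero_add, s.W3_not (fun h => hv ((hleg v).2 h)), Finset.sum_mul]
    rw [Finset.sum_congr rfl hpt, Finset.sum_add_distrib]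
    congr 1
    · rw [← Finset.sum_filter, Finset.filter_mem_eq_inter, Finset.inter_eq_right.2 hsub,
        Finset.sum_image]
      · apply Finset.sum_congr rfl
        intro i hi
        rw [s.wtS_leg (Finset.mem_range.1 hi), lp_succ]
      · intro i hi i' hi' h
        exact s.W3_inj (R := R) (Finset.mem_range.1 (by simpa using hi))
          (Finset.mem_range.1 (by simpa using hi')) h
    · exact Finset.sum_comm
  simp only [Sch.enw]
  rw [Finset.sum_congr rfl (fun c _ => key c), Finset.sum_add_distrib]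
  congr 1
  exact Finset.sum_comm

/-- the weights at an interior vertex of a kid are those of the kid -/
theorem om_wtS {R : Finset F} {y : V} {τ : ℝ} {wk : Fin 3 → Fin 3 → V → ℝ}
    (hw : ∀ k c v, ¬ s.In c v (s.kid k y R) → wk k c v = 0) {k : Fin 3} {v : V}
    (hv : v ∈ s.IR (s.kid k y R)) (u : V) :
    s.om (s.wtS R y τ wk) v u = s.om (wk k) v u := by
  apply s.om_congr
  · intro c _ _
    exact s.wtS_kid hw (s.In_IR hv c)
  · intro c hu hvu
    apply s.wtS_kid hw
    apply s.In_of_IR hu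
    right
    rw [← hvu]
    exact hv

end Pool.SX.SchS
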