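import Pool.Agent.Lib.MP_9dcace_sx.F5
import Pool.Agent.Lib.MP_9dcace_sx.F4
import Pool.Agent.Lib.MP_9dcace_sx.W3

/-!
ROW W4c (positivity of D, abstract elimination of a path).
-/

set_option autoImplicit false

open Classical

namespace Pool.SX

private theorem W4c_fac {a b S : ℝ} (ha : 0 < a) (hb : 0 < b) (hS : S = a + b) :
    1 / a + 1 / b + 1 ≤ S * Real.exp a / (a * b) := by
  have h1 : 1 + a ≤ Real.exp a := by
    have := Real.add_one_le_exp a
    linarith
  rw [le_div_iff₀ (mul_pos ha hb), hS]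
  have h2 : (1 / a + 1 / b + 1) * (a * b) = a + b + a * b := by
    field_simp
    ring
  rw [h2]
  have h3 : (a + b) * (1 + a) ≤ (a + b) * Real.exp a :=
    mul_le_mul_of_nonneg_left h1 (by positivity)
  nlinarith

theorem prod_elim (m : ℕ) (hm : 0 < m) (ρ : ℕ → ℝ) (hρ : ∀ i, i < m → 0 < ρ i)
    (hs : ∑ i ∈ Finset.range m, ρ i = 1) :
    ∏ i ∈ Finset.range (m - 1), (1 / ρ i + 1 / (∑ i' ∈ Finset.Ico (i + 1) m, ρ i') + 1) ≤
      3 / ∏ i ∈ Finset.range m, ρ i := by
  obtain ⟨M, rfl⟩ : ∃ M, m = M + 1 := ⟨m - 1, by omega⟩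
  have hsig : ∀ i, i ≤ M → 0 < ∑ i' ∈ Finset.Ico i (M + 1), ρ i' := by
    intro i hi
    apply Finset.sum_pos
    · intro i' hi'
      exact hρ i' (Finset.mem_Ico.1 hi').2
    · exact ⟨i, Finset.mem_Ico.2 ⟨le_rfl, by omega⟩⟩
  have hstep : ∀ i, i ≤ M → ∑ i' ∈ Finset.Ico i (M + 1), ρ i' =
      ρ i + ∑ i' ∈ Finset.Ico (i + 1) (M + 1), ρ i' := by
    intro i hi
    exact Finset.sum_eq_sum_Ico_succ_bot (by omega) ρ
  have hpp : ∀ n, n ≤ M + 1 → 0 < ∏ i ∈ Finset.range n, ρ i := by
    intro n hn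
    apply Finset.prod_pos
    intro i hi
    exact hρ i (by have := Finset.mem_range.1 hi; omega)
  have key : ∀ n, n ≤ M →
      ∏ i ∈ Finset.range n, (1 / ρ i + 1 / (∑ i' ∈ Finset.Ico (i + 1) (M + 1), ρ i') + 1) ≤
      Real.exp (∑ i ∈ Finset.range n, ρ i) /
        ((∑ i' ∈ Finset.Ico n (M + 1), ρ i') * ∏ i ∈ Finset.range n, ρ i) := by
    intro n
    induction n with
    | zero =>
      intro _
      rw [Finset.prod_range_zero, Finset.sum_range_zero, Finset.prod_range_zero, Real.exp_zero,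
        mul_one, ← Finset.range_eq_Ico, hs]
      norm_num
    | succ n ih =>
      intro hn
      have ih' := ih (by omega)
      have hsn := hsig n (by omega)
      have hsn1 := hsig (n + 1) hn
      have hrn := hρ n (by omega)
      have hpn := hpp n (by omega)
      rw [Finset.prod_range_succ, Finset.sum_range_succ, Finset.prod_range_succ (fun i => ρ i),
        Real.exp_add]
      have hfac := W4c_fac hrn hsn1 (hstep n (by omega))
      have hfac0 : 0 ≤ 1 / ρ n + 1 / (∑ i' ∈ Finset.Ico (n + 1) (M + 1), ρ i') + 1 := by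
        positivity
      have hE := Real.exp_pos (∑ i ∈ Finset.range n, ρ i)
      refine (mul_le_mul ih' hfac hfac0 (by positivity)).trans (le_of_eq ?_)
      field_simp
  have hM := key M le_rfl
  have h1 : ∑ i' ∈ Finset.Ico M (M + 1), ρ i' = ρ M := by
    simp
  rw [h1] at hM
  have hprod := hpp (M + 1) le_rfl
  have hsum : ∑ i ∈ Finset.range M, ρ i ≤ 1 := by
    rw [Finset.sum_range_succ] at hs
    have := hρ M (by omega)
    linarith
  have hexp : Real.exp (∑ i ∈ Finset.range M, ρ i) ≤ 3 := by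
    have h2 := Real.exp_le_exp.2 hsum
    have h3 := Real.exp_one_lt_d9
    linarith
  rw [Nat.add_sub_cancel]
  refine hM.trans ?_
  rw [mul_comm (ρ M), ← Finset.prod_range_succ]
  exact div_le_div_of_nonneg_right hexp hprod.le

namespace SchS

variable {V F : Type} [Fintype V] [Fintype F] (s : SchS V F)

theorem DF_pos {R : Finset F} {wt : Fin 3 → V → ℝ} (hn : ∀ c v, s.inn v → 0 ≤ wt c v)
    (hp : ∀ c v, s.In c v R → 0 < wt c v) (I : Finset V) (hI : I ⊆ s.IR R) :
    0 < DF (s.om wt) I := by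
  have hinn : ∀ v ∈ I, s.inn v := fun v hv => (Finset.mem_filter.1 (hI hv)).2.1
  apply DF_pos_of (s.om wt) (s.om_nonneg wt hn) I (fun v => if v ∈ I then s.out 2 v else v)
  · rw [For, Finset.mem_filter]
    refine ⟨Finset.mem_univ _, ?_, ?_⟩
    · intro v hv
      exact if_neg hv
    · intro v
      by_contra hcon
      push Not at hcon
      have hmono : StrictMono
          (fun n : ℕ => s.r 2 ((fun v => if v ∈ I then s.out 2 v else v)^[n] v)) := by
        apply strictMono_nat_of_lt_succ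
        intro n
        have hstep : (fun v => if v ∈ I then s.out 2 v else v)^[n + 1] v =
            s.out 2 ((fun v => if v ∈ I then s.out 2 v else v)^[n] v) := by
          rw [Function.iterate_succ_apply']
          exact if_pos (hcon n)
        rw [hstep]
        exact (s.out_pot (hinn _ (hcon n)) 2).1
      have hinj : Function.Injective
          (fun n : ℕ => (fun v => if v ∈ I then s.out 2 v else v)^[n] v) := by
        intro a b hab
        apply hmono.injective
        exact congrArg (s.r 2) hab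
      exact not_injective_infinite_finite _ hinj
  · intro v hv
    have h1 : (if v ∈ I then s.out 2 v else v) = s.out 2 v := if_pos hv
    change 0 < s.om wt v (if v ∈ I then s.out 2 v else v)
    rw [h1]
    exact lt_of_lt_of_le (hp 2 v (s.In_IR (hI hv) 2)) (s.le_om wt hn 2 v (hinn v hv))

/-- the tripod and the kids -/
theorem IR_eq {R : Finset F} {y : V} :
    s.IR R = s.TT R y ∪ (s.IR (s.kid 0 y R) ∪ s.IR (s.kid 1 y R) ∪ s.IR (s.kid 2 y R)) := by
  ext v
  simp only [Finset.mem_union]
  constructor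
  · intro hv
    by_cases hp : ∃ j, s.Pth j y v
    · exact Or.inl (Finset.mem_filter.2 ⟨hv, hp⟩)
    · right
      push Not at hp
      obtain ⟨k, hk⟩ := s.IR_kid_of hv hp
      fin_cases k
      · exact Or.inl (Or.inl hk)
      · exact Or.inl (Or.inr hk)
      · exact Or.inr hk
  · rintro (h | (h | h) | h)
    · exact (Finset.mem_filter.1 h).1
    · exact (s.IR_kid_sub h).1
    · exact (s.IR_kid_sub h).1
    · exact (s.IR_kid_sub h).1

theorem TT_disj {R : Finset F} {y : V} (k : Fin 3) :
    Disjoint (s.TT R y) (s.IR (s.kid k y R)) := by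
  rw [Finset.disjoint_left]
  intro v hv hk
  obtain ⟨j, hj⟩ := (Finset.mem_filter.1 hv).2
  exact (s.IR_kid_sub hk).2 j hj

private theorem W4c_noedge {R : Finset F} {y : V} (wt : Fin 3 → V → ℝ) {k l : Fin 3}
    (hkl : k ≠ l) {u v : V} (hu : u ∈ s.IR (s.kid k y R)) (hv : v ∈ s.IR (s.kid l y R)) :
    s.om wt u v = 0 := by
  by_contra h
  have h1 := s.om_edge wt u v h
  have h2 := s.no_edge (k := k) hu h1
  exact hkl (s.IR_kid_disj hv h2).symm

private theorem W4c_disj {R : Finset F} {y : V} {k l : Fin 3} (hkl : k ≠ l) :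
    Disjoint (s.IR (s.kid k y R)) (s.IR (s.kid l y R)) := by
  rw [Finset.disjoint_left]
  intro v hv hv'
  exact hkl (s.IR_kid_disj hv (s.IR_sub_VR hv'))

/-- D of the union of the kids -/
theorem DF_kids {R : Finset F} {y : V} {τ : ℝ} {wk : Fin 3 → Fin 3 → V → ℝ}
    (hw : ∀ k c v, ¬ s.In c v (s.kid k y R) → wk k c v = 0) :
    DF (s.om (s.wtS R y τ wk))
        (s.IR (s.kid 0 y R) ∪ s.IR (s.kid 1 y R) ∪ s.IR (s.kid 2 y R)) =
      ∏ k, DF (s.om (wk k)) (s.IR (s.kid k y R)) := by
  have hcongr : ∀ k, DF (s.om (s.wtS R y τ wk)) (s.IR (s.kid k y R)) =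
      DF (s.om (wk k)) (s.IR (s.kid k y R)) := by
    intro k
    apply DF_congr
    intro v hv u
    exact s.om_wtS hw hv u
  rw [DF_union, DF_union, hcongr, hcongr, hcongr, Fin.prod_univ_three]
  · exact s.W4c_disj (by decide)
  · exact s.om_symm _
  · intro u hu v hv
    exact s.W4c_noedge _ (by decide) hu hv
  · rw [Finset.disjoint_union_left]
    exact ⟨s.W4c_disj (by decide), s.W4c_disj (by decide)⟩
  · exact s.om_symm _
  · intro u hu v hv
    rcases Finset.mem_union.1 hu with h | h
    · exact s.W4c_noedge _ (by decide) h hv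
    · exact s.W4c_noedge _ (by decide) h hv

end SchS

end Pool.SX
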