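import Pool.Agent.Lib.MP_9dcace_sx.F5

/-!
ROW F6 (composition of forests, 120-180 lines).
Combine τ (a forest on `T` which never enters `J`) and σ (a forest on `J`) to
π v := if v ∈ T then τ v else if v ∈ J then σ v else v.  It is a forest on T ∪ J: a vertex of J follows σ until it
leaves J; then it is off T ∪ J or in T and follows τ (never entering J) until it is off T, hence off T ∪ J.
W(π) = W(τ) W(σ), root π = root τ ∘ root σ.  The map (τ, σ) ↦ π is injective.
* `ZF_comp`: keep only the combined forests; all the terms are ≥ 0.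
* `ZF_union`: if there are no edges between J1 and J2 and the vertices `p j` are not in J2, then the forests of nonzero weight on J1 ∪ J2
  are the pairs and root π (p j) only depends on the forest on J1 (start in J1 or off J1 ∪ J2).
-/

set_option autoImplicit false

open Classical

namespace Pool.SX

variable {V : Type} [Fintype V]

private theorem F6_mem (I : Finset V) (π : V → V) :
    π ∈ For I ↔ (∀ v, v ∉ I → π v = v) ∧ ∀ v, ∃ n : ℕ, π^[n] v ∉ I := by
  simp only [For, Finset.mem_filter, Finset.mem_univ, true_and]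

/-- the combined map -/
private noncomputable def F6_comb (T J : Finset V) (τ σ : V → V) : V → V :=
  fun v => if v ∈ T then τ v else if v ∈ J then σ v else v

/-- the restricted map -/
private noncomputable def F6_res (J : Finset V) (π : V → V) : V → V :=
  fun v => if v ∈ J then π v else v

private theorem F6_iter {T J : Finset V} {τ σ : V → V} (hτ : τ ∈ For T)
    (hT : ∀ v ∈ T, τ v ∉ J) {v : V} (hv : v ∉ J) (n : ℕ) :
    τ^[n] v ∉ J ∧ (F6_comb T J τ σ)^[n] v = τ^[n] v := by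
  induction n with
  | zero => exact ⟨hv, rfl⟩
  | succ n ih =>
    rw [Function.iterate_succ_apply', Function.iterate_succ_apply', ih.2]
    by_cases h : τ^[n] v ∈ T
    · exact ⟨hT _ h, by rw [F6_comb, if_pos h]⟩
    · rw [((F6_mem T τ).1 hτ).1 _ h]
      exact ⟨ih.1, by rw [F6_comb, if_neg h, if_neg ih.1]⟩

private theorem F6_comb_mem {T J : Finset V} (hd : Disjoint T J) {τ σ : V → V} (hτ : τ ∈ For T)
    (hσ : σ ∈ For J) (hT : ∀ v ∈ T, τ v ∉ J) : F6_comb T J τ σ ∈ For (T ∪ J) := by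
  rw [F6_mem]
  refine ⟨fun v hv => ?_, fun v => ?_⟩
  · rw [Finset.mem_union, not_or] at hv
    rw [F6_comb, if_neg hv.1, if_neg hv.2]
  · have h1 : ∀ v, v ∉ J → ∃ n, (F6_comb T J τ σ)^[n] v ∉ T ∪ J := by
      intro v hv
      obtain ⟨n, hn⟩ := ((F6_mem T τ).1 hτ).2 v
      refine ⟨n, ?_⟩
      obtain ⟨h2, h3⟩ := F6_iter (σ := σ) hτ hT hv n
      rw [h3, Finset.mem_union, not_or]
      exact ⟨hn, h2⟩
    have h2 : ∀ n, ∀ v, σ^[n] v ∉ J → ∃ n, (F6_comb T J τ σ)^[n] v ∉ T ∪ J := by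
      intro n
      induction n with
      | zero => exact fun v hv => h1 v hv
      | succ n ih =>
        intro v hv
        by_cases h : v ∈ J
        · obtain ⟨m, hm⟩ := ih (σ v) hv
          refine ⟨m + 1, ?_⟩
          have h4 : v ∉ T := fun h5 => Finset.disjoint_left.1 hd h5 h
          rw [Function.iterate_succ_apply]
          have h5 : F6_comb T J τ σ v = σ v := by rw [F6_comb, if_neg h4, if_pos h]
          rw [h5]
          exact hm
        · exact h1 v h
    obtain ⟨n, hn⟩ := ((F6_mem J σ).1 hσ).2 v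
    exact h2 n v hn

private theorem F6_root {T J : Finset V} (hd : Disjoint T J) {τ σ : V → V} (hτ : τ ∈ For T)
    (hσ : σ ∈ For J) (hT : ∀ v ∈ T, τ v ∉ J) (v : V) :
    root (F6_comb T J τ σ) v = root τ (root σ v) := by
  have h1 : ∀ v, v ∉ J → root (F6_comb T J τ σ) v = root τ (root σ v) := by
    intro v hv
    rw [root_of_not_mem J σ hσ v hv]
    exact (F6_iter hτ hT hv _).2
  have h2 : ∀ n, ∀ v, σ^[n] v ∉ J → root (F6_comb T J τ σ) v = root τ (root σ v) := by
    intro n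
    induction n with
    | zero => exact fun v hv => h1 v hv
    | succ n ih =>
      intro v hv
      by_cases h : v ∈ J
      · have h4 : v ∉ T := fun h5 => Finset.disjoint_left.1 hd h5 h
        have h5 : F6_comb T J τ σ v = σ v := by rw [F6_comb, if_neg h4, if_pos h]
        rw [← root_step _ _ (F6_comb_mem hd hτ hσ hT) v, h5, ih (σ v) hv,
          root_step J σ hσ v]
      · exact h1 v h
  obtain ⟨n, hn⟩ := ((F6_mem J σ).1 hσ).2 v
  exact h2 n v hn

private theorem F6_WF (om : V → V → ℝ) {T J : Finset V} (hd : Disjoint T J) (τ σ : V → V) :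
    WF om (T ∪ J) (F6_comb T J τ σ) = WF om T τ * WF om J σ := by
  rw [WF, Finset.prod_union hd, WF, WF]
  congr 1
  · exact Finset.prod_congr rfl fun v hv => by rw [F6_comb, if_pos hv]
  · refine Finset.prod_congr rfl fun v hv => ?_
    have h4 : v ∉ T := fun h5 => Finset.disjoint_left.1 hd h5 hv
    rw [F6_comb, if_neg h4, if_pos hv]

private theorem F6_res_mem {J1 J2 : Finset V} {π : V → V} (h : π ∈ For J2) (hs : J1 ⊆ J2) :
    F6_res J1 π ∈ For J1 := by
  rw [F6_mem]
  refine ⟨fun v hv => by rw [F6_res, if_neg hv], fun v => ?_⟩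
  have h2 : ∀ n, ∀ v, π^[n] v ∉ J2 → ∃ n, (F6_res J1 π)^[n] v ∉ J1 := by
    intro n
    induction n with
    | zero => exact fun v hv => ⟨0, fun h3 => hv (hs h3)⟩
    | succ n ih =>
      intro v hv
      by_cases h : v ∈ J1
      · obtain ⟨m, hm⟩ := ih (π v) hv
        refine ⟨m + 1, ?_⟩
        rw [Function.iterate_succ_apply]
        have h5 : F6_res J1 π v = π v := by rw [F6_res, if_pos h]
        rw [h5]
        exact hm
      · exact ⟨0, h⟩
  obtain ⟨n, hn⟩ := ((F6_mem J2 π).1 h).2 v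
  exact h2 n v hn

private theorem F6_res_comb_left {T J : Finset V} {τ σ : V → V} (hτ : τ ∈ For T) :
    F6_res T (F6_comb T J τ σ) = τ := by
  funext v
  by_cases h : v ∈ T
  · rw [F6_res, if_pos h, F6_comb, if_pos h]
  · rw [F6_res, if_neg h, ((F6_mem T τ).1 hτ).1 v h]

private theorem F6_res_comb_right {T J : Finset V} (hd : Disjoint T J) {τ σ : V → V}
    (hσ : σ ∈ For J) : F6_res J (F6_comb T J τ σ) = σ := by
  funext v
  by_cases h : v ∈ J
  · have h4 : v ∉ T := fun h5 => Finset.disjoint_left.1 hd h5 h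
    rw [F6_res, if_pos h, F6_comb, if_neg h4, if_pos h]
  · rw [F6_res, if_neg h, ((F6_mem J σ).1 hσ).1 v h]

private theorem F6_comb_res {T J : Finset V} {π : V → V} (hπ : π ∈ For (T ∪ J)) :
    F6_comb T J (F6_res T π) (F6_res J π) = π := by
  funext v
  by_cases h : v ∈ T
  · rw [F6_comb, if_pos h, F6_res, if_pos h]
  · by_cases h2 : v ∈ J
    · rw [F6_comb, if_neg h, if_pos h2, F6_res, if_pos h2]
    · rw [F6_comb, if_neg h, if_neg h2, ((F6_mem _ π).1 hπ).1 v]
      rw [Finset.mem_union, not_or]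
      exact ⟨h, h2⟩

private theorem F6_WF_nonneg (om : V → V → ℝ) (h0 : ∀ u v, 0 ≤ om u v) (I : Finset V)
    (π : V → V) : 0 ≤ WF om I π :=
  Finset.prod_nonneg fun _ _ => h0 _ _

theorem ZF_comp (om : V → V → ℝ) (h0 : ∀ u v, 0 ≤ om u v) (T J : Finset V) (hd : Disjoint T J)
    (TT : Finset (V → V)) (hT : ∀ τ ∈ TT, τ ∈ For T ∧ ∀ v ∈ T, τ v ∉ J)
    (χ : V → Fin 3) (p : Fin 3 → V) :
    ∑ τ ∈ TT, WF om T τ * ZF om J (fun v => χ (root τ v)) p ≤ ZF om (T ∪ J) χ p := by
  set P : Finset ((V → V) × (V → V)) := (TT ×ˢ For J).filter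
    (fun q => Function.Injective (fun j => χ (root q.1 (root q.2 (p j))))) with hP
  have h1 : ∑ τ ∈ TT, WF om T τ * ZF om J (fun v => χ (root τ v)) p =
      ∑ q ∈ P, WF om T q.1 * WF om J q.2 := by
    rw [hP, Finset.sum_filter, Finset.sum_product]
    refine Finset.sum_congr rfl fun τ _ => ?_
    rw [ZF, Finset.sum_filter, Finset.mul_sum]
    refine Finset.sum_congr rfl fun σ _ => ?_
    split_ifs <;> simp
  have hPm : ∀ q ∈ P, (q.1 ∈ For T ∧ (∀ v ∈ T, q.1 v ∉ J)) ∧ q.2 ∈ For J ∧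
      Function.Injective (fun j => χ (root q.1 (root q.2 (p j)))) := by
    intro q hq
    rw [hP, Finset.mem_filter, Finset.mem_product] at hq
    exact ⟨hT _ hq.1.1, hq.1.2, hq.2⟩
  have hinj : ∀ q ∈ P, ∀ q' ∈ P, F6_comb T J q.1 q.2 = F6_comb T J q'.1 q'.2 → q = q' := by
    intro q hq q' hq' he
    obtain ⟨⟨h2, -⟩, h3, -⟩ := hPm q hq
    obtain ⟨⟨h2', -⟩, h3', -⟩ := hPm q' hq'
    apply Prod.ext
    · rw [← F6_res_comb_left (J := J) (σ := q.2) h2, he, F6_res_comb_left h2']
    · rw [← F6_res_comb_right (τ := q.1) hd h3, he, F6_res_comb_right hd h3']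
  rw [h1]
  have h4 : ∑ q ∈ P, WF om T q.1 * WF om J q.2 =
      ∑ π ∈ P.image (fun q => F6_comb T J q.1 q.2), WF om (T ∪ J) π := by
    rw [Finset.sum_image hinj]
    exact Finset.sum_congr rfl fun q _ => (F6_WF om hd q.1 q.2).symm
  rw [h4, ZF]
  refine Finset.sum_le_sum_of_subset_of_nonneg ?_ (fun π _ _ => F6_WF_nonneg om h0 _ π)
  intro π hπ
  rw [Finset.mem_image] at hπ
  obtain ⟨q, hq, rfl⟩ := hπ
  obtain ⟨⟨h2, h5⟩, h3, h6⟩ := hPm q hq
  rw [Finset.mem_filter]
  refine ⟨F6_comb_mem hd h2 h3 h5, ?_⟩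
  simp only [F6_root hd h2 h3 h5]
  exact h6

private theorem F6_root_not_mem {J1 J2 : Finset V} {σ : V → V} (hσ : σ ∈ For J1)
    (h : ∀ v ∈ J1, σ v ∉ J2) {v : V} (hv : v ∉ J2) : root σ v ∉ J2 := by
  have h1 : ∀ n, σ^[n] v ∉ J2 := by
    intro n
    induction n with
    | zero => exact hv
    | succ n ih =>
      rw [Function.iterate_succ_apply']
      by_cases h2 : σ^[n] v ∈ J1
      · exact h _ h2
      · rw [((F6_mem J1 σ).1 hσ).1 _ h2]
        exact ih
  exact h1 _

theorem ZF_union (om : V → V → ℝ) (J1 J2 : Finset V) (hd : Disjoint J1 J2)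
    (hs : ∀ u v, om u v = om v u) (h : ∀ u ∈ J1, ∀ v ∈ J2, om u v = 0)
    (χ : V → Fin 3) (p : Fin 3 → V) (hp : ∀ j, p j ∉ J2) :
    ZF om (J1 ∪ J2) χ p = ZF om J1 χ p * DF om J2 := by
  have hd' : Disjoint J2 J1 := hd.symm
  have h' : ∀ u ∈ J2, ∀ v ∈ J1, om u v = 0 := fun u hu v hv => by rw [hs]; exact h v hv u hu
  set A : Finset (V → V) := ((For J1).filter
    (fun π => Function.Injective (fun j => χ (root π (p j))))).filter
    (fun π => ∀ v ∈ J1, π v ∉ J2) with hA
  set B : Finset (V → V) := (For J2).filter (fun π => ∀ v ∈ J2, π v ∉ J1) with hB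
  set C : Finset (V → V) := ((For (J1 ∪ J2)).filter
    (fun π => Function.Injective (fun j => χ (root π (p j))))).filter
    (fun π => (∀ v ∈ J1, π v ∉ J2) ∧ ∀ v ∈ J2, π v ∉ J1) with hC
  have h1 : ZF om J1 χ p = ∑ π ∈ A, WF om J1 π := by
    rw [ZF, hA]
    symm
    refine Finset.sum_subset (Finset.filter_subset _ _) fun π hπ hn => ?_
    rw [Finset.mem_filter, not_and] at hn
    have h2 := hn hπ
    push Not at h2
    obtain ⟨v, hv, h3⟩ := h2
    exact Finset.prod_eq_zero hv (h v hv _ h3)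
  have h2 : DF om J2 = ∑ π ∈ B, WF om J2 π := by
    rw [DF, hB]
    symm
    refine Finset.sum_subset (Finset.filter_subset _ _) fun π hπ hn => ?_
    rw [Finset.mem_filter, not_and] at hn
    have h2 := hn hπ
    push Not at h2
    obtain ⟨v, hv, h3⟩ := h2
    exact Finset.prod_eq_zero hv (h' v hv _ h3)
  have h3 : ZF om (J1 ∪ J2) χ p = ∑ π ∈ C, WF om (J1 ∪ J2) π := by
    rw [ZF, hC]
    symm
    refine Finset.sum_subset (Finset.filter_subset _ _) fun π hπ hn => ?_
    rw [Finset.mem_filter, not_and] at hn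
    have h2 := hn hπ
    rw [not_and_or] at h2
    rcases h2 with h2 | h2
    · push Not at h2
      obtain ⟨v, hv, h3⟩ := h2
      exact Finset.prod_eq_zero (Finset.mem_union_left _ hv) (h v hv _ h3)
    · push Not at h2
      obtain ⟨v, hv, h3⟩ := h2
      exact Finset.prod_eq_zero (Finset.mem_union_right _ hv) (h' v hv _ h3)
  have hAm : ∀ π, π ∈ A ↔ (π ∈ For J1 ∧ Function.Injective (fun j => χ (root π (p j)))) ∧
      ∀ v ∈ J1, π v ∉ J2 := by
    intro π
    rw [hA, Finset.mem_filter, Finset.mem_filter]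
  have hBm : ∀ π, π ∈ B ↔ π ∈ For J2 ∧ ∀ v ∈ J2, π v ∉ J1 := by
    intro π
    rw [hB, Finset.mem_filter]
  have hCm : ∀ π, π ∈ C ↔ (π ∈ For (J1 ∪ J2) ∧
      Function.Injective (fun j => χ (root π (p j)))) ∧
      ((∀ v ∈ J1, π v ∉ J2) ∧ ∀ v ∈ J2, π v ∉ J1) := by
    intro π
    rw [hC, Finset.mem_filter, Finset.mem_filter]
  have hroot : ∀ τ σ : V → V, τ ∈ For J2 → σ ∈ For J1 → (∀ v ∈ J2, τ v ∉ J1) →
      (∀ v ∈ J1, σ v ∉ J2) → ∀ j, root (F6_comb J2 J1 τ σ) (p j) = root σ (p j) := by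
    intro τ σ h4 h5 h6 h7 j
    rw [F6_root hd' h4 h5 h6]
    exact root_of_not_mem J2 τ h4 _ (F6_root_not_mem h5 h7 (hp j))
  rw [h1, h2, h3, Finset.sum_mul_sum, ← Finset.sum_product', Finset.union_comm J1 J2]
  symm
  refine Finset.sum_bij' (fun q _ => F6_comb J2 J1 q.2 q.1)
    (fun π _ => (F6_res J1 π, F6_res J2 π)) ?_ ?_ ?_ ?_ ?_
  · intro q hq
    rw [Finset.mem_product, hAm, hBm] at hq
    obtain ⟨⟨⟨h4, h5⟩, h6⟩, h7, h8⟩ := hq
    rw [hCm, Finset.union_comm J1 J2]
    refine ⟨⟨F6_comb_mem hd' h7 h4 h8, ?_⟩, fun v hv => ?_, fun v hv => ?_⟩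
    · simp only [hroot q.2 q.1 h7 h4 h8 h6]
      exact h5
    · have h9 : v ∉ J2 := fun h5 => Finset.disjoint_left.1 hd hv h5
      rw [F6_comb, if_neg h9, if_pos hv]
      exact h6 v hv
    · rw [F6_comb, if_pos hv]
      exact h8 v hv
  · intro π hπ
    rw [hCm] at hπ
    obtain ⟨⟨h4, h5⟩, h6, h7⟩ := hπ
    have h8 : F6_res J1 π ∈ For J1 := F6_res_mem h4 Finset.subset_union_left
    have h9 : F6_res J2 π ∈ For J2 := F6_res_mem h4 Finset.subset_union_right
    have h10 : ∀ v ∈ J1, F6_res J1 π v ∉ J2 := fun v hv => by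
      rw [F6_res, if_pos hv]; exact h6 v hv
    have h11 : ∀ v ∈ J2, F6_res J2 π v ∉ J1 := fun v hv => by
      rw [F6_res, if_pos hv]; exact h7 v hv
    rw [Finset.mem_product, hAm, hBm]
    refine ⟨⟨⟨h8, ?_⟩, h10⟩, h9, h11⟩
    have h12 := hroot _ _ h9 h8 h11 h10
    rw [Finset.union_comm] at h4
    rw [F6_comb_res h4] at h12
    show Function.Injective (fun j => χ (root (F6_res J1 π) (p j)))
    simp only [← h12]
    exact h5
  · intro q hq
    rw [Finset.mem_product, hAm, hBm] at hq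
    obtain ⟨⟨⟨h4, h5⟩, h6⟩, h7, h8⟩ := hq
    exact Prod.ext (F6_res_comb_right hd' h4) (F6_res_comb_left h7)
  · intro π hπ
    rw [hCm, Finset.union_comm] at hπ
    exact F6_comb_res hπ.1.1
  · intro q hq
    rw [F6_WF om hd', mul_comm]

/-- `ZF` only depends on the colours of the vertices off `I` which can be roots -/
theorem ZF_chi (om : V → V → ℝ) (h0 : ∀ u v, 0 ≤ om u v) (I B : Finset V) (hB : ∀ v ∈ B, v ∉ I)
    (hadj : ∀ v ∈ I, ∀ u, om v u ≠ 0 → u ∈ I ∨ u ∈ B)
    (χ χ' : V → Fin 3) (hχ : ∀ v ∈ B, χ v = χ' v) (p : Fin 3 → V) (hp : ∀ j, p j ∈ I ∨ p j ∈ B) :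
    ZF om I χ p = ZF om I χ' p := by
  rw [ZF, ZF, Finset.sum_filter, Finset.sum_filter]
  refine Finset.sum_congr rfl fun π hπ => ?_
  by_cases hW : WF om I π = 0
  · rw [hW]
    split_ifs <;> rfl
  · have h1 : ∀ v ∈ I, om v (π v) ≠ 0 := by
      intro v hv h2
      exact hW (Finset.prod_eq_zero hv h2)
    have h2 : ∀ n, ∀ j, π^[n] (p j) ∈ I ∨ π^[n] (p j) ∈ B := by
      intro n j
      induction n with
      | zero => exact hp j
      | succ n ih =>
        rw [Function.iterate_succ_apply']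
        rcases ih with h3 | h3
        · exact hadj _ h3 _ (h1 _ h3)
        · rw [((F6_mem I π).1 hπ).1 _ (hB _ h3)]
          exact Or.inr h3
    have h3 : ∀ j, χ (root π (p j)) = χ' (root π (p j)) := by
      intro j
      apply hχ
      rcases h2 (Fintype.card V) j with h4 | h4
      · exact absurd h4 (root_not_mem I π hπ (p j))
      · exact h4
    simp only [h3]

/-- if all the three vertices are off `I` and get three different colours -/
theorem ZF_const (om : V → V → ℝ) (I : Finset V) (χ : V → Fin 3) (p : Fin 3 → V)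
    (hp : ∀ j, p j ∉ I) (hi : Function.Injective (fun j => χ (p j))) :
    ZF om I χ p = DF om I := by
  rw [ZF, DF]
  congr 1
  rw [Finset.filter_eq_self]
  intro π hπ
  have h1 : ∀ j, root π (p j) = p j := fun j => root_of_not_mem I π hπ _ (hp j)
  simp only [h1]
  exact hi

end Pool.SX
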