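import Mathlib

/-!
ROW W6a (a finite sum inequality, 50-80 lines, pure Mathlib).
`sum_label`: Φ (g, i) for g ∈ R, i ∈ B; g ∉ H: Φ g i = Ψ g; g ∈ H and h ∈ C i: Φ g i = Ψ h.
∑_{g ∈ R \ H} ∑_{i ∈ B} ρ i Ψ g = ∑_{g ∈ R \ H} Ψ g.   If H is nonempty: for i with C i nonempty, Φ g i =: ψ i is the same for all g ∈ H and equals Ψ h for h ∈ C i;
∑_{g ∈ H} ρ i Φ g i = |H| ρ i ψ i ≥ (1/2) |C i| ψ i = (1/2) ∑_{h ∈ C i} Ψ h.  Sum over i ∈ B: H is the disjoint union of the C i (hU, hC).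
`sum_label2`: apply `sum_label` twice (two independent labels).
-/

set_option autoImplicit false

open Classical

namespace Pool.SX

theorem sum_label {α : Type} (R H : Finset α) (hH : H ⊆ R) (B : Finset ℕ) (C : ℕ → Finset α)
    (hC : ∀ i ∈ B, C i ⊆ H) (hU : ∀ h ∈ H, ∃! i, i ∈ B ∧ h ∈ C i) (ρ : ℕ → ℝ)
    (hρ : ∀ i ∈ B, 0 ≤ ρ i) (hs : ∑ i ∈ B, ρ i = 1)
    (hcnt : ∀ i ∈ B, ((C i).card : ℝ) ≤ 2 * ρ i * (H.card : ℝ))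
    (Φ : α → ℕ → ℝ) (Ψ : α → ℝ) (hΨ : ∀ g ∈ R, 0 ≤ Ψ g) (hΦ : ∀ g ∈ R, ∀ i ∈ B, 0 ≤ Φ g i)
    (h1 : ∀ g ∈ R, g ∉ H → ∀ i ∈ B, Φ g i = Ψ g)
    (h2 : ∀ g ∈ H, ∀ i ∈ B, ∀ h ∈ C i, Φ g i = Ψ h) :
    (1 / 2) * ∑ h ∈ R, Ψ h ≤ ∑ g ∈ R, ∑ i ∈ B, ρ i * Φ g i := by
  have hsplit : ∀ f : α → ℝ, ∑ g ∈ R, f g = ∑ g ∈ R \ H, f g + ∑ g ∈ H, f g := fun f =>
    (Finset.sum_sdiff hH).symm
  have hout : ∑ g ∈ R \ H, ∑ i ∈ B, ρ i * Φ g i = ∑ g ∈ R \ H, Ψ g := by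
    refine Finset.sum_congr rfl fun g hg => ?_
    rw [Finset.mem_sdiff] at hg
    have : ∑ i ∈ B, ρ i * Φ g i = ∑ i ∈ B, ρ i * Ψ g :=
      Finset.sum_congr rfl fun i hi => by rw [h1 g hg.1 hg.2 i hi]
    rw [this, ← Finset.sum_mul, hs, one_mul]
  have hH2 : ∑ h ∈ H, Ψ h = ∑ i ∈ B, ∑ h ∈ C i, Ψ h := by
    have e1 : ∀ i ∈ B, ∑ h ∈ C i, Ψ h = ∑ h ∈ H, if h ∈ C i then Ψ h else 0 := by
      intro i hi
      rw [← Finset.sum_filter]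
      refine Finset.sum_congr ?_ fun _ _ => rfl
      ext h
      rw [Finset.mem_filter]
      exact ⟨fun hh => ⟨hC i hi hh, hh⟩, fun hh => hh.2⟩
    rw [Finset.sum_congr rfl e1, Finset.sum_comm]
    refine Finset.sum_congr rfl fun h hh => ?_
    obtain ⟨i, ⟨hi, hhi⟩, huniq⟩ := hU h hh
    rw [Finset.sum_eq_single i]
    · rw [if_pos hhi]
    · intro j hj hji
      rw [if_neg]
      intro hhj
      exact hji (huniq j ⟨hj, hhj⟩)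
    · intro hni
      exact absurd hi hni
  have hin : (1 / 2) * ∑ h ∈ H, Ψ h ≤ ∑ g ∈ H, ∑ i ∈ B, ρ i * Φ g i := by
    rw [Finset.sum_comm, hH2, Finset.mul_sum]
    refine Finset.sum_le_sum fun i hi => ?_
    rcases (C i).eq_empty_or_nonempty with he | ⟨h0, hh0⟩
    · rw [he, Finset.sum_empty, mul_zero]
      exact Finset.sum_nonneg fun g hg => mul_nonneg (hρ i hi) (hΦ g (hH hg) i hi)
    · have hh0H : h0 ∈ H := hC i hi hh0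
      have e1 : ∑ h ∈ C i, Ψ h = ((C i).card : ℝ) * Ψ h0 := by
        rw [Finset.sum_congr rfl (g := fun _ => Ψ h0) (fun h hh => ?_), Finset.sum_const,
          nsmul_eq_mul]
        rw [← h2 h0 hh0H i hi h hh, h2 h0 hh0H i hi h0 hh0]
      have e2 : ∑ g ∈ H, ρ i * Φ g i = (H.card : ℝ) * (ρ i * Ψ h0) := by
        rw [Finset.sum_congr rfl (g := fun _ => ρ i * Ψ h0) (fun g hg => ?_), Finset.sum_const,
          nsmul_eq_mul]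
        rw [h2 g hg i hi h0 hh0]
      rw [e1, e2]
      have h3 := mul_le_mul_of_nonneg_right (hcnt i hi) (hΨ h0 (hH hh0H))
      nlinarith [h3]
  have hnn : 0 ≤ ∑ g ∈ R \ H, Ψ g :=
    Finset.sum_nonneg fun g hg => hΨ g (Finset.mem_sdiff.1 hg).1
  rw [hsplit, hsplit, hout]
  linarith

/-- two labels: `(H1, B1, C1, ρ1)` and `(H2, B2, C2, ρ2)` -/
theorem sum_label2 {α : Type} (R H1 H2 : Finset α) (hH1 : H1 ⊆ R) (hH2 : H2 ⊆ R)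
    (B1 B2 : Finset ℕ) (C1 C2 : ℕ → Finset α)
    (hC1 : ∀ i ∈ B1, C1 i ⊆ H1) (hU1 : ∀ h ∈ H1, ∃! i, i ∈ B1 ∧ h ∈ C1 i)
    (hC2 : ∀ i ∈ B2, C2 i ⊆ H2) (hU2 : ∀ h ∈ H2, ∃! i, i ∈ B2 ∧ h ∈ C2 i)
    (ρ1 ρ2 : ℕ → ℝ) (hρ1 : ∀ i ∈ B1, 0 ≤ ρ1 i) (hs1 : ∑ i ∈ B1, ρ1 i = 1)
    (hρ2 : ∀ i ∈ B2, 0 ≤ ρ2 i) (hs2 : ∑ i ∈ B2, ρ2 i = 1)
    (hcnt1 : ∀ i ∈ B1, ((C1 i).card : ℝ) ≤ 2 * ρ1 i * (H1.card : ℝ))
    (hcnt2 : ∀ i ∈ B2, ((C2 i).card : ℝ) ≤ 2 * ρ2 i * (H2.card : ℝ))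
    (Φ : α → α → ℕ → ℕ → ℝ) (Ψ : α → α → ℝ) (hΨ : ∀ g ∈ R, ∀ g' ∈ R, 0 ≤ Ψ g g')
    (hΦ : ∀ g ∈ R, ∀ g' ∈ R, ∀ i ∈ B1, ∀ i' ∈ B2, 0 ≤ Φ g g' i i')
    (h11 : ∀ g ∈ R, g ∉ H1 → ∀ g' ∈ R, g' ∉ H2 → ∀ i ∈ B1, ∀ i' ∈ B2, Φ g g' i i' = Ψ g g')
    (h12 : ∀ g ∈ R, g ∉ H1 → ∀ g' ∈ H2, ∀ i ∈ B1, ∀ i' ∈ B2, ∀ h' ∈ C2 i',
      Φ g g' i i' = Ψ g h')
    (h21 : ∀ g ∈ H1, ∀ g' ∈ R, g' ∉ H2 → ∀ i ∈ B1, ∀ i' ∈ B2, ∀ h ∈ C1 i,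
      Φ g g' i i' = Ψ h g')
    (h22 : ∀ g ∈ H1, ∀ g' ∈ H2, ∀ i ∈ B1, ∀ i' ∈ B2, ∀ h ∈ C1 i, ∀ h' ∈ C2 i',
      Φ g g' i i' = Ψ h h') :
    (1 / 4) * ∑ h ∈ R, ∑ h' ∈ R, Ψ h h' ≤
      ∑ g ∈ R, ∑ g' ∈ R, ∑ i ∈ B1, ∑ i' ∈ B2, ρ1 i * ρ2 i' * Φ g g' i i' := by
  let Θ : α → ℕ → α → ℝ := fun g i h' =>
    if g ∈ H1 then (if hne : (C1 i).Nonempty then Ψ hne.choose h' else 0) else Ψ g h'
  have hΘout : ∀ g, g ∉ H1 → ∀ i h', Θ g i h' = Ψ g h' := fun g hg i h' => if_neg hg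
  have hΘin : ∀ g, g ∈ H1 → ∀ i h', Θ g i h' =
      if hne : (C1 i).Nonempty then Ψ hne.choose h' else 0 := fun g hg i h' => if_pos hg
  have hB2 : B2.Nonempty := by
    rw [Finset.nonempty_iff_ne_empty]
    intro he
    rw [he, Finset.sum_empty] at hs2
    exact zero_ne_one hs2
  -- values of `Ψ` on `C1 i`
  have hval : ∀ i ∈ B1, ∀ h ∈ C1 i, ∀ h0 ∈ C1 i, ∀ h' ∈ R, Ψ h h' = Ψ h0 h' := by
    intro i hi h hh h0 hh0 h' hh'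
    have hh0H : h0 ∈ H1 := hC1 i hi hh0
    by_cases hh2 : h' ∈ H2
    · obtain ⟨i', ⟨hi', hhi'⟩, -⟩ := hU2 h' hh2
      rw [← h22 h0 hh0H h' hh2 i hi i' hi' h hh h' hhi',
        ← h22 h0 hh0H h' hh2 i hi i' hi' h0 hh0 h' hhi']
    · obtain ⟨i', hi'⟩ := hB2
      rw [← h21 h0 hh0H h' hh' hh2 i hi i' hi' h hh,
        ← h21 h0 hh0H h' hh' hh2 i hi i' hi' h0 hh0]
  have hΘnn : ∀ g ∈ R, ∀ i ∈ B1, ∀ h' ∈ R, 0 ≤ Θ g i h' := by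
    intro g hg i hi h' hh'
    by_cases hgH : g ∈ H1
    · rw [hΘin g hgH]
      split_ifs with hne
      · exact hΨ _ (hH1 (hC1 i hi hne.choose_spec)) h' hh'
      · exact le_rfl
    · rw [hΘout g hgH]
      exact hΨ g hg h' hh'
  -- inner inequality
  have hinner : ∀ g ∈ R, ∀ i ∈ B1, (1 / 2) * ∑ h' ∈ R, Θ g i h' ≤
      ∑ g' ∈ R, ∑ i' ∈ B2, ρ2 i' * Φ g g' i i' := by
    intro g hg i hi
    by_cases hgH : g ∈ H1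
    · by_cases hne : (C1 i).Nonempty
      · have e1 : ∀ h', Θ g i h' = Ψ hne.choose h' := by
          intro h'
          rw [hΘin g hgH, dif_pos hne]
        refine sum_label R H2 hH2 B2 C2 hC2 hU2 ρ2 hρ2 hs2 hcnt2 (fun g' i' => Φ g g' i i')
          (fun h' => Θ g i h') (fun h' hh' => hΘnn g hg i hi h' hh')
          (fun g' hg' i' hi' => hΦ g hg g' hg' i hi i' hi') ?_ ?_
        · intro g' hg' hg'H i' hi'
          show Φ g g' i i' = Θ g i g'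
          rw [e1]
          exact h21 g hgH g' hg' hg'H i hi i' hi' _ hne.choose_spec
        · intro g' hg' i' hi' h' hh'
          show Φ g g' i i' = Θ g i h'
          rw [e1]
          exact h22 g hgH g' hg' i hi i' hi' _ hne.choose_spec h' hh'
      · have e1 : ∀ h', Θ g i h' = 0 := by
          intro h'
          rw [hΘin g hgH, dif_neg hne]
        rw [Finset.sum_congr rfl (g := fun _ => (0 : ℝ)) (fun h' _ => e1 h'),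
          Finset.sum_const_zero, mul_zero]
        exact Finset.sum_nonneg fun g' hg' => Finset.sum_nonneg fun i' hi' =>
          mul_nonneg (hρ2 i' hi') (hΦ g hg g' hg' i hi i' hi')
    · refine sum_label R H2 hH2 B2 C2 hC2 hU2 ρ2 hρ2 hs2 hcnt2 (fun g' i' => Φ g g' i i')
        (fun h' => Θ g i h') (fun h' hh' => hΘnn g hg i hi h' hh')
        (fun g' hg' i' hi' => hΦ g hg g' hg' i hi i' hi') ?_ ?_
      · intro g' hg' hg'H i' hi'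
        show Φ g g' i i' = Θ g i g'
        rw [hΘout g hgH]
        exact h11 g hg hgH g' hg' hg'H i hi i' hi'
      · intro g' hg' i' hi' h' hh'
        show Φ g g' i i' = Θ g i h'
        rw [hΘout g hgH]
        exact h12 g hg hgH g' hg' i hi i' hi' h' hh'
  -- outer inequality
  have houter : ∀ h' ∈ R, (1 / 2) * ∑ h ∈ R, Ψ h h' ≤ ∑ g ∈ R, ∑ i ∈ B1, ρ1 i * Θ g i h' := by
    intro h' hh'
    refine sum_label R H1 hH1 B1 C1 hC1 hU1 ρ1 hρ1 hs1 hcnt1 (fun g i => Θ g i h')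
      (fun h => Ψ h h') (fun h hh => hΨ h hh h' hh')
      (fun g hg i hi => hΘnn g hg i hi h' hh') ?_ ?_
    · intro g hg hgH i hi
      exact hΘout g hgH i h'
    · intro g hg i hi h hh
      have hne : (C1 i).Nonempty := ⟨h, hh⟩
      show Θ g i h' = Ψ h h'
      rw [hΘin g hg, dif_pos hne]
      exact hval i hi _ hne.choose_spec h hh h' hh'
  have hR : ∀ g ∈ R, ∑ g' ∈ R, ∑ i ∈ B1, ∑ i' ∈ B2, ρ1 i * ρ2 i' * Φ g g' i i' =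
      ∑ i ∈ B1, ρ1 i * ∑ g' ∈ R, ∑ i' ∈ B2, ρ2 i' * Φ g g' i i' := by
    intro g _
    rw [Finset.sum_comm]
    refine Finset.sum_congr rfl fun i _ => ?_
    rw [Finset.mul_sum]
    refine Finset.sum_congr rfl fun g' _ => ?_
    rw [Finset.mul_sum]
    refine Finset.sum_congr rfl fun i' _ => ?_
    ring
  rw [Finset.sum_congr rfl hR]
  calc (1 / 4) * ∑ h ∈ R, ∑ h' ∈ R, Ψ h h' = (1 / 2) * ∑ h' ∈ R, (1 / 2) * ∑ h ∈ R, Ψ h h' := by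
        rw [Finset.sum_comm, ← Finset.mul_sum]
        ring
    _ ≤ (1 / 2) * ∑ h' ∈ R, ∑ g ∈ R, ∑ i ∈ B1, ρ1 i * Θ g i h' :=
        mul_le_mul_of_nonneg_left (Finset.sum_le_sum houter) (by norm_num)
    _ = ∑ g ∈ R, ∑ i ∈ B1, ρ1 i * ((1 / 2) * ∑ h' ∈ R, Θ g i h') := by
        rw [Finset.sum_comm, Finset.mul_sum]
        refine Finset.sum_congr rfl fun g _ => ?_
        rw [Finset.sum_comm, Finset.mul_sum]
        refine Finset.sum_congr rfl fun i _ => ?_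
        rw [← Finset.mul_sum]
        ring
    _ ≤ ∑ g ∈ R, ∑ i ∈ B1, ρ1 i * ∑ g' ∈ R, ∑ i' ∈ B2, ρ2 i' * Φ g g' i i' :=
        Finset.sum_le_sum fun g hg => Finset.sum_le_sum fun i hi =>
          mul_le_mul_of_nonneg_left (hinner g hg i hi) (hρ1 i hi)

end Pool.SX
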