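import Mathlib

/-!
MP_9dcace_co, polynomial grids for simplicial 3-polytopes: basic structures.
`Sph` : an oriented triangulated sphere.  `Sch` : a Schnyder structure (see sx_proof.md, sections 0 and 1).
Indices `k : Fin 3`, additions in `Fin 3` are modulo 3.
-/

set_option autoImplicit false

namespace Pool.SX

/-- An oriented triangulated sphere with vertex set `V`: `T u v w` means that `u, v, w` is an oriented
triangle (the triangle lies on the left of the directed edge `u → v`). -/
structure Sph (V : Type) [Fintype V] where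
  T : V → V → V → Prop
  rot : ∀ {u v w : V}, T u v w → T v w u
  ne : ∀ {u v w : V}, T u v w → u ≠ v
  uniq : ∀ {u v w w' : V}, T u v w → T u v w' → w = w'
  opp : ∀ {u v w : V}, T u v w → ∃ w' : V, w' ≠ w ∧ T v u w'
  /-- the link of every vertex is a single cycle -/
  link : ∀ {u v w v' w' : V}, T u v w → T u v' w' → Relation.ReflTransGen (fun x y => T u x y) v v'
  /-- the graph is connected -/
  conn : ∀ u v : V, Relation.ReflTransGen (fun x y => ∃ z : V, T x y z) u v
  cov : ∀ u : V, ∃ v w : V, T u v w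
  /-- Euler: there are `2 n - 4` triangles, each counted three times -/
  count : Nat.card {p : V × V × V // T p.1 p.2.1 p.2.2} + 12 = 6 * Fintype.card V

/-- A Schnyder structure: vertices `V`, inner faces `F`, outer vertices `a 0, a 1, a 2`. -/
structure Sch (V F : Type) [Fintype V] [Fintype F] where
  /-- `t 0 g, t 1 g, t 2 g` are the vertices of `g` in counterclockwise order -/
  t : Fin 3 → F → V
  /-- the outer vertices -/
  a : Fin 3 → V
  /-- the outgoing edge of colour `c` of an inner vertex -/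
  out : Fin 3 → V → V
  /-- the face on the left of the edge `v → out c v` -/
  gL : Fin 3 → V → F
  /-- the face on the right of the edge `v → out c v` -/
  gR : Fin 3 → V → F
  /-- the inner face at the outer edge `a k, a (k+1)` -/
  o : Fin 3 → F
  /-- potentials -/
  r : Fin 3 → V → ℝ
  a_inj : Function.Injective a
  tL2 : ∀ (c : Fin 3) (v : V), (∀ k, v ≠ a k) → t (c + 2) (gL c v) = v
  tL0 : ∀ (c : Fin 3) (v : V), (∀ k, v ≠ a k) → t c (gL c v) = out c v
  tR1 : ∀ (c : Fin 3) (v : V), (∀ k, v ≠ a k) → t (c + 1) (gR c v) = v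
  tR0 : ∀ (c : Fin 3) (v : V), (∀ k, v ≠ a k) → t c (gR c v) = out c v
  o0 : ∀ k : Fin 3, t k (o k) = a k
  o1 : ∀ k : Fin 3, t (k + 1) (o k) = a (k + 1)
  /-- the edge rule -/
  edge : ∀ (g : F) (k : Fin 3), g = o k ∨
    ((∀ j, t k g ≠ a j) ∧ g = gL (k + 1) (t k g)) ∨
    ((∀ j, t (k + 1) g ≠ a j) ∧ g = gR k (t (k + 1) g))
  pot : ∀ (g : F) (k j : Fin 3), j ≠ k → r k (t j g) < r k (t k g)
  /-- the label of an outer vertex is its own number -/
  lab : ∀ (g : F) (j k : Fin 3), t j g = a k → j = k
  cov : ∀ v : V, ∃ (g : F) (j : Fin 3), t j g = v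
  /-- connectedness of the inner faces across inner edges -/
  conn : ∀ X : F → ℝ, (∀ (c : Fin 3) (v : V), (∀ k, v ≠ a k) → X (gL c v) = X (gR c v)) →
    ∀ g g' : F, X g = X g'

namespace Sch

variable {V F : Type} [Fintype V] [Fintype F] (s : Sch V F)

/-- inner vertices -/
def inn (v : V) : Prop := ∀ k, v ≠ s.a k

/-- one step of the order `≤_k` (`u` below `v`) -/
def step (k : Fin 3) (u v : V) : Prop :=
  (s.inn u ∧ v = s.out k u) ∨ (∃ j, j ≠ k ∧ s.inn v ∧ u = s.out j v) ∨
    (∃ j, j ≠ k ∧ u = s.a j ∧ v = s.a k)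

/-- the order `≤_k` -/
def Le (k : Fin 3) (u v : V) : Prop := Relation.ReflTransGen (s.step k) u v

/-- `u` lies on the path `P_c(z)` -/
def Pth (c : Fin 3) (z u : V) : Prop :=
  Relation.ReflTransGen (fun x y => s.inn x ∧ y = s.out c x) z u

/-- `v` is a vertex of the face `g` -/
def Inc (v : V) (g : F) : Prop := ∃ j, s.t j g = v

end Sch

/-- A Schnyder structure together with its regions `S k z` and their properties
(all of them are consequences of `Sch`; see section 2 of sx_proof.md). -/
structure SchS (V F : Type) [Fintype V] [Fintype F] extends Sch V F where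
  S : Fin 3 → V → Finset F
  part : ∀ (z : V) (g : F), ∃! k, g ∈ S k z
  self : ∀ (k : Fin 3) (g : F), g ∈ S k (t k g)
  mono : ∀ (k : Fin 3) (u v : V), toSch.Le k u v → S k u ⊆ S k v
  vert : ∀ (k : Fin 3) (z v : V) (g : F), g ∈ S k z → toSch.Inc v g → toSch.Le k v z
  /-- crossing from right to left into `S i y` happens on the path `P_{i+1}(y)` -/
  crossL : ∀ (i c : Fin 3) (y v : V), toSch.inn v → gL c v ∈ S i y → gR c v ∉ S i y →
    c = i + 1 ∧ toSch.Pth (i + 1) y v
  crossR : ∀ (i c : Fin 3) (y v : V), toSch.inn v → gR c v ∈ S i y → gL c v ∉ S i y →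
    c = i + 2 ∧ toSch.Pth (i + 2) y v
  /-- the two sides of an edge of the path `P_c(y)` lie in different regions -/
  pathcross : ∀ (c : Fin 3) (y v : V), toSch.inn v → toSch.Pth c y v →
    gL c v ∈ S (c + 2) y ∧ gR c v ∈ S (c + 1) y
  outer0 : ∀ k : Fin 3, S k (a k) = Finset.univ
  outer1 : ∀ k j : Fin 3, j ≠ k → S k (a j) = ∅

end Pool.SX
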