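import Pool.Agent.Lib.MP_9dcace_sx.C1
set_option autoImplicit false

/-! Row C2. The contour of a good set W. Use C1 with P = (· ∈ W); i1 is uniqueness of the leaving
step, desc_uniq uniqueness of the entering step. A contour vertex has a neighbour in W by i3 (W
contains a0 and a1 which are different, since S.T a1 a0 a2). -/

namespace Pool.SX
open Relation
variable {V : Type} [Fintype V] (S : Sph V) {a0 a1 a2 : V} {W : Finset V}

theorem Sph.Good.has_nbr (hG : S.Good a0 a1 a2 W) (hf : S.T a1 a0 a2) {x : V} (hx : x ∈ W) :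
    ∃ y ∈ W, S.Adj x y := by
  have hne : a1 ≠ a0 := S.ne hf
  have key : ∀ y ∈ W, x ≠ y → ∃ y ∈ W, S.Adj x y := by
    intro y hy hxy
    rcases ReflTransGen.cases_head (hG.i3 x hx y hy) with h | ⟨c, hc, -⟩
    · exact absurd h hxy
    · exact ⟨c, hc.2, hc.1⟩
  by_cases h : x = a0
  · exact key a1 hG.m1 (by rw [h]; exact hne.symm)
  · exact key a0 hG.m0 h

theorem Sph.Good.ex_nxt (hG : S.Good a0 a1 a2 W) (hf : S.T a1 a0 a2) {x : V}
    (hx : S.Cont W x) : ∃ y, S.Nxt W x y := by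
  obtain ⟨hxW, u, hu, hadj⟩ := hx
  obtain ⟨y, hy, hxy⟩ := hG.has_nbr S hf hxW
  obtain ⟨v, w, hT, hv, hw⟩ := S.cross (fun z => z ∈ W) hxy hy hadj hu
  exact ⟨v, hxW, hv, w, hw, hT⟩

theorem Sph.Good.ex_prv (hG : S.Good a0 a1 a2 W) (hf : S.T a1 a0 a2) {x : V}
    (hx : S.Cont W x) : ∃ y, S.Nxt W y x := by
  obtain ⟨hxW, u, hu, hadj⟩ := hx
  obtain ⟨y, hy, hxy⟩ := hG.has_nbr S hf hxW
  obtain ⟨v, w, hT, hv, hw⟩ := S.cross (fun z => z ∉ W) hadj hu hxy (fun h => h hy)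
  exact ⟨w, not_not.mp hw, hxW, v, hv, S.rot (S.rot hT)⟩

theorem Sph.Good.nxt_uniq (hG : S.Good a0 a1 a2 W) {x y y' : V} (h : S.Nxt W x y)
    (h' : S.Nxt W x y') : y = y' := by
  obtain ⟨hx, hy, w, hw, hT⟩ := h
  obtain ⟨-, hy', w', hw', hT'⟩ := h'
  exact hG.i1 x hx y hy y' hy' w w' hw hw' hT hT'

theorem Sph.Good.prv_uniq (hG : S.Good a0 a1 a2 W) {x y y' : V} (h : S.Nxt W y x)
    (h' : S.Nxt W y' x) : y = y' := by
  obtain ⟨hy, hx, w, hw, hT⟩ := h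
  obtain ⟨hy', -, w', hw', hT'⟩ := h'
  exact S.desc_uniq (fun z => z ∈ W)
    (fun v v' z z' h1 h2 h3 h4 h5 h6 => hG.i1 x hx v h3 v' h5 z z' h4 h6 h1 h2)
    (S.rot hT) (S.rot hT') hw hy hw' hy'

theorem Sph.nxt_cont {x y : V} (h : S.Nxt W x y) : S.Cont W x ∧ S.Cont W y ∧ S.Adj x y := by
  obtain ⟨hx, hy, w, hw, hT⟩ := h
  have h3 := S.adj_of_T hT
  exact ⟨⟨hx, w, hw, h3.2.1⟩, ⟨hy, w, hw, h3.2.2⟩, h3.1⟩

theorem Sph.Good.nxt_a1 (hG : S.Good a0 a1 a2 W) (hf : S.T a1 a0 a2) : S.Nxt W a1 a0 :=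
  ⟨hG.m1, hG.m0, a2, hG.m2, hf⟩

/-- an edge between two remaining vertices which is not a contour edge has both opposite
vertices in W -/
theorem Sph.inner_edge {x y w : V} (hx : x ∈ W) (hy : y ∈ W) (h1 : ¬ S.Nxt W x y)
    (h : S.T x y w) : w ∈ W := by
  by_contra hw
  exact h1 ⟨hx, hy, w, hw, h⟩

end Pool.SX
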