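import Pool.Agent.Lib.MP_9dcace_sx.C1
set_option autoImplicit false

/-! Row C4a. Numbers of faces and of edges. Faces and edges as finite sets of vertices.
Every face {u,v,w} comes from exactly three triples (u,v,w),(v,w,u),(w,u,v) (no_rev excludes the
other three orders, uniq), every edge {u,v} from exactly two ordered pairs, and (u,v) with Adj u v
corresponds to a unique triple. So 3 |Fc| = 6 n - 12 and 2 |Ed| = 6 n - 12 by S.count. -/

namespace Pool.SX
open Relation
variable {V : Type} [Fintype V] (S : Sph V)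

/-- unoriented faces -/
def Sph.Fc (S : Sph V) : Type := {σ : Finset V // ∃ u v w : V, S.T u v w ∧ ∀ x, x ∈ σ ↔ (x = u ∨ x = v ∨ x = w)}

/-- unoriented edges -/
def Sph.Ed (S : Sph V) : Type := {e : Finset V // ∃ u v : V, S.Adj u v ∧ ∀ x, x ∈ e ↔ (x = u ∨ x = v)}

noncomputable instance : Fintype S.Fc := by
  classical
  exact Fintype.ofFinite {σ : Finset V // ∃ u v w : V, S.T u v w ∧ ∀ x, x ∈ σ ↔ (x = u ∨ x = v ∨ x = w)}

noncomputable instance : Fintype S.Ed := by
  classical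
  exact Fintype.ofFinite {e : Finset V // ∃ u v : V, S.Adj u v ∧ ∀ x, x ∈ e ↔ (x = u ∨ x = v)}


private theorem C4a_rot_cases {S : Sph V} {a b c u v w : V} (h : S.T a b c) (h' : S.T u v w)
    (hu : u = a ∨ u = b ∨ u = c) (hv : v = a ∨ v = b ∨ v = c) (hw : w = a ∨ w = b ∨ w = c) :
    (u = a ∧ v = b ∧ w = c) ∨ (u = b ∧ v = c ∧ w = a) ∨ (u = c ∧ v = a ∧ w = b) := by
  have h1 : u ≠ v := (S.ne3 h').1
  have h2 : v ≠ w := (S.ne3 h').2.1
  have h3 : u ≠ w := (S.ne3 h').2.2
  have n1 : ¬ S.T b a c := S.no_rev h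
  have n2 : ¬ S.T a c b := fun h4 => n1 (S.rot (S.rot h4))
  have n3 : ¬ S.T c b a := fun h4 => n1 (S.rot h4)
  rcases hu with rfl | rfl | rfl <;> rcases hv with rfl | rfl | rfl <;>
    rcases hw with rfl | rfl | rfl <;> first
      | exact absurd rfl h1
      | exact absurd rfl h2
      | exact absurd rfl h3
      | exact absurd h' n1
      | exact absurd h' n2
      | exact absurd h' n3
      | exact Or.inl ⟨rfl, rfl, rfl⟩
      | exact Or.inr (Or.inl ⟨rfl, rfl, rfl⟩)
      | exact Or.inr (Or.inr ⟨rfl, rfl, rfl⟩)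

theorem Sph.card_Fc : Fintype.card S.Fc + 4 = 2 * Fintype.card V := by
  classical
  choose u v w hT hmem using (fun σ : S.Fc => σ.2)
  let P : Type := {p : V × V × V // S.T p.1 p.2.1 p.2.2}
  let f : S.Fc × Fin 3 → P := fun q =>
    if q.2 = 0 then ⟨(u q.1, v q.1, w q.1), hT q.1⟩
    else if q.2 = 1 then ⟨(v q.1, w q.1, u q.1), S.rot (hT q.1)⟩
    else ⟨(w q.1, u q.1, v q.1), S.rot (S.rot (hT q.1))⟩
  have f0 : ∀ σ : S.Fc, f (σ, 0) = ⟨(u σ, v σ, w σ), hT σ⟩ := fun σ => rfl
  have f1 : ∀ σ : S.Fc, f (σ, 1) = ⟨(v σ, w σ, u σ), S.rot (hT σ)⟩ := fun σ => rfl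
  have f2 : ∀ σ : S.Fc, f (σ, 2) = ⟨(w σ, u σ, v σ), S.rot (S.rot (hT σ))⟩ := fun σ => rfl
  have hf : ∀ (σ : S.Fc) (i : Fin 3) (x : V),
      x ∈ σ.1 ↔ (x = (f (σ, i)).1.1 ∨ x = (f (σ, i)).1.2.1 ∨ x = (f (σ, i)).1.2.2) := by
    intro σ i x
    rw [hmem σ x]
    fin_cases i
    · exact Iff.rfl
    · show _ ↔ (x = v σ ∨ x = w σ ∨ x = u σ)
      tauto
    · show _ ↔ (x = w σ ∨ x = u σ ∨ x = v σ)
      tauto
  have hbij : Function.Bijective f := by
    constructor
    · rintro ⟨σ, i⟩ ⟨σ', j⟩ hij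
      have hσ : σ = σ' := by
        apply Subtype.ext
        apply Finset.ext
        intro x
        rw [hf σ i x, hf σ' j x, hij]
      subst hσ
      have h1 : u σ ≠ v σ := (S.ne3 (hT σ)).1
      have h2 : v σ ≠ w σ := (S.ne3 (hT σ)).2.1
      have h3 : u σ ≠ w σ := (S.ne3 (hT σ)).2.2
      have hv : (f (σ, i)).1.1 = (f (σ, j)).1.1 := by rw [hij]
      fin_cases i <;> fin_cases j <;> first
        | rfl
        | exact absurd hv h1
        | exact absurd hv h2
        | exact absurd hv h3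
        | exact absurd hv.symm h1
        | exact absurd hv.symm h2
        | exact absurd hv.symm h3
    · rintro ⟨⟨a, b, c⟩, h⟩
      let σ : S.Fc := ⟨{a, b, c}, a, b, c, h, by intro x; simp⟩
      have hm : ∀ x, (x = u σ ∨ x = v σ ∨ x = w σ) → (x = a ∨ x = b ∨ x = c) := by
        intro x hx
        have := (hmem σ x).2 hx
        simpa [σ] using this
      have h' : S.T a b c := h
      rcases C4a_rot_cases h' (hT σ) (hm _ (Or.inl rfl)) (hm _ (Or.inr (Or.inl rfl)))
        (hm _ (Or.inr (Or.inr rfl))) with ⟨e1, e2, e3⟩ | ⟨e1, e2, e3⟩ | ⟨e1, e2, e3⟩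
      · exact ⟨(σ, 0), by rw [f0]; apply Subtype.ext; simp only [e1, e2, e3]⟩
      · exact ⟨(σ, 2), by rw [f2]; apply Subtype.ext; simp only [e1, e2, e3]⟩
      · exact ⟨(σ, 1), by rw [f1]; apply Subtype.ext; simp only [e1, e2, e3]⟩
  have hc : Nat.card (S.Fc × Fin 3) = Nat.card P := Nat.card_congr (Equiv.ofBijective f hbij)
  have hc2 : Nat.card (S.Fc × Fin 3) = Fintype.card S.Fc * 3 := by
    rw [Nat.card_eq_fintype_card, Fintype.card_prod, Fintype.card_fin]
  have hcount : Nat.card P + 12 = 6 * Fintype.card V := S.count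
  omega

theorem Sph.card_Ed : Fintype.card S.Ed + 6 = 3 * Fintype.card V := by
  classical
  choose u v hA hmem using (fun e : S.Ed => e.2)
  have hA1 : ∀ e : S.Ed, ∃ z : V, S.T (u e) (v e) z := hA
  have hA2 : ∀ e : S.Ed, ∃ z : V, S.T (v e) (u e) z := fun e => S.adj_symm (hA e)
  choose z1 hz1 using hA1
  choose z2 hz2 using hA2
  let P : Type := {p : V × V × V // S.T p.1 p.2.1 p.2.2}
  let f : S.Ed × Fin 2 → P := fun q =>
    if q.2 = 0 then ⟨(u q.1, v q.1, z1 q.1), hz1 q.1⟩
    else ⟨(v q.1, u q.1, z2 q.1), hz2 q.1⟩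
  have f0 : ∀ e : S.Ed, f (e, 0) = ⟨(u e, v e, z1 e), hz1 e⟩ := fun e => rfl
  have f1 : ∀ e : S.Ed, f (e, 1) = ⟨(v e, u e, z2 e), hz2 e⟩ := fun e => rfl
  have hf : ∀ (e : S.Ed) (i : Fin 2) (x : V),
      x ∈ e.1 ↔ (x = (f (e, i)).1.1 ∨ x = (f (e, i)).1.2.1) := by
    intro e i x
    rw [hmem e x]
    fin_cases i
    · exact Iff.rfl
    · show _ ↔ (x = v e ∨ x = u e)
      tauto
  have hbij : Function.Bijective f := by
    constructor
    · rintro ⟨e, i⟩ ⟨e', j⟩ hij
      have he : e = e' := by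
        apply Subtype.ext
        apply Finset.ext
        intro x
        rw [hf e i x, hf e' j x, hij]
      subst he
      have h1 : u e ≠ v e := S.ne (hz1 e)
      have hv : (f (e, i)).1.1 = (f (e, j)).1.1 := by rw [hij]
      fin_cases i <;> fin_cases j <;> first
        | rfl
        | exact absurd hv h1
        | exact absurd hv.symm h1
    · rintro ⟨⟨a, b, c⟩, h⟩
      have h' : S.T a b c := h
      let e : S.Ed := ⟨{a, b}, a, b, ⟨c, h'⟩, by intro x; simp⟩
      have hm : ∀ x, (x = u e ∨ x = v e) → (x = a ∨ x = b) := by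
        intro x hx
        have := (hmem e x).2 hx
        simpa [e] using this
      have h1 : u e ≠ v e := S.ne (hz1 e)
      rcases hm _ (Or.inl rfl) with e1 | e1 <;> rcases hm _ (Or.inr rfl) with e2 | e2
      · exact absurd (e1.trans e2.symm) h1
      · refine ⟨(e, 0), ?_⟩
        have h3 : z1 e = c := by
          have h4 := hz1 e
          rw [e1, e2] at h4
          exact S.uniq h4 h'
        rw [f0]; apply Subtype.ext; simp only [e1, e2, h3]
      · refine ⟨(e, 1), ?_⟩
        have h3 : z2 e = c := by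
          have h4 := hz2 e
          rw [e1, e2] at h4
          exact S.uniq h4 h'
        rw [f1]; apply Subtype.ext; simp only [e1, e2, h3]
      · exact absurd (e1.trans e2.symm) h1
  have hc : Nat.card (S.Ed × Fin 2) = Nat.card P := Nat.card_congr (Equiv.ofBijective f hbij)
  have hc2 : Nat.card (S.Ed × Fin 2) = Fintype.card S.Ed * 2 := by
    rw [Nat.card_eq_fintype_card, Fintype.card_prod, Fintype.card_fin]
  have hcount : Nat.card P + 12 = 6 * Fintype.card V := S.count
  omega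

end Pool.SX
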