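import Pool.Agent.Lib.MP_9dcace_sx.C3
import Pool.Agent.Lib.MP_9dcace_sx.C4b
import Pool.Agent.Lib.MP_9dcace_sx.C5
set_option autoImplicit false

/-! Row C6. A contour vertex strictly inside an arc of the contour has no chord to a contour vertex
off the closed curve (arc plus chord). For i < j ≤ m with c i, c j adjacent let
z u v = Σ_{k ∈ Ico i j} [ {u,v} = {c k, c (k+1)} ] + [ {u,v} = {c i, c j} ]
(written with ordered pairs: (u = c k ∧ v = c (k+1)) ∨ (u = c (k+1) ∧ v = c k)), values in ZMod 2.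
It is symmetric, supported on edges, even (telescoping sum), vanishes at removed vertices and at all
vertices which are not c i, ..., c j, and at s = c k (i < k < j) it is 1 exactly at c (k+1), c (k-1)
(injectivity of c). Apply Sph.fill, fill_zero. If q is a contour vertex not among c i .. c j, adjacent
to s by an edge which is not a contour edge, then T s q y with y ∈ W (inner_edge), so X s q y = 1 by
star_one and X s q y = X q y s = 0 by star_zero. -/

namespace Pool.SX
open Relation
variable {V : Type} [Fintype V] (S : Sph V) {a0 a1 a2 : V} {W : Finset V}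

open Classical in
/-- the indicator of the pair `{a, b}` -/
private noncomputable def C6_e (a b u v : V) : ZMod 2 :=
  (if u = a ∧ v = b then 1 else 0) + (if u = b ∧ v = a then 1 else 0)

open Classical in
omit [Fintype V] in
private theorem C6_e_symm (a b u v : V) : C6_e a b u v = C6_e a b v u := by
  unfold C6_e
  rw [add_comm]
  congr 1
  · exact if_congr and_comm rfl rfl
  · exact if_congr and_comm rfl rfl

omit [Fintype V] in
private theorem C6_e_ne {a b u v : V} (h : C6_e a b u v ≠ 0) :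
    (u = a ∧ v = b) ∨ (u = b ∧ v = a) := by
  by_contra hc
  rw [not_or] at hc
  exact h (by unfold C6_e; rw [if_neg hc.1, if_neg hc.2, add_zero])

omit [Fintype V] in
private theorem C6_e_zero {a b u : V} (v : V) (h1 : u ≠ a) (h2 : u ≠ b) : C6_e a b u v = 0 := by
  unfold C6_e
  rw [if_neg fun h => h1 h.1, if_neg fun h => h2 h.1, add_zero]

open Classical in
private theorem C6_e_sum (a b u : V) :
    ∑ v, C6_e a b u v = (if u = a then 1 else 0) + (if u = b then 1 else 0) := by
  have h : ∀ x y : V, (∑ v, if u = x ∧ v = y then (1 : ZMod 2) else 0) =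
      if u = x then 1 else 0 := by
    intro x y
    by_cases hx : u = x
    · simp only [hx, true_and, if_true]
      rw [Finset.sum_ite_eq' Finset.univ y]
      simp
    · simp only [hx, false_and, if_false, Finset.sum_const_zero]
  unfold C6_e
  rw [Finset.sum_add_distrib, h, h]

/-- the closed curve -/
private noncomputable def C6_z (c : ℕ → V) (i j : ℕ) (u v : V) : ZMod 2 :=
  ∑ l ∈ Finset.Ico i j, C6_e (c l) (c (l + 1)) u v + C6_e (c i) (c j) u v

omit [Fintype V] in
private theorem C6_z_symm (c : ℕ → V) (i j : ℕ) (u v : V) : C6_z c i j u v = C6_z c i j v u := by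
  unfold C6_z
  rw [C6_e_symm (c i) (c j) u v]
  congr 1
  exact Finset.sum_congr rfl fun l _ => C6_e_symm _ _ _ _

omit [Fintype V] in
private theorem C6_z_ne {c : ℕ → V} {i j : ℕ} {u v : V} (h : C6_z c i j u v ≠ 0) :
    (∃ l, i ≤ l ∧ l < j ∧ ((u = c l ∧ v = c (l + 1)) ∨ (u = c (l + 1) ∧ v = c l))) ∨
      (u = c i ∧ v = c j) ∨ (u = c j ∧ v = c i) := by
  by_cases h1 : C6_e (c i) (c j) u v = 0
  · left
    unfold C6_z at h
    rw [h1, add_zero] at h
    obtain ⟨l, hl, hl'⟩ := Finset.exists_ne_zero_of_sum_ne_zero h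
    rw [Finset.mem_Ico] at hl
    exact ⟨l, hl.1, hl.2, C6_e_ne hl'⟩
  · right
    exact C6_e_ne h1

open Classical in
private theorem C6_z_sum (c : ℕ → V) {i j : ℕ} (hij : i ≤ j) (u : V) :
    ∑ v, C6_z c i j u v = 0 := by
  unfold C6_z
  rw [Finset.sum_add_distrib, Finset.sum_comm, C6_e_sum]
  simp only [C6_e_sum]
  induction j, hij using Nat.le_induction with
  | base =>
    rw [Finset.Ico_self, Finset.sum_empty, zero_add]
    exact CharTwo.add_self_eq_zero _
  | succ j hij ih =>
    rw [Finset.sum_Ico_succ_top hij]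
    have h2 : ∀ x y z w : ZMod 2, x + (y + z) = 0 → x + (z + w) + (y + w) = 0 := by decide
    exact h2 _ _ _ _ ih

omit [Fintype V] in
private theorem C6_z_zero {c : ℕ → V} {i j : ℕ} {u : V} (hu : ∀ l, i ≤ l → l ≤ j → u ≠ c l)
    (hij : i ≤ j) (v : V) : C6_z c i j u v = 0 := by
  by_contra h
  rcases C6_z_ne h with ⟨l, h1, h2, h3 | h3⟩ | h3 | h3
  · exact hu l h1 h2.le h3.1
  · exact hu (l + 1) (by omega) (by omega) h3.1
  · exact hu i le_rfl hij h3.1
  · exact hu j hij le_rfl h3.1

omit [Fintype V] in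
/-- the curve at an inner vertex -/
private theorem C6_z_at {c : ℕ → V} {m i j k : ℕ} (hjm : j ≤ m)
    (hinj : ∀ i j, i ≤ m → j ≤ m → c i = c j → i = j) (hik : i < k) (hkj : k < j) (v : V) :
    C6_z c i j (c k) v = C6_e (c (k - 1)) (c k) (c k) v + C6_e (c k) (c (k + 1)) (c k) v := by
  have h0 : C6_e (c i) (c j) (c k) v = 0 := by
    refine C6_e_zero v (fun h => ?_) (fun h => ?_)
    · have := hinj k i (by omega) (by omega) h
      omega
    · have := hinj k j (by omega) (by omega) h
      omega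
  unfold C6_z
  rw [h0, add_zero]
  have h1 : ∀ l ∈ Finset.Ico i j, l ∉ ({k - 1, k} : Finset ℕ) →
      C6_e (c l) (c (l + 1)) (c k) v = 0 := by
    intro l hl hl'
    rw [Finset.mem_Ico] at hl
    simp only [Finset.mem_insert, Finset.mem_singleton, not_or] at hl'
    refine C6_e_zero v (fun h => ?_) (fun h => ?_)
    · have := hinj k l (by omega) (by omega) h
      omega
    · have := hinj k (l + 1) (by omega) (by omega) h
      omega
  have h2 : ({k - 1, k} : Finset ℕ) ⊆ Finset.Ico i j := by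
    intro l hl
    simp only [Finset.mem_insert, Finset.mem_singleton] at hl
    rw [Finset.mem_Ico]
    omega
  rw [← Finset.sum_subset h2 fun l hl hl' => h1 l hl hl', Finset.sum_pair (by omega)]
  have h3 : k - 1 + 1 = k := by omega
  rw [h3]

theorem Sph.Good.chord_on (hG : S.Good a0 a1 a2 W) (hf : S.T a1 a0 a2) {m : ℕ} {c : ℕ → V}
    (hc0 : c 0 = a0) (hcm : c m = a1) (hnxt : ∀ k, k < m → S.Nxt W (c k) (c (k + 1)))
    (hinj : ∀ i j, i ≤ m → j ≤ m → c i = c j → i = j) {i j : ℕ} (hij : i < j) (hjm : j ≤ m)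
    (hadj : S.Adj (c i) (c j)) {k : ℕ} (hik : i < k) (hkj : k < j) {q : V} (hq : S.Cont W q)
    (hkq : S.Adj (c k) q) (h1 : ¬ S.Nxt W (c k) q) (h2 : ¬ S.Nxt W q (c k)) :
    ∃ l, i ≤ l ∧ l ≤ j ∧ q = c l := by
  by_contra hc
  have hq' : ∀ l, i ≤ l → l ≤ j → q ≠ c l := fun l hl hl' h => hc ⟨l, hl, hl', h⟩
  have hmem : ∀ l, l ≤ m → c l ∈ W := by
    intro l hl
    rcases Nat.lt_or_ge l m with h | h
    · exact (hnxt l h).1
    · have hm : l = m := le_antisymm hl h
      have h3 := (hnxt (m - 1) (by omega)).2.1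
      have h4 : m - 1 + 1 = m := by omega
      rw [h4] at h3
      rw [hm]
      exact h3
  have hsupp : ∀ u v, C6_z c i j u v ≠ 0 → S.Adj u v := by
    intro u v h
    rcases C6_z_ne h with ⟨l, h3, h4, ⟨rfl, rfl⟩ | ⟨rfl, rfl⟩⟩ | ⟨rfl, rfl⟩ | ⟨rfl, rfl⟩
    · exact (S.nxt_cont (hnxt l (by omega))).2.2
    · exact S.adj_symm (S.nxt_cont (hnxt l (by omega))).2.2
    · exact hadj
    · exact S.adj_symm hadj
  have hzU : ∀ u, u ∉ W → ∀ v, C6_z c i j u v = 0 := by
    intro u hu v
    refine C6_z_zero (fun l _ h4 h5 => ?_) hij.le v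
    rw [h5] at hu
    exact hu (hmem l (by omega))
  obtain ⟨X, hrot, hX, h0⟩ := hG.fill_zero S (C6_z c i j) hzU
    (S.fill (C6_z c i j) (C6_z_symm c i j) hsupp (C6_z_sum c hij.le))
  have hk1 : k - 1 + 1 = k := by omega
  have hnk : S.Nxt W (c k) (c (k + 1)) := hnxt k (by omega)
  have hpk : S.Nxt W (c (k - 1)) (c k) := by
    have h3 := hnxt (k - 1) (by omega)
    rwa [hk1] at h3
  have hs0 : c k ≠ a0 := by
    rw [← hc0]
    intro h
    have := hinj k 0 (by omega) (by omega) h
    omega
  have hs1 : c k ≠ a1 := by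
    rw [← hcm]
    intro h
    have := hinj k m (by omega) (by omega) h
    omega
  have hz := C6_z_at (i := i) hjm hinj hik hkj
  have hne1 : c k ≠ c (k + 1) := fun h => by
    have := hinj k (k + 1) (by omega) (by omega) h
    omega
  have hne2 : c k ≠ c (k - 1) := fun h => by
    have := hinj k (k - 1) (by omega) (by omega) h
    omega
  have hne3 : c (k + 1) ≠ c (k - 1) := fun h => by
    have := hinj (k + 1) (k - 1) (by omega) (by omega) h
    omega
  have hzn : C6_z c i j (c k) (c (k + 1)) = 1 := by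
    rw [hz]
    simp [C6_e, hne1, hne2, hne3]
  have hzp : C6_z c i j (c k) (c (k - 1)) = 1 := by
    rw [hz]
    simp [C6_e, hne1, hne2, hne3.symm]
  have hzo : ∀ v, v ≠ c (k + 1) → v ≠ c (k - 1) → C6_z c i j (c k) v = 0 := by
    intro v h3 h4
    rw [hz]
    simp [C6_e, hne1, hne2, h3, h4]
  obtain ⟨y, hy⟩ := hkq
  have hsW : c k ∈ W := hmem k (by omega)
  have hyW : y ∈ W := S.inner_edge hsW hq.1 h1 hy
  have h5 := hG.star_one S hrot hX h0 (S.nxt_cont hnk).1 hs0 hs1 hnk hpk hzn hzp hzo hy hq.1 hyW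
  have h6 := S.star_zero hrot hX h0 hq (C6_z_zero hq' hij.le) (S.rot hy)
  rw [← hrot, h5] at h6
  exact one_ne_zero h6

end Pool.SX
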