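import Pool.Agent.Lib.MP_9dcace_sx.C6
set_option autoImplicit false

/-! Row C7. Existence of a removable vertex. Take the contour c 0 = a0, ..., c m = a1 (C3); m ≥ 2
because of contour_two. Suppose no c k, 0 < k < m, is removable: each has a contour neighbour q
which is neither next nor previous; chord_on with (i,j) = (0,m) gives q = c l; l ≠ k, k ± 1. Choose a
pair i < j ≤ m with c i, c j adjacent, i + 2 ≤ j, (0 < i or j < m), with j - i minimal. Then
k = i + 1 has such a q, chord_on for (i,j) gives q = c l with i ≤ l ≤ j, so i + 3 ≤ l ≤ j and the pair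
(i+1, l) is shorter: contradiction. -/

namespace Pool.SX
open Relation
variable {V : Type} [Fintype V] (S : Sph V) {a0 a1 a2 : V} {W : Finset V}

theorem Sph.Good.ex_remov (hG : S.Good a0 a1 a2 W) (hf : S.T a1 a0 a2)
    (hW : ∃ x ∈ W, x ≠ a0 ∧ x ≠ a1) :
    ∃ (m k : ℕ) (c : ℕ → V), c 0 = a0 ∧ c m = a1 ∧
      (∀ j, j < m → S.Nxt W (c j) (c (j + 1))) ∧
      (∀ i j, i ≤ m → j ≤ m → c i = c j → i = j) ∧ 0 < k ∧ k < m ∧ S.Remov W (c k) := by
  obtain ⟨m, c, hm, hc0, hcm, hnxt, hinj⟩ := hG.contour S hf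
  have hm2 : 2 ≤ m := by
    by_contra hlt
    have hm1 : m = 1 := by omega
    obtain ⟨x, hxW, hx0, hx1⟩ := hW
    have h01 : S.Nxt W a0 a1 := by
      have := hnxt 0 (by omega)
      rw [hc0] at this
      have e : c (0 + 1) = a1 := by
        rw [← hcm, hm1]
      rw [e] at this
      exact this
    rcases hG.contour_two S hf h01 hxW with h | h
    · exact hx0 h
    · exact hx1 h
  by_contra hno
  have hnr : ∀ k, 0 < k → k < m → ¬ S.Remov W (c k) := by
    intro k hk0 hkm hr
    exact hno ⟨m, k, c, hc0, hcm, hnxt, hinj, hk0, hkm, hr⟩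
  have hq : ∀ k, 0 < k → k < m → ∃ q, S.Cont W q ∧ S.Adj (c k) q ∧ ¬ S.Nxt W (c k) q ∧
      ¬ S.Nxt W q (c k) := by
    intro k hk0 hkm
    have h1 := hnr k hk0 hkm
    have hcont : S.Cont W (c k) := (S.nxt_cont (hnxt k hkm)).1
    by_contra hne
    apply h1
    refine ⟨hcont, ?_⟩
    intro y hy hadj
    by_contra hcon
    rw [not_or] at hcon
    exact hne ⟨y, hy, hadj, hcon.1, hcon.2⟩
  -- the key step: a chord (i, j) with i + 2 ≤ j yields a shorter chord
  have step : ∀ i j, i + 2 ≤ j → j ≤ m → S.Adj (c i) (c j) →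
      ∃ l, i + 3 ≤ l ∧ l ≤ j ∧ S.Adj (c (i + 1)) (c l) := by
    intro i j hij hjm hadj
    obtain ⟨q, hqc, hqa, hq1, hq2⟩ := hq (i + 1) (by omega) (by omega)
    obtain ⟨l, hil, hlj, hql⟩ := hG.chord_on S hf hc0 hcm hnxt hinj (i := i) (j := j) (by omega)
      hjm hadj (k := i + 1) (by omega) (by omega) hqc hqa hq1 hq2
    refine ⟨l, ?_, hlj, hql ▸ hqa⟩
    by_contra hlt
    have hcase : l = i ∨ l = i + 1 ∨ l = i + 2 := by omega
    rcases hcase with h | h | h
    · apply hq2
      rw [hql, h]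
      exact hnxt i (by omega)
    · obtain ⟨w, hw⟩ := hqa
      apply S.ne hw
      rw [hql, h]
    · apply hq1
      rw [hql, h]
      exact hnxt (i + 1) (by omega)
  have hadj0 : S.Adj (c 0) (c m) := by
    rw [hc0, hcm]
    exact S.adj_symm ⟨a2, hf⟩
  have none : ∀ d i j, j = i + d → 2 ≤ d → j ≤ m → S.Adj (c i) (c j) → False := by
    intro d
    induction d using Nat.strong_induction_on with
    | _ d ih =>
      intro i j hj hd hjm hadj
      obtain ⟨l, hl1, hl2, hl3⟩ := step i j (by omega) hjm hadj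
      exact ih (l - (i + 1)) (by omega) (i + 1) l (by omega) (by omega) (by omega) hl3
  exact none m 0 m (by omega) hm2 le_rfl hadj0

end Pool.SX
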