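import Pool.Agent.Lib.MP_9dcace_sx.Base
set_option autoImplicit false

/-!
Section C (helper31): canonical orders of an oriented triangulated sphere and the Schnyder structure
they define. Definitions only.
-/

namespace Pool.SX

open Relation

variable {V : Type} [Fintype V]

/-- u and v are joined by an edge -/
def Sph.Adj (S : Sph V) (u v : V) : Prop := ∃ w : V, S.T u v w

/-- Invariants of the set W of remaining vertices while vertices are removed one by one,
starting with a2; a0 and a1 always remain. -/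
structure Sph.Good (S : Sph V) (a0 a1 a2 : V) (W : Finset V) : Prop where
  m0 : a0 ∈ W
  m1 : a1 ∈ W
  m2 : a2 ∉ W
  /-- the removed neighbours of a remaining vertex are one arc of its link -/
  i1 : ∀ x ∈ W, ∀ v ∈ W, ∀ v' ∈ W, ∀ w w' : V, w ∉ W → w' ∉ W → S.T x v w → S.T x v' w' → v = v'
  /-- an edge between remaining vertices has a remaining vertex opposite to it, except a0 a1 -/
  i2 : ∀ x ∈ W, ∀ y ∈ W, ∀ w w' : V, w ∉ W → w' ∉ W → S.T x y w → S.T y x w' →
    (x = a0 ∧ y = a1) ∨ (x = a1 ∧ y = a0)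
  /-- the remaining vertices are connected -/
  i3 : ∀ x ∈ W, ∀ y ∈ W, ReflTransGen (fun p q => S.Adj p q ∧ q ∈ W) x y
  /-- the removed vertices are connected -/
  i5 : ∀ x : V, x ∉ W → ∀ y : V, y ∉ W → ReflTransGen (fun p q => S.Adj p q ∧ q ∉ W) x y

/-- contour vertex: remaining, with a removed neighbour -/
def Sph.Cont (S : Sph V) (W : Finset V) (x : V) : Prop := x ∈ W ∧ ∃ u : V, u ∉ W ∧ S.Adj x u

/-- y is the next contour vertex after x (the face on the left of x → y has a removed vertex) -/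
def Sph.Nxt (S : Sph V) (W : Finset V) (x y : V) : Prop :=
  x ∈ W ∧ y ∈ W ∧ ∃ w : V, w ∉ W ∧ S.T x y w

/-- a removable vertex: on the contour, and all its contour neighbours are next or previous -/
def Sph.Remov (S : Sph V) (W : Finset V) (x : V) : Prop :=
  S.Cont W x ∧ ∀ y : V, S.Cont W y → S.Adj x y → (S.Nxt W x y ∨ S.Nxt W y x)

/-- A canonical order (a 0 lowest, a 1 second, a 2 highest). -/
structure Sph.CanOrd (S : Sph V) (a : Fin 3 → V) (idx : V → ℕ) : Prop where
  face : S.T (a 1) (a 0) (a 2)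
  inj : Function.Injective idx
  low0 : ∀ v, v ≠ a 0 → idx (a 0) < idx v
  low1 : ∀ v, v ≠ a 0 → v ≠ a 1 → idx (a 1) < idx v
  high : ∀ v, v ≠ a 2 → idx v < idx (a 2)
  /-- the neighbours of u with index at most t form an arc of the link (t at least idx u) -/
  c1 : ∀ (u v v' w w' : V) (t : ℕ), idx u ≤ t → S.T u v w → S.T u v' w' →
    idx v ≤ t → t < idx w → idx v' ≤ t → t < idx w' → v = v'
  /-- an edge other than a 0 a 1 has an opposite vertex lower than one of its ends -/
  c2 : ∀ u v w w' : V, S.T u v w → S.T v u w' → ¬ (u = a 0 ∧ v = a 1) → ¬ (u = a 1 ∧ v = a 0) →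
    ¬ (idx u < idx w ∧ idx v < idx w ∧ idx u < idx w' ∧ idx v < idx w')
  c3 : ∀ v, v ≠ a 0 → ∃ u, S.Adj v u ∧ idx u < idx v
  c3' : ∀ v, v ≠ a 2 → ∃ u, S.Adj v u ∧ idx v < idx u

end Pool.SX
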