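import Pool.Agent.Lib.MP_9dcace_sx.C1
set_option autoImplicit false

/-! Row CS1. The three kinds of edges of a canonical order. E0 v u: edge v → u of colour 0, and so on.
In the link of v (x followed by y when T v x y):
 ex0: T v w u with w higher, u lower than v (Sph.cross with P = (idx v < idx ·); v has a higher and a
   lower neighbour c3', c3), then T v u w' and w' is lower by c2 (v is inner).
 ex1: T v u w' with u lower, w' higher, then T v w u with w lower by c2.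
 ex2: v → x with x the highest neighbour of v (finite set of neighbours, c3').
 uniq0 : c1' with t = idx v; uniq1 : c1. uniq2: E2 u x and E2 u x', idx x < idx x', t = idx x - 1;
   T u w' x is an ascending step for t; with P = (t < idx · and · ≠ x) and the successor w of x
   (lower than x) Sph.cross gives a step p → q into P: p ≤ t contradicts c1 (ascending step at
   another place), p = x contradicts that the successor of x is w.
 tri: by c2 and injectivity. -/

namespace Pool.SX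
open Relation
variable {V : Type} [Fintype V] (S : Sph V)

/-- edge v → u of colour 0 -/
def Sph.E0 (S : Sph V) (idx : V → ℕ) (v u : V) : Prop :=
  ∃ w w' : V, S.T u v w ∧ S.T v u w' ∧ idx u < idx v ∧ idx v < idx w ∧ idx w' < idx v

/-- edge v → u of colour 1 -/
def Sph.E1 (S : Sph V) (idx : V → ℕ) (v u : V) : Prop :=
  ∃ w w' : V, S.T u v w ∧ S.T v u w' ∧ idx u < idx v ∧ idx w < idx v ∧ idx v < idx w'

/-- edge u → v of colour 2 -/
def Sph.E2 (S : Sph V) (idx : V → ℕ) (u v : V) : Prop :=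
  ∃ w w' : V, S.T u v w ∧ S.T v u w' ∧ idx u < idx v ∧ idx w < idx v ∧ idx w' < idx v

variable {a : Fin 3 → V} {idx : V → ℕ}

private theorem CS1_lt_of {x y : V} (hC : S.CanOrd a idx) (hne : x ≠ y) (h : ¬ idx x < idx y) :
    idx y < idx x := by
  rcases lt_trichotomy (idx x) (idx y) with h1 | h1 | h1
  · exact absurd h1 h
  · exact absurd (hC.inj h1) hne
  · exact h1

theorem Sph.CanOrd.c1' (hC : S.CanOrd a idx) {u v v' w w' : V} {t : ℕ} (hu : idx u ≤ t)
    (h : S.T u w v) (h' : S.T u w' v') (hv : idx v ≤ t) (hw : t < idx w) (hv' : idx v' ≤ t)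
    (hw' : t < idx w') : v = v' := by
  refine S.desc_uniq (fun x => idx x ≤ t) ?_ h h' (by simpa using hw) hv (by simpa using hw') hv'
  intro p p' q q' h1 h2 h3 h4 h5 h6
  exact hC.c1 u p p' q q' t hu h1 h2 h3 (by simpa using h4) h5 (by simpa using h6)

theorem Sph.CanOrd.ex0 (hC : S.CanOrd a idx) {v : V} (hv : ∀ k, v ≠ a k) :
    ∃ u, S.E0 idx v u := by
  obtain ⟨lo, hlo, hlo'⟩ := hC.c3 v (hv 0)
  obtain ⟨hi, hhi, hhi'⟩ := hC.c3' v (hv 2)
  obtain ⟨w, u, hT, hw, hu⟩ := S.cross (fun x => idx v < idx x) hhi hhi' hlo (by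
    show ¬ idx v < idx lo
    omega)
  have hu1 : idx u < idx v := CS1_lt_of S hC (S.ne3 hT).2.2 hu
  obtain ⟨w', hw'⟩ := S.nxt hT
  have hT2 : S.T u v w := S.rot (S.rot hT)
  have hc := hC.c2 u v w w' hT2 hw' (fun h => hv 1 h.2) (fun h => hv 0 h.2)
  have hne : v ≠ w' := (S.ne3 hw').2.2
  refine ⟨u, w, w', hT2, hw', hu1, hw, CS1_lt_of S hC hne ?_⟩
  intro h1
  exact hc ⟨hu1.trans hw, hw, hu1.trans h1, h1⟩

theorem Sph.CanOrd.ex1 (hC : S.CanOrd a idx) {v : V} (hv : ∀ k, v ≠ a k) :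
    ∃ u, S.E1 idx v u := by
  obtain ⟨lo, hlo, hlo'⟩ := hC.c3 v (hv 0)
  obtain ⟨hi, hhi, hhi'⟩ := hC.c3' v (hv 2)
  obtain ⟨u, w', hT, hu, hw⟩ := S.cross (fun x => idx x < idx v) hlo hlo' hhi (by
    show ¬ idx hi < idx v
    omega)
  have hw1 : idx v < idx w' := CS1_lt_of S hC (S.ne3 hT).2.2.symm hw
  obtain ⟨w, hw'⟩ := S.prv hT
  have hT2 : S.T u v w := S.rot (S.rot hw')
  have hc := hC.c2 u v w w' hT2 hT (fun h => hv 1 h.2) (fun h => hv 0 h.2)
  have hne : v ≠ w := (S.ne3 hw').1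
  refine ⟨u, w, w', hT2, hT, hu, CS1_lt_of S hC hne ?_, hw1⟩
  intro h1
  have hu2 : idx u < idx v := hu
  exact hc ⟨hu2.trans h1, h1, hu2.trans hw1, hw1⟩

theorem Sph.CanOrd.ex2 (hC : S.CanOrd a idx) {v : V} (hv : v ≠ a 2) :
    ∃ u, S.E2 idx v u := by
  classical
  obtain ⟨hi, hhi, hhi'⟩ := hC.c3' v hv
  have hne : (Finset.univ.filter (fun x => S.Adj v x)).Nonempty := ⟨hi, by simpa using hhi⟩
  obtain ⟨u, hu, hmax⟩ := Finset.exists_max_image _ idx hne
  have huA : S.Adj v u := by simpa using hu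
  have hmax' : ∀ x, S.Adj v x → idx x ≤ idx u := fun x hx => hmax x (by simpa using hx)
  have hvu : idx v < idx u := lt_of_lt_of_le hhi' (hmax' hi hhi)
  obtain ⟨w, hw⟩ := huA
  obtain ⟨w', hw'⟩ := S.prv hw
  have hTu : S.T u v w' := S.rot (S.rot hw')
  refine ⟨u, w, w', hw, hTu, hvu, ?_, ?_⟩
  · have h1 := hmax' w (S.adj_of_T hw).2.1
    refine lt_of_le_of_ne h1 (fun h => ?_)
    exact (S.ne3 hw).2.1 (hC.inj h).symm
  · have h1 := hmax' w' (S.adj_of_T hw').1
    refine lt_of_le_of_ne h1 (fun h => ?_)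
    exact (S.ne3 hw').2.1 (hC.inj h)

theorem Sph.CanOrd.uniq0 (hC : S.CanOrd a idx) {v u u' : V} (h : S.E0 idx v u)
    (h' : S.E0 idx v u') : u = u' := by
  obtain ⟨w, _, h1, _, h2, h3, _⟩ := h
  obtain ⟨w', _, h1', _, h2', h3', _⟩ := h'
  exact hC.c1' S (le_refl (idx v)) (S.rot h1) (S.rot h1') h2.le h3 h2'.le h3'

theorem Sph.CanOrd.uniq1 (hC : S.CanOrd a idx) {v u u' : V} (h : S.E1 idx v u)
    (h' : S.E1 idx v u') : u = u' := by
  obtain ⟨_, w, _, h1, h2, _, h3⟩ := h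
  obtain ⟨_, w', _, h1', h2', _, h3'⟩ := h'
  exact hC.c1 v u u' w w' (idx v) le_rfl h1 h1' h2.le h3 h2'.le h3'

private theorem CS1_uniq2_aux (hC : S.CanOrd a idx) {v u u' : V} (h : S.E2 idx v u)
    (h' : S.E2 idx v u') : ¬ idx u < idx u' := by
  intro hlt
  obtain ⟨w, w', h1, h2, h3, h4, h5⟩ := h
  obtain ⟨z, z', g1, g2, g3, g4, g5⟩ := h'
  have hne : u' ≠ u := fun e => by rw [e] at hlt; exact lt_irrefl _ hlt
  obtain ⟨p, q, hT, hp, hq⟩ := S.cross (fun x => ¬ (idx u - 1 < idx x ∧ x ≠ u))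
    (S.adj_of_T h1).1 (by simp) (S.adj_of_T g1).1 (by
      show ¬ ¬ (idx u - 1 < idx u' ∧ u' ≠ u)
      rw [not_not]
      exact ⟨by omega, hne⟩)
  have hq' : idx u - 1 < idx q ∧ q ≠ u := not_not.1 hq
  have hp' : idx p ≤ idx u - 1 ∨ p = u := by
    by_cases hpu : p = u
    · exact Or.inr hpu
    · left
      by_contra hc
      exact hp ⟨by omega, hpu⟩
  rcases hp' with hp' | hp'
  · have e : p = w' := hC.c1 v p w' q u (idx u - 1) (by omega) hT (S.rot h2) hp' hq'.1 (by omega)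
      (by omega)
    rw [e] at hT
    exact hq'.2 (S.uniq hT (S.rot h2))
  · rw [hp'] at hT
    have e : q = w := S.uniq hT h1
    rw [e] at hq'
    omega

theorem Sph.CanOrd.uniq2 (hC : S.CanOrd a idx) {v u u' : V} (h : S.E2 idx v u)
    (h' : S.E2 idx v u') : u = u' := by
  rcases lt_trichotomy (idx u) (idx u') with h1 | h1 | h1
  · exact absurd h1 (CS1_uniq2_aux S hC h h')
  · exact hC.inj h1
  · exact absurd h1 (CS1_uniq2_aux S hC h' h)

theorem Sph.CanOrd.tri (hC : S.CanOrd a idx) {u v w w' : V} (h : S.T u v w) (h' : S.T v u w')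
    (huv : idx u < idx v) (hne : ¬ (u = a 0 ∧ v = a 1)) :
    S.E0 idx v u ∨ S.E1 idx v u ∨ S.E2 idx u v := by
  have hwv : v ≠ w := (S.ne3 h).2.1
  have hwv' : v ≠ w' := (S.ne3 h').2.2
  rcases Nat.lt_or_ge (idx v) (idx w) with h1 | h1
  · rcases Nat.lt_or_ge (idx v) (idx w') with h2 | h2
    · exfalso
      refine hC.c2 u v w w' h h' hne ?_ ⟨huv.trans h1, h1, huv.trans h2, h2⟩
      rintro ⟨e1, e2⟩
      have h3 := hC.low0 u (by rw [← e2]; exact (S.ne3 h).1)
      rw [← e2] at h3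
      omega
    · exact Or.inl ⟨w, w', h, h', huv, h1, lt_of_le_of_ne h2 (fun e => hwv' (hC.inj e).symm)⟩
  · have h1' : idx w < idx v := lt_of_le_of_ne h1 (fun e => hwv (hC.inj e).symm)
    rcases Nat.lt_or_ge (idx v) (idx w') with h2 | h2
    · exact Or.inr (Or.inl ⟨w, w', h, h', huv, h1', h2⟩)
    · exact Or.inr (Or.inr ⟨w, w', h, h', huv, h1',
        lt_of_le_of_ne h2 (fun e => hwv' (hC.inj e).symm)⟩)

end Pool.SX
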