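import Pool.Agent.Lib.MP_9dcace_sx.CS1
set_option autoImplicit false

/-! Row CS2. The outer vertices. In the link of a 0 the step a 2 → a 1 (T (a 0) (a 2) (a 1), from face)
is a descending step crossing every threshold t with idx (a 1) ≤ t < idx (a 2). If T (a 0) x y with
idx y < idx x is another step, take t = idx y: two descending steps, contradiction to c1'.
In the link of a 1 the step a 0 → a 2 is ascending and crosses every threshold; for T (a 1) x y with
idx x < idx y and x ≠ a 0 take t = idx x (≥ idx (a 1)) in c1. -/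

namespace Pool.SX
open Relation
variable {V : Type} [Fintype V] (S : Sph V) {a : Fin 3 → V} {idx : V → ℕ}

theorem Sph.CanOrd.at_a0 (hC : S.CanOrd a idx) {x y : V} (h : S.T (a 0) x y)
    (hne : ¬ (x = a 2 ∧ y = a 1)) : idx x < idx y := by
  by_contra hlt
  have hxy : x ≠ y := S.ne (S.rot h)
  have hya0 : y ≠ a 0 := S.ne (S.rot (S.rot h))
  have hlt' : idx y < idx x := by
    rcases lt_or_eq_of_le (not_lt.mp hlt) with h1 | h1
    · exact h1
    · exact absurd (hC.inj h1).symm hxy
  have hx2 : idx x ≤ idx (a 2) := by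
    by_cases h2 : x = a 2
    · rw [h2]
    · exact (hC.high x h2).le
  have h1y : idx (a 1) ≤ idx y := by
    by_cases h1 : y = a 1
    · rw [h1]
    · exact (hC.low1 y hya0 h1).le
  have hf : S.T (a 0) (a 2) (a 1) := S.rot hC.face
  have he : a 1 = y := Sph.CanOrd.c1' S hC (t := idx y) (hC.low0 y hya0).le hf h h1y
    (lt_of_lt_of_le hlt' hx2) le_rfl hlt'
  have h3 : S.T (a 1) (a 0) x := by
    rw [he]
    exact S.rot (S.rot h)
  exact hne ⟨S.uniq h3 hC.face, he.symm⟩

theorem Sph.CanOrd.at_a1 (hC : S.CanOrd a idx) {x y : V} (h : S.T (a 1) x y)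
    (hne : ¬ (x = a 0 ∧ y = a 2)) : idx y < idx x := by
  by_contra hlt
  have hxy : x ≠ y := S.ne (S.rot h)
  have hx1 : x ≠ a 1 := (S.ne h).symm
  have hlt' : idx x < idx y := by
    rcases lt_or_eq_of_le (not_lt.mp hlt) with h1 | h1
    · exact h1
    · exact absurd (hC.inj h1) hxy
  by_cases hx0 : x = a 0
  · refine hne ⟨hx0, ?_⟩
    rw [hx0] at h
    exact S.uniq h hC.face
  · have hy2 : idx y ≤ idx (a 2) := by
      by_cases h2 : y = a 2
      · rw [h2]
      · exact (hC.high y h2).le
    exact hx0 (hC.c1 (a 1) (a 0) x (a 2) y (idx x) (hC.low1 x hx0 hx1).le hC.face h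
      (hC.low0 x hx0).le (lt_of_lt_of_le hlt' hy2) le_rfl hlt').symm

theorem Sph.CanOrd.a_inj (hC : S.CanOrd a idx) : Function.Injective a := by
  have h10 : a 1 ≠ a 0 := S.ne hC.face
  have h02 : a 0 ≠ a 2 := S.ne (S.rot hC.face)
  have h21 : a 2 ≠ a 1 := S.ne (S.rot (S.rot hC.face))
  intro i j hij
  fin_cases i <;> fin_cases j
  · rfl
  · exact absurd hij.symm h10
  · exact absurd hij h02
  · exact absurd hij h10
  · rfl
  · exact absurd hij.symm h21
  · exact absurd hij.symm h02
  · exact absurd hij h21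
  · rfl

end Pool.SX
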