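import Pool.Agent.Lib.MP_9dcace_sx.CS1
set_option autoImplicit false

/-! Row CS3. Potential of colour 0 (and row CS4 colour 1 in the mirror image).
Induction on a bound t: there is r with the following properties for all v with idx v ≤ t:
r q < r p and r v < r p for the faces T v p q with top v, r u < r v if E1 v u, and r (a 1) < r (a 0).
Step: the new vertex v gets a value between r u (u the colour 1 end) and all r p; the values decrease
along the lower arc of the link of v. -/

namespace Pool.SX
open Relation
variable {V : Type} [Fintype V] (S : Sph V) {a : Fin 3 → V} {idx : V → ℕ}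

private theorem CS3_between (r : V → ℝ) (b : ℝ) :
    ∃ z : ℝ, b < z ∧ ∀ p : V, b < r p → z < r p := by
  have h1 : ∀ᶠ z in nhdsWithin b (Set.Ioi b), ∀ p : V, b < r p → z < r p := by
    rw [Filter.eventually_all]
    intro p
    by_cases hp : b < r p
    · filter_upwards [(eventually_lt_nhds hp).filter_mono nhdsWithin_le_nhds] with z hz
      intro _
      exact hz
    · exact Filter.Eventually.of_forall (fun z h => absurd h hp)
  have h2 : ∀ᶠ z in nhdsWithin b (Set.Ioi b), b < z := self_mem_nhdsWithin
  obtain ⟨z, hz1, hz2⟩ := (h1.and h2).exists
  exact ⟨z, hz2, hz1⟩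

private theorem CS3_below (r : V → ℝ) : ∃ z : ℝ, ∀ p : V, z < r p := by
  rcases isEmpty_or_nonempty V with hV | hV
  · exact ⟨0, fun p => (hV.false p).elim⟩
  · obtain ⟨p, hp⟩ := Finite.exists_min r
    exact ⟨r p - 1, fun q => by have := hp q; linarith⟩

private theorem CS3_edge (hC : S.CanOrd a idx) (t : ℕ) (r : V → ℝ)
    (I1 : ∀ p q v : V, idx v ≤ t → S.T v p q → idx p < idx v → idx q < idx v →
      ¬ (p = a 1 ∧ q = a 0) → r q < r p ∧ r v < r p)
    (I2 : ∀ u v : V, idx v ≤ t → S.E1 idx v u → r u < r v)
    (I3 : idx (a 1) ≤ t → r (a 1) < r (a 0)) {p q v : V} (hv : idx v ≤ t + 1)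
    (h : S.T v p q) (hp : idx p < idx v) (hq : idx q < idx v) (hne : ¬ (p = a 1 ∧ q = a 0)) :
    r q < r p := by
  have h1 : S.T p q v := S.rot h
  obtain ⟨w, hwv, hw⟩ := S.opp h1
  have hpq : p ≠ q := S.ne h1
  have hwp : w ≠ p := fun e => by
    have := S.ne (S.rot hw)
    exact this e.symm
  have hwq : w ≠ q := fun e => by
    have := S.ne (S.rot (S.rot hw))
    exact this e
  by_cases h01 : p = a 0 ∧ q = a 1
  · rw [h01.1, h01.2]
    apply I3
    rw [← h01.2]
    omega
  · have hc := hC.c2 p q v w h1 hw h01 hne
    have hva : idx v ≤ idx (a 2) := by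
      by_cases e : v = a 2
      · rw [e]
      · exact (hC.high v e).le
    rcases lt_or_gt_of_ne (fun e => hpq (hC.inj e) : idx p ≠ idx q) with hlt | hlt
    · have hwq' : idx w < idx q := by
        have h3 : idx w ≠ idx q := fun e => hwq (hC.inj e)
        by_contra hcon
        apply hc
        refine ⟨hp, hq, ?_, ?_⟩ <;> omega
      have := I1 p w q (by omega) hw hlt hwq' (by
        rintro ⟨e1, e2⟩
        rw [e1, e2] at hw
        have h4 : q = a 2 := S.uniq (S.rot hw) hC.face
        rw [h4] at hq
        omega)
      exact this.2
    · have hwp' : idx w < idx p := by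
        have h3 : idx w ≠ idx p := fun e => hwp (hC.inj e)
        by_contra hcon
        apply hc
        refine ⟨hp, hq, ?_, ?_⟩ <;> omega
      exact I2 q p (by omega) ⟨w, v, hw, h1, hlt, hwp', hp⟩

private theorem CS3_main (hC : S.CanOrd a idx) (t : ℕ) : ∃ r : V → ℝ,
    (∀ p q v : V, idx v ≤ t → S.T v p q → idx p < idx v → idx q < idx v →
      ¬ (p = a 1 ∧ q = a 0) → r q < r p ∧ r v < r p) ∧
    (∀ u v : V, idx v ≤ t → S.E1 idx v u → r u < r v) ∧
    (idx (a 1) ≤ t → r (a 1) < r (a 0)) := by
  classical
  have h01 : a 1 ≠ a 0 := S.ne hC.face
  have hl01 : idx (a 0) < idx (a 1) := hC.low0 _ h01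
  induction t with
  | zero =>
    refine ⟨fun _ => 0, ?_, ?_, ?_⟩
    · intro p q v hv _ hp _ _
      omega
    · rintro u v hv ⟨w, w', _, _, hu, _, _⟩
      omega
    · intro h
      omega
  | succ t ih =>
    obtain ⟨r, I1, I2, I3⟩ := ih
    by_cases hex : ∃ v : V, idx v = t + 1
    · obtain ⟨v, hv⟩ := hex
      -- the new value
      have key : ∃ z : ℝ, (∀ p q : V, S.T v p q → idx p < idx v → idx q < idx v →
          ¬ (p = a 1 ∧ q = a 0) → z < r p) ∧ (∀ u : V, S.E1 idx v u → r u < z) ∧
          (v = a 1 → z < r (a 0)) := by
        by_cases hE : ∃ u : V, S.E1 idx v u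
        · obtain ⟨u, hu⟩ := hE
          obtain ⟨w, w', hT1, hT2, hu1, hw1, hw2⟩ := id hu
          have hva2 : v ≠ a 2 := by
            intro e
            rw [e] at hw2
            by_cases e' : w' = a 2
            · rw [e'] at hw2
              omega
            · have := hC.high w' e'
              omega
          have hva1 : v ≠ a 1 := by
            intro e
            have e1 : u = a 0 := by
              by_contra e1
              by_cases e2 : u = a 1
              · rw [e2, e] at hu1
                omega
              · have := hC.low1 u e1 e2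
                rw [e] at hu1
                omega
            have e3 : w = a 0 := by
              by_contra e3
              by_cases e2 : w = a 1
              · rw [e2, e] at hw1
                omega
              · have := hC.low1 w e3 e2
                rw [e] at hw1
                omega
            have := S.ne (S.rot (S.rot hT1))
            exact this (e3.trans e1.symm)
          have hchain : ∀ x : V, ReflTransGen (fun x y => S.T v x y) x u → idx x < idx v →
              r u ≤ r x := by
            intro x hx
            induction hx using ReflTransGen.head_induction_on with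
            | refl => intro _; exact le_refl _
            | @head x y hxy _ ih' =>
              intro hxv
              by_cases hyv : idx y < idx v
              · have h5 := CS3_edge S hC t r I1 I2 I3 (by omega) hxy hxv hyv (by
                  rintro ⟨e1, e2⟩
                  rw [e1, e2] at hxy
                  exact hva2 (S.uniq (S.rot hxy) hC.face))
                exact (ih' hyv).trans h5.le
              · have hyv' : idx v < idx y := by
                  have h6 : y ≠ v := S.ne (S.rot (S.rot hxy))
                  have h7 : idx y ≠ idx v := fun e => h6 (hC.inj e)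
                  omega
                have : x = u := hC.c1 v x u y w' (idx v) (le_refl _) hxy hT2 hxv.le hyv' hu1.le hw2
                rw [this]
          obtain ⟨z, hz1, hz2⟩ := CS3_between r (r u)
          refine ⟨z, ?_, ?_, ?_⟩
          · intro p q hT hp hq hne
            apply hz2
            have h5 := CS3_edge S hC t r I1 I2 I3 (by omega) hT hp hq hne
            obtain ⟨q', hq'⟩ := S.nxt hT
            have h6 : ReflTransGen (fun x y => S.T v x y) q u := S.link hq' hT2
            exact lt_of_le_of_lt (hchain q h6 hq) h5
          · intro u' hu'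
            rw [hC.uniq1 S hu' hu]
            exact hz1
          · intro e
            exact absurd e hva1
        · obtain ⟨z, hz⟩ := CS3_below r
          exact ⟨z, fun p _ _ _ _ _ => hz p, fun u hu => absurd ⟨u, hu⟩ hE, fun _ => hz _⟩
      obtain ⟨z, hz1, hz2, hz3⟩ := key
      refine ⟨Function.update r v z, ?_, ?_, ?_⟩
      · intro p q v' hv' hT hp hq hne
        have hpv : p ≠ v := fun e => by rw [e] at hp; omega
        have hqv : q ≠ v := fun e => by rw [e] at hq; omega
        rw [Function.update_of_ne hpv, Function.update_of_ne hqv]
        refine ⟨CS3_edge S hC t r I1 I2 I3 hv' hT hp hq hne, ?_⟩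
        by_cases e : v' = v
        · rw [e, Function.update_self]
          rw [e] at hT hp hq
          exact hz1 p q hT hp hq hne
        · rw [Function.update_of_ne e]
          have h7 : idx v' ≠ t + 1 := fun e' => e (hC.inj (e'.trans hv.symm))
          exact (I1 p q v' (by omega) hT hp hq hne).2
      · intro u v' hv' hE
        obtain ⟨w, w', hT1, hT2, hu1, hw1, hw2⟩ := id hE
        have huv : u ≠ v := fun e => by rw [e] at hu1; omega
        rw [Function.update_of_ne huv]
        by_cases e : v' = v
        · rw [e, Function.update_self]
          rw [e] at hE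
          exact hz2 u hE
        · rw [Function.update_of_ne e]
          have h7 : idx v' ≠ t + 1 := fun e' => e (hC.inj (e'.trans hv.symm))
          exact I2 u v' (by omega) hE
      · intro h
        have h0v : a 0 ≠ v := fun e => by rw [e] at hl01; omega
        rw [Function.update_of_ne h0v]
        by_cases e : a 1 = v
        · rw [e, Function.update_self]
          exact hz3 e.symm
        · rw [Function.update_of_ne e]
          have h7 : idx (a 1) ≠ t + 1 := fun e' => e (hC.inj (e'.trans hv.symm))
          exact I3 (by omega)
    · refine ⟨r, ?_, ?_, ?_⟩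
      · intro p q v hv hT hp hq hne
        exact I1 p q v (by have : idx v ≠ t + 1 := fun e => hex ⟨v, e⟩; omega) hT hp hq hne
      · intro u v hv hE
        exact I2 u v (by have : idx v ≠ t + 1 := fun e => hex ⟨v, e⟩; omega) hE
      · intro h
        exact I3 (by have : idx (a 1) ≠ t + 1 := fun e => hex ⟨a 1, e⟩; omega)

theorem Sph.CanOrd.pot0 (hC : S.CanOrd a idx) :
    ∃ r : V → ℝ, ∀ p q v : V, S.T v p q → idx p < idx v → idx q < idx v →
      ¬ (p = a 1 ∧ q = a 0) → r q < r p ∧ r v < r p := by
  obtain ⟨r, hr, _, _⟩ := CS3_main S hC (idx (a 2))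
  refine ⟨r, fun p q v hT hp hq hne => hr p q v ?_ hT hp hq hne⟩
  by_cases e : v = a 2
  · rw [e]
  · exact (hC.high v e).le

end Pool.SX
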