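import Pool.Agent.Lib.MP_9dcace_sx.CS1
set_option autoImplicit false

/-! Row CS4. Potential of colour 1 (mirror image of row CS3).
Induction on a bound t: there is r with the following properties for all v with idx v ≤ t:
r p < r q and r v < r q for the faces T v p q with top v, r u < r v if E0 v u, and r (a 0) < r (a 1).
Step: the new vertex v gets a value between r u (u the colour 0 end) and all r q; the values increase
along the lower arc of the link of v. -/

namespace Pool.SX
open Relation
variable {V : Type} [Fintype V] (S : Sph V) {a : Fin 3 → V} {idx : V → ℕ}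

private theorem CS4_between (r : V → ℝ) (b : ℝ) :
    ∃ z : ℝ, b < z ∧ ∀ p : V, b < r p → z < r p := by
  have h1 : ∀ᶠ z in nhdsWithin b (Set.Ioi b), ∀ p : V, b < r p → z < r p := by
    rw [Filter.eventually_all]
    intro p
    by_cases hp : b < r p
    · filter_upwards [(eventually_lt_nhds hp).filter_mono nhdsWithin_le_nhds] with z hz
      intro _
      exact hz
    · exact Filter.Eventually.of_forall (fun z h => absurd h hp)
  have h2 : ∀ᶠ z in nhdsWithin b (Set.Ioi b), b < z := self_mem_nhdsWithin
  obtain ⟨z, hz1, hz2⟩ := (h1.and h2).exists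
  exact ⟨z, hz2, hz1⟩

private theorem CS4_below (r : V → ℝ) : ∃ z : ℝ, ∀ p : V, z < r p := by
  rcases isEmpty_or_nonempty V with hV | hV
  · exact ⟨0, fun p => (hV.false p).elim⟩
  · obtain ⟨p, hp⟩ := Finite.exists_min r
    exact ⟨r p - 1, fun q => by have := hp q; linarith⟩

private theorem CS4_edge (hC : S.CanOrd a idx) (t : ℕ) (r : V → ℝ)
    (I1 : ∀ p q v : V, idx v ≤ t → S.T v p q → idx p < idx v → idx q < idx v →
      ¬ (p = a 1 ∧ q = a 0) → r p < r q ∧ r v < r q)
    (I2 : ∀ u v : V, idx v ≤ t → S.E0 idx v u → r u < r v)
    (I3 : idx (a 1) ≤ t → r (a 0) < r (a 1)) {p q v : V} (hv : idx v ≤ t + 1)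
    (h : S.T v p q) (hp : idx p < idx v) (hq : idx q < idx v) (hne : ¬ (p = a 1 ∧ q = a 0)) :
    r p < r q := by
  have h1 : S.T p q v := S.rot h
  obtain ⟨w, hwv, hw⟩ := S.opp h1
  have hpq : p ≠ q := S.ne h1
  have hwp : w ≠ p := fun e => by
    have := S.ne (S.rot hw)
    exact this e.symm
  have hwq : w ≠ q := fun e => by
    have := S.ne (S.rot (S.rot hw))
    exact this e
  by_cases h01 : p = a 0 ∧ q = a 1
  · rw [h01.1, h01.2]
    apply I3
    rw [← h01.2]
    omega
  · have hc := hC.c2 p q v w h1 hw h01 hne
    have hva : idx v ≤ idx (a 2) := by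
      by_cases e : v = a 2
      · rw [e]
      · exact (hC.high v e).le
    rcases lt_or_gt_of_ne (fun e => hpq (hC.inj e) : idx p ≠ idx q) with hlt | hlt
    · have hwq' : idx w < idx q := by
        have h3 : idx w ≠ idx q := fun e => hwq (hC.inj e)
        by_contra hcon
        apply hc
        refine ⟨hp, hq, ?_, ?_⟩ <;> omega
      exact I2 p q (by omega) ⟨v, w, h1, hw, hlt, hq, hwq'⟩
    · have hwp' : idx w < idx p := by
        have h3 : idx w ≠ idx p := fun e => hwp (hC.inj e)
        by_contra hcon
        apply hc
        refine ⟨hp, hq, ?_, ?_⟩ <;> omega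
      have := I1 w q p (by omega) (S.rot hw) hwp' hlt (by
        rintro ⟨e1, e2⟩
        rw [e1, e2] at hw
        have h4 : p = a 2 := S.uniq (S.rot (S.rot hw)) hC.face
        rw [h4] at hp
        omega)
      exact this.2

private theorem CS4_main (hC : S.CanOrd a idx) (t : ℕ) : ∃ r : V → ℝ,
    (∀ p q v : V, idx v ≤ t → S.T v p q → idx p < idx v → idx q < idx v →
      ¬ (p = a 1 ∧ q = a 0) → r p < r q ∧ r v < r q) ∧
    (∀ u v : V, idx v ≤ t → S.E0 idx v u → r u < r v) ∧
    (idx (a 1) ≤ t → r (a 0) < r (a 1)) := by
  classical
  have h01 : a 1 ≠ a 0 := S.ne hC.face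
  have hl01 : idx (a 0) < idx (a 1) := hC.low0 _ h01
  induction t with
  | zero =>
    refine ⟨fun _ => 0, ?_, ?_, ?_⟩
    · intro p q v hv _ hp _ _
      omega
    · rintro u v hv ⟨w, w', _, _, hu, _, _⟩
      omega
    · intro h
      omega
  | succ t ih =>
    obtain ⟨r, I1, I2, I3⟩ := ih
    by_cases hex : ∃ v : V, idx v = t + 1
    · obtain ⟨v, hv⟩ := hex
      -- the new value
      have key : ∃ z : ℝ, (∀ p q : V, S.T v p q → idx p < idx v → idx q < idx v →
          ¬ (p = a 1 ∧ q = a 0) → z < r q) ∧ (∀ u : V, S.E0 idx v u → r u < z) ∧
          (v = a 1 → r (a 0) < z) := by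
        by_cases hva1 : v = a 1
        · have hlow : ∀ u : V, idx u < idx v → u = a 0 := by
            intro u hu
            by_contra e1
            by_cases e2 : u = a 1
            · rw [e2, hva1] at hu
              omega
            · have := hC.low1 u e1 e2
              rw [hva1] at hu
              omega
          refine ⟨r (a 0) + 1, ?_, ?_, fun _ => by linarith⟩
          · intro p q hT hp hq _
            exact absurd ((hlow p hp).trans (hlow q hq).symm) (S.ne (S.rot hT))
          · rintro u ⟨w, w', hT1, hT2, hu1, hw1, hw2⟩
            exact absurd ((hlow u hu1).trans (hlow w' hw2).symm) (S.ne (S.rot hT2))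
        · by_cases hE : ∃ u : V, S.E0 idx v u
          · obtain ⟨u, hu⟩ := hE
            obtain ⟨w, w', hT1, hT2, hu1, hw1, hw2⟩ := id hu
            have hva2 : v ≠ a 2 := by
              intro e
              rw [e] at hw1
              by_cases e' : w = a 2
              · rw [e'] at hw1
                omega
              · have := hC.high w e'
                omega
            have hchain : ∀ x : V, ReflTransGen (fun x y => S.T v x y) u x → idx x < idx v →
                r u ≤ r x := by
              intro x hx
              induction hx with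
              | refl => intro _; exact le_refl _
              | @tail y x _ hyx ih' =>
                intro hxv
                by_cases hyv : idx y < idx v
                · have h5 := CS4_edge S hC t r I1 I2 I3 (by omega) hyx hyv hxv (by
                    rintro ⟨e1, e2⟩
                    rw [e1, e2] at hyx
                    exact hva2 (S.uniq (S.rot hyx) hC.face))
                  exact (ih' hyv).trans h5.le
                · have hyv' : idx v < idx y := by
                    have h6 : v ≠ y := S.ne hyx
                    have h7 : idx v ≠ idx y := fun e => h6 (hC.inj e)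
                    omega
                  have : x = u := hC.c1' S (t := idx v) (le_refl _) hyx (S.rot hT1) hxv.le hyv'
                    hu1.le hw1
                  rw [this]
            obtain ⟨z, hz1, hz2⟩ := CS4_between r (r u)
            refine ⟨z, ?_, ?_, ?_⟩
            · intro p q hT hp hq hne
              apply hz2
              have h5 := CS4_edge S hC t r I1 I2 I3 (by omega) hT hp hq hne
              have h6 : ReflTransGen (fun x y => S.T v x y) u p := S.link hT2 hT
              exact lt_of_le_of_lt (hchain p h6 hp) h5
            · intro u' hu'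
              rw [hC.uniq0 S hu' hu]
              exact hz1
            · intro e
              exact absurd e hva1
          · obtain ⟨z, hz⟩ := CS4_below r
            exact ⟨z, fun _ q _ _ _ _ => hz q, fun u hu => absurd ⟨u, hu⟩ hE,
              fun e => absurd e hva1⟩
      obtain ⟨z, hz1, hz2, hz3⟩ := key
      refine ⟨Function.update r v z, ?_, ?_, ?_⟩
      · intro p q v' hv' hT hp hq hne
        have hpv : p ≠ v := fun e => by rw [e] at hp; omega
        have hqv : q ≠ v := fun e => by rw [e] at hq; omega
        rw [Function.update_of_ne hpv, Function.update_of_ne hqv]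
        refine ⟨CS4_edge S hC t r I1 I2 I3 hv' hT hp hq hne, ?_⟩
        by_cases e : v' = v
        · rw [e, Function.update_self]
          rw [e] at hT hp hq
          exact hz1 p q hT hp hq hne
        · rw [Function.update_of_ne e]
          have h7 : idx v' ≠ t + 1 := fun e' => e (hC.inj (e'.trans hv.symm))
          exact (I1 p q v' (by omega) hT hp hq hne).2
      · intro u v' hv' hE
        obtain ⟨w, w', hT1, hT2, hu1, hw1, hw2⟩ := id hE
        have huv : u ≠ v := fun e => by rw [e] at hu1; omega
        rw [Function.update_of_ne huv]
        by_cases e : v' = v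
        · rw [e, Function.update_self]
          rw [e] at hE
          exact hz2 u hE
        · rw [Function.update_of_ne e]
          have h7 : idx v' ≠ t + 1 := fun e' => e (hC.inj (e'.trans hv.symm))
          exact I2 u v' (by omega) hE
      · intro h
        have h0v : a 0 ≠ v := fun e => by rw [e] at hl01; omega
        rw [Function.update_of_ne h0v]
        by_cases e : a 1 = v
        · rw [e, Function.update_self]
          exact hz3 e.symm
        · rw [Function.update_of_ne e]
          have h7 : idx (a 1) ≠ t + 1 := fun e' => e (hC.inj (e'.trans hv.symm))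
          exact I3 (by omega)
    · refine ⟨r, ?_, ?_, ?_⟩
      · intro p q v hv hT hp hq hne
        exact I1 p q v (by have : idx v ≠ t + 1 := fun e => hex ⟨v, e⟩; omega) hT hp hq hne
      · intro u v hv hE
        exact I2 u v (by have : idx v ≠ t + 1 := fun e => hex ⟨v, e⟩; omega) hE
      · intro h
        exact I3 (by have : idx (a 1) ≠ t + 1 := fun e => hex ⟨a 1, e⟩; omega)

theorem Sph.CanOrd.pot1 (hC : S.CanOrd a idx) :
    ∃ r : V → ℝ, ∀ p q v : V, S.T v p q → idx p < idx v → idx q < idx v →
      ¬ (p = a 1 ∧ q = a 0) → r p < r q ∧ r v < r q := by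
  obtain ⟨r, hr, _, _⟩ := CS4_main S hC (idx (a 2))
  refine ⟨r, fun p q v hT hp hq hne => hr p q v ?_ hT hp hq hne⟩
  by_cases e : v = a 2
  · rw [e]
  · exact (hC.high v e).le

end Pool.SX
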