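import Pool.Agent.Lib.MP_9dcace_sx.CS2
import Pool.Agent.Lib.MP_9dcace_sx.CS3
import Pool.Agent.Lib.MP_9dcace_sx.CS4
import Pool.Agent.Lib.MP_9dcace_sx.CS5
set_option autoImplicit false

/-! Row CS6. The face type and the edge rule. A face is a triple (t0, t1, t2) with T t0 t1 t2, t2 highest,
not the outer face. E-edges: IsE c v u is the edge v → u of colour c.
 isE_left: for the edge v → u of colour c there is a face with t (c+2) = v, t c = u:
   c = 0: (u, w', v) (w' lower);  c = 1: (v, u, w') (w' higher);  c = 2 (edge u → x, both lower):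
   (w, u, x) where T u x w.
 isE_right: t (c+1) = v, t c = u: c = 0: (u, v, w) (w higher); c = 1: (w, u, v) (w lower);
   c = 2 (edge u → x): (u, w', x) where T x u w'.
 rule (k = 0,1,2): the edge (t k g, t (k+1) g) is outer or IsE (k+1) (t k g) (t (k+1) g) or
   IsE k (t (k+1) g) (t k g), and the vertex it leaves is inner (tri, at_a0, at_a1, high). -/

namespace Pool.SX
open Relation
variable {V : Type} [Fintype V]

/-- inner faces as labelled triples -/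
def FT (S : Sph V) (a : Fin 3 → V) (idx : V → ℕ) : Type :=
  {p : V × V × V // S.T p.1 p.2.1 p.2.2 ∧ idx p.1 < idx p.2.2 ∧ idx p.2.1 < idx p.2.2 ∧
    ¬ (p.1 = a 1 ∧ p.2.1 = a 0)}

noncomputable instance (S : Sph V) (a : Fin 3 → V) (idx : V → ℕ) : Fintype (FT S a idx) := by
  classical
  exact Fintype.ofFinite {p : V × V × V // S.T p.1 p.2.1 p.2.2 ∧ idx p.1 < idx p.2.2 ∧
    idx p.2.1 < idx p.2.2 ∧ ¬ (p.1 = a 1 ∧ p.2.1 = a 0)}

/-- the labels of a face -/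
def ft {S : Sph V} {a : Fin 3 → V} {idx : V → ℕ} (k : Fin 3) (g : FT S a idx) : V :=
  ![g.1.1, g.1.2.1, g.1.2.2] k

/-- edge v → u of colour c -/
def IsE (S : Sph V) (idx : V → ℕ) (c : Fin 3) (v u : V) : Prop :=
  (c = 0 ∧ S.E0 idx v u) ∨ (c = 1 ∧ S.E1 idx v u) ∨ (c = 2 ∧ S.E2 idx v u)

variable {S : Sph V} {a : Fin 3 → V} {idx : V → ℕ}

theorem CS6_cases (k : Fin 3) : k = 0 ∨ k = 1 ∨ k = 2 := by
  revert k
  decide

theorem CS6_E0 {v u : V} (h : S.E0 idx v u) : IsE S idx 0 v u := Or.inl ⟨rfl, h⟩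
theorem CS6_E1 {v u : V} (h : S.E1 idx v u) : IsE S idx 1 v u := Or.inr (Or.inl ⟨rfl, h⟩)
theorem CS6_E2 {v u : V} (h : S.E2 idx v u) : IsE S idx 2 v u := Or.inr (Or.inr ⟨rfl, h⟩)

theorem ft_T (k : Fin 3) (g : FT S a idx) : S.T (ft k g) (ft (k + 1) g) (ft (k + 2) g) := by
  obtain rfl | rfl | rfl := CS6_cases k
  · exact g.2.1
  · exact S.rot g.2.1
  · exact S.rot (S.rot g.2.1)

/-- a face is determined by one directed edge and its label -/
theorem ft_uniq {k : Fin 3} {g g' : FT S a idx} (h0 : ft k g = ft k g')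
    (h1 : ft (k + 1) g = ft (k + 1) g') : g = g' := by
  have e1 := ft_T k g
  have e2 := ft_T k g'
  rw [← h0, ← h1] at e2
  have h2 := S.uniq e1 e2
  obtain rfl | rfl | rfl := CS6_cases k
  · exact Subtype.ext (Prod.ext h0 (Prod.ext h1 h2))
  · exact Subtype.ext (Prod.ext h2 (Prod.ext h0 h1))
  · exact Subtype.ext (Prod.ext h1 (Prod.ext h2 h0))

/-- every inner triangle is a face -/
theorem ft_surj (hC : S.CanOrd a idx) {u v w : V} (h : S.T u v w) (h0 : ¬ OutF a u v w) :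
    ∃ (g : FT S a idx) (k : Fin 3), ft k g = u ∧ ft (k + 1) g = v ∧ ft (k + 2) g = w := by
  have huv : idx u ≠ idx v := fun e => S.ne h (hC.inj e)
  have hvw : idx v ≠ idx w := fun e => S.ne (S.rot h) (hC.inj e)
  have hwu : idx w ≠ idx u := fun e => S.ne (S.rot (S.rot h)) (hC.inj e)
  by_cases h1 : idx u < idx w ∧ idx v < idx w
  · refine ⟨⟨(u, v, w), h, h1.1, h1.2, ?_⟩, 0, rfl, rfl, rfl⟩
    rintro ⟨e1, e2⟩
    change u = a 1 at e1
    change v = a 0 at e2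
    apply h0
    left
    refine ⟨e1, e2, ?_⟩
    rw [e1, e2] at h
    exact S.uniq h hC.face
  by_cases h2 : idx v < idx u ∧ idx w < idx u
  · refine ⟨⟨(v, w, u), S.rot h, h2.1, h2.2, ?_⟩, 2, rfl, rfl, rfl⟩
    rintro ⟨e1, e2⟩
    change v = a 1 at e1
    change w = a 0 at e2
    apply h0
    right; right
    refine ⟨?_, e1, e2⟩
    have h' := S.rot h
    rw [e1, e2] at h'
    exact S.uniq h' hC.face
  · refine ⟨⟨(w, u, v), S.rot (S.rot h), ?_, ?_, ?_⟩, 1, rfl, rfl, rfl⟩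
    · change idx w < idx v
      omega
    · change idx u < idx v
      omega
    · rintro ⟨e1, e2⟩
      change w = a 1 at e1
      change u = a 0 at e2
      apply h0
      right; left
      refine ⟨e2, ?_, e1⟩
      have h' := S.rot (S.rot h)
      rw [e1, e2] at h'
      exact S.uniq h' hC.face

theorem CS6_out_rot {u v w : V} (h : OutF a u v w) : OutF a v w u := by
  rcases h with ⟨h1, h2, h3⟩ | ⟨h1, h2, h3⟩ | ⟨h1, h2, h3⟩
  · exact Or.inr (Or.inl ⟨h2, h3, h1⟩)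
  · exact Or.inr (Or.inr ⟨h2, h3, h1⟩)
  · exact Or.inl ⟨h2, h3, h1⟩

theorem CS6_a01 (hC : S.CanOrd a idx) : a 0 ≠ a 1 := (S.ne hC.face).symm
theorem CS6_a02 (hC : S.CanOrd a idx) : a 0 ≠ a 2 := S.ne (S.rot hC.face)
theorem CS6_a12 (hC : S.CanOrd a idx) : a 1 ≠ a 2 := (S.ne (S.rot (S.rot hC.face))).symm

/-- the highest vertex of a face is not `a 0` -/
theorem CS6_z0 (g : FT S a idx) (hC : S.CanOrd a idx) : g.1.2.2 ≠ a 0 := by
  intro e
  have h1 := g.2.2.1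
  rw [e] at h1
  by_cases h2 : g.1.1 = a 0
  · rw [h2] at h1
    exact lt_irrefl _ h1
  · exact absurd (hC.low0 _ h2) (by omega)

/-- a vertex lower than `a 1` is `a 0` -/
theorem CS6_low (hC : S.CanOrd a idx) {v : V} (h : idx v < idx (a 1)) : v = a 0 := by
  by_contra h0
  by_cases h1 : v = a 1
  · rw [h1] at h
    exact lt_irrefl _ h
  · have := hC.low1 v h0 h1
    omega

theorem CS6_z1 (g : FT S a idx) (hC : S.CanOrd a idx) : g.1.2.2 ≠ a 1 := by
  intro e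
  have h1 := g.2.2.1
  have h2 := g.2.2.2.1
  rw [e] at h1 h2
  have e1 := CS6_low hC h1
  have e2 := CS6_low hC h2
  exact S.ne g.2.1 (e1.trans e2.symm)

theorem CS6_nothigh (hC : S.CanOrd a idx) {u v : V} (h : idx u < idx v) : u ≠ a 2 := by
  rintro rfl
  by_cases h1 : v = a 2
  · rw [h1] at h
    exact lt_irrefl _ h
  · have := hC.high v h1
    omega

theorem CS6_x1 (g : FT S a idx) (hC : S.CanOrd a idx) : g.1.1 ≠ a 1 := by
  intro e
  have h1 := g.2.1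
  rw [e] at h1
  by_cases h2 : g.1.2.1 = a 0 ∧ g.1.2.2 = a 2
  · exact g.2.2.2.2 ⟨e, h2.1⟩
  · have h3 := hC.at_a1 S h1 h2
    have h4 := g.2.2.2.1
    omega

theorem CS6_y0 (g : FT S a idx) (hC : S.CanOrd a idx) : g.1.2.1 ≠ a 0 := by
  intro e
  have h1 := S.rot g.2.1
  rw [e] at h1
  by_cases h2 : g.1.2.2 = a 2 ∧ g.1.1 = a 1
  · exact g.2.2.2.2 ⟨h2.2, e⟩
  · have h3 := hC.at_a0 S h1 h2
    have h4 := g.2.2.1
    omega

theorem ft_lab (hC : S.CanOrd a idx) (g : FT S a idx) (j k : Fin 3) (h : ft j g = a k) :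
    j = k := by
  have hx2 := CS6_nothigh hC g.2.2.1
  have hy2 := CS6_nothigh hC g.2.2.2.1
  have hx1 := CS6_x1 g hC
  have hy0 := CS6_y0 g hC
  have hz0 := CS6_z0 g hC
  have hz1 := CS6_z1 g hC
  obtain rfl | rfl | rfl := CS6_cases j
  · change g.1.1 = a k at h
    obtain rfl | rfl | rfl := CS6_cases k
    · rfl
    · exact absurd h hx1
    · exact absurd h hx2
  · change g.1.2.1 = a k at h
    obtain rfl | rfl | rfl := CS6_cases k
    · exact absurd h hy0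
    · rfl
    · exact absurd h hy2
  · change g.1.2.2 = a k at h
    obtain rfl | rfl | rfl := CS6_cases k
    · exact absurd h hz0
    · exact absurd h hz1
    · rfl

theorem ft_inner (hC : S.CanOrd a idx) (k : Fin 3) (g : FT S a idx) :
    ¬ OutF a (ft k g) (ft (k + 1) g) (ft (k + 2) g) := by
  have key : ¬ OutF a (g.1.1) (g.1.2.1) (g.1.2.2) := by
    rintro (⟨h1, h2, h3⟩ | ⟨h1, h2, h3⟩ | ⟨h1, h2, h3⟩)
    · exact g.2.2.2.2 ⟨h1, h2⟩
    · exact CS6_z1 g hC h3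
    · exact CS6_z0 g hC h3
  obtain rfl | rfl | rfl := CS6_cases k
  · exact key
  · intro h
    exact key (CS6_out_rot (CS6_out_rot h))
  · intro h
    exact key (CS6_out_rot h)

theorem isE_ex (hC : S.CanOrd a idx) (c : Fin 3) {v : V} (hv : ∀ k, v ≠ a k) :
    ∃ u, IsE S idx c v u := by
  obtain rfl | rfl | rfl := CS6_cases c
  · obtain ⟨u, hu⟩ := hC.ex0 S hv
    exact ⟨u, CS6_E0 hu⟩
  · obtain ⟨u, hu⟩ := hC.ex1 S hv
    exact ⟨u, CS6_E1 hu⟩
  · obtain ⟨u, hu⟩ := hC.ex2 S (hv 2)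
    exact ⟨u, CS6_E2 hu⟩

theorem isE_uniq (hC : S.CanOrd a idx) {c : Fin 3} {v u u' : V} (h : IsE S idx c v u)
    (h' : IsE S idx c v u') : u = u' := by
  rcases h with ⟨rfl, h⟩ | ⟨rfl, h⟩ | ⟨rfl, h⟩
  · rcases h' with ⟨-, h'⟩ | ⟨h0, -⟩ | ⟨h0, -⟩
    · exact hC.uniq0 S h h'
    · exact absurd h0 (by decide)
    · exact absurd h0 (by decide)
  · rcases h' with ⟨h0, -⟩ | ⟨-, h'⟩ | ⟨h0, -⟩
    · exact absurd h0 (by decide)
    · exact hC.uniq1 S h h'
    · exact absurd h0 (by decide)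
  · rcases h' with ⟨h0, -⟩ | ⟨h0, -⟩ | ⟨-, h'⟩
    · exact absurd h0 (by decide)
    · exact absurd h0 (by decide)
    · exact hC.uniq2 S h h'

theorem isE_left (hC : S.CanOrd a idx) {c : Fin 3} {v u : V} (hv : ∀ k, v ≠ a k)
    (h : IsE S idx c v u) : ∃ g : FT S a idx, ft (c + 2) g = v ∧ ft c g = u := by
  rcases h with ⟨rfl, w, w', h1, h2, h3, h4, h5⟩ | ⟨rfl, w, w', h1, h2, h3, h4, h5⟩ |
    ⟨rfl, w, w', h1, h2, h3, h4, h5⟩
  · refine ⟨⟨(u, w', v), S.rot h2, h3, h5, ?_⟩, rfl, rfl⟩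
    rintro ⟨e1, e2⟩
    change u = a 1 at e1
    change w' = a 0 at e2
    have h' := S.rot h2
    rw [e1, e2] at h'
    exact hv 2 (S.uniq h' hC.face)
  · refine ⟨⟨(v, u, w'), h2, h5, h3.trans h5, ?_⟩, rfl, rfl⟩
    rintro ⟨e1, -⟩
    exact hv 1 e1
  · refine ⟨⟨(w, v, u), S.rot (S.rot h1), h4, h3, ?_⟩, rfl, rfl⟩
    rintro ⟨-, e2⟩
    exact hv 0 e2

theorem isE_right (hC : S.CanOrd a idx) {c : Fin 3} {v u : V} (hv : ∀ k, v ≠ a k)
    (h : IsE S idx c v u) : ∃ g : FT S a idx, ft (c + 1) g = v ∧ ft c g = u := by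
  rcases h with ⟨rfl, w, w', h1, h2, h3, h4, h5⟩ | ⟨rfl, w, w', h1, h2, h3, h4, h5⟩ |
    ⟨rfl, w, w', h1, h2, h3, h4, h5⟩
  · refine ⟨⟨(u, v, w), h1, h3.trans h4, h4, ?_⟩, rfl, rfl⟩
    rintro ⟨-, e2⟩
    exact hv 0 e2
  · refine ⟨⟨(w, u, v), S.rot (S.rot h1), h4, h3, ?_⟩, rfl, rfl⟩
    rintro ⟨e1, e2⟩
    change w = a 1 at e1
    change u = a 0 at e2
    have h' := S.rot (S.rot h1)
    rw [e1, e2] at h'
    exact hv 2 (S.uniq h' hC.face)
  · refine ⟨⟨(v, w', u), S.rot h2, h3, h5, ?_⟩, rfl, rfl⟩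
    rintro ⟨e1, -⟩
    exact hv 1 e1

/-- a vertex which is none of the three outer ones -/
theorem CS6_inn {v : V} (h0 : v ≠ a 0) (h1 : v ≠ a 1) (h2 : v ≠ a 2) : ∀ j, v ≠ a j := by
  intro j
  obtain rfl | rfl | rfl := CS6_cases j
  · exact h0
  · exact h1
  · exact h2

/-- the edge rule -/
theorem ft_rule (hC : S.CanOrd a idx) (g : FT S a idx) (k : Fin 3) :
    (ft k g = a k ∧ ft (k + 1) g = a (k + 1)) ∨
    ((∀ j, ft k g ≠ a j) ∧ IsE S idx (k + 1) (ft k g) (ft (k + 1) g)) ∨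
    ((∀ j, ft (k + 1) g ≠ a j) ∧ IsE S idx k (ft (k + 1) g) (ft k g)) := by
  have hx2 := CS6_nothigh hC g.2.2.1
  have hy2 := CS6_nothigh hC g.2.2.2.1
  have hx1 := CS6_x1 g hC
  have hy0 := CS6_y0 g hC
  have hz0 := CS6_z0 g hC
  have hz1 := CS6_z1 g hC
  obtain ⟨⟨x, y, z⟩, hT, hxz, hyz, hne⟩ := g
  change S.T x y z at hT
  change idx x < idx z at hxz
  change idx y < idx z at hyz
  change ¬ (x = a 1 ∧ y = a 0) at hne
  change x ≠ a 2 at hx2
  change y ≠ a 2 at hy2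
  change x ≠ a 1 at hx1
  change y ≠ a 0 at hy0
  change z ≠ a 0 at hz0
  change z ≠ a 1 at hz1
  obtain rfl | rfl | rfl := CS6_cases k
  · change (x = a 0 ∧ y = a 1) ∨ ((∀ j, x ≠ a j) ∧ IsE S idx 1 x y) ∨
      ((∀ j, y ≠ a j) ∧ IsE S idx 0 y x)
    obtain ⟨w', -, hw'⟩ := S.opp hT
    by_cases hout : x = a 0 ∧ y = a 1
    · exact Or.inl hout
    rcases lt_trichotomy (idx x) (idx y) with hlt | heq | hgt
    · right; right
      refine ⟨CS6_inn hy0 ?_ hy2, ?_⟩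
      · intro e
        rw [e] at hlt
        exact hout ⟨CS6_low hC hlt, e⟩
      · rcases hC.tri S hT hw' hlt hout with h | h | h
        · exact CS6_E0 h
        · obtain ⟨w1, w2, h1, h2, h3, h4, h5⟩ := h
          rw [S.uniq h1 hT] at h4
          omega
        · obtain ⟨w1, w2, h1, h2, h3, h4, h5⟩ := h
          rw [S.uniq h1 hT] at h4
          omega
    · exact absurd (hC.inj heq) (S.ne hT)
    · right; left
      refine ⟨CS6_inn ?_ hx1 hx2, ?_⟩
      · intro e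
        rw [e] at hgt
        by_cases h0 : y = a 0
        · exact hy0 h0
        · have := hC.low0 y h0
          omega
      · rcases hC.tri S hw' hT hgt (fun h => hne ⟨h.2, h.1⟩) with h | h | h
        · obtain ⟨w1, w2, h1, h2, h3, h4, h5⟩ := h
          rw [S.uniq h2 hT] at h5
          omega
        · exact CS6_E1 h
        · obtain ⟨w1, w2, h1, h2, h3, h4, h5⟩ := h
          rw [S.uniq h2 hT] at h5
          omega
  · change (y = a 1 ∧ z = a 2) ∨ ((∀ j, y ≠ a j) ∧ IsE S idx 2 y z) ∨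
      ((∀ j, z ≠ a j) ∧ IsE S idx 1 z y)
    have hT' := S.rot hT
    obtain ⟨w', -, hw'⟩ := S.opp hT'
    rcases hC.tri S hT' hw' hyz (fun h => hz1 h.2) with h | h | h
    · obtain ⟨w1, w2, h1, h2, h3, h4, h5⟩ := h
      rw [S.uniq h1 hT'] at h4
      omega
    · right; right
      refine ⟨CS6_inn hz0 hz1 ?_, CS6_E1 h⟩
      obtain ⟨w1, w2, h1, h2, h3, h4, h5⟩ := h
      exact CS6_nothigh hC h5
    · by_cases hy1 : y = a 1
      · left
        refine ⟨hy1, ?_⟩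
        obtain ⟨w1, w2, h1, h2, h3, h4, h5⟩ := h
        have h6 := S.rot h2
        rw [hy1] at h6
        by_cases h7 : w2 = a 0 ∧ z = a 2
        · exact h7.2
        · have := hC.at_a1 S h6 h7
          omega
      · right; left
        exact ⟨CS6_inn hy0 hy1 hy2, CS6_E2 h⟩
  · change (z = a 2 ∧ x = a 0) ∨ ((∀ j, z ≠ a j) ∧ IsE S idx 0 z x) ∨
      ((∀ j, x ≠ a j) ∧ IsE S idx 2 x z)
    have hT' := S.rot (S.rot hT)
    obtain ⟨w', -, hw'⟩ := S.opp hT'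
    rcases hC.tri S hw' hT' hxz (fun h => hz1 h.2) with h | h | h
    · right; left
      refine ⟨CS6_inn hz0 hz1 ?_, CS6_E0 h⟩
      obtain ⟨w1, w2, h1, h2, h3, h4, h5⟩ := h
      exact CS6_nothigh hC h4
    · obtain ⟨w1, w2, h1, h2, h3, h4, h5⟩ := h
      rw [S.uniq h2 hT'] at h5
      omega
    · by_cases hx0 : x = a 0
      · left
        refine ⟨?_, hx0⟩
        obtain ⟨w1, w2, h1, h2, h3, h4, h5⟩ := h
        rw [hx0] at h1
        by_cases h7 : z = a 2 ∧ w1 = a 1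
        · exact h7.1
        · have := hC.at_a0 S h1 h7
          omega
      · right; right
        exact ⟨CS6_inn hx0 hx1 hx2, CS6_E2 h⟩

/-- the inner face at the outer edge a k, a (k+1) -/
theorem ft_outer (hC : S.CanOrd a idx) (k : Fin 3) :
    ∃ g : FT S a idx, ft k g = a k ∧ ft (k + 1) g = a (k + 1) := by
  have h01 := CS6_a01 hC
  have h02 := CS6_a02 hC
  have h12 := CS6_a12 hC
  obtain rfl | rfl | rfl := CS6_cases k
  · obtain ⟨w, hw, h⟩ := S.opp hC.face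
    have hw0 : w ≠ a 0 := S.ne (S.rot (S.rot h))
    have hw1 : w ≠ a 1 := (S.ne (S.rot h)).symm
    refine ⟨⟨(a 0, a 1, w), h, hC.low0 w hw0, hC.low1 w hw0 hw1, ?_⟩, rfl, rfl⟩
    rintro ⟨e, -⟩
    exact h01 e
  · obtain ⟨w, hw, h⟩ := S.opp (S.rot (S.rot hC.face))
    have hw2 : w ≠ a 2 := (S.ne (S.rot h)).symm
    have hw1 : w ≠ a 1 := S.ne (S.rot (S.rot h))
    refine ⟨⟨(w, a 1, a 2), S.rot (S.rot h), hC.high w hw2, hC.high _ h12, ?_⟩, rfl, rfl⟩
    rintro ⟨e, -⟩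
    exact hw1 e
  · obtain ⟨w, hw, h⟩ := S.opp (S.rot hC.face)
    have hw2 : w ≠ a 2 := S.ne (S.rot (S.rot h))
    refine ⟨⟨(a 0, w, a 2), S.rot h, hC.high _ h02, hC.high w hw2, ?_⟩, rfl, rfl⟩
    rintro ⟨e, -⟩
    exact h01 e

end Pool.SX
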