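import Pool.Agent.Lib.MP_9dcace_sx.FDefs

/-!
ROW F1 (matrix-forest theorem, 100-150 lines).  `DF om I = det (KM om I)`.
PROOF. Rows of `KM om I`: for `v ∈ I` the row is `∑ u, om v u • (e_v - e_u)`. `Matrix.det` is multilinear in
the rows (`Matrix.detRowAlternating`, `MultilinearMap.map_sum_finset` or `Finset.prod_univ_sum`-style expansion):
`det = ∑ over π : V → V with π v = v off I of (∏ v ∈ I, om v (π v)) * det (rows e_v - e_{π v} (v ∈ I), e_v (v ∉ I))`.
If `π ∈ For I` the last determinant is 1, otherwise (some `v ∈ I` has all its iterates in `I`) it is 0.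
(a) 0: `π` has a cycle inside `I`; the sum of the rows over the cycle vanishes (or: the vector
`x = indicator of {v : all iterates of v stay in I}` is nonzero and is killed by all the rows:
row_v · x = x v - x (π v) = 0 for v ∈ I, and x v = 0 off I; use `Matrix.exists_mulVec_eq_zero_iff`).
(b) 1: order the vertices by the number of steps to leave `I`; the matrix is triangular with ones on
the diagonal (`Matrix.det_of_upperTriangular` / `Matrix.BlockTriangular` with the function `steps`),
or: M = 1 - N with N nilpotent.
It may be convenient to prove first the more general statement F1gen below (used in F2 too).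
-/

set_option autoImplicit false

open Classical

namespace Pool.SX

variable {V : Type} [Fintype V]

/-- the determinant of the matrix of a single map -/
theorem det_map (I : Finset V) (π : V → V) (h : ∀ v, v ∉ I → π v = v) :
    (Matrix.of (fun v w => if v ∈ I then
        ((if w = v then (1 : ℝ) else 0) - (if w = π v then (1 : ℝ) else 0))
        else (if w = v then (1 : ℝ) else 0)) : Matrix V V ℝ).det = if π ∈ For I then 1 else 0 := by
  set M : Matrix V V ℝ := (Matrix.of (fun v w => if v ∈ I then
        ((if w = v then (1 : ℝ) else 0) - (if w = π v then (1 : ℝ) else 0))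
        else (if w = v then (1 : ℝ) else 0))) with hM
  by_cases hπ : π ∈ For I
  · rw [if_pos hπ]
    have hex : ∀ v, ∃ n : ℕ, π^[n] v ∉ I := (Finset.mem_filter.1 hπ).2.2
    let b : V → ℕᵒᵈ := fun v => OrderDual.toDual (Nat.find (hex v))
    have hb : ∀ v ∈ I, Nat.find (hex (π v)) < Nat.find (hex v) := by
      intro v hv
      have h1 := Nat.find_spec (hex v)
      have h0 : Nat.find (hex v) ≠ 0 := by
        intro h0
        rw [h0] at h1
        exact h1 hv
      obtain ⟨m, hm⟩ := Nat.exists_eq_succ_of_ne_zero h0
      rw [hm, Function.iterate_succ_apply] at h1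
      rw [hm]
      exact Nat.lt_succ_of_le (Nat.find_min' (hex (π v)) h1)
    have hoff : ∀ v w, v ≠ w → ¬ (Nat.find (hex w) < Nat.find (hex v)) → M v w = 0 := by
      intro v w hvw hlt
      have hwv : ¬ w = v := fun e => hvw e.symm
      rw [hM, Matrix.of_apply]
      by_cases hv : v ∈ I
      · rw [if_pos hv, if_neg hwv, if_neg, sub_zero]
        rintro rfl
        exact hlt (hb v hv)
      · rw [if_neg hv, if_neg hwv]
    have hBT : M.BlockTriangular b := by
      intro i j hij
      have hij' : Nat.find (hex i) < Nat.find (hex j) := hij
      refine hoff i j ?_ (by omega)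
      rintro rfl
      exact lt_irrefl _ hij'
    rw [hBT.det]
    refine Finset.prod_eq_one fun k _ => ?_
    have hone : M.toSquareBlock b k = 1 := by
      ext ⟨i, hi⟩ ⟨j, hj⟩
      rw [Matrix.toSquareBlock_def, Matrix.of_apply, Matrix.one_apply]
      by_cases hij : i = j
      · subst hij
        rw [if_pos rfl, hM, Matrix.of_apply]
        by_cases hv : i ∈ I
        · rw [if_pos hv, if_pos rfl, if_neg, sub_zero]
          intro e
          have := hb i hv
          rw [← e] at this
          exact lt_irrefl _ this
        · rw [if_neg hv, if_pos rfl]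
      · rw [if_neg (fun e => hij (Subtype.ext_iff.1 e))]
        refine hoff i j hij ?_
        have e1 : Nat.find (hex i) = Nat.find (hex j) := by
          have : b i = b j := hi.trans hj.symm
          exact this
        omega
    rw [hone, Matrix.det_one]
  · rw [if_neg hπ]
    have hcyc : ∃ v, ∀ n : ℕ, π^[n] v ∈ I := by
      by_contra hcon
      push Not at hcon
      exact hπ (Finset.mem_filter.2 ⟨Finset.mem_univ _, h, hcon⟩)
    obtain ⟨v0, hv0⟩ := hcyc
    refine Matrix.exists_mulVec_eq_zero_iff.1
      ⟨fun v => if ∀ n : ℕ, π^[n] v ∈ I then 1 else 0, ?_, ?_⟩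
    · intro h0
      have := congrFun h0 v0
      simp only [if_pos hv0, Pi.zero_apply] at this
      exact one_ne_zero this
    · funext v
      rw [Pi.zero_apply, Matrix.mulVec, dotProduct]
      by_cases hv : v ∈ I
      · have e1 : ∀ w, M v w = (if w = v then (1 : ℝ) else 0) - (if w = π v then (1 : ℝ) else 0) := by
          intro w
          rw [hM, Matrix.of_apply, if_pos hv]
        simp only [e1, sub_mul, ite_mul, one_mul, zero_mul, Finset.sum_sub_distrib,
          Finset.sum_ite_eq', Finset.mem_univ, if_true]
        have e2 : (∀ n : ℕ, π^[n] v ∈ I) ↔ ∀ n : ℕ, π^[n] (π v) ∈ I := by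
          constructor
          · intro hn n
            exact hn (n + 1)
          · intro hn n
            cases n with
            | zero => exact hv
            | succ n => exact hn n
        by_cases h3 : ∀ n : ℕ, π^[n] v ∈ I
        · rw [if_pos h3, if_pos (e2.1 h3), sub_self]
        · rw [if_neg h3, if_neg (fun h4 => h3 (e2.2 h4)), sub_self]
      · have e1 : ∀ w, M v w = (if w = v then (1 : ℝ) else 0) := by
          intro w
          rw [hM, Matrix.of_apply, if_neg hv]
        simp only [e1, ite_mul, one_mul, zero_mul, Finset.sum_ite_eq', Finset.mem_univ, if_true]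
        rw [if_neg]
        intro h3
        exact hv (h3 0)

theorem DF_eq_det (om : V → V → ℝ) (I : Finset V) : DF om I = (KM om I).det := by
  let A : V → Finset V := fun v => if v ∈ I then Finset.univ else {v}
  let c : V → V → ℝ := fun v u => if v ∈ I then om v u else 1
  let R : V → V → V → ℝ := fun v u w => if v ∈ I then
    ((if w = v then (1 : ℝ) else 0) - (if w = u then (1 : ℝ) else 0))
    else (if w = v then (1 : ℝ) else 0)
  have hrow : (KM om I : V → V → ℝ) = fun v => ∑ u ∈ A v, c v u • R v u := by
    funext v w
    rw [Finset.sum_apply]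
    by_cases hv : v ∈ I
    · simp only [KM, A, c, R, hv, lapRow, Matrix.of_apply, if_true, Pi.smul_apply, smul_eq_mul]
    · simp only [KM, A, c, R, hv, Matrix.of_apply, if_false, Pi.smul_apply, smul_eq_mul,
        Finset.sum_singleton, one_mul]
  have h1 : (KM om I).det = ∑ r ∈ Fintype.piFinset A,
      (Matrix.of fun v w => c v (r v) * R v (r v) w).det := by
    have h2 := (Matrix.detRowAlternating (n := V) (R := ℝ)).toMultilinearMap.map_sum_finset
      (fun v u => c v u • R v u) A
    have h3 : (KM om I).det = (Matrix.detRowAlternating (n := V) (R := ℝ)).toMultilinearMap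
        (fun v => ∑ u ∈ A v, c v u • R v u) := by
      rw [← hrow]
      rfl
    rw [h3, h2]
    rfl
  have h4 : ∀ r ∈ Fintype.piFinset A, (Matrix.of fun v w => c v (r v) * R v (r v) w).det =
      if r ∈ For I then WF om I r else 0 := by
    intro r hr
    have hd : (Matrix.of fun v w => c v (r v) * R v (r v) w).det =
        (∏ v, c v (r v)) * (Matrix.of fun v w => R v (r v) w).det :=
      Matrix.det_mul_column (fun v => c v (r v)) (Matrix.of fun v w => R v (r v) w)
    rw [hd]
    have hr' : ∀ v, v ∉ I → r v = v := by
      intro v hv
      have := Fintype.mem_piFinset.1 hr v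
      simp only [A, if_neg hv, Finset.mem_singleton] at this
      exact this
    have h5 := det_map I r hr'
    have h6 : (fun v w => R v (r v) w) = (fun v w => if v ∈ I then
        ((if w = v then (1 : ℝ) else 0) - (if w = r v then (1 : ℝ) else 0))
        else (if w = v then (1 : ℝ) else 0)) := rfl
    have h7 : ∏ v, c v (r v) = WF om I r := by
      unfold WF
      rw [← Finset.prod_subset (Finset.subset_univ I)]
      · refine Finset.prod_congr rfl fun v hv => ?_
        simp only [c, if_pos hv]
      · intro v _ hv
        simp only [c, if_neg hv]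
    rw [h7]
    change WF om I r * (Matrix.of (fun v w => if v ∈ I then
        ((if w = v then (1 : ℝ) else 0) - (if w = r v then (1 : ℝ) else 0))
        else (if w = v then (1 : ℝ) else 0)) : Matrix V V ℝ).det = _
    rw [h5, mul_ite, mul_one, mul_zero]
  rw [h1, Finset.sum_congr rfl h4, DF, ← Finset.sum_filter]
  refine Finset.sum_congr ?_ fun _ _ => rfl
  ext r
  rw [Finset.mem_filter]
  constructor
  · intro hr
    refine ⟨Fintype.mem_piFinset.2 fun v => ?_, hr⟩
    by_cases hv : v ∈ I
    · simp only [A, if_pos hv, Finset.mem_univ]
    · simp only [A, if_neg hv, Finset.mem_singleton]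
      exact (Finset.mem_filter.1 hr).2.1 v hv
  · exact fun hr => hr.2

end Pool.SX
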