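import Pool.Agent.Lib.MP_9dcace_sx.S7
import Pool.Agent.Lib.MP_9dcace_sx.F3a
import Pool.Agent.Lib.MP_9dcace_sx.F5

/-!
ROW F3b (at most one trichromatic face, 150-200 lines).
Em = {(c,v) : v inner, col (out c v) = col v}, M = faces with three equal colours, m = |M|.
(a) |Em| ≥ |V_I| + m: div : (Em → ℝ) → (V_I → ℝ) is surjective (for every inner v the edge v, π v is in Em and gives ± (δ_v - δ_(π v)),
 δ of an outer vertex being absent; induction on the number of steps of π to leave V_I); ∂ : (M → ℝ) → (Em → ℝ), X ↦ X (gL c v) - X (gR c v)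
 (X extended by 0) is injective: the edges not in Em have both faces outside M, so `conn` makes X constant and X (o 0) = 0
 (o 0 has the colours 0 and 1); div ∘ ∂ = 0 by `div_grad` (the boundary of X vanishes off Em).
(b) count bichromatic flags: `sum_flags` with φ g k = if col (t k g) = col (t (k+1) g) then 0 else 1:
 3 t + 2 b = 2 (3 |V_I| - |Em|) + 3, and |F| = 2|V_I| + 1 = t + b + m (t faces with three colours, b with exactly two). Hence t ≤ 1.
-/

set_option autoImplicit false

open Classical

namespace Pool.SX.Sch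

variable {V F : Type} [Fintype V] [Fintype F] (s : Sch V F)

/-- the extension by zero -/
noncomputable def z3b {α : Type} (S : Finset α) (f : {a // a ∈ S} → ℝ) (a : α) : ℝ :=
  if h : a ∈ S then f ⟨a, h⟩ else 0

theorem z3b_add {α : Type} (S : Finset α) (f g : {a // a ∈ S} → ℝ) (a : α) :
    z3b S (f + g) a = z3b S f a + z3b S g a := by
  unfold z3b
  split_ifs with h
  · rfl
  · simp

theorem z3b_smul {α : Type} (S : Finset α) (r : ℝ) (f : {a // a ∈ S} → ℝ) (a : α) :
    z3b S (r • f) a = r * z3b S f a := by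
  unfold z3b
  split_ifs with h
  · rfl
  · simp

/-- the edges with equal colours -/
noncomputable def Em3 (col : V → Fin 3) : Finset (Fin 3 × V) :=
  Finset.univ.filter (fun p => s.inn p.2 ∧ col (s.out p.1 p.2) = col p.2)

/-- the faces with one colour -/
noncomputable def Mf3 (col : V → Fin 3) : Finset F :=
  Finset.univ.filter (fun g => ∀ j k, col (s.t j g) = col (s.t k g))

theorem b3_key (col : V → Fin 3) (h : ∀ k, col (s.a k) = k) (π : V → V) (hπ : π ∈ For s.VI)
    (hc : ∀ v, s.inn v → s.Edge v (π v) ∧ col (π v) = col v)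
    (f : V → ℝ) (X : F → ℝ) (hf : ∀ v, v ∉ s.VI → f v = 0) (hX : ∀ g, g ∉ s.Mf3 col → X g = 0)
    (h0 : ∀ p ∈ s.Em3 col,
      f (s.out p.1 p.2) - f p.2 + (X (s.gL p.1 p.2) - X (s.gR p.1 p.2)) = 0) :
    (∀ v, f v = 0) ∧ ∀ g, X g = 0 := by
  have hVI : ∀ v, v ∈ s.VI ↔ s.inn v := fun v => by simp [VI]
  have hoff : ∀ c v, s.inn v → col (s.out c v) ≠ col v →
      X (s.gL c v) = 0 ∧ X (s.gR c v) = 0 := by
    intro c v hv hne
    constructor
    · apply hX
      intro hm
      apply hne
      have h1 := (Finset.mem_filter.mp hm).2 c (c + 2)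
      rw [s.tL0 c v hv, s.tL2 c v hv] at h1
      exact h1
    · apply hX
      intro hm
      apply hne
      have h1 := (Finset.mem_filter.mp hm).2 c (c + 1)
      rw [s.tR0 c v hv, s.tR1 c v hv] at h1
      exact h1
  have horth : ∑ c, ∑ v ∈ s.VI, f (s.out c v) * (X (s.gL c v) - X (s.gR c v)) =
      ∑ c, ∑ v ∈ s.VI, f v * (X (s.gL c v) - X (s.gR c v)) := by
    have h1 : ∑ c, ∑ v ∈ s.VI, f v * (X (s.gL c v) - X (s.gR c v)) =
        ∑ u ∈ s.VI, f u * ∑ c, ∑ v ∈ s.VI,
          if s.out c v = u then X (s.gL c v) - X (s.gR c v) else 0 := by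
      rw [Finset.sum_comm]
      refine Finset.sum_congr rfl fun u hu => ?_
      rw [← Finset.mul_sum, s.div_grad X u ((hVI u).mp hu)]
    rw [h1]
    simp only [Finset.mul_sum]
    rw [Finset.sum_comm (s := s.VI)]
    refine Finset.sum_congr rfl fun c _ => ?_
    rw [Finset.sum_comm]
    refine Finset.sum_congr rfl fun v _ => ?_
    simp only [mul_ite, mul_zero]
    rw [Finset.sum_ite_eq]
    split_ifs with hh
    · rfl
    · rw [hf _ hh]; ring
  have hsq : ∑ c, ∑ v ∈ s.VI, (X (s.gL c v) - X (s.gR c v)) ^ 2 = 0 := by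
    have h1 : ∀ c, ∀ v ∈ s.VI, (X (s.gL c v) - X (s.gR c v)) ^ 2 =
        f v * (X (s.gL c v) - X (s.gR c v)) -
          f (s.out c v) * (X (s.gL c v) - X (s.gR c v)) := by
      intro c v hv
      by_cases hcol : col (s.out c v) = col v
      · have h3 := h0 (c, v)
          (Finset.mem_filter.mpr ⟨Finset.mem_univ _, (hVI v).mp hv, hcol⟩)
        simp only at h3
        have h2 : X (s.gL c v) - X (s.gR c v) = f v - f (s.out c v) := by linarith
        rw [h2]; ring
      · obtain ⟨h2, h3⟩ := hoff c v ((hVI v).mp hv) hcol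
        rw [h2, h3]; ring
    calc _ = ∑ c, ∑ v ∈ s.VI, (f v * (X (s.gL c v) - X (s.gR c v)) -
          f (s.out c v) * (X (s.gL c v) - X (s.gR c v))) :=
        Finset.sum_congr rfl fun c _ => Finset.sum_congr rfl fun v hv => h1 c v hv
      _ = 0 := by
        simp only [Finset.sum_sub_distrib]
        rw [horth]; ring
  have hD : ∀ c v, s.inn v → X (s.gL c v) = X (s.gR c v) := by
    intro c v hv
    have h1 := (Finset.sum_eq_zero_iff_of_nonneg
      (fun c _ => Finset.sum_nonneg fun v _ => sq_nonneg _)).mp hsq c (Finset.mem_univ _)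
    have h2 := (Finset.sum_eq_zero_iff_of_nonneg (fun v _ => sq_nonneg _)).mp h1 v
      ((hVI v).mpr hv)
    exact sub_eq_zero.mp ((pow_eq_zero_iff two_ne_zero).mp h2)
  have hXc := s.conn X hD
  have ho : X (s.o 0) = 0 := by
    apply hX
    intro hm
    have h1 := (Finset.mem_filter.mp hm).2 0 1
    have h2 := s.o1 0
    rw [zero_add] at h2
    rw [s.o0 0, h2, h, h] at h1
    exact absurd h1 (by decide)
  have hX0 : ∀ g, X g = 0 := fun g => (hXc g (s.o 0)).trans ho
  refine ⟨?_, hX0⟩
  have hstep : ∀ v, f (π v) = f v := by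
    intro v
    by_cases hv : s.inn v
    · obtain ⟨he, hcol⟩ := hc v hv
      rcases he with ⟨c, _, hcc⟩ | ⟨c, hi, hcc⟩
      · have h1 := h0 (c, v)
          (Finset.mem_filter.mpr ⟨Finset.mem_univ _, hv, by simp only; rw [← hcc]; exact hcol⟩)
        simp only [hX0] at h1
        rw [hcc]; linarith
      · have h1 := h0 (c, π v)
          (Finset.mem_filter.mpr ⟨Finset.mem_univ _, hi, by simp only; rw [← hcc]; exact hcol.symm⟩)
        simp only [hX0, ← hcc] at h1
        linarith
    · rw [(Finset.mem_filter.mp hπ).2.1 v (fun hh => hv ((hVI v).mp hh))]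
  have hit : ∀ n v, f (π^[n] v) = f v := by
    intro n
    induction n with
    | zero => intro v; rfl
    | succ n ih => intro v; rw [Function.iterate_succ_apply, ih, hstep]
  intro v
  obtain ⟨n, hn⟩ := (Finset.mem_filter.mp hπ).2.2 v
  rw [← hit n v]; exact hf _ hn

theorem b3_dim (col : V → Fin 3) (h : ∀ k, col (s.a k) = k) (π : V → V) (hπ : π ∈ For s.VI)
    (hc : ∀ v, s.inn v → s.Edge v (π v) ∧ col (π v) = col v) :
    s.VI.card + (s.Mf3 col).card ≤ (s.Em3 col).card := by
  let Φ : (({v // v ∈ s.VI} → ℝ) × ({g // g ∈ s.Mf3 col} → ℝ)) →ₗ[ℝ]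
      ({p // p ∈ s.Em3 col} → ℝ) :=
    { toFun := fun q p => z3b s.VI q.1 (s.out p.1.1 p.1.2) - z3b s.VI q.1 p.1.2 +
        (z3b (s.Mf3 col) q.2 (s.gL p.1.1 p.1.2) - z3b (s.Mf3 col) q.2 (s.gR p.1.1 p.1.2))
      map_add' := by
        intro q q'
        funext p
        simp only [Prod.fst_add, Prod.snd_add, z3b_add, Pi.add_apply]
        ring
      map_smul' := by
        intro r q
        funext p
        simp only [Prod.smul_fst, Prod.smul_snd, z3b_smul, Pi.smul_apply, smul_eq_mul,
          RingHom.id_apply]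
        ring }
  have hinj : Function.Injective Φ := by
    rw [injective_iff_map_eq_zero]
    intro q hq
    have hk := s.b3_key col h π hπ hc (z3b _ q.1) (z3b _ q.2)
      (fun v hv => by rw [z3b, dif_neg hv]) (fun g hg => by rw [z3b, dif_neg hg])
      (fun p hp => congrFun hq ⟨p, hp⟩)
    refine Prod.ext ?_ ?_
    · funext v
      have h1 := hk.1 v.1
      rw [z3b, dif_pos v.2] at h1
      exact h1
    · funext g
      have h1 := hk.2 g.1
      rw [z3b, dif_pos g.2] at h1
      exact h1
  have h1 := LinearMap.finrank_le_finrank_of_injective hinj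
  rw [Module.finrank_prod, Module.finrank_fintype_fun_eq_card,
    Module.finrank_fintype_fun_eq_card, Module.finrank_fintype_fun_eq_card, Fintype.card_coe,
    Fintype.card_coe, Fintype.card_coe] at h1
  exact h1

theorem b3_face (x : Fin 3 → Fin 3) :
    (∑ k, if x k = x (k + 1) then (0 : ℤ) else 1) +
      2 * (if ∀ j k, x j = x k then (1 : ℤ) else 0) =
      2 + (if Function.Injective x then (1 : ℤ) else 0) := by
  have h1 : (∀ j k, x j = x k) ↔ x 0 = x 1 ∧ x 1 = x 2 := by
    constructor
    · intro h; exact ⟨h 0 1, h 1 2⟩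
    · rintro ⟨h1, h2⟩ j k
      fin_cases j <;> fin_cases k <;> simp [h1, h2]
  have h2 : Function.Injective x ↔ x 0 ≠ x 1 ∧ x 1 ≠ x 2 ∧ x 2 ≠ x 0 := by
    constructor
    · intro h
      exact ⟨fun h' => absurd (h h') (by decide), fun h' => absurd (h h') (by decide),
        fun h' => absurd (h h') (by decide)⟩
    · rintro ⟨h1, h2, h3⟩ j k hjk
      fin_cases j <;> fin_cases k <;> first
        | rfl
        | exact absurd hjk h1
        | exact absurd hjk h2
        | exact absurd hjk h3
        | exact absurd hjk.symm h1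
        | exact absurd hjk.symm h2
        | exact absurd hjk.symm h3
  rw [Fin.sum_univ_three]
  have e1 : (0 : Fin 3) + 1 = 1 := rfl
  have e2 : (1 : Fin 3) + 1 = 2 := rfl
  have e3 : (2 : Fin 3) + 1 = 0 := rfl
  rw [e1, e2, e3]
  simp only [h1, h2]
  by_cases a : x 0 = x 1
  · by_cases b : x 1 = x 2
    · have c : x 2 = x 0 := (a.trans b).symm
      rw [if_pos a, if_pos b, if_pos c, if_pos ⟨a, b⟩, if_neg (fun hh => hh.1 a)]
      norm_num
    · have c : x 2 ≠ x 0 := fun hh => b (a.symm.trans hh.symm)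
      rw [if_pos a, if_neg b, if_neg c, if_neg (fun hh => b hh.2), if_neg (fun hh => hh.1 a)]
      norm_num
  · by_cases b : x 1 = x 2
    · have c : x 2 ≠ x 0 := fun hh => a (hh.symm.trans b.symm)
      rw [if_neg a, if_pos b, if_neg c, if_neg (fun hh => a hh.1), if_neg (fun hh => hh.2.1 b)]
      norm_num
    · by_cases c : x 2 = x 0
      · rw [if_neg a, if_neg b, if_pos c, if_neg (fun hh => a hh.1),
          if_neg (fun hh => hh.2.2 c)]
        norm_num
      · rw [if_neg a, if_neg b, if_neg c, if_neg (fun hh => a hh.1), if_pos ⟨a, b, c⟩]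
        norm_num

theorem one_tri (col : V → Fin 3) (h : ∀ k, col (s.a k) = k) (π : V → V) (hπ : π ∈ For s.VI)
    (hc : ∀ v, s.inn v → s.Edge v (π v) ∧ col (π v) = col v) (g g' : F)
    (hg : Function.Injective (fun j => col (s.t j g)))
    (hg' : Function.Injective (fun j => col (s.t j g'))) : g = g' := by
  have hdim := s.b3_dim col h π hπ hc
  have hVI : ∀ v, v ∈ s.VI ↔ s.inn v := fun v => by simp [VI]
  have hfl := s.sum_flags (fun g k => if col (s.t k g) = col (s.t (k + 1) g) then (0 : ℤ) else 1)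
  have hEm : ((s.Em3 col).card : ℤ) =
      ∑ c, ∑ v ∈ s.VI, if col (s.out c v) = col v then (1 : ℤ) else 0 := by
    have h1 : s.Em3 col =
        (Finset.univ ×ˢ s.VI).filter (fun p => col (s.out p.1 p.2) = col p.2) := by
      ext p
      simp [Em3, VI]
    rw [h1, Finset.card_filter, Finset.sum_product]
    push_cast
    rfl
  have hR : ∑ c, ∑ v ∈ s.VI,
      ((if col (s.t (c + 2) (s.gL c v)) = col (s.t (c + 2 + 1) (s.gL c v)) then (0 : ℤ) else 1) +
       (if col (s.t c (s.gR c v)) = col (s.t (c + 1) (s.gR c v)) then (0 : ℤ) else 1)) =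
      6 * s.VI.card - 2 * (s.Em3 col).card := by
    have h1 : ∀ c, ∀ v ∈ s.VI,
      ((if col (s.t (c + 2) (s.gL c v)) = col (s.t (c + 2 + 1) (s.gL c v)) then (0 : ℤ) else 1) +
       (if col (s.t c (s.gR c v)) = col (s.t (c + 1) (s.gR c v)) then (0 : ℤ) else 1)) =
      2 - 2 * (if col (s.out c v) = col v then (1 : ℤ) else 0) := by
      intro c v hv
      have hi := (hVI v).mp hv
      have e : c + 2 + 1 = c := by revert c; decide
      rw [e, s.tL2 c v hi, s.tL0 c v hi, s.tR0 c v hi, s.tR1 c v hi]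
      by_cases hcol : col (s.out c v) = col v
      · rw [if_pos hcol.symm, if_pos hcol, if_pos hcol]; norm_num
      · rw [if_neg (fun hh => hcol hh.symm), if_neg hcol, if_neg hcol]; norm_num
    rw [Finset.sum_congr rfl fun c _ => Finset.sum_congr rfl fun v hv => h1 c v hv, hEm]
    simp only [Finset.sum_sub_distrib, ← Finset.mul_sum]
    simp
    ring
  have hO : ∑ k, (if col (s.t k (s.o k)) = col (s.t (k + 1) (s.o k)) then (0 : ℤ) else 1) = 3 := by
    have h1 : ∀ k : Fin 3,
        (if col (s.t k (s.o k)) = col (s.t (k + 1) (s.o k)) then (0 : ℤ) else 1) = 1 := by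
      intro k
      rw [s.o0, s.o1, h, h, if_neg]
      revert k; decide
    simp only [h1]
    simp
  have hL : ∑ g, ∑ k, (if col (s.t k g) = col (s.t (k + 1) g) then (0 : ℤ) else 1) +
      2 * (s.Mf3 col).card = 2 * Fintype.card F +
      ((Finset.univ.filter (fun g : F => Function.Injective (fun j => col (s.t j g)))).card : ℤ) := by
    have h1 : ((s.Mf3 col).card : ℤ) =
        ∑ g : F, if ∀ j k, col (s.t j g) = col (s.t k g) then (1 : ℤ) else 0 := by
      rw [Mf3, Finset.card_filter]
      push_cast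
      rfl
    have h2 : ((Finset.univ.filter
        (fun g : F => Function.Injective (fun j => col (s.t j g)))).card : ℤ) =
        ∑ g : F, if Function.Injective (fun j => col (s.t j g)) then (1 : ℤ) else 0 := by
      rw [Finset.card_filter]
      push_cast
      rfl
    rw [h1, h2, Finset.mul_sum, ← Finset.sum_add_distrib]
    have h3 : (2 * Fintype.card F : ℤ) = ∑ g : F, (2 : ℤ) := by simp; ring
    rw [h3, ← Finset.sum_add_distrib]
    exact Finset.sum_congr rfl fun g _ => b3_face (fun j => col (s.t j g))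
  have hcF := s.card_F
  rw [hR, hO] at hfl
  have hcF' : (Fintype.card F : ℤ) = 2 * s.VI.card + 1 := by exact_mod_cast hcF
  have hd' : (s.VI.card : ℤ) + (s.Mf3 col).card ≤ (s.Em3 col).card := by exact_mod_cast hdim
  have hone : (Finset.univ.filter
      (fun g : F => Function.Injective (fun j => col (s.t j g)))).card ≤ 1 := by
    have : ((Finset.univ.filter
      (fun g : F => Function.Injective (fun j => col (s.t j g)))).card : ℤ) ≤ 1 := by linarith
    exact_mod_cast this
  exact Finset.card_le_one.mp hone g (Finset.mem_filter.mpr ⟨Finset.mem_univ _, hg⟩) g'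
    (Finset.mem_filter.mpr ⟨Finset.mem_univ _, hg'⟩)

end Pool.SX.Sch
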