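import Pool.Agent.Lib.MP_9dcace_sx.G3

/-!
MP_9dcace_co, row G5: every point lies on a facet (rotation of a supporting plane).
-/

set_option autoImplicit false

namespace Pool.SX

variable {V : Type} [Fintype V] {P : V → E3}

theorem rotate_plane {u z0 z1 : V} {a b : E3} (hs : ∀ z, dp a (P z - P u) ≤ 0)
    (h1 : dp a (P z1 - P u) < 0) (hb1 : dp b (P z1 - P u) = 0)
    (hb : ∀ z, dp a (P z - P u) = 0 → dp b (P z - P u) = 0) (h0 : 0 < dp b (P z0 - P u)) :
    ∃ (a' : E3) (z2 : V), (∀ z, dp a' (P z - P u) ≤ 0) ∧ dp a' (P z1 - P u) < 0 ∧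
      (∀ z, dp a (P z - P u) = 0 → dp a' (P z - P u) = 0) ∧
      dp a (P z2 - P u) < 0 ∧ dp a' (P z2 - P u) = 0 := by
  classical
  obtain ⟨z2, hz2, hmin⟩ := Finset.exists_min_image
    (Finset.univ.filter fun z : V => 0 < dp b (P z - P u))
    (fun z => -dp a (P z - P u) / dp b (P z - P u))
    ⟨z0, Finset.mem_filter.2 ⟨Finset.mem_univ _, h0⟩⟩
  have hb2 : 0 < dp b (P z2 - P u) := (Finset.mem_filter.1 hz2).2
  have ht0 : 0 ≤ -dp a (P z2 - P u) / dp b (P z2 - P u) := by
    apply div_nonneg _ hb2.le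
    have := hs z2
    linarith
  have hexp : ∀ z, dp (a + (-dp a (P z2 - P u) / dp b (P z2 - P u)) • b) (P z - P u) =
      dp a (P z - P u) + -dp a (P z2 - P u) / dp b (P z2 - P u) * dp b (P z - P u) := by
    intro z
    rw [dp_add_left, dp_smul_left]
  refine ⟨a + (-dp a (P z2 - P u) / dp b (P z2 - P u)) • b, z2, ?_, ?_, ?_, ?_, ?_⟩
  · intro z
    rw [hexp]
    rcases lt_or_ge 0 (dp b (P z - P u)) with hz | hz
    · have hm := hmin z (Finset.mem_filter.2 ⟨Finset.mem_univ _, hz⟩)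
      have hm' : -dp a (P z2 - P u) / dp b (P z2 - P u) ≤ -dp a (P z - P u) / dp b (P z - P u) :=
        hm
      rw [le_div_iff₀ hz] at hm'
      linarith
    · have h2 := hs z
      have h3 : -dp a (P z2 - P u) / dp b (P z2 - P u) * dp b (P z - P u) ≤ 0 :=
        mul_nonpos_of_nonneg_of_nonpos ht0 hz
      linarith
  · rw [hexp, hb1, mul_zero, add_zero]
    exact h1
  · intro z hz
    rw [hexp, hz, hb z hz, mul_zero, add_zero]
  · rcases lt_or_eq_of_le (hs z2) with h | h
    · exact h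
    · exact absurd (hb z2 h) hb2.ne'
  · rw [hexp, div_mul_cancel₀ _ hb2.ne']
    ring

private theorem G5_zero (a : E3) (x : E3) : dp a (x - x) = 0 := by
  rw [dp_sub, sub_self]

private theorem G5_lag (x y : E3) :
    dp (dp y y • x - dp x y • y) x = dp (cr x y) (cr x y) := by
  simp only [dp_def, cr, Pi.sub_apply, Pi.smul_apply, smul_eq_mul, Matrix.cons_val_zero,
    Matrix.cons_val_one, Matrix.cons_val]
  ring

private theorem G5_orth (x y : E3) : dp (dp y y • x - dp x y • y) y = 0 := by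
  rw [dp_sub_left, dp_smul_left, dp_smul_left]
  ring

private theorem G5_fin (h : SPoly P) {a : E3} {u x w z1 : V} (hs : ∀ z, dp a (P z - P u) ≤ 0)
    (h1 : dp a (P z1 - P u) < 0) (hux : u ≠ x) (hxw : x ≠ w) (hwu : w ≠ u)
    (hx : dp a (P x - P u) = 0) (hw : dp a (P w - P u) = 0) : ∃ v w, Tri P u v w := by
  have ha : a ≠ 0 := by
    rintro rfl
    rw [dp_def] at h1
    simp at h1
  rcases h.tri_of_support (a := a) (c := dp a (P u)) ha
    (fun z => by have := hs z; rw [dp_sub] at this; linarith) hux hxw hwu rfl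
    (by rw [dp_sub] at hx; linarith) (by rw [dp_sub] at hw; linarith) with h2 | h2
  · exact ⟨x, w, h2⟩
  · exact ⟨w, x, h2⟩

theorem SPoly.exists_tri (h : SPoly P) (hc : 4 ≤ Fintype.card V) (u : V) : ∃ v w, Tri P u v w := by
  obtain ⟨a, ha⟩ := h.ext u
  have ha' : ∀ z, z ≠ u → dp a (P z - P u) < 0 := by
    intro z hz
    have := ha z hz
    rw [dp_sub]
    linarith
  have hale : ∀ z, dp a (P z - P u) ≤ 0 := by
    intro z
    by_cases hz : z = u
    · rw [hz, G5_zero]
    · exact (ha' z hz).le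
  have hacon : ∀ z, dp a (P z - P u) = 0 → z = u := by
    intro z hz
    by_contra hne
    exact (ha' z hne).ne hz
  obtain ⟨z1, hz1u, -, -⟩ := exists_fourth hc u u u
  obtain ⟨z0, hz0u, hz01, -⟩ := exists_fourth hc u z1 z1
  have hcr : cr (P z0 - P u) (P z1 - P u) ≠ 0 := h.cr_ne hz0u.symm hz01 hz1u
  obtain ⟨a', x, hs', h1', -, hx, hx'⟩ := rotate_plane (P := P) (u := u) (z0 := z0) (z1 := z1)
    (a := a)
    (b := dp (P z1 - P u) (P z1 - P u) • (P z0 - P u) - dp (P z0 - P u) (P z1 - P u) • (P z1 - P u))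
    hale (ha' z1 hz1u) (G5_orth _ _)
    (fun z hz => by rw [hacon z hz, G5_zero])
    (by rw [G5_lag]; exact dp_self_pos hcr)
  have hxu : x ≠ u := by
    rintro rfl
    rw [G5_zero] at hx
    exact lt_irrefl _ hx
  have hxz1 : x ≠ z1 := by
    rintro rfl
    exact h1'.ne hx'
  by_cases hex : ∃ w, w ≠ u ∧ w ≠ x ∧ dp a' (P w - P u) = 0
  · obtain ⟨w, hwu, hwx, hw⟩ := hex
    exact G5_fin h hs' h1' hxu.symm hwx.symm hwu hx' hw
  · push Not at hex
    have hcon : ∀ z, dp a' (P z - P u) = 0 → z = u ∨ z = x := by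
      intro z hz
      by_contra hne
      push Not at hne
      exact hex z hne.1 hne.2 hz
    have hn : cr (P x - P u) (P z1 - P u) ≠ 0 := h.cr_ne hxu.symm hxz1 hz1u
    have hz : ∃ z, dp (cr (P x - P u) (P z1 - P u)) (P z - P u) ≠ 0 := by
      by_contra hcon2
      push Not at hcon2
      apply hn
      apply h.span _ (dp (cr (P x - P u) (P z1 - P u)) (P u))
      intro z
      have := hcon2 z
      rw [dp_sub] at this
      linarith
    obtain ⟨z3, hz3⟩ := hz
    have hb : ∃ b : E3, 0 < dp b (P z3 - P u) ∧ dp b (P z1 - P u) = 0 ∧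
        dp b (P x - P u) = 0 := by
      rcases lt_or_gt_of_ne hz3 with hlt | hgt
      · refine ⟨-cr (P x - P u) (P z1 - P u), ?_, ?_, ?_⟩
        · rw [dp_neg_left]
          linarith
        · rw [dp_neg_left, dp_cr, dt_self'', neg_zero]
        · rw [dp_neg_left, dp_cr, dt_self', neg_zero]
      · refine ⟨cr (P x - P u) (P z1 - P u), hgt, ?_, ?_⟩
        · rw [dp_cr, dt_self'']
        · rw [dp_cr, dt_self']
    obtain ⟨b, hb3, hb1, hbx⟩ := hb
    obtain ⟨a2, w, hs2, h12, hcon2, hw, hw'⟩ := rotate_plane (P := P) (u := u) (z0 := z3)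
      (z1 := z1) (a := a') (b := b) hs' h1' hb1
      (fun z hz => by
        rcases hcon z hz with h2 | h2
        · rw [h2, G5_zero]
        · rw [h2, hbx]) hb3
    have hwu : w ≠ u := by
      rintro rfl
      rw [G5_zero] at hw
      exact lt_irrefl _ hw
    have hwx : w ≠ x := by
      rintro rfl
      exact hw.ne hx'
    exact G5_fin h hs2 h12 hxu.symm hwx.symm hwu (hcon2 x hx') hw'

end Pool.SX
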