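import Pool.Agent.Lib.MP_9dcace_sx.G6
import Pool.Agent.Lib.MP_9dcace_sx.G5

/-!
MP_9dcace_co, row G8: climbing (simplex algorithm) and connectedness.
Recipe. `climb`: `xi` from `h.ext u`; `max_in_orbit` with `O = fun _ => True` (nonempty by `exists_tri`), `eta = phi`: a link vertex `x` with
`dp phi (P z - P u) * dp xi (P x - P u) ≤ dp phi (P x - P u) * dp xi (P z - P u)` for the given `z`; the left side is positive, so
`dp phi (P x - P u) > 0`. `conn`: to reach `v` from `u` take the functional `phi` of `h.ext v`; by strong induction on the number of `z` with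
`dp phi (P z) > dp phi (P u)` (or `Finset` well-founded) climb until `v`.
-/

set_option autoImplicit false

namespace Pool.SX

variable {V : Type} [Fintype V] {P : V → E3}

theorem SPoly.climb (h : SPoly P) (hc : 4 ≤ Fintype.card V) (phi : E3) {u z : V}
    (hz : dp phi (P u) < dp phi (P z)) : ∃ x y, Tri P u x y ∧ dp phi (P u) < dp phi (P x) := by
  obtain ⟨a, ha⟩ := h.ext u
  have hxi : ∀ w, w ≠ u → 0 < dp (-a) (P w - P u) := by
    intro w hw
    rw [dp_neg_left, dp_sub]
    linarith [ha w hw]
  obtain ⟨v, w, hvw⟩ := h.exists_tri hc u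
  obtain ⟨x, -, ⟨y, hxy⟩, hmax⟩ := h.max_in_orbit hc hxi phi (fun _ => True)
    ⟨v, trivial, w, hvw⟩ (fun _ _ _ _ => trivial) (fun _ _ _ _ => trivial)
  refine ⟨x, y, hxy, ?_⟩
  have hzu : z ≠ u := by
    rintro rfl
    exact lt_irrefl _ hz
  have h1 := hmax z hzu
  have h2 := hxi x hxy.1.symm
  have h3 := hxi z hzu
  have h4 : 0 < dp phi (P z - P u) := by
    rw [dp_sub]
    linarith
  have h5 : 0 < dp phi (P x - P u) * dp (-a) (P z - P u) := (mul_pos h4 h2).trans_le h1
  have h6 : 0 < dp phi (P x - P u) := pos_of_mul_pos_left h5 h3.le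
  rw [dp_sub] at h6
  linarith

theorem SPoly.conn (h : SPoly P) (hc : 4 ≤ Fintype.card V) (u v : V) :
    Relation.ReflTransGen (fun x y => ∃ z, Tri P x y z) u v := by
  classical
  obtain ⟨phi, hphi⟩ := h.ext v
  have key : ∀ n : ℕ, ∀ u : V,
      (Finset.univ.filter fun z : V => dp phi (P u) < dp phi (P z)).card = n →
      Relation.ReflTransGen (fun x y => ∃ z, Tri P x y z) u v := by
    intro n
    induction n using Nat.strong_induction_on with
    | _ n ih =>
      intro u hn
      by_cases huv : u = v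
      · rw [huv]
      · obtain ⟨x, y, hxy, hx⟩ := h.climb hc phi (hphi u huv)
        refine Relation.ReflTransGen.head ⟨y, hxy⟩ (ih _ ?_ x rfl)
        rw [← hn]
        refine Finset.card_lt_card ⟨fun z hz => ?_, fun hsub => ?_⟩
        · rw [Finset.mem_filter] at hz ⊢
          exact ⟨hz.1, hx.trans hz.2⟩
        · have h1 := hsub (Finset.mem_filter.2 ⟨Finset.mem_univ x, hx⟩)
          exact lt_irrefl _ (Finset.mem_filter.1 h1).2
  exact key _ u rfl

end Pool.SX
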