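import Pool.Agent.Lib.MP_9dcace_sx.G2

/-!
MP_9dcace_co, row G9: a generic functional, and at most one ascending crossing at a vertex.
Recipe. `exists_generic`: `Module.exists_dual_forall_apply_ne_zero` applied to the family `P u - P v`, `u ≠ v`
(index type `{p : V × V // p.1 ≠ p.2}`), translate the functional into a vector.
`asc_unique`: put `X = P v - P u`, `Y = P w - P u`, `alpha = dp phi Y > 0`, `beta = - dp phi X > 0`, `d = alpha • X + beta • Y`
(so `dp phi d = 0`); same with primes. `det := dt X Y`, `det' := dt X' Y'`.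
`dt X' Y' d = alpha * D4 u v' w' v + beta * D4 u v' w' w ≤ 0`, and it is `< 0` unless `v, w ∈ {v', w'}`, i.e. (by the signs of `dp phi`)
`v = v'` and `w = w'`. So if `(v,w) ≠ (v',w')`: `dt X' Y' d < 0` and `dt X Y d' < 0`. But (identities, all by `ring` / Cramer with
`dp phi d = dp phi d' = 0`): `beta * dt X Y d' = dt X d d'`, `beta' * dt X' Y' d = dt X' d' d`, and
`dp phi X' * dt X d d' = dp phi X * dt X' d d'`, hence `dt X' d' d = - dt X' d d'` and `dt X d d'` have opposite signs: contradiction.
-/

set_option autoImplicit false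

namespace Pool.SX

variable {V : Type} [Fintype V] {P : V → E3}

theorem SPoly.exists_generic (h : SPoly P) : ∃ phi : E3, ∀ u v : V, u ≠ v → dp phi (P u) ≠ dp phi (P v) := by
  obtain ⟨f, hf⟩ := Module.exists_dual_forall_apply_ne_zero (K := ℝ)
    (fun p : {p : V × V // p.1 ≠ p.2} => P p.1.1 - P p.1.2)
    (fun p => sub_ne_zero.2 (h.inj p.2))
  have hfx : ∀ x : E3, f x = dp (fun i => f (Pi.single i 1)) x := by
    intro x
    rw [f.pi_apply_eq_sum_univ x, dp]
    refine Finset.sum_congr rfl fun i _ => ?_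
    rw [smul_eq_mul, mul_comm]
    congr 2
    funext j
    simp [Pi.single_apply, eq_comm]
  refine ⟨fun i => f (Pi.single i 1), fun u v huv heq => hf ⟨(u, v), huv⟩ ?_⟩
  rw [hfx, dp_sub, heq, sub_self]

/-- the relation behind the uniqueness of the crossing -/
private theorem G9_plucker (phi x y x' y' : E3) :
    (dp phi y * dt x' y' x - dp phi x * dt x' y' y) +
      (dp phi y' * dt x y x' - dp phi x' * dt x y y') = 0 := by
  simp only [dt, dp_def]
  ring

omit [Fintype V] in
/-- the determinant of a crossing direction with a facet -/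
private theorem G9_neg (phi : E3) {u v w v' w' : V} (h2 : Tri P u v' w')
    (hv : dp phi (P v) < dp phi (P u)) (hw : dp phi (P u) < dp phi (P w))
    (hv' : dp phi (P v') < dp phi (P u)) (hw' : dp phi (P u) < dp phi (P w'))
    (hne : ¬ (v = v' ∧ w = w')) :
    dp phi (P w - P u) * dt (P v' - P u) (P w' - P u) (P v - P u) -
      dp phi (P v - P u) * dt (P v' - P u) (P w' - P u) (P w - P u) < 0 := by
  have huv : v ≠ u := by
    rintro rfl
    exact lt_irrefl _ hv
  have huw : w ≠ u := by
    rintro rfl
    exact lt_irrefl _ hw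
  have hvw' : v ≠ w' := by
    rintro rfl
    exact lt_asymm hv hw'
  have hwv' : w ≠ v' := by
    rintro rfl
    exact lt_asymm hw hv'
  have h1 : 0 < dp phi (P w - P u) := by
    rw [dp_sub]
    linarith
  have h3 : dp phi (P v - P u) < 0 := by
    rw [dp_sub]
    linarith
  have hle1 : dt (P v' - P u) (P w' - P u) (P v - P u) ≤ 0 := by
    by_cases hvv : v = v'
    · rw [hvv, dt_self']
    · exact (h2.2.2.2 v huv hvv hvw').le
  have hle2 : dt (P v' - P u) (P w' - P u) (P w - P u) ≤ 0 := by
    by_cases hww : w = w'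
    · rw [hww, dt_self'']
    · exact (h2.2.2.2 w huw hwv' hww).le
  have hlt : dt (P v' - P u) (P w' - P u) (P v - P u) < 0 ∨
      dt (P v' - P u) (P w' - P u) (P w - P u) < 0 := by
    by_cases hvv : v = v'
    · by_cases hww : w = w'
      · exact absurd ⟨hvv, hww⟩ hne
      · exact Or.inr (h2.2.2.2 w huw hwv' hww)
    · exact Or.inl (h2.2.2.2 v huv hvv hvw')
  rcases hlt with h4 | h4
  · have h5 := mul_neg_of_pos_of_neg h1 h4
    have h6 := mul_nonneg_of_nonpos_of_nonpos h3.le hle2
    linarith
  · have h5 := mul_nonpos_of_nonneg_of_nonpos h1.le hle1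
    have h6 := mul_pos_of_neg_of_neg h3 h4
    linarith

theorem asc_unique (phi : E3) {u v w v' w' : V} (h1 : Tri P u v w) (h2 : Tri P u v' w')
    (hv : dp phi (P v) < dp phi (P u)) (hw : dp phi (P u) < dp phi (P w))
    (hv' : dp phi (P v') < dp phi (P u)) (hw' : dp phi (P u) < dp phi (P w')) :
    v = v' ∧ w = w' := by
  by_contra hne
  have h3 := G9_neg phi h2 hv hw hv' hw' hne
  have h4 := G9_neg phi h1 hv' hw' hv hw (fun h => hne ⟨h.1.symm, h.2.symm⟩)
  have h5 := G9_plucker phi (P v - P u) (P w - P u) (P v' - P u) (P w' - P u)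
  linarith

/-- descending crossings -/
theorem desc_unique (phi : E3) {u v w v' w' : V} (h1 : Tri P u v w) (h2 : Tri P u v' w')
    (hv : dp phi (P u) < dp phi (P v)) (hw : dp phi (P w) < dp phi (P u))
    (hv' : dp phi (P u) < dp phi (P v')) (hw' : dp phi (P w') < dp phi (P u)) :
    v = v' ∧ w = w' := by
  -- `asc_unique` with `-phi`
  refine asc_unique (-phi) h1 h2 ?_ ?_ ?_ ?_ <;>
    · rw [dp_neg_left, dp_neg_left]
      linarith

end Pool.SX
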