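import Pool.Agent.Lib.MP_9dcace_sx.G7
import Pool.Agent.Lib.MP_9dcace_sx.G8
import Pool.Agent.Lib.MP_9dcace_sx.G9

/-!
MP_9dcace_co, row G10: the number of oriented triangles is `6 n - 12`.
Recipe. `phi` from `exists_generic`. `asc_exists`: `u` not minimal and not maximal: by `climb` with `phi` and `-phi` the link of `u` has a
vertex above and a vertex below `u`; on the `Tri P u`-path (`link`) from the lower to the upper one there is a first step from below to
above (induction on `ReflTransGen`; all link vertices are different from `u`, so `phi` is different). Same for descending.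
Count: `A = {(u,v,w) | Tri u v w, phi v < phi u < phi w}` is in bijection with the set of `u` that are neither the minimum nor the maximum
(`n - 2` of them), same for `B = {phi w < phi u < phi v}`; the set of all oriented triangles is the disjoint union of `A`, `B` and their
two rotations each (every triangle has exactly one middle vertex). So the number is `3 * (2 * (n - 2))`.
(Work with `Finset.univ.filter` on `V × V × V` classically, rotations are injective maps; finally `Nat.card_eq_fintype_card`, `Fintype.card_subtype`.)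
-/

set_option autoImplicit false

namespace Pool.SX

variable {V : Type} [Fintype V] {P : V → E3}

/-- a path from a point with the property `q` to a point without it has a step of this kind -/
theorem G10_step {W : Type} {r : W → W → Prop} {q : W → Prop} {a b : W}
    (h : Relation.ReflTransGen r a b) (ha : q a) (hb : ¬ q b) :
    ∃ c d, r c d ∧ q c ∧ ¬ q d := by
  induction h with
  | refl => exact absurd ha hb
  | tail _ hcd ih =>
    rename_i c d _
    by_cases hc : q c
    · exact ⟨c, d, hcd, hc, hb⟩
    · exact ih hc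

theorem SPoly.asc_exists (h : SPoly P) (hc : 4 ≤ Fintype.card V) {phi : E3}
    (hphi : ∀ u v : V, u ≠ v → dp phi (P u) ≠ dp phi (P v)) {u z z' : V}
    (hz : dp phi (P z) < dp phi (P u)) (hz' : dp phi (P u) < dp phi (P z')) :
    ∃ v w, Tri P u v w ∧ dp phi (P v) < dp phi (P u) ∧ dp phi (P u) < dp phi (P w) := by
  obtain ⟨x, y, hxy, hx⟩ := h.climb hc phi hz'
  obtain ⟨x', y', hxy', hx'⟩ := h.climb hc (-phi) (u := u) (z := z) (by
    rw [dp_neg_left, dp_neg_left]
    linarith)
  rw [dp_neg_left, dp_neg_left] at hx'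
  have hpath := h.link hc hxy' hxy
  obtain ⟨c, d, hcd, h1, h2⟩ := G10_step (q := fun v => dp phi (P v) < dp phi (P u)) hpath
    (by linarith) (not_lt.2 hx.le)
  refine ⟨c, d, hcd, h1, ?_⟩
  have hne : u ≠ d := fun e => hcd.2.2.1 e.symm
  exact lt_of_le_of_ne (not_lt.1 h2) (hphi u d hne)

/-- the descending crossing -/
theorem SPoly.G10_desc_exists (h : SPoly P) (hc : 4 ≤ Fintype.card V) {phi : E3}
    (hphi : ∀ u v : V, u ≠ v → dp phi (P u) ≠ dp phi (P v)) {u z z' : V}
    (hz : dp phi (P z) < dp phi (P u)) (hz' : dp phi (P u) < dp phi (P z')) :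
    ∃ v w, Tri P u v w ∧ dp phi (P u) < dp phi (P v) ∧ dp phi (P w) < dp phi (P u) := by
  obtain ⟨v, w, h1, h2, h3⟩ := h.asc_exists hc (phi := -phi) (u := u) (z := z') (z' := z) (by
      intro a b hab
      rw [dp_neg_left, dp_neg_left]
      exact fun e => hphi a b hab (neg_injective e)) (by
      rw [dp_neg_left, dp_neg_left]
      linarith) (by
      rw [dp_neg_left, dp_neg_left]
      linarith)
  rw [dp_neg_left, dp_neg_left] at h2 h3
  exact ⟨v, w, h1, by linarith, by linarith⟩

open Classical in
/-- all the points except the lowest and the highest one -/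
theorem G10_card_mid (psi : V → ℝ) (hpsi : Function.Injective psi) (hc : 4 ≤ Fintype.card V) :
    (Finset.univ.filter fun u : V => (∃ z, psi z < psi u) ∧ ∃ z, psi u < psi z).card + 2 =
      Fintype.card V := by
  have hne : (Finset.univ : Finset V).Nonempty := by
    rw [← Finset.card_pos, Finset.card_univ]
    omega
  obtain ⟨m, -, hm⟩ := Finset.exists_min_image Finset.univ psi hne
  obtain ⟨M, -, hM⟩ := Finset.exists_max_image Finset.univ psi hne
  have hmM : M ≠ m := by
    rintro rfl
    have h1 : ∀ x : V, x = M := by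
      intro x
      apply hpsi
      exact le_antisymm (hM x (Finset.mem_univ x)) (hm x (Finset.mem_univ x))
    have h2 : Fintype.card V ≤ 1 := Fintype.card_le_one_iff.2 fun a b => by rw [h1 a, h1 b]
    omega
  have hS : (Finset.univ.filter fun u : V => (∃ z, psi z < psi u) ∧ ∃ z, psi u < psi z) =
      (Finset.univ.erase m).erase M := by
    ext u
    simp only [Finset.mem_filter, Finset.mem_univ, true_and, Finset.mem_erase, and_true]
    constructor
    · rintro ⟨⟨z, hz⟩, ⟨z', hz'⟩⟩
      constructor
      · rintro rfl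
        exact absurd (hM z' (Finset.mem_univ _)) (not_le.2 hz')
      · rintro rfl
        exact absurd (hm z (Finset.mem_univ _)) (not_le.2 hz)
    · rintro ⟨h1, h2⟩
      refine ⟨⟨m, ?_⟩, ⟨M, ?_⟩⟩
      · exact lt_of_le_of_ne (hm u (Finset.mem_univ _)) (fun e => h2 (hpsi e).symm)
      · exact lt_of_le_of_ne (hM u (Finset.mem_univ _)) (fun e => h1 (hpsi e))
  rw [hS, Finset.card_erase_of_mem (Finset.mem_erase.2 ⟨hmM, Finset.mem_univ _⟩),
    Finset.card_erase_of_mem (Finset.mem_univ _), Finset.card_univ]
  omega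

/-- `a` is strictly between `b` and `c` -/
def G10_mid (a b c : ℝ) : Prop := (b < a ∧ a < c) ∨ (c < a ∧ a < b)

open Classical in
theorem G10_one {a b c : ℝ} (hab : a ≠ b) (hbc : b ≠ c) (hca : c ≠ a) :
    (if G10_mid a b c then 1 else 0) + (if G10_mid b c a then 1 else 0) +
      (if G10_mid c a b then 1 else 0) = 1 := by
  rcases lt_or_gt_of_ne hab with h1 | h1 <;> rcases lt_or_gt_of_ne hbc with h2 | h2 <;>
    rcases lt_or_gt_of_ne hca with h3 | h3 <;>
    simp only [G10_mid, h1, h2, h3, h1.le.not_gt, h2.le.not_gt, h3.le.not_gt, and_true, and_false,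
      or_false, or_true, if_true, if_false] <;> first | rfl | (exfalso; linarith)

theorem SPoly.count (h : SPoly P) (hc : 4 ≤ Fintype.card V) :
    Nat.card {p : V × V × V // Tri P p.1 p.2.1 p.2.2} + 12 = 6 * Fintype.card V := by
  classical
  obtain ⟨phi, hphi⟩ := h.exists_generic
  obtain ⟨psi, hpsi⟩ : ∃ psi : V → ℝ, psi = fun v => dp phi (P v) := ⟨_, rfl⟩
  have hpsi' : ∀ v, psi v = dp phi (P v) := fun v => by rw [hpsi]
  have hinj : Function.Injective psi := by
    intro a b hab
    by_contra hne
    rw [hpsi', hpsi'] at hab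
    exact hphi a b hne hab
  have hcard := G10_card_mid psi hinj hc
  rw [Nat.card_eq_fintype_card, Fintype.card_subtype]
  obtain ⟨T, hT⟩ : ∃ T : Finset (V × V × V), T = Finset.univ.filter
    (fun p : V × V × V => Tri P p.1 p.2.1 p.2.2) := ⟨_, rfl⟩
  have hTm : ∀ p, p ∈ T ↔ Tri P p.1 p.2.1 p.2.2 := by
    intro p
    rw [hT]
    simp
  rw [← hT]
  -- ascending
  have hA : (T.filter fun p => psi p.2.1 < psi p.1 ∧ psi p.1 < psi p.2.2).card =
      (Finset.univ.filter fun u : V => (∃ z, psi z < psi u) ∧ ∃ z, psi u < psi z).card := by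
    apply Finset.card_bij (fun p _ => p.1)
    · intro p hp
      rw [Finset.mem_filter] at hp
      rw [Finset.mem_filter]
      exact ⟨Finset.mem_univ _, ⟨_, hp.2.1⟩, ⟨_, hp.2.2⟩⟩
    · intro p hp p' hp' he
      rw [Finset.mem_filter, hTm, hpsi', hpsi', hpsi'] at hp hp'
      rw [← he] at hp'
      have h1 := asc_unique phi hp.1 hp'.1 hp.2.1 hp.2.2 hp'.2.1 hp'.2.2
      exact Prod.ext he (Prod.ext h1.1 h1.2)
    · intro u hu
      rw [Finset.mem_filter] at hu
      obtain ⟨-, ⟨z, hz⟩, ⟨z', hz'⟩⟩ := hu
      rw [hpsi', hpsi'] at hz hz'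
      obtain ⟨v, w, h1, h2, h3⟩ := h.asc_exists hc hphi hz hz'
      refine ⟨(u, v, w), ?_, rfl⟩
      rw [Finset.mem_filter, hTm, hpsi', hpsi', hpsi']
      exact ⟨h1, h2, h3⟩
  have hB : (T.filter fun p => psi p.2.2 < psi p.1 ∧ psi p.1 < psi p.2.1).card =
      (Finset.univ.filter fun u : V => (∃ z, psi z < psi u) ∧ ∃ z, psi u < psi z).card := by
    apply Finset.card_bij (fun p _ => p.1)
    · intro p hp
      rw [Finset.mem_filter] at hp
      rw [Finset.mem_filter]
      exact ⟨Finset.mem_univ _, ⟨_, hp.2.1⟩, ⟨_, hp.2.2⟩⟩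
    · intro p hp p' hp' he
      rw [Finset.mem_filter, hTm, hpsi', hpsi', hpsi'] at hp hp'
      rw [← he] at hp'
      have h1 := desc_unique phi hp.1 hp'.1 hp.2.2 hp.2.1 hp'.2.2 hp'.2.1
      exact Prod.ext he (Prod.ext h1.1 h1.2)
    · intro u hu
      rw [Finset.mem_filter] at hu
      obtain ⟨-, ⟨z, hz⟩, ⟨z', hz'⟩⟩ := hu
      rw [hpsi', hpsi'] at hz hz'
      obtain ⟨v, w, h1, h2, h3⟩ := h.G10_desc_exists hc hphi hz hz'
      refine ⟨(u, v, w), ?_, rfl⟩
      rw [Finset.mem_filter, hTm, hpsi', hpsi', hpsi']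
      exact ⟨h1, h3, h2⟩
  -- the triangles whose first vertex is the middle one
  have hM1 : (T.filter fun p => G10_mid (psi p.1) (psi p.2.1) (psi p.2.2)).card =
      (T.filter fun p => psi p.2.1 < psi p.1 ∧ psi p.1 < psi p.2.2).card +
      (T.filter fun p => psi p.2.2 < psi p.1 ∧ psi p.1 < psi p.2.1).card := by
    rw [← Finset.card_union_of_disjoint, ← Finset.filter_or]
    · apply congrArg Finset.card
      ext p
      rw [Finset.mem_filter, Finset.mem_filter]
      rfl
    · rw [Finset.disjoint_filter]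
      intro p _ h1 h2
      exact absurd (h1.1.trans h2.2) (lt_irrefl _)
  have hM2 : (T.filter fun p => G10_mid (psi p.2.1) (psi p.2.2) (psi p.1)).card =
      (T.filter fun p => G10_mid (psi p.1) (psi p.2.1) (psi p.2.2)).card := by
    apply Finset.card_nbij' (fun p => (p.2.1, p.2.2, p.1)) (fun p => (p.2.2, p.1, p.2.1))
    · intro p hp
      rw [Finset.mem_coe, Finset.mem_filter, hTm] at hp
      rw [Finset.mem_coe, Finset.mem_filter, hTm]
      exact ⟨hp.1.rot, hp.2⟩
    · intro p hp
      rw [Finset.mem_coe, Finset.mem_filter, hTm] at hp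
      rw [Finset.mem_coe, Finset.mem_filter, hTm]
      exact ⟨hp.1.rot.rot, hp.2⟩
    · intro p _
      rfl
    · intro p _
      rfl
  have hM3 : (T.filter fun p => G10_mid (psi p.2.2) (psi p.1) (psi p.2.1)).card =
      (T.filter fun p => G10_mid (psi p.1) (psi p.2.1) (psi p.2.2)).card := by
    apply Finset.card_nbij' (fun p => (p.2.2, p.1, p.2.1)) (fun p => (p.2.1, p.2.2, p.1))
    · intro p hp
      rw [Finset.mem_coe, Finset.mem_filter, hTm] at hp
      rw [Finset.mem_coe, Finset.mem_filter, hTm]
      exact ⟨hp.1.rot.rot, hp.2⟩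
    · intro p hp
      rw [Finset.mem_coe, Finset.mem_filter, hTm] at hp
      rw [Finset.mem_coe, Finset.mem_filter, hTm]
      exact ⟨hp.1.rot, hp.2⟩
    · intro p _
      rfl
    · intro p _
      rfl
  have hTT : T.card = (T.filter fun p => G10_mid (psi p.1) (psi p.2.1) (psi p.2.2)).card +
      (T.filter fun p => G10_mid (psi p.2.1) (psi p.2.2) (psi p.1)).card +
      (T.filter fun p => G10_mid (psi p.2.2) (psi p.1) (psi p.2.1)).card := by
    rw [Finset.card_filter, Finset.card_filter, Finset.card_filter, ← Finset.sum_add_distrib,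
      ← Finset.sum_add_distrib, Finset.card_eq_sum_ones]
    refine Finset.sum_congr rfl fun p hp => ?_
    rw [hTm] at hp
    exact (G10_one (hinj.ne hp.1) (hinj.ne hp.2.1) (hinj.ne hp.2.2.1)).symm
  omega

end Pool.SX
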