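import Pool.Agent.Lib.MP_9dcace_sx.G0

/-!
MP_9dcace_co, row G2: no three points are collinear; `Tri` basics.
Recipe. `cr_ne`: put `x = P v - P u`, `y = P w - P u`; if `cr x y = 0` then `x, y` are parallel; `x ≠ 0`, `y ≠ 0`
(`P` is injective by `ext`). So `y = t • x`, `t ≠ 0, 1` (`t = dp x y / dp x x`; from `cr x y = 0` one gets
`dp x x * y i = dp x y * x i` for every `i`, coordinatewise by `linear_combination`). Cases: `0 < t < 1`: `P w` is between
`P u` and `P v`, contradicts `ext w` (a functional maximal only at `w`: `dp a (P w) = (1-t) dp a (P u) + t dp a (P v)`);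
`t > 1`: `P v` is between; `t < 0`: `P u` is between.
-/

set_option autoImplicit false

namespace Pool.SX

variable {V : Type} [Fintype V] {P : V → E3}

theorem SPoly.inj (h : SPoly P) {u v : V} (huv : u ≠ v) : P u ≠ P v := by
  intro he
  obtain ⟨a, ha⟩ := h.ext v
  have h1 := ha u huv
  rw [he] at h1
  exact lt_irrefl _ h1

theorem SPoly.cr_ne (h : SPoly P) {u v w : V} (huv : u ≠ v) (hvw : v ≠ w) (hwu : w ≠ u) :
    cr (P v - P u) (P w - P u) ≠ 0 := by
  intro hcr
  set x : E3 := P v - P u with hx
  set y : E3 := P w - P u with hy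
  have hx0 : x ≠ 0 := fun h0 => h.inj huv.symm (sub_eq_zero.mp h0)
  have hxx := dp_self_pos hx0
  have c0 : x 1 * y 2 - x 2 * y 1 = 0 := by
    have := congrFun hcr 0
    simpa [cr] using this
  have c1 : x 2 * y 0 - x 0 * y 2 = 0 := by
    have := congrFun hcr 1
    simpa [cr] using this
  have c2 : x 0 * y 1 - x 1 * y 0 = 0 := by
    have := congrFun hcr 2
    simpa [cr] using this
  set t : ℝ := dp x y / dp x x with ht
  have htx : t * dp x x = dp x y := by
    rw [ht]
    field_simp
  have e0 : y 0 = t * x 0 := by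
    have h1 : dp x x * (y 0 - t * x 0) = 0 := by
      have h2 : dp x x * (y 0 - t * x 0) = dp x x * y 0 - (t * dp x x) * x 0 := by ring
      rw [h2, htx, dp_def, dp_def]
      linear_combination (-(x 1)) * c2 + (x 2) * c1
    have h3 := (mul_eq_zero.mp h1).resolve_left hxx.ne'
    linarith
  have e1 : y 1 = t * x 1 := by
    have h1 : dp x x * (y 1 - t * x 1) = 0 := by
      have h2 : dp x x * (y 1 - t * x 1) = dp x x * y 1 - (t * dp x x) * x 1 := by ring
      rw [h2, htx, dp_def, dp_def]
      linear_combination (x 0) * c2 - (x 2) * c0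
    have h3 := (mul_eq_zero.mp h1).resolve_left hxx.ne'
    linarith
  have e2 : y 2 = t * x 2 := by
    have h1 : dp x x * (y 2 - t * x 2) = 0 := by
      have h2 : dp x x * (y 2 - t * x 2) = dp x x * y 2 - (t * dp x x) * x 2 := by ring
      rw [h2, htx, dp_def, dp_def]
      linear_combination (x 1) * c0 - (x 0) * c1
    have h3 := (mul_eq_zero.mp h1).resolve_left hxx.ne'
    linarith
  have key : ∀ a : E3, dp a (P w) - dp a (P u) = t * (dp a (P v) - dp a (P u)) := by
    intro a
    rw [← dp_sub, ← dp_sub, ← hx, ← hy, dp_def, dp_def, e0, e1, e2]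
    ring
  rcases le_or_gt t 0 with h1 | h1
  · obtain ⟨a, ha⟩ := h.ext u
    have k1 := ha v huv.symm
    have k2 := ha w hwu
    have k3 := key a
    nlinarith
  · rcases le_or_gt t 1 with h2 | h2
    · obtain ⟨a, ha⟩ := h.ext w
      have k1 := ha u hwu.symm
      have k2 := ha v hvw
      have k3 := key a
      nlinarith
    · obtain ⟨a, ha⟩ := h.ext v
      have k1 := ha u huv
      have k2 := ha w hvw.symm
      have k3 := key a
      nlinarith

omit [Fintype V] in
theorem Tri.rot {u v w : V} (h : Tri P u v w) : Tri P v w u := by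
  obtain ⟨h1, h2, h3, h4⟩ := h
  refine ⟨h2, h3, h1, fun z z1 z2 z3 => ?_⟩
  rw [D4_rot]
  exact h4 z z3 z1 z2

/-- there is a fourth point -/
theorem exists_fourth (hc : 4 ≤ Fintype.card V) (u v w : V) : ∃ z, z ≠ u ∧ z ≠ v ∧ z ≠ w := by
  classical
  by_contra hcon
  push Not at hcon
  have h1 : (Finset.univ : Finset V) ⊆ {u, v, w} := by
    intro z _
    simp only [Finset.mem_insert, Finset.mem_singleton]
    by_cases a : z = u
    · exact Or.inl a
    · by_cases b : z = v
      · exact Or.inr (Or.inl b)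
      · exact Or.inr (Or.inr (hcon z a b))
  have h2 := Finset.card_le_card h1
  rw [Finset.card_univ] at h2
  have h3 : ({u, v, w} : Finset V).card ≤ 3 := Finset.card_le_three
  omega

theorem Tri.uniq (hc : 4 ≤ Fintype.card V) {u v w w' : V} (h : Tri P u v w) (h' : Tri P u v w') :
    w = w' := by
  -- otherwise `D4 u v w w' < 0` and `D4 u v w' w < 0`, contradiction to `D4_swap''`
  by_contra hne
  have h1 := h.2.2.2 w' h'.2.2.1 h'.2.1.symm (fun e => hne e.symm)
  have h2 := h'.2.2.2 w h.2.2.1 h.2.1.symm hne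
  rw [D4_swap''] at h2
  linarith

/-- the two faces at a link vertex are different -/
theorem Tri.ne_prev (hc : 4 ≤ Fintype.card V) {u x y p : V} (h : Tri P u x y) (h' : Tri P u p x) :
    p ≠ y := by
  -- if `p = y`: a fourth point `z` has `D4 u x y z < 0` and `D4 u y x z < 0`
  intro he
  subst he
  obtain ⟨z, z1, z2, z3⟩ := exists_fourth hc u x p
  have h1 := h.2.2.2 z z1 z2 z3
  have h2 := h'.2.2.2 z z1 z3 z2
  rw [D4_swap'] at h2
  linarith

end Pool.SX
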