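import Pool.Agent.Lib.MP_9dcace_sx.G2

/-!
MP_9dcace_co, row G3: a supporting plane through three points is a facet.
Recipe. `n := cr (P v - P u) (P w - P u) ≠ 0` (`SPoly.cr_ne`). `a` is orthogonal to `P v - P u` and `P w - P u`, hence
`dp n n • a = dp n a • n` (coordinatewise; from `dp a x = 0`, `dp a y = 0`, `n = cr x y`:
`dp n n * a i = dp n a * n i` is a `linear_combination` of the two equations: the double cross product
`cr n (cr n a)`), so `a = s • n`, `s ≠ 0`. The points other than `u, v, w` satisfy `dp a (P z) < c` by `h.simp` (card of the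
filter at most 3 and it contains the three different `u, v, w`). So `D4 u v w z = dp n (P z - P u)` has the sign of `-s`
for all of them: if `s > 0` then `Tri P u v w`, if `s < 0` then `Tri P u w v` (`D4_swap'`).
-/

set_option autoImplicit false

namespace Pool.SX

variable {V : Type} [Fintype V] {P : V → E3}

theorem G3_lt (h : SPoly P) {a : E3} {c : ℝ} (ha : a ≠ 0)
    (hs : ∀ z, dp a (P z) ≤ c) {u v w z : V} (huv : u ≠ v) (hvw : v ≠ w) (hwu : w ≠ u)
    (hu : dp a (P u) = c) (hv : dp a (P v) = c) (hw : dp a (P w) = c)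
    (hzu : z ≠ u) (hzv : z ≠ v) (hzw : z ≠ w) : dp a (P z) < c := by
  classical
  refine lt_of_le_of_ne (hs z) fun hz => ?_
  have h1 := h.simp a c ha hs
  have h2 : ({u, v, w, z} : Finset V) ⊆ Finset.univ.filter fun z : V => dp a (P z) = c := by
    intro t ht
    simp only [Finset.mem_insert, Finset.mem_singleton] at ht
    rw [Finset.mem_filter]
    refine ⟨Finset.mem_univ _, ?_⟩
    rcases ht with rfl | rfl | rfl | rfl
    · exact hu
    · exact hv
    · exact hw
    · exact hz
  have h3 : ({u, v, w, z} : Finset V).card = 4 := by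
    rw [Finset.card_insert_of_notMem, Finset.card_insert_of_notMem, Finset.card_insert_of_notMem,
      Finset.card_singleton]
    · simp only [Finset.mem_singleton]
      exact fun e => hzw e.symm
    · simp only [Finset.mem_insert, Finset.mem_singleton]
      rintro (e | e)
      · exact hvw e
      · exact hzv e.symm
    · simp only [Finset.mem_insert, Finset.mem_singleton]
      rintro (e | e | e)
      · exact huv e
      · exact hwu e.symm
      · exact hzu e.symm
  have h4 := Finset.card_le_card h2
  have h5 : (Finset.univ.filter fun z : V => dp a (P z) = c).card ≤ 3 := by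
    convert h1
  omega

theorem G3_par {a x y : E3} (hx : dp a x = 0) (hy : dp a y = 0) (i : Fin 3) :
    dp (cr x y) (cr x y) * a i = dp (cr x y) a * cr x y i := by
  have h : dp (cr x y) (cr x y) * a i - dp (cr x y) a * cr x y i =
      cr (cr x y) x i * dp a y - cr (cr x y) y i * dp a x := by
    fin_cases i
    · simp only [dp_def, cr, Matrix.cons_val_zero, Matrix.cons_val_one, Matrix.cons_val,
        Fin.zero_eta]
      ring
    · simp only [dp_def, cr, Matrix.cons_val_zero, Matrix.cons_val_one, Matrix.cons_val,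
        Fin.mk_one]
      ring
    · simp only [dp_def, cr, Matrix.cons_val_zero, Matrix.cons_val_one, Matrix.cons_val,
        Fin.reduceFinMk]
      ring
  rw [hx, hy, mul_zero, mul_zero, sub_zero] at h
  linarith

theorem SPoly.tri_of_support (h : SPoly P) {a : E3} {c : ℝ} (ha : a ≠ 0)
    (hs : ∀ z, dp a (P z) ≤ c) {u v w : V} (huv : u ≠ v) (hvw : v ≠ w) (hwu : w ≠ u)
    (hu : dp a (P u) = c) (hv : dp a (P v) = c) (hw : dp a (P w) = c) :
    Tri P u v w ∨ Tri P u w v := by
  have hn := h.cr_ne huv hvw hwu
  obtain ⟨n, hn'⟩ : ∃ n, n = cr (P v - P u) (P w - P u) := ⟨_, rfl⟩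
  rw [← hn'] at hn
  have hx : dp a (P v - P u) = 0 := by rw [dp_sub, hu, hv, sub_self]
  have hy : dp a (P w - P u) = 0 := by rw [dp_sub, hu, hw, sub_self]
  have hpar : ∀ i, dp n n * a i = dp n a * n i := by
    intro i
    rw [hn']
    exact G3_par hx hy i
  have hnn := dp_self_pos hn
  have hmul : ∀ z, dp n n * dp a z = dp n a * dp n z := by
    intro z
    rw [dp_def a z, dp_def n z]
    linear_combination z 0 * hpar 0 + z 1 * hpar 1 + z 2 * hpar 2
  have hD : ∀ z, dp n n * (dp a (P z) - c) = dp n a * D4 P u v w z := by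
    intro z
    have h1 := hmul (P z - P u)
    rw [dp_sub, hu] at h1
    have h2 : dp n (P z - P u) = D4 P u v w z := by
      rw [hn', dp_cr]
      rfl
    rw [h1, h2]
  have hlt : ∀ z, z ≠ u → z ≠ v → z ≠ w → dp n a * D4 P u v w z < 0 := by
    intro z hzu hzv hzw
    rw [← hD z]
    have := G3_lt h ha hs huv hvw hwu hu hv hw hzu hzv hzw
    exact mul_neg_of_pos_of_neg hnn (by linarith)
  have hs0 : dp n a ≠ 0 := by
    intro h0
    have h1 := hmul a
    rw [h0, zero_mul] at h1
    have h2 := dp_self_pos ha
    have h3 := mul_pos hnn h2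
    linarith
  rcases lt_or_gt_of_ne hs0 with h1 | h1
  · right
    refine ⟨hwu.symm, hvw.symm, huv.symm, fun z hzu hzw hzv => ?_⟩
    rw [D4_swap']
    have h2 := hlt z hzu hzv hzw
    have h3 : 0 < D4 P u v w z := by
      by_contra h4
      push Not at h4
      have := mul_nonneg_of_nonpos_of_nonpos h1.le h4
      linarith
    linarith
  · left
    refine ⟨huv, hvw, hwu, fun z hzu hzv hzw => ?_⟩
    have h2 := hlt z hzu hzv hzw
    by_contra h4
    push Not at h4
    have := mul_nonneg h1.le h4
    linarith

/-- If `D4 u v w z ≤ 0` for all `z` and not all of them vanish then `u v w` is a facet. -/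
theorem SPoly.tri_of_le (h : SPoly P) {u v w : V} (huv : u ≠ v) (hvw : v ≠ w) (hwu : w ≠ u)
    (hs : ∀ z, D4 P u v w z ≤ 0) : Tri P u v w := by
  have hn := h.cr_ne huv hvw hwu
  obtain ⟨n, hn'⟩ : ∃ n, n = cr (P v - P u) (P w - P u) := ⟨_, rfl⟩
  rw [← hn'] at hn
  have hD : ∀ z, dp n (P z) - dp n (P u) = D4 P u v w z := by
    intro z
    rw [← dp_sub, hn', dp_cr]
    rfl
  have hv : dp n (P v) = dp n (P u) := by
    have h1 := hD v
    have h2 : D4 P u v w v = 0 := by
      unfold D4
      exact dt_self' _ _
    linarith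
  have hw : dp n (P w) = dp n (P u) := by
    have h1 := hD w
    have h2 : D4 P u v w w = 0 := by
      unfold D4
      exact dt_self'' _ _
    linarith
  have hs' : ∀ z, dp n (P z) ≤ dp n (P u) := by
    intro z
    have h1 := hD z
    have h2 := hs z
    linarith
  refine ⟨huv, hvw, hwu, fun z hzu hzv hzw => ?_⟩
  have h1 := G3_lt h hn hs' huv hvw hwu rfl hv hw hzu hzv hzw
  have h2 := hD z
  linarith

end Pool.SX
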