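import Pool.Agent.Lib.MP_9dcace_sx.G3

/-!
MP_9dcace_co, row G4: the face on the other side of an edge.
Recipe. Let `Z` be the set of `z ≠ u, v, w` (nonempty, `exists_fourth`). Let `n = cr (P v - P u) (P w - P u)`, so
`dp n (P z - P u) = D4 u v w z < 0` for `z ∈ Z`. Let `m = cr (P v - P u) n`... any covector vanishing on `P v - P u` with
`dp m (P w - P u) ≠ 0`; by Cramer `D4 u v z z'` is a positive or negative constant times
`dp m (z) dp n (z') - dp n (z) dp m (z')`. Simplest: choose `w' ∈ Z` such that `D4 u v w' z ≥ 0` for all `z ∈ Z`: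
the relation `z ≤ z' :<=> D4 u v z z' ≤ 0` is total and transitive on `Z` (transitivity: Cramer identity
`D4 u v w z' * D4 u v z z'' = D4 u v w z * D4 u v z' z'' + D4 u v w z'' * D4 u v z z'` up to signs, all `D4 u v w _ < 0`), or
minimize the ratio `dp m (P z - P u) / dp n (P z - P u)` over `Z` with `Finset.exists_min_image`
(`m = cr (P v - P u) (cr (P v - P u) (P w - P u))`). Also `D4 u v w' w = - D4 u v w w' > 0`. So `D4 v u w' z ≤ 0` for all `z`,
`SPoly.tri_of_le` gives `Tri P v u w'`, and `w' ≠ w` by construction.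
-/

set_option autoImplicit false

namespace Pool.SX

variable {V : Type} [Fintype V] {P : V → E3}

private theorem G4_key (x y a b : E3) : dp (cr x y) (cr x y) * dt x a b
    = dp (cr x y) a * dp (cr x (cr x y)) b - dp (cr x (cr x y)) a * dp (cr x y) b := by
  simp only [dp_def, cr, dt, Matrix.cons_val_zero, Matrix.cons_val_one, Matrix.cons_val]
  ring

theorem SPoly.opp (h : SPoly P) (hc : 4 ≤ Fintype.card V) {u v w : V} (ht : Tri P u v w) :
    ∃ w', w' ≠ w ∧ Tri P v u w' := by
  classical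
  obtain ⟨huv, hvw, hwu, hneg⟩ := ht
  obtain ⟨z0, h0u, h0v, h0w⟩ := exists_fourth hc u v w
  set x : E3 := P v - P u with hx
  set y : E3 := P w - P u with hy
  set n : E3 := cr x y with hn
  set m : E3 := cr x n with hm
  have hα : ∀ z, D4 P u v w z = dp n (P z - P u) := fun z => by rw [hn, dp_cr]; rfl
  have hnn : 0 < dp n n := by
    apply dp_self_pos
    intro h1
    have h2 := hneg z0 h0u h0v h0w
    rw [hα, h1] at h2
    have h3 : dp (0 : E3) (P z0 - P u) = 0 := by simp [dp_def]
    rw [h3] at h2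
    exact lt_irrefl _ h2
  let Z : Finset V := Finset.univ.filter fun z => z ≠ u ∧ z ≠ v ∧ z ≠ w
  have hZ : ∀ z, z ∈ Z ↔ z ≠ u ∧ z ≠ v ∧ z ≠ w := fun z => by simp [Z]
  obtain ⟨w', hw', hmin⟩ := Finset.exists_min_image Z
    (fun z => dp m (P z - P u) / dp n (P z - P u)) ⟨z0, (hZ z0).2 ⟨h0u, h0v, h0w⟩⟩
  obtain ⟨hwu', hwv', hww'⟩ := (hZ w').1 hw'
  have hneg' : ∀ z, z ∈ Z → dp n (P z - P u) < 0 := fun z hz => by
    obtain ⟨h1, h2, h3⟩ := (hZ z).1 hz
    rw [← hα]
    exact hneg z h1 h2 h3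
  have hge : ∀ z, 0 ≤ D4 P u v w' z := by
    intro z
    by_cases hzu : z = u
    · subst hzu
      apply le_of_eq
      simp only [D4, dt, Pi.sub_apply]
      ring
    by_cases hzv : z = v
    · subst hzv
      apply le_of_eq
      simp only [D4, dt, Pi.sub_apply]
      ring
    by_cases hzw : z = w
    · subst hzw
      rw [D4_swap'', neg_nonneg]
      exact (hneg w' hwu' hwv' hww').le
    have hz : z ∈ Z := (hZ z).2 ⟨hzu, hzv, hzw⟩
    have h1 := hmin z hz
    have h1 : dp m (P w' - P u) / dp n (P w' - P u) ≤ dp m (P z - P u) / dp n (P z - P u) := h1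
    have a1 := hneg' w' hw'
    have a2 := hneg' z hz
    have e1 : dp m (P w' - P u)
        = dp m (P w' - P u) / dp n (P w' - P u) * dp n (P w' - P u) := by
      rw [div_mul_cancel₀ _ a1.ne]
    have e2 : dp m (P z - P u) = dp m (P z - P u) / dp n (P z - P u) * dp n (P z - P u) := by
      rw [div_mul_cancel₀ _ a2.ne]
    have h2 := G4_key x y (P w' - P u) (P z - P u)
    rw [← hn, ← hm] at h2
    set s := dp m (P w' - P u) / dp n (P w' - P u) with hs
    set t := dp m (P z - P u) / dp n (P z - P u) with ht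
    have h3 : dp n n * D4 P u v w' z
        = dp n (P w' - P u) * dp n (P z - P u) * (t - s) := by
      have h4 : D4 P u v w' z = dt x (P w' - P u) (P z - P u) := rfl
      rw [h4, h2, e1, e2]
      ring
    have h5 : 0 ≤ dp n n * D4 P u v w' z := by
      rw [h3]
      exact mul_nonneg (mul_pos_of_neg_of_neg a1 a2).le (sub_nonneg.2 h1)
    exact nonneg_of_mul_nonneg_right h5 hnn
  refine ⟨w', hww', h.tri_of_le huv.symm hwu'.symm hwv' ?_⟩
  intro z
  rw [D4_swap, neg_nonpos]
  exact hge z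

/-- the link: next vertex -/
theorem SPoly.next (h : SPoly P) (hc : 4 ≤ Fintype.card V) {u x y : V} (ht : Tri P u x y) :
    ∃ y', Tri P u y y' := by
  obtain ⟨y', _, h1⟩ := h.opp hc ht.rot.rot
  exact ⟨y', h1⟩

/-- the link: previous vertex -/
theorem SPoly.prev (h : SPoly P) (hc : 4 ≤ Fintype.card V) {u x y : V} (ht : Tri P u x y) :
    ∃ p, Tri P u p x := by
  obtain ⟨p, _, h1⟩ := h.opp hc ht
  exact ⟨p, h1.rot⟩

end Pool.SX
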