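import Pool.Agent.Lib.MP_9dcace_sx.G4

/-!
MP_9dcace_co, row G6: a local maximum of `dp e (z - u) / dp x (z - u)` in the link of `u` is a global maximum.
Recipe. Write `X = P x - P u` etc. By `cramer` with the basis `X, Pp = P p - P u, Y = P y - P u`
(`dt X Pp Y = D4 u x p y`, and `D4 u x y p < 0`, `D4 u p x y < 0`):
 `P z - P u = lam X + mu Pp + nu Y` with `mu * D4 u x y p = D4 u x y z` and `nu * D4 u p x y = D4 u p x z`, so `mu, nu ≥ 0`
for every `z` (`= 0` for `z = x, u`). Then
 `eta z * xi x - eta x * xi z = mu (eta p * xi x - eta x * xi p) + nu (eta y * xi x - eta x * xi y) ≤ 0`.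
To avoid division multiply by `D4 u x y p = D4 u p x y < 0` (they are equal: `D4 u x y p = D4 u p x y`, rotation of `dt`).
-/

set_option autoImplicit false

namespace Pool.SX

variable {V : Type} [Fintype V] {P : V → E3}

omit [Fintype V] in
private theorem G6_le {u v w : V} (h : Tri P u v w) (z : V) : D4 P u v w z ≤ 0 := by
  by_cases h1 : z = u
  · subst h1
    simp only [D4, dt, Pi.sub_apply]
    apply le_of_eq
    ring
  by_cases h2 : z = v
  · subst h2
    simp only [D4, dt, Pi.sub_apply]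
    apply le_of_eq
    ring
  by_cases h3 : z = w
  · subst h3
    simp only [D4, dt, Pi.sub_apply]
    apply le_of_eq
    ring
  exact (h.2.2.2 z h1 h2 h3).le

theorem local_max (hc : 4 ≤ Fintype.card V) {u p x y : V} (h1 : Tri P u p x) (h2 : Tri P u x y) (xi eta : E3)
    (hp : dp eta (P p - P u) * dp xi (P x - P u) ≤ dp eta (P x - P u) * dp xi (P p - P u))
    (hy : dp eta (P y - P u) * dp xi (P x - P u) ≤ dp eta (P x - P u) * dp xi (P y - P u)) (z : V) :
    dp eta (P z - P u) * dp xi (P x - P u) ≤ dp eta (P x - P u) * dp xi (P z - P u) := by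
  have hpy : p ≠ y := Tri.ne_prev hc h2 h1
  have hD : D4 P u x y p < 0 := h2.2.2.2 p h1.1.symm h1.2.1 hpy
  have hD' : 0 < dt (P x - P u) (P p - P u) (P y - P u) := by
    have h3 := dt_swap' (P x - P u) (P y - P u) (P p - P u)
    rw [h3]
    have h4 : dt (P x - P u) (P y - P u) (P p - P u) < 0 := hD
    linarith
  have hA : 0 ≤ dt (P x - P u) (P z - P u) (P y - P u) := by
    rw [dt_swap' (P x - P u) (P y - P u) (P z - P u)]
    have h4 : dt (P x - P u) (P y - P u) (P z - P u) ≤ 0 := G6_le h2 z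
    linarith
  have hB : 0 ≤ dt (P x - P u) (P p - P u) (P z - P u) := by
    rw [dt_swap (P p - P u) (P x - P u) (P z - P u)]
    have h4 : dt (P p - P u) (P x - P u) (P z - P u) ≤ 0 := G6_le h1 z
    linarith
  have c1 := cramer (P x - P u) (P p - P u) (P y - P u) (P z - P u) eta
  have c2 := cramer (P x - P u) (P p - P u) (P y - P u) (P z - P u) xi
  set D := dt (P x - P u) (P p - P u) (P y - P u)
  set Am := dt (P x - P u) (P z - P u) (P y - P u)
  set Bm := dt (P x - P u) (P p - P u) (P z - P u)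
  set Cm := dt (P z - P u) (P p - P u) (P y - P u)
  have key : D * (dp eta (P z - P u) * dp xi (P x - P u) -
      dp eta (P x - P u) * dp xi (P z - P u)) =
      Am * (dp eta (P p - P u) * dp xi (P x - P u) - dp eta (P x - P u) * dp xi (P p - P u)) +
      Bm * (dp eta (P y - P u) * dp xi (P x - P u) -
        dp eta (P x - P u) * dp xi (P y - P u)) := by
    linear_combination dp xi (P x - P u) * c1 - dp eta (P x - P u) * c2
  have h5 : D * (dp eta (P z - P u) * dp xi (P x - P u) -
      dp eta (P x - P u) * dp xi (P z - P u)) ≤ 0 := by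
    rw [key]
    have h6 := mul_nonpos_of_nonneg_of_nonpos hA (sub_nonpos.2 hp)
    have h7 := mul_nonpos_of_nonneg_of_nonpos hB (sub_nonpos.2 hy)
    linarith
  by_contra hcon
  push Not at hcon
  have h8 := mul_pos hD' (sub_pos.2 hcon)
  linarith

/-- Every nonempty set `O` of link vertices of `u` which is closed under next and previous contains a global maximum. -/
theorem SPoly.max_in_orbit (h : SPoly P) (hc : 4 ≤ Fintype.card V) {u : V} {xi : E3}
    (hxi : ∀ z, z ≠ u → 0 < dp xi (P z - P u)) (eta : E3) (O : V → Prop) (hO : ∃ x, O x ∧ Lk P u x)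
    (hnext : ∀ x y, O x → Tri P u x y → O y) (hprev : ∀ x y, O y → Tri P u x y → O x) :
    ∃ x, O x ∧ Lk P u x ∧ ∀ z, z ≠ u →
      dp eta (P z - P u) * dp xi (P x - P u) ≤ dp eta (P x - P u) * dp xi (P z - P u) := by
  classical
  obtain ⟨x0, hx0⟩ := hO
  obtain ⟨x, hx, hmax⟩ := Finset.exists_max_image
    (Finset.univ.filter fun x : V => O x ∧ Lk P u x)
    (fun x => dp eta (P x - P u) / dp xi (P x - P u)) ⟨x0, by simpa using hx0⟩
  obtain ⟨-, hOx, hLx⟩ := Finset.mem_filter.1 hx
  obtain ⟨y, hy⟩ := hLx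
  obtain ⟨p, hp⟩ := h.prev hc hy
  obtain ⟨y', hy'⟩ := h.next hc hy
  have hle : ∀ w, O w → Lk P u w → w ≠ u →
      dp eta (P w - P u) * dp xi (P x - P u) ≤ dp eta (P x - P u) * dp xi (P w - P u) := by
    intro w h1 h2 h3
    have h4 := hmax w (by simpa using ⟨h1, h2⟩)
    rw [div_le_div_iff₀ (hxi w h3) (hxi x hy.1.symm)] at h4
    exact h4
  refine ⟨x, hOx, ⟨y, hy⟩, fun z _ => local_max hc hp hy xi eta ?_ ?_ z⟩
  · exact hle p (hprev p x hOx hp) ⟨x, hp⟩ hp.1.symm
  · exact hle y (hnext x y hOx hy) ⟨y', hy'⟩ hy.2.2.1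

end Pool.SX
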