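import Pool.Agent.Lib.MP_9dcace_sx.G6

/-!
MP_9dcace_co, row G7: the link of a vertex is one cycle.
Recipe. Fix `u`, `xi` from `h.ext u` (negated: `xi = -a`, `dp xi (P z - P u) > 0` for `z ≠ u`). Let
`O = {x | ReflTransGen (Tri P u) v x}` (forward orbit of `v`). It is closed under next. It is closed under previous: the map next on the
finite set `{x | Lk P u x}` is injective (`Tri.rot`, `Tri.uniq`: `Tri u x y`, `Tri u x' y` give `Tri y u x`, `Tri y u x'`, so
`x = x'`) and maps `O ∩ Lk` into itself, hence is a bijection of `O ∩ Lk` (finite), so the previous vertex of a point of `O` is in `O`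
(all points reachable from `v` are in `Lk`, by `next`). Same for the orbit `O'` of `v'`.
By `max_in_orbit` with any `eta` not proportional... take `eta = any vector`, get `x ∈ O`, `x' ∈ O'`, both global maxima, so
`dp eta (P x - P u) * dp xi (P x' - P u) = dp eta (P x' - P u) * dp xi (P x - P u)`. If `x ≠ x'`: the functional
`a = dp xi (P x - P u) • eta - dp eta (P x - P u) • xi` satisfies `dp a (P z - P u) ≤ 0` for all `z` and vanishes at `u, x, x'`;
`a ≠ 0` if `eta` is chosen not proportional to `xi` (e.g. `eta` one of two coordinate vectors). Then `tri_of_support` gives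
`Tri P u x x'` or `Tri P u x' x`: in both cases `x' ∈ O`. Since `v'` reaches `x'` and the orbit of `v'` is a cycle, `x'` reaches `v'`:
(`O'` closed under previous: the forward orbit of `x'` is contained in `O'`; same finiteness argument: `{x | ReflTransGen x' x}` is
closed under previous, so it contains `v'`, because `v'` is a predecessor of `x'`.)
-/

set_option autoImplicit false

namespace Pool.SX

variable {V : Type} [Fintype V] {P : V → E3}

/-- The forward orbit of a link vertex is closed under previous. -/
theorem SPoly.orbit_prev (h : SPoly P) (hc : 4 ≤ Fintype.card V) {u v x y : V} (hv : Lk P u v)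
    (hy : Relation.ReflTransGen (fun a b => Tri P u a b) v y) (ht : Tri P u x y) :
    Relation.ReflTransGen (fun a b => Tri P u a b) v x := by
  classical
  have hlk : ∀ z, Relation.ReflTransGen (fun a b => Tri P u a b) v z → ∃ y, Tri P u z y := by
    intro z hz
    induction hz with
    | refl => exact hv
    | tail _ hab _ => exact h.next hc hab
  choose! f hf using hlk
  have hinj : ∀ {a a' b : V}, Tri P u a b → Tri P u a' b → a = a' := by
    intro a a' b h1 h2
    exact Tri.uniq hc h1.rot.rot h2.rot.rot
  let g : {z // Relation.ReflTransGen (fun a b => Tri P u a b) v z} →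
      {z // Relation.ReflTransGen (fun a b => Tri P u a b) v z} :=
    fun z => ⟨f z.1, z.2.tail (hf z.1 z.2)⟩
  have hg : Function.Injective g := by
    intro z z' hzz
    have e : f z.1 = f z'.1 := congrArg Subtype.val hzz
    have h1 := hf z.1 z.2
    have h2 := hf z'.1 z'.2
    rw [← e] at h2
    exact Subtype.ext (hinj h1 h2)
  obtain ⟨z, hz⟩ := (Finite.surjective_of_injective hg) ⟨y, hy⟩
  have e : f z.1 = y := congrArg Subtype.val hz
  have h1 := hf z.1 z.2
  rw [e] at h1
  rw [← hinj h1 ht]
  exact z.2

/-- A link vertex that reaches a link vertex is reached by it. -/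
theorem SPoly.orbit_back (h : SPoly P) (hc : 4 ≤ Fintype.card V) {u x z : V} (hx : Lk P u x)
    (hz : Relation.ReflTransGen (fun a b => Tri P u a b) z x) :
    Relation.ReflTransGen (fun a b => Tri P u a b) x z := by
  induction hz using Relation.ReflTransGen.head_induction_on with
  | refl => exact Relation.ReflTransGen.refl
  | head hab _ ih => exact h.orbit_prev hc hx ih hab

/-- a nonzero vector orthogonal to a given one -/
theorem exists_orth (xi : E3) : ∃ eta : E3, eta ≠ 0 ∧ dp xi eta = 0 := by
  by_cases h0 : xi 0 = 0
  · refine ⟨![1, 0, 0], ?_, ?_⟩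
    · intro e
      have := congrFun e 0
      simp at this
    · rw [dp_def]
      simp [h0]
  · refine ⟨![-(xi 1), xi 0, 0], ?_, ?_⟩
    · intro e
      have := congrFun e 1
      simp at this
      exact h0 this
    · rw [dp_def]
      simp
      ring

theorem SPoly.link (h : SPoly P) (hc : 4 ≤ Fintype.card V) {u v w v' w' : V} (h1 : Tri P u v w)
    (h2 : Tri P u v' w') : Relation.ReflTransGen (fun a b => Tri P u a b) v v' := by
  obtain ⟨a0, ha0⟩ := h.ext u
  have hxi : ∀ z, z ≠ u → 0 < dp (-a0) (P z - P u) := by
    intro z hz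
    have := ha0 z hz
    rw [dp_neg_left, dp_sub]
    linarith
  obtain ⟨eta, heta, horth⟩ := exists_orth (-a0)
  have key : ∀ {b c : V}, Tri P u b c → ∃ x, Relation.ReflTransGen (fun a b => Tri P u a b) b x ∧
      Lk P u x ∧ ∀ z, z ≠ u →
      dp eta (P z - P u) * dp (-a0) (P x - P u) ≤ dp eta (P x - P u) * dp (-a0) (P z - P u) := by
    intro b c hbc
    exact h.max_in_orbit hc hxi eta (fun x => Relation.ReflTransGen (fun a b => Tri P u a b) b x)
      ⟨b, Relation.ReflTransGen.refl, c, hbc⟩ (fun x y hx hxy => hx.tail hxy)
      (fun x y hy hxy => h.orbit_prev hc ⟨c, hbc⟩ hy hxy)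
  obtain ⟨x, hvx, hx, hmx⟩ := key h1
  obtain ⟨x', hvx', hx', hmx'⟩ := key h2
  have hxu : x ≠ u := by
    obtain ⟨y, hy⟩ := hx
    exact hy.1.symm
  have hxu' : x' ≠ u := by
    obtain ⟨y, hy⟩ := hx'
    exact hy.1.symm
  have hback := h.orbit_back hc hx' hvx'
  by_cases hxx : x = x'
  · subst hxx
    exact hvx.trans hback
  have hstep : Relation.ReflTransGen (fun a b => Tri P u a b) x x' := by
    set s : ℝ := dp (-a0) (P x - P u) with hs
    set t : ℝ := dp eta (P x - P u) with ht
    have hspos : 0 < s := hxi x hxu
    have hd : ∀ z, dp (s • eta - t • (-a0)) (P z) - dp (s • eta - t • (-a0)) (P u) =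
        s * dp eta (P z - P u) - t * dp (-a0) (P z - P u) := by
      intro z
      rw [← dp_sub, dp_sub_left, dp_smul_left, dp_smul_left]
    have hne : s • eta - t • (-a0) ≠ 0 := by
      intro e
      have e1 : dp (s • eta - t • (-a0)) eta = s * dp eta eta - t * dp (-a0) eta := by
        rw [dp_sub_left, dp_smul_left, dp_smul_left]
      rw [e, horth] at e1
      have e2 : dp (0 : E3) eta = 0 := by simp [dp]
      rw [e2] at e1
      have := mul_pos hspos (dp_self_pos heta)
      linarith
    have hsup : ∀ z, dp (s • eta - t • (-a0)) (P z) ≤ dp (s • eta - t • (-a0)) (P u) := by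
      intro z
      by_cases hz : z = u
      · rw [hz]
      · have h3 := hmx z hz
        have h4 := hd z
        nlinarith
    have hex : dp (s • eta - t • (-a0)) (P x) = dp (s • eta - t • (-a0)) (P u) := by
      have h4 := hd x
      rw [← hs, ← ht] at h4
      linarith [mul_comm s t]
    have hex' : dp (s • eta - t • (-a0)) (P x') = dp (s • eta - t • (-a0)) (P u) := by
      have h3 := hmx x' hxu'
      have h3' := hmx' x hxu
      have h4 := hd x'
      rw [← hs, ← ht] at h3'
      nlinarith
    rcases h.tri_of_support hne hsup hxu.symm hxx hxu' rfl hex hex' with h5 | h5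
    · exact Relation.ReflTransGen.single h5
    · exact h.orbit_prev hc hx Relation.ReflTransGen.refl h5
  exact (hvx.trans hstep).trans hback

end Pool.SX
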