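import Pool.Agent.Lib.MP_9dcace_sx.RDefs

/-!
ROW R1 (regularity and walks around a vertex, 120-180 lines).
* `Reg_univ` trivial. `Reg_inter`: Disjoint is monotone; if gL ∈ R ∩ R', gR ∉ R ∩ R' then gR ∉ R or gR ∉ R'.
* `Reg_S`: crossL: c = i+1 and Pth (i+1) y v, so Le (i+2) v y (`Pth_Le`, i+2 ≠ i+1), S (c+1) v = S (i+2) v ⊆ S (i+2) y, disjoint from S i y
  by `part`. crossR: c = i+2, Pth (i+2) y v, S (c+2) v = S (i+4) v = S (i+1) v ⊆ S (i+1) y.
* walks. The faces with t c g = y (y inner) form a fan. `walk_ccw`: let g ∈ R, t c g = y, S (c+1) y meets R. Claim gR (c+2) y ∈ R.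
  Edge rule for g and index c+2 (edge t (c+2) g, t c g = t (c+3) g): g = o (c+2) impossible (t (c+3) (o (c+2)) = a (c+3), y inner);
  [II] g = gR (c+2) y: done; [I] w := t (c+2) g inner, g = gL c w, out c w = y: then g' := gR c w has t c g' = y, t (c+1) g' = w; g' ∈ R, otherwise
  Reg for (c,w) gives Disjoint (S (c+1) w) R, but S (c+1) y ⊆ S (c+1) w (y = out c w, step) meets R. Continue with g': the potential
  r (c+1) (t (c+1) ·) decreases (w = t (c+2) g, r (c+1) w < r (c+1) (t (c+1) g)). Well founded induction (finite set).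
  `walk_cw` mirror image: edge rule with index c: [I] g = gL (c+1) y done; [II] w := t (c+1) g inner, g = gR c w, g' = gL c w (t (c+2) g' = w);
  Reg: otherwise Disjoint (S (c+2) w) R, but S (c+2) y ⊆ S (c+2) w. Potential r (c+2) (t (c+2) ·).
* `IR_of`: z ∈ VR, all three S k z meet R: z is inner (outer vertices have S j (a k) = ∅). Some face at z in R, label c; by the walks and Reg (crossing the
  edge (c+2, z): gR (c+2) z ∈ R → gL (c+2) z ∈ R since S (c+4) z = S (c+1) z meets R) the first and last faces of all three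
  fans are in R; every face g with t c g = z is in R: induction backwards (mirror walk) from g to gL (c+1) z: if g = gR c w, w = t (c+1) g, then gL c w ∈ R
  by induction and g ∉ R would give Disjoint (S (c+1) w) R, S (c+1) z ⊆ S (c+1) w meets R.
* `In_of`: see sx_proof / header of section 3 (R3): a face at y in R has label j, j+1 or j+2; label j+1: walk_ccw with c = j+1 (S (j+2) y meets R)
  gives gR (j+3) y = gR j y ∈ R; then gL j y ∈ R, otherwise Disjoint (S (j+2) y) R. label j+2: walk_cw with c = j+2 (S (j+4) y = S (j+1) y meets R):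
  gL (j+3) y = gL j y ∈ R, then gR j y ∈ R. label j: walk_ccw with c = j: gR (j+2) y ∈ R, then gL (j+2) y ∈ R (otherwise Disjoint (S (j+4) y) R),
  which has label (j+2)+2 = j+1 at y. y is inner because two of the sets S k y are nonempty.
* `not_In_of`: In j z R: gL j z has label j+2 at z: gL j z ∈ S (j+2) z (`self`) and gR j z ∈ S (j+1) z.
* `In_IR`: z ∈ IR R → In j z R.
-/

set_option autoImplicit false

open Classical

namespace Pool.SX.SchS

variable {V F : Type} [Fintype V] [Fintype F] (s : SchS V F)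

private theorem R1_21 (c : Fin 3) : c + 2 + 1 = c := by revert c; decide

private theorem R1_12 (c : Fin 3) : c + 1 + 2 = c := by revert c; decide

private theorem R1_11 (c : Fin 3) : c + 1 + 1 = c + 2 := by revert c; decide

private theorem R1_22 (c : Fin 3) : c + 2 + 2 = c + 1 := by revert c; decide

private theorem R1_ne1 (c : Fin 3) : c ≠ c + 1 := by revert c; decide

private theorem R1_ne2 (c : Fin 3) : c ≠ c + 2 := by revert c; decide

private theorem R1_ne12 (c : Fin 3) : c + 2 ≠ c + 1 := by revert c; decide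

private theorem R1_cases (c k : Fin 3) : k = c ∨ k = c + 1 ∨ k = c + 1 + 1 := by
  revert c k
  decide

private theorem R1_cases' (c k : Fin 3) : k = c ∨ k = c + 1 ∨ k = c + 2 := by
  revert c k
  decide

private theorem R1_wf (φ : F → ℝ) : WellFounded (fun g' g => φ g' < φ g) := by
  have : IsTrans F (fun g' g => φ g' < φ g) := ⟨fun _ _ _ h1 h2 => lt_trans h1 h2⟩
  have : Std.Irrefl (fun g' g : F => φ g' < φ g) := ⟨fun _ => lt_irrefl _⟩
  exact Finite.wellFounded_of_trans_of_irrefl _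

omit [Fintype F] in
private theorem R1_disj {A B R : Finset F} (h : A ⊆ B) (hA : ¬ Disjoint A R) : ¬ Disjoint B R :=
  fun hB => hA (hB.mono_left h)

private theorem R1_sub {j c : Fin 3} (hj : j ≠ c) {w y : V} (hw : s.inn w) (h : s.out j w = y) :
    s.S c y ⊆ s.S c w :=
  s.mono c y w (Relation.ReflTransGen.single (Or.inr (Or.inl ⟨j, hj, hw, h.symm⟩)))

private theorem R1_inn {R : Finset F} {y : V} {j k : Fin 3} (hjk : j ≠ k)
    (h1 : ¬ Disjoint (s.S j y) R) (h2 : ¬ Disjoint (s.S k y) R) : s.inn y := by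
  intro l hl
  subst hl
  by_cases h : l = j
  · subst h
    rw [s.outer1 k l hjk] at h2
    exact h2 (Finset.disjoint_empty_left _)
  · rw [s.outer1 j l h] at h1
    exact h1 (Finset.disjoint_empty_left _)

theorem Reg_univ : s.Reg Finset.univ := by
  intro c v _
  exact ⟨fun _ h => absurd (Finset.mem_univ _) h, fun _ h => absurd (Finset.mem_univ _) h⟩

theorem Reg_inter {R R' : Finset F} (h : s.Reg R) (h' : s.Reg R') : s.Reg (R ∩ R') := by
  intro c v hv
  refine ⟨fun h1 h2 => ?_, fun h1 h2 => ?_⟩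
  · rw [Finset.mem_inter] at h1 h2
    by_cases h3 : s.gR c v ∈ R
    · exact ((h' c v hv).1 h1.2 fun h4 => h2 ⟨h3, h4⟩).mono_right Finset.inter_subset_right
    · exact ((h c v hv).1 h1.1 h3).mono_right Finset.inter_subset_left
  · rw [Finset.mem_inter] at h1 h2
    by_cases h3 : s.gL c v ∈ R
    · exact ((h' c v hv).2 h1.2 fun h4 => h2 ⟨h3, h4⟩).mono_right Finset.inter_subset_right
    · exact ((h c v hv).2 h1.1 h3).mono_right Finset.inter_subset_left

private theorem R1_part (y : V) {i k : Fin 3} (h : k ≠ i) : Disjoint (s.S k y) (s.S i y) := by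
  rw [Finset.disjoint_left]
  intro g h1 h2
  obtain ⟨l, -, hl⟩ := s.part y g
  exact h ((hl k h1).trans (hl i h2).symm)

theorem Reg_S (i : Fin 3) (y : V) : s.Reg (s.S i y) := by
  intro c v hv
  refine ⟨fun h1 h2 => ?_, fun h1 h2 => ?_⟩
  · obtain ⟨h3, h4⟩ := s.crossL i c y v hv h1 h2
    rw [h3, R1_11]
    have h5 := (s.toSch.Pth_Le h4).2 (i + 2) (R1_ne12 i)
    exact (s.R1_part y (R1_ne2 i).symm).mono_left (s.mono _ _ _ h5)
  · obtain ⟨h3, h4⟩ := s.crossR i c y v hv h1 h2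
    rw [h3, R1_22]
    have h5 := (s.toSch.Pth_Le h4).2 (i + 1) (R1_ne12 i).symm
    exact (s.R1_part y (R1_ne1 i).symm).mono_left (s.mono _ _ _ h5)

theorem Reg_kid {R : Finset F} (h : s.Reg R) (k : Fin 3) (y : V) : s.Reg (s.kid k y R) :=
  s.Reg_inter (s.Reg_S k y) h

theorem walk_ccw {R : Finset F} (h : s.Reg R) {y : V} (hy : s.inn y) {c : Fin 3} {g : F}
    (hg : g ∈ R) (hgy : s.t c g = y) (hS : ¬ Disjoint (s.S (c + 1) y) R) :
    s.gR (c + 2) y ∈ R := by
  induction g using (R1_wf fun g => s.r (c + 1) (s.t (c + 1) g)).induction with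
  | _ g ih =>
  rcases s.edge g (c + 2) with h1 | ⟨h1, h2⟩ | ⟨h1, h2⟩
  · exfalso
    have h3 := s.o1 (c + 2)
    rw [← h1, R1_21, hgy] at h3
    exact hy c h3
  · rw [R1_21] at h2
    set w := s.t (c + 2) g with hw
    have hwi : s.inn w := h1
    have h3 : s.out c w = y := by rw [← s.tL0 c w hwi, ← h2, hgy]
    have h4 : s.gR c w ∈ R := by
      by_contra h5
      refine s.R1_sub (R1_ne1 c) hwi h3 |> fun h6 => R1_disj h6 hS ?_
      exact (h c w hwi).1 (h2 ▸ hg) h5
    refine ih (s.gR c w) ?_ h4 (by rw [s.tR0 c w hwi, h3])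
    rw [s.tR1 c w hwi, hw]
    exact s.pot g (c + 1) (c + 2) (R1_ne12 c)
  · rw [R1_21, hgy] at h2
    rw [← h2]
    exact hg

theorem walk_cw {R : Finset F} (h : s.Reg R) {y : V} (hy : s.inn y) {c : Fin 3} {g : F}
    (hg : g ∈ R) (hgy : s.t c g = y) (hS : ¬ Disjoint (s.S (c + 2) y) R) :
    s.gL (c + 1) y ∈ R := by
  induction g using (R1_wf fun g => s.r (c + 2) (s.t (c + 2) g)).induction with
  | _ g ih =>
  rcases s.edge g c with h1 | ⟨h1, h2⟩ | ⟨h1, h2⟩
  · exfalso
    have h3 := s.o0 c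
    rw [← h1, hgy] at h3
    exact hy c h3
  · rw [hgy] at h2
    rw [← h2]
    exact hg
  · set w := s.t (c + 1) g with hw
    have hwi : s.inn w := h1
    have h3 : s.out c w = y := by rw [← s.tR0 c w hwi, ← h2, hgy]
    have h4 : s.gL c w ∈ R := by
      by_contra h5
      refine s.R1_sub (R1_ne2 c) hwi h3 |> fun h6 => R1_disj h6 hS ?_
      exact (h c w hwi).2 (h2 ▸ hg) h5
    refine ih (s.gL c w) ?_ h4 (by rw [s.tL0 c w hwi, h3])
    rw [s.tL2 c w hwi, hw]
    exact s.pot g (c + 2) (c + 1) (R1_ne12 c).symm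

/-- every face with label `c` at `z` is in `R` -/
private theorem R1_fan {R : Finset F} (h : s.Reg R) {z : V} (hz : s.inn z)
    (hS : ∀ k, ¬ Disjoint (s.S k z) R) {c : Fin 3} (hc : s.gL (c + 1) z ∈ R) (g : F)
    (hg : s.t c g = z) : g ∈ R := by
  induction g using (R1_wf fun g => s.r (c + 2) (s.t (c + 2) g)).induction with
  | _ g ih =>
  rcases s.edge g c with h1 | ⟨h1, h2⟩ | ⟨h1, h2⟩
  · exfalso
    have h3 := s.o0 c
    rw [← h1, hg] at h3
    exact hz c h3
  · rw [hg] at h2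
    rw [h2]
    exact hc
  · set w := s.t (c + 1) g with hw
    have hwi : s.inn w := h1
    have h3 : s.out c w = z := by rw [← s.tR0 c w hwi, ← h2, hg]
    have h4 : s.gL c w ∈ R := by
      refine ih (s.gL c w) ?_ (by rw [s.tL0 c w hwi, h3])
      rw [s.tL2 c w hwi, hw]
      exact s.pot g (c + 2) (c + 1) (R1_ne12 c).symm
    by_contra h5
    refine s.R1_sub (R1_ne1 c) hwi h3 |> fun h6 => R1_disj h6 (hS (c + 1)) ?_
    refine (h c w hwi).1 h4 ?_
    rw [← h2]
    exact h5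

private theorem R1_all (P : Fin 3 → Prop) {c : Fin 3} (hc : P c) (h : ∀ c, P c → P (c + 1))
    (k : Fin 3) : P k := by
  have h1 := h _ hc
  have h2 := h _ h1
  rcases R1_cases c k with rfl | rfl | rfl
  · exact hc
  · exact h1
  · exact h2

theorem IR_of {R : Finset F} (h : s.Reg R) {z : V} (hz : z ∈ s.VR R)
    (hS : ∀ k, ¬ Disjoint (s.S k z) R) : z ∈ s.IR R := by
  have hi : s.inn z := s.R1_inn (j := 0) (k := 1) (by decide) (hS 0) (hS 1)
  obtain ⟨g0, hg0, c0, hc0⟩ := (Finset.mem_filter.1 hz).2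
  have hA : ∀ k, ∃ g ∈ R, s.t k g = z := by
    refine R1_all (fun k => ∃ g ∈ R, s.t k g = z) ⟨g0, hg0, hc0⟩ ?_
    rintro c ⟨g, hg, hgz⟩
    have h1 := s.walk_ccw h hi hg hgz (hS (c + 1))
    have h2 : s.gL (c + 2) z ∈ R := by
      by_contra h3
      exact hS _ ((h (c + 2) z hi).2 h1 h3)
    refine ⟨_, h2, ?_⟩
    have h4 := s.tL2 (c + 2) z hi
    rwa [R1_22] at h4
  refine Finset.mem_filter.2 ⟨Finset.mem_univ _, hi, ?_⟩
  rintro g ⟨c, hgc⟩
  obtain ⟨g1, hg1, hg1z⟩ := hA c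
  exact s.R1_fan h hi hS (s.walk_cw h hi hg1 hg1z (hS (c + 2))) g hgc

theorem meets_of_IR {R : Finset F} {z : V} (hz : z ∈ s.IR R) (k : Fin 3) :
    ¬ Disjoint (s.S k z) R := by
  obtain ⟨hi, hR⟩ := (Finset.mem_filter.1 hz).2
  have h1 := s.tL2 (k + 1) z hi
  rw [R1_12] at h1
  have h2 := s.self k (s.gL (k + 1) z)
  rw [h1] at h2
  rw [Finset.not_disjoint_iff]
  exact ⟨_, h2, hR _ ⟨k, h1⟩⟩

theorem In_of {R : Finset F} (h : s.Reg R) {y : V} (hy : y ∈ s.VR R) {j : Fin 3}
    (h1 : ¬ Disjoint (s.S (j + 1) y) R) (h2 : ¬ Disjoint (s.S (j + 2) y) R) : s.In j y R := by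
  have hi : s.inn y := s.R1_inn (R1_ne12 j).symm h1 h2
  obtain ⟨g0, hg0, c0, hc0⟩ := (Finset.mem_filter.1 hy).2
  have hA : ∀ g ∈ R, s.t (j + 1) g = y → s.In j y R := by
    intro g hg hgy
    have h3 := s.walk_ccw h hi hg hgy (by rw [R1_11]; exact h2)
    rw [R1_12] at h3
    refine ⟨hi, ?_, h3⟩
    by_contra h4
    exact h2 ((h j y hi).2 h3 h4)
  rcases R1_cases' j c0 with rfl | rfl | rfl
  · have h4 := s.walk_ccw h hi hg0 hc0 h1
    have h5 : s.gL (c0 + 2) y ∈ R := by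
      by_contra h6
      have h7 := (h (c0 + 2) y hi).2 h4 h6
      rw [R1_22] at h7
      exact h1 h7
    refine hA _ h5 ?_
    have h8 := s.tL2 (c0 + 2) y hi
    rwa [R1_22] at h8
  · exact hA g0 hg0 hc0
  · have h4 := s.walk_cw h hi hg0 hc0 (by rw [R1_22]; exact h1)
    rw [R1_21] at h4
    refine ⟨hi, h4, ?_⟩
    by_contra h5
    exact h1 ((h j y hi).1 h4 h5)

theorem not_In_of {R : Finset F} {z : V} {j k : Fin 3} (hjk : j ≠ k)
    (hd : Disjoint (s.S k z) R) : ¬ s.In j z R := by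
  rintro ⟨hi, hL, hR⟩
  have h1 := s.self (j + 2) (s.gL j z)
  rw [s.tL2 j z hi] at h1
  have h2 := s.self (j + 1) (s.gR j z)
  rw [s.tR1 j z hi] at h2
  rcases R1_cases' j k with rfl | rfl | rfl
  · exact hjk rfl
  · exact Finset.disjoint_left.1 hd h2 hR
  · exact Finset.disjoint_left.1 hd h1 hL

theorem In_IR {R : Finset F} {z : V} (hz : z ∈ s.IR R) (j : Fin 3) : s.In j z R := by
  obtain ⟨hi, hR⟩ := (Finset.mem_filter.1 hz).2
  exact ⟨hi, hR _ ⟨_, s.tL2 j z hi⟩, hR _ ⟨_, s.tR1 j z hi⟩⟩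

theorem IR_sub_VR {R : Finset F} {z : V} (hz : z ∈ s.IR R) : z ∈ s.VR R := by
  obtain ⟨hi, hR⟩ := (Finset.mem_filter.1 hz).2
  obtain ⟨g, j, hg⟩ := s.cov z
  exact Finset.mem_filter.2 ⟨Finset.mem_univ _, g, hR g ⟨j, hg⟩, ⟨j, hg⟩⟩

theorem VR_mono {R R' : Finset F} (h : R ⊆ R') : s.VR R ⊆ s.VR R' := by
  intro v hv
  obtain ⟨g, hg, hvg⟩ := (Finset.mem_filter.1 hv).2
  exact Finset.mem_filter.2 ⟨Finset.mem_univ _, g, h hg, hvg⟩

theorem IR_mono {R R' : Finset F} (h : R ⊆ R') : s.IR R ⊆ s.IR R' := by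
  intro v hv
  obtain ⟨hi, hR⟩ := (Finset.mem_filter.1 hv).2
  exact Finset.mem_filter.2 ⟨Finset.mem_univ _, hi, fun g hg => h (hR g hg)⟩

end Pool.SX.SchS
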