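import Pool.Agent.Lib.MP_9dcace_sx.R1

/-!
ROW R2 (legs, 100-140 lines).
`lp j y i` = i-th vertex of the path of colour j from y.  `legN j y R` = first i with `¬ In j (lp j y i) R`.
* `exists_leg`: otherwise all lp i are inner and r j increases strictly: impossible in a finite set.
* `leg_Pth`: induction, In gives inner.  `leg_VR`: lp (i+1) = t j (gL j (lp i)), gL ∈ R.
* `leg_IR`: v = lp i, In j v R: gL j v ∈ S (j+2) v, gR j v ∈ S (j+1) v, and gL j (lp (i-1)) ∈ R has t j = v, so it is in S j v; `IR_of`.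
* `leg_end_disj`: contrapositive of `In_of` for the end vertex (in VR by leg_VR).
* `leg_ret`: Pth j y v gives v = lp i with lp i' inner for i' < i (induction on ReflTransGen).  If i ≥ legN =: m, then v = lp m or v is beyond e = lp m,
  and for the k of `leg_end_disj` (k ≠ j) Le k v e (`Pth_Le`), so S k v ⊆ S k e is disjoint from R: contradiction with
  In j v R (`not_In_of`), resp. v ∈ IR R (then In j v R by `In_IR`).
-/

set_option autoImplicit false

open Classical

namespace Pool.SX.SchS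

variable {V F : Type} [Fintype V] [Fintype F] (s : SchS V F)

private theorem R2_ne1 : ∀ j : Fin 3, j ≠ j + 1 := by decide
private theorem R2_ne2 : ∀ j : Fin 3, j ≠ j + 2 := by decide
private theorem R2_cases : ∀ j k : Fin 3, k = j ∨ k = j + 1 ∨ k = j + 2 := by decide

private theorem R2_succ (j : Fin 3) (y : V) (i : ℕ) : s.lp j y (i + 1) = s.out j (s.lp j y i) :=
  Function.iterate_succ_apply' _ _ _

private theorem R2_VR {R : Finset F} {v : V} {g : F} (hg : g ∈ R) (h : s.Inc v g) :
    v ∈ s.VR R := by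
  unfold VR
  rw [Finset.mem_filter]
  exact ⟨Finset.mem_univ _, g, hg, h⟩

theorem exists_leg (j : Fin 3) (y : V) (R : Finset F) : ∃ m : ℕ, ¬ s.In j (s.lp j y m) R := by
  by_contra h
  push Not at h
  have h1 : StrictMono (fun i : ℕ => s.r j (s.lp j y i)) := by
    refine strictMono_nat_of_lt_succ fun i => ?_
    rw [R2_succ]
    exact (s.out_pot (h i).1 j).1
  have h2 : Function.Injective (fun i : ℕ => s.lp j y i) := fun a b hab =>
    h1.injective (by simp only at hab ⊢; rw [hab])
  exact not_injective_infinite_finite _ h2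

/-- the number of edges of the leg of colour `j` from `y` in the region `R` -/
noncomputable def legN (j : Fin 3) (y : V) (R : Finset F) : ℕ := Nat.find (s.exists_leg j y R)

theorem lp_zero (j : Fin 3) (y : V) : s.lp j y 0 = y := rfl

theorem lp_succ (j : Fin 3) (y : V) (i : ℕ) : s.lp j y (i + 1) = s.out j (s.lp j y i) :=
  s.R2_succ j y i

theorem leg_In {j : Fin 3} {y : V} {R : Finset F} {i : ℕ} (h : i < s.legN j y R) :
    s.In j (s.lp j y i) R := by
  by_contra h'
  exact Nat.find_min (s.exists_leg j y R) h h'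

theorem leg_end (j : Fin 3) (y : V) (R : Finset F) : ¬ s.In j (s.lp j y (s.legN j y R)) R :=
  Nat.find_spec (s.exists_leg j y R)

theorem leg_Pth {j : Fin 3} {y : V} {R : Finset F} {i i' : ℕ} (hi : i ≤ i')
    (h : i' ≤ s.legN j y R) : s.Pth j (s.lp j y i) (s.lp j y i') := by
  induction i', hi using Nat.le_induction with
  | base => exact Relation.ReflTransGen.refl
  | succ n hn ih =>
    exact (ih (by omega)).tail ⟨(s.leg_In (show n < s.legN j y R by omega)).1, s.lp_succ j y n⟩

theorem leg_VR {j : Fin 3} {y : V} {R : Finset F} (hy : y ∈ s.VR R) {i : ℕ}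
    (h : i ≤ s.legN j y R) : s.lp j y i ∈ s.VR R := by
  cases i with
  | zero => exact hy
  | succ n =>
    have h1 := s.leg_In (show n < s.legN j y R by omega)
    exact s.R2_VR h1.2.1 ⟨j, by rw [s.tL0 j _ h1.1, s.lp_succ]⟩

theorem leg_IR {j : Fin 3} {y : V} {R : Finset F} (hR : s.Reg R) {i : ℕ} (h0 : 0 < i)
    (h : i < s.legN j y R) : s.lp j y i ∈ s.IR R := by
  obtain ⟨n, rfl⟩ : ∃ n, i = n + 1 := ⟨i - 1, by omega⟩
  have h1 := s.leg_In (show n < s.legN j y R by omega)
  have h2 := s.leg_In h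
  have h3 : s.t j (s.gL j (s.lp j y n)) = s.lp j y (n + 1) := by
    rw [s.tL0 j _ h1.1, s.lp_succ]
  refine s.IR_of hR (s.R2_VR h1.2.1 ⟨j, h3⟩) fun k => ?_
  rw [Finset.not_disjoint_iff]
  rcases R2_cases j k with rfl | rfl | rfl
  · refine ⟨_, ?_, h1.2.1⟩
    rw [← h3]
    exact s.self k _
  · refine ⟨_, ?_, h2.2.2⟩
    have h4 := s.self (j + 1) (s.gR j (s.lp j y (n + 1)))
    rwa [s.tR1 j _ h2.1] at h4
  · refine ⟨_, ?_, h2.2.1⟩
    have h4 := s.self (j + 2) (s.gL j (s.lp j y (n + 1)))
    rwa [s.tL2 j _ h2.1] at h4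

theorem leg_lt {j : Fin 3} {y : V} {R : Finset F} {i i' : ℕ} (hi : i < i')
    (h : i' ≤ s.legN j y R) : s.r j (s.lp j y i) < s.r j (s.lp j y i') := by
  induction i', hi using Nat.le_induction with
  | base =>
    rw [s.lp_succ]
    exact (s.out_pot (s.leg_In (show i < s.legN j y R by omega)).1 j).1
  | succ n hn ih =>
    refine (ih (by omega)).trans ?_
    rw [s.lp_succ]
    exact (s.out_pot (s.leg_In (show n < s.legN j y R by omega)).1 j).1

theorem leg_end_IR (j : Fin 3) (y : V) (R : Finset F) :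
    s.lp j y (s.legN j y R) ∉ s.IR R := fun h => s.leg_end j y R (s.In_IR h j)

theorem leg_end_disj {j : Fin 3} {y : V} {R : Finset F} (hR : s.Reg R) (hy : y ∈ s.VR R) :
    Disjoint (s.S (j + 1) (s.lp j y (s.legN j y R))) R ∨
    Disjoint (s.S (j + 2) (s.lp j y (s.legN j y R))) R := by
  by_contra h
  push Not at h
  exact s.leg_end j y R (s.In_of hR (s.leg_VR hy le_rfl) h.1 h.2)

private theorem R2_path {j : Fin 3} {y v : V} (hv : s.Pth j y v) :
    ∃ i, v = s.lp j y i ∧ ∀ i' < i, s.inn (s.lp j y i') := by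
  induction hv with
  | refl => exact ⟨0, rfl, fun i' hi' => by omega⟩
  | tail _ h2 ih =>
    obtain ⟨i, rfl, hi⟩ := ih
    refine ⟨i + 1, by rw [s.lp_succ]; exact h2.2, fun i' hi' => ?_⟩
    rcases Nat.lt_succ_iff_lt_or_eq.1 hi' with h3 | rfl
    · exact hi i' h3
    · exact h2.1

private theorem R2_pth {j : Fin 3} {y : V} {i i' : ℕ} (hi : i ≤ i')
    (h : ∀ n < i', s.inn (s.lp j y n)) : s.Pth j (s.lp j y i) (s.lp j y i') := by
  induction i', hi using Nat.le_induction with
  | base => exact Relation.ReflTransGen.refl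
  | succ n hn ih =>
    exact (ih fun m hm => h m (by omega)).tail ⟨h n (by omega), s.lp_succ j y n⟩

theorem leg_edges {j : Fin 3} {y : V} {R : Finset F} (hR : s.Reg R) (hy : y ∈ s.VR R) {v : V}
    (hv : s.Pth j y v) (hI : s.In j v R) : ∃ i, i < s.legN j y R ∧ v = s.lp j y i := by
  obtain ⟨i, rfl, hi⟩ := s.R2_path hv
  rcases lt_or_ge i (s.legN j y R) with h | h
  · exact ⟨i, h, rfl⟩
  · exfalso
    have h1 := (s.Pth_Le (s.R2_pth h hi)).2
    rcases s.leg_end_disj hR hy with h2 | h2
    · exact s.not_In_of (R2_ne1 j)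
        (h2.mono_left (s.mono (j + 1) _ _ (h1 (j + 1) (R2_ne1 j).symm))) hI
    · exact s.not_In_of (R2_ne2 j)
        (h2.mono_left (s.mono (j + 2) _ _ (h1 (j + 2) (R2_ne2 j).symm))) hI

theorem leg_ret {j : Fin 3} {y : V} {R : Finset F} (hR : s.Reg R) (hy : y ∈ s.VR R) {v : V}
    (hv : s.Pth j y v) (hI : v ∈ s.IR R) : ∃ i, i < s.legN j y R ∧ v = s.lp j y i :=
  s.leg_edges hR hy hv (s.In_IR hI j)

/-- two different legs only meet in `y` -/
theorem leg_meet {j j' : Fin 3} (hjj : j ≠ j') {y v : V} (h : s.Pth j y v) (h' : s.Pth j' y v) :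
    v = y :=
  s.Le_antisymm ((s.Pth_Le h').2 j hjj) (s.Pth_Le h).1

/-- if `y` is an interior vertex all three legs have at least one edge -/
theorem leg_pos {j : Fin 3} {y : V} {R : Finset F} (hy : y ∈ s.IR R) : 0 < s.legN j y R := by
  rcases Nat.eq_zero_or_pos (s.legN j y R) with h | h
  · exfalso
    have h1 := s.leg_end j y R
    rw [h] at h1
    exact h1 (s.In_IR hy j)
  · exact h

end Pool.SX.SchS
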