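import Pool.Agent.Lib.MP_9dcace_sx.R2

set_option autoImplicit false

open Classical

namespace Pool.SX.SchS

variable {V F : Type} [Fintype V] [Fintype F] (s : SchS V F)

private theorem R4_three : ∀ i j k m : Fin 3, i ≠ j → i ≠ k → j ≠ k → m = i ∨ m = j ∨ m = k := by
  decide

private theorem R4_ij : ∀ i j k : Fin 3, i ≠ j → i ≠ k → j ≠ k →
    (i = k + 1 ∧ j = k + 2) ∨ (i = k + 2 ∧ j = k + 1) := by
  decide

theorem Le_total (u v : V) : ∃ k, s.Le k u v := by
  obtain ⟨g, j, hg⟩ := s.cov u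
  obtain ⟨k, hk, -⟩ := s.part v g
  exact ⟨k, s.vert k v u g hk ⟨j, hg⟩⟩

/-- below an outer vertex `a i` in the order `≤_j`, `i ≠ j`, there is only `a i` -/
private theorem R4_below {i j : Fin 3} (hij : i ≠ j) {z : V} (h : s.Le j z (s.a i)) :
    z = s.a i := by
  rcases Relation.ReflTransGen.cases_tail h with h | ⟨u, -, h⟩
  · exact h.symm
  · exfalso
    rcases h with ⟨h1, h2⟩ | ⟨k, -, h1, -⟩ | ⟨k, -, -, h1⟩
    · exact hij (s.out_outer h1 j i h2.symm)
    · exact h1 i rfl
    · exact hij (s.a_inj h1)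

private theorem R4_uniq {z : V} {g : F} {k k' : Fin 3} (h : g ∈ s.S k z) (h' : g ∈ s.S k' z) :
    k = k' := (s.part z g).unique h h'

private theorem R4_inn_mem {k : Fin 3} {z y : V} (hz : s.inn z)
    (h1 : s.Le (k + 1) z y) (h2 : s.Le (k + 2) z y) : s.Pth k y z := by
  have hL : s.gL k z ∈ s.S (k + 2) y := by
    have := s.self (k + 2) (s.gL k z)
    rw [s.tL2 k z hz] at this
    exact s.mono _ _ _ h2 this
  have hR : s.gR k z ∈ s.S (k + 1) y := by
    have := s.self (k + 1) (s.gR k z)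
    rw [s.tR1 k z hz] at this
    exact s.mono _ _ _ h1 this
  have hR' : s.gR k z ∉ s.S (k + 2) y := by
    intro h
    have h3 := s.R4_uniq hR h
    have h4 : ∀ k : Fin 3, k + 1 ≠ k + 2 := by decide
    exact h4 k h3
  have := (s.crossL (k + 2) k y z hz hL hR').2
  have h5 : ∀ k : Fin 3, k + 2 + 1 = k := by decide
  rwa [h5 k] at this

theorem path_lemma {i j k : Fin 3} (hij : i ≠ j) (hik : i ≠ k) (hjk : j ≠ k) {z y : V}
    (h1 : s.Le i z y) (h2 : s.Le j z y) : s.Pth k y z := by
  by_cases hy : s.inn y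
  · by_cases hz : s.inn z
    · rcases R4_ij i j k hij hik hjk with ⟨rfl, rfl⟩ | ⟨rfl, rfl⟩
      · exact s.R4_inn_mem hz h1 h2
      · exact s.R4_inn_mem hz h2 h1
    · have hz' : ∃ m, z = s.a m := by
        by_contra h
        push Not at h
        exact hz h
      obtain ⟨m, rfl⟩ := hz'
      rcases R4_three i j k m hij hik hjk with rfl | rfl | rfl
      · exact absurd (s.Le_antisymm h1 (s.Le_a m y)).symm (hy m)
      · exact absurd (s.Le_antisymm h2 (s.Le_a m y)).symm (hy m)
      · exact s.Pth_end hy m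
  · have hy' : ∃ m, y = s.a m := by
      by_contra h
      push Not at h
      exact hy h
    obtain ⟨m, rfl⟩ := hy'
    have : z = s.a m := by
      by_cases hmi : m = i
      · have hmj : m ≠ j := fun h => hij (hmi ▸ h)
        exact s.R4_below hmj h2
      · exact s.R4_below hmi h1
    rw [this]
    exact Relation.ReflTransGen.refl

private theorem R4_on_leg {y z : V} {j : Fin 3} (hz : s.Pth j y z) :
    ∃ i, z = s.lp j y i ∧ ∀ i', i' < i → s.inn (s.lp j y i') := by
  induction hz with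
  | refl => exact ⟨0, rfl, fun i' h => absurd h (by omega)⟩
  | tail _ h ih =>
    obtain ⟨i, h1, h2⟩ := ih
    refine ⟨i + 1, ?_, fun i' hi' => ?_⟩
    · rw [s.lp_succ, ← h1]; exact h.2
    · rcases Nat.lt_succ_iff_lt_or_eq.mp hi' with h3 | rfl
      · exact h2 _ h3
      · rw [← h1]; exact h.1

theorem lemX {R : Finset F} (hR : s.Reg R) {y : V} (hy : y ∈ s.VR R) {c j l : Fin 3}
    (hcj : c ≠ j) (hcl : c ≠ l) (hjl : j ≠ l) {z : V} (hz : z ∈ s.VR (s.kid c y R))
    (hd : Disjoint (s.S l z) R) :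
    s.S j (s.lp j y (s.legN j y R)) ∩ s.kid c y R ⊆ s.S j z := by
  set m := s.legN j y R with hm
  have hnot : ¬ s.In j z R := s.not_In_of hjl hd
  have hcz : s.Le c z y := by
    unfold VR at hz
    rw [Finset.mem_filter] at hz
    obtain ⟨-, g, hg, hi⟩ := hz
    unfold kid at hg
    exact s.vert c y z g (Finset.mem_inter.mp hg).1 hi
  -- the final step from `Le j e z`
  have fin1 : s.Le j (s.lp j y m) z → s.S j (s.lp j y m) ∩ s.kid c y R ⊆ s.S j z := by
    intro h g hg
    exact s.mono _ _ _ h (Finset.mem_inter.mp hg).1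
  have fin2 : s.Le c z (s.lp j y m) → s.S j (s.lp j y m) ∩ s.kid c y R ⊆ s.S j z := by
    intro h g hg
    obtain ⟨hg1, hg2⟩ := Finset.mem_inter.mp hg
    have hgR : g ∈ R := by unfold kid at hg2; exact (Finset.mem_inter.mp hg2).2
    obtain ⟨k, hk, -⟩ := s.part z g
    rcases R4_three c j l k hcj hcl hjl with rfl | rfl | rfl
    · exact absurd (s.R4_uniq (s.mono _ _ _ h hk) hg1) hcj
    · exact hk
    · exact absurd hgR (Finset.disjoint_left.mp hd hk)
  by_cases hend : s.Le c z (s.lp j y m)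
  · exact fin2 hend
  -- first index where it fails
  have hex : ∃ i, ¬ s.Le c z (s.lp j y i) := ⟨m, hend⟩
  obtain ⟨i, hi1, hi2⟩ : ∃ i, s.Le c z (s.lp j y i) ∧ ¬ s.Le c z (s.lp j y (i + 1)) ∧ i < m := by
    have h0 : Nat.find hex ≠ 0 := by
      intro h
      have := Nat.find_spec hex
      rw [h] at this
      exact this hcz
    obtain ⟨n, hn⟩ := Nat.exists_eq_succ_of_ne_zero h0
    refine ⟨n, ?_, ?_, ?_⟩
    · by_contra h
      exact Nat.find_min hex (show n < Nat.find hex by omega) h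
    · have := Nat.find_spec hex
      rwa [hn] at this
    · have : Nat.find hex ≤ m := Nat.find_min' hex hend
      omega
  obtain ⟨hi2, him⟩ := hi2
  have hIn : s.In j (s.lp j y i) R := s.leg_In him
  have hzi : z ≠ s.lp j y i := fun h => hnot (h ▸ hIn)
  have hzi1 : z ≠ s.lp j y (i + 1) := fun h => hi2 (h ▸ s.Le_refl c z)
  obtain ⟨k, hk⟩ := s.Le_total z (s.lp j y (i + 1))
  rcases R4_three c j l k hcj hcl hjl with rfl | rfl | rfl
  · exact absurd hk hi2
  · -- k = j
    exfalso
    -- the face at the edge with label c at the tail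
    obtain ⟨g, hgR, hgc, hgj⟩ : ∃ g ∈ R, s.t c g = s.lp k y i ∧ s.t k g = s.lp k y (i + 1) := by
      have hcc : c = k + 1 ∨ c = k + 2 := by
        have : ∀ c k : Fin 3, c ≠ k → c = k + 1 ∨ c = k + 2 := by decide
        exact this c k hcj
      rcases hcc with rfl | rfl
      · exact ⟨s.gR k (s.lp k y i), hIn.2.2, s.tR1 k _ hIn.1, by
          rw [s.tR0 k _ hIn.1, s.lp_succ]⟩
      · exact ⟨s.gL k (s.lp k y i), hIn.2.1, s.tL2 k _ hIn.1, by
          rw [s.tL0 k _ hIn.1, s.lp_succ]⟩
    obtain ⟨k', hk', -⟩ := s.part z g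
    rcases R4_three c k l k' hcj hcl hjl with rfl | rfl | rfl
    · have := s.vert k' z (s.lp k y i) g hk' ⟨k', hgc⟩
      exact hzi (s.Le_antisymm hi1 this)
    · have := s.vert k' z (s.lp k' y (i + 1)) g hk' ⟨k', hgj⟩
      exact hzi1 (s.Le_antisymm hk this)
    · exact absurd hgR (Finset.disjoint_left.mp hd hk')
  · -- k = l
    have h1 : s.Le k (s.lp j y (i + 1)) y := by
      have h2 : s.Pth j (s.lp j y 0) (s.lp j y (i + 1)) :=
        s.leg_Pth (R := R) (Nat.zero_le _) (by omega)
      rw [s.lp_zero] at h2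
      exact (s.Pth_Le h2).2 k (Ne.symm hjl)
    have h2 : s.Pth j y z := s.path_lemma hcl hcj (Ne.symm hjl) hcz (s.Le_trans hk h1)
    have h3 : s.Pth j (s.lp j y 0) (s.lp j y m) := s.leg_Pth (R := R) (Nat.zero_le _) le_rfl
    rw [s.lp_zero] at h3
    rcases s.Pth_total h2 h3 with h4 | h4
    · obtain ⟨n, hn, hn'⟩ := s.R4_on_leg h2
      by_cases hnm : n < m
      · exact absurd (hn ▸ s.leg_In hnm) hnot
      · -- n ≥ m : then Le j e z
        apply fin1
        have : ∀ q, m ≤ q → q ≤ n → s.Pth j (s.lp j y m) (s.lp j y q) := by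
          intro q hq
          induction q, hq using Nat.le_induction with
          | base => intro _; exact Relation.ReflTransGen.refl
          | succ q hq ih =>
            intro hqn
            exact (ih (by omega)).tail ⟨hn' q (by omega), s.lp_succ j y q⟩
        have h5 := this n (by omega) le_rfl
        rw [← hn] at h5
        exact (s.Pth_Le h5).1
    · exact fin1 (s.Pth_Le h4).1

end Pool.SX.SchS
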