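import Pool.Agent.Lib.MP_9dcace_sx.R1

/-!
ROW R5 (balanced centre, 120-160 lines).
Write big k v := 2*|R| + 1 < 3*|kid k v R|.  Suppose no y in VR R is balanced: every v ∈ VR R has a k with big k v (kids of different k are
disjoint subsets of R, so there is at most one such k when |R| ≥ 2... (two would give 2(2|R|+1) < 3|R|: impossible)).
(1) Choose c and y ∈ VR R with big c y and r c y minimal among {v ∈ VR R : big c v} for this c (R nonempty: some vertex, some c).
(2) There is g ∈ R with t c g = y: kid c y R nonempty so S c y meets R.  If y = a c: any face of R at y has label c (`lab`).  (y = a j, j ≠ c: S c y = ∅ no.)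
    y inner: if S (c+1) y and S (c+2) y also meet R: y ∈ IR R (`IR_of`), take gL (c+1) y.  Otherwise, by the argument of `In_of`: a face g0 ∈ R at y of label j ≠ c:
    label c+1: `walk_cw`-type argument: walk_cw needs S ((c+1)+2) y = S c y meets R: gives gL (c+2) y ∈ R; then gR (c+2) y ∈ R (otherwise Reg at (c+2,y):
    Disjoint (S (c+3) y) R, but S c y meets R), and t (c+3) (gR (c+2) y) = y. label c+2: walk_ccw (S (c+3) y = S c y meets R): gR (c+4) y = gR (c+1) y ∈ R,
    then gL (c+1) y ∈ R (Reg at (c+1,y): otherwise Disjoint (S (c+3) y) R); t (c+3) (gL (c+1) y) = y.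
(3) For a face g ∈ R with t c g = y: the vertices t (c+1) g, t (c+2) g are in VR R, are <_c y (`pot`), so not big c (minimality of r c y), so each is big (c+1) or big (c+2).
    Not (big (c+2) (t (c+1) g) and big (c+1) (t (c+2) g)): Le (c+2) (t (c+1) g) (t (c+2) g) (`Le_face`) gives big (c+2) (t (c+2) g) too, two big numbers.
    If big (c+1) (t (c+1) g) and big (c+2) (t (c+2) g): trichromatic, go to (5).
(4) Otherwise both are big (c+1) or both big (c+2).  Take g ∈ R, t c g = y, say both big (c+2).  Edge rule index c: g = o c: t (c+1) g = a (c+1), kid (c+2) = ∅ no.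
    [I] g = gL (c+1) y (y inner), t (c+1) g = out (c+1) y: Le (c+2) (out (c+1) y) y so |kid (c+2) (out (c+1) y)| ≤ |kid (c+2) y| ≤ |R| - |kid c y| : not big. Contradiction.
    [II] w := t (c+1) g inner, g = gR c w, out c w = y, w is big (c+2): g' := gL c w ∈ R (otherwise Reg: gR c w ∈ R, gL c w ∉ R: Disjoint (S (c+2) w) R, not big), t c g' = y,
      t (c+2) g' = w big (c+2); so g' is again of type (c+2,c+2) or trichromatic; its t (c+2) g' = w = t (c+1) g has smaller potential... use: r (c+2) (t (c+2) g') = r (c+2) w < r (c+2) (t (c+2) g)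
      strictly decreases: induction.
    Both big (c+1): mirror image (edge rule index c+2; [II] g = gR (c+2) y; [I] w := t (c+2) g, g = gL c w, g' = gR c w; r (c+1) (t (c+1) ·) decreases; outer: g = o (c+2), t (c+2) g = a (c+2)).
(5) trichromatic u = (t 0 g, t 1 g, t 2 g) with big k (t k g) for all k: each h ∈ R, h ≠ g is in at most two of the S k (t k g): if in all three, for every vertex v of h: Le k v (t k g) for all
    k (`vert`), and g ∈ S k v for one k, so Le k (t k g) v, v = t k g; for v = t j h: h ∈ S j v (self) and h ∈ S k (t k g) = S k v so j = k. So t j h = t j g for all j, `face_ext`.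
    Hence ∑_k |kid k (t k g) R| ≤ 2 (|R| - 1) + 3 = 2|R| + 1 < contradiction with 3 ∑ > 3 (2|R|+1).
-/

set_option autoImplicit false

open Classical

namespace Pool.SX.SchS

variable {V F : Type} [Fintype V] [Fintype F] (s : SchS V F)

private theorem i3 : (∀ c : Fin 3, c + 1 + 2 = c) ∧ (∀ c : Fin 3, c + 2 + 1 = c) ∧
    (∀ c : Fin 3, c + 2 + 2 = c + 1) ∧ (∀ c : Fin 3, c + 1 + 1 = c + 2) ∧
    (∀ c : Fin 3, c + 1 ≠ c) ∧ (∀ c : Fin 3, c + 2 ≠ c) ∧ (∀ c : Fin 3, c + 1 ≠ c + 2) ∧
    (∀ c k : Fin 3, k = c ∨ k = c + 1 ∨ k = c + 2) := by decide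

/-- `v` has a big region of index `k` -/
private def Big (R : Finset F) (k : Fin 3) (v : V) : Prop :=
  2 * R.card + 1 < 3 * (s.kid k v R).card

private theorem big_two {R : Finset F} {j k : Fin 3} {v : V} (hjk : j ≠ k) (hj : s.Big R j v)
    (hk : s.Big R k v) : False := by
  have hd : Disjoint (s.kid j v R) (s.kid k v R) := by
    rw [Finset.disjoint_left]
    intro g h1 h2
    exact hjk ((s.part v g).unique (Finset.mem_inter.mp h1).1 (Finset.mem_inter.mp h2).1)
  have h1 : (s.kid j v R ∪ s.kid k v R).card ≤ R.card :=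
    Finset.card_le_card (Finset.union_subset Finset.inter_subset_right Finset.inter_subset_right)
  rw [Finset.card_union_of_disjoint hd] at h1
  unfold Big at hj hk
  omega

private theorem big_mono {R : Finset F} {k : Fin 3} {u v : V} (h : s.Le k u v)
    (hb : s.Big R k u) : s.Big R k v := by
  have h1 : (s.kid k u R).card ≤ (s.kid k v R).card :=
    Finset.card_le_card (Finset.inter_subset_inter (s.mono k u v h) (Finset.Subset.refl _))
  unfold Big at hb ⊢
  omega

private theorem big_meets {R : Finset F} {k : Fin 3} {v : V} (hb : s.Big R k v) :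
    ¬ Disjoint (s.S k v) R := by
  intro h
  have h1 : s.kid k v R = ∅ := Finset.disjoint_iff_inter_eq_empty.mp h
  unfold Big at hb
  rw [h1] at hb
  simp at hb

private theorem big_outer {R : Finset F} {k j : Fin 3} (hjk : j ≠ k) : ¬ s.Big R k (s.a j) := by
  intro h
  apply s.big_meets h
  rw [s.outer1 k j hjk]
  exact Finset.disjoint_empty_left _

private theorem tri {R : Finset F} {g : F} (hg : g ∈ R) (hb : ∀ k, s.Big R k (s.t k g)) :
    False := by
  have key : ∀ h ∈ R, h ≠ g → ∃ k, h ∉ s.S k (s.t k g) := by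
    intro h _ hne
    by_contra hcon
    push Not at hcon
    apply hne
    apply s.face_ext
    intro j
    obtain ⟨k, hk, -⟩ := s.part (s.t j h) g
    have h1 : s.Le k (s.t k g) (s.t j h) := s.vert k _ _ g hk ⟨k, rfl⟩
    have h2 : s.Le k (s.t j h) (s.t k g) := s.vert k _ _ h (hcon k) ⟨j, rfl⟩
    have h3 : s.t j h = s.t k g := s.Le_antisymm h2 h1
    have h4 : h ∈ s.S k (s.t j h) := by rw [h3]; exact hcon k
    have h5 : j = k := (s.part (s.t j h) h).unique (s.self j h) h4
    rw [h3, h5]
  have hsum : ∑ k, (s.kid k (s.t k g) R).card ≤ 2 * R.card + 1 := by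
    have h1 : ∀ k, (s.kid k (s.t k g) R).card = ∑ h ∈ R, if h ∈ s.S k (s.t k g) then 1 else 0 := by
      intro k
      rw [← Finset.sum_filter, Finset.sum_const, smul_eq_mul, mul_one]
      congr 1
      ext h
      simp [kid, and_comm]
    simp_rw [h1]
    rw [Finset.sum_comm]
    have h2 : ∀ h ∈ R, (∑ k, if h ∈ s.S k (s.t k g) then 1 else 0) ≤ 2 + if h = g then 1 else 0 := by
      intro h hh
      by_cases hhg : h = g
      · rw [if_pos hhg]
        calc (∑ k, if h ∈ s.S k (s.t k g) then 1 else 0) ≤ ∑ _k : Fin 3, 1 :=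
              Finset.sum_le_sum (fun k _ => by split_ifs <;> omega)
          _ = 2 + 1 := by simp
      · rw [if_neg hhg]
        obtain ⟨k, hk⟩ := key h hh hhg
        rw [← Finset.add_sum_erase _ _ (Finset.mem_univ k), if_neg hk]
        calc 0 + (∑ k ∈ Finset.univ.erase k, if h ∈ s.S k (s.t k g) then 1 else 0)
            ≤ 0 + ∑ _k ∈ Finset.univ.erase k, 1 :=
              Nat.add_le_add_left (Finset.sum_le_sum (fun k _ => by split_ifs <;> omega)) _
          _ = 2 + 0 := by
              rw [Finset.sum_const, Finset.card_erase_of_mem (Finset.mem_univ k)]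
              simp
    calc (∑ h ∈ R, ∑ k, if h ∈ s.S k (s.t k g) then 1 else 0)
        ≤ ∑ h ∈ R, (2 + if h = g then 1 else 0) := Finset.sum_le_sum h2
      _ = 2 * R.card + 1 := by
          rw [Finset.sum_add_distrib, Finset.sum_const, Finset.sum_ite_eq' R g, if_pos hg,
            smul_eq_mul, mul_comm]
  have h3 := hb 0
  have h4 := hb 1
  have h5 := hb 2
  rw [Fin.sum_univ_three] at hsum
  unfold Big at h3 h4 h5
  omega

/-- a big vertex has its label in a face of `R` -/
private theorem exists_face {R : Finset F} (hR : s.Reg R) {c : Fin 3} {y : V} (hy : y ∈ s.VR R)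
    (hb : s.Big R c y) : ∃ g ∈ R, s.t c g = y := by
  have hm := s.big_meets hb
  obtain ⟨-, g0, hg0, j, hj⟩ := Finset.mem_filter.mp hy
  by_cases hin : s.inn y
  · rcases i3.2.2.2.2.2.2.2 c j with rfl | rfl | rfl
    · exact ⟨g0, hg0, hj⟩
    · have h1 := s.walk_cw hR hin hg0 hj (by rw [i3.1]; exact hm)
      rw [i3.2.2.2.1] at h1
      have h2 : s.gR (c + 2) y ∈ R := by
        by_contra h3
        apply hm
        have := (hR (c + 2) y hin).1 h1 h3
        rwa [i3.2.1] at this
      refine ⟨_, h2, ?_⟩
      have := s.tR1 (c + 2) y hin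
      rwa [i3.2.1] at this
    · have h1 := s.walk_ccw hR hin hg0 hj (by rw [i3.2.1]; exact hm)
      rw [i3.2.2.1] at h1
      have h2 : s.gL (c + 1) y ∈ R := by
        by_contra h3
        apply hm
        have := (hR (c + 1) y hin).2 h1 h3
        rwa [i3.1] at this
      refine ⟨_, h2, ?_⟩
      have := s.tL2 (c + 1) y hin
      rwa [i3.1] at this
  · have hout : ∃ k, y = s.a k := by
      by_contra h
      push Not at h
      exact hin h
    obtain ⟨k, hk⟩ := hout
    have hkc : k = c := by
      by_contra h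
      apply s.big_outer (R := R) h
      rw [← hk]
      exact hb
    refine ⟨g0, hg0, ?_⟩
    have := s.lab g0 j k (by rw [hj, hk])
    rw [← hkc, ← this]
    exact hj

theorem balanced {R : Finset F} (hR : s.Reg R) (h2 : 2 ≤ R.card) :
    ∃ y ∈ s.VR R, ∀ k, 3 * (s.kid k y R).card ≤ 2 * R.card + 1 := by
  by_contra hcon
  push Not at hcon
  have hbig : ∀ v ∈ s.VR R, ∃ k, s.Big R k v := hcon
  -- choice of `c` and `y`
  obtain ⟨g0, hg0⟩ : R.Nonempty := Finset.card_pos.mp (by omega)
  have hVR : ∀ g ∈ R, ∀ j, s.t j g ∈ s.VR R := by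
    intro g hg j
    exact Finset.mem_filter.mpr ⟨Finset.mem_univ _, g, hg, j, rfl⟩
  obtain ⟨c, hc⟩ := hbig _ (hVR g0 hg0 0)
  obtain ⟨y, hy, hmin⟩ := Finset.exists_min_image ((s.VR R).filter (fun v => s.Big R c v)) (s.r c)
    ⟨_, Finset.mem_filter.mpr ⟨hVR g0 hg0 0, hc⟩⟩
  obtain ⟨hyR, hyb⟩ := Finset.mem_filter.mp hy
  -- the vertices of faces `g ∈ R` with `t c g = y` are not big for `c`
  have hnot : ∀ g ∈ R, s.t c g = y → ∀ j, j ≠ c → ¬ s.Big R c (s.t j g) := by
    intro g hg hgy j hj hb
    have h1 := hmin _ (Finset.mem_filter.mpr ⟨hVR g hg j, hb⟩)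
    have h3 := s.pot g c j hj
    rw [hgy] at h3
    linarith
  have hor : ∀ g ∈ R, s.t c g = y → ∀ j, j ≠ c →
      s.Big R (c + 1) (s.t j g) ∨ s.Big R (c + 2) (s.t j g) := by
    intro g hg hgy j hj
    obtain ⟨k, hk⟩ := hbig _ (hVR g hg j)
    rcases i3.2.2.2.2.2.2.2 c k with rfl | rfl | rfl
    · exact absurd hk (hnot g hg hgy j hj)
    · exact Or.inl hk
    · exact Or.inr hk
  have htri : ∀ g ∈ R, s.t c g = y → s.Big R (c + 1) (s.t (c + 1) g) →
      s.Big R (c + 2) (s.t (c + 2) g) → False := by
    intro g hg hgy h1 h3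
    apply s.tri hg
    intro k
    rcases i3.2.2.2.2.2.2.2 c k with rfl | rfl | rfl
    · rw [hgy]; exact hyb
    · exact h1
    · exact h3
  have hc12 : c + 1 ≠ c + 2 := i3.2.2.2.2.2.2.1 c
  have hc1 : c + 1 ≠ c := i3.2.2.2.2.1 c
  have hc2 : c + 2 ≠ c := i3.2.2.2.2.2.1 c
  -- both vertices are big for `c + 2`
  have hA : ∀ n : ℕ, ∀ g ∈ R, s.t c g = y → s.Big R (c + 2) (s.t (c + 1) g) →
      s.Big R (c + 2) (s.t (c + 2) g) →
      (Finset.univ.filter (fun v => s.r (c + 2) v < s.r (c + 2) (s.t (c + 2) g))).card ≤ n →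
      False := by
    intro n
    induction n with
    | zero =>
      intro g hg hgy h1 h3 hn
      have h4 := s.pot g (c + 2) (c + 1) hc12
      have h5 : s.t (c + 1) g ∈
          Finset.univ.filter (fun v => s.r (c + 2) v < s.r (c + 2) (s.t (c + 2) g)) :=
        Finset.mem_filter.mpr ⟨Finset.mem_univ _, h4⟩
      have := Finset.card_pos.mpr ⟨_, h5⟩
      omega
    | succ n ih =>
      intro g hg hgy h1 h3 hn
      rcases s.edge g c with h | ⟨hin, h⟩ | ⟨hin, h⟩
      · have h4 := s.o1 c
        rw [← h] at h4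
        rw [h4] at h1
        exact s.big_outer hc12 h1
      · rw [hgy] at h hin
        have h4 := s.tL0 (c + 1) y hin
        rw [← h] at h4
        rw [h4] at h1
        have hle : s.Le (c + 2) (s.out (c + 1) y) y :=
          Relation.ReflTransGen.single (Or.inr (Or.inl ⟨c + 1, hc12, hin, rfl⟩))
        exact s.big_two hc2 (s.big_mono hle h1) hyb
      · set w := s.t (c + 1) g with hw
        have hout : s.out c w = y := by
          have h4 := s.tR0 c w hin
          rw [← h] at h4
          rw [← h4, hgy]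
        have hg' : s.gL c w ∈ R := by
          by_contra h4
          exact s.big_meets h1 ((hR c w hin).2 (by rw [← h]; exact hg) h4)
        have hgy' : s.t c (s.gL c w) = y := by rw [s.tL0 c w hin, hout]
        have hw' : s.t (c + 2) (s.gL c w) = w := s.tL2 c w hin
        rcases hor _ hg' hgy' (c + 1) hc1 with h4 | h4
        · exact htri _ hg' hgy' h4 (by rw [hw']; exact h1)
        · refine ih _ hg' hgy' h4 (by rw [hw']; exact h1) ?_
          rw [hw']
          have h5 := s.pot g (c + 2) (c + 1) hc12
          have h6 : Finset.univ.filter (fun v => s.r (c + 2) v < s.r (c + 2) w) ⊂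
              Finset.univ.filter (fun v => s.r (c + 2) v < s.r (c + 2) (s.t (c + 2) g)) := by
            rw [Finset.ssubset_iff_of_subset]
            · exact ⟨w, Finset.mem_filter.mpr ⟨Finset.mem_univ _, h5⟩, by simp⟩
            · intro v hv
              have := (Finset.mem_filter.mp hv).2
              exact Finset.mem_filter.mpr ⟨Finset.mem_univ _, this.trans h5⟩
          have := Finset.card_lt_card h6
          omega
  -- both vertices are big for `c + 1`
  have hB : ∀ n : ℕ, ∀ g ∈ R, s.t c g = y → s.Big R (c + 1) (s.t (c + 1) g) →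
      s.Big R (c + 1) (s.t (c + 2) g) →
      (Finset.univ.filter (fun v => s.r (c + 1) v < s.r (c + 1) (s.t (c + 1) g))).card ≤ n →
      False := by
    intro n
    induction n with
    | zero =>
      intro g hg hgy h1 h3 hn
      have h4 := s.pot g (c + 1) (c + 2) hc12.symm
      have h5 : s.t (c + 2) g ∈
          Finset.univ.filter (fun v => s.r (c + 1) v < s.r (c + 1) (s.t (c + 1) g)) :=
        Finset.mem_filter.mpr ⟨Finset.mem_univ _, h4⟩
      have := Finset.card_pos.mpr ⟨_, h5⟩
      omega
    | succ n ih =>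
      intro g hg hgy h1 h3 hn
      have hedge := s.edge g (c + 2)
      rw [i3.2.1] at hedge
      rcases hedge with h | ⟨hin, h⟩ | ⟨hin, h⟩
      · have h4 := s.o0 (c + 2)
        rw [← h] at h4
        rw [h4] at h3
        exact s.big_outer hc12.symm h3
      · set w := s.t (c + 2) g with hw
        have hout : s.out c w = y := by
          have h4 := s.tL0 c w hin
          rw [← h] at h4
          rw [← h4, hgy]
        have hg' : s.gR c w ∈ R := by
          by_contra h4
          exact s.big_meets h3 ((hR c w hin).1 (by rw [← h]; exact hg) h4)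
        have hgy' : s.t c (s.gR c w) = y := by rw [s.tR0 c w hin, hout]
        have hw' : s.t (c + 1) (s.gR c w) = w := s.tR1 c w hin
        rcases hor _ hg' hgy' (c + 2) hc2 with h4 | h4
        · refine ih _ hg' hgy' (by rw [hw']; exact h3) h4 ?_
          rw [hw']
          have h5 := s.pot g (c + 1) (c + 2) hc12.symm
          have h6 : Finset.univ.filter (fun v => s.r (c + 1) v < s.r (c + 1) w) ⊂
              Finset.univ.filter (fun v => s.r (c + 1) v < s.r (c + 1) (s.t (c + 1) g)) := by
            rw [Finset.ssubset_iff_of_subset]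
            · exact ⟨w, Finset.mem_filter.mpr ⟨Finset.mem_univ _, h5⟩, by simp⟩
            · intro v hv
              have := (Finset.mem_filter.mp hv).2
              exact Finset.mem_filter.mpr ⟨Finset.mem_univ _, this.trans h5⟩
          have := Finset.card_lt_card h6
          omega
        · exact htri _ hg' hgy' (by rw [hw']; exact h3) h4
      · rw [hgy] at h hin
        have h4 := s.tR0 (c + 2) y hin
        rw [← h] at h4
        rw [h4] at h3
        have hle : s.Le (c + 1) (s.out (c + 2) y) y :=
          Relation.ReflTransGen.single (Or.inr (Or.inl ⟨c + 2, hc12.symm, hin, rfl⟩))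
        exact s.big_two hc1 (s.big_mono hle h3) hyb
  -- conclusion
  obtain ⟨g, hg, hgy⟩ := s.exists_face hR hyR hyb
  rcases hor g hg hgy (c + 1) hc1 with h1 | h1
  · rcases hor g hg hgy (c + 2) hc2 with h3 | h3
    · exact hB _ g hg hgy h1 h3 le_rfl
    · exact htri g hg hgy h1 h3
  · rcases hor g hg hgy (c + 2) hc2 with h3 | h3
    · exact s.big_two hc12 h3 (s.big_mono (s.Le_face g (c + 1) (c + 2)) h1)
    · exact hA _ g hg hgy h1 h3 le_rfl

end Pool.SX.SchS
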