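import Pool.Agent.Lib.MP_9dcace_sx.R4

/-!
ROW R6 (colours of boundary vertices, 80-110 lines).
`ix z g` = the k with g ∈ S k z.  `chi R g z`: choose k with S k z disjoint from R; the colour is ix z (g k).
* `chi_eq`: if S k z and S k' z (k ≠ k') are disjoint from R then R ⊆ S l z for the third l and both colours are l.
* `chi_end_c`: e := end of leg c; S c y ⊆ S c e (Pth_Le, mono), so g k ∈ S c e for all k; some k has S k e disjoint from R (`leg_end_disj`).
* `chi_end_j`: e := end of leg j, l the third index; some k with S k e disjoint from R.  S l e ⊆ S l y is disjoint from kid c y R. For x = g k' in the kid: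
  x ∉ S l e.  k = l: colour ix e (g l) ∈ {j, c}.  k = c: both g c and g l are not in S c e, so in S j e.  k = j: both g j, g l not in S j e, so in S c e.
-/

set_option autoImplicit false

open Classical

namespace Pool.SX.SchS

variable {V F : Type} [Fintype V] [Fintype F] (s : SchS V F)

/-- the index of the region of `z` containing `g` -/
noncomputable def ix (z : V) (g : F) : Fin 3 := (s.part z g).choose

theorem ix_mem (z : V) (g : F) : g ∈ s.S (s.ix z g) z := (s.part z g).choose_spec.1

theorem ix_eq {z : V} {g : F} {k : Fin 3} (h : g ∈ s.S k z) : s.ix z g = k :=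
  ((s.part z g).choose_spec.2 k h).symm

/-- the colouring of the boundary of `R` by three faces -/
noncomputable def chi (R : Finset F) (g : Fin 3 → F) (z : V) : Fin 3 :=
  if h : ∃ k, Disjoint (s.S k z) R then s.ix z (g h.choose) else 0

private theorem ix_ne_of_disj {R : Finset F} {z : V} {k : Fin 3} {f : F} (hf : f ∈ R)
    (hd : Disjoint (s.S k z) R) : s.ix z f ≠ k := by
  intro h
  have := s.ix_mem z f
  rw [h] at this
  exact Finset.disjoint_left.mp hd this hf

private theorem third {a b k k' : Fin 3} (h : k ≠ k') (h1 : a ≠ k) (h2 : a ≠ k') (h3 : b ≠ k)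
    (h4 : b ≠ k') : a = b := by
  revert h h1 h2 h3 h4
  revert a b k k'
  decide

private theorem plus_ne : (∀ j : Fin 3, j + 1 ≠ j) ∧ ∀ j : Fin 3, j + 2 ≠ j := by decide

private theorem two_of {c j l k : Fin 3} (h1 : c ≠ j) (h2 : c ≠ l) (h3 : j ≠ l) (h4 : k ≠ j) :
    k = c ∨ k = l := by
  revert h1 h2 h3 h4
  revert c j l k
  decide

theorem chi_eq {R : Finset F} {g : Fin 3 → F} (hg : ∀ k, g k ∈ R) {z : V} {k : Fin 3}
    (hd : Disjoint (s.S k z) R) : s.chi R g z = s.ix z (g k) := by
  have h : ∃ k, Disjoint (s.S k z) R := ⟨k, hd⟩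
  rw [chi, dif_pos h]
  have hs := h.choose_spec
  by_cases hk : h.choose = k
  · rw [hk]
  · exact third hk (s.ix_ne_of_disj (hg _) hs) (s.ix_ne_of_disj (hg _) hd)
      (s.ix_ne_of_disj (hg _) hs) (s.ix_ne_of_disj (hg _) hd)

theorem chi_end_c {R : Finset F} (hR : s.Reg R) {y : V} (hy : y ∈ s.VR R) {c : Fin 3}
    {g : Fin 3 → F} (hg : ∀ k, g k ∈ s.kid c y R) :
    s.chi R g (s.lp c y (s.legN c y R)) = c := by
  have hgR : ∀ k, g k ∈ R := fun k => (Finset.mem_inter.mp (hg k)).2
  have hgS : ∀ k, g k ∈ s.S c y := fun k => (Finset.mem_inter.mp (hg k)).1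
  have hP : s.Pth c y (s.lp c y (s.legN c y R)) := by
    have := s.leg_Pth (j := c) (y := y) (R := R) (Nat.zero_le _) (le_refl (s.legN c y R))
    rwa [s.lp_zero] at this
  have hsub := s.mono c _ _ (s.Pth_Le hP).1
  have hk : ∃ k, Disjoint (s.S k (s.lp c y (s.legN c y R))) R := by
    rcases s.leg_end_disj (j := c) hR hy with h | h
    · exact ⟨_, h⟩
    · exact ⟨_, h⟩
  obtain ⟨k, hk⟩ := hk
  rw [s.chi_eq hgR hk]
  exact s.ix_eq (hsub (hgS k))

theorem chi_end_j {R : Finset F} (hR : s.Reg R) {y : V} (hy : y ∈ s.VR R) {c j l : Fin 3}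
    (hcj : c ≠ j) (hcl : c ≠ l) (hjl : j ≠ l) {g : Fin 3 → F} (hg : ∀ k, g k ∈ s.kid c y R) :
    s.chi R g (s.lp j y (s.legN j y R)) =
      if g l ∈ s.S j (s.lp j y (s.legN j y R)) then j else c := by
  have hgR : ∀ k, g k ∈ R := fun k => (Finset.mem_inter.mp (hg k)).2
  have hgS : ∀ k, g k ∈ s.S c y := fun k => (Finset.mem_inter.mp (hg k)).1
  have hP : s.Pth j y (s.lp j y (s.legN j y R)) := by
    have := s.leg_Pth (j := j) (y := y) (R := R) (Nat.zero_le _) (le_refl (s.legN j y R))
    rwa [s.lp_zero] at this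
  have hend := s.leg_end_disj (j := j) hR hy
  generalize s.lp j y (s.legN j y R) = e at hP hend ⊢
  have hsub := s.mono l _ _ ((s.Pth_Le hP).2 l hjl.symm)
  -- faces of the kid are not in `S l e`
  have hl : ∀ k, s.ix e (g k) ≠ l := by
    intro k h
    have h1 : g k ∈ s.S l y := hsub (by rw [← h]; exact s.ix_mem e (g k))
    exact hcl ((s.part y (g k)).unique (hgS k) h1)
  have hk : ∃ k, k ≠ j ∧ Disjoint (s.S k e) R := by
    rcases hend with h | h
    · exact ⟨_, plus_ne.1 j, h⟩
    · exact ⟨_, plus_ne.2 j, h⟩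
  obtain ⟨k, hkj, hk⟩ := hk
  rw [s.chi_eq hgR hk]
  have hkcl : k = c ∨ k = l := two_of hcj hcl hjl hkj
  rcases hkcl with rfl | rfl
  · -- `k = c`
    have h1 : ∀ k', s.ix e (g k') = j := by
      intro k'
      exact third hcl (s.ix_ne_of_disj (hgR k') hk) (hl k') hcj.symm hjl
    rw [if_pos, h1]
    rw [← h1 l]
    exact s.ix_mem e (g l)
  · -- `k = l`
    split_ifs with h
    · exact s.ix_eq h
    · have h1 : s.ix e (g k) ≠ j := by
        intro h2
        apply h
        rw [← h2]
        exact s.ix_mem e (g k)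
      exact third hjl h1 (hl k) hcj hcl

/-- a boundary vertex misses one of the three indices -/
theorem exists_disj {R : Finset F} (hR : s.Reg R) {z : V} (hz : z ∈ s.VR R) (hz' : z ∉ s.IR R) :
    ∃ k, Disjoint (s.S k z) R := by
  by_contra h
  push Not at h
  exact hz' (s.IR_of hR hz h)

end Pool.SX.SchS
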