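import Pool.Agent.Lib.MP_9dcace_sx.W2
import Pool.Agent.Lib.MP_9dcace_sx.R3

/-!
ROW R7 (the colour identity, 120-160 lines).
{c, j, l} = all; R' = kid c y R; e_j = lp j y (legN j y R).  g, g' : Fin 3 → F with values in R', b : Fin 3 → ℕ.
`rt` is any root function with the properties of W5.
CLAIM: chi R g (rt v) = chi R' g' v for every v ∈ VR R', v ∉ IR R'.
By `VR_kid`: v ∉ IR R or v on a path.
Case A: v ∈ IR R, Pth j' y v: by `leg_ret` v = lp j' y i with i < legN j'.
 v = y (i = 0): rt y = e_c (hrt_c with i = 0), colour c (`chi_end_c`); S j y is disjoint from R' (part), so chi R' g' y = ix y (g' j) = c since g' j ∈ S c y (`chi_eq`, `ix_eq`).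
 j' = c, i > 0: impossible: v ∈ VR R' gives Le c v y (`vert`), but r c y < r c v (`leg_lt`).
 j' = j ≠ c, i > 0: S l v ⊆ S l y (`leg_Pth`, `Pth_Le`, `mono`) is disjoint from R': chi R' g' v = ix v (g' l).
   (i) g l ∉ S j e_j, g' l = g l: colour of rt v is c in both cases (`chi_end_c`, `chi_end_j`); g l ∉ S l v, g l ∉ S j v (S j v ⊆ S j e_j), so ix v (g l) = c.
   (ii) g l ∈ S j e_j, g' l ∈ CC R y j c (b j): g' l ∈ S c (lp j y (b j)), g' l ∈ S j (lp j y (b j + 1)).  b j < i: colour j, and S j (lp (b j+1)) ⊆ S j v; i ≤ b j: colour c and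
        S c (lp (b j)) ⊆ S c v.
Case B: v ∉ IR R: v ∉ TT, rt v = v; `exists_disj` (VR_mono) gives k with S k v disjoint from R and then from R'.  Both colours: ix v (g k), ix v (g' k).  k = c: g' c = g c.
 k = l: (i) equal; (ii) g l and g' l are in HH = S j e_j ∩ R' (g' l: S j (lp (b j+1)) ⊆ S j e_j), LEMMA X (`lemX`) gives both ∈ S j v.   k = j: the same with the roles of j, l exchanged.
The hypothesis on the pair (j, l) is stated for both orders through `hlab`.
-/

set_option autoImplicit false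

open Classical

namespace Pool.SX.SchS

variable {V F : Type} [Fintype V] [Fintype F] (s : SchS V F)

/-- relation between the old and the new label: label `l`, leg `j` (`c, j, l` all different) -/
def LabRel (R : Finset F) (y : V) (c j l : Fin 3) (b : Fin 3 → ℕ) (g g' : Fin 3 → F) : Prop :=
  (g l ∉ s.HH R y j c ∧ g' l = g l) ∨ (g l ∈ s.HH R y j c ∧ g' l ∈ s.CC R y j c (b j))

private theorem R7_disj {c k : Fin 3} (hck : k ≠ c) (y : V) (R : Finset F) :
    Disjoint (s.S k y) (s.kid c y R) := by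
  rw [Finset.disjoint_left]
  intro h h1 h2
  have h3 : h ∈ s.S c y := (Finset.mem_inter.1 h2).1
  exact hck ((s.part y h).unique h1 h3)

private theorem R7_kid_sub (c : Fin 3) (y : V) (R : Finset F) : s.kid c y R ⊆ R :=
  Finset.inter_subset_right

private theorem R7_aux {R : Finset F} {y : V} (hR : s.Reg R) (hy : y ∈ s.VR R) {c : Fin 3}
    {b : Fin 3 → ℕ} (hb : ∀ j, j ≠ c → b j < s.legN j y R ∨ (s.legN j y R = 0 ∧ b j = 0))
    {rt : V → V} (hrt : ∀ v, v ∉ s.TT R y → rt v = v)
    (hrt_c : ∀ i, i ≤ s.legN c y R → rt (s.lp c y i) = s.lp c y (s.legN c y R))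
    (hrt_j : ∀ j, j ≠ c → ∀ i, i ≤ s.legN j y R → rt (s.lp j y i) =
      if b j < i then s.lp j y (s.legN j y R) else s.lp c y (s.legN c y R))
    {g g' : Fin 3 → F} (hg : ∀ k, g k ∈ s.kid c y R) (hg' : ∀ k, g' k ∈ s.kid c y R)
    (hc : g' c = g c) (hL : ∀ j l, c ≠ j → c ≠ l → j ≠ l → s.LabRel R y c j l b g g')
    (third : ∀ j, c ≠ j → ∃ l, c ≠ l ∧ j ≠ l) {v : V} (hv : v ∈ s.VR (s.kid c y R))
    (hv' : v ∉ s.IR (s.kid c y R)) :
    s.chi R g (rt v) = s.chi (s.kid c y R) g' v := by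
  have hgR : ∀ k, g k ∈ R := fun k => s.R7_kid_sub c y R (hg k)
  by_cases hI : v ∈ s.IR R
  · obtain ⟨j', hj'⟩ : ∃ j, s.Pth j y v := by
      rcases s.VR_kid hv hv' with h | h
      · exact absurd hI h
      · exact h
    obtain ⟨i, hi, rfl⟩ := s.leg_ret hR hy hj' hI
    have hne : ∃ j, c ≠ j := by
      have h0 : ∀ c : Fin 3, ∃ j, c ≠ j := by decide
      exact h0 c
    rcases Nat.eq_zero_or_pos i with rfl | hi0
    · -- v = y
      have e1 : s.lp j' y 0 = s.lp c y 0 := rfl
      rw [e1, hrt_c 0 (Nat.zero_le _), s.chi_end_c hR hy hg]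
      obtain ⟨j, hj⟩ := hne
      have hd : Disjoint (s.S j (s.lp c y 0)) (s.kid c y R) := s.R7_disj (Ne.symm hj) y R
      rw [s.chi_eq hg' hd]
      exact (s.ix_eq (Finset.mem_inter.1 (hg' j)).1).symm
    · by_cases hcj : c = j'
      · subst hcj
        exfalso
        obtain ⟨g0, hg0, hinc⟩ := (Finset.mem_filter.1 hv).2
        have hle := s.vert c y _ g0 (Finset.mem_inter.1 hg0).1 hinc
        have hlt : s.r c (s.lp c y 0) < s.r c (s.lp c y i) := s.leg_lt hi0 hi.le
        rcases s.Le_pot hle with h | h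
        · rw [h] at hlt
          exact lt_irrefl _ hlt
        · exact lt_irrefl _ (hlt.trans h)
      · obtain ⟨l, hcl, hjl⟩ := third j' hcj
        have hp := s.Pth_Le hj'
        have hd : Disjoint (s.S l (s.lp j' y i)) (s.kid c y R) :=
          Disjoint.mono_left (s.mono l _ _ (hp.2 l (Ne.symm hjl))) (s.R7_disj (Ne.symm hcl) y R)
        rw [s.chi_eq hg' hd, hrt_j j' (Ne.symm hcj) i hi.le]
        have hbj : b j' < s.legN j' y R := by
          rcases hb j' (Ne.symm hcj) with h | h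
          · exact h
          · omega
        rcases hL j' l hcj hcl hjl with ⟨h1, h2⟩ | ⟨h1, h2⟩
        · have h3 : g l ∉ s.S j' (s.lp j' y (s.legN j' y R)) := fun h =>
            h1 (Finset.mem_inter.2 ⟨h, hg l⟩)
          have e : s.chi R g (if b j' < i then s.lp j' y (s.legN j' y R)
              else s.lp c y (s.legN c y R)) = c := by
            split_ifs with hbi
            · rw [s.chi_end_j hR hy hcj hcl hjl hg, if_neg h3]
            · exact s.chi_end_c hR hy hg
          rw [e, h2]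
          refine (s.ix_eq ?_).symm
          obtain ⟨k, hk, -⟩ := s.part (s.lp j' y i) (g l)
          have hkj : k ≠ j' := by
            rintro rfl
            exact h3 (s.mono k _ _ (s.Pth_Le (s.leg_Pth hi.le le_rfl)).1 hk)
          have hkl : k ≠ l := by
            rintro rfl
            exact (Finset.disjoint_left.1 hd) hk (hg k)
          have hkc : k = c := by
            have h7 : ∀ k c j l : Fin 3, c ≠ j → c ≠ l → j ≠ l → k ≠ j → k ≠ l → k = c := by
              decide
            exact h7 k c j' l hcj hcl hjl hkj hkl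
          rw [← hkc]
          exact hk
        · have h3 : g l ∈ s.S j' (s.lp j' y (s.legN j' y R)) := (Finset.mem_inter.1 h1).1
          have h4 := Finset.mem_inter.1 h2
          have h5 := (Finset.mem_inter.1 h4.2).1
          by_cases hbi : b j' < i
          · rw [if_pos hbi, s.chi_end_j hR hy hcj hcl hjl hg, if_pos h3]
            refine (s.ix_eq ?_).symm
            exact s.mono j' _ _ (s.Pth_Le (s.leg_Pth hbi hi.le)).1 h5
          · rw [if_neg hbi, s.chi_end_c hR hy hg]
            refine (s.ix_eq ?_).symm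
            exact s.mono c _ _ ((s.Pth_Le (s.leg_Pth (not_lt.1 hbi) hbj.le)).2 c hcj) h4.1
  · have hT : v ∉ s.TT R y := fun h => hI (Finset.mem_filter.1 h).1
    rw [hrt v hT]
    obtain ⟨k, hk⟩ := s.exists_disj hR (s.VR_mono (s.R7_kid_sub c y R) hv) hI
    have hk' : Disjoint (s.S k v) (s.kid c y R) := Disjoint.mono_right (s.R7_kid_sub c y R) hk
    rw [s.chi_eq hgR hk, s.chi_eq hg' hk']
    by_cases hkc : c = k
    · subst hkc
      rw [hc]
    · obtain ⟨j, hcj, hkj⟩ := third k hkc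
      rcases hL j k hcj hkc (Ne.symm hkj) with ⟨h1, h2⟩ | ⟨h1, h2⟩
      · rw [h2]
      · have hbj : b j < s.legN j y R := by
          rcases hb j (Ne.symm hcj) with h | h
          · exact h
          · rw [s.HH_zero hcj h.1] at h1
            simp at h1
        have h3 := s.CC_sub hcj hbj h2
        have hX := s.lemX hR hy hcj hkc (Ne.symm hkj) hv hk
        rw [s.ix_eq (hX h1), s.ix_eq (hX h3)]

theorem colour {R : Finset F} {y : V} (hR : s.Reg R) (hy : y ∈ s.VR R) {c : Fin 3}
    {b : Fin 3 → ℕ} (hb : ∀ j, j ≠ c → b j < s.legN j y R ∨ (s.legN j y R = 0 ∧ b j = 0))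
    {rt : V → V} (hrt : ∀ v, v ∉ s.TT R y → rt v = v)
    (hrt_c : ∀ i, i ≤ s.legN c y R → rt (s.lp c y i) = s.lp c y (s.legN c y R))
    (hrt_j : ∀ j, j ≠ c → ∀ i, i ≤ s.legN j y R → rt (s.lp j y i) =
      if b j < i then s.lp j y (s.legN j y R) else s.lp c y (s.legN c y R))
    {g g' : Fin 3 → F} (hg : ∀ k, g k ∈ s.kid c y R) (hg' : ∀ k, g' k ∈ s.kid c y R)
    (hc : g' c = g c) (h1 : s.LabRel R y c (c + 1) (c + 2) b g g')
    (h2 : s.LabRel R y c (c + 2) (c + 1) b g g') {v : V} (hv : v ∈ s.VR (s.kid c y R))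
    (hv' : v ∉ s.IR (s.kid c y R)) :
    s.chi R g (rt v) = s.chi (s.kid c y R) g' v := by
  have h12 : ∀ c : Fin 3, ∀ j l : Fin 3, c ≠ j → c ≠ l → j ≠ l →
      (j = c + 1 ∧ l = c + 2) ∨ (j = c + 2 ∧ l = c + 1) := by decide
  have third : ∀ c : Fin 3, ∀ j, c ≠ j → ∃ l, c ≠ l ∧ j ≠ l := by decide
  refine s.R7_aux hR hy hb hrt hrt_c hrt_j hg hg' hc ?_ (third c) hv hv'
  intro j l h3 h4 h5
  rcases h12 c j l h3 h4 h5 with ⟨rfl, rfl⟩ | ⟨rfl, rfl⟩
  · exact h1
  · exact h2

end Pool.SX.SchS
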