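import Pool.Agent.Lib.MP_9dcace_sx.S2

/-!
Regions (section 3 of sx_proof.md).
-/

set_option autoImplicit false

open Classical

namespace Pool.SX.SchS

variable {V F : Type} [Fintype V] [Fintype F] (s : SchS V F)

/-- regular sets of faces -/
def Reg (R : Finset F) : Prop := ∀ (c : Fin 3) (v : V), s.inn v →
  (s.gL c v ∈ R → s.gR c v ∉ R → Disjoint (s.S (c + 1) v) R) ∧
  (s.gR c v ∈ R → s.gL c v ∉ R → Disjoint (s.S (c + 2) v) R)

/-- vertices of the region -/
noncomputable def VR (R : Finset F) : Finset V := Finset.univ.filter (fun v => ∃ g ∈ R, s.Inc v g)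

/-- interior vertices of the region -/
noncomputable def IR (R : Finset F) : Finset V :=
  Finset.univ.filter (fun v => s.inn v ∧ ∀ g, s.Inc v g → g ∈ R)

/-- the edge `v → out c v` is interior to the region -/
def In (c : Fin 3) (v : V) (R : Finset F) : Prop := s.inn v ∧ s.gL c v ∈ R ∧ s.gR c v ∈ R

/-- the children -/
noncomputable def kid (k : Fin 3) (y : V) (R : Finset F) : Finset F := s.S k y ∩ R

/-- the vertices of the path `P_j(y)` -/
def lp (j : Fin 3) (y : V) (i : ℕ) : V := (s.out j)^[i] y

end Pool.SX.SchS
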