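import Pool.Agent.Lib.MP_9dcace_sx.S1

/-!
ROW S2 (flag sums).
The map {L} × Fin 3 × {inner v} ⊔ {R} × Fin 3 × {inner v} ⊔ Fin 3 → F × Fin 3,
(L, c, v) ↦ (gL c v, c + 2), (R, c, v) ↦ (gR c v, c), k ↦ (o k, k)  is a bijection.
-/

set_option autoImplicit false

open Classical

namespace Pool.SX.Sch

variable {V F : Type} [Fintype V] [Fintype F] (s : Sch V F)

/-- the set of inner vertices -/
noncomputable def VI : Finset V := Finset.univ.filter (fun v => s.inn v)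

private theorem S2_e1 : ∀ c : Fin 3, c + 2 + 1 = c := by decide

private theorem S2_e2 : ∀ c : Fin 3, c + 1 + 2 = c := by decide

private theorem S2_mem_VI {v : V} : v ∈ s.VI ↔ s.inn v := by
  unfold VI
  rw [Finset.mem_filter]
  exact ⟨fun h => h.2, fun h => ⟨Finset.mem_univ _, h⟩⟩

private noncomputable def S2_A : Finset (F × Fin 3) :=
  (Finset.univ : Finset (Fin 3)).image fun k => (s.o k, k)

private noncomputable def S2_B : Finset (F × Fin 3) :=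
  ((Finset.univ : Finset (Fin 3)) ×ˢ s.VI).image fun p => (s.gL p.1 p.2, p.1 + 2)

private noncomputable def S2_C : Finset (F × Fin 3) :=
  ((Finset.univ : Finset (Fin 3)) ×ˢ s.VI).image fun p => (s.gR p.1 p.2, p.1)

private theorem S2_memA {p : F × Fin 3} : p ∈ s.S2_A ↔ ∃ k, (s.o k, k) = p := by
  unfold S2_A
  rw [Finset.mem_image]
  exact ⟨fun ⟨k, _, h⟩ => ⟨k, h⟩, fun ⟨k, h⟩ => ⟨k, Finset.mem_univ _, h⟩⟩

private theorem S2_memB {p : F × Fin 3} :
    p ∈ s.S2_B ↔ ∃ c v, s.inn v ∧ (s.gL c v, c + 2) = p := by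
  unfold S2_B
  rw [Finset.mem_image]
  constructor
  · rintro ⟨q, hq, h⟩
    exact ⟨q.1, q.2, (s.S2_mem_VI).1 (Finset.mem_product.1 hq).2, h⟩
  · rintro ⟨c, v, hv, h⟩
    exact ⟨(c, v), Finset.mem_product.2 ⟨Finset.mem_univ _, (s.S2_mem_VI).2 hv⟩, h⟩

private theorem S2_memC {p : F × Fin 3} :
    p ∈ s.S2_C ↔ ∃ c v, s.inn v ∧ (s.gR c v, c) = p := by
  unfold S2_C
  rw [Finset.mem_image]
  constructor
  · rintro ⟨q, hq, h⟩
    exact ⟨q.1, q.2, (s.S2_mem_VI).1 (Finset.mem_product.1 hq).2, h⟩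
  · rintro ⟨c, v, hv, h⟩
    exact ⟨(c, v), Finset.mem_product.2 ⟨Finset.mem_univ _, (s.S2_mem_VI).2 hv⟩, h⟩

private theorem S2_disjAB : Disjoint s.S2_A s.S2_B := by
  rw [Finset.disjoint_left]
  intro p hA hB
  obtain ⟨k, rfl⟩ := (s.S2_memA).1 hA
  obtain ⟨c, v, hv, h⟩ := (s.S2_memB).1 hB
  rw [Prod.mk.injEq] at h
  obtain ⟨h1, h2⟩ := h
  have h3 := s.tL2 c v hv
  rw [h1, h2, s.o0] at h3
  exact hv k h3.symm

private theorem S2_disjAC : Disjoint s.S2_A s.S2_C := by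
  rw [Finset.disjoint_left]
  intro p hA hC
  obtain ⟨k, rfl⟩ := (s.S2_memA).1 hA
  obtain ⟨c, v, hv, h⟩ := (s.S2_memC).1 hC
  rw [Prod.mk.injEq] at h
  obtain ⟨h1, h2⟩ := h
  have h3 := s.tR1 c v hv
  rw [h1, h2, s.o1] at h3
  exact hv _ h3.symm

private theorem S2_disjBC : Disjoint s.S2_B s.S2_C := by
  rw [Finset.disjoint_left]
  intro p hB hC
  obtain ⟨c, v, hv, rfl⟩ := (s.S2_memB).1 hB
  obtain ⟨c', v', hv', h⟩ := (s.S2_memC).1 hC
  rw [Prod.mk.injEq] at h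
  obtain ⟨h1, h2⟩ := h
  subst h2
  have e1 : c + 2 + 1 = c := S2_e1 c
  have h3 : s.t (c + 2) (s.gL c v) = v := s.tL2 c v hv
  have h4 : s.t (c + 2 + 1) (s.gL c v) = v' := by
    rw [← h1]
    exact s.tR1 (c + 2) v' hv'
  refine s.edge_excl (s.gL c v) (c + 2) ?_ ?_ ?_ ?_
  · rw [h3]
    exact hv
  · rw [h3, e1]
  · rw [h4]
    exact hv'
  · rw [h4]
    exact h1.symm

private theorem S2_cover : s.S2_A ∪ s.S2_B ∪ s.S2_C = Finset.univ := by
  rw [Finset.eq_univ_iff_forall]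
  rintro ⟨g, k⟩
  rw [Finset.mem_union, Finset.mem_union]
  rcases s.edge g k with h | ⟨h1, h2⟩ | ⟨h1, h2⟩
  · exact Or.inl (Or.inl ((s.S2_memA).2 ⟨k, by rw [← h]⟩))
  · refine Or.inl (Or.inr ((s.S2_memB).2 ⟨k + 1, s.t k g, h1, ?_⟩))
    have e1 : k + 1 + 2 = k := S2_e2 k
    rw [← h2, e1]
  · refine Or.inr ((s.S2_memC).2 ⟨k, s.t (k + 1) g, h1, ?_⟩)
    rw [← h2]

theorem sum_flags {M : Type} [AddCommMonoid M] (φ : F → Fin 3 → M) :
    ∑ g, ∑ k, φ g k =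
      ∑ c, ∑ v ∈ s.VI, (φ (s.gL c v) (c + 2) + φ (s.gR c v) c) + ∑ k, φ (s.o k) k := by
  have h0 : ∑ g, ∑ k, φ g k = ∑ p : F × Fin 3, φ p.1 p.2 :=
    (Fintype.sum_prod_type (fun p : F × Fin 3 => φ p.1 p.2)).symm
  have hA : ∑ p ∈ s.S2_A, φ p.1 p.2 = ∑ k, φ (s.o k) k := by
    unfold S2_A
    rw [Finset.sum_image]
    intro k _ k' _ h
    exact (Prod.mk.inj h).2
  have hB : ∑ p ∈ s.S2_B, φ p.1 p.2 = ∑ c, ∑ v ∈ s.VI, φ (s.gL c v) (c + 2) := by
    unfold S2_B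
    rw [Finset.sum_image, Finset.sum_product]
    rintro ⟨c, v⟩ h ⟨c', v'⟩ h' hh
    have hv := (s.S2_mem_VI).1 (Finset.mem_product.1 h).2
    have hv' := (s.S2_mem_VI).1 (Finset.mem_product.1 h').2
    obtain ⟨h1, h2⟩ := Prod.mk.inj hh
    have h3 : c = c' := add_right_cancel h2
    subst h3
    have h4 := s.tL2 c v hv
    have h5 := s.tL2 c v' hv'
    have h6 : v = v' := by
      rw [← h4, ← h5]
      exact congrArg _ h1
    rw [h6]
  have hC : ∑ p ∈ s.S2_C, φ p.1 p.2 = ∑ c, ∑ v ∈ s.VI, φ (s.gR c v) c := by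
    unfold S2_C
    rw [Finset.sum_image, Finset.sum_product]
    rintro ⟨c, v⟩ h ⟨c', v'⟩ h' hh
    have hv := (s.S2_mem_VI).1 (Finset.mem_product.1 h).2
    have hv' := (s.S2_mem_VI).1 (Finset.mem_product.1 h').2
    obtain ⟨h1, h2⟩ := Prod.mk.inj hh
    have h3 : c = c' := h2
    subst h3
    have h4 := s.tR1 c v hv
    have h5 := s.tR1 c v' hv'
    have h6 : v = v' := by
      rw [← h4, ← h5]
      exact congrArg _ h1
    rw [h6]
  rw [h0, ← s.S2_cover, Finset.sum_union, Finset.sum_union s.S2_disjAB, hA, hB, hC]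
  · have h1 : ∀ c, ∑ v ∈ s.VI, (φ (s.gL c v) (c + 2) + φ (s.gR c v) c) =
        ∑ v ∈ s.VI, φ (s.gL c v) (c + 2) + ∑ v ∈ s.VI, φ (s.gR c v) c :=
      fun c => Finset.sum_add_distrib
    rw [Finset.sum_congr rfl fun c _ => h1 c, Finset.sum_add_distrib]
    abel
  · rw [Finset.disjoint_union_left]
    exact ⟨s.S2_disjAC, s.S2_disjBC⟩

theorem card_F : Fintype.card F = 2 * s.VI.card + 1 := by
  have h := s.sum_flags (fun _ _ => (1 : ℕ))
  simp only [Finset.sum_const, Finset.card_univ, Fintype.card_fin, smul_eq_mul, mul_one] at h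
  omega

theorem card_V : Fintype.card V = s.VI.card + 3 := by
  have h1 : (s.VI)ᶜ = Finset.univ.image s.a := by
    ext v
    rw [Finset.mem_compl, s.S2_mem_VI, Finset.mem_image]
    constructor
    · intro h
      by_contra hc
      exact h fun k hk => hc ⟨k, Finset.mem_univ _, hk.symm⟩
    · rintro ⟨k, _, hk⟩ h
      exact h k hk.symm
  have h2 : (Finset.univ.image s.a).card = 3 := by
    rw [Finset.card_image_of_injective _ s.a_inj, Finset.card_univ, Fintype.card_fin]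
  have h3 := Finset.card_compl s.VI
  have h4 : s.VI.card ≤ Fintype.card V := Finset.card_le_univ _
  rw [h1, h2] at h3
  omega

end Pool.SX.Sch
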