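import Pool.Agent.Lib.MP_9dcace_sx.S1

/-!
ROW S3 (the strips B, 60-100 lines).
Define B c g by well founded recursion on the potential r c (t c g) (V finite, so the values can be replaced by
natural numbers: rank of v = number of u with r c u > r c v), or define it with fuel:
Bf 0 = 0, Bf (n+1) c g h = [h = g] + ... Bf n ..., and B c g h = Bf (card V + 1) c g h.
The recursion goes from g to g1 = gR (c+1) v (v = t c g) with v = t (c+2) g1 and to g2 = gL (c+2) v with v = t (c+1) g2
(tR1: t ((c+1)+1) (gR (c+1) v) = v; tL2: t ((c+2)+2) (gL (c+2) v) = v), so r c v < r c (t c g1), r c (t c g2).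
* `exists_B`: B with the recursion equation, B ≥ 0 and supports:
  B c g h ≠ 0 → Le (c+1) (t (c+1) h) (t (c+1) g) and Le (c+2) (t (c+2) h) (t (c+2) g).
  Induction: t (c+1) g1 = out (c+1) v = t (c+1) g (g = gL (c+1) v) and t (c+2) g1 = v = t c g ≤_{c+2} t (c+2) g (`Le_face`);
  t (c+2) g2 = out (c+2) v = t (c+2) g, t (c+1) g2 = v = t c g ≤_{c+1} t (c+1) g.
-/

set_option autoImplicit false

open Classical

namespace Pool.SX.Sch

/-- fuelled recursion -/
noncomputable def Bf {F : Type} (p1 p2 : F → Prop) (n1 n2 : F → F) : ℕ → F → F → ℤ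
  | 0, g, h => if h = g then 1 else 0
  | (n + 1), g, h => (if h = g then 1 else 0)
      + (if p1 g then Bf p1 p2 n1 n2 n (n1 g) h else 0)
      + (if p2 g then Bf p1 p2 n1 n2 n (n2 g) h else 0)

theorem Bf_succ {F : Type} (p1 p2 : F → Prop) (n1 n2 : F → F) (n : ℕ) (g h : F) :
    Bf p1 p2 n1 n2 (n + 1) g h = (if h = g then 1 else 0)
      + (if p1 g then Bf p1 p2 n1 n2 n (n1 g) h else 0)
      + (if p2 g then Bf p1 p2 n1 n2 n (n2 g) h else 0) := rfl

theorem Bf_nonneg {F : Type} (p1 p2 : F → Prop) (n1 n2 : F → F) (n : ℕ) :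
    ∀ g h, 0 ≤ Bf p1 p2 n1 n2 n g h := by
  induction n with
  | zero =>
    intro g h
    unfold Bf
    split_ifs <;> norm_num
  | succ n ih =>
    intro g h
    rw [Bf_succ]
    have e1 : (0 : ℤ) ≤ (if h = g then 1 else 0) := by split_ifs <;> norm_num
    have e2 : (0 : ℤ) ≤ (if p1 g then Bf p1 p2 n1 n2 n (n1 g) h else 0) := by
      split_ifs
      · exact ih _ _
      · exact le_refl _
    have e3 : (0 : ℤ) ≤ (if p2 g then Bf p1 p2 n1 n2 n (n2 g) h else 0) := by
      split_ifs
      · exact ih _ _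
      · exact le_refl _
    exact add_nonneg (add_nonneg e1 e2) e3

theorem Bf_pos {F : Type} (p1 p2 : F → Prop) (n1 n2 : F → F) (n : ℕ) (g : F) :
    0 < Bf p1 p2 n1 n2 n g g := by
  cases n with
  | zero =>
    unfold Bf
    rw [if_pos rfl]
    norm_num
  | succ n =>
    rw [Bf_succ, if_pos rfl]
    have e2 : (0 : ℤ) ≤ (if p1 g then Bf p1 p2 n1 n2 n (n1 g) g else 0) := by
      split_ifs
      · exact Bf_nonneg _ _ _ _ _ _ _
      · exact le_refl _
    have e3 : (0 : ℤ) ≤ (if p2 g then Bf p1 p2 n1 n2 n (n2 g) g else 0) := by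
      split_ifs
      · exact Bf_nonneg _ _ _ _ _ _ _
      · exact le_refl _
    linarith

theorem Bf_supp {F : Type} (p1 p2 : F → Prop) (n1 n2 : F → F) (R : F → F → Prop)
    (hr : ∀ g, R g g) (h1 : ∀ g h, p1 g → R (n1 g) h → R g h)
    (h2 : ∀ g h, p2 g → R (n2 g) h → R g h) (n : ℕ) :
    ∀ g h, Bf p1 p2 n1 n2 n g h ≠ 0 → R g h := by
  induction n with
  | zero =>
    intro g h hne
    unfold Bf at hne
    by_cases hh : h = g
    · rw [hh]
      exact hr g
    · rw [if_neg hh] at hne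
      exact absurd rfl hne
  | succ n ih =>
    intro g h hne
    rw [Bf_succ] at hne
    by_cases hh : h = g
    · rw [hh]
      exact hr g
    · rw [if_neg hh, zero_add] at hne
      by_cases hp1 : p1 g ∧ Bf p1 p2 n1 n2 n (n1 g) h ≠ 0
      · exact h1 g h hp1.1 (ih _ _ hp1.2)
      · by_cases hp2 : p2 g ∧ Bf p1 p2 n1 n2 n (n2 g) h ≠ 0
        · exact h2 g h hp2.1 (ih _ _ hp2.2)
        · exfalso
          apply hne
          have e2 : (if p1 g then Bf p1 p2 n1 n2 n (n1 g) h else 0) = 0 := by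
            split_ifs with hq
            · by_contra hc
              exact hp1 ⟨hq, hc⟩
            · rfl
          have e3 : (if p2 g then Bf p1 p2 n1 n2 n (n2 g) h else 0) = 0 := by
            split_ifs with hq
            · by_contra hc
              exact hp2 ⟨hq, hc⟩
            · rfl
          rw [e2, e3, add_zero]

theorem Bf_stable {F : Type} (p1 p2 : F → Prop) (n1 n2 : F → F) (N : F → ℕ)
    (h1 : ∀ g, p1 g → N (n1 g) < N g) (h2 : ∀ g, p2 g → N (n2 g) < N g) (n : ℕ) :
    ∀ g h, N g ≤ n → Bf p1 p2 n1 n2 (n + 1) g h = Bf p1 p2 n1 n2 n g h := by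
  induction n with
  | zero =>
    intro g h hN
    rw [Bf_succ]
    have q1 : ¬ p1 g := fun hp => by
      have := h1 g hp
      omega
    have q2 : ¬ p2 g := fun hp => by
      have := h2 g hp
      omega
    rw [if_neg q1, if_neg q2, add_zero, add_zero]
    rfl
  | succ n ih =>
    intro g h hN
    rw [Bf_succ, Bf_succ p1 p2 n1 n2 n g h]
    have e2 : (if p1 g then Bf p1 p2 n1 n2 (n + 1) (n1 g) h else 0)
        = (if p1 g then Bf p1 p2 n1 n2 n (n1 g) h else 0) := by
      split_ifs with hq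
      · have := h1 g hq
        exact ih _ _ (by omega)
      · rfl
    have e3 : (if p2 g then Bf p1 p2 n1 n2 (n + 1) (n2 g) h else 0)
        = (if p2 g then Bf p1 p2 n1 n2 n (n2 g) h else 0) := by
      split_ifs with hq
      · have := h2 g hq
        exact ih _ _ (by omega)
      · rfl
    rw [e2, e3]

variable {V F : Type} [Fintype V] [Fintype F] (s : Sch V F)

theorem s3fin_a (c : Fin 3) : c + 1 + 2 = c := by revert c; decide
theorem s3fin_b (c : Fin 3) : c + 2 + 1 = c := by revert c; decide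
theorem s3fin_c (c : Fin 3) : c + 1 + 1 = c + 2 := by revert c; decide
theorem s3fin_d (c : Fin 3) : c + 2 + 2 = c + 1 := by revert c; decide
theorem s3fin_e (c : Fin 3) : c + 1 ≠ c := by revert c; decide
theorem s3fin_f (c : Fin 3) : c + 2 ≠ c := by revert c; decide

theorem exists_B : ∃ B : Fin 3 → F → F → ℤ,
    (∀ c g h, 0 ≤ B c g h) ∧
    (∀ c g, B c g g ≠ 0) ∧
    (∀ c g h, B c g h = (if h = g then 1 else 0)
      + (if s.inn (s.t c g) ∧ g = s.gL (c + 1) (s.t c g) then B c (s.gR (c + 1) (s.t c g)) h else 0)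
      + (if s.inn (s.t c g) ∧ g = s.gR (c + 2) (s.t c g) then B c (s.gL (c + 2) (s.t c g)) h else 0)) ∧
    (∀ c g h, B c g h ≠ 0 → s.Le (c + 1) (s.t (c + 1) h) (s.t (c + 1) g) ∧
      s.Le (c + 2) (s.t (c + 2) h) (s.t (c + 2) g)) := by
  refine ⟨fun c => Bf (fun g => s.inn (s.t c g) ∧ g = s.gL (c + 1) (s.t c g))
    (fun g => s.inn (s.t c g) ∧ g = s.gR (c + 2) (s.t c g))
    (fun g => s.gR (c + 1) (s.t c g)) (fun g => s.gL (c + 2) (s.t c g)) (Fintype.card V),
    fun c g h => Bf_nonneg _ _ _ _ _ _ _, fun c g => (Bf_pos _ _ _ _ _ _).ne', ?_, ?_⟩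
  · intro c g h
    set N : F → ℕ := fun g => (Finset.univ.filter (fun u => s.r c (s.t c g) < s.r c u)).card with hN
    have key : ∀ g g' : F, s.r c (s.t c g) < s.r c (s.t c g') → N g' < N g := by
      intro g g' hlt
      apply Finset.card_lt_card
      refine ⟨fun u hu => ?_, fun hsub => ?_⟩
      · rw [Finset.mem_filter] at hu ⊢
        exact ⟨hu.1, hlt.trans hu.2⟩
      · have h1 : s.t c g' ∈ Finset.univ.filter (fun u => s.r c (s.t c g) < s.r c u) :=
          Finset.mem_filter.mpr ⟨Finset.mem_univ _, hlt⟩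
        have h2 := hsub h1
        rw [Finset.mem_filter] at h2
        exact lt_irrefl _ h2.2
    have st := Bf_stable (fun g => s.inn (s.t c g) ∧ g = s.gL (c + 1) (s.t c g))
      (fun g => s.inn (s.t c g) ∧ g = s.gR (c + 2) (s.t c g))
      (fun g => s.gR (c + 1) (s.t c g)) (fun g => s.gL (c + 2) (s.t c g)) N ?_ ?_
      (Fintype.card V) g h ?_
    · beta_reduce
      rw [← st, Bf_succ]
      congr
    · rintro g ⟨hi, hg⟩
      apply key
      have e1 := s.tR1 (c + 1) (s.t c g) hi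
      rw [s3fin_c] at e1
      have e2 := s.pot (s.gR (c + 1) (s.t c g)) c (c + 2) (s3fin_f c)
      rw [e1] at e2
      exact e2
    · rintro g ⟨hi, hg⟩
      apply key
      have e1 := s.tL2 (c + 2) (s.t c g) hi
      rw [s3fin_d] at e1
      have e2 := s.pot (s.gL (c + 2) (s.t c g)) c (c + 1) (s3fin_e c)
      rw [e1] at e2
      exact e2
    · exact Finset.card_le_univ _
  · intro c
    apply Bf_supp
    · intro g
      exact ⟨s.Le_refl _ _, s.Le_refl _ _⟩
    · rintro g h ⟨hi, hg⟩ ⟨r1, r2⟩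
      have e1 := s.tR1 (c + 1) (s.t c g) hi
      rw [s3fin_c] at e1
      have e0 := s.tR0 (c + 1) (s.t c g) hi
      have l0 := s.tL0 (c + 1) (s.t c g) hi
      rw [← hg] at l0
      rw [e0, ← l0] at r1
      rw [e1] at r2
      exact ⟨r1, s.Le_trans r2 (s.Le_face g c (c + 2))⟩
    · rintro g h ⟨hi, hg⟩ ⟨r1, r2⟩
      have e1 := s.tL2 (c + 2) (s.t c g) hi
      rw [s3fin_d] at e1
      have e0 := s.tL0 (c + 2) (s.t c g) hi
      have l0 := s.tR0 (c + 2) (s.t c g) hi
      rw [← hg] at l0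
      rw [e0, ← l0] at r2
      rw [e1] at r1
      exact ⟨s.Le_trans r1 (s.Le_face g c (c + 1)), r2⟩

end Pool.SX.Sch
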