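import Pool.Agent.Lib.MP_9dcace_sx.S3

/-!
ROW S4 (boundary of a strip, 120-180 lines).
1-chains: a function on (c, v) (v inner) and a function on the outer edges k.
boundary of X : F → ℤ:  (c,v) ↦ X (gL c v) - X (gR c v),  k ↦ X (o k).
`PiI c z`, `PiO c z`: the path P_c(z) as a chain; for z = a (c+1) the reversed outer edge c, for z = a (c+2) the outer edge c+2.
LEMMA: boundary (B c g) = eps c g + Π_c (t (c+2) g) - Π_c (t (c+1) g), eps c g = the edge t (c+1) g → t (c+2) g of g.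
PROOF by induction along the recursion (potential r c (t c g)): let v = t c g.
boundary of [h = g]: the three edges of g with signs, i.e. sum over the flags (g,k) of the directed edge t k g → t (k+1) g:
 e(g,k) := + (k+1, t k g) in case [I], - (k, t (k+1) g) in case [II], + outer k if g = o k.
Edge k = c (v → t (c+1) g): [I] g = gL (c+1) v: the term B c g1, g1 = gR (c+1) v: eps c g1 is minus this edge (in g1 it is the edge
 t (c+1) g1 → t (c+2) g1 = v, case [II] with colour c+1), Π_c(t (c+2) g1) - Π_c(t (c+1) g1) = Π_c(v) - Π_c(t (c+1) g).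
 [II] g = gR c (t (c+1) g): e(g,c) = -(c, t (c+1) g) and Π_c(t (c+1) g) = (c, t (c+1) g) + Π_c(v): so e(g,c) = Π_c(v) - Π_c(t (c+1) g).
 outer: v = a c, t (c+1) g = a (c+1): e = outer c = 0 - Π_c(a (c+1)).  In all cases: e(g,c) + [B term] contributes Π_c(v) - Π_c(t (c+1) g).
Edge k = c+2 (t (c+2) g → v): similarly contributes Π_c(t (c+2) g) - Π_c(v).
Edge k = c+1: eps.
Work with the pair of functions (two statements, inner and outer part), or with one function on `Fin 3 × V ⊕ Fin 3`.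
Note `s.inn v` is `∀ k, v ≠ s.a k`.
-/

set_option autoImplicit false

open Classical

namespace Pool.SX.Sch

variable {V F : Type} [Fintype V] [Fintype F] (s : Sch V F)

/-- inner part of the chain of the path `P_c(z)` -/
noncomputable def PiI (c : Fin 3) (z : V) (c' : Fin 3) (v : V) : ℤ :=
  if c' = c ∧ s.inn v ∧ s.Pth c z v then 1 else 0

/-- outer part of the chain of the path `P_c(z)` -/
noncomputable def PiO (c : Fin 3) (z : V) (k : Fin 3) : ℤ :=
  if z = s.a (c + 1) ∧ k = c then -1 else if z = s.a (c + 2) ∧ k = c + 2 then 1 else 0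

theorem S4_fi (c : Fin 3) : c + 1 + 2 = c ∧ c + 1 + 1 = c + 2 ∧ c + 2 + 2 = c + 1 ∧ c + 2 + 1 = c ∧
    c ≠ c + 1 ∧ c ≠ c + 2 ∧ c + 1 ≠ c + 2 := by
  revert c
  decide

theorem S4_cases (c c' : Fin 3) : c' = c ∨ c' = c + 1 ∨ c' = c + 2 := by
  revert c c'
  decide

/-- one step of the path -/
theorem PiI_step {c : Fin 3} {x v : V} (hx : s.inn x) (c' : Fin 3) (hv : s.inn v) :
    s.PiI c x c' v = (if c' = c ∧ v = x then 1 else 0) + s.PiI c (s.out c x) c' v := by
  unfold PiI
  by_cases hc : c' = c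
  · by_cases hvx : v = x
    · have h1 : s.Pth c x v := (s.Pth_step hx v).2 (Or.inl hvx)
      have h2 : ¬ s.Pth c (s.out c x) v := by
        intro h
        rw [hvx] at h
        have h3 := (s.out_pot hx c).1
        rcases s.Le_pot (s.Pth_Le h).1 with h4 | h4
        · rw [h4] at h3
          exact lt_irrefl _ h3
        · exact lt_asymm h3 h4
      rw [if_pos ⟨hc, hv, h1⟩, if_pos ⟨hc, hvx⟩, if_neg (fun h => h2 h.2.2)]
      rfl
    · have h1 : s.Pth c x v ↔ s.Pth c (s.out c x) v := by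
        rw [s.Pth_step hx v]
        exact ⟨fun h => h.resolve_left hvx, Or.inr⟩
      rw [if_neg (fun h : c' = c ∧ v = x => hvx h.2), zero_add]
      simp only [h1]
  · rw [if_neg (fun h => hc h.1), if_neg (fun h => hc h.1), if_neg (fun h => hc h.1)]
    rfl

theorem PiI_outer (c j c' : Fin 3) {v : V} (hv : s.inn v) : s.PiI c (s.a j) c' v = 0 := by
  unfold PiI
  rw [if_neg]
  rintro ⟨-, -, h⟩
  exact hv j (s.Pth_outer h)

theorem PiO_inn (c k : Fin 3) {z : V} (hz : s.inn z) : s.PiO c z k = 0 := by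
  unfold PiO
  rw [if_neg (fun h => hz _ h.1), if_neg (fun h => hz _ h.1)]

theorem PiO_out (c k : Fin 3) {x : V} (hx : s.inn x) : s.PiO c (s.out c x) k = 0 := by
  unfold PiO
  have h1 : c + 1 ≠ c := by revert c; decide
  have h2 : c + 2 ≠ c := by revert c; decide
  rw [if_neg (fun h => h1 (s.out_outer hx c _ h.1)), if_neg (fun h => h2 (s.out_outer hx c _ h.1))]

theorem PiO_a0 (c k : Fin 3) : s.PiO c (s.a c) k = 0 := by
  unfold PiO
  have h1 : c ≠ c + 1 := by revert c; decide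
  have h2 : c ≠ c + 2 := by revert c; decide
  rw [if_neg (fun h => h1 (s.a_inj h.1)), if_neg (fun h => h2 (s.a_inj h.1))]

theorem PiO_a1 (c k : Fin 3) : s.PiO c (s.a (c + 1)) k = if k = c then -1 else 0 := by
  unfold PiO
  have h2 : c + 1 ≠ c + 2 := by revert c; decide
  by_cases hk : k = c
  · rw [if_pos ⟨rfl, hk⟩, if_pos hk]
  · rw [if_neg (fun h => hk h.2), if_neg (fun h => h2 (s.a_inj h.1)), if_neg hk]

theorem PiO_a2 (c k : Fin 3) : s.PiO c (s.a (c + 2)) k = if k = c + 2 then 1 else 0 := by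
  unfold PiO
  have h2 : c + 2 ≠ c + 1 := by revert c; decide
  rw [if_neg (fun h => h2 (s.a_inj h.1))]
  by_cases hk : k = c + 2
  · rw [if_pos ⟨rfl, hk⟩, if_pos hk]
  · rw [if_neg (fun h => hk h.2), if_neg hk]

/-- the edge rule at the edge with index `c + 2` -/
theorem S4_edge2 (c : Fin 3) (g : F) : g = s.o (c + 2) ∨
    (s.inn (s.t (c + 2) g) ∧ g = s.gL c (s.t (c + 2) g)) ∨
    (s.inn (s.t c g) ∧ g = s.gR (c + 2) (s.t c g)) := by
  have e1 : c + 2 + 1 = c := (S4_fi c).2.2.2.1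
  have h := s.edge g (c + 2)
  rw [e1] at h
  exact h

theorem S4_excl2 (c : Fin 3) (g : F) (h1 : s.inn (s.t (c + 2) g)) (h2 : g = s.gL c (s.t (c + 2) g))
    (h3 : s.inn (s.t c g)) (h4 : g = s.gR (c + 2) (s.t c g)) : False := by
  have e1 : c + 2 + 1 = c := (S4_fi c).2.2.2.1
  refine s.edge_excl g (c + 2) h1 ?_ ?_ ?_
  · rw [e1]
    exact h2
  · rw [e1]
    exact h3
  · rw [e1]
    exact h4

theorem S4_excl1 (c : Fin 3) (g : F) (h1 : s.inn (s.t (c + 1) g))
    (h2 : g = s.gL (c + 2) (s.t (c + 1) g))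
    (h3 : s.inn (s.t (c + 2) g)) (h4 : g = s.gR (c + 1) (s.t (c + 2) g)) : False := by
  have e1 : c + 1 + 1 = c + 2 := (S4_fi c).2.1
  refine s.edge_excl g (c + 1) h1 ?_ ?_ ?_
  · rw [e1]
    exact h2
  · rw [e1]
    exact h3
  · rw [e1]
    exact h4

/-- the boundary of a single face -/
theorem S4_delta (c : Fin 3) (g : F) (c' : Fin 3) (v : V) (hv : s.inn v) :
    ((if s.gL c' v = g then 1 else 0) - (if s.gR c' v = g then 1 else 0) : ℤ) =
      (if c' = c + 2 ∧ v = s.t (c + 1) g ∧ g = s.gL (c + 2) v then 1 else 0)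
      - (if c' = c + 1 ∧ v = s.t (c + 2) g ∧ g = s.gR (c + 1) v then 1 else 0)
      + ((if c' = c + 1 ∧ v = s.t c g ∧ g = s.gL (c + 1) v then 1 else 0)
      - (if c' = c ∧ v = s.t (c + 1) g ∧ g = s.gR c v then 1 else 0))
      + ((if c' = c ∧ v = s.t (c + 2) g ∧ g = s.gL c v then 1 else 0)
      - (if c' = c + 2 ∧ v = s.t c g ∧ g = s.gR (c + 2) v then 1 else 0)) := by
  obtain ⟨e12, e11, e22, e21, n1, n2, n3⟩ := S4_fi c
  have k0L : s.gL c v = g ↔ v = s.t (c + 2) g ∧ g = s.gL c v :=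
    ⟨fun h => ⟨by rw [← h]; exact (s.tL2 c v hv).symm, h.symm⟩, fun h => h.2.symm⟩
  have k0R : s.gR c v = g ↔ v = s.t (c + 1) g ∧ g = s.gR c v :=
    ⟨fun h => ⟨by rw [← h]; exact (s.tR1 c v hv).symm, h.symm⟩, fun h => h.2.symm⟩
  have k1L : s.gL (c + 1) v = g ↔ v = s.t c g ∧ g = s.gL (c + 1) v :=
    ⟨fun h => ⟨by rw [← h]; have := s.tL2 (c + 1) v hv; rw [e12] at this; exact this.symm,
      h.symm⟩, fun h => h.2.symm⟩
  have k1R : s.gR (c + 1) v = g ↔ v = s.t (c + 2) g ∧ g = s.gR (c + 1) v :=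
    ⟨fun h => ⟨by rw [← h]; have := s.tR1 (c + 1) v hv; rw [e11] at this; exact this.symm,
      h.symm⟩, fun h => h.2.symm⟩
  have k2L : s.gL (c + 2) v = g ↔ v = s.t (c + 1) g ∧ g = s.gL (c + 2) v :=
    ⟨fun h => ⟨by rw [← h]; have := s.tL2 (c + 2) v hv; rw [e22] at this; exact this.symm,
      h.symm⟩, fun h => h.2.symm⟩
  have k2R : s.gR (c + 2) v = g ↔ v = s.t c g ∧ g = s.gR (c + 2) v :=
    ⟨fun h => ⟨by rw [← h]; have := s.tR1 (c + 2) v hv; rw [e21] at this; exact this.symm,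
      h.symm⟩, fun h => h.2.symm⟩
  have hc : c' = c ∨ c' = c + 1 ∨ c' = c + 2 := S4_cases c c'
  rcases hc with rfl | rfl | rfl
  · simp only [n1, n2, false_and, if_false, true_and, k0L, k0R]
    ring
  · simp only [n1.symm, n3, false_and, if_false, true_and, k1L, k1R]
    ring
  · simp only [n2.symm, n3.symm, false_and, if_false, true_and, k2L, k2R]
    ring

theorem boundary_B (B : Fin 3 → F → F → ℤ)
    (hB : ∀ c g h, B c g h = (if h = g then 1 else 0)
      + (if s.inn (s.t c g) ∧ g = s.gL (c + 1) (s.t c g) then B c (s.gR (c + 1) (s.t c g)) h else 0)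
      + (if s.inn (s.t c g) ∧ g = s.gR (c + 2) (s.t c g) then B c (s.gL (c + 2) (s.t c g)) h else 0))
    (c : Fin 3) (g : F) :
    (∀ (c' : Fin 3) (v : V), s.inn v → B c g (s.gL c' v) - B c g (s.gR c' v) =
      (if c' = c + 2 ∧ v = s.t (c + 1) g ∧ g = s.gL (c + 2) v then 1 else 0)
      - (if c' = c + 1 ∧ v = s.t (c + 2) g ∧ g = s.gR (c + 1) v then 1 else 0)
      + s.PiI c (s.t (c + 2) g) c' v - s.PiI c (s.t (c + 1) g) c' v) ∧
    (∀ k : Fin 3, B c g (s.o k) = (if k = c + 1 ∧ g = s.o (c + 1) then 1 else 0)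
      + s.PiO c (s.t (c + 2) g) k - s.PiO c (s.t (c + 1) g) k) := by
  obtain ⟨e12, e11, e22, e21, n1, n2, n3⟩ := S4_fi c
  let R : F → F → Prop := fun g' g => s.r c (s.t c g) < s.r c (s.t c g')
  haveI : IsTrans F R := ⟨fun _ _ _ h h' => lt_trans h' h⟩
  haveI : Std.Irrefl R := ⟨fun _ h => lt_irrefl _ h⟩
  have wf : WellFounded R := Finite.wellFounded_of_trans_of_irrefl R
  induction g using wf.induction with
  | _ g ih =>
  -- the strip on the other side of the edge with index `c`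
  have hT1 : s.inn (s.t c g) → g = s.gL (c + 1) (s.t c g) →
      (∀ (c' : Fin 3) (v : V), s.inn v → B c (s.gR (c + 1) (s.t c g)) (s.gL c' v) -
        B c (s.gR (c + 1) (s.t c g)) (s.gR c' v) =
        - (if c' = c + 1 ∧ v = s.t c g then 1 else 0) + s.PiI c (s.t c g) c' v
          - s.PiI c (s.t (c + 1) g) c' v) ∧
      (∀ k, B c (s.gR (c + 1) (s.t c g)) (s.o k) = - s.PiO c (s.t (c + 1) g) k) := by
    intro hw hg
    have f1 : s.t (c + 2) (s.gR (c + 1) (s.t c g)) = s.t c g := by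
      have := s.tR1 (c + 1) (s.t c g) hw
      rwa [e11] at this
    have f2 : s.t (c + 1) (s.gR (c + 1) (s.t c g)) = s.t (c + 1) g := by
      rw [s.tR0 (c + 1) (s.t c g) hw]
      conv_rhs => rw [hg]
      rw [s.tL0 (c + 1) (s.t c g) hw]
    have hR : R (s.gR (c + 1) (s.t c g)) g := by
      show s.r c (s.t c g) < s.r c (s.t c (s.gR (c + 1) (s.t c g)))
      have := s.pot (s.gR (c + 1) (s.t c g)) c (c + 2) n2.symm
      rwa [f1] at this
    obtain ⟨h1, h2⟩ := ih _ hR
    rw [f1, f2] at h1 h2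
    refine ⟨fun c' v hv => ?_, fun k => ?_⟩
    · rw [h1 c' v hv]
      have z1 : ¬ (c' = c + 2 ∧ v = s.t (c + 1) g ∧
          s.gR (c + 1) (s.t c g) = s.gL (c + 2) v) := by
        rintro ⟨-, rfl, h3⟩
        refine s.S4_excl1 c (s.gR (c + 1) (s.t c g)) ?_ ?_ ?_ ?_
        · rw [f2]
          exact hv
        · rw [f2]
          exact h3
        · rw [f1]
          exact hw
        · rw [f1]
      have z2 : (c' = c + 1 ∧ v = s.t c g ∧ s.gR (c + 1) (s.t c g) = s.gR (c + 1) v) ↔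
          (c' = c + 1 ∧ v = s.t c g) :=
        ⟨fun h => ⟨h.1, h.2.1⟩, fun h => ⟨h.1, h.2, by rw [h.2]⟩⟩
      rw [if_neg z1]
      simp only [z2]
      ring
    · rw [h2 k, s.PiO_inn c k hw, if_neg]
      · ring
      · rintro ⟨-, h3⟩
        have h4 := s.o1 (c + 1)
        rw [← h3, e11, f1] at h4
        exact hw _ h4
  have hT2 : s.inn (s.t c g) → g = s.gR (c + 2) (s.t c g) →
      (∀ (c' : Fin 3) (v : V), s.inn v → B c (s.gL (c + 2) (s.t c g)) (s.gL c' v) -
        B c (s.gL (c + 2) (s.t c g)) (s.gR c' v) =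
        (if c' = c + 2 ∧ v = s.t c g then 1 else 0) + s.PiI c (s.t (c + 2) g) c' v
          - s.PiI c (s.t c g) c' v) ∧
      (∀ k, B c (s.gL (c + 2) (s.t c g)) (s.o k) = s.PiO c (s.t (c + 2) g) k) := by
    intro hw hg
    have f1 : s.t (c + 1) (s.gL (c + 2) (s.t c g)) = s.t c g := by
      have := s.tL2 (c + 2) (s.t c g) hw
      rwa [e22] at this
    have f2 : s.t (c + 2) (s.gL (c + 2) (s.t c g)) = s.t (c + 2) g := by
      rw [s.tL0 (c + 2) (s.t c g) hw]
      conv_rhs => rw [hg]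
      rw [s.tR0 (c + 2) (s.t c g) hw]
    have hR : R (s.gL (c + 2) (s.t c g)) g := by
      show s.r c (s.t c g) < s.r c (s.t c (s.gL (c + 2) (s.t c g)))
      have := s.pot (s.gL (c + 2) (s.t c g)) c (c + 1) n1.symm
      rwa [f1] at this
    obtain ⟨h1, h2⟩ := ih _ hR
    rw [f1, f2] at h1 h2
    refine ⟨fun c' v hv => ?_, fun k => ?_⟩
    · rw [h1 c' v hv]
      have z1 : ¬ (c' = c + 1 ∧ v = s.t (c + 2) g ∧
          s.gL (c + 2) (s.t c g) = s.gR (c + 1) v) := by
        rintro ⟨-, rfl, h3⟩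
        refine s.S4_excl1 c (s.gL (c + 2) (s.t c g)) ?_ ?_ ?_ ?_
        · rw [f1]
          exact hw
        · rw [f1]
        · rw [f2]
          exact hv
        · rw [f2]
          exact h3
      have z2 : (c' = c + 2 ∧ v = s.t c g ∧ s.gL (c + 2) (s.t c g) = s.gL (c + 2) v) ↔
          (c' = c + 2 ∧ v = s.t c g) :=
        ⟨fun h => ⟨h.1, h.2.1⟩, fun h => ⟨h.1, h.2, by rw [h.2]⟩⟩
      rw [if_neg z1]
      simp only [z2]
      ring
    · rw [h2 k, s.PiO_inn c k hw, if_neg]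
      · ring
      · rintro ⟨-, h3⟩
        have h4 := s.o0 (c + 1)
        rw [← h3, f1] at h4
        exact hw _ h4
  -- the contributions of the edges with index `c` and `c + 2`
  refine ⟨fun c' v hv => ?_, fun k => ?_⟩
  · have hδ := s.S4_delta c g c' v hv
    have key1 : ((if s.inn (s.t c g) ∧ g = s.gL (c + 1) (s.t c g) then
          B c (s.gR (c + 1) (s.t c g)) (s.gL c' v) else 0)
        - (if s.inn (s.t c g) ∧ g = s.gL (c + 1) (s.t c g) then
          B c (s.gR (c + 1) (s.t c g)) (s.gR c' v) else 0))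
        + ((if c' = c + 1 ∧ v = s.t c g ∧ g = s.gL (c + 1) v then 1 else 0)
        - (if c' = c ∧ v = s.t (c + 1) g ∧ g = s.gR c v then 1 else 0)) =
        s.PiI c (s.t c g) c' v - s.PiI c (s.t (c + 1) g) c' v := by
      rcases s.edge g c with h | ⟨hw, hg⟩ | ⟨hx, hg⟩
      · have h0 : s.t c g = s.a c := by rw [h]; exact s.o0 c
        have h1 : s.t (c + 1) g = s.a (c + 1) := by rw [h]; exact s.o1 c
        have z0 : ¬ (s.inn (s.t c g) ∧ g = s.gL (c + 1) (s.t c g)) := fun h' => h'.1 c h0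
        have z1 : ¬ (c' = c + 1 ∧ v = s.t c g ∧ g = s.gL (c + 1) v) :=
          fun h' => hv c (h'.2.1.trans h0)
        have z2 : ¬ (c' = c ∧ v = s.t (c + 1) g ∧ g = s.gR c v) :=
          fun h' => hv (c + 1) (h'.2.1.trans h1)
        rw [if_neg z0, if_neg z0, if_neg z1, if_neg z2, h0, h1, s.PiI_outer c c c' hv,
          s.PiI_outer c (c + 1) c' hv]
        ring
      · have z0 : s.inn (s.t c g) ∧ g = s.gL (c + 1) (s.t c g) := ⟨hw, hg⟩
        have z1 : (c' = c + 1 ∧ v = s.t c g ∧ g = s.gL (c + 1) v) ↔ (c' = c + 1 ∧ v = s.t c g) :=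
          ⟨fun h => ⟨h.1, h.2.1⟩, fun h => ⟨h.1, h.2, by rw [h.2]; exact hg⟩⟩
        have z2 : ¬ (c' = c ∧ v = s.t (c + 1) g ∧ g = s.gR c v) := by
          rintro ⟨-, rfl, h3⟩
          exact s.edge_excl g c hw hg hv h3
        have h2 := (hT1 hw hg).1 c' v hv
        rw [if_pos z0, if_pos z0, if_neg z2]
        simp only [z1]
        linarith
      · have hwx : s.t c g = s.out c (s.t (c + 1) g) := by
          have h3 := s.tR0 c _ hx
          rwa [← hg] at h3
        have z0 : ¬ (s.inn (s.t c g) ∧ g = s.gL (c + 1) (s.t c g)) :=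
          fun h' => s.edge_excl g c h'.1 h'.2 hx hg
        have z1 : ¬ (c' = c + 1 ∧ v = s.t c g ∧ g = s.gL (c + 1) v) := by
          rintro ⟨-, rfl, h3⟩
          exact s.edge_excl g c hv h3 hx hg
        have z2 : (c' = c ∧ v = s.t (c + 1) g ∧ g = s.gR c v) ↔ (c' = c ∧ v = s.t (c + 1) g) :=
          ⟨fun h => ⟨h.1, h.2.1⟩, fun h => ⟨h.1, h.2, by rw [h.2]; exact hg⟩⟩
        rw [if_neg z0, if_neg z0, if_neg z1, s.PiI_step hx c' hv, ← hwx]
        simp only [z2]
        ring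
    have key2 : ((if s.inn (s.t c g) ∧ g = s.gR (c + 2) (s.t c g) then
          B c (s.gL (c + 2) (s.t c g)) (s.gL c' v) else 0)
        - (if s.inn (s.t c g) ∧ g = s.gR (c + 2) (s.t c g) then
          B c (s.gL (c + 2) (s.t c g)) (s.gR c' v) else 0))
        + ((if c' = c ∧ v = s.t (c + 2) g ∧ g = s.gL c v then 1 else 0)
        - (if c' = c + 2 ∧ v = s.t c g ∧ g = s.gR (c + 2) v then 1 else 0)) =
        s.PiI c (s.t (c + 2) g) c' v - s.PiI c (s.t c g) c' v := by
      rcases s.S4_edge2 c g with h | ⟨hx, hg⟩ | ⟨hw, hg⟩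
      · have h0 : s.t c g = s.a c := by
          rw [h]
          have h3 := s.o1 (c + 2)
          rwa [e21] at h3
        have h1 : s.t (c + 2) g = s.a (c + 2) := by rw [h]; exact s.o0 (c + 2)
        have z0 : ¬ (s.inn (s.t c g) ∧ g = s.gR (c + 2) (s.t c g)) := fun h' => h'.1 c h0
        have z1 : ¬ (c' = c ∧ v = s.t (c + 2) g ∧ g = s.gL c v) :=
          fun h' => hv (c + 2) (h'.2.1.trans h1)
        have z2 : ¬ (c' = c + 2 ∧ v = s.t c g ∧ g = s.gR (c + 2) v) :=
          fun h' => hv c (h'.2.1.trans h0)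
        rw [if_neg z0, if_neg z0, if_neg z1, if_neg z2, h0, h1, s.PiI_outer c c c' hv,
          s.PiI_outer c (c + 2) c' hv]
        ring
      · have hwx : s.t c g = s.out c (s.t (c + 2) g) := by
          have h3 := s.tL0 c _ hx
          rwa [← hg] at h3
        have z0 : ¬ (s.inn (s.t c g) ∧ g = s.gR (c + 2) (s.t c g)) :=
          fun h' => s.S4_excl2 c g hx hg h'.1 h'.2
        have z1 : (c' = c ∧ v = s.t (c + 2) g ∧ g = s.gL c v) ↔ (c' = c ∧ v = s.t (c + 2) g) :=
          ⟨fun h => ⟨h.1, h.2.1⟩, fun h => ⟨h.1, h.2, by rw [h.2]; exact hg⟩⟩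
        have z2 : ¬ (c' = c + 2 ∧ v = s.t c g ∧ g = s.gR (c + 2) v) := by
          rintro ⟨-, rfl, h3⟩
          exact s.S4_excl2 c g hx hg hv h3
        rw [if_neg z0, if_neg z0, if_neg z2, s.PiI_step hx c' hv, ← hwx]
        simp only [z1]
        ring
      · have z0 : s.inn (s.t c g) ∧ g = s.gR (c + 2) (s.t c g) := ⟨hw, hg⟩
        have z1 : ¬ (c' = c ∧ v = s.t (c + 2) g ∧ g = s.gL c v) := by
          rintro ⟨-, rfl, h3⟩
          exact s.S4_excl2 c g hv h3 hw hg
        have z2 : (c' = c + 2 ∧ v = s.t c g ∧ g = s.gR (c + 2) v) ↔ (c' = c + 2 ∧ v = s.t c g) :=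
          ⟨fun h => ⟨h.1, h.2.1⟩, fun h => ⟨h.1, h.2, by rw [h.2]; exact hg⟩⟩
        have h2 := (hT2 hw hg).1 c' v hv
        rw [if_pos z0, if_pos z0, if_neg z1]
        simp only [z2]
        linarith
    rw [hB c g (s.gL c' v), hB c g (s.gR c' v)]
    linarith
  · have hδ : (if s.o k = g then 1 else 0 : ℤ) = (if k = c + 1 ∧ g = s.o (c + 1) then 1 else 0)
        + (if k = c ∧ g = s.o c then 1 else 0) + (if k = c + 2 ∧ g = s.o (c + 2) then 1 else 0) := by
      have hc : k = c ∨ k = c + 1 ∨ k = c + 2 := S4_cases c k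
      rcases hc with rfl | rfl | rfl
      · simp only [n1, n2, false_and, if_false, true_and, eq_comm (a := s.o k)]
        ring
      · simp only [n1.symm, n3, false_and, if_false, true_and, eq_comm (a := g)]
        ring
      · simp only [n2.symm, n3.symm, false_and, if_false, true_and, eq_comm (a := g)]
        ring
    have key1 : (if s.inn (s.t c g) ∧ g = s.gL (c + 1) (s.t c g) then
          B c (s.gR (c + 1) (s.t c g)) (s.o k) else 0)
        + (if k = c ∧ g = s.o c then 1 else 0) =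
        s.PiO c (s.t c g) k - s.PiO c (s.t (c + 1) g) k := by
      rcases s.edge g c with h | ⟨hw, hg⟩ | ⟨hx, hg⟩
      · have h0 : s.t c g = s.a c := by rw [h]; exact s.o0 c
        have h1 : s.t (c + 1) g = s.a (c + 1) := by rw [h]; exact s.o1 c
        have z0 : ¬ (s.inn (s.t c g) ∧ g = s.gL (c + 1) (s.t c g)) := fun h' => h'.1 c h0
        rw [if_neg z0, h0, h1, s.PiO_a0, s.PiO_a1]
        by_cases hk : k = c
        · rw [if_pos ⟨hk, h⟩, if_pos hk]
          ring
        · rw [if_neg (fun h' => hk h'.1), if_neg hk]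
          ring
      · have z0 : s.inn (s.t c g) ∧ g = s.gL (c + 1) (s.t c g) := ⟨hw, hg⟩
        have z1 : ¬ (k = c ∧ g = s.o c) := by
          rintro ⟨-, h3⟩
          have h4 := s.o0 c
          rw [← h3] at h4
          exact hw _ h4
        rw [if_pos z0, if_neg z1, (hT1 hw hg).2 k, s.PiO_inn c k hw]
        ring
      · have hwx : s.t c g = s.out c (s.t (c + 1) g) := by
          have h3 := s.tR0 c _ hx
          rwa [← hg] at h3
        have z0 : ¬ (s.inn (s.t c g) ∧ g = s.gL (c + 1) (s.t c g)) :=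
          fun h' => s.edge_excl g c h'.1 h'.2 hx hg
        have z1 : ¬ (k = c ∧ g = s.o c) := by
          rintro ⟨-, h3⟩
          have h4 := s.o1 c
          rw [← h3] at h4
          exact hx _ h4
        rw [if_neg z0, if_neg z1, s.PiO_inn c k hx, hwx, s.PiO_out c k hx]
        ring
    have key2 : (if s.inn (s.t c g) ∧ g = s.gR (c + 2) (s.t c g) then
          B c (s.gL (c + 2) (s.t c g)) (s.o k) else 0)
        + (if k = c + 2 ∧ g = s.o (c + 2) then 1 else 0) =
        s.PiO c (s.t (c + 2) g) k - s.PiO c (s.t c g) k := by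
      rcases s.S4_edge2 c g with h | ⟨hx, hg⟩ | ⟨hw, hg⟩
      · have h0 : s.t c g = s.a c := by
          rw [h]
          have h3 := s.o1 (c + 2)
          rwa [e21] at h3
        have h1 : s.t (c + 2) g = s.a (c + 2) := by rw [h]; exact s.o0 (c + 2)
        have z0 : ¬ (s.inn (s.t c g) ∧ g = s.gR (c + 2) (s.t c g)) := fun h' => h'.1 c h0
        rw [if_neg z0, h0, h1, s.PiO_a0, s.PiO_a2]
        by_cases hk : k = c + 2
        · rw [if_pos ⟨hk, h⟩, if_pos hk]
          ring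
        · rw [if_neg (fun h' => hk h'.1), if_neg hk]
          ring
      · have hwx : s.t c g = s.out c (s.t (c + 2) g) := by
          have h3 := s.tL0 c _ hx
          rwa [← hg] at h3
        have z0 : ¬ (s.inn (s.t c g) ∧ g = s.gR (c + 2) (s.t c g)) :=
          fun h' => s.S4_excl2 c g hx hg h'.1 h'.2
        have z1 : ¬ (k = c + 2 ∧ g = s.o (c + 2)) := by
          rintro ⟨-, h3⟩
          have h4 := s.o0 (c + 2)
          rw [← h3] at h4
          exact hx _ h4
        rw [if_neg z0, if_neg z1, s.PiO_inn c k hx, hwx, s.PiO_out c k hx]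
        ring
      · have z0 : s.inn (s.t c g) ∧ g = s.gR (c + 2) (s.t c g) := ⟨hw, hg⟩
        have z1 : ¬ (k = c + 2 ∧ g = s.o (c + 2)) := by
          rintro ⟨-, h3⟩
          have h4 := s.o1 (c + 2)
          rw [← h3, e21] at h4
          exact hw _ h4
        rw [if_pos z0, if_neg z1, (hT2 hw hg).2 k, s.PiO_inn c k hw]
        ring
    rw [hB c g (s.o k)]
    linarith

end Pool.SX.Sch
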