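import Pool.Agent.Lib.MP_9dcace_sx.S2
import Pool.Agent.Lib.MP_9dcace_sx.S4

/-!
ROW S5 (the region functions, 150-200 lines).
Take B from `exists_B`.  For an inner vertex z put
 S1 k z = ∑ u ∈ VI with Pth (k+1) z u of B (k+2) (gL (k+1) u),
 S2 k z = ∑ u ∈ VI with Pth (k+2) z u of B (k+1) (gR (k+2) u).
Boundaries by `boundary_B` (S4) and telescoping along the path (induction on the potential r (k+1) z, resp. r (k+2) z;
`Pth_step`): for g = gL (k+1) u, c = k+2: t (c+1) g = t k g = u, t (c+2) g = t (k+1) g = out (k+1) u, the first `if` is the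
edge (k+1, u).  At the end of the path u = a (k+1): PiI = 0, PiO (k+2) (a (k+1)) = + outer (k+1).
Both have the boundary  PiI (k+1) z - PiI (k+2) z,  outer part PiO (k+1) z - PiO (k+2) z + [q = k+1] (here PiO of an inner z is 0).
UNIQUENESS: a function X : F → ℤ with zero boundary (inner and outer) is 0 (axiom `conn` after casting to ℝ, and X (o 0) = 0).
So S1 = S2 =: SS.  ∑ k SS k z = 1: the boundary of ∑_k SS k z is the outer triangle = boundary of the constant 1.
So each SS k z g ∈ {0,1} (all ≥ 0) and exactly one k has value 1.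
 * mono1: SS k (out (k+1) z) ≤ SS k z (S1 has one more term ≥ 0), mono2: SS k (out (k+2) z) ≤ SS k z (S2), when out .. z is inner.
 * support: SS k z g ≠ 0 → Le k (t k g) z  (S1: g in the support of B (k+2) (gL (k+1) u): the third property of B with c = k+2,
   c + 1 = k: Le k (t k g) (t k (gL (k+1) u)) and t k (gL (k+1) u) = t ((k+1)+2) .. = u; and Le k u z by `Pth_Le`).
 * self: SS k v g = 1 for t k g = v inner: it is ≥ 1 at g = gL (k+1) v (first term of S1 and B c g g ≠ 0); the faces with t k = v: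
   by the edge rule (index k) such a g is gL (k+1) v or gR k w with w = t (k+1) g inner, out k w = v; then gL k w has also t k = v and
   the boundary at (k, w) of SS k v is 0 (colour k does not occur in PiI (k+1), PiI (k+2)), so SS k v (gR k w) = SS k v (gL k w);
   go on with gL k w, whose t (k+1) has bigger potential r (k+1)  (t (k+2) (gL k w) = w < t (k+1) (gL k w)).
-/

set_option autoImplicit false

open Classical

namespace Pool.SX.Sch

variable {V F : Type} [Fintype V] [Fintype F] (s : Sch V F)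

/-- Induction on a potential. -/
private theorem s5_ind (f : V → ℝ) {P : V → Prop} (h : ∀ v, (∀ w, f v < f w → P w) → P v)
    (v : V) : P v := by
  have hwf : WellFounded (fun a b : V => f b < f a) := by
    have : IsTrans V (fun a b : V => f b < f a) := ⟨fun a b c h1 h2 => lt_trans h2 h1⟩
    have : Std.Irrefl (fun a b : V => f b < f a) := ⟨fun a => lt_irrefl _⟩
    exact Finite.wellFounded_of_trans_of_irrefl _
  exact hwf.induction v h

private theorem s5_a21 (k : Fin 3) : k + 2 + 1 = k := by revert k; decide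
private theorem s5_a12 (k : Fin 3) : k + 1 + 2 = k := by revert k; decide
private theorem s5_a22 (k : Fin 3) : k + 2 + 2 = k + 1 := by revert k; decide
private theorem s5_a11 (k : Fin 3) : k + 1 + 1 = k + 2 := by revert k; decide
private theorem s5_n01 (k : Fin 3) : k ≠ k + 1 := by revert k; decide
private theorem s5_n02 (k : Fin 3) : k ≠ k + 2 := by revert k; decide
private theorem s5_n12 (k : Fin 3) : k + 1 ≠ k + 2 := by revert k; decide

/-- a function with zero boundary vanishes -/
theorem eq_zero_of_boundary (X : F → ℤ) (h1 : ∀ c v, s.inn v → X (s.gL c v) = X (s.gR c v))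
    (h2 : ∀ k, X (s.o k) = 0) (g : F) : X g = 0 := by
  have h := s.conn (fun g => (X g : ℝ)) (fun c v hv => by
    simp only [h1 c v hv]) g (s.o 0)
  rw [← h2 0]
  exact_mod_cast h

/-- The sum over the inner vertices of a path. -/
private noncomputable def s5_sum (A : V → ℤ) (c : Fin 3) (z : V) : ℤ :=
  ∑ u, if s.inn u ∧ s.Pth c z u then A u else 0

private theorem s5_sum_inner (A : V → ℤ) (c : Fin 3) {z : V} (hz : s.inn z) :
    s5_sum s A c z = A z + s5_sum s A c (s.out c z) := by
  have hno : ¬ s.Pth c (s.out c z) z := by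
    intro h
    have h1 := (s.out_pot hz c).1
    rcases s.Le_pot (s.Pth_Le h).1 with h2 | h2
    · rw [h2] at h1
      exact lt_irrefl _ h1
    · exact lt_asymm h1 h2
  have h : ∀ u, (if s.inn u ∧ s.Pth c z u then A u else 0) =
      (if u = z then A u else 0) + (if s.inn u ∧ s.Pth c (s.out c z) u then A u else 0) := by
    intro u
    by_cases hu : u = z
    · subst hu
      rw [if_pos ⟨hz, (s.Pth_step hz u).2 (Or.inl rfl)⟩, if_pos rfl,
        if_neg (fun h => hno h.2), add_zero]
    · rw [if_neg hu, zero_add]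
      have h1 : (s.inn u ∧ s.Pth c z u) ↔ (s.inn u ∧ s.Pth c (s.out c z) u) := by
        rw [s.Pth_step hz u]
        simp only [hu, false_or]
      simp only [h1]
  unfold s5_sum
  rw [Finset.sum_congr rfl fun u _ => h u, Finset.sum_add_distrib, Finset.sum_ite_eq',
    if_pos (Finset.mem_univ z)]

private theorem s5_sum_outer (A : V → ℤ) (c j : Fin 3) : s5_sum s A c (s.a j) = 0 := by
  unfold s5_sum
  refine Finset.sum_eq_zero fun u _ => ?_
  rw [if_neg]
  rintro ⟨h1, h2⟩
  exact h1 j (s.Pth_outer h2)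

private theorem s5_out (z : V) (hz : s.inn z) (c : Fin 3) :
    s.inn (s.out c z) ∨ s.out c z = s.a c := by
  by_cases h : s.inn (s.out c z)
  · exact Or.inl h
  · right
    unfold inn at h
    push Not at h
    obtain ⟨k, hk⟩ := h
    rw [hk, s.out_outer hz c k hk]

private theorem s5_PiI_outer (c j c' : Fin 3) (v : V) : s.PiI c (s.a j) c' v = 0 := by
  unfold PiI
  rw [if_neg]
  rintro ⟨_, h1, h2⟩
  exact h1 j (s.Pth_outer h2)

private theorem s5_PiI_inner (c : Fin 3) {z : V} (hz : s.inn z) (c' : Fin 3) (v : V) :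
    s.PiI c z c' v = (if c' = c ∧ v = z then 1 else 0) + s.PiI c (s.out c z) c' v := by
  have hno : ¬ s.Pth c (s.out c z) z := by
    intro h
    have h1 := (s.out_pot hz c).1
    rcases s.Le_pot (s.Pth_Le h).1 with h2 | h2
    · rw [h2] at h1
      exact lt_irrefl _ h1
    · exact lt_asymm h1 h2
  unfold PiI
  by_cases hc : c' = c
  · by_cases hv : v = z
    · subst hv
      rw [if_pos ⟨hc, hz, (s.Pth_step hz v).2 (Or.inl rfl)⟩, if_pos ⟨hc, rfl⟩,
        if_neg (fun h => hno h.2.2), add_zero]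
    · rw [if_neg (show ¬ (c' = c ∧ v = z) from fun h => hv h.2), zero_add]
      have h1 : (c' = c ∧ s.inn v ∧ s.Pth c z v) ↔ (c' = c ∧ s.inn v ∧ s.Pth c (s.out c z) v) := by
        rw [s.Pth_step hz v]
        simp only [hv, false_or]
      simp only [h1]
  · rw [if_neg (fun h => hc h.1), if_neg (fun h => hc h.1), if_neg (fun h => hc h.1), add_zero]

private theorem s5_PiO_inner (c : Fin 3) {z : V} (hz : s.inn z) (q : Fin 3) : s.PiO c z q = 0 := by
  unfold PiO
  rw [if_neg (fun h => hz _ h.1), if_neg (fun h => hz _ h.1)]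

section

variable (B : Fin 3 → F → F → ℤ)
    (hB : ∀ c g h, B c g h = (if h = g then 1 else 0)
      + (if s.inn (s.t c g) ∧ g = s.gL (c + 1) (s.t c g) then B c (s.gR (c + 1) (s.t c g)) h else 0)
      + (if s.inn (s.t c g) ∧ g = s.gR (c + 2) (s.t c g) then B c (s.gL (c + 2) (s.t c g)) h else 0))

include hB

private theorem s5_bL (k : Fin 3) {u : V} (hu : s.inn u) :
    (∀ (c' : Fin 3) (v : V), s.inn v →
      B (k + 2) (s.gL (k + 1) u) (s.gL c' v) - B (k + 2) (s.gL (k + 1) u) (s.gR c' v) =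
      (if c' = k + 1 ∧ v = u then 1 else 0) + s.PiI (k + 2) (s.out (k + 1) u) c' v
        - s.PiI (k + 2) u c' v) ∧
    (∀ q : Fin 3, B (k + 2) (s.gL (k + 1) u) (s.o q) = s.PiO (k + 2) (s.out (k + 1) u) q) := by
  obtain ⟨h1, h2⟩ := s.boundary_B B hB (k + 2) (s.gL (k + 1) u)
  have e1 : s.t k (s.gL (k + 1) u) = u := by
    have := s.tL2 (k + 1) u hu
    rwa [s5_a12] at this
  have e2 : s.t (k + 1) (s.gL (k + 1) u) = s.out (k + 1) u := s.tL0 (k + 1) u hu
  simp only [s5_a21, s5_a22, e1, e2] at h1 h2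
  constructor
  · intro c' v hv
    rw [h1 c' v hv]
    have h3 : ¬ (c' = k ∧ v = s.out (k + 1) u ∧ s.gL (k + 1) u = s.gR k v) := by
      rintro ⟨_, h4, h5⟩
      refine s.edge_excl (s.gL (k + 1) u) k ?_ ?_ ?_ ?_
      · rw [e1]; exact hu
      · rw [e1]
      · rw [e2, ← h4]; exact hv
      · rw [e2, ← h4]; exact h5
    have h6 : (c' = k + 1 ∧ v = u ∧ s.gL (k + 1) u = s.gL (k + 1) v) ↔ (c' = k + 1 ∧ v = u) := by
      constructor
      · rintro ⟨a, b, _⟩; exact ⟨a, b⟩
      · rintro ⟨a, b⟩; exact ⟨a, b, by rw [b]⟩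
    rw [if_neg h3]
    simp only [h6]
    ring
  · intro q
    rw [h2 q, s5_PiO_inner s _ hu]
    have h3 : ¬ (q = k ∧ s.gL (k + 1) u = s.o k) := by
      rintro ⟨_, h4⟩
      have h5 := s.o0 k
      rw [← h4, e1] at h5
      exact hu k h5
    rw [if_neg h3]
    ring

private theorem s5_bR (k : Fin 3) {u : V} (hu : s.inn u) :
    (∀ (c' : Fin 3) (v : V), s.inn v →
      B (k + 1) (s.gR (k + 2) u) (s.gL c' v) - B (k + 1) (s.gR (k + 2) u) (s.gR c' v) =
      -(if c' = k + 2 ∧ v = u then 1 else 0) + s.PiI (k + 1) u c' v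
        - s.PiI (k + 1) (s.out (k + 2) u) c' v) ∧
    (∀ q : Fin 3, B (k + 1) (s.gR (k + 2) u) (s.o q) = - s.PiO (k + 1) (s.out (k + 2) u) q) := by
  obtain ⟨h1, h2⟩ := s.boundary_B B hB (k + 1) (s.gR (k + 2) u)
  have e1 : s.t k (s.gR (k + 2) u) = u := by
    have := s.tR1 (k + 2) u hu
    rwa [s5_a21] at this
  have e2 : s.t (k + 2) (s.gR (k + 2) u) = s.out (k + 2) u := s.tR0 (k + 2) u hu
  simp only [s5_a11, s5_a12, e1, e2] at h1 h2
  constructor
  · intro c' v hv
    rw [h1 c' v hv]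
    have h3 : ¬ (c' = k ∧ v = s.out (k + 2) u ∧ s.gR (k + 2) u = s.gL k v) := by
      rintro ⟨_, h4, h5⟩
      refine s.edge_excl (s.gR (k + 2) u) (k + 2) ?_ ?_ ?_ ?_
      · rw [e2, ← h4]; exact hv
      · rw [e2, ← h4, s5_a21]; exact h5
      · rw [s5_a21, e1]; exact hu
      · rw [s5_a21, e1]
    have h6 : (c' = k + 2 ∧ v = u ∧ s.gR (k + 2) u = s.gR (k + 2) v) ↔ (c' = k + 2 ∧ v = u) := by
      constructor
      · rintro ⟨a, b, _⟩; exact ⟨a, b⟩
      · rintro ⟨a, b⟩; exact ⟨a, b, by rw [b]⟩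
    rw [if_neg h3]
    simp only [h6]
    ring
  · intro q
    rw [h2 q, s5_PiO_inner s _ hu]
    have h3 : ¬ (q = k + 2 ∧ s.gR (k + 2) u = s.o (k + 2)) := by
      rintro ⟨_, h4⟩
      have h5 := s.o1 (k + 2)
      rw [s5_a21, ← h4, e1] at h5
      exact hu k h5
    rw [if_neg h3]
    ring

private theorem s5_S1I (k : Fin 3) (c' : Fin 3) {v : V} (hv : s.inn v) (z : V) :
    s5_sum s (fun u => B (k + 2) (s.gL (k + 1) u) (s.gL c' v)) (k + 1) z -
      s5_sum s (fun u => B (k + 2) (s.gL (k + 1) u) (s.gR c' v)) (k + 1) z =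
      s.PiI (k + 1) z c' v - s.PiI (k + 2) z c' v := by
  induction z using s5_ind (s.r (k + 1)) with | h z ih => ?_
  by_cases hz : s.inn z
  · have h1 := ih (s.out (k + 1) z) (s.out_pot hz (k + 1)).1
    have h2 := (s5_bL s B hB k hz).1 c' v hv
    rw [s5_sum_inner s _ _ hz, s5_sum_inner s _ _ hz, s5_PiI_inner s (k + 1) hz]
    linarith
  · unfold inn at hz
    push Not at hz
    obtain ⟨j, rfl⟩ := hz
    rw [s5_sum_outer, s5_sum_outer, s5_PiI_outer, s5_PiI_outer]

private theorem s5_S2I (k : Fin 3) (c' : Fin 3) {v : V} (hv : s.inn v) (z : V) :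
    s5_sum s (fun u => B (k + 1) (s.gR (k + 2) u) (s.gL c' v)) (k + 2) z -
      s5_sum s (fun u => B (k + 1) (s.gR (k + 2) u) (s.gR c' v)) (k + 2) z =
      s.PiI (k + 1) z c' v - s.PiI (k + 2) z c' v := by
  induction z using s5_ind (s.r (k + 2)) with | h z ih => ?_
  by_cases hz : s.inn z
  · have h1 := ih (s.out (k + 2) z) (s.out_pot hz (k + 2)).1
    have h2 := (s5_bR s B hB k hz).1 c' v hv
    rw [s5_sum_inner s _ _ hz, s5_sum_inner s _ _ hz, s5_PiI_inner s (k + 2) hz]
    linarith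
  · unfold inn at hz
    push Not at hz
    obtain ⟨j, rfl⟩ := hz
    rw [s5_sum_outer, s5_sum_outer, s5_PiI_outer, s5_PiI_outer]

private theorem s5_S1O (k q : Fin 3) (z : V) (hz : s.inn z ∨ z = s.a (k + 1)) :
    s5_sum s (fun u => B (k + 2) (s.gL (k + 1) u) (s.o q)) (k + 1) z =
      (if q = k + 1 then 1 else 0) - s.PiO (k + 2) z q := by
  induction z using s5_ind (s.r (k + 1)) with | h z ih => ?_
  rcases hz with hz | rfl
  · have h1 := ih (s.out (k + 1) z) (s.out_pot hz (k + 1)).1 (s5_out s z hz (k + 1))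
    have h2 := (s5_bL s B hB k hz).2 q
    rw [s5_sum_inner s _ _ hz, h1, h2, s5_PiO_inner s _ hz]
    ring
  · rw [s5_sum_outer]
    unfold PiO
    have h0 : ¬ (s.a (k + 1) = s.a (k + 2 + 1) ∧ q = k + 2) := by
      rintro ⟨h1, _⟩
      rw [s5_a21] at h1
      exact s5_n01 k (s.a_inj h1).symm
    rw [if_neg h0, s5_a22]
    by_cases hq : q = k + 1
    · rw [if_pos hq, if_pos ⟨rfl, hq⟩]; ring
    · rw [if_neg hq, if_neg (fun h => hq h.2)]; ring

private theorem s5_S2O (k q : Fin 3) (z : V) (hz : s.inn z ∨ z = s.a (k + 2)) :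
    s5_sum s (fun u => B (k + 1) (s.gR (k + 2) u) (s.o q)) (k + 2) z =
      (if q = k + 1 then 1 else 0) + s.PiO (k + 1) z q := by
  induction z using s5_ind (s.r (k + 2)) with | h z ih => ?_
  rcases hz with hz | rfl
  · have h1 := ih (s.out (k + 2) z) (s.out_pot hz (k + 2)).1 (s5_out s z hz (k + 2))
    have h2 := (s5_bR s B hB k hz).2 q
    rw [s5_sum_inner s _ _ hz, h1, h2, s5_PiO_inner s _ hz]
    ring
  · rw [s5_sum_outer]
    unfold PiO
    rw [s5_a11, s5_a12]
    by_cases hq : q = k + 1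
    · rw [if_pos hq, if_pos ⟨rfl, hq⟩]; ring
    · rw [if_neg hq, if_neg (fun h => hq h.2), if_neg, add_zero]
      rintro ⟨h1, _⟩
      exact s5_n02 k (s.a_inj h1).symm

/-- The two definitions agree. -/
private theorem s5_eq (k : Fin 3) {z : V} (hz : s.inn z) (h : F) :
    s5_sum s (fun u => B (k + 2) (s.gL (k + 1) u) h) (k + 1) z =
      s5_sum s (fun u => B (k + 1) (s.gR (k + 2) u) h) (k + 2) z := by
  have h1 := s.eq_zero_of_boundary
    (fun h => s5_sum s (fun u => B (k + 2) (s.gL (k + 1) u) h) (k + 1) z -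
      s5_sum s (fun u => B (k + 1) (s.gR (k + 2) u) h) (k + 2) z)
    (fun c v hv => by
      have e1 := s5_S1I s B hB k c hv z
      have e2 := s5_S2I s B hB k c hv z
      linarith)
    (fun q => by
      have e1 := s5_S1O s B hB k q z (Or.inl hz)
      have e2 := s5_S2O s B hB k q z (Or.inl hz)
      rw [s5_PiO_inner s _ hz] at e1 e2
      linarith) h
  linarith

private theorem s5_one {z : V} (hz : s.inn z) (h : F) :
    ∑ k : Fin 3, s5_sum s (fun u => B (k + 2) (s.gL (k + 1) u) h) (k + 1) z = 1 := by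
  have h1 := s.eq_zero_of_boundary
    (fun h => ∑ k : Fin 3, s5_sum s (fun u => B (k + 2) (s.gL (k + 1) u) h) (k + 1) z - 1)
    (fun c v hv => by
      have e1 := fun k => s5_S1I s B hB k c hv z
      have e2 : ∑ k : Fin 3, (s5_sum s (fun u => B (k + 2) (s.gL (k + 1) u) (s.gL c v)) (k + 1) z -
          s5_sum s (fun u => B (k + 2) (s.gL (k + 1) u) (s.gR c v)) (k + 1) z) = 0 := by
        rw [Finset.sum_congr rfl fun k _ => e1 k, Fin.sum_univ_three]
        have a0 : (0 : Fin 3) + 1 = 1 := rfl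
        have a1 : (1 : Fin 3) + 1 = 2 := rfl
        have a2 : (2 : Fin 3) + 1 = 0 := rfl
        have b0 : (0 : Fin 3) + 2 = 2 := rfl
        have b1 : (1 : Fin 3) + 2 = 0 := rfl
        have b2 : (2 : Fin 3) + 2 = 1 := rfl
        rw [a0, a1, a2, b0, b1, b2]
        ring
      rw [Finset.sum_sub_distrib] at e2
      linarith)
    (fun q => by
      have e1 := fun k => s5_S1O s B hB k q z (Or.inl hz)
      rw [Finset.sum_congr rfl fun k _ => e1 k]
      simp only [s5_PiO_inner s _ hz]
      fin_cases q <;> simp <;> decide) h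
  linarith

end

theorem exists_SS : ∃ SS : Fin 3 → V → F → ℤ,
    (∀ k z g, s.inn z → SS k z g = 0 ∨ SS k z g = 1) ∧
    (∀ z g, s.inn z → ∑ k, SS k z g = 1) ∧
    (∀ k z, s.inn z → ∀ c v, s.inn v → SS k z (s.gL c v) - SS k z (s.gR c v) =
      s.PiI (k + 1) z c v - s.PiI (k + 2) z c v) ∧
    (∀ k z g, s.inn z → s.inn (s.out (k + 1) z) → SS k (s.out (k + 1) z) g ≤ SS k z g) ∧
    (∀ k z g, s.inn z → s.inn (s.out (k + 2) z) → SS k (s.out (k + 2) z) g ≤ SS k z g) ∧
    (∀ k z g, s.inn z → SS k z g ≠ 0 → s.Le k (s.t k g) z) ∧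
    (∀ k g, s.inn (s.t k g) → SS k (s.t k g) g = 1) := by
  obtain ⟨B, B0, Bs, hB, Bsup⟩ := s.exists_B
  let SS : Fin 3 → V → F → ℤ := fun k z h =>
    s5_sum s (fun u => B (k + 2) (s.gL (k + 1) u) h) (k + 1) z
  have hnn : ∀ k z g, 0 ≤ SS k z g := by
    intro k z g
    change 0 ≤ s5_sum s _ _ _
    unfold s5_sum
    refine Finset.sum_nonneg fun u _ => ?_
    split_ifs
    · exact B0 _ _ _
    · exact le_rfl
  have hone : ∀ z g, s.inn z → ∑ k, SS k z g = 1 := fun z g hz => s5_one s B hB hz g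
  have h01 : ∀ k z g, s.inn z → SS k z g = 0 ∨ SS k z g = 1 := by
    intro k z g hz
    have h1 := hone z g hz
    have h2 : SS k z g ≤ ∑ k, SS k z g :=
      Finset.single_le_sum (f := fun k => SS k z g) (fun k _ => hnn k z g) (Finset.mem_univ k)
    have h3 := hnn k z g
    rw [h1] at h2
    omega
  have hbd : ∀ k z, s.inn z → ∀ c v, s.inn v → SS k z (s.gL c v) - SS k z (s.gR c v) =
      s.PiI (k + 1) z c v - s.PiI (k + 2) z c v := fun k z _ c v hv => s5_S1I s B hB k c hv z
  refine ⟨SS, h01, hone, hbd, ?_, ?_, ?_, ?_⟩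
  · intro k z g hz _
    change s5_sum s _ _ _ ≤ s5_sum s _ _ _
    rw [s5_sum_inner s _ _ hz]
    have := B0 (k + 2) (s.gL (k + 1) z) g
    linarith
  · intro k z g hz hz'
    change s5_sum s _ _ _ ≤ s5_sum s _ _ _
    rw [s5_eq s B hB k hz g, s5_eq s B hB k hz' g, s5_sum_inner s _ (k + 2) hz]
    have := B0 (k + 1) (s.gR (k + 2) z) g
    linarith
  · intro k z g _ hne
    change s5_sum s _ _ _ ≠ 0 at hne
    unfold s5_sum at hne
    obtain ⟨u, _, hu⟩ := Finset.exists_ne_zero_of_sum_ne_zero hne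
    by_cases hc : s.inn u ∧ s.Pth (k + 1) z u
    · rw [if_pos hc] at hu
      have h1 := (Bsup (k + 2) (s.gL (k + 1) u) g hu).1
      rw [s5_a21] at h1
      have e1 : s.t k (s.gL (k + 1) u) = u := by
        have := s.tL2 (k + 1) u hc.1
        rwa [s5_a12] at this
      rw [e1] at h1
      exact s.Le_trans h1 ((s.Pth_Le hc.2).2 k (s5_n01 k))
    · rw [if_neg hc] at hu
      exact absurd rfl hu
  · intro k
    have main : ∀ (v : V), s.inn v → ∀ (w : V) (g : F), s.t k g = v → s.t (k + 1) g = w →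
        SS k v g = 1 := by
      intro v hv w
      induction w using s5_ind (s.r (k + 1)) with | h w ih => ?_
      intro g hg hw
      rcases s.edge g k with h | ⟨_, h⟩ | ⟨h1, h⟩
      · have h1 := s.o0 k
        rw [← h, hg] at h1
        exact absurd h1 (hv k)
      · rw [hg] at h
        have h1 : 0 < SS k v g := by
          change 0 < s5_sum s _ _ _
          rw [s5_sum_inner s _ _ hv]
          have h2 : 0 ≤ s5_sum s (fun u => B (k + 2) (s.gL (k + 1) u) g) (k + 1)
            (s.out (k + 1) v) := hnn k (s.out (k + 1) v) g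
          have h3 := B0 (k + 2) (s.gL (k + 1) v) g
          have h4 := Bs (k + 2) g
          rw [← h] at h3 ⊢
          have h5 : 0 < B (k + 2) g g := lt_of_le_of_ne h3 (Ne.symm h4)
          linarith
        rcases h01 k v g hv with h2 | h2
        · rw [h2] at h1
          exact absurd h1 (lt_irrefl _)
        · exact h2
      · rw [hw] at h h1
        have e1 : s.t k (s.gL k w) = v := by
          rw [s.tL0 k w h1, ← s.tR0 k w h1, ← h, hg]
        have h2 := hbd k v hv k w h1
        have h3 : s.PiI (k + 1) v k w = 0 := by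
          unfold PiI
          rw [if_neg (fun h => s5_n01 k h.1)]
        have h4 : s.PiI (k + 2) v k w = 0 := by
          unfold PiI
          rw [if_neg (fun h => s5_n02 k h.1)]
        rw [h3, h4, ← h] at h2
        have h5 := s.pot (s.gL k w) (k + 1) (k + 2) (s5_n12 k).symm
        rw [s.tL2 k w h1] at h5
        have h6 := ih (s.t (k + 1) (s.gL k w)) h5 (s.gL k w) e1 rfl
        linarith
    intro g hg
    exact main _ hg _ g rfl rfl

end Pool.SX.Sch
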