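import Pool.Agent.Lib.MP_9dcace_sx.S2

/-!
ROW S7 (divergence of a boundary, exactness; 120-180 lines).
* `div_grad`: apply `sum_flags` to φ g k = X g * ([t (k+1) g = u] - [t k g = u]); the sum over k is 0 for each g; the flag sums are
  ∑ (X (gL c v) - X (gR c v)) ([out c v = u] - [v = u]) + 0 (outer vertices are not u).
* `exact`: linear algebra.  Let E = Fin 3 × {v // v ∈ VI}.  ∂ : (F → ℝ) → (E → ℝ), kernel = constants (axiom `conn`), dimension 1, so
  rank ∂ = |F| - 1 = 2|V_I| (`card_F`).  div : (E → ℝ) → ({v // v ∈ VI} → ℝ) is surjective: its range contains for every inner v the vector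
  δ_v - δ_(out 2 v) (second term absent if out 2 v is outer), image of the unit vector (2, v); descending induction along the path of
  colour 2 (potential r 2) gives δ_v.  So dim ker div = 3|V_I| - |V_I|; range ∂ ≤ ker div by `div_grad`; equal dimensions
  (`LinearMap.finrank_range_add_finrank_ker`, `Submodule.eq_of_le_of_finrank_le`).
-/

set_option autoImplicit false

open Classical

namespace Pool.SX.Sch

variable {V F : Type} [Fintype V] [Fintype F] (s : Sch V F)

theorem div_grad (X : F → ℝ) (u : V) (hu : s.inn u) :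
    ∑ c, (X (s.gL c u) - X (s.gR c u)) =
      ∑ c, ∑ v ∈ s.VI, if s.out c v = u then X (s.gL c v) - X (s.gR c v) else 0 := by
  have hflag := s.sum_flags (M := ℝ) (fun g k => X g * ((if s.t (k + 1) g = u then (1 : ℝ) else 0)
    - (if s.t k g = u then (1 : ℝ) else 0)))
  have hL : ∑ g, ∑ k, (X g * ((if s.t (k + 1) g = u then (1 : ℝ) else 0)
    - (if s.t k g = u then (1 : ℝ) else 0))) = 0 := by
    apply Finset.sum_eq_zero
    intro g _
    rw [← Finset.mul_sum, Fin.sum_univ_three]
    have e1 : (0 : Fin 3) + 1 = 1 := rfl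
    have e2 : (1 : Fin 3) + 1 = 2 := rfl
    have e3 : (2 : Fin 3) + 1 = 0 := rfl
    rw [e1, e2, e3]
    ring
  have hO : ∑ k, (X (s.o k) * ((if s.t (k + 1) (s.o k) = u then (1 : ℝ) else 0)
    - (if s.t k (s.o k) = u then (1 : ℝ) else 0))) = 0 := by
    apply Finset.sum_eq_zero
    intro k _
    rw [s.o1, s.o0, if_neg (fun h => hu _ h.symm), if_neg (fun h => hu _ h.symm)]
    ring
  have hI : ∑ c, ∑ v ∈ s.VI, ((X (s.gL c v) * ((if s.t (c + 2 + 1) (s.gL c v) = u then (1 : ℝ) else 0)
      - (if s.t (c + 2) (s.gL c v) = u then (1 : ℝ) else 0)))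
      + (X (s.gR c v) * ((if s.t (c + 1) (s.gR c v) = u then (1 : ℝ) else 0)
      - (if s.t c (s.gR c v) = u then (1 : ℝ) else 0))))
      = (∑ c, ∑ v ∈ s.VI, if s.out c v = u then X (s.gL c v) - X (s.gR c v) else 0)
        - ∑ c, (X (s.gL c u) - X (s.gR c u)) := by
    rw [← Finset.sum_sub_distrib]
    apply Finset.sum_congr rfl
    intro c _
    have hc : c + 2 + 1 = c := by revert c; decide
    have h1 : ∑ v ∈ s.VI, (if v = u then (X (s.gL c v) - X (s.gR c v)) else 0)
        = X (s.gL c u) - X (s.gR c u) := by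
      rw [Finset.sum_ite_eq', if_pos]
      exact Finset.mem_filter.mpr ⟨Finset.mem_univ _, hu⟩
    rw [← h1, ← Finset.sum_sub_distrib]
    apply Finset.sum_congr rfl
    intro v hv
    have hvi : s.inn v := (Finset.mem_filter.mp hv).2
    rw [hc, s.tL0 c v hvi, s.tL2 c v hvi, s.tR1 c v hvi, s.tR0 c v hvi]
    by_cases ha : s.out c v = u <;> by_cases hb : v = u
    · rw [if_pos ha, if_pos hb, if_pos ha, if_pos hb]
      ring
    · rw [if_pos ha, if_neg hb, if_pos ha, if_neg hb]
      ring
    · rw [if_neg ha, if_pos hb, if_neg ha, if_pos hb]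
      ring
    · rw [if_neg ha, if_neg hb, if_neg ha, if_neg hb]
      ring
  beta_reduce at hflag
  rw [hL, hO, hI] at hflag
  linarith

/-- the boundary map -/
noncomputable def s7d : (F → ℝ) →ₗ[ℝ] (Fin 3 × {v // v ∈ s.VI} → ℝ) where
  toFun X := fun p => X (s.gL p.1 p.2.1) - X (s.gR p.1 p.2.1)
  map_add' X Y := by
    funext p
    simp only [Pi.add_apply]
    ring
  map_smul' a X := by
    funext p
    simp only [Pi.smul_apply, smul_eq_mul, RingHom.id_apply]
    ring

/-- the divergence map -/
noncomputable def s7v : (Fin 3 × {v // v ∈ s.VI} → ℝ) →ₗ[ℝ] ({v // v ∈ s.VI} → ℝ) where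
  toFun b := fun u => ∑ c, b (c, u) - ∑ c, ∑ v, if s.out c v.1 = u.1 then b (c, v) else 0
  map_add' X Y := by
    funext p
    simp only [Pi.add_apply]
    have e : ∀ c : Fin 3, (∑ v, if s.out c v.1 = p.1 then X (c, v) + Y (c, v) else 0)
        = (∑ v, if s.out c v.1 = p.1 then X (c, v) else 0)
          + (∑ v, if s.out c v.1 = p.1 then Y (c, v) else 0) := by
      intro c
      rw [← Finset.sum_add_distrib]
      apply Finset.sum_congr rfl
      intro v _
      split_ifs <;> ring
    simp only [e, Finset.sum_add_distrib]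
    ring
  map_smul' a X := by
    funext p
    simp only [Pi.smul_apply, smul_eq_mul, RingHom.id_apply]
    have e : ∀ c : Fin 3, (∑ v, if s.out c v.1 = p.1 then a * X (c, v) else 0)
        = a * (∑ v, if s.out c v.1 = p.1 then X (c, v) else 0) := by
      intro c
      rw [Finset.mul_sum]
      apply Finset.sum_congr rfl
      intro v _
      split_ifs <;> ring
    simp only [e, ← Finset.mul_sum]
    ring

/-- the divergence restricted to colour 0 -/
noncomputable def s7a : ({v // v ∈ s.VI} → ℝ) →ₗ[ℝ] ({v // v ∈ s.VI} → ℝ) where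
  toFun b := fun u => b u - ∑ v, if s.out 0 v.1 = u.1 then b v else 0
  map_add' X Y := by
    funext p
    simp only [Pi.add_apply]
    have e : (∑ v, if s.out 0 v.1 = p.1 then X v + Y v else 0)
        = (∑ v, if s.out 0 v.1 = p.1 then X v else 0)
          + (∑ v, if s.out 0 v.1 = p.1 then Y v else 0) := by
      rw [← Finset.sum_add_distrib]
      apply Finset.sum_congr rfl
      intro v _
      split_ifs <;> ring
    rw [e]
    ring
  map_smul' a X := by
    funext p
    simp only [Pi.smul_apply, smul_eq_mul, RingHom.id_apply]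
    have e : (∑ v, if s.out 0 v.1 = p.1 then a * X v else 0)
        = a * (∑ v, if s.out 0 v.1 = p.1 then X v else 0) := by
      rw [Finset.mul_sum]
      apply Finset.sum_congr rfl
      intro v _
      split_ifs <;> ring
    rw [e]
    ring

theorem s7a_inj : Function.Injective s.s7a := by
  rw [injective_iff_map_eq_zero]
  intro b hb
  by_contra hne
  have hex : ∃ u, b u ≠ 0 := by
    by_contra hc
    push Not at hc
    exact hne (funext hc)
  obtain ⟨u, hu, hmin⟩ := Finset.exists_min_image (Finset.univ.filter (fun u => b u ≠ 0))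
    (fun u => s.r 0 u.1) (by
      obtain ⟨u, hu⟩ := hex
      exact ⟨u, Finset.mem_filter.mpr ⟨Finset.mem_univ _, hu⟩⟩)
  have h1 : b u - ∑ v, (if s.out 0 v.1 = u.1 then b v else 0) = 0 := congrFun hb u
  have h2 : ∑ v, (if s.out 0 v.1 = u.1 then b v else 0) = 0 := by
    apply Finset.sum_eq_zero
    intro v _
    split_ifs with h
    · by_contra hbv
      have h3 := hmin v (Finset.mem_filter.mpr ⟨Finset.mem_univ _, hbv⟩)
      have h4 := (s.out_pot (Finset.mem_filter.mp v.2).2 0).1
      rw [h] at h4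
      exact absurd h3 (not_le.mpr h4)
    · rfl
  rw [h2, sub_zero] at h1
  exact (Finset.mem_filter.mp hu).2 h1

theorem s7v_surj : Function.Surjective s.s7v := by
  have hs : Function.Surjective s.s7a :=
    LinearMap.surjective_of_injective s.s7a_inj
  intro f
  obtain ⟨b, hb⟩ := hs f
  refine ⟨fun p => if p.1 = 0 then b p.2 else 0, ?_⟩
  rw [← hb]
  funext u
  change (∑ c : Fin 3, (if c = 0 then b u else 0))
    - ∑ c : Fin 3, ∑ v, (if s.out c v.1 = u.1 then (if c = 0 then b v else 0) else 0)
    = b u - ∑ v, (if s.out 0 v.1 = u.1 then b v else 0)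
  rw [Fin.sum_univ_three, Fin.sum_univ_three]
  have e1 : (1 : Fin 3) ≠ 0 := by decide
  have e2 : (2 : Fin 3) ≠ 0 := by decide
  simp only [e1, e2, if_true, if_false, ite_self, Finset.sum_const_zero, add_zero]

theorem s7_range : LinearMap.range s.s7d = LinearMap.ker s.s7v := by
  have hle : LinearMap.range s.s7d ≤ LinearMap.ker s.s7v := by
    rintro _ ⟨X, rfl⟩
    rw [LinearMap.mem_ker]
    funext u
    have hu : s.inn u.1 := (Finset.mem_filter.mp u.2).2
    have h := s.div_grad X u.1 hu
    change (∑ c, (X (s.gL c u.1) - X (s.gR c u.1)))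
      - ∑ c, ∑ v : {v // v ∈ s.VI}, (if s.out c v.1 = u.1 then X (s.gL c v.1) - X (s.gR c v.1) else 0) = 0
    rw [h, sub_eq_zero]
    apply Finset.sum_congr rfl
    intro c _
    exact (Finset.sum_coe_sort s.VI
      (fun v => if s.out c v = u.1 then X (s.gL c v) - X (s.gR c v) else 0)).symm
  apply Submodule.eq_of_le_of_finrank_le hle
  have r1 := LinearMap.finrank_range_add_finrank_ker s.s7d
  have r2 := LinearMap.finrank_range_add_finrank_ker s.s7v
  rw [LinearMap.range_eq_top.mpr s.s7v_surj, finrank_top] at r2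
  simp only [Module.finrank_fintype_fun_eq_card, Fintype.card_prod, Fintype.card_fin,
    Fintype.card_coe] at r1 r2
  have r3 : Module.finrank ℝ (LinearMap.ker s.s7d) ≤ 1 := by
    have hk : LinearMap.ker s.s7d ≤ Submodule.span ℝ {(fun _ => 1 : F → ℝ)} := by
      intro X hX
      rw [LinearMap.mem_ker] at hX
      rw [Submodule.mem_span_singleton]
      refine ⟨X (s.o 0), ?_⟩
      funext g
      have hc := s.conn X (fun c v hv => by
        have h1 := congrFun hX (c, ⟨v, Finset.mem_filter.mpr ⟨Finset.mem_univ _, hv⟩⟩)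
        exact sub_eq_zero.mp h1) (s.o 0) g
      simp only [Pi.smul_apply, smul_eq_mul, mul_one]
      exact hc
    calc Module.finrank ℝ (LinearMap.ker s.s7d)
        ≤ Module.finrank ℝ (Submodule.span ℝ {(fun _ => 1 : F → ℝ)}) :=
          Submodule.finrank_mono hk
      _ ≤ 1 := by
          refine (finrank_span_le_card _).trans ?_
          simp
  have r4 := s.card_F
  omega

theorem exact (β : Fin 3 → V → ℝ)
    (hβ : ∀ u, s.inn u → ∑ c, β c u = ∑ c, ∑ v ∈ s.VI, if s.out c v = u then β c v else 0) :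
    ∃ X : F → ℝ, ∀ c v, s.inn v → X (s.gL c v) - X (s.gR c v) = β c v := by
  have hm : (fun p : Fin 3 × {v // v ∈ s.VI} => β p.1 p.2.1) ∈ LinearMap.ker s.s7v := by
    rw [LinearMap.mem_ker]
    funext u
    have hu : s.inn u.1 := (Finset.mem_filter.mp u.2).2
    change (∑ c, β c u.1) - ∑ c, ∑ v : {v // v ∈ s.VI}, (if s.out c v.1 = u.1 then β c v.1 else 0) = 0
    rw [hβ u.1 hu, sub_eq_zero]
    apply Finset.sum_congr rfl
    intro c _
    exact (Finset.sum_coe_sort s.VI (fun v => if s.out c v = u.1 then β c v else 0)).symm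
  rw [← s.s7_range] at hm
  obtain ⟨X, hX⟩ := hm
  refine ⟨X, fun c v hv => ?_⟩
  exact congrFun hX (c, ⟨v, Finset.mem_filter.mpr ⟨Finset.mem_univ _, hv⟩⟩)

end Pool.SX.Sch
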