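import Pool.Agent.Lib.MP_9dcace_sx.TDefs

/-!
ROW T1 (telescoping over the sides of the faces).
`sum_flags` with φ g k = f (t k g) (t (k+1) g).
-/

set_option autoImplicit false

open Classical

namespace Pool.SX

variable {V F : Type} [Fintype V] [Fintype F]

/-- telescoping of an antisymmetric function of directed edges -/
theorem Sch.tele (s : Sch V F) (f : V → V → ℝ) (h : ∀ u v, f u v = - f v u) :
    ∑ g, ∑ k, f (s.t k g) (s.t (k + 1) g) = ∑ k, f (s.a k) (s.a (k + 1)) := by
  rw [s.sum_flags (fun g k => f (s.t k g) (s.t (k + 1) g))]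
  have h1 : ∑ c, ∑ v ∈ s.VI, (f (s.t (c + 2) (s.gL c v)) (s.t (c + 2 + 1) (s.gL c v)) +
      f (s.t c (s.gR c v)) (s.t (c + 1) (s.gR c v))) = 0 := by
    refine Finset.sum_eq_zero fun c _ => Finset.sum_eq_zero fun v hv => ?_
    have hv' : ∀ k, v ≠ s.a k := by
      have := (Finset.mem_filter.mp hv).2
      exact this
    have e : c + 2 + 1 = c := by revert c; decide
    rw [e, s.tL2 c v hv', s.tL0 c v hv', s.tR0 c v hv', s.tR1 c v hv', h v (s.out c v)]
    ring
  rw [h1, zero_add]
  refine Finset.sum_congr rfl fun k _ => ?_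
  rw [s.o0, s.o1]

end Pool.SX
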