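import Pool.Agent.Lib.MP_9dcace_sx.T9

/-!
ROW T10 (slack and height bound, 120-170 lines).
`slack`: v not in g: for every face gv at v: lin gv (p v) - lin g (p v) >= lo * A.
 Suppose not; among the faces g without v and with lin g (p v) > h v - lo * A (h v := lin (q gv) (b gv) (p v), the same for all gv: `Sch.height`)
 take one with lin g (p v) maximal.  `not_closed`: k with ar (t k g) (t (k+1) g) (p v) < 0; g ≠ o k by `outer_left`.  `crossing`: g' with
 lin g' (p v) - lin g (p v) = w * |ar| > 0, w = wt c v' >= lo > 0.  If v is not in g': contradiction with the maximality.  If v is in g': g' contains t k g, t (k+1) g, v, three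
 different vertices, so |ar (t k g) (t (k+1) g) (p v)| = area of g' >= A (the three are the vertices t 0 g', t 1 g', t 2 g' in some order:
 positions are pairwise different because t j g' are different vertices by `pot`), so h v - lin g (p v) >= lo * A: contradiction.
`height_le`: if q g0 = 0, b g0 = 0 then 0 <= h v <= 2 * hi * card F.
 For every g: h v - lin g (p v) <= 2 * hi * #{g' | lin g' (p v) > lin g (p v)}: strong induction on that number; g at v: the left side is 0
 (note 0 <= hi since there is an inner vertex; if there is no inner vertex then every face is ... see below); otherwise cross as above: the gain is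
 w * |ar| <= hi * 2 (`ar_le`, `in_tri`) and the number drops.
 (If g does not contain v there is an inner edge of g, so hi >= lo > 0 follows from the crossing.)
 With g = g0: h v - 0 <= 2 hi card F, and h v >= 0 from slack (or equality if v in g0).
 For hi: if there is no inner vertex the statement needs 0 <= hi: it is an assumption.
-/

set_option autoImplicit false

open Classical

namespace Pool.SX

variable {V F : Type} [Fintype V] [Fintype F]

private theorem T10_three : ∀ a b c : Fin 3, a ≠ b → b ≠ c → a ≠ c →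
    (b = a + 1 ∧ c = a + 2) ∨ (b = a + 2 ∧ c = a + 1) := by
  decide

/-- the area of a triangle of three different vertices of a face -/
private theorem T10_area (s : Sch V F) {wt : Fin 3 → V → ℝ} {p : V → ℝ × ℝ} {lo hi A : ℝ}
    (hd : s.Drw wt p lo hi A) (g : F) {x y z : V} (hx : s.Inc x g) (hy : s.Inc y g)
    (hz : s.Inc z g) (hxy : x ≠ y) (hyz : y ≠ z) (hxz : x ≠ z) :
    A ≤ |ar (p x) (p y) (p z)| := by
  obtain ⟨a, rfl⟩ := hx
  obtain ⟨b, rfl⟩ := hy
  obtain ⟨c, rfl⟩ := hz
  have h1 : a ≠ b := fun h => hxy (by rw [h])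
  have h2 : b ≠ c := fun h => hyz (by rw [h])
  have h3 : a ≠ c := fun h => hxz (by rw [h])
  have h4 := hd.area g
  rcases T10_three a b c h1 h2 h3 with ⟨rfl, rfl⟩ | ⟨rfl, rfl⟩
  · rw [s.area_rot]
    exact h4.trans (le_abs_self _)
  · have h5 : ar (p (s.t a g)) (p (s.t (a + 2) g)) (p (s.t (a + 1) g)) =
        -ar (p (s.t a g)) (p (s.t (a + 1) g)) (p (s.t (a + 2) g)) := by
      rw [ar, ar]
      ring
    rw [h5, abs_neg, s.area_rot]
    exact h4.trans (le_abs_self _)

/-- crossing the side of a face away from a vertex which is not in the face -/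
private theorem T10_cross (s : Sch V F) {wt : Fin 3 → V → ℝ} {p : V → ℝ × ℝ} {lo hi A : ℝ}
    (hd : s.Drw wt p lo hi A) {q : F → ℝ × ℝ} {b : F → ℝ} (hc : s.Crs wt p q b) (v : V) (g : F)
    (hv : ¬ s.Inc v g) : ∃ (g' : F) (w a : ℝ), 0 < lo ∧ lo ≤ w ∧ w ≤ hi ∧ 0 < a ∧ a ≤ 2 ∧
      lin (q g') (b g') (p v) - lin (q g) (b g) (p v) = w * a ∧ (s.Inc v g' → A ≤ a) := by
  obtain ⟨k, hk⟩ := s.not_closed hd hc v g hv
  have hko : g ≠ s.o k := by
    intro h
    have h1 := s.outer_left hd v k
    rw [← s.o0 k, ← s.o1 k, ← h] at h1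
    linarith
  obtain ⟨g', c, u, hu, h1, h2, h3⟩ := s.crossing hc g k hko
  refine ⟨g', wt c u, -ar (p (s.t k g)) (p (s.t (k + 1) g)) (p v), hd.lo_pos, hd.wlo c u hu,
    hd.whi c u hu, by linarith, ?_, ?_, ?_⟩
  · have h4 := ar_le (p (s.t k g)) (p (s.t (k + 1) g)) (p v) (s.in_tri hd _) (s.in_tri hd _)
      (s.in_tri hd _)
    have h5 := (abs_le.1 h4).1
    linarith
  · rw [h3]
    ring
  · intro hv'
    have h6 : s.t k g ≠ s.t (k + 1) g := by
      apply s.t_ne
      intro h
      have : ∀ k : Fin 3, k ≠ k + 1 := by decide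
      exact this k h
    have h7 : s.t (k + 1) g ≠ v := fun h => hv ⟨k + 1, h⟩
    have h8 : s.t k g ≠ v := fun h => hv ⟨k, h⟩
    have h9 := T10_area s hd g' h1 h2 hv' h6 h7 h8
    rwa [abs_of_neg hk] at h9

theorem Sch.slack (s : Sch V F) {wt : Fin 3 → V → ℝ} {p : V → ℝ × ℝ} {lo hi A : ℝ}
    (hd : s.Drw wt p lo hi A) {q : F → ℝ × ℝ} {b : F → ℝ} (hc : s.Crs wt p q b) (v : V) (g gv : F)
    (hv : ¬ s.Inc v g) (hgv : s.Inc v gv) :
    lo * A ≤ lin (q gv) (b gv) (p v) - lin (q g) (b g) (p v) := by
  obtain ⟨g1, hg1, hmax⟩ := Finset.exists_max_image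
    (Finset.univ.filter (fun g => ¬ s.Inc v g)) (fun g => lin (q g) (b g) (p v))
    ⟨g, by simpa using hv⟩
  have hv1 : ¬ s.Inc v g1 := (Finset.mem_filter.1 hg1).2
  have h1 := hmax g (by simpa using hv)
  obtain ⟨g', w, a, hlo, hw1, -, ha, -, h2, h3⟩ := T10_cross s hd hc v g1 hv1
  have hwa : 0 < w * a := mul_pos (hlo.trans_le hw1) ha
  have hg' : s.Inc v g' := by
    by_contra h
    have h4 := hmax g' (by simpa using h)
    linarith
  have h5 := s.height hc v gv g' hgv hg'
  have h6 : lo * A ≤ w * a :=
    mul_le_mul hw1 (h3 hg') hd.A_pos.le (hlo.trans_le hw1).le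
  linarith

theorem Sch.height_le (s : Sch V F) {wt : Fin 3 → V → ℝ} {p : V → ℝ × ℝ} {lo hi A : ℝ}
    (hd : s.Drw wt p lo hi A) (hhi : 0 ≤ hi) {q : F → ℝ × ℝ} {b : F → ℝ}
    (hc : s.Crs wt p q b) (g0 : F) (hq : q g0 = (0, 0)) (hb : b g0 = 0) (v : V) (gv : F)
    (hgv : s.Inc v gv) :
    0 ≤ lin (q gv) (b gv) (p v) ∧ lin (q gv) (b gv) (p v) ≤ 2 * hi * Fintype.card F := by
  have h0 : lin (q g0) (b g0) (p v) = 0 := by
    rw [hq, hb, lin]
    simp
  constructor
  · by_cases h : s.Inc v g0
    · rw [s.height hc v gv g0 hgv h, h0]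
    · have h1 := s.slack hd hc v g0 gv h hgv
      have h2 : 0 < lo * A := mul_pos hd.lo_pos hd.A_pos
      linarith
  · have key : ∀ (n : ℕ) (g : F), (Finset.univ.filter (fun g' =>
        lin (q g) (b g) (p v) < lin (q g') (b g') (p v))).card = n →
        lin (q gv) (b gv) (p v) - lin (q g) (b g) (p v) ≤ 2 * hi * n := by
      intro n
      induction n using Nat.strong_induction_on with
      | _ n ih =>
        intro g hn
        by_cases hg : s.Inc v g
        · rw [s.height hc v gv g hgv hg, sub_self]
          positivity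
        · obtain ⟨g', w, a, hlo, hw1, hw2, ha, ha2, h2, -⟩ := T10_cross s hd hc v g hg
          have hwa : 0 < w * a := mul_pos (hlo.trans_le hw1) ha
          have hlt : (Finset.univ.filter (fun g'' =>
              lin (q g') (b g') (p v) < lin (q g'') (b g'') (p v))).card < n := by
            rw [← hn]
            apply Finset.card_lt_card
            rw [Finset.ssubset_iff_of_subset]
            · refine ⟨g', ?_, ?_⟩
              · rw [Finset.mem_filter]
                exact ⟨Finset.mem_univ _, by linarith⟩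
              · rw [Finset.mem_filter, not_and]
                exact fun _ => lt_irrefl _
            · intro g'' hg''
              rw [Finset.mem_filter] at hg'' ⊢
              exact ⟨Finset.mem_univ _, by linarith [hg''.2]⟩
          have h5 := ih _ hlt g' rfl
          have h6 : w * a ≤ hi * 2 := mul_le_mul hw2 ha2 ha.le hhi
          have h7 : ((Finset.univ.filter (fun g'' =>
              lin (q g') (b g') (p v) < lin (q g'') (b g'') (p v))).card : ℝ) + 1 ≤ n := by
            exact_mod_cast hlt
          have h8 : 2 * hi * (((Finset.univ.filter (fun g'' =>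
              lin (q g') (b g') (p v) < lin (q g'') (b g'') (p v))).card : ℝ) + 1) ≤
              2 * hi * n := mul_le_mul_of_nonneg_left h7 (by positivity)
          linarith
    have h1 := key _ g0 rfl
    rw [h0, sub_zero] at h1
    refine h1.trans ?_
    refine mul_le_mul_of_nonneg_left ?_ (by positivity)
    exact_mod_cast Finset.card_le_univ _

end Pool.SX
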