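import Pool.Agent.Lib.MP_9dcace_sx.T10

/-!
ROW T11 (conclusion of section T).
-/

set_option autoImplicit false

open Classical

namespace Pool.SX

variable {V F : Type} [Fintype V] [Fintype F]

theorem dt4_lift (q : ℝ × ℝ) (b : ℝ) (x y z u : ℝ × ℝ) (h : ℝ) :
    dt4 (lft x (lin q b x)) (lft y (lin q b y)) (lft z (lin q b z)) (lft u h) =
      ar x y z * (h - lin q b u) := by
  simp only [dt4, lft, ar, lin, Matrix.cons_val_zero, Matrix.cons_val_one, Matrix.cons_val]
  ring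

private theorem T11_outer (x y h0 h1 h2 h : ℝ) :
    dt4 (lft (0, 1) h1) (lft (1, 0) h0) (lft (0, 0) h2) (lft (x, y) h) =
      x * h0 + y * h1 + (1 - x - y) * h2 - h := by
  simp only [dt4, lft, Matrix.cons_val_zero, Matrix.cons_val_one, Matrix.cons_val]
  ring

private theorem T11_lin (q : ℝ × ℝ) (b x y : ℝ) :
    lin q b (x, y) = x * lin q b (1, 0) + y * lin q b (0, 1) + (1 - x - y) * lin q b (0, 0) := by
  simp only [lin]
  ring

private theorem T11_mul {a l c m : ℝ} (ha : 1 / 3 ≤ a) (hl : 0 ≤ l) (hc : l ≤ c - m) :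
    l / 3 ≤ a * (c - m) := by
  have h1 : 1 / 3 * l ≤ a * l := mul_le_mul_of_nonneg_right ha hl
  have h2 : a * l ≤ a * (c - m) := mul_le_mul_of_nonneg_left hc (by linarith)
  linarith

theorem Sch.lift_main (s : Sch V F) {wt : Fin 3 → V → ℝ} {p : V → ℝ × ℝ} {lo hi A : ℝ}
    (hd : s.Drw wt p lo hi A) (hhi : 0 ≤ hi) :
    ∃ h : V → ℝ, (∀ v, 0 ≤ h v ∧ h v ≤ 2 * hi * Fintype.card F) ∧
      (∀ (g : F) (v : V), ¬ s.Inc v g → A * (lo * A) ≤
        dt4 (lft (p (s.t 0 g)) (h (s.t 0 g))) (lft (p (s.t 1 g)) (h (s.t 1 g)))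
          (lft (p (s.t 2 g)) (h (s.t 2 g))) (lft (p v) (h v))) ∧
      (∀ v : V, s.inn v → lo * A / 3 ≤
        dt4 (lft (p (s.a 1)) (h (s.a 1))) (lft (p (s.a 0)) (h (s.a 0)))
          (lft (p (s.a 2)) (h (s.a 2))) (lft (p v) (h v))) := by
  obtain ⟨q, b, hc, hq, hb⟩ := s.crs_exists hd.equi (s.o 0)
  have hcov : ∀ v : V, ∃ g : F, s.Inc v g := fun v => s.cov v
  choose gv hgv using hcov
  have hloA : 0 < lo * A := mul_pos hd.lo_pos hd.A_pos
  have hh : ∀ v g, s.Inc v g → lin (q (gv v)) (b (gv v)) (p v) = lin (q g) (b g) (p v) :=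
    fun v g hg => s.height hc v (gv v) g (hgv v) hg
  have hsl : ∀ v g, ¬ s.Inc v g →
      lo * A ≤ lin (q (gv v)) (b (gv v)) (p v) - lin (q g) (b g) (p v) :=
    fun v g hg => s.slack hd hc v g (gv v) hg (hgv v)
  refine ⟨fun v => lin (q (gv v)) (b (gv v)) (p v),
    fun v => s.height_le hd hhi hc (s.o 0) hq hb v (gv v) (hgv v), ?_, ?_⟩
  · intro g v hv
    simp only
    rw [hh (s.t 0 g) g ⟨0, rfl⟩, hh (s.t 1 g) g ⟨1, rfl⟩, hh (s.t 2 g) g ⟨2, rfl⟩, dt4_lift]
    exact mul_le_mul (hd.area g) (hsl v g hv) hloA.le (hd.A_pos.le.trans (hd.area g))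
  · intro v hv
    simp only
    have key : ∀ k : Fin 3, ∃ (q' : ℝ × ℝ) (b' : ℝ),
        lin (q (gv v)) (b (gv v)) (p v) = lin q' b' (p v) ∧
        (∀ j, lin q' b' (p (s.a j)) ≤ lin (q (gv (s.a j))) (b (gv (s.a j))) (p (s.a j))) ∧
        lo * A ≤ lin (q (gv (s.a k))) (b (gv (s.a k))) (p (s.a k)) - lin q' b' (p (s.a k)) := by
      intro k
      have h1 : s.t k (s.gL (k + 1) v) = v := by
        have h2 := s.tL2 (k + 1) v hv
        have h3 : ∀ k : Fin 3, k + 1 + 2 = k := by decide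
        rwa [h3 k] at h2
      refine ⟨q (s.gL (k + 1) v), b (s.gL (k + 1) v), hh v _ ⟨k, h1⟩, fun j => ?_, hsl _ _ ?_⟩
      · by_cases hj : s.Inc (s.a j) (s.gL (k + 1) v)
        · exact (hh _ _ hj).ge
        · have := hsl _ _ hj
          linarith
      · rintro ⟨j, hj⟩
        have h2 := s.lab _ _ _ hj
        rw [h2, h1] at hj
        exact hv k hj
    have ht := s.in_tri hd v
    rcases hpv : p v with ⟨x, y⟩
    rw [hpv] at ht
    simp only at ht
    obtain ⟨hx, hy, hxy⟩ := ht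
    have hcase : ∃ k : Fin 3, 1 / 3 ≤ (if k = 0 then x else if k = 1 then y else 1 - x - y) := by
      by_contra hcon
      push Not at hcon
      have c0 := hcon 0
      have c1 := hcon 1
      have c2 := hcon 2
      simp at c0 c1 c2
      linarith
    obtain ⟨k, hk⟩ := hcase
    obtain ⟨q', b', k1, k2, k3⟩ := key k
    rw [hpv] at k1
    have j0 := k2 0
    have j1 := k2 1
    have j2 := k2 2
    rw [hd.p0] at j0
    rw [hd.p1] at j1
    rw [hd.p2] at j2
    rw [hd.p0, hd.p1, hd.p2, T11_outer, k1, T11_lin q' b' x y]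
    have z0 : (1 - x - y) ≥ 0 := by linarith
    have m0 := mul_nonneg hx (sub_nonneg.2 j0)
    have m1 := mul_nonneg hy (sub_nonneg.2 j1)
    have m2 := mul_nonneg z0 (sub_nonneg.2 j2)
    have e : ∀ a0 a1 a2 l0 l1 l2 : ℝ, x * a0 + y * a1 + (1 - x - y) * a2 -
        (x * l0 + y * l1 + (1 - x - y) * l2) = x * (a0 - l0) + y * (a1 - l1) +
        (1 - x - y) * (a2 - l2) := fun _ _ _ _ _ _ => by ring
    rw [e]
    fin_cases k
    · simp at hk
      have k3' : lo * A ≤ _ := k3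
      simp only [Fin.zero_eta, hd.p0] at k3'
      have := T11_mul (a := x) (by linarith) hloA.le k3'
      linarith
    · simp at hk
      have k3' : lo * A ≤ _ := k3
      simp only [Fin.mk_one, hd.p1] at k3'
      have := T11_mul (a := y) (by linarith) hloA.le k3'
      linarith
    · simp at hk
      have k3' : lo * A ≤ _ := k3
      simp only [Fin.reduceFinMk, hd.p2] at k3'
      have := T11_mul (a := 1 - x - y) (by linarith) hloA.le k3'
      linarith

end Pool.SX
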