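import Pool.Agent.Lib.MP_9dcace_sx.TDefs

/-!
ROW T4 (connectedness of the star of a vertex, 80-120 lines; only `Sch` is used).
Let v be a vertex and Y a function on faces which does not change across the edges at v (h1: outgoing, h2: incoming).
(1) v inner, g with t c g = v.  CLAIM Y g = Y (gL (c+1) v).  Induction on the number of faces g' with t c g' = v and
    r (c+1) (t (c+1) g') > r (c+1) (t (c+1) g).  `edge g c`: the case g = o c is impossible (t c (o c) = a c is outer);
    [I] g = gL (c+1) v: done; [II] u := t (c+1) g is inner, g = gR c u, so out c u = t c (gR c u) = v (tR0) and by h2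
    Y g = Y (gL c u); g' := gL c u has t c g' = out c u = v (tL0), t (c+2) g' = u (tL2), and pot gives
    r (c+1) (t (c+1) g') > r (c+1) (t (c+2) g') = r (c+1) u = r (c+1) (t (c+1) g).
(2) so all faces with label c at v have the value Y (gL (c+1) v); gR (c+1) v has label c+2 at v (tR1) and
    Y (gL (c+1) v) = Y (gR (c+1) v) by h1; hence the values for the labels c and c+2 agree, for all c: all equal.
(3) v = a k outer: every face at v has label k (`lab`); the same induction with `edge g k`: [I] impossible; ends at o k. So Y g = Y (o k).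
-/

set_option autoImplicit false

open Classical

namespace Pool.SX

variable {V F : Type} [Fintype V] [Fintype F]

private theorem T4_wf (φ : F → ℝ) : WellFounded (fun g' g => φ g' < φ g) := by
  have : IsTrans F (fun g' g => φ g' < φ g) := ⟨fun _ _ _ h1 h2 => lt_trans h1 h2⟩
  have : Std.Irrefl (fun g' g : F => φ g' < φ g) := ⟨fun _ => lt_irrefl _⟩
  exact Finite.wellFounded_of_trans_of_irrefl _

private theorem T4_ne (c : Fin 3) : c + 1 ≠ c + 2 := by
  revert c
  decide

private theorem T4_eq (c : Fin 3) : c + 1 + 1 = c + 2 := by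
  revert c
  decide

private theorem T4_walk {α : Type} (s : Sch V F) (v : V) (Y : F → α)
    (h2 : ∀ c u, s.inn u → s.out c u = v → Y (s.gL c u) = Y (s.gR c u)) (c : Fin 3) (z : α)
    (hI : s.inn v → Y (s.gL (c + 1) v) = z) (hO : v = s.a c → Y (s.o c) = z) (g : F)
    (hg : s.t c g = v) : Y g = z := by
  induction g using (T4_wf fun g => s.r (c + 2) (s.t (c + 2) g)).induction with
  | _ g ih =>
  rcases s.edge g c with h | ⟨h, h'⟩ | ⟨h, h'⟩
  · have h3 := s.o0 c
    rw [← h, hg] at h3
    rw [h]
    exact hO h3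
  · rw [hg] at h h'
    rw [h']
    exact hI h
  · set u := s.t (c + 1) g with hu
    have hui : s.inn u := h
    have h3 : s.out c u = v := by rw [← s.tR0 c u hui, ← h', hg]
    have h4 : Y g = Y (s.gL c u) := by
      rw [h2 c u hui h3, ← h']
    rw [h4]
    refine ih (s.gL c u) ?_ (by rw [s.tL0 c u hui, h3])
    rw [s.tL2 c u hui, hu]
    exact s.pot g (c + 2) (c + 1) (T4_ne c)

theorem Sch.star_constT {α : Type} (s : Sch V F) (v : V) (Y : F → α)
    (h1 : ∀ c, s.inn v → Y (s.gL c v) = Y (s.gR c v))
    (h2 : ∀ c u, s.inn u → s.out c u = v → Y (s.gL c u) = Y (s.gR c u)) (g g' : F)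
    (hg : s.Inc v g) (hg' : s.Inc v g') : Y g = Y g' := by
  obtain ⟨j, hj⟩ := hg
  obtain ⟨j', hj'⟩ := hg'
  by_cases hv : s.inn v
  · have hw : ∀ c g, s.t c g = v → Y g = Y (s.gL (c + 1) v) := fun c g hg =>
      T4_walk s v Y h2 c _ (fun _ => rfl) (fun h => absurd h (hv c)) g hg
    have hA : ∀ c, Y (s.gL (c + 1) v) = Y (s.gL (c + 2 + 1) v) := by
      intro c
      rw [h1 (c + 1) hv]
      refine hw (c + 2) _ ?_
      have h3 := s.tR1 (c + 1) v hv
      rwa [T4_eq c] at h3
    have hB : ∀ i : Fin 3, Y (s.gL i v) = Y (s.gL 0 v) := by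
      have e0 := hA 0
      have e1 := hA 1
      have e2 := hA 2
      have f1 : (0 : Fin 3) + 1 = 1 := rfl
      have f2 : (0 : Fin 3) + 2 + 1 = 0 := rfl
      have f3 : (1 : Fin 3) + 1 = 2 := rfl
      have f4 : (1 : Fin 3) + 2 + 1 = 1 := rfl
      rw [f1, f2] at e0
      rw [f3, f4] at e1
      intro i
      match i with
      | 0 => rfl
      | 1 => exact e0
      | 2 => exact e1.trans e0
    rw [hw j g hj, hw j' g' hj', hB, hB (j' + 1)]
  · have h3 : ∃ k, v = s.a k := by
      by_contra h4
      exact hv fun k hk => h4 ⟨k, hk⟩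
    obtain ⟨k, hk⟩ := h3
    have h4 : ∀ (i : Fin 3) (f : F), s.t i f = v → Y f = Y (s.o k) := by
      intro i f hf
      have h5 : i = k := s.lab f i k (hf.trans hk)
      subst h5
      exact T4_walk s v Y h2 i _ (fun h => absurd h hv) (fun _ => rfl) f hf
    rw [h4 j g hj, h4 j' g' hj']

end Pool.SX
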