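import Pool.Agent.Lib.MP_9dcace_sx.T1
import Pool.Agent.Lib.MP_9dcace_sx.T5

/-!
ROW T7 (ray crossing numbers, 120-180 lines).
`crs x a b` is the signed crossing of the directed segment a -> b with the horizontal ray from x to the right; half open convention in the
second coordinate.
-/

set_option autoImplicit false

open Classical

namespace Pool.SX

variable {V F : Type} [Fintype V] [Fintype F]

/-- signed crossing number of the segment `a → b` with the horizontal ray from `x` to the right -/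
noncomputable def crs (x a b : ℝ × ℝ) : ℝ :=
  if a.2 ≤ x.2 ∧ x.2 < b.2 ∧ 0 < ar a b x then 1
  else if b.2 ≤ x.2 ∧ x.2 < a.2 ∧ ar a b x < 0 then -1 else 0

private theorem T7_up {x a b : ℝ × ℝ} (h1 : a.2 ≤ x.2) (h2 : x.2 < b.2) :
    crs x a b = if 0 < ar a b x then 1 else 0 := by
  have h3 : ¬ (b.2 ≤ x.2) := not_le.mpr h2
  unfold crs
  simp only [h1, h2, h3, true_and, false_and, if_false]

private theorem T7_down {x a b : ℝ × ℝ} (h1 : b.2 ≤ x.2) (h2 : x.2 < a.2) :
    crs x a b = if ar a b x < 0 then -1 else 0 := by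
  have h3 : ¬ (a.2 ≤ x.2) := not_le.mpr h2
  unfold crs
  simp only [h1, h2, h3, true_and, false_and, if_false]

private theorem T7_low {x a b : ℝ × ℝ} (h1 : a.2 ≤ x.2) (h2 : b.2 ≤ x.2) : crs x a b = 0 := by
  have h3 : ¬ (x.2 < a.2) := not_lt.mpr h1
  have h4 : ¬ (x.2 < b.2) := not_lt.mpr h2
  unfold crs
  simp only [h3, h4, false_and, and_false, if_false]

private theorem T7_high {x a b : ℝ × ℝ} (h1 : x.2 < a.2) (h2 : x.2 < b.2) : crs x a b = 0 := by
  have h3 : ¬ (a.2 ≤ x.2) := not_le.mpr h1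
  have h4 : ¬ (b.2 ≤ x.2) := not_le.mpr h2
  unfold crs
  simp only [h3, h4, false_and, if_false]

theorem crs_anti (x a b : ℝ × ℝ) : crs x a b = - crs x b a := by
  have hs := ar_swap a b x
  rcases le_or_gt a.2 x.2 with ha | ha <;> rcases le_or_gt b.2 x.2 with hb | hb
  · rw [T7_low ha hb, T7_low hb ha, neg_zero]
  · rw [T7_up ha hb, T7_down ha hb, hs]
    by_cases h : 0 < ar a b x
    · rw [if_pos h, if_pos (by linarith)]
      norm_num
    · rw [if_neg h, if_neg (by intro h'; apply h; linarith), neg_zero]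
  · rw [T7_down hb ha, T7_up hb ha, hs]
    by_cases h : ar a b x < 0
    · rw [if_pos h, if_pos (by linarith)]
    · rw [if_neg h, if_neg (by intro h'; apply h; linarith), neg_zero]
  · rw [T7_high ha hb, T7_high hb ha, neg_zero]

/-- one vertex below -/
private theorem T7_one {A B C α β γ : ℝ} (hA : A ≤ 0) (hB : 0 < B) (hC : 0 < C)
    (h2 : β ≠ 0) (h3 : γ ≠ 0) (hs : 0 < α + β + γ)
    (hL : α * A + β * B + γ * C = 0) :
    (if 0 < γ then (1 : ℝ) else 0) + (if β < 0 then (-1 : ℝ) else 0) =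
      if 0 < α ∧ 0 < β ∧ 0 < γ then 1 else 0 := by
  rcases lt_or_gt_of_ne h2 with hβ | hβ <;> rcases lt_or_gt_of_ne h3 with hγ | hγ
  · exfalso
    have hα : 0 < α := by linarith
    have e1 : α * A ≤ 0 := mul_nonpos_of_nonneg_of_nonpos hα.le hA
    have e2 : β * B < 0 := mul_neg_of_neg_of_pos hβ hB
    have e3 : γ * C < 0 := mul_neg_of_neg_of_pos hγ hC
    linarith
  · rw [if_pos hγ, if_pos hβ, if_neg (by intro h; linarith [h.2.1])]
    norm_num
  · rw [if_neg (by linarith), if_neg (by linarith), if_neg (by intro h; linarith [h.2.2])]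
    norm_num
  · have e2 : 0 < β * B := mul_pos hβ hB
    have e3 : 0 < γ * C := mul_pos hγ hC
    have hα : 0 < α := by
      by_contra h
      have e1 : 0 ≤ α * A := mul_nonneg_of_nonpos_of_nonpos (not_lt.mp h) hA
      linarith
    rw [if_pos hγ, if_neg (by linarith), if_pos ⟨hα, hβ, hγ⟩]
    norm_num

/-- one vertex above -/
private theorem T7_two {A B C α β γ : ℝ} (hA : 0 < A) (hB : B ≤ 0) (hC : C ≤ 0)
    (h1 : α ≠ 0) (h2 : β ≠ 0) (h3 : γ ≠ 0) (hs : 0 < α + β + γ)
    (hL : α * A + β * B + γ * C = 0) :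
    (if γ < 0 then (-1 : ℝ) else 0) + (if 0 < β then (1 : ℝ) else 0) =
      if 0 < α ∧ 0 < β ∧ 0 < γ then 1 else 0 := by
  rcases lt_or_gt_of_ne h2 with hβ | hβ <;> rcases lt_or_gt_of_ne h3 with hγ | hγ
  · exfalso
    have hα : 0 < α := by linarith
    have e1 : 0 < α * A := mul_pos hα hA
    have e2 : 0 ≤ β * B := mul_nonneg_of_nonpos_of_nonpos hβ.le hB
    have e3 : 0 ≤ γ * C := mul_nonneg_of_nonpos_of_nonpos hγ.le hC
    linarith
  · rw [if_neg (by linarith), if_neg (by linarith), if_neg (by intro h; linarith [h.2.1])]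
    norm_num
  · rw [if_pos hγ, if_pos hβ, if_neg (by intro h; linarith [h.2.2])]
    norm_num
  · have e2 : β * B ≤ 0 := mul_nonpos_of_nonneg_of_nonpos hβ.le hB
    have e3 : γ * C ≤ 0 := mul_nonpos_of_nonneg_of_nonpos hγ.le hC
    have hα : 0 < α := by
      rcases lt_or_gt_of_ne h1 with h | h
      · exfalso
        have e1 : α * A < 0 := mul_neg_of_neg_of_pos h hA
        linarith
      · exact h
    rw [if_neg (by linarith), if_pos hβ, if_pos ⟨hα, hβ, hγ⟩]
    norm_num

theorem crs_tri (x a b c : ℝ × ℝ) (h : 0 < ar a b c) (h1 : ar a b x ≠ 0) (h2 : ar b c x ≠ 0)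
    (h3 : ar c a x ≠ 0) :
    crs x a b + crs x b c + crs x c a =
      if 0 < ar a b x ∧ 0 < ar b c x ∧ 0 < ar c a x then 1 else 0 := by
  have hs := ar_sum a b c x
  have hL : ar b c x * (a.2 - x.2) + ar c a x * (b.2 - x.2) + ar a b x * (c.2 - x.2) = 0 := by
    unfold ar
    ring
  have hL2 : ar c a x * (b.2 - x.2) + ar a b x * (c.2 - x.2) + ar b c x * (a.2 - x.2) = 0 := by
    linarith
  have hL3 : ar a b x * (c.2 - x.2) + ar b c x * (a.2 - x.2) + ar c a x * (b.2 - x.2) = 0 := by
    linarith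
  have k1 : (0 < ar b c x ∧ 0 < ar c a x ∧ 0 < ar a b x) ↔
      (0 < ar a b x ∧ 0 < ar b c x ∧ 0 < ar c a x) := by tauto
  have k2 : (0 < ar c a x ∧ 0 < ar a b x ∧ 0 < ar b c x) ↔
      (0 < ar a b x ∧ 0 < ar b c x ∧ 0 < ar c a x) := by tauto
  rcases le_or_gt a.2 x.2 with ha | ha <;> rcases le_or_gt b.2 x.2 with hb | hb <;>
    rcases le_or_gt c.2 x.2 with hc | hc
  · rw [T7_low ha hb, T7_low hb hc, T7_low hc ha, if_neg]
    · norm_num
    · rintro ⟨p1, p2, p3⟩
      have e1 : ar b c x * (a.2 - x.2) ≤ 0 :=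
        mul_nonpos_of_nonneg_of_nonpos p2.le (by linarith)
      have e2 : ar c a x * (b.2 - x.2) ≤ 0 :=
        mul_nonpos_of_nonneg_of_nonpos p3.le (by linarith)
      have e3 : ar a b x * (c.2 - x.2) ≤ 0 :=
        mul_nonpos_of_nonneg_of_nonpos p1.le (by linarith)
      have f1 : a.2 - x.2 = 0 := by
        rcases mul_eq_zero.mp (by linarith : ar b c x * (a.2 - x.2) = 0) with q | q
        · exact absurd q h2
        · exact q
      have f2 : b.2 - x.2 = 0 := by
        rcases mul_eq_zero.mp (by linarith : ar c a x * (b.2 - x.2) = 0) with q | q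
        · exact absurd q h3
        · exact q
      have f3 : c.2 - x.2 = 0 := by
        rcases mul_eq_zero.mp (by linarith : ar a b x * (c.2 - x.2) = 0) with q | q
        · exact absurd q h1
        · exact q
      have g1 : b.2 - a.2 = 0 := by linarith
      have g2 : c.2 - a.2 = 0 := by linarith
      have : ar a b c = 0 := by
        unfold ar
        rw [g1, g2]
        ring
      linarith
  · -- c above
    rw [T7_low ha hb, T7_up hb hc, T7_down ha hc]
    have := T7_two (A := c.2 - x.2) (B := a.2 - x.2) (C := b.2 - x.2) (α := ar a b x)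
      (β := ar b c x) (γ := ar c a x) (by linarith) (by linarith) (by linarith) h1 h2 h3
      (by linarith) hL3
    linarith
  · -- b above
    rw [T7_up ha hb, T7_down hc hb, T7_low hc ha]
    have := T7_two (A := b.2 - x.2) (B := c.2 - x.2) (C := a.2 - x.2) (α := ar c a x)
      (β := ar a b x) (γ := ar b c x) (by linarith) (by linarith) (by linarith) h3 h1 h2
      (by linarith) hL2
    simp only [k2] at this
    linarith
  · -- a below
    rw [T7_up ha hb, T7_high hb hc, T7_down ha hc]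
    have := T7_one (A := a.2 - x.2) (B := b.2 - x.2) (C := c.2 - x.2) (α := ar b c x)
      (β := ar c a x) (γ := ar a b x) (by linarith) (by linarith) (by linarith) h3 h1
      (by linarith) hL
    simp only [k1] at this
    linarith
  · -- a above
    rw [T7_down hb ha, T7_low hb hc, T7_up hc ha]
    have := T7_two (A := a.2 - x.2) (B := b.2 - x.2) (C := c.2 - x.2) (α := ar b c x)
      (β := ar c a x) (γ := ar a b x) (by linarith) (by linarith) (by linarith) h2 h3 h1
      (by linarith) hL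
    simp only [k1] at this
    linarith
  · -- b below
    rw [T7_down hb ha, T7_up hb hc, T7_high hc ha]
    have := T7_one (A := b.2 - x.2) (B := c.2 - x.2) (C := a.2 - x.2) (α := ar c a x)
      (β := ar a b x) (γ := ar b c x) (by linarith) (by linarith) (by linarith) h1 h2
      (by linarith) hL2
    simp only [k2] at this
    linarith
  · -- c below
    rw [T7_high ha hb, T7_down hc hb, T7_up hc ha]
    have := T7_one (A := c.2 - x.2) (B := a.2 - x.2) (C := b.2 - x.2) (α := ar a b x)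
      (β := ar b c x) (γ := ar c a x) (by linarith) (by linarith) (by linarith) h2 h3
      (by linarith) hL3
    linarith
  · rw [T7_high ha hb, T7_high hb hc, T7_high hc ha, if_neg]
    · norm_num
    · rintro ⟨p1, p2, p3⟩
      have e1 : 0 < ar b c x * (a.2 - x.2) := mul_pos p2 (by linarith)
      have e2 : 0 < ar c a x * (b.2 - x.2) := mul_pos p3 (by linarith)
      have e3 : 0 < ar a b x * (c.2 - x.2) := mul_pos p1 (by linarith)
      linarith

theorem Sch.cover_one (s : Sch V F) (p : V → ℝ × ℝ)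
    (hout : 0 < ar (p (s.a 0)) (p (s.a 1)) (p (s.a 2)))
    (harea : ∀ g : F, 0 < ar (p (s.t 0 g)) (p (s.t 1 g)) (p (s.t 2 g))) (x : ℝ × ℝ)
    (hx : ∀ (g : F) (k : Fin 3), ar (p (s.t k g)) (p (s.t (k + 1) g)) x ≠ 0) (g g' : F)
    (hg : ∀ k, 0 < ar (p (s.t k g)) (p (s.t (k + 1) g)) x)
    (hg' : ∀ k, 0 < ar (p (s.t k g')) (p (s.t (k + 1) g')) x) : g = g' := by
  have key := s.tele (fun u v => crs x (p u) (p v)) (fun u v => crs_anti x (p u) (p v))
  have e1 : ∀ g : F, ∑ k, crs x (p (s.t k g)) (p (s.t (k + 1) g)) =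
      if (∀ k, 0 < ar (p (s.t k g)) (p (s.t (k + 1) g)) x) then 1 else 0 := by
    intro g
    rw [Fin.sum_univ_three]
    have h0 := hx g 0
    have h1 := hx g 1
    have h2 := hx g 2
    have e := crs_tri x (p (s.t 0 g)) (p (s.t 1 g)) (p (s.t 2 g)) (harea g) h0 h1 h2
    have e' : crs x (p (s.t 0 g)) (p (s.t (0 + 1) g)) + crs x (p (s.t 1 g)) (p (s.t (1 + 1) g)) +
        crs x (p (s.t 2 g)) (p (s.t (2 + 1) g)) = _ := e
    rw [e']
    refine if_congr ?_ rfl rfl
    constructor
    · rintro ⟨q0, q1, q2⟩ k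
      fin_cases k
      · exact q0
      · exact q1
      · exact q2
    · intro q
      exact ⟨q 0, q 1, q 2⟩
  have e2 : ∑ k, crs x (p (s.a k)) (p (s.a (k + 1))) ≤ 1 := by
    rw [Fin.sum_univ_three]
    have hk : ∀ k : Fin 3, ar (p (s.a k)) (p (s.a (k + 1))) x ≠ 0 := by
      intro k
      have := hx (s.o k) k
      rwa [s.o0, s.o1] at this
    have e := crs_tri x (p (s.a 0)) (p (s.a 1)) (p (s.a 2)) hout (hk 0) (hk 1) (hk 2)
    have e' : crs x (p (s.a 0)) (p (s.a (0 + 1))) + crs x (p (s.a 1)) (p (s.a (1 + 1))) +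
        crs x (p (s.a 2)) (p (s.a (2 + 1))) = _ := e
    rw [e']
    split_ifs <;> norm_num
  have e3 : ((Finset.univ.filter
      (fun g : F => ∀ k, 0 < ar (p (s.t k g)) (p (s.t (k + 1) g)) x)).card : ℝ) ≤ 1 := by
    rw [← Finset.sum_boole, ← Finset.sum_congr rfl fun g _ => e1 g]
    exact key.trans_le e2
  have e4 : (Finset.univ.filter
      (fun g : F => ∀ k, 0 < ar (p (s.t k g)) (p (s.t (k + 1) g)) x)).card ≤ 1 := by
    exact_mod_cast e3
  exact Finset.card_le_one.mp e4 g (Finset.mem_filter.mpr ⟨Finset.mem_univ _, hg⟩) g'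
    (Finset.mem_filter.mpr ⟨Finset.mem_univ _, hg'⟩)

end Pool.SX
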