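import Pool.Agent.Lib.MP_9dcace_sx.T3
import Pool.Agent.Lib.MP_9dcace_sx.T6
import Pool.Agent.Lib.MP_9dcace_sx.T8

/-!
ROW T9 (a vertex is not in a closed face which does not contain it, 100-150 lines).
Suppose v is not a vertex of g and p v is in the closed face g.  z := centroid of g, θ := z - p v.
 z is in the outer triangle: ar (p (a k)) (p (a (k+1))) z is the average of the values at the three vertices of g (`Sch.outer_left`) >= 0.
 Among the (finitely many, at least one: `cov`) faces g' at v choose one with <q g', θ> maximal, t j g' = v.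
 CLAIM 0 <= ar (p (t k g')) (p (t (k+1) g')) z for the two sides of g' at v (k = j and k = j+2).
   Suppose < 0.  If g' = o k: z is on the left of the outer edge: contradiction.  Otherwise `Sch.crossing` gives g'' ∋ v (both ends of the side
   are in g'') with lin (q g'') (b g'') x - lin (q g') (b g') x = - w ar(side, x) for all x; at x = p v it is 0 and at x = z it is > 0, so
   <q g'', θ> - <q g', θ> > 0: contradiction with the maximality.
 Now y := p v + ε θ, 0 < ε <= 1 small: ar(side of g', y) >= 0 for the two sides at v (value 0 at p v, >= 0 at z; affine) and > 0 for the third side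
   (value = area > 0 at p v; continuity); so y is in the closed face g'.  And y is in the interior of g: value (1-ε) (>= 0) + ε (area/3) > 0.
 `Sch.generic_pt` and `Sch.cover_one` give g = g', but v is in g' and not in g.
-/

set_option autoImplicit false

open Classical

namespace Pool.SX

variable {V F : Type} [Fintype V] [Fintype F]

theorem t9_aff (a b x z : ℝ × ℝ) (ε : ℝ) :
    ar a b (x.1 + ε * (z.1 - x.1), x.2 + ε * (z.2 - x.2)) =
      (1 - ε) * ar a b x + ε * ar a b z := by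
  unfold ar; ring

theorem t9_cen (a b P Q R : ℝ × ℝ) :
    ar a b ((P.1 + Q.1 + R.1) / 3, (P.2 + Q.2 + R.2) / 3) =
      (ar a b P + ar a b Q + ar a b R) / 3 := by
  unfold ar; ring

theorem t9_left (a b : ℝ × ℝ) : ar a b a = 0 := by unfold ar; ring

theorem t9_right (a b : ℝ × ℝ) : ar a b b = 0 := by unfold ar; ring

theorem t9_fin (j k : Fin 3) : k = j ∨ k = j + 1 ∨ k = j + 2 := by revert j k; decide

theorem t9_fin2 (j : Fin 3) : j + 1 + 2 = j := by revert j; decide

theorem t9_fin3 (j : Fin 3) : j + 2 + 1 = j := by revert j; decide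

theorem Sch.not_closed (s : Sch V F) {wt : Fin 3 → V → ℝ} {p : V → ℝ × ℝ} {lo hi A : ℝ}
    (hd : s.Drw wt p lo hi A) {q : F → ℝ × ℝ} {b : F → ℝ} (hc : s.Crs wt p q b) (v : V) (g : F)
    (hv : ¬ s.Inc v g) : ∃ k, ar (p (s.t k g)) (p (s.t (k + 1) g)) (p v) < 0 := by
  by_contra hcon
  push Not at hcon
  have harea : ∀ g : F, 0 < ar (p (s.t 0 g)) (p (s.t 1 g)) (p (s.t 2 g)) :=
    fun g => lt_of_lt_of_le hd.A_pos (hd.area g)
  obtain ⟨z, hzc⟩ : ∃ z : ℝ × ℝ, ∀ a b, ar a b z = (ar a b (p (s.t 0 g)) +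
      ar a b (p (s.t 1 g)) + ar a b (p (s.t 2 g))) / 3 :=
    ⟨_, fun a b => t9_cen a b (p (s.t 0 g)) (p (s.t 1 g)) (p (s.t 2 g))⟩
  have hzo : ∀ k, 0 ≤ ar (p (s.a k)) (p (s.a (k + 1))) z := by
    intro k
    rw [hzc]
    have h0 := s.outer_left hd (s.t 0 g) k
    have h1 := s.outer_left hd (s.t 1 g) k
    have h2 := s.outer_left hd (s.t 2 g) k
    linarith
  have hzi : ∀ k, 0 < ar (p (s.t k g)) (p (s.t (k + 1) g)) z := by
    intro k
    rw [hzc]
    have hp := harea g
    have e1 := ar_rot (p (s.t 0 g)) (p (s.t 1 g)) (p (s.t 2 g))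
    have e2 := ar_rot (p (s.t 1 g)) (p (s.t 2 g)) (p (s.t 0 g))
    match k with
    | 0 =>
      show 0 < (ar (p (s.t 0 g)) (p (s.t 1 g)) (p (s.t 0 g)) +
        ar (p (s.t 0 g)) (p (s.t 1 g)) (p (s.t 1 g)) +
        ar (p (s.t 0 g)) (p (s.t 1 g)) (p (s.t 2 g))) / 3
      rw [t9_left, t9_right]; linarith
    | 1 =>
      show 0 < (ar (p (s.t 1 g)) (p (s.t 2 g)) (p (s.t 0 g)) +
        ar (p (s.t 1 g)) (p (s.t 2 g)) (p (s.t 1 g)) +
        ar (p (s.t 1 g)) (p (s.t 2 g)) (p (s.t 2 g))) / 3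
      rw [t9_left, t9_right]; linarith
    | 2 =>
      show 0 < (ar (p (s.t 2 g)) (p (s.t 0 g)) (p (s.t 0 g)) +
        ar (p (s.t 2 g)) (p (s.t 0 g)) (p (s.t 1 g)) +
        ar (p (s.t 2 g)) (p (s.t 0 g)) (p (s.t 2 g))) / 3
      rw [t9_left, t9_right]; linarith
  obtain ⟨g0, j0, hj0⟩ := s.cov v
  obtain ⟨g', hg'm, hmax⟩ := Finset.exists_max_image
    (Finset.univ.filter (fun g' : F => s.Inc v g'))
    (fun g' => (q g').1 * (z.1 - (p v).1) + (q g').2 * (z.2 - (p v).2))
    ⟨g0, Finset.mem_filter.mpr ⟨Finset.mem_univ _, ⟨j0, hj0⟩⟩⟩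
  obtain ⟨j, hj⟩ := (Finset.mem_filter.mp hg'm).2
  have hclaim : ∀ k, (s.t k g' = v ∨ s.t (k + 1) g' = v) →
      0 ≤ ar (p (s.t k g')) (p (s.t (k + 1) g')) z := by
    intro k hk
    by_contra hneg
    push Not at hneg
    by_cases ho : g' = s.o k
    · have h1 := hzo k
      rw [ho, s.o0 k, s.o1 k] at hneg
      linarith
    · obtain ⟨g'', c, w, hw, hi1, hi2, hx⟩ := s.crossing hc g' k ho
      have hiv : s.Inc v g'' := by
        rcases hk with h | h
        · rw [← h]; exact hi1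
        · rw [← h]; exact hi2
      have hm := hmax g'' (Finset.mem_filter.mpr ⟨Finset.mem_univ _, hiv⟩)
      have hwp : 0 < wt c w := lt_of_lt_of_le hd.lo_pos (hd.wlo c w hw)
      have h0 : ar (p (s.t k g')) (p (s.t (k + 1) g')) (p v) = 0 := by
        rcases hk with h | h
        · rw [h]; exact t9_left _ _
        · rw [h]; exact t9_right _ _
      have e1 := hx (p v)
      have e2 := hx z
      rw [h0] at e1
      have hpos : 0 < -(wt c w * ar (p (s.t k g')) (p (s.t (k + 1) g')) z) := by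
        have h3 := mul_neg_of_pos_of_neg hwp hneg
        linarith
      rw [← e2] at hpos
      unfold lin at e1 hpos
      linarith
  obtain ⟨α, hαe⟩ : ∃ α, α = ar (p (s.t (j + 1) g')) (p (s.t (j + 1 + 1) g')) (p v) := ⟨_, rfl⟩
  obtain ⟨β, hβe⟩ : ∃ β, β = ar (p (s.t (j + 1) g')) (p (s.t (j + 1 + 1) g')) z := ⟨_, rfl⟩
  have hα : 0 < α := by
    have h1 := s.area_rot p g' (j + 1)
    rw [t9_fin2, hj] at h1
    rw [hαe, h1]; exact harea g'
  obtain ⟨ε, hε0, hε1, hε⟩ : ∃ ε : ℝ, 0 < ε ∧ ε < 1 ∧ 0 ≤ (1 - ε) * α + ε * β := by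
    have hb := abs_nonneg β
    have hD : 0 < α + |β| + 1 := by linarith
    refine ⟨α / (α + |β| + 1), div_pos hα hD, ?_, ?_⟩
    · rw [div_lt_one hD]; linarith
    · have e : (1 - α / (α + |β| + 1)) * α + α / (α + |β| + 1) * β =
          α * (|β| + β + 1) / (α + |β| + 1) := by
        field_simp
        ring
      rw [e]
      have hb2 := neg_abs_le β
      exact div_nonneg (mul_nonneg hα.le (by linarith)) hD.le
  have hy' : ∀ k, 0 ≤ ar (p (s.t k g')) (p (s.t (k + 1) g'))
      ((p v).1 + ε * (z.1 - (p v).1), (p v).2 + ε * (z.2 - (p v).2)) := by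
    intro k
    rw [t9_aff]
    rcases t9_fin j k with rfl | rfl | rfl
    · have h1 := hclaim k (Or.inl hj)
      have h2 : ar (p (s.t k g')) (p (s.t (k + 1) g')) (p v) = 0 := by
        rw [hj]; exact t9_left _ _
      rw [h2, mul_zero, zero_add]
      exact mul_nonneg hε0.le h1
    · rw [← hαe, ← hβe]; exact hε
    · have h1 := hclaim (j + 2) (Or.inr (by rw [t9_fin3]; exact hj))
      have h2 : ar (p (s.t (j + 2) g')) (p (s.t (j + 2 + 1) g')) (p v) = 0 := by
        rw [t9_fin3, hj]; exact t9_right _ _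
      rw [h2, mul_zero, zero_add]
      exact mul_nonneg hε0.le h1
  have hy : ∀ k, 0 < ar (p (s.t k g)) (p (s.t (k + 1) g))
      ((p v).1 + ε * (z.1 - (p v).1), (p v).2 + ε * (z.2 - (p v).2)) := by
    intro k
    rw [t9_aff]
    have h1 := mul_nonneg (sub_nonneg.mpr hε1.le) (hcon k)
    have h2 := mul_pos hε0 (hzi k)
    linarith
  obtain ⟨x, hx1, hx2, hx3⟩ := s.generic_pt p harea g g' _ hy hy'
  have hout : 0 < ar (p (s.a 0)) (p (s.a 1)) (p (s.a 2)) := by
    rw [hd.p0, hd.p1, hd.p2]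
    unfold ar
    norm_num
  have hgg := s.cover_one p hout harea x hx1 g g' hx2 hx3
  exact hv (hgg ▸ ⟨j, hj⟩)

end Pool.SX
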