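import Pool.Agent.Lib.MP_9dcace_sx.F3a
import Pool.Agent.Lib.MP_9dcace_sx.FDefs

/-!
ROW W1 (the network of an edge weight, 60-90 lines).
`om wt u v` = weight of the edge u v. `enw` = energy as a sum over the edges (c, v).
* `En_om`: expand om; the first sum gives, for u inner, ∑_c wt c u (x u - x (out c u))^2, the second the same with u, v exchanged.
* `lap_om`: lap (om wt) x u = ∑_c [inn u] wt c u (x u - x (out c u)) + ∑_c ∑_{v ∈ VI} [out c v = u] wt c v (x u - x v).
-/

set_option autoImplicit false

open Classical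

namespace Pool.SX.Sch

variable {V F : Type} [Fintype V] [Fintype F] (s : Sch V F)

/-- the symmetric weight function of the edge weights `wt c v` (edge `v → out c v`) -/
noncomputable def om (wt : Fin 3 → V → ℝ) (u v : V) : ℝ :=
  (∑ c, if s.inn u ∧ v = s.out c u then wt c u else 0) +
    ∑ c, if s.inn v ∧ u = s.out c v then wt c v else 0

/-- the energy -/
noncomputable def enw (wt : Fin 3 → V → ℝ) (x : V → ℝ) : ℝ :=
  ∑ c, ∑ v ∈ s.VI, wt c v * (x v - x (s.out c v)) ^ 2

theorem W1_fin : ∀ c c' : Fin 3, c' = c ∨ c' = c + 1 ∨ c' = c + 2 := by decide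

theorem W1_fin2 : ∀ c : Fin 3, c + 1 + 2 = c := by decide

theorem W1_A (wt : Fin 3 → V → ℝ) (u : V) (φ : V → ℝ) :
    ∑ v, (∑ c, if s.inn u ∧ v = s.out c u then wt c u else 0) * φ v =
      ∑ c, if s.inn u then wt c u * φ (s.out c u) else 0 := by
  simp only [Finset.sum_mul]
  rw [Finset.sum_comm]
  refine Finset.sum_congr rfl fun c _ => ?_
  by_cases hu : s.inn u
  · simp only [hu, true_and, if_true, ite_mul, zero_mul]
    rw [Finset.sum_ite_eq']
    simp
  · simp only [hu, false_and, if_false, zero_mul, Finset.sum_const_zero]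

theorem om_symm (wt : Fin 3 → V → ℝ) (u v : V) : s.om wt u v = s.om wt v u := by
  unfold om
  exact add_comm _ _

theorem om_nonneg (wt : Fin 3 → V → ℝ) (h : ∀ c v, s.inn v → 0 ≤ wt c v) (u v : V) :
    0 ≤ s.om wt u v := by
  unfold om
  refine add_nonneg (Finset.sum_nonneg fun c _ => ?_) (Finset.sum_nonneg fun c _ => ?_)
  · split_ifs with h1
    · exact h c u h1.1
    · exact le_rfl
  · split_ifs with h1
    · exact h c v h1.1
    · exact le_rfl

theorem om_edge (wt : Fin 3 → V → ℝ) (u v : V) (h : s.om wt u v ≠ 0) : s.Edge u v := by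
  by_contra hE
  apply h
  unfold om
  rw [Finset.sum_eq_zero, Finset.sum_eq_zero, add_zero]
  · intro c _
    exact if_neg fun h1 => hE (Or.inr ⟨c, h1⟩)
  · intro c _
    exact if_neg fun h1 => hE (Or.inl ⟨c, h1⟩)

theorem le_om (wt : Fin 3 → V → ℝ) (h : ∀ c v, s.inn v → 0 ≤ wt c v) (c : Fin 3) (v : V)
    (hv : s.inn v) : wt c v ≤ s.om wt v (s.out c v) := by
  have h1 : wt c v ≤ ∑ c', if s.inn v ∧ s.out c v = s.out c' v then wt c' v else 0 := by
    have h2 := Finset.single_le_sum (s := (Finset.univ : Finset (Fin 3)))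
      (f := fun c' => if s.inn v ∧ s.out c v = s.out c' v then wt c' v else 0)
      (fun c' _ => by
        split_ifs with h3
        · exact h c' v hv
        · exact le_rfl) (Finset.mem_univ c)
    simpa [hv] using h2
  have h2 : 0 ≤ ∑ c', if s.inn (s.out c v) ∧ v = s.out c' (s.out c v) then
      wt c' (s.out c v) else 0 := by
    refine Finset.sum_nonneg fun c' _ => ?_
    split_ifs with h3
    · exact h c' _ h3.1
    · exact le_rfl
  unfold om
  linarith

/-- the weight of the edge `v → out c v` is exactly `wt c v` (no multiple edges) -/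
theorem om_out (wt : Fin 3 → V → ℝ) (c : Fin 3) (v : V) (hv : s.inn v) :
    s.om wt v (s.out c v) = wt c v := by
  unfold om
  have h1 : (∑ c', if s.inn v ∧ s.out c v = s.out c' v then wt c' v else 0) = wt c v := by
    rw [Finset.sum_eq_single c]
    · rw [if_pos ⟨hv, rfl⟩]
    · intro c' _ hc
      refine if_neg fun h2 => ?_
      have h3 := (s.out_pot hv c).1
      have h4 := (s.out_pot hv c').2 c (fun e => hc e.symm)
      rw [← h2.2] at h4
      exact lt_asymm h3 h4
    · intro h
      exact absurd (Finset.mem_univ c) h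
  have h2 : (∑ c', if s.inn (s.out c v) ∧ v = s.out c' (s.out c v) then
      wt c' (s.out c v) else 0) = 0 := by
    refine Finset.sum_eq_zero fun c' _ => if_neg ?_
    rintro ⟨hi, he⟩
    have hcc : c' = c ∨ c' = c + 1 ∨ c' = c + 2 := W1_fin c c'
    rcases hcc with rfl | rfl | rfl
    · have h3 := (s.out_pot hv c').1
      have h4 := (s.out_pot hi c').1
      rw [← he] at h4
      exact lt_asymm h3 h4
    · refine s.not_both hi hv (c + 1) he ?_
      rw [W1_fin2 c]
    · exact s.not_both hv hi c rfl he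
  rw [h1, h2, add_zero]

theorem om_congr (wt wt' : Fin 3 → V → ℝ) (u v : V)
    (h1 : ∀ c, s.inn u → v = s.out c u → wt c u = wt' c u)
    (h2 : ∀ c, s.inn v → u = s.out c v → wt c v = wt' c v) : s.om wt u v = s.om wt' u v := by
  unfold om
  congr 1
  · refine Finset.sum_congr rfl fun c _ => ?_
    split_ifs with h3
    · exact h1 c h3.1 h3.2
    · rfl
  · refine Finset.sum_congr rfl fun c _ => ?_
    split_ifs with h3
    · exact h2 c h3.1 h3.2
    · rfl

theorem En_om (wt : Fin 3 → V → ℝ) (x : V → ℝ) : En (s.om wt) x = s.enw wt x := by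
  unfold En
  have h1 : ∀ u v, s.om wt u v * (x u - x v) ^ 2 =
      (∑ c, if s.inn u ∧ v = s.out c u then wt c u else 0) * (x u - x v) ^ 2 +
      (∑ c, if s.inn v ∧ u = s.out c v then wt c v else 0) * (x v - x u) ^ 2 := by
    intro u v
    unfold om
    ring
  have h2 : ∑ u, ∑ v, (∑ c, if s.inn u ∧ v = s.out c u then wt c u else 0) * (x u - x v) ^ 2 =
      s.enw wt x := by
    have h3 : ∀ u, ∑ v, (∑ c, if s.inn u ∧ v = s.out c u then wt c u else 0) *
        (x u - x v) ^ 2 = ∑ c, if s.inn u then wt c u * (x u - x (s.out c u)) ^ 2 else 0 :=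
      fun u => s.W1_A wt u (fun v => (x u - x v) ^ 2)
    simp only [h3]
    rw [Finset.sum_comm]
    unfold enw VI
    refine Finset.sum_congr rfl fun c _ => ?_
    rw [Finset.sum_filter]
  have h4 : ∑ u, ∑ v, (∑ c, if s.inn v ∧ u = s.out c v then wt c v else 0) * (x v - x u) ^ 2 =
      s.enw wt x := by
    rw [Finset.sum_comm]
    exact h2
  simp only [h1, Finset.sum_add_distrib]
  rw [h2, h4]
  ring

theorem lap_om (wt : Fin 3 → V → ℝ) (x : V → ℝ) (u : V) (hu : s.inn u) :
    lap (s.om wt) x u = ∑ c, wt c u * (x u - x (s.out c u)) +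
      ∑ c, ∑ v ∈ s.VI, if s.out c v = u then wt c v * (x u - x v) else 0 := by
  unfold lap
  have h1 : ∀ v, s.om wt u v * (x u - x v) =
      (∑ c, if s.inn u ∧ v = s.out c u then wt c u else 0) * (x u - x v) +
      (∑ c, if s.inn v ∧ u = s.out c v then wt c v else 0) * (x u - x v) := by
    intro v
    unfold om
    ring
  simp only [h1, Finset.sum_add_distrib]
  congr 1
  · rw [s.W1_A wt u (fun v => x u - x v)]
    simp only [hu, if_true]
  · simp only [Finset.sum_mul]
    rw [Finset.sum_comm]
    refine Finset.sum_congr rfl fun c _ => ?_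
    unfold VI
    rw [Finset.sum_filter]
    refine Finset.sum_congr rfl fun v _ => ?_
    by_cases hv : s.inn v
    · by_cases he : u = s.out c v
      · rw [if_pos ⟨hv, he⟩, if_pos hv, if_pos he.symm]
      · rw [if_neg (fun h => he h.2), if_pos hv, if_neg (fun h => he h.symm), zero_mul]
    · rw [if_neg (fun h => hv h.1), if_neg hv, zero_mul]

end Pool.SX.Sch
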