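import Pool.Agent.Lib.MP_9dcace_sx.W3

/-!
ROW W4a (gluing of extensions, 80-120 lines).
Given x1 : V → [0,1] and the extension property of every kid (energy ≤ 4 (τ/12)): x' v := xk v if v ∈ IR (kid k) (xk the extension of x1 for the kid k,
the sets IR (kid k) are disjoint: `IR_kid_disj`, IR ⊆ VR), x' v := x1 v otherwise.
For an edge (c,v) with wk k c v ≠ 0, In c v (kid k): v, out c v ∈ VR (kid k), hence not in IR (kid l), l ≠ k, so x' = xk at both ends.
So enw (wk k) x' = enw (wk k) xk ≤ τ/3, and the sum is ≤ τ.  The leg vertices lp j y i (i ≤ legN) are on a path from y and hence not in any IR (kid k)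
(`IR_kid_sub`), so x' = x1 there.
-/

set_option autoImplicit false

open Classical

namespace Pool.SX.SchS

variable {V F : Type} [Fintype V] [Fintype F] (s : SchS V F)

theorem glue_ext {R : Finset F} {y : V} {τ : ℝ} {wk : Fin 3 → Fin 3 → V → ℝ}
    (hw : ∀ k c v, ¬ s.In c v (s.kid k y R) → wk k c v = 0)
    (he : ∀ k, ∀ x : V → ℝ, (∀ v, 0 ≤ x v ∧ x v ≤ 1) → ∃ x' : V → ℝ,
      (∀ v, 0 ≤ x' v ∧ x' v ≤ 1) ∧ (∀ v, v ∉ s.IR (s.kid k y R) → x' v = x v) ∧
      s.enw (wk k) x' ≤ 4 * (τ / 12))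
    (x1 : V → ℝ) (h1 : ∀ v, 0 ≤ x1 v ∧ x1 v ≤ 1) :
    ∃ x' : V → ℝ, (∀ v, 0 ≤ x' v ∧ x' v ≤ 1) ∧
      (∀ v, (∀ k, v ∉ s.IR (s.kid k y R)) → x' v = x1 v) ∧
      (∀ j v, s.Pth j y v → x' v = x1 v) ∧ ∑ k, s.enw (wk k) x' ≤ τ := by
  choose xk hxk01 hxkoff hxken using fun k => he k x1 h1
  let x' : V → ℝ := fun v => if h : ∃ k, v ∈ s.IR (s.kid k y R) then xk h.choose v else x1 v
  have hin : ∀ k v, v ∈ s.IR (s.kid k y R) → x' v = xk k v := by
    intro k v hv
    have h : ∃ k, v ∈ s.IR (s.kid k y R) := ⟨k, hv⟩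
    have hk : h.choose = k := s.IR_kid_disj h.choose_spec (s.IR_sub_VR hv)
    have h' : x' v = xk h.choose v := dif_pos h
    rw [h', hk]
  have hoff : ∀ v, (∀ k, v ∉ s.IR (s.kid k y R)) → x' v = x1 v := by
    intro v hv
    exact dif_neg (fun h => by
      obtain ⟨k, hk⟩ := h
      exact hv k hk)
  have hVR : ∀ k v, v ∈ s.VR (s.kid k y R) → x' v = xk k v := by
    intro k v hv
    by_cases hv' : v ∈ s.IR (s.kid k y R)
    · exact hin k v hv'
    · rw [hoff v ?_, hxkoff k v hv']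
      intro l hl
      have hlk : l = k := s.IR_kid_disj hl hv
      rw [hlk] at hl
      exact hv' hl
  have hen : ∀ k, s.enw (wk k) x' = s.enw (wk k) (xk k) := by
    intro k
    unfold Sch.enw
    refine Finset.sum_congr rfl fun c _ => Finset.sum_congr rfl fun v _ => ?_
    by_cases hI : s.In c v (s.kid k y R)
    · have h1 : v ∈ s.VR (s.kid k y R) := by
        unfold SchS.VR
        rw [Finset.mem_filter]
        exact ⟨Finset.mem_univ _, s.gL c v, hI.2.1, c + 2, s.tL2 c v hI.1⟩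
      have h2 : s.out c v ∈ s.VR (s.kid k y R) := by
        unfold SchS.VR
        rw [Finset.mem_filter]
        exact ⟨Finset.mem_univ _, s.gL c v, hI.2.1, c, s.tL0 c v hI.1⟩
      rw [hVR k v h1, hVR k _ h2]
    · rw [hw k c v hI, zero_mul, zero_mul]
  refine ⟨x', ?_, hoff, ?_, ?_⟩
  · intro v
    by_cases h : ∃ k, v ∈ s.IR (s.kid k y R)
    · obtain ⟨k, hk⟩ := h
      rw [hin k v hk]
      exact hxk01 k v
    · rw [hoff v (fun k hk => h ⟨k, hk⟩)]
      exact h1 v
  · intro j v hj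
    exact hoff v (fun k hk => (s.IR_kid_sub hk).2 j hj)
  · calc ∑ k, s.enw (wk k) x' ≤ ∑ _k : Fin 3, 4 * (τ / 12) :=
          Finset.sum_le_sum fun k _ => by
            rw [hen k]
            exact hxken k
      _ = τ := by
          rw [Finset.sum_const, Finset.card_univ, Fintype.card_fin, nsmul_eq_mul]
          push_cast
          ring

end Pool.SX.SchS
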