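import Pool.Agent.Lib.MP_9dcace_sx.W3
import Pool.Agent.Lib.MP_9dcace_sx.F5

/-!
ROW W5 (the forests on the tripod, 150-200 lines).
c = the child in question, kid c y R nonempty.  For b : Fin 3 → ℕ (b j = number of the broken edge of leg j, j ≠ c) define
 tm b v := if v = y then (if y ∈ IR R then out c y else y)
           else if v = lp j y i for some j, 0 < i < legN j then (if j ≠ c ∧ i ≤ b j then lp j y (i-1) else lp j y (i+1)) else v
(j and i are determined by v: `leg_meet`, `leg_lt`.)  It is the identity off TT.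
* `leg_zero`: y ∉ IR R and kid c y R nonempty ⟹ legN c y R = 0: some k has S k y disjoint from R (`exists_disj`), k ≠ c, `not_In_of`.
* acyclic: from lp j y i with i > b j (or j = c) the iterates go out to lp j y (legN); otherwise they go down to y and then (if y ∈ IR R) along leg c.
* weights: `wtS_leg`, `om_out`, `om_symm`: for i ≤ b: edge number i-1, for i > b: edge number i; product over 0 < i < m of τ/rho (all edges except number b j) =
  legw j * rho j (b j)  (if legN j = 0: 1).  Leg c and y ∈ IR R: all the m edges: τ^m/∏ rho = τ * legw c.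
* roots: `tm_root_c`: root (lp c y i) = lp c y (legN c) (also for i = 0 in the case y ∉ IR R since then legN c = 0); `tm_root_j`.
The statement packages everything as an existence theorem.
-/

set_option autoImplicit false

open Classical

namespace Pool.SX.SchS

variable {V F : Type} [Fintype V] [Fintype F] (s : SchS V F)

/-- the forests on the tripod -/
noncomputable def W5_tm (R : Finset F) (y : V) (c : Fin 3) (b : Fin 3 → ℕ) (v : V) : V :=
  if v = y then (if y ∈ s.IR R then s.out c y else y)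
  else if h : ∃ p : Fin 3 × ℕ, 0 < p.2 ∧ p.2 < s.legN p.1 y R ∧ v = s.lp p.1 y p.2 then
    (if h.choose.1 ≠ c ∧ h.choose.2 ≤ b h.choose.1 then s.lp h.choose.1 y (h.choose.2 - 1)
      else s.lp h.choose.1 y (h.choose.2 + 1))
  else v

private theorem W5_ne {R : Finset F} {y : V} {j : Fin 3} {i : ℕ} (h0 : 0 < i)
    (h : i ≤ s.legN j y R) : s.lp j y i ≠ y := by
  intro he
  have h1 := s.leg_lt h0 h
  rw [he, s.lp_zero] at h1
  exact lt_irrefl _ h1

private theorem W5_Pth {R : Finset F} {y : V} {j : Fin 3} {i : ℕ} (h : i ≤ s.legN j y R) :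
    s.Pth j y (s.lp j y i) := s.leg_Pth (Nat.zero_le i) h

private theorem W5_coord {R : Finset F} {y : V} {j j' : Fin 3} {i i' : ℕ} (h0 : 0 < i)
    (h : i ≤ s.legN j y R) (h' : i' ≤ s.legN j' y R) (he : s.lp j y i = s.lp j' y i') :
    j = j' ∧ i = i' := by
  by_cases hj : j = j'
  · subst hj
    refine ⟨rfl, ?_⟩
    rcases lt_trichotomy i i' with h1 | h1 | h1
    · have h2 := s.leg_lt h1 h'
      rw [he] at h2
      exact absurd h2 (lt_irrefl _)
    · exact h1
    · have h2 := s.leg_lt h1 h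
      rw [he] at h2
      exact absurd h2 (lt_irrefl _)
  · have h1 := s.W5_Pth h
    have h2 := s.W5_Pth h'
    rw [← he] at h2
    exact absurd (s.leg_meet hj h1 h2) (s.W5_ne h0 h)

private theorem W5_tm_y {R : Finset F} {y : V} {c : Fin 3} {b : Fin 3 → ℕ} :
    s.W5_tm R y c b y = if y ∈ s.IR R then s.out c y else y := by
  rw [W5_tm, if_pos rfl]

private theorem W5_tm_leg {R : Finset F} {y : V} {c : Fin 3} {b : Fin 3 → ℕ} {j : Fin 3} {i : ℕ}
    (h0 : 0 < i) (h : i < s.legN j y R) : s.W5_tm R y c b (s.lp j y i) =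
      if j ≠ c ∧ i ≤ b j then s.lp j y (i - 1) else s.lp j y (i + 1) := by
  have hex : ∃ p : Fin 3 × ℕ, 0 < p.2 ∧ p.2 < s.legN p.1 y R ∧
      s.lp j y i = s.lp p.1 y p.2 := ⟨(j, i), h0, h, rfl⟩
  rw [W5_tm, if_neg (s.W5_ne h0 h.le), dif_pos hex]
  obtain ⟨h1, h2, h3⟩ := hex.choose_spec
  obtain ⟨h4, h5⟩ := s.W5_coord h0 h.le h2.le h3
  rw [← h4, ← h5]

private theorem W5_mem_TT {R : Finset F} {y : V} (hR : s.Reg R) (hy : y ∈ s.VR R) {v : V} :
    v ∈ s.TT R y ↔ (v = y ∧ y ∈ s.IR R) ∨ ∃ j i, 0 < i ∧ i < s.legN j y R ∧ v = s.lp j y i := by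
  rw [TT, Finset.mem_filter]
  constructor
  · rintro ⟨h1, j, h2⟩
    obtain ⟨i, hi, rfl⟩ := s.leg_ret hR hy h2 h1
    rcases Nat.eq_zero_or_pos i with h0 | h0
    · subst h0
      exact Or.inl ⟨rfl, h1⟩
    · exact Or.inr ⟨j, i, h0, hi, rfl⟩
  · rintro (⟨rfl, h⟩ | ⟨j, i, h0, hi, rfl⟩)
    · exact ⟨h, 0, Relation.ReflTransGen.refl⟩
    · exact ⟨s.leg_IR hR h0 hi, j, s.W5_Pth hi.le⟩

private theorem W5_end {R : Finset F} {y : V} (j : Fin 3) :
    s.lp j y (s.legN j y R) ∉ s.TT R y := fun h =>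
  s.leg_end_IR j y R (Finset.mem_filter.1 h).1

private theorem W5_tm_off {R : Finset F} {y : V} (hR : s.Reg R) (hy : y ∈ s.VR R) {c : Fin 3}
    {b : Fin 3 → ℕ} {v : V} (hv : v ∉ s.TT R y) : s.W5_tm R y c b v = v := by
  rw [s.W5_mem_TT hR hy] at hv
  rw [W5_tm]
  by_cases h1 : v = y
  · rw [if_pos h1]
    by_cases h2 : y ∈ s.IR R
    · exact absurd (Or.inl ⟨h1, h2⟩) hv
    · rw [if_neg h2, h1]
  · rw [if_neg h1, dif_neg]
    rintro ⟨p, h2, h3, h4⟩
    exact hv (Or.inr ⟨p.1, p.2, h2, h3, h4⟩)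

private theorem W5_zero {R : Finset F} {y : V} (hR : s.Reg R) (hy : y ∈ s.VR R) {c : Fin 3}
    (hc : (s.kid c y R).Nonempty) (hyI : y ∉ s.IR R) : s.legN c y R = 0 := by
  obtain ⟨k, hk⟩ := s.exists_disj hR hy hyI
  have hkc : c ≠ k := by
    rintro rfl
    obtain ⟨g, hg⟩ := hc
    rw [kid, Finset.mem_inter] at hg
    exact Finset.disjoint_left.1 hk hg.1 hg.2
  by_contra hne
  exact s.not_In_of hkc hk (s.leg_In (Nat.pos_of_ne_zero hne))

/-- the iterates of the vertices of the legs which go up -/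
private theorem W5_up {R : Finset F} {y : V} {c : Fin 3} {b : Fin 3 → ℕ} {j : Fin 3} :
    ∀ (n i : ℕ), 0 < i → i + n = s.legN j y R → (j = c ∨ b j < i) →
      (s.W5_tm R y c b)^[n] (s.lp j y i) = s.lp j y (s.legN j y R)
  | 0, i, _, h, _ => by
    rw [← h]
    rfl
  | n + 1, i, h0, h, hb => by
    rw [Function.iterate_succ_apply, s.W5_tm_leg h0 (by omega), if_neg]
    · exact W5_up n (i + 1) (by omega) (by omega) (hb.imp id fun h => by omega)
    · rintro ⟨h1, h2⟩
      rcases hb with h3 | h3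
      · exact h1 h3
      · omega

private theorem W5_root_y {R : Finset F} {y : V} (hR : s.Reg R) (hy : y ∈ s.VR R) {c : Fin 3}
    (hc : (s.kid c y R).Nonempty) {b : Fin 3 → ℕ} :
    ∃ n, (s.W5_tm R y c b)^[n] y = s.lp c y (s.legN c y R) := by
  by_cases hyI : y ∈ s.IR R
  · have h1 := s.leg_pos (j := c) hyI
    refine ⟨(s.legN c y R - 1) + 1, ?_⟩
    rw [Function.iterate_succ_apply, s.W5_tm_y, if_pos hyI]
    have h2 : s.out c y = s.lp c y 1 := (s.lp_succ c y 0).symm
    rw [h2]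
    exact s.W5_up _ 1 one_pos (by omega) (Or.inl rfl)
  · refine ⟨0, ?_⟩
    rw [s.W5_zero hR hy hc hyI]
    rfl

private theorem W5_down {R : Finset F} {y : V} (hR : s.Reg R) (hy : y ∈ s.VR R) {c : Fin 3}
    (hc : (s.kid c y R).Nonempty) {b : Fin 3 → ℕ} {j : Fin 3} (hj : j ≠ c) :
    ∀ i : ℕ, i ≤ b j → (i = 0 ∨ i < s.legN j y R) →
      ∃ n, (s.W5_tm R y c b)^[n] (s.lp j y i) = s.lp c y (s.legN c y R)
  | 0, _, _ => s.W5_root_y hR hy hc
  | i + 1, h1, h2 => by
    have h3 : i + 1 < s.legN j y R := by omega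
    obtain ⟨n, hn⟩ := W5_down hR hy hc (b := b) hj i (by omega) (Or.inr (by omega))
    refine ⟨n + 1, ?_⟩
    rw [Function.iterate_succ_apply, s.W5_tm_leg (Nat.succ_pos i) h3, if_pos ⟨hj, h1⟩]
    exact hn

/-- the ends of the iterates -/
private theorem W5_iter {R : Finset F} {y : V} (hR : s.Reg R) (hy : y ∈ s.VR R) {c : Fin 3}
    (hc : (s.kid c y R).Nonempty) {b : Fin 3 → ℕ}
    (hb : ∀ j, j ≠ c → b j < s.legN j y R ∨ (s.legN j y R = 0 ∧ b j = 0)) (j : Fin 3) {i : ℕ}
    (hi : i ≤ s.legN j y R) :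
    ∃ n, (s.W5_tm R y c b)^[n] (s.lp j y i) =
      if j ≠ c ∧ b j < i then s.lp j y (s.legN j y R) else s.lp c y (s.legN c y R) := by
  by_cases hj : j = c
  · subst hj
    rw [if_neg (fun h => h.1 rfl)]
    rcases Nat.eq_zero_or_pos i with h0 | h0
    · subst h0
      exact s.W5_root_y hR hy hc
    · exact ⟨s.legN j y R - i, s.W5_up _ i h0 (by omega) (Or.inl rfl)⟩
  · by_cases hbi : b j < i
    · rw [if_pos ⟨hj, hbi⟩]
      exact ⟨s.legN j y R - i, s.W5_up _ i (by omega) (by omega) (Or.inr hbi)⟩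
    · rw [if_neg (fun h => hbi h.2)]
      refine s.W5_down hR hy hc hj i (not_lt.1 hbi) ?_
      rcases hb j hj with h1 | h1
      · exact Or.inr (by omega)
      · exact Or.inl (by omega)

private theorem W5_for {R : Finset F} {y : V} (hR : s.Reg R) (hy : y ∈ s.VR R) {c : Fin 3}
    (hc : (s.kid c y R).Nonempty) {b : Fin 3 → ℕ}
    (hb : ∀ j, j ≠ c → b j < s.legN j y R ∨ (s.legN j y R = 0 ∧ b j = 0)) :
    s.W5_tm R y c b ∈ For (s.TT R y) := by
  rw [For, Finset.mem_filter]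
  refine ⟨Finset.mem_univ _, fun v hv => s.W5_tm_off hR hy hv, fun v => ?_⟩
  by_cases hv : v ∈ s.TT R y
  · have hex : ∃ j i, i ≤ s.legN j y R ∧ v = s.lp j y i := by
      rcases (s.W5_mem_TT hR hy).1 hv with ⟨h1, -⟩ | ⟨j, i, -, h2, h3⟩
      · exact ⟨c, 0, Nat.zero_le _, h1⟩
      · exact ⟨j, i, h2.le, h3⟩
    obtain ⟨j, i, hi, rfl⟩ := hex
    obtain ⟨n, hn⟩ := s.W5_iter hR hy hc hb j hi
    refine ⟨n, ?_⟩
    rw [hn]
    split_ifs
    · exact s.W5_end j
    · exact s.W5_end c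
  · exact ⟨0, hv⟩

omit [Fintype F] in
private theorem W5_root_iter {I : Finset V} {π : V → V} (h : π ∈ For I) (v : V) :
    ∀ n : ℕ, root π (π^[n] v) = root π v
  | 0 => rfl
  | n + 1 => by
    rw [Function.iterate_succ_apply', root_step I π h, W5_root_iter h v n]

private theorem W5_root {R : Finset F} {y : V} (hR : s.Reg R) (hy : y ∈ s.VR R) {c : Fin 3}
    (hc : (s.kid c y R).Nonempty) {b : Fin 3 → ℕ}
    (hb : ∀ j, j ≠ c → b j < s.legN j y R ∨ (s.legN j y R = 0 ∧ b j = 0)) (j : Fin 3) {i : ℕ}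
    (hi : i ≤ s.legN j y R) :
    root (s.W5_tm R y c b) (s.lp j y i) =
      if j ≠ c ∧ b j < i then s.lp j y (s.legN j y R) else s.lp c y (s.legN c y R) := by
  obtain ⟨n, hn⟩ := s.W5_iter hR hy hc hb j hi
  have hF := s.W5_for hR hy hc hb
  rw [← W5_root_iter hF (s.lp j y i) n, hn]
  refine root_of_not_mem _ _ hF _ ?_
  split_ifs
  · exact s.W5_end j
  · exact s.W5_end c

/-- a product over the tripod -/
private theorem W5_prod {R : Finset F} {y : V} (hR : s.Reg R) (hy : y ∈ s.VR R) (g : V → ℝ) :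
    ∏ v ∈ s.TT R y, g v = (if y ∈ s.IR R then g y else 1) *
      ∏ j, ∏ i ∈ Finset.Ico 1 (s.legN j y R), g (s.lp j y i) := by
  have hTT : s.TT R y = (if y ∈ s.IR R then {y} else ∅) ∪
      Finset.univ.biUnion fun j => (Finset.Ico 1 (s.legN j y R)).image (s.lp j y) := by
    ext v
    rw [s.W5_mem_TT hR hy, Finset.mem_union, Finset.mem_biUnion]
    constructor
    · rintro (⟨h1, h2⟩ | ⟨j, i, h0, h1, h2⟩)
      · left
        rw [if_pos h2, Finset.mem_singleton]
        exact h1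
      · right
        exact ⟨j, Finset.mem_univ j, Finset.mem_image.2 ⟨i, Finset.mem_Ico.2 ⟨h0, h1⟩, h2.symm⟩⟩
    · rintro (h1 | ⟨j, -, h1⟩)
      · left
        split_ifs at h1 with h2
        · exact ⟨Finset.mem_singleton.1 h1, h2⟩
        · exact absurd h1 (Finset.notMem_empty _)
      · right
        obtain ⟨i, h2, h3⟩ := Finset.mem_image.1 h1
        rw [Finset.mem_Ico] at h2
        exact ⟨j, i, h2.1, h2.2, h3.symm⟩
  rw [hTT, Finset.prod_union, Finset.prod_biUnion]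
  · congr 1
    · split_ifs
      · rw [Finset.prod_singleton]
      · rw [Finset.prod_empty]
    · refine Finset.prod_congr rfl fun j _ => ?_
      rw [Finset.prod_image]
      intro i hi i' hi' he
      rw [Finset.coe_Ico, Set.mem_Ico] at hi hi'
      exact (s.W5_coord hi.1 hi.2.le hi'.2.le he).2
  · intro j _ j' _ hjj
    refine Finset.disjoint_left.2 fun v hv hv' => ?_
    obtain ⟨i, hi, rfl⟩ := Finset.mem_image.1 hv
    obtain ⟨i', hi', he⟩ := Finset.mem_image.1 hv'
    rw [Finset.mem_Ico] at hi hi'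
    exact hjj (s.W5_coord hi.1 hi.2.le hi'.2.le he.symm).1
  · refine Finset.disjoint_left.2 fun v hv hv' => ?_
    have hvy : v = y := by
      split_ifs at hv with h2
      · exact Finset.mem_singleton.1 hv
      · exact absurd hv (Finset.notMem_empty _)
    obtain ⟨j, -, h1⟩ := Finset.mem_biUnion.1 hv'
    obtain ⟨i, h2, h3⟩ := Finset.mem_image.1 h1
    rw [Finset.mem_Ico] at h2
    exact s.W5_ne h2.1 h2.2.le (h3.trans hvy)

/-- the product of the weights with one edge missing -/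
private theorem W5_real {m : ℕ} {τ : ℝ} {ρ : ℕ → ℝ} (hρ : ∀ i, i < m → 0 < ρ i) {b : ℕ}
    (hb : b < m) : ∏ i ∈ Finset.Ico 1 m, (if i ≤ b then τ / ρ (i - 1) else τ / ρ i) =
      τ ^ (m - 1) / (∏ i ∈ Finset.range m, ρ i) * ρ b := by
  have h1 : ∏ i ∈ Finset.Ico 1 m, (if i ≤ b then τ / ρ (i - 1) else τ / ρ i) =
      (∏ i ∈ Finset.range b, τ / ρ i) * ∏ i ∈ Finset.Ico (b + 1) m, τ / ρ i := by
    rw [← Finset.prod_Ico_consecutive _ (Nat.succ_le_succ (Nat.zero_le b)) (Nat.succ_le_of_lt hb)]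
    congr 1
    · rw [Finset.prod_Ico_eq_prod_range]
      refine Finset.prod_congr rfl fun i hi => ?_
      rw [Finset.mem_range] at hi
      rw [if_pos (by omega), Nat.add_sub_cancel_left]
    · refine Finset.prod_congr rfl fun i hi => ?_
      rw [Finset.mem_Ico] at hi
      rw [if_neg (by omega)]
  have h2 : (∏ i ∈ Finset.range m, ρ i) =
      (∏ i ∈ Finset.range b, ρ i) * ρ b * ∏ i ∈ Finset.Ico (b + 1) m, ρ i := by
    rw [← Finset.prod_range_succ, Finset.prod_range_mul_prod_Ico _ (Nat.succ_le_of_lt hb)]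
  have h3 : (∏ i ∈ Finset.range b, ρ i) ≠ 0 := Finset.prod_ne_zero_iff.2 fun i hi =>
    (hρ i ((Finset.mem_range.1 hi).trans hb)).ne'
  have h4 : (∏ i ∈ Finset.Ico (b + 1) m, ρ i) ≠ 0 := Finset.prod_ne_zero_iff.2 fun i hi =>
    (hρ i (Finset.mem_Ico.1 hi).2).ne'
  have h5 : ρ b ≠ 0 := (hρ b hb).ne'
  have h6 : τ ^ (m - 1) = τ ^ b * τ ^ (m - (b + 1)) := by
    rw [← pow_add]
    congr 1
    omega
  rw [h1, h2, Finset.prod_div_distrib, Finset.prod_div_distrib, Finset.prod_const,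
    Finset.prod_const, Finset.card_range, Nat.card_Ico, h6]
  field_simp

private theorem W5_weight {R : Finset F} {y : V} (hR : s.Reg R) (hy : y ∈ s.VR R) {τ : ℝ}
    (wk : Fin 3 → Fin 3 → V → ℝ) {c : Fin 3} (hc : (s.kid c y R).Nonempty) {b : Fin 3 → ℕ}
    (hb : ∀ j, j ≠ c → b j < s.legN j y R ∨ (s.legN j y R = 0 ∧ b j = 0)) :
    WF (s.om (s.wtS R y τ wk)) (s.TT R y) (s.W5_tm R y c b) =
      s.wT R y τ * ∏ j, (if j = c ∨ s.legN j y R = 0 then 1 else s.rho R y j (b j)) := by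
  have hup : ∀ j i, i < s.legN j y R →
      s.om (s.wtS R y τ wk) (s.lp j y i) (s.lp j y (i + 1)) = τ / s.rho R y j i := by
    intro j i hi
    rw [s.lp_succ, s.om_out _ _ _ (s.leg_In hi).1, s.wtS_leg hi]
  have hdown : ∀ j i, 0 < i → i ≤ s.legN j y R →
      s.om (s.wtS R y τ wk) (s.lp j y i) (s.lp j y (i - 1)) = τ / s.rho R y j (i - 1) := by
    intro j i h0 hi
    rw [s.om_symm]
    have h1 := hup j (i - 1) (by omega)
    rwa [Nat.sub_add_cancel h0] at h1
  have hcase : ∀ j, j ≠ c → ∏ i ∈ Finset.Ico 1 (s.legN j y R),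
      s.om (s.wtS R y τ wk) (s.lp j y i) (s.W5_tm R y c b (s.lp j y i)) =
      s.legw R y τ j * (if j = c ∨ s.legN j y R = 0 then 1 else s.rho R y j (b j)) := by
    intro j hj
    by_cases hm : s.legN j y R = 0
    · rw [legw, hm, if_pos rfl, if_pos (Or.inr rfl)]
      simp
    · have hbj : b j < s.legN j y R := by
        rcases hb j hj with h | h
        · exact h
        · exact absurd h.1 hm
      rw [legw, if_neg hm, if_neg (by rintro (h | h); exacts [hj h, hm h]),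
        ← W5_real (fun i hi => s.rho_pos hR hy hi) hbj]
      refine Finset.prod_congr rfl fun i hi => ?_
      rw [Finset.mem_Ico] at hi
      rw [s.W5_tm_leg hi.1 hi.2]
      by_cases hib : i ≤ b j
      · rw [if_pos ⟨hj, hib⟩, if_pos hib, hdown j i hi.1 hi.2.le]
      · rw [if_neg (fun h => hib h.2), if_neg hib, hup j i hi.2]
  have hlegc : (if y ∈ s.IR R then
        s.om (s.wtS R y τ wk) y (s.W5_tm R y c b y) else 1) *
      ∏ i ∈ Finset.Ico 1 (s.legN c y R),
        s.om (s.wtS R y τ wk) (s.lp c y i) (s.W5_tm R y c b (s.lp c y i)) =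
      (if y ∈ s.IR R then τ else 1) * s.legw R y τ c := by
    by_cases hyI : y ∈ s.IR R
    · have hm : 0 < s.legN c y R := s.leg_pos hyI
      have h1 : s.om (s.wtS R y τ wk) y (s.W5_tm R y c b y) = τ / s.rho R y c 0 := by
        rw [s.W5_tm_y, if_pos hyI]
        exact hup c 0 hm
      have h2 : ∏ i ∈ Finset.Ico 1 (s.legN c y R),
          s.om (s.wtS R y τ wk) (s.lp c y i) (s.W5_tm R y c b (s.lp c y i)) =
          ∏ i ∈ Finset.Ico 1 (s.legN c y R), τ / s.rho R y c i := by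
        refine Finset.prod_congr rfl fun i hi => ?_
        rw [Finset.mem_Ico] at hi
        rw [s.W5_tm_leg hi.1 hi.2, if_neg (fun h => h.1 rfl), hup c i hi.2]
      rw [if_pos hyI, if_pos hyI, h1, h2, legw, if_neg hm.ne']
      have h3 : τ / s.rho R y c 0 * ∏ i ∈ Finset.Ico 1 (s.legN c y R), τ / s.rho R y c i =
          ∏ i ∈ Finset.range (s.legN c y R), τ / s.rho R y c i := by
        rw [Finset.range_eq_Ico, Finset.prod_eq_prod_Ico_succ_bot hm]
      rw [h3, Finset.prod_div_distrib, Finset.prod_const, Finset.card_range, ← mul_div_assoc,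
        ← pow_succ', Nat.sub_add_cancel hm]
    · rw [if_neg hyI, if_neg hyI, legw, s.W5_zero hR hy hc hyI]
      simp
  rw [WF, s.W5_prod hR hy, wT, ← Finset.mul_prod_erase Finset.univ _ (Finset.mem_univ c),
    ← mul_assoc, hlegc, ← Finset.mul_prod_erase Finset.univ (s.legw R y τ) (Finset.mem_univ c),
    ← Finset.mul_prod_erase Finset.univ (fun j => if j = c ∨ s.legN j y R = 0 then (1 : ℝ)
      else s.rho R y j (b j)) (Finset.mem_univ c), if_pos (Or.inl rfl), one_mul, mul_assoc,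
    mul_assoc, mul_assoc, ← Finset.prod_mul_distrib]
  congr 2
  exact Finset.prod_congr rfl fun j hj => hcase j (Finset.mem_erase.1 hj).1

theorem exists_tm {R : Finset F} {y : V} (hR : s.Reg R) (hy : y ∈ s.VR R) {τ : ℝ} (hτ : 0 < τ)
    (wk : Fin 3 → Fin 3 → V → ℝ) (c : Fin 3) (hc : (s.kid c y R).Nonempty) :
    ∃ tm : (Fin 3 → ℕ) → V → V,
      (∀ b, (∀ j, j ≠ c → b j < s.legN j y R ∨ (s.legN j y R = 0 ∧ b j = 0)) →
        tm b ∈ For (s.TT R y) ∧
        (∀ v ∈ s.TT R y, ∃ j, s.Pth j y (tm b v)) ∧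
        WF (s.om (s.wtS R y τ wk)) (s.TT R y) (tm b) =
          s.wT R y τ * ∏ j, (if j = c ∨ s.legN j y R = 0 then 1 else s.rho R y j (b j)) ∧
        (∀ v, v ∉ s.TT R y → root (tm b) v = v) ∧
        (∀ i, i ≤ s.legN c y R → root (tm b) (s.lp c y i) = s.lp c y (s.legN c y R)) ∧
        (∀ j, j ≠ c → ∀ i, i ≤ s.legN j y R → root (tm b) (s.lp j y i) =
          if b j < i then s.lp j y (s.legN j y R) else s.lp c y (s.legN c y R))) ∧
      (∀ b b', (∀ j, j ≠ c → b j < s.legN j y R ∨ (s.legN j y R = 0 ∧ b j = 0)) →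
        (∀ j, j ≠ c → b' j < s.legN j y R ∨ (s.legN j y R = 0 ∧ b' j = 0)) →
        tm b = tm b' → ∀ j, j ≠ c → b j = b' j) := by
  refine ⟨s.W5_tm R y c, fun b hb => ?_, fun b b' hb hb' he j hj => ?_⟩
  · refine ⟨s.W5_for hR hy hc hb, fun v hv => ?_, s.W5_weight hR hy wk hc hb,
      fun v hv => root_of_not_mem _ _ (s.W5_for hR hy hc hb) v hv, fun i hi => ?_,
      fun j hj i hi => ?_⟩
    · rcases (s.W5_mem_TT hR hy).1 hv with ⟨rfl, h2⟩ | ⟨j, i, h0, h1, rfl⟩
      · rw [s.W5_tm_y, if_pos h2]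
        exact ⟨c, s.W5_Pth (R := R) (i := 1) (s.leg_pos h2)⟩
      · rw [s.W5_tm_leg h0 h1]
        split_ifs
        · exact ⟨j, s.W5_Pth (R := R) (by omega)⟩
        · exact ⟨j, s.W5_Pth (R := R) (by omega)⟩
    · rw [s.W5_root hR hy hc hb c hi, if_neg (fun h => h.1 rfl)]
    · rw [s.W5_root hR hy hc hb j hi]
      by_cases hbi : b j < i
      · rw [if_pos ⟨hj, hbi⟩, if_pos hbi]
      · rw [if_neg (fun h => hbi h.2), if_neg hbi]
  · have key : ∀ b b' : Fin 3 → ℕ, (∀ j, j ≠ c → b' j < s.legN j y R ∨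
        (s.legN j y R = 0 ∧ b' j = 0)) → s.W5_tm R y c b = s.W5_tm R y c b' → ¬ b j < b' j := by
      intro b b' hb' he hlt
      have h1 : b' j < s.legN j y R := by
        rcases hb' j hj with h | h
        · exact h
        · omega
      have h2 := congrFun he (s.lp j y (b' j))
      rw [s.W5_tm_leg (by omega) h1, s.W5_tm_leg (by omega) h1, if_neg (fun h => by omega),
        if_pos ⟨hj, le_rfl⟩] at h2
      have h3 := (s.W5_coord (Nat.succ_pos _) (Nat.succ_le_of_lt h1)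
        (by omega : b' j - 1 ≤ s.legN j y R) h2).2
      omega
    have h1 := key b b' hb' he
    have h2 := key b' b hb he.symm
    omega

end Pool.SX.SchS
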