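import Pool.Agent.Lib.MP_9dcace_sx.W4c
import Pool.Agent.Lib.MP_9dcace_sx.W5
import Pool.Agent.Lib.MP_9dcace_sx.W6a
import Pool.Agent.Lib.MP_9dcace_sx.R7
import Pool.Agent.Lib.MP_9dcace_sx.F6

/-!
ROW W6 (lower bound for N, 150-220 lines).
wt = wtS R y τ wk, R' = kid c y R, f ∈ R', P = ∏_{k ≠ c} DF (om (wk k)) (IR (kid k)), j = c+1, l = c+2, tm from W5.
(1) NR wt R f ≥ ∑_{g ∈ R'^3} ZF (om wt) (IR R) (chi R g) f  (`Finset.sum_le_sum_of_subset_of_nonneg`, ZF ≥ 0).
(2) B j' := if legN j' = 0 then {0} else range (legN j').  For (i, i') ∈ B j × B l let b := the function with b j = i, b l = i', b c = 0.  The maps tm b are pairwise different, so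
    `ZF_comp` with T = TT, J = union of the IR (kid k) (IR_eq, TT_disj; tm b v is on a path, hence not in J) gives
    ZF (IR R) (chi R g) ≥ ∑_{i,i'} WF (tm b) ZF J (chi R g ∘ root (tm b)).
(3) `ZF_union` twice (no edges between kids; the vertices t j f are in VR R', so not in IR (kid k), k ≠ c): ZF J χ = ZF (IR R') χ * P; om wt may be replaced by om (wk c)
    on IR R' (`om_wtS`, ZF_congr) and by om (wk k) on IR (kid k) (DF_congr).
(4) WF (tm b) = wT * (ρ_j i) * (ρ_l i') with ρ := rho R y j i if legN j > 0 and 1 if legN j = 0.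
(5) Φ(g_l, g_j, i, i') := ZF (om (wk c)) (IR R') (chi R g ∘ root (tm b)) f, Ψ(g'_l, g'_j) := ZF (om (wk c)) (IR R') (chi R' g') f (g_c = g'_c fixed).
    By `colour` (R7) and `ZF_chi` with B = VR R' \ IR R': Φ = Ψ whenever LabRel holds for both pairs.  `sum_label2` with H1 = HH R y j c (label l, leg j), C1 = CC R y j c,
    H2 = HH R y l c (label j, leg l), C2 = CC R y l c (W2: exists_CC, HH_zero, rho_cnt, rho_sum; if legN = 0 then H = ∅, B = {0}, ρ = 1, C = ∅).
(6) sum over g_c ∈ R' and recognise NR (wk c) R' f (sum over Fintype.piFinset of Fin 3 = triple sum; be careful with the order of the indices: use the equivalence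
    (Fin 3 → F) ≃ F × F × F given by (g c, g (c+2), g (c+1)), e.g. via `Fintype.piFinset` sums and `Function.update`).
-/

set_option autoImplicit false

open Classical

namespace Pool.SX.SchS

variable {V F : Type} [Fintype V] [Fintype F] (s : SchS V F)

private theorem W6_e1 : ∀ c : Fin 3, c + 1 ≠ c := by decide
private theorem W6_e2 : ∀ c : Fin 3, c + 2 ≠ c := by decide
private theorem W6_e3 : ∀ c : Fin 3, c + 1 ≠ c + 2 := by decide
private theorem W6_cases : ∀ c k : Fin 3, k = c ∨ k = c + 1 ∨ k = c + 2 := by decide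
private theorem W6_erase : ∀ c : Fin 3, (Finset.univ.erase c : Finset (Fin 3)) = {c + 1, c + 2} := by
  decide

private theorem W6_prod (c : Fin 3) (f : Fin 3 → ℝ) : ∏ k, f k = f c * (f (c + 1) * f (c + 2)) := by
  rw [← Finset.mul_prod_erase Finset.univ f (Finset.mem_univ c), W6_erase,
    Finset.prod_pair (W6_e3 c)]

/-- the triple with given values at `c`, `c + 2`, `c + 1` -/
private noncomputable def W6_G (c : Fin 3) (a x z : F) : Fin 3 → F :=
  fun k => if k = c then a else if k = c + 2 then x else z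

private theorem W6_G0 (c : Fin 3) (a x z : F) : W6_G c a x z c = a := by
  rw [W6_G, if_pos rfl]

private theorem W6_G2 (c : Fin 3) (a x z : F) : W6_G c a x z (c + 2) = x := by
  rw [W6_G, if_neg (W6_e2 c), if_pos rfl]

private theorem W6_G1 (c : Fin 3) (a x z : F) : W6_G c a x z (c + 1) = z := by
  rw [W6_G, if_neg (W6_e1 c), if_neg (W6_e3 c)]

private theorem W6_G_mem {Q : Finset F} (c : Fin 3) {a x z : F} (ha : a ∈ Q) (hx : x ∈ Q)
    (hz : z ∈ Q) (k : Fin 3) : W6_G c a x z k ∈ Q := by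
  unfold W6_G
  split_ifs
  · exact ha
  · exact hx
  · exact hz

private theorem W6_sum (c : Fin 3) (Q : Finset F) (Φ : (Fin 3 → F) → ℝ) :
    ∑ g ∈ Fintype.piFinset (fun _ : Fin 3 => Q), Φ g =
      ∑ a ∈ Q, ∑ x ∈ Q, ∑ z ∈ Q, Φ (W6_G c a x z) := by
  have h1 : ∑ a ∈ Q, ∑ x ∈ Q, ∑ z ∈ Q, Φ (W6_G c a x z) =
      ∑ q ∈ Q ×ˢ (Q ×ˢ Q), Φ (W6_G c q.1 q.2.1 q.2.2) := by
    rw [Finset.sum_product]
    refine Finset.sum_congr rfl fun a _ => ?_
    rw [Finset.sum_product]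
  rw [h1]
  refine Finset.sum_bij' (fun g _ => (g c, g (c + 2), g (c + 1)))
    (fun q _ => W6_G c q.1 q.2.1 q.2.2) ?_ ?_ ?_ ?_ ?_
  · intro g hg
    rw [Fintype.mem_piFinset] at hg
    rw [Finset.mem_product, Finset.mem_product]
    exact ⟨hg _, hg _, hg _⟩
  · intro q hq
    rw [Finset.mem_product, Finset.mem_product] at hq
    rw [Fintype.mem_piFinset]
    exact W6_G_mem c hq.1 hq.2.1 hq.2.2
  · intro g _
    funext k
    rcases W6_cases c k with h | h | h
    · rw [h]; exact W6_G0 c _ _ _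
    · rw [h]; exact W6_G1 c _ _ _
    · rw [h]; exact W6_G2 c _ _ _
  · intro q _
    show (W6_G c q.1 q.2.1 q.2.2 c, W6_G c q.1 q.2.1 q.2.2 (c + 2),
      W6_G c q.1 q.2.1 q.2.2 (c + 1)) = q
    rw [W6_G0, W6_G1, W6_G2]
  · intro g _
    congr 1
    funext k
    rcases W6_cases c k with h | h | h
    · rw [h]; exact (W6_G0 c _ _ _).symm
    · rw [h]; exact (W6_G1 c _ _ _).symm
    · rw [h]; exact (W6_G2 c _ _ _).symm

private theorem W6_ZF_nonneg (om : V → V → ℝ) (h0 : ∀ u v, 0 ≤ om u v) (I : Finset V)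
    (χ : V → Fin 3) (p : Fin 3 → V) : 0 ≤ ZF om I χ p :=
  Finset.sum_nonneg fun _ _ => Finset.prod_nonneg fun _ _ => h0 _ _

/-- the numbers of the broken edges -/
private noncomputable def W6_B (R : Finset F) (y : V) (j : Fin 3) : Finset ℕ :=
  if s.legN j y R = 0 then {0} else Finset.range (s.legN j y R)

private noncomputable def W6_C (R : Finset F) (y : V) (c j : Fin 3) (i : ℕ) : Finset F :=
  if s.legN j y R = 0 then ∅ else s.CC R y j c i

private noncomputable def W6_rho (R : Finset F) (y : V) (j : Fin 3) (i : ℕ) : ℝ :=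
  if s.legN j y R = 0 then 1 else s.rho R y j i

private theorem W6_leg {R : Finset F} {y : V} (hR : s.Reg R) (hy : y ∈ s.VR R) {c j : Fin 3}
    (hj : c ≠ j) :
    (∀ i ∈ s.W6_B R y j, s.W6_C R y c j i ⊆ s.HH R y j c) ∧
    (∀ h ∈ s.HH R y j c, ∃! i, i ∈ s.W6_B R y j ∧ h ∈ s.W6_C R y c j i) ∧
    (∀ i ∈ s.W6_B R y j, 0 ≤ s.W6_rho R y j i) ∧
    ∑ i ∈ s.W6_B R y j, s.W6_rho R y j i = 1 ∧
    (∀ i ∈ s.W6_B R y j, ((s.W6_C R y c j i).card : ℝ) ≤
      2 * s.W6_rho R y j i * ((s.HH R y j c).card : ℝ)) ∧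
    (∀ i ∈ s.W6_B R y j, i < s.legN j y R ∨ (s.legN j y R = 0 ∧ i = 0)) ∧
    (∀ i, s.W6_C R y c j i ⊆ s.CC R y j c i) := by
  by_cases h0 : s.legN j y R = 0
  · have hH : s.HH R y j c = ∅ := s.HH_zero hj h0
    have hB : s.W6_B R y j = {0} := if_pos h0
    have hC : ∀ i, s.W6_C R y c j i = ∅ := fun i => if_pos h0
    have hρ : ∀ i, s.W6_rho R y j i = 1 := fun i => if_pos h0
    refine ⟨fun i _ => ?_, fun h hh => ?_, fun i _ => ?_, ?_, fun i _ => ?_, fun i hi => ?_,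
      fun i => ?_⟩
    · rw [hC]; exact Finset.empty_subset _
    · rw [hH] at hh
      exact absurd hh (Finset.notMem_empty _)
    · rw [hρ]; exact zero_le_one
    · rw [hB, Finset.sum_singleton, hρ]
    · rw [hC, hH]; simp
    · rw [hB, Finset.mem_singleton] at hi
      exact Or.inr ⟨h0, hi⟩
    · rw [hC]; exact Finset.empty_subset _
  · have hB : s.W6_B R y j = Finset.range (s.legN j y R) := if_neg h0
    have hC : ∀ i, s.W6_C R y c j i = s.CC R y j c i := fun i => if_neg h0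
    have hρ : ∀ i, s.W6_rho R y j i = s.rho R y j i := fun i => if_neg h0
    refine ⟨fun i hi => ?_, fun h hh => ?_, fun i hi => ?_, ?_, fun i hi => ?_, fun i hi => ?_,
      fun i => ?_⟩
    · rw [hB, Finset.mem_range] at hi
      rw [hC]
      exact s.CC_sub hj hi
    · obtain ⟨i, hi, hu⟩ := s.exists_CC hj hh
      refine ⟨i, ?_, fun i' hi' => hu i' ?_⟩
      · simp only [hB, hC, Finset.mem_range]
        exact hi
      · simp only [hB, hC, Finset.mem_range] at hi'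
        exact hi'
    · rw [hB, Finset.mem_range] at hi
      rw [hρ]
      exact (s.rho_pos hR hy hi).le
    · rw [hB]
      simp only [hρ]
      exact s.rho_sum hR hy (Nat.pos_of_ne_zero h0)
    · rw [hB, Finset.mem_range] at hi
      rw [hC, hρ]
      exact s.rho_cnt hj hi
    · rw [hB, Finset.mem_range] at hi
      exact Or.inl hi
    · rw [hC]

private theorem W6_rho_nonneg (R : Finset F) (y : V) (j : Fin 3) (i : ℕ) :
    0 ≤ s.rho R y j i := by
  unfold rho
  positivity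

private theorem W6_wT_nonneg (R : Finset F) (y : V) {τ : ℝ} (hτ : 0 < τ) :
    0 ≤ s.wT R y τ := by
  unfold wT
  refine mul_nonneg ?_ (Finset.prod_nonneg fun j _ => ?_)
  · split_ifs
    · exact hτ.le
    · exact zero_le_one
  · unfold legw
    split_ifs
    · exact zero_le_one
    · exact div_nonneg (pow_nonneg hτ.le _)
        (Finset.prod_nonneg fun i _ => s.W6_rho_nonneg R y j i)

private theorem W6_wtS_nonneg {R : Finset F} {y : V} {τ : ℝ} (hτ : 0 < τ)
    {wk : Fin 3 → Fin 3 → V → ℝ} (hwk : ∀ k c v, 0 ≤ wk k c v) (c : Fin 3) (v : V) :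
    0 ≤ s.wtS R y τ wk c v := by
  unfold wtS
  split_ifs
  · exact div_nonneg hτ.le (s.W6_rho_nonneg R y c _)
  · exact Finset.sum_nonneg fun k _ => hwk k c v

private theorem W6_no_edge {R : Finset F} {y : V} (wt : Fin 3 → V → ℝ) {k l : Fin 3}
    (hkl : k ≠ l) {u v : V} (hu : u ∈ s.IR (s.kid k y R)) (hv : v ∈ s.IR (s.kid l y R)) :
    s.om wt u v = 0 := by
  by_contra h
  have h1 := s.no_edge (k := 0) hu (s.om_edge wt u v h)
  exact hkl (s.IR_kid_disj hv h1).symm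

/-- the function `ZF` of the union of the kids -/
private theorem W6_kids {R : Finset F} {y : V} {τ : ℝ} {wk : Fin 3 → Fin 3 → V → ℝ}
    (hw : ∀ k c v, ¬ s.In c v (s.kid k y R) → wk k c v = 0) (c : Fin 3) (χ : V → Fin 3)
    (p : Fin 3 → V) (hp : ∀ j, p j ∈ s.VR (s.kid c y R)) :
    ZF (s.om (s.wtS R y τ wk))
        (s.IR (s.kid 0 y R) ∪ s.IR (s.kid 1 y R) ∪ s.IR (s.kid 2 y R)) χ p =
      ZF (s.om (wk c)) (s.IR (s.kid c y R)) χ p *
        ∏ k ∈ Finset.univ.erase c, DF (s.om (wk k)) (s.IR (s.kid k y R)) := by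
  have hset : s.IR (s.kid 0 y R) ∪ s.IR (s.kid 1 y R) ∪ s.IR (s.kid 2 y R) =
      s.IR (s.kid c y R) ∪ (s.IR (s.kid (c + 1) y R) ∪ s.IR (s.kid (c + 2) y R)) := by
    ext v
    simp only [Finset.mem_union]
    have h1 : ((v ∈ s.IR (s.kid 0 y R) ∨ v ∈ s.IR (s.kid 1 y R)) ∨ v ∈ s.IR (s.kid 2 y R)) ↔
        ∃ k, v ∈ s.IR (s.kid k y R) := by
      constructor
      · rintro ((h | h) | h)
        · exact ⟨0, h⟩
        · exact ⟨1, h⟩
        · exact ⟨2, h⟩
      · rintro ⟨k, h⟩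
        fin_cases k
        · exact Or.inl (Or.inl h)
        · exact Or.inl (Or.inr h)
        · exact Or.inr h
    rw [h1]
    constructor
    · rintro ⟨k, h⟩
      rcases W6_cases c k with rfl | rfl | rfl
      · exact Or.inl h
      · exact Or.inr (Or.inl h)
      · exact Or.inr (Or.inr h)
    · rintro (h | h | h)
      · exact ⟨_, h⟩
      · exact ⟨_, h⟩
      · exact ⟨_, h⟩
  have hdis : ∀ k l, k ≠ l → Disjoint (s.IR (s.kid k y R)) (s.IR (s.kid l y R)) := by
    intro k l hkl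
    rw [Finset.disjoint_left]
    intro v h1 h2
    exact hkl (s.IR_kid_disj h1 (s.IR_sub_VR h2))
  have hd1 : Disjoint (s.IR (s.kid c y R))
      (s.IR (s.kid (c + 1) y R) ∪ s.IR (s.kid (c + 2) y R)) := by
    rw [Finset.disjoint_union_right]
    exact ⟨hdis _ _ (W6_e1 c).symm, hdis _ _ (W6_e2 c).symm⟩
  rw [hset, ZF_union _ _ _ hd1 (s.om_symm _) ?_ χ p ?_,
    DF_union _ _ _ (hdis _ _ (W6_e3 c)) (s.om_symm _) ?_, W6_erase,
    Finset.prod_pair (W6_e3 c)]
  · congr 1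
    · exact ZF_congr _ _ _ (fun v hv u => s.om_wtS hw hv u) χ p
    · congr 1
      · exact DF_congr _ _ _ (fun v hv u => s.om_wtS hw hv u)
      · exact DF_congr _ _ _ (fun v hv u => s.om_wtS hw hv u)
  · intro u hu v hv
    exact s.W6_no_edge _ (W6_e3 c) hu hv
  · intro u hu v hv
    rcases Finset.mem_union.1 hv with h | h
    · exact s.W6_no_edge _ (W6_e1 c).symm hu h
    · exact s.W6_no_edge _ (W6_e2 c).symm hu h
  · intro j hj
    rcases Finset.mem_union.1 hj with h | h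
    · exact W6_e1 c (s.IR_kid_disj h (hp j))
    · exact W6_e2 c (s.IR_kid_disj h (hp j))

/-- the numbers of the broken edges as a function -/
private def W6_b (c : Fin 3) (i i' : ℕ) : Fin 3 → ℕ :=
  fun k => if k = c + 1 then i else if k = c + 2 then i' else 0

theorem lower {R : Finset F} {y : V} (hR : s.Reg R) (hy : y ∈ s.VR R) {τ : ℝ} (hτ : 0 < τ)
    {wk : Fin 3 → Fin 3 → V → ℝ}
    (hw : ∀ k c v, ¬ s.In c v (s.kid k y R) → wk k c v = 0)
    (hp : ∀ k c v, s.In c v (s.kid k y R) → 0 < wk k c v) (c : Fin 3) {f : F}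
    (hf : f ∈ s.kid c y R) :
    (1 / 4) * s.wT R y τ *
        (∏ k ∈ Finset.univ.erase c, DF (s.om (wk k)) (s.IR (s.kid k y R))) *
        s.NR (wk c) (s.kid c y R) f ≤ s.NR (s.wtS R y τ wk) R f := by
  have hwk : ∀ k c v, 0 ≤ wk k c v := by
    intro k c v
    by_cases h : s.In c v (s.kid k y R)
    · exact (hp k c v h).le
    · rw [hw k c v h]
  have hom : ∀ u v, 0 ≤ s.om (s.wtS R y τ wk) u v :=
    s.om_nonneg _ (fun c v _ => s.W6_wtS_nonneg hτ hwk c v)
  have homc : ∀ u v, 0 ≤ s.om (wk c) u v := s.om_nonneg _ (fun c' v _ => hwk c c' v)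
  set P : ℝ := ∏ k ∈ Finset.univ.erase c, DF (s.om (wk k)) (s.IR (s.kid k y R)) with hP
  have hP0 : 0 ≤ P := Finset.prod_nonneg fun k _ =>
    DF_nonneg _ (s.om_nonneg _ (fun c' v _ => hwk k c' v)) _
  have hwT := s.W6_wT_nonneg R y hτ
  set R' := s.kid c y R with hR'
  have hR'R : R' ⊆ R := Finset.inter_subset_right
  set pf : Fin 3 → V := fun j => s.t j f with hpf
  have hpV : ∀ j, pf j ∈ s.VR R' := by
    intro j
    rw [VR, Finset.mem_filter]
    exact ⟨Finset.mem_univ _, f, hf, j, rfl⟩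
  obtain ⟨tm, htm, htm_inj⟩ := s.exists_tm hR hy hτ wk c ⟨f, hf⟩
  obtain ⟨a1, a2, a3, a4, a5, a6, a7⟩ := s.W6_leg hR hy (W6_e1 c).symm
  obtain ⟨b1, b2, b3, b4, b5, b6, b7⟩ := s.W6_leg hR hy (W6_e2 c).symm
  set B1 := s.W6_B R y (c + 1) with hB1
  set B2 := s.W6_B R y (c + 2) with hB2
  have hval : ∀ i ∈ B1, ∀ i' ∈ B2, ∀ j, j ≠ c → W6_b c i i' j < s.legN j y R ∨
      (s.legN j y R = 0 ∧ W6_b c i i' j = 0) := by
    intro i hi i' hi' j hj
    rcases W6_cases c j with h | h | h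
    · exact absurd h hj
    · rw [h]
      have e : W6_b c i i' (c + 1) = i := if_pos rfl
      rw [e]
      exact a6 i hi
    · rw [h]
      have e : W6_b c i i' (c + 2) = i' := by
        rw [W6_b, if_neg (W6_e3 c).symm, if_pos rfl]
      rw [e]
      exact b6 i' hi'
  -- step 2 and 3
  have step2 : ∀ g : Fin 3 → F,
      ∑ i ∈ B1, ∑ i' ∈ B2, s.wT R y τ * P * (s.W6_rho R y (c + 1) i * s.W6_rho R y (c + 2) i' *
        ZF (s.om (wk c)) (s.IR R') (fun v => s.chi R g (root (tm (W6_b c i i')) v)) pf) ≤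
      ZF (s.om (s.wtS R y τ wk)) (s.IR R) (s.chi R g) pf := by
    intro g
    set Jall := s.IR (s.kid 0 y R) ∪ s.IR (s.kid 1 y R) ∪ s.IR (s.kid 2 y R) with hJ
    have hdT : Disjoint (s.TT R y) Jall := by
      rw [hJ, Finset.disjoint_union_right, Finset.disjoint_union_right]
      exact ⟨⟨s.TT_disj 0, s.TT_disj 1⟩, s.TT_disj 2⟩
    have hcomp := ZF_comp (s.om (s.wtS R y τ wk)) hom (s.TT R y) Jall hdT
      ((B1 ×ˢ B2).image (fun q => tm (W6_b c q.1 q.2))) ?_ (s.chi R g) pf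
    · rw [← s.IR_eq] at hcomp
      refine le_trans (le_of_eq ?_) hcomp
      rw [Finset.sum_image]
      · rw [Finset.sum_product]
        refine Finset.sum_congr rfl fun i hi => Finset.sum_congr rfl fun i' hi' => ?_
        obtain ⟨-, -, h3, -⟩ := htm (W6_b c i i') (hval i hi i' hi')
        show _ = WF (s.om (s.wtS R y τ wk)) (s.TT R y) (tm (W6_b c i i')) * _
        rw [h3, s.W6_kids hw c _ pf hpV, ← hP, W6_prod c, if_pos (Or.inl rfl), one_mul]
        have e1 : (if c + 1 = c ∨ s.legN (c + 1) y R = 0 then (1 : ℝ) else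
            s.rho R y (c + 1) (W6_b c i i' (c + 1))) = s.W6_rho R y (c + 1) i := by
          have e : W6_b c i i' (c + 1) = i := if_pos rfl
          rw [e]
          unfold W6_rho
          by_cases h : s.legN (c + 1) y R = 0
          · rw [if_pos (Or.inr h), if_pos h]
          · rw [if_neg (not_or.2 ⟨W6_e1 c, h⟩), if_neg h]
        have e2 : (if c + 2 = c ∨ s.legN (c + 2) y R = 0 then (1 : ℝ) else
            s.rho R y (c + 2) (W6_b c i i' (c + 2))) = s.W6_rho R y (c + 2) i' := by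
          have e : W6_b c i i' (c + 2) = i' := by
            rw [W6_b, if_neg (W6_e3 c).symm, if_pos rfl]
          rw [e]
          unfold W6_rho
          by_cases h : s.legN (c + 2) y R = 0
          · rw [if_pos (Or.inr h), if_pos h]
          · rw [if_neg (not_or.2 ⟨W6_e2 c, h⟩), if_neg h]
        rw [e1, e2]
        ring
      · intro q hq q' hq' he
        rw [Finset.mem_coe, Finset.mem_product] at hq hq'
        have h1 := htm_inj _ _ (hval _ hq.1 _ hq.2) (hval _ hq'.1 _ hq'.2) he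
        apply Prod.ext
        · have h2 := h1 (c + 1) (W6_e1 c)
          have e : ∀ i i', W6_b c i i' (c + 1) = i := fun i i' => if_pos rfl
          rwa [e, e] at h2
        · have h2 := h1 (c + 2) (W6_e2 c)
          have e : ∀ i i', W6_b c i i' (c + 2) = i' := fun i i' => by
            rw [W6_b, if_neg (W6_e3 c).symm, if_pos rfl]
          rwa [e, e] at h2
    · intro t ht
      rw [Finset.mem_image] at ht
      obtain ⟨q, hq, rfl⟩ := ht
      rw [Finset.mem_product] at hq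
      obtain ⟨h1, h2, -⟩ := htm _ (hval _ hq.1 _ hq.2)
      refine ⟨h1, fun v hv hvJ => ?_⟩
      obtain ⟨j, hj⟩ := h2 v hv
      rw [hJ, Finset.mem_union, Finset.mem_union] at hvJ
      rcases hvJ with (h | h) | h
      · exact (s.IR_kid_sub h).2 j hj
      · exact (s.IR_kid_sub h).2 j hj
      · exact (s.IR_kid_sub h).2 j hj
  -- the two functions
  set Φ : F → F → F → ℕ → ℕ → ℝ := fun a x z i i' =>
    ZF (s.om (wk c)) (s.IR R')
      (fun v => s.chi R (W6_G c a x z) (root (tm (W6_b c i i')) v)) pf with hΦ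
  set Ψ : F → F → F → ℝ := fun a x z =>
    ZF (s.om (wk c)) (s.IR R') (s.chi R' (W6_G c a x z)) pf with hΨ
  have key : ∀ a ∈ R', ∀ x ∈ R', ∀ z ∈ R', ∀ x' ∈ R', ∀ z' ∈ R', ∀ i ∈ B1, ∀ i' ∈ B2,
      ((x ∉ s.HH R y (c + 1) c ∧ x' = x) ∨
        (x ∈ s.HH R y (c + 1) c ∧ x' ∈ s.CC R y (c + 1) c i)) →
      ((z ∉ s.HH R y (c + 2) c ∧ z' = z) ∨
        (z ∈ s.HH R y (c + 2) c ∧ z' ∈ s.CC R y (c + 2) c i')) →
      Φ a x z i i' = Ψ a x' z' := by
    intro a ha x hx z hz x' hx' z' hz' i hi i' hi' hA hB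
    obtain ⟨-, -, -, r1, r2, r3⟩ := htm (W6_b c i i') (hval i hi i' hi')
    have e1 : W6_b c i i' (c + 1) = i := if_pos rfl
    have e2 : W6_b c i i' (c + 2) = i' := by
      rw [W6_b, if_neg (W6_e3 c).symm, if_pos rfl]
    refine ZF_chi (s.om (wk c)) homc (s.IR R') (s.VR R' \ s.IR R')
      (fun v hv => (Finset.mem_sdiff.1 hv).2) ?_ _ _ ?_ pf ?_
    · intro v hv u hu
      have h1 := s.no_edge (k := 0) hv (s.om_edge _ v u hu)
      by_cases h : u ∈ s.IR R'
      · exact Or.inl h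
      · exact Or.inr (Finset.mem_sdiff.2 ⟨h1, h⟩)
    · intro v hv
      rw [Finset.mem_sdiff] at hv
      refine s.colour hR hy (b := W6_b c i i') (hval i hi i' hi') r1 r2 r3
        (W6_G_mem c ha hx hz) (W6_G_mem c ha hx' hz') ?_ ?_ ?_ hv.1 hv.2
      · rw [W6_G0, W6_G0]
      · unfold LabRel
        rw [W6_G2, W6_G2, e1]
        exact hA
      · unfold LabRel
        rw [W6_G1, W6_G1, e2]
        exact hB
    · intro j
      by_cases h : pf j ∈ s.IR R'
      · exact Or.inl h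
      · exact Or.inr (Finset.mem_sdiff.2 ⟨hpV j, h⟩)
  have hH1 : s.HH R y (c + 1) c ⊆ R' := Finset.inter_subset_right
  have hH2 : s.HH R y (c + 2) c ⊆ R' := Finset.inter_subset_right
  have step5 : ∀ a ∈ R', (1 / 4) * ∑ x ∈ R', ∑ z ∈ R', Ψ a x z ≤
      ∑ x ∈ R', ∑ z ∈ R', ∑ i ∈ B1, ∑ i' ∈ B2,
        s.W6_rho R y (c + 1) i * s.W6_rho R y (c + 2) i' * Φ a x z i i' := by
    intro a ha
    refine sum_label2 R' (s.HH R y (c + 1) c) (s.HH R y (c + 2) c) hH1 hH2 B1 B2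
      (s.W6_C R y c (c + 1)) (s.W6_C R y c (c + 2)) a1 a2 b1 b2
      (s.W6_rho R y (c + 1)) (s.W6_rho R y (c + 2)) a3 a4 b3 b4 a5 b5 (Φ a) (Ψ a)
      (fun x _ z _ => W6_ZF_nonneg _ homc _ _ _)
      (fun x _ z _ i _ i' _ => W6_ZF_nonneg _ homc _ _ _) ?_ ?_ ?_ ?_
    · intro x hx hxH z hz hzH i hi i' hi'
      exact key a ha x hx z hz x hx z hz i hi i' hi' (Or.inl ⟨hxH, rfl⟩) (Or.inl ⟨hzH, rfl⟩)
    · intro x hx hxH z hz i hi i' hi' z' hz'
      exact key a ha x hx z (hH2 hz) x hx z' (hH2 (b1 i' hi' hz')) i hi i' hi'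
        (Or.inl ⟨hxH, rfl⟩) (Or.inr ⟨hz, b7 i' hz'⟩)
    · intro x hx z hz hzH i hi i' hi' x' hx'
      exact key a ha x (hH1 hx) z hz x' (hH1 (a1 i hi hx')) z hz i hi i' hi'
        (Or.inr ⟨hx, a7 i hx'⟩) (Or.inl ⟨hzH, rfl⟩)
    · intro x hx z hz i hi i' hi' x' hx' z' hz'
      exact key a ha x (hH1 hx) z (hH2 hz) x' (hH1 (a1 i hi hx')) z' (hH2 (b1 i' hi' hz'))
        i hi i' hi' (Or.inr ⟨hx, a7 i hx'⟩) (Or.inr ⟨hz, b7 i' hz'⟩)
  -- assembly
  have hN : s.NR (wk c) R' f = ∑ a ∈ R', ∑ x ∈ R', ∑ z ∈ R', Ψ a x z := by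
    rw [NR, W6_sum c]
  have h1 : ∑ g ∈ Fintype.piFinset (fun _ : Fin 3 => R'),
      ZF (s.om (s.wtS R y τ wk)) (s.IR R) (s.chi R g) pf ≤ s.NR (s.wtS R y τ wk) R f := by
    rw [NR]
    exact Finset.sum_le_sum_of_subset_of_nonneg
      (Fintype.piFinset_subset _ _ fun _ => hR'R)
      (fun g _ _ => W6_ZF_nonneg _ hom _ _ _)
  refine le_trans ?_ h1
  rw [W6_sum c, hN]
  calc 1 / 4 * s.wT R y τ * P * ∑ a ∈ R', ∑ x ∈ R', ∑ z ∈ R', Ψ a x z
      = ∑ a ∈ R', s.wT R y τ * P * ((1 / 4) * ∑ x ∈ R', ∑ z ∈ R', Ψ a x z) := by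
        rw [Finset.mul_sum]
        exact Finset.sum_congr rfl fun a _ => by ring
    _ ≤ ∑ a ∈ R', s.wT R y τ * P * ∑ x ∈ R', ∑ z ∈ R', ∑ i ∈ B1, ∑ i' ∈ B2,
        s.W6_rho R y (c + 1) i * s.W6_rho R y (c + 2) i' * Φ a x z i i' :=
        Finset.sum_le_sum fun a ha =>
          mul_le_mul_of_nonneg_left (step5 a ha) (mul_nonneg hwT hP0)
    _ ≤ ∑ a ∈ R', ∑ x ∈ R', ∑ z ∈ R',
        ZF (s.om (s.wtS R y τ wk)) (s.IR R) (s.chi R (W6_G c a x z)) pf := by
        refine Finset.sum_le_sum fun a _ => ?_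
        rw [Finset.mul_sum]
        refine Finset.sum_le_sum fun x _ => ?_
        rw [Finset.mul_sum]
        refine Finset.sum_le_sum fun z _ => ?_
        refine le_trans (le_of_eq ?_) (step2 (W6_G c a x z))
        rw [Finset.mul_sum]
        refine Finset.sum_congr rfl fun i _ => ?_
        rw [Finset.mul_sum]

end Pool.SX.SchS
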