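import Pool.Agent.Lib.MP_9dcace_sx.W4d
import Pool.Agent.Lib.MP_9dcace_sx.W6
import Pool.Agent.Lib.MP_9dcace_sx.R5

/-!
ROW W7 (the main induction, 80-120 lines).
* `Good_small`: |R| ≤ 1: wt = 0.  In c v R is impossible (gL c v ≠ gR c v: labels of v are c+2 and c+1).  IR R = ∅ (an interior vertex z has two different faces gL 0 z, gR 0 z).
  `ext`: x' = x, energy 0.  `bd`: f ∈ R, R = {f}; DF ∅ = 1; NR = ZF of the only g (constant f): `ZF_const`: chi R g (t j f) = j: S k (t j f) is disjoint from {f} for k ≠ j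
  (f ∈ S j (t j f)), `chi_eq`, `ix_eq`; (1/432)^d ≤ 1.
* `Good_step`: supp: `wtS_supp`; lo: `wtS_lo`; hi: `wtS_hi`; ext: `ext_step`; bd: for f ∈ R let c be the index with f ∈ S c y, f ∈ kid c:
  (1/432)^(d+1) D(IR R) ≤ (1/432)^(d+1) * 108 wT ∏ D_k = (1/4) wT ∏_{k≠c} D_k * ((1/432)^d D_c) ≤ (1/4) wT ∏_{k≠c} D_k NR (wk c) ≤ NR wt R f (`upper`, `lower`; wT ≥ 0, D_k ≥ 0).
* `main_induction`: induction on d.  |R| ≤ 1: Good_small.  Otherwise `balanced` gives y; 3 |kid| ≤ 2|R| + 1, so (|kid| - 1) 2^d < 3^d (natural subtraction: |kid| ≥ 1 case;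
  |kid| = 0 trivial): 3 (|kid| - 1) ≤ 2 (|R| - 1), (|R| - 1) 2^(d+1) < 3^(d+1).  For d = 0 the hypothesis gives |R| ≤ 1.
-/

set_option autoImplicit false

open Classical

namespace Pool.SX.SchS

variable {V F : Type} [Fintype V] [Fintype F] (s : SchS V F)

theorem w7_ne (c : Fin 3) : c + 2 ≠ c + 1 := by revert c; decide

theorem w7_ne1 (j : Fin 3) : j ≠ j + 1 := by revert j; decide

theorem Good_small {R : Finset F} (h : R.card ≤ 1) {τ : ℝ} (hτ : 0 < τ) (d : ℕ) :
    s.Good R τ d (fun _ _ => 0) := by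
  have hno : ∀ c v, ¬ s.In c v R := by
    intro c v hI
    have h1 : s.gL c v = s.gR c v := Finset.card_le_one.mp h _ hI.2.1 _ hI.2.2
    have h2 := s.tL2 c v hI.1
    have h3 := s.tR1 c v hI.1
    rw [← h1] at h3
    exact s.toSch.t_ne (s.gL c v) (j := c + 2) (k := c + 1) (w7_ne c) (h2.trans h3.symm)
  have hIR : s.IR R = ∅ := by
    rw [Finset.eq_empty_iff_forall_notMem]
    intro z hz
    exact hno 0 z (s.In_IR hz 0)
  refine ⟨fun _ _ _ => rfl, fun c v hI => absurd hI (hno c v), fun c v hI => absurd hI (hno c v),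
    fun x hx => ⟨x, hx, fun _ _ => rfl, ?_⟩, ?_⟩
  · have h1 : s.enw (fun _ _ => 0) x = 0 := by simp [Sch.enw]
    rw [h1]; linarith
  · intro f hf
    have hRf : R = {f} := Finset.eq_singleton_iff_unique_mem.mpr
      ⟨hf, fun g hg => Finset.card_le_one.mp h _ hg _ hf⟩
    have hchi : ∀ j, s.chi R (fun _ => f) (s.t j f) = j := by
      intro j
      have hd : Disjoint (s.S (j + 1) (s.t j f)) R := by
        rw [hRf, Finset.disjoint_singleton_right]
        intro hm
        obtain ⟨k, _, hk⟩ := s.part (s.t j f) f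
        have h1 := hk j (s.self j f)
        have h2 := hk (j + 1) hm
        exact w7_ne1 j (h1.trans h2.symm)
      rw [s.chi_eq (g := fun _ => f) (fun _ => hf) hd, s.ix_eq (s.self j f)]
    have hNR : s.NR (fun _ _ => 0) R f = 1 := by
      unfold NR
      rw [hIR, hRf, Fintype.piFinset_singleton, Finset.sum_singleton, ← hRf,
        ZF_const _ _ _ _ (fun j => Finset.notMem_empty _), DF_empty]
      intro j j' hjj
      simp only [hchi] at hjj
      exact hjj
    rw [hIR, DF_empty, hNR, mul_one]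
    exact pow_le_one₀ (by norm_num) (by norm_num)

theorem Good_step {R : Finset F} {y : V} (hR : s.Reg R) (hy : y ∈ s.VR R) {τ : ℝ} (hτ : 0 < τ)
    {d : ℕ} {wk : Fin 3 → Fin 3 → V → ℝ}
    (hk : ∀ k, s.Good (s.kid k y R) (τ / 12) d (wk k)) :
    s.Good R τ (d + 1) (s.wtS R y τ wk) := by
  have hw : ∀ k c v, ¬ s.In c v (s.kid k y R) → wk k c v = 0 := fun k => (hk k).supp
  have hp : ∀ k c v, s.In c v (s.kid k y R) → 0 < wk k c v := by
    intro k c v hI
    exact lt_of_lt_of_le (by positivity) ((hk k).lo c v hI)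
  refine ⟨fun c v hI => s.wtS_supp hw hI,
    fun c v hI => s.wtS_lo hR hy hτ hw (fun k c v h => (hk k).lo c v h) hI,
    fun c v hI => s.wtS_hi hR hy hτ hw (fun k c v h => (hk k).hi c v h) hI,
    fun x hx => s.ext_step hR hy hτ hw (fun k => (hk k).ext) x hx, ?_⟩
  intro f hf
  obtain ⟨c, hc, _⟩ := s.part y f
  have hfk : f ∈ s.kid c y R := Finset.mem_inter.mpr ⟨hc, hf⟩
  have hU := s.upper hR hy hτ hw hp (fun k => (hk k).ext)
  have hL := s.lower hR hy hτ hw hp c hfk
  have hB := (hk c).bd f hfk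
  have hDn : ∀ k, 0 ≤ DF (s.om (wk k)) (s.IR (s.kid k y R)) := by
    intro k
    refine DF_nonneg _ (fun u v => s.toSch.om_nonneg _ ?_ u v) _
    intro c v _
    by_cases hI : s.In c v (s.kid k y R)
    · exact (hp k c v hI).le
    · rw [hw k c v hI]
  have hlw : ∀ j, 0 ≤ s.legw R y τ j := by
    intro j
    unfold legw
    split_ifs with h0
    · exact zero_le_one
    · exact div_nonneg (pow_nonneg hτ.le _)
        (Finset.prod_nonneg fun i hi => (s.rho_pos hR hy (Finset.mem_range.mp hi)).le)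
  have hwT : 0 ≤ s.wT R y τ := by
    unfold wT
    refine mul_nonneg ?_ (Finset.prod_nonneg fun j _ => hlw j)
    split_ifs
    · exact hτ.le
    · exact zero_le_one
  have hE : 0 ≤ ∏ k ∈ Finset.univ.erase c, DF (s.om (wk k)) (s.IR (s.kid k y R)) :=
    Finset.prod_nonneg fun k _ => hDn k
  rw [← Finset.mul_prod_erase Finset.univ _ (Finset.mem_univ c)] at hU
  generalize (∏ k ∈ Finset.univ.erase c, DF (s.om (wk k)) (s.IR (s.kid k y R))) = E at hU hL hE
  generalize DF (s.om (wk c)) (s.IR (s.kid c y R)) = Dc at hU hB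
  generalize s.NR (wk c) (s.kid c y R) f = Nc at hL hB
  generalize DF (s.om (s.wtS R y τ wk)) (s.IR R) = D at hU ⊢
  generalize s.wT R y τ = w at hU hL hwT
  calc (1 / 432 : ℝ) ^ (d + 1) * D ≤ (1 / 432 : ℝ) ^ (d + 1) * (108 * w * (Dc * E)) :=
        mul_le_mul_of_nonneg_left hU (by positivity)
    _ = (1 / 4) * w * E * ((1 / 432 : ℝ) ^ d * Dc) := by rw [pow_succ]; ring
    _ ≤ (1 / 4) * w * E * Nc := mul_le_mul_of_nonneg_left hB (by positivity)
    _ ≤ _ := hL

theorem main_induction (d : ℕ) : ∀ (R : Finset F) (τ : ℝ), 0 < τ → s.Reg R →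
    (R.card - 1) * 2 ^ d < 3 ^ d → ∃ wt : Fin 3 → V → ℝ, s.Good R τ d wt := by
  induction d with
  | zero =>
    intro R τ hτ _ hd
    rw [pow_zero, pow_zero, mul_one] at hd
    exact ⟨_, s.Good_small (by omega) hτ 0⟩
  | succ d ih =>
    intro R τ hτ hR hd
    by_cases h1 : R.card ≤ 1
    · exact ⟨_, s.Good_small h1 hτ _⟩
    · obtain ⟨y, hy, hbal⟩ := s.balanced hR (by omega)
      have hkid : ∀ k, ((s.kid k y R).card - 1) * 2 ^ d < 3 ^ d := by
        intro k
        have hb := hbal k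
        obtain ⟨n', hn'⟩ : ∃ n', R.card = n' + 1 := ⟨R.card - 1, by omega⟩
        rw [hn'] at hb hd
        rw [Nat.add_sub_cancel, pow_succ, pow_succ] at hd
        rcases Nat.eq_zero_or_pos (s.kid k y R).card with h0 | h0
        · rw [h0]; simp
        · obtain ⟨a', ha'⟩ : ∃ a', (s.kid k y R).card = a' + 1 :=
            ⟨(s.kid k y R).card - 1, by omega⟩
          rw [ha'] at hb ⊢
          rw [Nat.add_sub_cancel]
          have h3 : 3 * a' ≤ 2 * n' := by omega
          have h4 : 3 * a' * 2 ^ d ≤ 2 * n' * 2 ^ d := Nat.mul_le_mul_right _ h3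
          have h5 : 2 * n' * 2 ^ d = n' * (2 ^ d * 2) := by ring
          have h6 : 3 * a' * 2 ^ d = 3 * (a' * 2 ^ d) := by ring
          omega
      choose wk hwk using fun k => ih (s.kid k y R) (τ / 12) (by positivity)
        (s.Reg_kid hR k y) (hkid k)
      exact ⟨_, s.Good_step hR hy hτ hwk⟩

end Pool.SX.SchS
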