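import Pool.Agent.Lib.MP_9dcace_sx.W1
import Pool.Agent.Lib.MP_9dcace_sx.R6

/-!
Definitions for the main induction (section 5 of sx_proof.md).
-/

set_option autoImplicit false

open Classical

namespace Pool.SX.SchS

variable {V F : Type} [Fintype V] [Fintype F] (s : SchS V F)

/-- `N_R(f)`: sum over the triples of faces of `R` -/
noncomputable def NR (wt : Fin 3 → V → ℝ) (R : Finset F) (f : F) : ℝ :=
  ∑ g ∈ Fintype.piFinset (fun _ : Fin 3 => R),
    ZF (s.om wt) (s.IR R) (s.chi R g) (fun j => s.t j f)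

/-- the induction statement (τ = scale, d = depth bound) -/
structure Good (R : Finset F) (τ : ℝ) (d : ℕ) (wt : Fin 3 → V → ℝ) : Prop where
  supp : ∀ c v, ¬ s.In c v R → wt c v = 0
  lo : ∀ c v, s.In c v R → τ / 12 ^ d ≤ wt c v
  hi : ∀ c v, s.In c v R → wt c v ≤ τ * Fintype.card F
  ext : ∀ x : V → ℝ, (∀ v, 0 ≤ x v ∧ x v ≤ 1) → ∃ x' : V → ℝ, (∀ v, 0 ≤ x' v ∧ x' v ≤ 1) ∧
    (∀ v, v ∉ s.IR R → x' v = x v) ∧ s.enw wt x' ≤ 4 * τ
  bd : ∀ f ∈ R, (1 / 432 : ℝ) ^ d * DF (s.om wt) (s.IR R) ≤ s.NR wt R f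

/-- the faces of the child `k` on the far side of the end of the leg `j` -/
noncomputable def HH (R : Finset F) (y : V) (j k : Fin 3) : Finset F :=
  s.S j (s.lp j y (s.legN j y R)) ∩ s.kid k y R

/-- the faces of the child `k` which lie at the `i`-th edge of the leg `j` -/
noncomputable def CC (R : Finset F) (y : V) (j k : Fin 3) (i : ℕ) : Finset F :=
  s.S k (s.lp j y i) ∩ (s.S j (s.lp j y (i + 1)) ∩ s.kid k y R)

/-- the measure on the edges of the leg `j` -/
noncomputable def rho (R : Finset F) (y : V) (j : Fin 3) (i : ℕ) : ℝ :=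
  (1 / 2) * (((s.CC R y j (j + 1) i).card : ℝ) / ((s.HH R y j (j + 1)).card : ℝ) +
    ((s.CC R y j (j + 2) i).card : ℝ) / ((s.HH R y j (j + 2)).card : ℝ))

/-- the weights of the region `R` with centre `y` built from the weights `wk k` of the children -/
noncomputable def wtS (R : Finset F) (y : V) (τ : ℝ) (wk : Fin 3 → Fin 3 → V → ℝ)
    (c : Fin 3) (v : V) : ℝ :=
  if h : ∃ i, i < s.legN c y R ∧ v = s.lp c y i then τ / s.rho R y c (Nat.find h)
  else ∑ k, wk k c v

/-- the tripod: interior vertices of `R` on the legs -/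
noncomputable def TT (R : Finset F) (y : V) : Finset V :=
  (s.IR R).filter (fun v => ∃ j, s.Pth j y v)

/-- the product of the weights of a leg with one edge missing, without the factor `rho` -/
noncomputable def legw (R : Finset F) (y : V) (τ : ℝ) (j : Fin 3) : ℝ :=
  if s.legN j y R = 0 then 1
  else τ ^ (s.legN j y R - 1) / ∏ i ∈ Finset.range (s.legN j y R), s.rho R y j i

/-- the total weight scale of the tripod -/
noncomputable def wT (R : Finset F) (y : V) (τ : ℝ) : ℝ :=
  (if y ∈ s.IR R then τ else 1) * ∏ j, s.legw R y τ j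

end Pool.SX.SchS
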