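import Pool.Agent.Lib.MP_9dcace_sx.ZDefs

/-!
ROW Z1 (rounding, 80-120 lines).
N := 43 * M^2 / δ (a real number >= 43), g v i := ⌊N * P v i⌋₊.
dt4 (N P) = N^3 dt4 P >= N^3 δ.  Every difference of coordinates of N P is at most N M in absolute value and changes by less than 1 under the
rounding.  A product of three differences changes by at most 3 (NM)^2 + 3 NM + 1 <= 7 (NM)^2, dt4 consists of six such products:
the change is at most 42 (NM)^2 = 42 N^2 M^2 < 43 N^2 M^2 = N^3 δ.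
Suggested lemma: |a|,|b|,|c| <= K, 1 <= K, |a'-a|,|b'-b|,|c'-c| <= 1 -> |a' b' c' - a b c| <= 7 K^2.
-/

set_option autoImplicit false

open Classical

namespace Pool.SX

variable {V : Type} [Fintype V]

theorem Z1_prod {K a b c a' b' c' : ℝ} (hK : 1 ≤ K) (ha : |a| ≤ K) (hb : |b| ≤ K) (hc : |c| ≤ K)
    (ha' : |a' - a| ≤ 1) (hb' : |b' - b| ≤ 1) (hc' : |c' - c| ≤ 1) :
    |a' * b' * c' - a * b * c| ≤ 7 * K ^ 2 := by
  obtain ⟨x, hx⟩ : ∃ x, x = a' - a := ⟨_, rfl⟩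
  obtain ⟨y, hy⟩ : ∃ y, y = b' - b := ⟨_, rfl⟩
  obtain ⟨z, hz⟩ : ∃ z, z = c' - c := ⟨_, rfl⟩
  rw [← hx] at ha'
  rw [← hy] at hb'
  rw [← hz] at hc'
  have ea : a' = a + x := by rw [hx]; ring
  have eb : b' = b + y := by rw [hy]; ring
  have ec : c' = c + z := by rw [hz]; ring
  have e : a' * b' * c' - a * b * c =
      x * b * c + a * y * c + a * b * z + x * y * c + x * b * z + a * y * z + x * y * z := by
    rw [ea, eb, ec]; ring
  have hK0 : 0 ≤ K := by linarith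
  have hKK : K ≤ K ^ 2 := by nlinarith
  have h1K : 1 ≤ K ^ 2 := by nlinarith
  have t : ∀ u v w : ℝ, ∀ U V W : ℝ, 0 ≤ U → 0 ≤ V → |u| ≤ U → |v| ≤ V → |w| ≤ W →
      |u * v * w| ≤ U * V * W := by
    intro u v w U V W hU hV hu hv hw
    rw [abs_mul, abs_mul]
    exact mul_le_mul (mul_le_mul hu hv (abs_nonneg _) hU) hw (abs_nonneg _) (mul_nonneg hU hV)
  have t1 := t x b c 1 K K zero_le_one hK0 ha' hb hc
  have t2 := t a y c K 1 K hK0 zero_le_one ha hb' hc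
  have t3 := t a b z K K 1 hK0 hK0 ha hb hc'
  have t4 := t x y c 1 1 K zero_le_one zero_le_one ha' hb' hc
  have t5 := t x b z 1 K 1 zero_le_one hK0 ha' hb hc'
  have t6 := t a y z K 1 1 hK0 zero_le_one ha hb' hc'
  have t7 := t x y z 1 1 1 zero_le_one zero_le_one ha' hb' hc'
  rw [e]
  have s1 := abs_add_le (x * b * c) (a * y * c)
  have s2 := abs_add_le (x * b * c + a * y * c) (a * b * z)
  have s3 := abs_add_le (x * b * c + a * y * c + a * b * z) (x * y * c)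
  have s4 := abs_add_le (x * b * c + a * y * c + a * b * z + x * y * c) (x * b * z)
  have s5 := abs_add_le (x * b * c + a * y * c + a * b * z + x * y * c + x * b * z) (a * y * z)
  have s6 := abs_add_le (x * b * c + a * y * c + a * b * z + x * y * c + x * b * z + a * y * z)
    (x * y * z)
  nlinarith

theorem Z1_dt {K : ℝ} (hK : 1 ≤ K) (p q r u p' q' r' u' : Fin 3 → ℝ)
    (hq : ∀ i, |q i - p i| ≤ K) (hr : ∀ i, |r i - p i| ≤ K) (hu : ∀ i, |u i - p i| ≤ K)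
    (hq' : ∀ i, |(q' i - p' i) - (q i - p i)| ≤ 1) (hr' : ∀ i, |(r' i - p' i) - (r i - p i)| ≤ 1)
    (hu' : ∀ i, |(u' i - p' i) - (u i - p i)| ≤ 1) :
    |dt4 p' q' r' u' - dt4 p q r u| ≤ 42 * K ^ 2 := by
  have k : ∀ i j l : Fin 3, |(q' i - p' i) * (r' j - p' j) * (u' l - p' l) -
      (q i - p i) * (r j - p j) * (u l - p l)| ≤ 7 * K ^ 2 := fun i j l =>
    Z1_prod hK (hq i) (hr j) (hu l) (hq' i) (hr' j) (hu' l)
  have e : dt4 p' q' r' u' - dt4 p q r u =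
      ((q' 0 - p' 0) * (r' 1 - p' 1) * (u' 2 - p' 2) - (q 0 - p 0) * (r 1 - p 1) * (u 2 - p 2)) -
      ((q' 0 - p' 0) * (r' 2 - p' 2) * (u' 1 - p' 1) - (q 0 - p 0) * (r 2 - p 2) * (u 1 - p 1)) -
      ((q' 1 - p' 1) * (r' 0 - p' 0) * (u' 2 - p' 2) - (q 1 - p 1) * (r 0 - p 0) * (u 2 - p 2)) +
      ((q' 1 - p' 1) * (r' 2 - p' 2) * (u' 0 - p' 0) - (q 1 - p 1) * (r 2 - p 2) * (u 0 - p 0)) +
      ((q' 2 - p' 2) * (r' 0 - p' 0) * (u' 1 - p' 1) - (q 2 - p 2) * (r 0 - p 0) * (u 1 - p 1)) -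
      ((q' 2 - p' 2) * (r' 1 - p' 1) * (u' 0 - p' 0) - (q 2 - p 2) * (r 1 - p 1) * (u 0 - p 0)) := by
    unfold dt4
    ring
  have k1 := abs_le.1 (k 0 1 2)
  have k2 := abs_le.1 (k 0 2 1)
  have k3 := abs_le.1 (k 1 0 2)
  have k4 := abs_le.1 (k 1 2 0)
  have k5 := abs_le.1 (k 2 0 1)
  have k6 := abs_le.1 (k 2 1 0)
  rw [e]
  refine abs_le.2 ⟨?_, ?_⟩ <;> linarith [k1.1, k1.2, k2.1, k2.2, k3.1, k3.2, k4.1, k4.2, k5.1, k5.2, k6.1, k6.2]

theorem round_pos (P : V → Fin 3 → ℝ) (M δ : ℝ) (hM : 1 ≤ M) (hδ : 0 < δ) (hδ1 : δ ≤ 1)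
    (hP : ∀ v i, 0 ≤ P v i ∧ P v i ≤ M) :
    ∃ g : V → Fin 3 → ℕ, (∀ v i, ((g v i : ℕ) : ℝ) ≤ 43 * M ^ 3 / δ) ∧
      ∀ u v w z, δ ≤ dt4 (P u) (P v) (P w) (P z) →
        0 < dt4 (fun i => (g u i : ℝ)) (fun i => (g v i : ℝ)) (fun i => (g w i : ℝ))
          (fun i => (g z i : ℝ)) := by
  obtain ⟨N, hN⟩ : ∃ N : ℝ, N = 43 * M ^ 2 / δ := ⟨_, rfl⟩
  have hM0 : 0 < M := by linarith
  have hN0 : 0 < N := by rw [hN]; positivity
  have hNδ : N * δ = 43 * M ^ 2 := by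
    rw [hN]; field_simp
  have hM2 : 1 ≤ M ^ 2 := by nlinarith
  have hN1 : 1 ≤ N := by
    have : 1 * δ ≤ N * δ := by rw [hNδ]; linarith
    exact le_of_mul_le_mul_right this hδ
  have hK : 1 ≤ N * M := by nlinarith
  have hfl : ∀ v i, ((⌊N * P v i⌋₊ : ℕ) : ℝ) ≤ N * P v i ∧ N * P v i < (⌊N * P v i⌋₊ : ℕ) + 1 :=
    fun v i => ⟨Nat.floor_le (mul_nonneg hN0.le (hP v i).1), Nat.lt_floor_add_one _⟩
  refine ⟨fun v i => ⌊N * P v i⌋₊, fun v i => ?_, fun u v w z hd => ?_⟩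
  · refine (hfl v i).1.trans ?_
    have h1 : N * P v i ≤ N * M := mul_le_mul_of_nonneg_left (hP v i).2 hN0.le
    refine h1.trans (le_of_eq ?_)
    rw [hN]; ring
  · have hdiff : ∀ a b : V, ∀ i, |N * P a i - N * P b i| ≤ N * M := by
      intro a b i
      have h1 := hP a i
      have h2 := hP b i
      rw [← mul_sub, abs_mul, abs_of_pos hN0]
      refine mul_le_mul_of_nonneg_left (abs_le.2 ⟨?_, ?_⟩) hN0.le <;> linarith [h1.1, h1.2, h2.1, h2.2]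
    have hchg : ∀ a b : V, ∀ i, |(((⌊N * P a i⌋₊ : ℕ) : ℝ) - ((⌊N * P b i⌋₊ : ℕ) : ℝ)) -
        (N * P a i - N * P b i)| ≤ 1 := by
      intro a b i
      have h1 := hfl a i
      have h2 := hfl b i
      refine abs_le.2 ⟨?_, ?_⟩ <;> linarith [h1.1, h1.2, h2.1, h2.2]
    have key := Z1_dt hK (fun i => N * P u i) (fun i => N * P v i) (fun i => N * P w i)
      (fun i => N * P z i) (fun i => ((⌊N * P u i⌋₊ : ℕ) : ℝ)) (fun i => ((⌊N * P v i⌋₊ : ℕ) : ℝ))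
      (fun i => ((⌊N * P w i⌋₊ : ℕ) : ℝ)) (fun i => ((⌊N * P z i⌋₊ : ℕ) : ℝ))
      (hdiff v u) (hdiff w u) (hdiff z u) (hchg v u) (hchg w u) (hchg z u)
    have hsc : dt4 (fun i => N * P u i) (fun i => N * P v i) (fun i => N * P w i)
        (fun i => N * P z i) = N ^ 3 * dt4 (P u) (P v) (P w) (P z) := by
      unfold dt4
      ring
    rw [hsc] at key
    have h1 := (abs_le.1 key).1
    have h2 : N ^ 3 * δ ≤ N ^ 3 * dt4 (P u) (P v) (P w) (P z) :=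
      mul_le_mul_of_nonneg_left hd (by positivity)
    have h3 : N ^ 3 * δ = N ^ 2 * (43 * M ^ 2) := by
      rw [← hNδ]; ring
    have h4 : 0 < N ^ 2 * M ^ 2 := by positivity
    nlinarith

end Pool.SX
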