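import Pool.Agent.Lib.MP_9dcace_sx.ZDefs

/-!
ROW Z2 (cones over the facets, 120-180 lines).
Let o be a point with 0 < dt4 (P u) (P v) (P w) o for every triangle T u v w.  For a triangle τ = (u,v,w) put
 n_τ(x) := 1 - dt4 (P u) (P v) (P w) x / dt4 (P u) (P v) (P w) o   (affine in x, n_τ(o) = 0, n_τ = 1 on the plane of τ).
`nT_rot`: n is invariant under rotation (dt4 is).
`cone`: for every y there is a triangle τ = (u,v,w) with n_τ'(y) <= n_τ(y) for all triangles τ' and y - o = α (P u - o) + β (P v - o) + γ (P w - o),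
 α, β, γ >= 0.  PROOF: choose τ maximising n_τ(y) (finitely many, `cov` gives one; V nonempty).  Solve for α, β, γ by Cramer:
 α = dt4 o y (P v) (P w) / dt4 o (P u) (P v) (P w), etc. (the denominator is, up to the sign, dt4 (P u) (P v) (P w) o ≠ 0);
 n_τ(x) = α(x) + β(x) + γ(x).  If γ < 0: the triangle τ' = (v, u, w') from `opp`, w' ≠ w; n_τ' - n_τ is affine and vanishes at o, P u, P v, so
 (n_τ' - n_τ)(x) = γ(x) * (n_τ' - n_τ)(P w), and n_τ'(P w) < 1 = n_τ(P w) because w is not in τ' (w ≠ u, v, w').  So (n_τ' - n_τ)(y) > 0: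
 contradiction with the maximality.  For α and β rotate τ.
 (It is enough to prove: for a maximal τ, γ >= 0; apply it to the three rotations, which are maximal too.)
-/

set_option autoImplicit false

open Classical

namespace Pool.SX

variable {V : Type} [Fintype V]

/-- the normalised functional of the triangle `u, v, w` (value 0 at `o`, 1 on the plane of the triangle) -/
noncomputable def nT (P : V → Fin 3 → ℝ) (o : Fin 3 → ℝ) (u v w : V) (x : Fin 3 → ℝ) : ℝ :=
  1 - dt4 (P u) (P v) (P w) x / dt4 (P u) (P v) (P w) o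

theorem dt4_rot (p q r u : Fin 3 → ℝ) : dt4 q r p u = dt4 p q r u := by
  unfold dt4
  ring

theorem dt4_swap (p q r u : Fin 3 → ℝ) : dt4 q p r u = - dt4 p q r u := by
  unfold dt4
  ring

private theorem Z2_pl (p q r s y o : Fin 3 → ℝ) :
    dt4 p q r y * dt4 q p s o - dt4 q p s y * dt4 p q r o = - (dt4 p q y o * dt4 q p s r) := by
  rw [dt4_swap p q s o, dt4_swap p q s y, dt4_swap p q s r]
  unfold dt4
  generalize q 0 - p 0 = b0
  generalize q 1 - p 1 = b1
  generalize q 2 - p 2 = b2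
  generalize r 0 - p 0 = c0
  generalize r 1 - p 1 = c1
  generalize r 2 - p 2 = c2
  generalize s 0 - p 0 = d0
  generalize s 1 - p 1 = d1
  generalize s 2 - p 2 = d2
  generalize y 0 - p 0 = y0
  generalize y 1 - p 1 = y1
  generalize y 2 - p 2 = y2
  generalize o 0 - p 0 = o0
  generalize o 1 - p 1 = o1
  generalize o 2 - p 2 = o2
  ring

private theorem Z2_sum (p q r y o : Fin 3 → ℝ) :
    dt4 p q r o - dt4 p q r y = dt4 y q r o + dt4 p y r o + dt4 p q y o := by
  unfold dt4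
  ring

private theorem Z2_cramer (p q r y o : Fin 3 → ℝ) (i : Fin 3) :
    dt4 p q r o * (y i - o i) = dt4 y q r o * (p i - o i) + dt4 p y r o * (q i - o i) +
      dt4 p q y o * (r i - o i) := by
  fin_cases i
  · simp only [Fin.zero_eta, Fin.isValue]
    unfold dt4
    ring
  · simp only [Fin.mk_one, Fin.isValue]
    unfold dt4
    ring
  · simp only [Fin.reduceFinMk, Fin.isValue]
    unfold dt4
    ring

omit [Fintype V] in
private theorem Z2_nT_rot (P : V → Fin 3 → ℝ) (o : Fin 3 → ℝ) (u v w : V) (x : Fin 3 → ℝ) :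
    nT P o v w u x = nT P o u v w x := by
  unfold nT
  rw [dt4_rot (P u) (P v) (P w) x, dt4_rot (P u) (P v) (P w) o]

private theorem Z2_gamma (S : Sph V) {P : V → Fin 3 → ℝ} (hP : S.Pos P) (o : Fin 3 → ℝ)
    (ho : ∀ u v w, S.T u v w → 0 < dt4 (P u) (P v) (P w) o) (y : Fin 3 → ℝ)
    {u v w : V} (hT : S.T u v w)
    (hmax : ∀ u' v' w', S.T u' v' w' → nT P o u' v' w' y ≤ nT P o u v w y) :
    0 ≤ dt4 (P u) (P v) y o := by
  by_contra hneg
  push Not at hneg
  obtain ⟨w', hw', hT'⟩ := S.opp hT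
  have hD := ho u v w hT
  have hD' := ho v u w' hT'
  have h1 := hmax v u w' hT'
  have hwv : w ≠ v := (S.ne (S.rot hT)).symm
  have hwu : w ≠ u := S.ne (S.rot (S.rot hT))
  have h2 : 0 < dt4 (P v) (P u) (P w') (P w) := hP v u w' w hT' hwv hwu (Ne.symm hw')
  have h3 := Z2_pl (P u) (P v) (P w) (P w') y o
  unfold nT at h1
  have h4 : dt4 (P u) (P v) (P w) y / dt4 (P u) (P v) (P w) o ≤
      dt4 (P v) (P u) (P w') y / dt4 (P v) (P u) (P w') o := by linarith
  rw [div_le_div_iff₀ hD hD'] at h4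
  have h5 : dt4 (P u) (P v) y o * dt4 (P v) (P u) (P w') (P w) < 0 := mul_neg_of_neg_of_pos hneg h2
  linarith

theorem Sph.cone (S : Sph V) [Nonempty V] {P : V → Fin 3 → ℝ} (hP : S.Pos P) (o : Fin 3 → ℝ)
    (ho : ∀ u v w, S.T u v w → 0 < dt4 (P u) (P v) (P w) o) (y : Fin 3 → ℝ) :
    ∃ u v w, S.T u v w ∧ ∃ α β γ : ℝ, 0 ≤ α ∧ 0 ≤ β ∧ 0 ≤ γ ∧
      (∀ i, y i - o i = α * (P u i - o i) + β * (P v i - o i) + γ * (P w i - o i)) ∧
      nT P o u v w y = α + β + γ := by
  obtain ⟨u0⟩ := ‹Nonempty V›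
  obtain ⟨v0, w0, hT0⟩ := S.cov u0
  obtain ⟨⟨u, v, w⟩, hmem, hmax⟩ := Finset.exists_max_image
    (Finset.univ.filter (fun p : V × V × V => S.T p.1 p.2.1 p.2.2))
    (fun p => nT P o p.1 p.2.1 p.2.2 y) ⟨(u0, v0, w0), by simp [hT0]⟩
  simp only [Finset.mem_filter, Finset.mem_univ, true_and] at hmem hmax
  have hmax' : ∀ u' v' w', S.T u' v' w' → nT P o u' v' w' y ≤ nT P o u v w y := by
    intro u' v' w' h
    exact hmax (u', v', w') h
  have hD := ho u v w hmem
  have hg : 0 ≤ dt4 (P u) (P v) y o := Z2_gamma S hP o ho y hmem hmax'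
  have ha : 0 ≤ dt4 (P v) (P w) y o := by
    refine Z2_gamma S hP o ho y (S.rot hmem) ?_
    intro u' v' w' h
    rw [Z2_nT_rot P o u v w y]
    exact hmax' u' v' w' h
  have hb : 0 ≤ dt4 (P w) (P u) y o := by
    refine Z2_gamma S hP o ho y (S.rot (S.rot hmem)) ?_
    intro u' v' w' h
    rw [Z2_nT_rot P o v w u y, Z2_nT_rot P o u v w y]
    exact hmax' u' v' w' h
  have ha' : 0 ≤ dt4 y (P v) (P w) o := by
    rw [← dt4_rot y (P v) (P w) o]
    exact ha
  have hb' : 0 ≤ dt4 (P u) y (P w) o := by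
    rw [← dt4_rot (P u) y (P w) o, ← dt4_rot y (P w) (P u) o]
    exact hb
  refine ⟨u, v, w, hmem, dt4 y (P v) (P w) o / dt4 (P u) (P v) (P w) o,
    dt4 (P u) y (P w) o / dt4 (P u) (P v) (P w) o, dt4 (P u) (P v) y o / dt4 (P u) (P v) (P w) o,
    div_nonneg ha' hD.le, div_nonneg hb' hD.le, div_nonneg hg hD.le, ?_, ?_⟩
  · intro i
    have h := Z2_cramer (P u) (P v) (P w) y o i
    field_simp
    linarith
  · have h := Z2_sum (P u) (P v) (P w) y o
    unfold nT
    field_simp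
    linarith

end Pool.SX
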