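import Pool.Agent.Lib.MP_9dcace_sx.Z2

/-!
ROW Z3 (a supporting set is contained in a facet, 100-150 lines).
o := centroid, o i = (1 / card V) * ∑ v, P v i.  dt4 (P u) (P v) (P w) o = average of dt4 (P u) (P v) (P w) (P z) over z (affine in the last argument):
the terms with z in {u,v,w} vanish, the others are > 0 and there is one because card V >= 4.
Given (a, c) cutting out A ≠ univ, A nonempty (if A = ∅ take any triangle, `cov`).  ℓ(x) := ∑ a i x i.  y := average of P over A, ℓ(y) = c,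
ℓ(o) < c (some v is not in A).  `Sph.cone`: y - o = α(..)+β(..)+γ(..): c - ℓ(o) = α (ℓ(P u) - ℓ(o)) + ... <= (α+β+γ) (c - ℓ(o)), so α+β+γ >= 1,
i.e. nT y >= 1, i.e. dt4 (P u) (P v) (P w) y <= 0.  But dt4 (P u) (P v) (P w) y is the average over z in A of dt4 (P u) (P v) (P w) (P z) >= 0, so all of
these are 0 and every z in A is u, v or w.
-/

set_option autoImplicit false
set_option linter.unusedSectionVars false

open Classical

namespace Pool.SX

variable {V : Type} [Fintype V]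

theorem z3_dt (p q r u : Fin 3 → ℝ) : dt4 p q r u =
    ((q 1 - p 1) * (r 2 - p 2) - (q 2 - p 2) * (r 1 - p 1)) * (u 0 - p 0) +
    ((q 2 - p 2) * (r 0 - p 0) - (q 0 - p 0) * (r 2 - p 2)) * (u 1 - p 1) +
    ((q 0 - p 0) * (r 1 - p 1) - (q 1 - p 1) * (r 0 - p 0)) * (u 2 - p 2) := by
  unfold dt4; ring

theorem z3_avg (P : V → Fin 3 → ℝ) (p q r : Fin 3 → ℝ) (B : Finset V) (hB : B.Nonempty) :
    dt4 p q r (fun i => (B.card : ℝ)⁻¹ * ∑ z ∈ B, P z i) =
      (B.card : ℝ)⁻¹ * ∑ z ∈ B, dt4 p q r (P z) := by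
  have hN : (B.card : ℝ) ≠ 0 := Nat.cast_ne_zero.mpr hB.card_pos.ne'
  simp only [z3_dt]
  generalize ((q 1 - p 1) * (r 2 - p 2) - (q 2 - p 2) * (r 1 - p 1)) = K0
  generalize ((q 2 - p 2) * (r 0 - p 0) - (q 0 - p 0) * (r 2 - p 2)) = K1
  generalize ((q 0 - p 0) * (r 1 - p 1) - (q 1 - p 1) * (r 0 - p 0)) = K2
  rw [Finset.sum_add_distrib, Finset.sum_add_distrib, ← Finset.mul_sum, ← Finset.mul_sum,
    ← Finset.mul_sum, Finset.sum_sub_distrib, Finset.sum_sub_distrib, Finset.sum_sub_distrib,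
    Finset.sum_const, Finset.sum_const, Finset.sum_const, nsmul_eq_mul, nsmul_eq_mul,
    nsmul_eq_mul]
  field_simp

theorem Sph.supp_sub (S : Sph V) {P : V → Fin 3 → ℝ} (hP : S.Pos P) (h4 : 4 ≤ Fintype.card V)
    (A : Finset V) (hA : Supp P A) (hne : A ≠ Finset.univ) :
    ∃ u v w, S.T u v w ∧ A ⊆ {u, v, w} := by
  obtain ⟨a, c, hle, hiff⟩ := hA
  have hcard : 0 < Fintype.card V := by omega
  obtain ⟨v0⟩ : Nonempty V := Fintype.card_pos_iff.mp hcard
  have : Nonempty V := ⟨v0⟩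
  rcases A.eq_empty_or_nonempty with rfl | hAn
  · obtain ⟨v, w, h⟩ := S.cov v0
    exact ⟨v0, v, w, h, Finset.empty_subset _⟩
  have hnn : ∀ u v w, S.T u v w → ∀ z, 0 ≤ dt4 (P u) (P v) (P w) (P z) := by
    intro u v w hT z
    by_cases h1 : z = u
    · rw [h1]; refine le_of_eq ?_; unfold dt4; ring
    by_cases h2 : z = v
    · rw [h2]; refine le_of_eq ?_; unfold dt4; ring
    by_cases h3 : z = w
    · rw [h3]; refine le_of_eq ?_; unfold dt4; ring
    exact (hP u v w z hT h1 h2 h3).le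
  have hNp : (0 : ℝ) < ((Finset.univ : Finset V).card : ℝ) :=
    Nat.cast_pos.mpr (by rw [Finset.card_univ]; exact hcard)
  obtain ⟨o, ho⟩ : ∃ o : Fin 3 → ℝ,
      o = fun i => ((Finset.univ : Finset V).card : ℝ)⁻¹ * ∑ z ∈ Finset.univ, P z i := ⟨_, rfl⟩
  have hopos : ∀ u v w, S.T u v w → 0 < dt4 (P u) (P v) (P w) o := by
    intro u v w hT
    rw [ho, z3_avg P _ _ _ _ Finset.univ_nonempty]
    refine mul_pos (inv_pos.mpr hNp) ?_
    have hz : ∃ z, z ∉ ({u, v, w} : Finset V) := by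
      by_contra hcon
      push Not at hcon
      have h1 : (Finset.univ : Finset V) ⊆ {u, v, w} := fun z _ => hcon z
      have h2 := Finset.card_le_card h1
      rw [Finset.card_univ] at h2
      have h3 : ({u, v, w} : Finset V).card ≤ 3 := Finset.card_le_three
      omega
    obtain ⟨z, hz⟩ := hz
    simp only [Finset.mem_insert, Finset.mem_singleton, not_or] at hz
    exact Finset.sum_pos' (fun z _ => hnn u v w hT z)
      ⟨z, Finset.mem_univ _, hP u v w z hT hz.1 hz.2.1 hz.2.2⟩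
  obtain ⟨y, hy⟩ : ∃ y : Fin 3 → ℝ, y = fun i => (A.card : ℝ)⁻¹ * ∑ z ∈ A, P z i := ⟨_, rfl⟩
  have hAp : (0 : ℝ) < (A.card : ℝ) := Nat.cast_pos.mpr hAn.card_pos
  have hlin : ∀ B : Finset V,
      ∑ i, a i * ((B.card : ℝ)⁻¹ * ∑ z ∈ B, P z i) =
        (B.card : ℝ)⁻¹ * ∑ z ∈ B, ∑ i, a i * P z i := by
    intro B
    simp only [Finset.mul_sum]
    rw [Finset.sum_comm]
    refine Finset.sum_congr rfl fun z _ => Finset.sum_congr rfl fun i _ => ?_
    ring
  have hly : ∑ i, a i * y i = c := by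
    have h1 : ∑ i, a i * y i = (A.card : ℝ)⁻¹ * ∑ z ∈ A, ∑ i, a i * P z i := by
      rw [hy]; exact hlin A
    rw [h1, Finset.sum_congr rfl fun z hz => (hiff z).mp hz, Finset.sum_const, nsmul_eq_mul,
      ← mul_assoc, inv_mul_cancel₀ hAp.ne', one_mul]
  have hlo : ∑ i, a i * o i < c := by
    have h1 : ∑ i, a i * o i =
        ((Finset.univ : Finset V).card : ℝ)⁻¹ * ∑ z ∈ Finset.univ, ∑ i, a i * P z i := by
      rw [ho]; exact hlin Finset.univ
    obtain ⟨z0, hz0⟩ : ∃ z0, z0 ∉ A := by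
      by_contra hcon
      push Not at hcon
      exact hne (Finset.eq_univ_iff_forall.mpr hcon)
    have h2 : ∑ z, ∑ i, a i * P z i < ∑ z : V, c :=
      Finset.sum_lt_sum (fun z _ => hle z)
        ⟨z0, Finset.mem_univ _, lt_of_le_of_ne (hle z0) (fun h => hz0 ((hiff z0).mpr h))⟩
    rw [Finset.sum_const, nsmul_eq_mul] at h2
    rw [h1, inv_mul_lt_iff₀ hNp]
    exact h2
  obtain ⟨u, v, w, hT, α, β, γ, hα, hβ, hγ, hyo, hn⟩ := S.cone hP o hopos y
  refine ⟨u, v, w, hT, ?_⟩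
  have h0 := hyo 0
  have h1 := hyo 1
  have h2 := hyo 2
  have hu := hle u
  have hv := hle v
  have hw := hle w
  simp only [Fin.sum_univ_three] at hly hlo hu hv hw
  have hkey : c - (a 0 * o 0 + a 1 * o 1 + a 2 * o 2) =
      α * (a 0 * P u 0 + a 1 * P u 1 + a 2 * P u 2 - (a 0 * o 0 + a 1 * o 1 + a 2 * o 2)) +
      β * (a 0 * P v 0 + a 1 * P v 1 + a 2 * P v 2 - (a 0 * o 0 + a 1 * o 1 + a 2 * o 2)) +
      γ * (a 0 * P w 0 + a 1 * P w 1 + a 2 * P w 2 - (a 0 * o 0 + a 1 * o 1 + a 2 * o 2)) := by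
    linear_combination (-1) * hly + a 0 * h0 + a 1 * h1 + a 2 * h2
  have ht : 1 ≤ α + β + γ := by
    have i1 := mul_le_mul_of_nonneg_left
      (sub_le_sub_right hu (a 0 * o 0 + a 1 * o 1 + a 2 * o 2)) hα
    have i2 := mul_le_mul_of_nonneg_left
      (sub_le_sub_right hv (a 0 * o 0 + a 1 * o 1 + a 2 * o 2)) hβ
    have i3 := mul_le_mul_of_nonneg_left
      (sub_le_sub_right hw (a 0 * o 0 + a 1 * o 1 + a 2 * o 2)) hγ
    have i4 : 0 < c - (a 0 * o 0 + a 1 * o 1 + a 2 * o 2) := by linarith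
    have i5 : (c - (a 0 * o 0 + a 1 * o 1 + a 2 * o 2)) * 1 ≤
        (c - (a 0 * o 0 + a 1 * o 1 + a 2 * o 2)) * (α + β + γ) := by linarith
    exact le_of_mul_le_mul_left i5 i4
  have hd0 := hopos u v w hT
  have hdy : dt4 (P u) (P v) (P w) y ≤ 0 := by
    unfold nT at hn
    have h3 : dt4 (P u) (P v) (P w) y / dt4 (P u) (P v) (P w) o ≤ 0 := by linarith
    by_contra hcon
    push Not at hcon
    exact absurd (div_pos hcon hd0) (not_lt.mpr h3)
  rw [hy, z3_avg P _ _ _ _ hAn] at hdy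
  intro z hz
  by_contra hcon
  simp only [Finset.mem_insert, Finset.mem_singleton, not_or] at hcon
  have h3 : 0 < ∑ z ∈ A, dt4 (P u) (P v) (P w) (P z) :=
    Finset.sum_pos' (fun z _ => hnn u v w hT z)
      ⟨z, hz, hP u v w z hT hcon.1 hcon.2.1 hcon.2.2⟩
  exact absurd (mul_pos (inv_pos.mpr hAp) h3) (not_lt.mpr hdy)

end Pool.SX
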