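import Pool.Agent.Lib.MP_9dcace_sx.Z3

/-!
ROW Z4 (subsets of facets are supporting sets; injectivity, convex position, affine span).
-/

set_option autoImplicit false

open Classical

namespace Pool.SX

variable {V : Type} [Fintype V]

/-- affine functions -/
private def Z4_Aff (G : (Fin 3 → ℝ) → ℝ) : Prop :=
  ∃ (a : Fin 3 → ℝ) (c : ℝ), ∀ x, G x = ∑ i, a i * x i - c

private theorem Z4_dt (p q r : Fin 3 → ℝ) : Z4_Aff (fun x => dt4 p q r x) := by
  refine ⟨![(q 1 - p 1) * (r 2 - p 2) - (q 2 - p 2) * (r 1 - p 1),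
    (q 2 - p 2) * (r 0 - p 0) - (q 0 - p 0) * (r 2 - p 2),
    (q 0 - p 0) * (r 1 - p 1) - (q 1 - p 1) * (r 0 - p 0)],
    ((q 1 - p 1) * (r 2 - p 2) - (q 2 - p 2) * (r 1 - p 1)) * p 0 +
    ((q 2 - p 2) * (r 0 - p 0) - (q 0 - p 0) * (r 2 - p 2)) * p 1 +
    ((q 0 - p 0) * (r 1 - p 1) - (q 1 - p 1) * (r 0 - p 0)) * p 2, fun x => ?_⟩
  rw [Fin.sum_univ_three]
  simp only [dt4, Matrix.cons_val_zero, Matrix.cons_val_one, Matrix.cons_val]
  ring

private theorem Z4_lin {G H : (Fin 3 → ℝ) → ℝ} (hG : Z4_Aff G) (hH : Z4_Aff H) (s t : ℝ) :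
    Z4_Aff (fun x => s * G x + t * H x) := by
  obtain ⟨a, c, h1⟩ := hG
  obtain ⟨b, d, h2⟩ := hH
  refine ⟨fun i => s * a i + t * b i, s * c + t * d, fun x => ?_⟩
  beta_reduce
  rw [h1, h2]
  simp only [Fin.sum_univ_three]
  ring

private theorem Z4_s1 (p q r u : Fin 3 → ℝ) : dt4 p q r u = - dt4 u q r p := by
  simp only [dt4]
  ring

private theorem Z4_s2 (p q r u : Fin 3 → ℝ) : dt4 p q r u = - dt4 p u r q := by
  simp only [dt4]
  ring

private theorem Z4_s3 (p q r u : Fin 3 → ℝ) : dt4 p q r u = - dt4 p q u r := by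
  simp only [dt4]
  ring

private theorem Z4_z1 (p q r : Fin 3 → ℝ) : dt4 p q r p = 0 := by
  simp only [dt4]
  ring

private theorem Z4_z2 (p q r : Fin 3 → ℝ) : dt4 p q r q = 0 := by
  simp only [dt4]
  ring

private theorem Z4_z3 (p q r : Fin 3 → ℝ) : dt4 p q r r = 0 := by
  simp only [dt4]
  ring

private theorem Z4_z4 (p r u : Fin 3 → ℝ) : dt4 p p r u = 0 := by
  simp only [dt4]
  ring

private theorem Z4_z5 (p q u : Fin 3 → ℝ) : dt4 p q p u = 0 := by
  simp only [dt4]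
  ring

private theorem Z4_z6 (p q u : Fin 3 → ℝ) : dt4 p q q u = 0 := by
  simp only [dt4]
  ring

private theorem Z4_other (h4 : 4 ≤ Fintype.card V) (u v w : V) : ∃ z : V, z ≠ u ∧ z ≠ v ∧ z ≠ w := by
  by_contra hcon
  push Not at hcon
  have h1 : (Finset.univ : Finset V) ⊆ {u, v, w} := by
    intro z _
    by_cases hu : z = u
    · simp [hu]
    · by_cases hv : z = v
      · simp [hv]
      · simp [hcon z hu hv]
  have h2 := Finset.card_le_card h1
  rw [Finset.card_univ] at h2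
  have h3 : ({u, v, w} : Finset V).card ≤ 3 := Finset.card_le_three
  omega

/-- a small factor -/
private theorem Z4_eps (W : V → Prop) (d s : V → ℝ) (hd : ∀ z, W z → 0 < d z) :
    ∃ ε : ℝ, 0 < ε ∧ ∀ z, W z → ε * |s z| < d z := by
  have h1 : ∀ᶠ ε in nhdsWithin (0 : ℝ) (Set.Ioi 0), ∀ z, W z → ε * |s z| < d z := by
    rw [Filter.eventually_all]
    intro z
    by_cases hz : W z
    · have h2 : Filter.Tendsto (fun ε : ℝ => ε * |s z|) (nhdsWithin 0 (Set.Ioi 0)) (nhds 0) := by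
        have h3 : Filter.Tendsto (fun ε : ℝ => ε * |s z|) (nhds 0) (nhds (0 * |s z|)) :=
          (continuous_id.mul continuous_const).tendsto 0
        rw [zero_mul] at h3
        exact h3.mono_left nhdsWithin_le_nhds
      filter_upwards [h2.eventually_lt_const (hd z hz)] with ε h4 _
      exact h4
    · exact Filter.Eventually.of_forall fun ε h => absurd h hz
  obtain ⟨ε, h2, h3⟩ := (h1.and self_mem_nhdsWithin).exists
  exact ⟨ε, h3, h2⟩

theorem Sph.sub_supp (S : Sph V) {P : V → Fin 3 → ℝ} (hP : S.Pos P) (h4 : 4 ≤ Fintype.card V)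
    (A : Finset V) (hA : A = Finset.univ ∨ ∃ u v w, S.T u v w ∧ A ⊆ {u, v, w}) : Supp P A := by
  rcases hA with rfl | ⟨u, v, w, hT, hA⟩
  · exact ⟨0, 0, fun v => by simp, fun v => by simp⟩
  obtain ⟨z0, hzu, hzv, hzw⟩ := Z4_other h4 u v w
  have hD := hP u v w z0 hT hzu hzv hzw
  set D := dt4 (P u) (P v) (P w) (P z0) with hDdef
  have huv : u ≠ v := S.ne hT
  have hvw : v ≠ w := S.ne (S.rot hT)
  have hwu : w ≠ u := S.ne (S.rot (S.rot hT))
  set eu : ℝ := if u ∈ A then 0 else 1 with heu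
  set ev : ℝ := if v ∈ A then 0 else 1 with hev
  set ew : ℝ := if w ∈ A then 0 else 1 with hew
  set Λ : (Fin 3 → ℝ) → ℝ := fun x => eu * dt4 x (P v) (P w) (P z0) + (ev * dt4 (P u) x (P w) (P z0) +
    ew * dt4 (P u) (P v) x (P z0)) with hΛ
  obtain ⟨ε, hε, hεz⟩ := Z4_eps (fun z => z ≠ u ∧ z ≠ v ∧ z ≠ w)
    (fun z => dt4 (P u) (P v) (P w) (P z)) (fun z => Λ (P z))
    (fun z hz => hP u v w z hT hz.1 hz.2.1 hz.2.2)
  have hΛa : Z4_Aff Λ := by
    have h1 : Z4_Aff (fun x => dt4 x (P v) (P w) (P z0)) := by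
      obtain ⟨a, c, h⟩ := Z4_lin (Z4_dt (P z0) (P v) (P w)) (Z4_dt (P z0) (P v) (P w)) (-1) 0
      exact ⟨a, c, fun x => by rw [← h]; beta_reduce; rw [Z4_s1]; ring⟩
    have h2 : Z4_Aff (fun x => dt4 (P u) x (P w) (P z0)) := by
      obtain ⟨a, c, h⟩ := Z4_lin (Z4_dt (P u) (P z0) (P w)) (Z4_dt (P u) (P z0) (P w)) (-1) 0
      exact ⟨a, c, fun x => by rw [← h]; beta_reduce; rw [Z4_s2]; ring⟩
    have h3 : Z4_Aff (fun x => dt4 (P u) (P v) x (P z0)) := by
      obtain ⟨a, c, h⟩ := Z4_lin (Z4_dt (P u) (P v) (P z0)) (Z4_dt (P u) (P v) (P z0)) (-1) 0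
      exact ⟨a, c, fun x => by rw [← h]; beta_reduce; rw [Z4_s3]; ring⟩
    obtain ⟨a, c, h⟩ := Z4_lin h1 (Z4_lin h2 h3 ev ew) eu 1
    exact ⟨a, c, fun x => by
      rw [← h]
      simp only [hΛ, one_mul]⟩
  obtain ⟨a, c, hG⟩ := Z4_lin (Z4_dt (P u) (P v) (P w)) hΛa (-1) (-ε)
  have hval : ∀ z, ∑ i, a i * P z i = c + (-1 * dt4 (P u) (P v) (P w) (P z) + -ε * Λ (P z)) := by
    intro z
    have h1 := hG (P z)
    simp only at h1
    linarith
  have hΛu : Λ (P u) = eu * D := by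
    simp only [hΛ]
    rw [Z4_z4, Z4_z5]
    ring
  have hΛv : Λ (P v) = ev * D := by
    simp only [hΛ]
    rw [Z4_z4, Z4_z6]
    ring
  have hΛw : Λ (P w) = ew * D := by
    simp only [hΛ]
    rw [Z4_z5, Z4_z6]
    ring
  have hcase : ∀ z e, (e = if z ∈ A then (0 : ℝ) else 1) → dt4 (P u) (P v) (P w) (P z) = 0 →
      Λ (P z) = e * D → (∑ i, a i * P z i ≤ c ∧ (z ∈ A ↔ ∑ i, a i * P z i = c)) := by
    intro z e he h0 h1
    rw [hval, h0, h1]
    by_cases hz : z ∈ A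
    · rw [if_pos hz] at he
      rw [he]
      simp [hz]
    · rw [if_neg hz] at he
      rw [he]
      have h2 : 0 < ε * D := mul_pos hε hD
      refine ⟨by linarith, ⟨fun h => absurd h hz, fun h => ?_⟩⟩
      exfalso
      linarith
  have hall : ∀ z, (∑ i, a i * P z i ≤ c ∧ (z ∈ A ↔ ∑ i, a i * P z i = c)) := by
    intro z
    by_cases hu : z = u
    · rw [hu]
      exact hcase u eu heu (Z4_z1 _ _ _) hΛu
    by_cases hv : z = v
    · rw [hv]
      exact hcase v ev hev (Z4_z2 _ _ _) hΛv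
    by_cases hw : z = w
    · rw [hw]
      exact hcase w ew hew (Z4_z3 _ _ _) hΛw
    have h1 := hεz z ⟨hu, hv, hw⟩
    have h2 : -(ε * Λ (P z)) ≤ ε * |Λ (P z)| := by
      rw [← mul_neg]
      exact mul_le_mul_of_nonneg_left (neg_le_abs _) hε.le
    have h3 : ∑ i, a i * P z i < c := by
      rw [hval]
      linarith
    refine ⟨h3.le, ⟨fun h => ?_, fun h => absurd h h3.ne⟩⟩
    have h5 := hA h
    simp only [Finset.mem_insert, Finset.mem_singleton] at h5
    rcases h5 with h5 | h5 | h5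
    · exact absurd h5 hu
    · exact absurd h5 hv
    · exact absurd h5 hw
  exact ⟨a, c, fun z => (hall z).1, fun z => (hall z).2⟩

theorem Sph.supp_iff (S : Sph V) {P : V → Fin 3 → ℝ} (hP : S.Pos P) (h4 : 4 ≤ Fintype.card V)
    (A : Finset V) : Supp P A ↔ (A = Finset.univ ∨ ∃ u v w, S.T u v w ∧ A ⊆ {u, v, w}) := by
  constructor
  · intro h
    by_cases hne : A = Finset.univ
    · exact Or.inl hne
    · exact Or.inr (S.supp_sub hP h4 A h hne)
  · exact S.sub_supp hP h4 A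

theorem Sph.pos_inj (S : Sph V) {P : V → Fin 3 → ℝ} (hP : S.Pos P) (h4 : 4 ≤ Fintype.card V) :
    Function.Injective P := by
  intro u v huv
  by_contra hne
  obtain ⟨x, y, hT⟩ := S.cov u
  by_cases hx : v = x
  · obtain ⟨z, h1, h2, h3⟩ := Z4_other h4 u x y
    have h5 := hP u x y z hT h1 h2 h3
    rw [← hx, ← huv, Z4_z4] at h5
    exact lt_irrefl _ h5
  · by_cases hy : v = y
    · obtain ⟨z, h1, h2, h3⟩ := Z4_other h4 u x y
      have h5 := hP u x y z hT h1 h2 h3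
      rw [← hy, ← huv, Z4_z5] at h5
      exact lt_irrefl _ h5
    · have h5 := hP u x y v hT (Ne.symm hne) hx hy
      rw [← huv, Z4_z1] at h5
      exact lt_irrefl _ h5

theorem Sph.pos_convex (S : Sph V) {P : V → Fin 3 → ℝ} (hP : S.Pos P)
    (h4 : 4 ≤ Fintype.card V) (v : V) : P v ∉ convexHull ℝ (P '' {v}ᶜ) := by
  obtain ⟨x, y, hT⟩ := S.cov v
  obtain ⟨a, c, h1, h2⟩ := S.sub_supp hP h4 {v} (Or.inr ⟨v, x, y, hT, by simp⟩)
  intro h
  have hlin : IsLinearMap ℝ (fun z : Fin 3 → ℝ => ∑ i, a i * z i) := by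
    refine ⟨fun p q => ?_, fun t p => ?_⟩
    · simp only [Pi.add_apply, mul_add, Finset.sum_add_distrib]
    · simp only [Pi.smul_apply, smul_eq_mul, Finset.mul_sum]
      exact Finset.sum_congr rfl fun i _ => by ring
  have h3 : convexHull ℝ (P '' {v}ᶜ) ⊆ {z : Fin 3 → ℝ | ∑ i, a i * z i < c} := by
    refine convexHull_min ?_ (convex_halfSpace_lt hlin c)
    rintro _ ⟨w, hw, rfl⟩
    refine lt_of_le_of_ne (h1 w) fun h5 => hw ?_
    have h6 := (h2 w).2 h5
    simpa using h6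
  have h5 : ∑ i, a i * P v i < c := h3 h
  have h6 := (h2 v).1 (by simp)
  exact absurd h6 h5.ne

theorem Sph.pos_span (S : Sph V) {P : V → Fin 3 → ℝ} (hP : S.Pos P) (h4 : 4 ≤ Fintype.card V) :
    affineSpan ℝ (Set.range P) = ⊤ := by
  have hne : Nonempty V := Fintype.card_pos_iff.1 (by omega)
  obtain ⟨u⟩ := hne
  obtain ⟨v, w, hT⟩ := S.cov u
  obtain ⟨z, hzu, hzv, hzw⟩ := Z4_other h4 u v w
  have hD := hP u v w z hT hzu hzv hzw
  set D := dt4 (P u) (P v) (P w) (P z) with hDdef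
  rw [eq_top_iff]
  intro x _
  have hm : ∀ t, P t ∈ affineSpan ℝ (Set.range P) := fun t =>
    subset_affineSpan ℝ _ (Set.mem_range_self t)
  have m1 := (affineSpan ℝ (Set.range P)).smul_vsub_vadd_mem
    (dt4 (P u) x (P w) (P z) / D) (hm v) (hm u) (hm u)
  have m2 := (affineSpan ℝ (Set.range P)).smul_vsub_vadd_mem
    (dt4 (P u) (P v) x (P z) / D) (hm w) (hm u) m1
  have m3 := (affineSpan ℝ (Set.range P)).smul_vsub_vadd_mem
    (dt4 (P u) (P v) (P w) x / D) (hm z) (hm u) m2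
  convert m3 using 1
  have key : ∀ i, D * (x i - P u i) = dt4 (P u) x (P w) (P z) * (P v i - P u i) +
      dt4 (P u) (P v) x (P z) * (P w i - P u i) + dt4 (P u) (P v) (P w) x * (P z i - P u i) := by
    intro i
    rw [hDdef]
    fin_cases i <;> simp [dt4] <;> ring
  ext i
  simp only [vsub_eq_sub, vadd_eq_add, Pi.add_apply, Pi.smul_apply, Pi.sub_apply, smul_eq_mul]
  have h5 := key i
  field_simp
  linarith

end Pool.SX
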