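import Pool.Agent.Lib.MP_9dcace_sx.T11
import Pool.Agent.Lib.MP_9dcace_sx.T6
import Pool.Agent.Lib.MP_9dcace_sx.Z1

/-!
ROW Z5 (integer configuration from an equilibrium drawing).
h from `Sch.lift_main`; M := 1 + 2 * hi * card F (>= 1), δ := lo * A^2 / 3.  P v := lft (p v) (h v), coordinates in [0, M] (`in_tri`, `lift_main`).
For T u v w and z not in {u,v,w}: `SchOf.all`: a rotation of a face g (dt4 is invariant under rotation, k = 0, 1, 2): A * (lo * A) >= δ; z is not incident with g;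
or a rotation of the outer triangle; z is then different from a 0, a 1, a 2, so z is inner: lo * A / 3 >= lo * A^2 / 3 as A <= 1.
`round_pos` gives g.  43 M^3 / δ = 129 (1 + 2 hi card F)^3 / (lo A^2).
-/

set_option autoImplicit false

open Classical

namespace Pool.SX

variable {V F : Type} [Fintype V] [Fintype F]

private theorem z5_rot (p q r u : Fin 3 → ℝ) : dt4 q r p u = dt4 p q r u := by
  unfold dt4; ring

private theorem z5_cases (j k : Fin 3) : j = k ∨ j = k + 1 ∨ j = k + 2 := by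
  revert j k; decide

private theorem z5_pos {S : Sph V} {s : Sch V F} (hs : SchOf S s) (P : V → Fin 3 → ℝ) (δ : ℝ)
    (h1 : ∀ g v, ¬ s.Inc v g → δ ≤ dt4 (P (s.t 0 g)) (P (s.t 1 g)) (P (s.t 2 g)) (P v))
    (h2 : ∀ v, s.inn v → δ ≤ dt4 (P (s.a 1)) (P (s.a 0)) (P (s.a 2)) (P v))
    (u v w z : V) (hT : S.T u v w) (hu : z ≠ u) (hv : z ≠ v) (hw : z ≠ w) :
    δ ≤ dt4 (P u) (P v) (P w) (P z) := by
  have hinn : ∀ (_ : z ≠ s.a 0) (_ : z ≠ s.a 1) (_ : z ≠ s.a 2), s.inn z := by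
    intro a0 a1 a2 k
    fin_cases k
    · exact a0
    · exact a1
    · exact a2
  rcases hs.all u v w hT with ⟨g, k, hu', hv', hw'⟩ | ⟨hu', hv', hw'⟩ | ⟨hu', hv', hw'⟩ |
    ⟨hu', hv', hw'⟩
  · have hz : ¬ s.Inc z g := by
      rintro ⟨j, hj⟩
      rcases z5_cases j k with h | h | h
      · exact hu (by rw [hu', ← h, hj])
      · exact hv (by rw [hv', ← h, hj])
      · exact hw (by rw [hw', ← h, hj])
    have key := h1 g z hz
    rw [hu', hv', hw']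
    fin_cases k
    · exact key
    · show δ ≤ dt4 (P (s.t 1 g)) (P (s.t 2 g)) (P (s.t 0 g)) (P z)
      rw [z5_rot]
      exact key
    · show δ ≤ dt4 (P (s.t 2 g)) (P (s.t 0 g)) (P (s.t 1 g)) (P z)
      rw [z5_rot, z5_rot]
      exact key
  · rw [hu', hv', hw']
    exact h2 z (hinn (hv' ▸ hv) (hu' ▸ hu) (hw' ▸ hw))
  · rw [hu', hv', hw', z5_rot]
    exact h2 z (hinn (hu' ▸ hu) (hw' ▸ hw) (hv' ▸ hv))
  · rw [hu', hv', hw', z5_rot, z5_rot]
    exact h2 z (hinn (hw' ▸ hw) (hv' ▸ hv) (hu' ▸ hu))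

theorem SchOf.grid {S : Sph V} {s : Sch V F} (hs : SchOf S s) {wt : Fin 3 → V → ℝ}
    {p : V → ℝ × ℝ} {lo hi A : ℝ} (hd : s.Drw wt p lo hi A) (hhi : 0 ≤ hi) (hlo1 : lo ≤ 1)
    (hA1 : A ≤ 1) :
    ∃ g : V → Fin 3 → ℕ, S.Pos (fun v i => (g v i : ℝ)) ∧
      ∀ v i, ((g v i : ℕ) : ℝ) ≤ 129 * (1 + 2 * hi * Fintype.card F) ^ 3 / (lo * A ^ 2) := by
  obtain ⟨h, hh, hf, ho⟩ := s.lift_main hd hhi
  have hlo := hd.lo_pos
  have hA := hd.A_pos
  have hcard : (0 : ℝ) ≤ Fintype.card F := Nat.cast_nonneg _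
  have hMh : 0 ≤ 2 * hi * (Fintype.card F : ℝ) := by positivity
  have hM : 1 ≤ 1 + 2 * hi * (Fintype.card F : ℝ) := by linarith
  have hA2 : A ^ 2 ≤ A := by nlinarith
  have hδ : 0 < lo * A ^ 2 / 3 := by positivity
  have hA21 : A ^ 2 ≤ 1 := by linarith
  have hlA : lo * A ^ 2 ≤ 1 := by
    have : lo * A ^ 2 ≤ 1 * 1 := mul_le_mul hlo1 hA21 (by positivity) (by norm_num)
    linarith
  have hδ1 : lo * A ^ 2 / 3 ≤ 1 := by linarith
  have hP : ∀ (v : V) (i : Fin 3), 0 ≤ lft (p v) (h v) i ∧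
      lft (p v) (h v) i ≤ 1 + 2 * hi * (Fintype.card F : ℝ) := by
    intro v i
    obtain ⟨t1, t2, t3⟩ := s.in_tri hd v
    obtain ⟨b1, b2⟩ := hh v
    fin_cases i
    · show 0 ≤ (p v).1 ∧ (p v).1 ≤ 1 + 2 * hi * (Fintype.card F : ℝ)
      exact ⟨t1, by linarith⟩
    · show 0 ≤ (p v).2 ∧ (p v).2 ≤ 1 + 2 * hi * (Fintype.card F : ℝ)
      exact ⟨t2, by linarith⟩
    · show 0 ≤ h v ∧ h v ≤ 1 + 2 * hi * (Fintype.card F : ℝ)
      exact ⟨b1, by linarith⟩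
  obtain ⟨g, hg1, hg2⟩ := round_pos (fun v => lft (p v) (h v))
    (1 + 2 * hi * (Fintype.card F : ℝ)) (lo * A ^ 2 / 3) hM hδ hδ1 hP
  refine ⟨g, ?_, ?_⟩
  · intro u v w z hT hu hv hw
    apply hg2
    refine z5_pos hs (fun v => lft (p v) (h v)) (lo * A ^ 2 / 3) ?_ ?_ u v w z hT hu hv hw
    · intro g' v' hv'
      have := hf g' v' hv'
      have e : A * (lo * A) = lo * A ^ 2 := by ring
      have hpos : 0 < lo * A ^ 2 := by positivity
      show lo * A ^ 2 / 3 ≤ dt4 (lft (p (s.t 0 g')) (h (s.t 0 g')))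
        (lft (p (s.t 1 g')) (h (s.t 1 g'))) (lft (p (s.t 2 g')) (h (s.t 2 g')))
        (lft (p v') (h v'))
      linarith
    · intro v' hv'
      have := ho v' hv'
      have e : lo * A ^ 2 ≤ lo * A := mul_le_mul_of_nonneg_left hA2 hlo.le
      show lo * A ^ 2 / 3 ≤ dt4 (lft (p (s.a 1)) (h (s.a 1)))
        (lft (p (s.a 0)) (h (s.a 0))) (lft (p (s.a 2)) (h (s.a 2)))
        (lft (p v') (h v'))
      linarith
  · intro v i
    have h1 := hg1 v i
    have e : 43 * (1 + 2 * hi * (Fintype.card F : ℝ)) ^ 3 / (lo * A ^ 2 / 3) =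
        129 * (1 + 2 * hi * (Fintype.card F : ℝ)) ^ 3 / (lo * A ^ 2) := by
      field_simp
      ring
    rw [e] at h1
    exact h1

end Pool.SX
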