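import Pool.Agent.Lib.MP_9dcace_sx.Z4
import Pool.Agent.Lib.MP_9dcace_sx.Z5

/-!
ROW Z6 (transfer to the formulation of the problem).
Let V be a finite set of points of ℝ^3 with its subtype ↥V, S a sphere on ↥V which is realized by V itself and by an integer configuration g with
coordinates at most N.  Then the function G x := if h : x ∈ V then (fun i => (g ⟨x,h⟩ i : ℝ)) else 0 has all the required properties.
 * InjOn: `pos_inj`.  * span: G '' V = Set.range (fun v : ↥V => ...) and `pos_span`.  * convex position: G '' (V \ {v}) = P '' {⟨v,_⟩}ᶜ and `pos_convex`.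
 * for B ⊆ V (Finset): let A := univ.filter (fun v : ↥V => (v : _) ∈ B).  The left property is Supp (fun v : ↥V => v) A and the right one is Supp g A
   (quantifiers over x ∈ V versus over the subtype), and both are equivalent to the same condition by `supp_iff`.
-/

set_option autoImplicit false

open Classical

namespace Pool.SX

private noncomputable def z6G (V : Finset (Fin 3 → ℝ)) (g : V → Fin 3 → ℕ)
    (x : Fin 3 → ℝ) : Fin 3 → ℝ :=
  if h : x ∈ V then (fun i => (g ⟨x, h⟩ i : ℝ)) else 0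

private theorem z6G_mem (V : Finset (Fin 3 → ℝ)) (g : V → Fin 3 → ℕ) (x : Fin 3 → ℝ)
    (hx : x ∈ V) : z6G V g x = fun i => (g ⟨x, hx⟩ i : ℝ) := by
  unfold z6G
  rw [dif_pos hx]

/-- the set form of the supporting property -/
private theorem z6_supp (V : Finset (Fin 3 → ℝ)) (G : (Fin 3 → ℝ) → (Fin 3 → ℝ))
    (P : V → Fin 3 → ℝ) (hP : ∀ v : V, G v = P v) (B : Finset (Fin 3 → ℝ)) (A : Finset V)
    (hA : ∀ v : V, v ∈ A ↔ (v : Fin 3 → ℝ) ∈ B) :
    (∃ a : Fin 3 → ℝ, ∃ c : ℝ,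
        (∀ x ∈ V, ∑ i, a i * G x i ≤ c) ∧
        ∀ x ∈ V, (x ∈ B ↔ ∑ i, a i * G x i = c)) ↔ Supp P A := by
  constructor
  · rintro ⟨a, c, h1, h2⟩
    refine ⟨a, c, fun v => ?_, fun v => ?_⟩
    · have := h1 v v.2
      rw [hP v] at this
      exact this
    · have := h2 v v.2
      rw [hP v] at this
      exact (hA v).trans this
  · rintro ⟨a, c, h1, h2⟩
    refine ⟨a, c, fun x hx => ?_, fun x hx => ?_⟩
    · have := h1 ⟨x, hx⟩
      rw [← hP ⟨x, hx⟩] at this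
      exact this
    · have := h2 ⟨x, hx⟩
      rw [← hP ⟨x, hx⟩] at this
      exact (hA ⟨x, hx⟩).symm.trans this

theorem transfer (V : Finset (Fin 3 → ℝ)) (S : Sph V) (hS : S.Pos (fun v : V => (v : Fin 3 → ℝ)))
    (h4 : 4 ≤ Fintype.card V) (N : ℕ) (g : V → Fin 3 → ℕ) (hg : S.Pos (fun v i => (g v i : ℝ)))
    (hN : ∀ v i, g v i ≤ N) :
    ∃ G : (Fin 3 → ℝ) → (Fin 3 → ℝ),
        Set.InjOn G (V : Set (Fin 3 → ℝ)) ∧
        (∀ v ∈ V, ∀ i : Fin 3, ∃ m : ℕ, G v i = (m : ℝ) ∧ m ≤ N) ∧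
        affineSpan ℝ (G '' (V : Set (Fin 3 → ℝ))) = ⊤ ∧
        (∀ v ∈ V, G v ∉ convexHull ℝ (G '' ((V : Set (Fin 3 → ℝ)) \ {v}))) ∧
        ∀ B ⊆ V,
          ((∃ a : Fin 3 → ℝ, ∃ c : ℝ,
              (∀ x ∈ V, ∑ i, a i * x i ≤ c) ∧
              ∀ x ∈ V, (x ∈ B ↔ ∑ i, a i * x i = c)) ↔
           (∃ a : Fin 3 → ℝ, ∃ c : ℝ,
              (∀ x ∈ V, ∑ i, a i * G x i ≤ c) ∧
              ∀ x ∈ V, (x ∈ B ↔ ∑ i, a i * G x i = c))) := by
  refine ⟨z6G V g, ?_, ?_, ?_, ?_, ?_⟩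
  · intro x hx y hy hxy
    have hx' : x ∈ V := Finset.mem_coe.mp hx
    have hy' : y ∈ V := Finset.mem_coe.mp hy
    rw [z6G_mem V g x hx', z6G_mem V g y hy'] at hxy
    have := S.pos_inj hg h4 hxy
    exact congrArg Subtype.val this
  · intro v hv i
    refine ⟨g ⟨v, hv⟩ i, ?_, hN _ _⟩
    rw [z6G_mem V g v hv]
  · have e : z6G V g '' (V : Set (Fin 3 → ℝ)) =
        Set.range (fun (v : V) (i : Fin 3) => (g v i : ℝ)) := by
      ext y
      constructor
      · rintro ⟨x, hx, rfl⟩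
        have hx' : x ∈ V := Finset.mem_coe.mp hx
        exact ⟨⟨x, hx'⟩, (z6G_mem V g x hx').symm⟩
      · rintro ⟨v, rfl⟩
        exact ⟨v.1, Finset.mem_coe.mpr v.2, z6G_mem V g v.1 v.2⟩
    rw [e]
    exact S.pos_span hg h4
  · intro v hv
    have e : z6G V g '' ((V : Set (Fin 3 → ℝ)) \ {v}) =
        (fun (v : V) (i : Fin 3) => (g v i : ℝ)) '' {(⟨v, hv⟩ : V)}ᶜ := by
      ext y
      constructor
      · rintro ⟨x, ⟨hx, hxv⟩, rfl⟩
        have hx' : x ∈ V := Finset.mem_coe.mp hx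
        refine ⟨⟨x, hx'⟩, ?_, (z6G_mem V g x hx').symm⟩
        intro h
        exact hxv (congrArg Subtype.val (Set.mem_singleton_iff.mp h))
      · rintro ⟨w, hw, rfl⟩
        refine ⟨w.1, ⟨Finset.mem_coe.mpr w.2, ?_⟩, z6G_mem V g w.1 w.2⟩
        intro h
        exact hw (Set.mem_singleton_iff.mpr (Subtype.ext (Set.mem_singleton_iff.mp h)))
    rw [e, z6G_mem V g v hv]
    exact S.pos_convex hg h4 ⟨v, hv⟩
  · intro B _
    have hA : ∀ v : V, v ∈ Finset.univ.filter (fun v : V => (v : Fin 3 → ℝ) ∈ B) ↔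
        (v : Fin 3 → ℝ) ∈ B := by
      intro v
      simp
    have h1 := z6_supp V (fun x => x) (fun v : V => (v : Fin 3 → ℝ)) (fun _ => rfl) B _ hA
    have h2 := z6_supp V (z6G V g) (fun (v : V) (i : Fin 3) => (g v i : ℝ))
      (fun v => z6G_mem V g v.1 v.2) B _ hA
    exact h1.trans (((S.supp_iff hS h4 _).trans (S.supp_iff hg h4 _).symm).trans h2.symm)

end Pool.SX
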